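import Pool.Agent.Work.MP_0f91f8_co.FC.DefsS

/-!
# Block FC, module S (domination): statements with complete proofs (helper48)

Item `X`: statement `StX`, file `FC/I_X.lean`, theorem `pr_X`, namespace `Pool.Agent.F0f91f8.FC`. Earlier items may be
taken as hypotheses. `Q = w!`, `a = Q v + c`; `L_1 .. L_4` are `Lf κ n a 0 .. Lf κ n a 3`. Only `L_4` is quadratic.
-/

set_option autoImplicit false

namespace Pool.Agent.F0f91f8.FC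

open Filter Topology ComplexConjugate
open scoped BigOperators
open Pool.Agent.Work.MP_122e00_nt (ee)

/-! ## 1. Arithmetic large sieve -/

/-- [Ch] (EASY) Chebyshev, Mertens. `log (y!) = ∑_p v_p(y!) log p ≥ ∑_{p ≤ y} (y/p - 1) log p` and `log (y!) ≤ y log y`, so
`∑ log p / p ≤ log y + θ(y)/y ≤ log y + log 4 ≤ 3 log y` (`Chebyshev.theta_le_log4_mul_x` or a pool lemma). -/
def StCh : Prop := ∃ C : ℝ, 0 < C ∧ ∀ y : ℕ, 2 ≤ y →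
  ∑ p ∈ (Finset.Icc 1 y).filter Nat.Prime, Real.log p / p ≤ C * Real.log y

open Classical in
/-- [LSp] (EASY-MEDIUM) Montgomery's inequality for a prime. Put `S = ∑ c n ee(n α) = ∑_r S_r`, `S_r` the part with
`n % p = r`; at most `p - o` of the `S_r` are not zero, so `‖S‖² ≤ (p - o) ∑_r ‖S_r‖²` (Cauchy). By orthogonality
(`∑_{j < p} ee(j (n - n')/p) = p` or `0`) `∑_{j < p} ‖∑ c n ee(n (α + j/p))‖² = p ∑_r ‖S_r‖²`. Remove `j = 0`: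
`∑_{0 < j < p} .. ≥ p ∑_r ‖S_r‖² - ‖S‖² ≥ (p/(p-o) - 1) ‖S‖² = o/(p-o) ‖S‖²`. For `p` prime `j < p` is coprime to `p`
iff `j ≠ 0`. Tools: `MP_122e00_nt/Bd/B02.lean` (`ee_add`, `norm_ee`, `ee_one_period`). -/
def StLSp : Prop := ∀ (p N o : ℕ) (c : ℕ → ℂ), p.Prime → o < p →
  ((Finset.range p).filter fun r => ∃ n ∈ Finset.range N, n % p = r ∧ c n ≠ 0).card + o ≤ p →
  ∀ α : ℝ, (o : ℝ) / ((p : ℝ) - o) * ‖∑ n ∈ Finset.range N, c n * ee (n * α)‖ ^ 2 ≤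
    ∑ j ∈ (Finset.range p).filter (fun j => Nat.Coprime j p),
      ‖∑ n ∈ Finset.range N, c n * ee (n * (α + (j : ℝ) / p))‖ ^ 2

open Classical in
/-- [LSq] (MEDIUM) Montgomery's inequality for squarefree `q`, all twists `α`. Induction on the number of primes of `q`
(`q = 1`: equality). `q = q' p`, `p ∤ q'`: the reduced fractions `j/q` are, modulo 1, the sums `j'/q' + j''/p` of reduced
fractions (CRT, a bijection), and `ee (n x)` depends on `x` modulo 1. So the right side for `q` is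
`∑_{j'} ∑_{j''} ‖∑ c n ee(n (α + j'/q' + j''/p))‖² ≥ o(p)/(p - o(p)) ∑_{j'} ‖∑ c n ee(n (α + j'/q'))‖²` (`StLSp` with
`α + j'/q'`), then the induction hypothesis. (hp : StLSp) -/
def StLSq : Prop := ∀ (P : Finset ℕ) (o : ℕ → ℕ) (N : ℕ) (c : ℕ → ℂ),
  (∀ p ∈ P, p.Prime ∧ o p < p ∧
    ((Finset.range p).filter fun r => ∃ n ∈ Finset.range N, n % p = r ∧ c n ≠ 0).card + o p ≤ p) →
  ∀ q : ℕ, Squarefree q → q.primeFactors ⊆ P → ∀ α : ℝ,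
  (∏ p ∈ q.primeFactors, (o p : ℝ) / ((p : ℝ) - o p)) *
      ‖∑ n ∈ Finset.range N, c n * ee (n * α)‖ ^ 2 ≤
    ∑ j ∈ (Finset.range q).filter (fun j => Nat.Coprime j q),
      ‖∑ n ∈ Finset.range N, c n * ee (n * (α + (j : ℝ) / q))‖ ^ 2

/-- [LSb] (EASY) the arithmetic large sieve. `c n = 1` on `Z`, `0` elsewhere, `α = 0`; sum `StLSq` over the `q` of `Gs`
(`|Z|² ∏ ..` on the left) and use `farey_ls` (`MP_122e00_nt/Bd/B02.lean`; drop the other `q`): `|Z|² Gs ≤ (N + ..) |Z|`.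
Divide by `|Z|` (trivial if `Z = ∅`, right side nonnegative). (hq : StLSq) -/
def StLSb : Prop := ∀ (P : Finset ℕ) (o : ℕ → ℕ) (Z : Finset ℕ) (N F : ℕ),
  (∀ p ∈ P, p.Prime ∧ o p < p ∧ (Z.image fun z => z % p).card + o p ≤ p) →
  (∀ z ∈ Z, z < N) → 0 < F →
  (Z.card : ℝ) * Gs P o F ≤ (N : ℝ) + ((F ^ 2 : ℕ) : ℝ) * (harmonic (F ^ 2) : ℝ)

/-- [Rk] (MEDIUM) Rankin's trick. `g p = o p/(p - o p) ≤ 10/p`, `(1 - o p/p) (1 + g p) = 1`. Expand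
`∏_{p ∈ P} (1 + g p) = ∑_{A ⊆ P} g(A)`, `g(A) = ∏_{p ∈ A} g p`; the `A` with `∏ A ≤ F` give `Gs` (`q = ∏ A`). Tail, with
`η = 1/log y`: `∑_{∏ A > F} g(A) ≤ F^(-η) ∑_A g(A) (∏ A)^η = F^(-η) ∏ (1 + g p p^η)`, and
`1 + g p^η ≤ (1 + g)(1 + g (p^η - 1)) ≤ (1 + g) exp(g (p^η - 1))`, `p^η - 1 = e^t - 1 ≤ 2t`, `t = log p/log y ∈ [0,1]`.
So the tail is `≤ exp(-log F/log y + ∑ 20 log p/(p log y)) ∏ (1 + g) ≤ exp(20 C - R₀) ∏ (1 + g)` (`StCh`), which is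
`≤ ∏ (1 + g)/2` for `R₀ ≥ 20 C + 1`. (hCh : StCh) -/
def StRk : Prop := ∃ R₀ : ℕ, 0 < R₀ ∧ ∀ (y F : ℕ) (P : Finset ℕ) (o : ℕ → ℕ), 2 ≤ y →
  (∀ p ∈ P, p.Prime ∧ 10 < p ∧ p ≤ y) → (∀ p ∈ P, o p ≤ 5) → y ^ R₀ ≤ F →
  1 / 2 ≤ Gs P o F * ∏ p ∈ P, (1 - (o p : ℝ) / p)

/-! ## 2. The local densities -/

/-- [Rh] (EASY) `x² + 1` has at most two roots modulo a prime. -/
def StRh : Prop := ∀ p : ℕ, p.Prime → rho p ≤ 2

/-- [Rc] (EASY-MEDIUM) the number of `t` modulo `p` with `p ∣ L_1 L_2 L_3 L_4`. In `ZMod p`, `a = A t + c` runs over all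
residues (bijection), and with `N = κ n ≠ 0` the product vanishes iff `a ∈ {0, -N, -2N}` or `a = N (x - 1)` with
`x² = -1`. These are `3 + rho p` different residues: `0, -N, -2N` are different (`p > 2`), `N (x-1) = N (x'-1)` iff `x = x'`,
`x - 1 ∈ {0, -1, -2}` means `x ∈ {1, 0, -1}` and then `x² + 1 ∈ {2, 1}` is not `0`. -/
def StRc : Prop := ∀ p κ n A c : ℕ, p.Prime → 10 < p → ¬ p ∣ A → ¬ p ∣ κ → ¬ p ∣ n →
  ((Finset.range p).filter fun t => p ∣ ∏ j, Lf κ n (A * t + c) j).card = om p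

/-- [Rt] (MEDIUM) residues modulo `S = ∏ s j` with `s j ∣ L_j` for all `j`. Map `v ↦ (v % p)_{p ∣ s 3}`. (i) The image is
in `∏_{p ∣ s 3} {r < p : p ∣ L_4(Q r + c)}`, sets of size `rho p` (`r ↦ x = (Q r + c)/(κ n) + 1` in `ZMod p`, `x² = -1`;
`p ∤ Q κ n`). (ii) It is injective: let `v, v'` be in the set with `v = v'` modulo all `p ∣ s 3`. Modulo `s 0`: `Q v = -c`,
`Q` invertible (primes `> w`), so `v = v'`; the same for `s 1`, `s 2`. Modulo `p^e ∥ s 3`: with `A = Q v + c + κ n`,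
`A² = A'² = -(κ n)²`, so `p^e ∣ (A - A')(A + A')`, `p ∣ A - A'`, `A + A' = 2A` modulo `p` is not `0` (`p ∤ 2`,
`A² = -(κ n)² ≠ 0`), so `p^e ∣ A - A' = Q (v - v')`. As the `s j` are coprime, `v = v'` modulo `S`, `v = v'`. -/
def StRt : Prop := ∀ (w y κ n c : ℕ) (s : Fin 4 → ℕ), 10 ≤ w → Adm w κ → 0 < n → AdmS w y n s →
  ((Finset.range (∏ j, s j)).filter fun v => ∀ j, s j ∣ Lf κ n (w.factorial * v + c) j).card ≤
    rho4 (s 3)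

/-- [Nb] (EASY-MEDIUM) `S = ∏ s j > 0`. Every `v ∈ Ns` is `v₀ + S t`, `v₀ < S` one of the residues of `StRt` (divisibility
`s j ∣ L_j` depends on `v` modulo `S`), `t < X/S + 1`. For fixed `v₀` let `Z` be the set of these `t`; for
`p ∈ PN w y (S n)`: `p > w ≥ 10` prime, `p ∤ S`, `p ∤ n`, `p ∤ κ`, `p ∤ Q`; `a = (Q S) t + (Q v₀ + c)`, and `Z` modulo `p`
avoids `om p` residues (`StRc` with `A = Q S`), `om p ≤ 5 < p` (`StRh`). `StLSb` with `N = X/S + 1`.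
(hRh : StRh) (hRc : StRc) (hRt : StRt) (hLS : StLSb) -/
def StNb : Prop := ∀ (w y κ n c X F : ℕ) (s : Fin 4 → ℕ), 10 ≤ w → Adm w κ → 0 < n → 0 < F →
  AdmS w y n s →
  ((Ns w y κ n c X s).card : ℝ) * Gs (PN w y ((∏ j, s j) * n)) om F ≤
    (rho4 (s 3) : ℝ) * ((X : ℝ) / ((∏ j, s j : ℕ) : ℝ) + 1 +
      ((F ^ 2 : ℕ) : ℝ) * (harmonic (F ^ 2) : ℝ))

/-- [SB] (EASY-MEDIUM) `F = y^R₀`, so `F⁸ ≤ X`. `harmonic (F²) ≤ 1 + log F² ≤ F²`, so `F² harmonic(F²) ≤ F⁴ ≤ X/S` since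
`(F⁴ S)⁴ ≤ X² X ≤ X⁴`; and `1 ≤ X/S`. `StNb` and `StRk` (`P = PN ..`, `o = om`, `om p ≤ 5`), all `1 - om p/p ≥ 1/2`:
`card/2 ≤ card Gs ∏ (1 - om p/p) ≤ rho4 (3X/S) ∏ = 3 X Wt`. (hRh : StRh) (hRk : StRk) (hNb : StNb) -/
def StSB : Prop := ∃ R₀ : ℕ, 0 < R₀ ∧ ∀ (w y κ n c X : ℕ) (s : Fin 4 → ℕ), 10 ≤ w → Adm w κ →
  0 < n → 2 ≤ y → y ^ (8 * R₀) ≤ X → AdmS w y n s → (∏ j, s j) ^ 4 ≤ X →
  ((Ns w y κ n c X s).card : ℝ) ≤ 6 * X * Wt w y n s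

/-- [Ms] (MEDIUM) total mass. For `p ∈ PN w y n` an admissible tuple `s` gives the local value `none` (`p ∤ ∏ s j`) or
`some (j, e)` with `p^e ∥ s j`, `1 ≤ e ≤ X`; `s` is determined by its local values, and `Wt w y n s` is the product over
`p ∈ PN w y n` of the local weights: `none ↦ 1 - om p/p`, `(j, e) ↦ p^(-e)` for `j ≠ 3`, `(3, e) ↦ rho p p^(-e)`
(`p ∈ PN w y (S n)` iff `p ∈ PN w y n` and the local value is `none`). All local weights are `≥ 0`, so the sum is at most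
`∏_p (1 - om p/p + om p ∑_{e ≥ 1} p^(-e)) = ∏_p (1 + om p/(p (p-1))) ≤ exp(5 ∑_{m > w} 1/(m (m-1))) = exp(5/w) ≤ 2`.
(hRh : StRh) -/
def StMs : Prop := ∀ w y n X : ℕ, 10 ≤ w → ∑ s ∈ SS w y n X, Wt w y n s ≤ 2

/-- [Sh] (EASY-MEDIUM) removing a factor `b` of `s σ`, `σ ≠ 3`. `S = b S'`. `PN w y (S n) ⊆ PN w y (S' n)`, the missing primes
divide `b`, there are at most `ν`, and for them `1 - om p/p ≥ 1 - 5/w₁ ≥ 1 - 1/(2ν)`; the product of at most `ν` such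
factors is `≥ 1 - ν/(2ν) = 1/2` (Bernoulli; if there is no missing prime it is `1`). So
`Wt s = rho4 (s 3)/(b S') ∏_{PN (S n)} ≤ (2/b) Wt s'`; `s' 3 = s 3`. (hRh : StRh) -/
def StSh : Prop := ∀ (w y n w₁ ν b : ℕ) (s : Fin 4 → ℕ) (σ : Fin 4), 10 ≤ w → w ≤ w₁ →
  10 * ν ≤ w₁ → σ ≠ 3 → AdmS w y n s → 0 < b → b ∣ s σ → b.primeFactors.card ≤ ν →
  (∀ p : ℕ, p.Prime → p ∣ b → w₁ < p) →
  AdmS w y n (Function.update s σ (s σ / b)) ∧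
    Wt w y n s ≤ 2 / b * Wt w y n (Function.update s σ (s σ / b))

/-! ## 3. Elementary facts on the members -/

/-- [Hv] (EASY) the counting vectors. `hv cl` is completely additive on positive integers (`Nat.factorization_mul`; extend the
sum over `primeFactors` by zeros); if all prime factors of `N > 0` are `> w` then `N = sp w y N * rp y N`
(`Nat.factorization_prod_pow_eq_self`), hence `hv N = hv (sp) + hv (rp)`; for a family `B` of sets of primes of the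
classes the product `bB B` has the vector `|B i|` and is squarefree with prime factors the members. -/
def StHv : Prop := ∀ (ι : Type) (_ : Fintype ι) (_ : DecidableEq ι) (cl : ℕ → Option ι),
  (∀ m n : ℕ, 0 < m → 0 < n → hv cl (m * n) = hv cl m + hv cl n) ∧
  (∀ w y N : ℕ, 0 < N → (∀ p : ℕ, p.Prime → p ∣ N → w < p) →
    N = sp w y N * rp y N ∧ 0 < sp w y N ∧ 0 < rp y N ∧
    hv cl N = hv cl (sp w y N) + hv cl (rp y N)) ∧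
  ∀ B : ι → Finset ℕ, (∀ i, ∀ p ∈ B i, p.Prime ∧ cl p = some i) →
    0 < bB B ∧ Squarefree (bB B) ∧ hv cl (bB B) = (fun i => (B i).card) ∧
    (bB B).primeFactors = Finset.univ.biUnion B ∧
    ∀ N : ℕ, (bB B ∣ N ↔ ∀ i, ∀ p ∈ B i, p ∣ N)

/-- [Cp] (EASY-MEDIUM) `a = Q v + c = 1` modulo `Q`, `Q ∣ κ`, so all `L_j = 1` modulo `Q` and all primes of `L_j` and of `n` are
`> w` (a prime `p ≤ w` divides `Q`). If `gcd(a, n) = 1` and `p ∣ n` then `p ∤ a`, and `L_j = a, a, a, a²` modulo `p`, so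
the `L_j` are coprime to `n`. If `p ∣ L_i`, `p ∣ L_j`, `i ≠ j`, then `p` divides one of `κ n, 2κ n, (κ n)², 2 (κ n)²`
(`L_4 = 2N², N², 2N²` modulo `L_1, L_2, L_3`, `N = κ n`), so `p ∣ n` (`p > w ≥ 10`, primes of `κ` are `≤ w`), a contradiction.
So the tuple of the `sp w y L_j` is admissible, `sp w y L_j ∣ L_j`, and a prime `p ∈ (w, y]` dividing some `L_j` divides
`sp w y L_j`: `v ∈ Ns`. -/
def StCp : Prop := ∀ w y κ n c X v : ℕ, 10 ≤ w → Adm w κ → 0 < n →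
  n % w.factorial = 1 % w.factorial → c % w.factorial = 1 % w.factorial → v ∈ Finset.Icc 1 X →
  Nat.Coprime (w.factorial * v + c) n →
  (∀ (j : Fin 4) (p : ℕ), p.Prime → p ∣ Lf κ n (w.factorial * v + c) j → w < p) ∧
  AdmS w y n (fun j => sp w y (Lf κ n (w.factorial * v + c) j)) ∧
  v ∈ Ns w y κ n c X (fun j => sp w y (Lf κ n (w.factorial * v + c) j))

/-- [Tp] (EASY-MEDIUM) number of prime factors `> y`. All `L_j ≤ 98 κ² Q² X²` for `v ≤ X`, `n, c ≤ 3 Q X` (`a ≤ 4QX`,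
`a + κ n ≤ 7 κ Q X`). Let `Y₀ = 98 κ² Q²`. If the multiplicities of the primes `> y` of `L_j` sum to `k` then
`(y+1)^k ≤ L_j ≤ Y₀ X² < (y+1)^(2R+1)`, so `k ≤ 2R`; `hv cl (rp y L_j) i ≤ k`. -/
def StTp : Prop := ∀ w κ : ℕ, 10 ≤ w → Adm w κ → ∃ Y₀ : ℕ, ∀ y ≥ Y₀, ∀ X R n c v : ℕ, 1 ≤ R →
  X < (y + 1) ^ R → 1 ≤ X → n ≤ 3 * w.factorial * X → c ≤ 3 * w.factorial * X →
  v ∈ Finset.Icc 1 X → 0 < n →
  ∀ (ι : Type) (_ : Fintype ι) (_ : DecidableEq ι) (cl : ℕ → Option ι) (j : Fin 4) (i : ι),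
    hv cl (rp y (Lf κ n (w.factorial * v + c) j)) i ≤ 3 * R

open Classical in
/-- [Tl] (MEDIUM) the parts in `(w, y]` are small, by the first moment of the logarithm. Let `V` be the set of `v ≤ X` with
`gcd(a, n) = 1`. `∑_{v ∈ V} log sp(L_j) = ∑_{w < p ≤ y} log p ∑_{k ≥ 1} #{v ∈ V : p^k ∣ L_j}`. If `p ∣ n` the count is `0`
(`StCp`: `L_j` is coprime to `n`); if `p ∤ n` there are at most two classes modulo `p^k` (linear forms: one; `L_4`: as in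
`StRt` (ii)), so the count is `≤ 2 (X/p^k + 1)`, and `0` for `k > K = log₂(98 κ² Q² X²)`. Total
`≤ 2 X ∑ log p/(p-1) + 2 K y log y ≤ 4 C X log y + 2 K y log y` (`StCh`). Markov: the number of `v ∈ V` with
`sp^16 > X` is `≤ (16/log X) (4 C X + 2 K y) log y ≤ (16/R)(4 C X + 2 K y)` (`log y ≤ (log X)/R`), and `2 K y ≤ X` for
`y ≤ √X`, `X` large. (hCh : StCh) (hCp : StCp) -/
def StTl : Prop := ∃ C : ℝ, 0 < C ∧ ∀ w κ : ℕ, 10 ≤ w → Adm w κ → ∃ X₀ : ℕ, ∀ X ≥ X₀,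
  ∀ R y n c : ℕ, 2 ≤ R → 2 ≤ y → y ^ R ≤ X → 0 < n → n ≤ 3 * w.factorial * X →
  c ≤ 3 * w.factorial * X → n % w.factorial = 1 % w.factorial →
  c % w.factorial = 1 % w.factorial → ∀ j : Fin 4,
  (((Finset.Icc 1 X).filter fun v => Nat.Coprime (w.factorial * v + c) n ∧
    X < sp w y (Lf κ n (w.factorial * v + c) j) ^ 16).card : ℝ) ≤ C / R * X

/-! ## 4. The Turan-Kubilius weight -/

/-- [Ft] (EASY) a set of primes which is not thin contains finite sets of large primes with large sum of reciprocals. (If all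
finite sums over primes `> w₁` of `T` were `< B`, the series would be summable: `summable_of_sum_le`.) -/
def StFt : Prop := ∀ T : Set ℕ, ¬ Thin T → ∀ (w₁ : ℕ) (B : ℝ), ∃ P : Finset ℕ,
  (∀ p ∈ P, p.Prime ∧ w₁ < p ∧ p ∈ T) ∧ B ≤ lam P

/-- [TK] (EASY-MEDIUM) second moment. For `d` coprime to `Q` the number of `v ∈ [1, X]` with `d ∣ Q v + c` is between `X/d - 1`
and `X/d + 1`. With `N = Np P (Q v + c)`, `L = lam P`, `k = |P|`: `∑ N² ≤ X (L² + L) + k²`, `∑ N ≥ X L - k`, so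
`∑ (N - L)² ≤ X L + k² + 2 L k ≤ X L + 3 k²` (`L ≤ k`). -/
def StTK : Prop := ∀ (P : Finset ℕ) (Q c X : ℕ), (∀ p ∈ P, p.Prime ∧ ¬ p ∣ Q) →
  ∑ v ∈ Finset.Icc 1 X, ((Np P (Q * v + c) : ℝ) - lam P) ^ 2 ≤
    (X : ℝ) * lam P + 3 * (P.card : ℝ) ^ 2

open Classical in
/-- [Tb] (EASY) if `L = lam P ≥ 2 H²` and `N < (1 - 1/H) L + H` then `L - N > L/H - H ≥ L/(2H) > 0`, so
`(N - L)² ≥ L²/(4H²)`; Chebyshev's inequality with `StTK`. (hTK : StTK) -/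
def StTb : Prop := ∀ (P : Finset ℕ) (Q c X H : ℕ), (∀ p ∈ P, p.Prime ∧ ¬ p ∣ Q) → 1 ≤ H →
  2 * (H : ℝ) ^ 2 ≤ lam P →
  (((Finset.Icc 1 X).filter fun v =>
    (Np P (Q * v + c) : ℝ) < (1 - 1 / (H : ℝ)) * lam P + H).card : ℝ) ≤
    4 * (H : ℝ) ^ 2 / lam P ^ 2 * ((X : ℝ) * lam P + 3 * (P.card : ℝ) ^ 2)

/-- [Wj] (EASY) `N (N-1) .. (N-j+1) ≥ ((1 - 1/H) L)^j` since `N - i ≥ (1 - 1/H) L` for `i ≤ H`, and
`(1 - 1/H)^j ≥ (1 - 1/H)^(H-1) ≥ 1/4` (`H ≥ 2`: `(1 + 1/(H-1))^(H-1) ≤ e < 4`; for `H = 1`, `j = 0`). -/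
def StWj : Prop := ∀ (N j H : ℕ) (L : ℝ), 0 < L → j < H → (1 - 1 / (H : ℝ)) * L + H ≤ N →
  1 ≤ 4 * ((N.descFactorial j : ℝ) / L ^ j)

/-- [Es] (EASY) elementary symmetric sums, `j! e_j ≤ e_1^j` for nonnegative numbers. By induction, `(j+1) e_(j+1) ≤ e_1 e_j`
(every `B` with `j+1` elements is obtained `j+1` times by adding an element to a set with `j` elements). -/
def StEs : Prop := ∀ (P : Finset ℕ) (x : ℕ → ℝ) (j : ℕ), (∀ p ∈ P, 0 ≤ x p) →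
  (j.factorial : ℝ) * ∑ B ∈ P.powersetCard j, ∏ p ∈ B, x p ≤ (∑ p ∈ P, x p) ^ j

/-- [Cw] (EASY-MEDIUM) the weight. `N_i = Np (P i) N`; `N_i.descFactorial (j i) = (j i)! choose(N_i, j i)`, and
`choose(N_i, j i)` is the number of `B_i ∈ powersetCard (j i) (P i)` all of whose members divide `N`. Multiply over `i`
(`Finset.prod_univ_sum`): `∏ choose = #{B ∈ FB P j : bB B ∣ N}` (`StHv`). First claim: `StWj` for all `i`. Second claim: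
`∑_{B ∈ FB P j} 1/bB B = ∏_i e_(j i)(1/p : p ∈ P i) ≤ ∏ lam (P i)^(j i)/(j i)!` (`StEs`).
(hHv : StHv) (hWj : StWj) (hEs : StEs) -/
def StCw : Prop := ∀ (ι : Type) (_ : Fintype ι) (_ : DecidableEq ι) (cl : ℕ → Option ι)
  (P : ι → Finset ℕ) (j : ι → ℕ) (H : ℕ), (∀ i, ∀ p ∈ P i, p.Prime ∧ cl p = some i) →
  (∀ i, 0 < lam (P i)) → (∀ i, j i < H) →
  (∀ N : ℕ, (∀ i, (1 - 1 / (H : ℝ)) * lam (P i) + H ≤ Np (P i) N) →
    1 ≤ 4 ^ Fintype.card ι * (cj P j * (((FB P j).filter fun B => bB B ∣ N).card : ℝ))) ∧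
  cj P j * ∑ B ∈ FB P j, 1 / (bB B : ℝ) ≤ 1

/-! ## 5. Domination -/

/-- [Fb] (EASY-MEDIUM) for fixed `b`: sort the good `v` with `b ∣ L_σ` by the tuple `s j = sp w y L_j` and by
`t j = hv cl (rp y L_j)`, `t j i ≤ K`. `s ∈ SS w y n X` (`StCp`; `s j^16 ≤ X` gives `(∏ s)^4 ≤ X` and `s j ≤ X`), `v ∈ Ns .. s`,
`b ∣ s σ` (the primes of `b` are in `(w, y]` and `b` is squarefree), and the counting vectors of the forms are
`hv cl (s j) + t j` (`StHv`). So the sum is at most `∑_t ∑_{s ∈ SS, b ∣ s σ} |Ns s| φ(hv s + t)`; then `hB`.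
(hHv : StHv) (hCp : StCp) -/
def StFb : Prop := ∀ (ι : Type) (_ : Fintype ι) (_ : DecidableEq ι) (cl : ℕ → Option ι)
  (w y κ n c : ℕ) (P : ι → Finset ℕ) (w₁ : ℕ), Set1 cl w y κ n c P w₁ →
  ∀ (X H K : ℕ) (σ : Fin 4), 1 ≤ X →
  (∀ s ∈ SS w y n X, ((Ns w y κ n c X s).card : ℝ) ≤ 6 * X * Wt w y n s) →
  (∀ v ∈ Finset.Icc 1 X, ∀ j i, hv cl (rp y (Lf κ n (w.factorial * v + c) j)) i ≤ K) →
  ∀ φ : (Fin 4 → ι → ℕ) → ℝ, (∀ τ, 0 ≤ φ τ) → ∀ b : ℕ, Squarefree b →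
  (∀ p : ℕ, p.Prime → p ∣ b → w₁ < p ∧ p ≤ y) →
  (∑ v ∈ (Good w y κ n c X H σ P).filter (fun v => b ∣ Lf κ n (w.factorial * v + c) σ),
    φ (hL cl κ n (w.factorial * v + c))) ≤
    6 * X * ∑ t : Fin 4 → ι → Fin (K + 1), ∑ s ∈ (SS w y n X).filter (fun s => b ∣ s σ),
      Wt w y n s * φ (fun j => hv cl (s j) + fun i => (t j i : ℕ))

/-- [Mj] (MEDIUM) for fixed `j`, `j i < H`. By `StCw` (first claim), for `v ∈ Good`,
`1 ≤ 4^d cj ∑_{B ∈ FB P j} 1[bB B ∣ L_σ]`; exchange the sums and use `StFb` with `b = bB B` (squarefree, primes in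
`(w₁, y]`, `|primeFactors| = ∑ j i ≤ d H`). For every `s` with `b ∣ s σ` let `s' = update s σ (s σ/b)`: `s' ∈ SS`
(`∏ s' ≤ ∏ s`), `s ↦ s'` is injective, `Wt s ≤ (2/b) Wt s'` (`StSh`, `ν = d H`), `hv (s σ) = j + hv (s' σ)` (`StHv`). So the
inner sum is `≤ (2/b) ∑_{s' ∈ SS} Wt s' φ(hv s' + t + slot σ j)`, and `cj ∑_B 1/bB B ≤ 1`.
(hHv : StHv) (hSh : StSh) (hCw : StCw) (hFb : StFb) -/
def StMj : Prop := ∀ (ι : Type) (_ : Fintype ι) (_ : DecidableEq ι) (cl : ℕ → Option ι)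
  (w y κ n c : ℕ) (P : ι → Finset ℕ) (w₁ : ℕ), Set1 cl w y κ n c P w₁ →
  ∀ (X H K : ℕ) (σ : Fin 4), 1 ≤ X → σ ≠ 3 → (∀ i, 0 < lam (P i)) →
  10 * (Fintype.card ι * H) ≤ w₁ →
  (∀ s ∈ SS w y n X, ((Ns w y κ n c X s).card : ℝ) ≤ 6 * X * Wt w y n s) →
  (∀ v ∈ Finset.Icc 1 X, ∀ j i, hv cl (rp y (Lf κ n (w.factorial * v + c) j)) i ≤ K) →
  ∀ φ : (Fin 4 → ι → ℕ) → ℝ, (∀ τ, 0 ≤ φ τ) → ∀ j : ι → ℕ, (∀ i, j i < H) →
  (∑ v ∈ Good w y κ n c X H σ P, φ (hL cl κ n (w.factorial * v + c))) ≤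
    12 * 4 ^ Fintype.card ι * X * ∑ t : Fin 4 → ι → Fin (K + 1), ∑ s ∈ SS w y n X,
      Wt w y n s * φ ((fun j => hv cl (s j) + fun i => (t j i : ℕ)) + slot σ j)

/-- [Av] (EASY) average `StMj` over `j ∈ [0, H)^ι`: for fixed `t`, `s` the average of the last factor is `≤ q` by hypothesis;
`Wt ≥ 0` on `SS`, `∑ Wt ≤ 2` (`StMs`), the number of `t` is `(K+1)^(4d)`; `q ≥ 0` because `φ ≥ 0`.
(hRh : StRh) (hMs : StMs) (hMj : StMj) -/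
def StAv : Prop := ∀ (ι : Type) (_ : Fintype ι) (_ : DecidableEq ι) (cl : ℕ → Option ι)
  (w y κ n c : ℕ) (P : ι → Finset ℕ) (w₁ : ℕ), Set1 cl w y κ n c P w₁ →
  ∀ (X H K : ℕ) (σ : Fin 4), 1 ≤ X → 1 ≤ H → σ ≠ 3 → (∀ i, 0 < lam (P i)) →
  10 * (Fintype.card ι * H) ≤ w₁ →
  (∀ s ∈ SS w y n X, ((Ns w y κ n c X s).card : ℝ) ≤ 6 * X * Wt w y n s) →
  (∀ v ∈ Finset.Icc 1 X, ∀ j i, hv cl (rp y (Lf κ n (w.factorial * v + c) j)) i ≤ K) →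
  ∀ (φ : (Fin 4 → ι → ℕ) → ℝ) (q : ℝ), (∀ τ, 0 ≤ φ τ) →
  (∀ τ, bx H (fun j : ι → ℕ => φ (τ + slot σ j)) ≤ q) →
  (∑ v ∈ Good w y κ n c X H σ P, φ (hL cl κ n (w.factorial * v + c))) ≤
    24 * 4 ^ Fintype.card ι * ((K + 1 : ℕ) : ℝ) ^ (4 * Fintype.card ι) * X * q

/-- [Gc] (EASY-MEDIUM) common factors of `a` and `n` are rare. If `gcd(a, n) ≠ 1` a prime `p` divides both, `p > w`
(`a = n = 1` modulo `Q`). `p ≤ M`: the number of `v ≤ M` with `p ∣ Q (v + v') + 1` is `≤ M/p + 1 ≤ 2M/p`, the same for `u`: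
in total `≤ M⁴ ∑_{p > w} 4/p² ≤ (4/w) M⁴`. `p > M`: for fixed `u, u'` the integer `n ≤ 3QM < M²` (`M > 3Q`) has at most one
prime factor `> M`, and for it at most one `v` for every `v'`: `≤ M³`. -/
def StGc : Prop := ∀ w : ℕ, 10 ≤ w → ∃ M₀ : ℕ, ∀ M ≥ M₀,
  ((∑ u ∈ Finset.Icc 1 M, ∑ u' ∈ Finset.Icc 1 M, ∑ v' ∈ Finset.Icc 1 M,
    ((Finset.Icc 1 M).filter fun v => ¬ Nat.Coprime (w.factorial * v + (w.factorial * v' + 1))
      (w.factorial * (u + u') + 1)).card : ℕ) : ℝ) ≤ 5 / w * (M : ℝ) ^ 4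

/-- [Dn] (EASY-MEDIUM) fixed `n`, `c`. Split `[1, X]` into `Good`, the `v` with `gcd(a, n) ≠ 1`, the `v` with `gcd = 1` and
`sp w y L_j^16 > X` for some `j` (`StTl`, four times), and the `v` with `Np (P i) L_σ < (1 - 1/H) lam + H` for some `i`
(`StTb`; `σ = 0, 1`: `L_σ = Q v + c'`, `c' = c` or `c + κ n`; `p ∤ Q` as `p > w`). `φ ≤ 1` on the last three, `StAv` on the
first with `K = 3R` (`StTp`), the bound for `Ns` from `StSB` (`y^(8R₀) ≤ y^R ≤ X`; members of `SS` are admissible).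
(hSB : StSB) (hTp : StTp) (hTl : StTl) (hTb : StTb) (hAv : StAv) -/
def StDn : Prop := ∃ (R₀ : ℕ) (C : ℝ), 0 < R₀ ∧ 0 < C ∧ ∀ w κ : ℕ, 10 ≤ w → Adm w κ →
  ∃ (X₀ Y₀ : ℕ), ∀ (ι : Type) (_ : Fintype ι) (_ : DecidableEq ι) (cl : ℕ → Option ι)
  (y n c : ℕ) (P : ι → Finset ℕ) (w₁ : ℕ), Set1 cl w y κ n c P w₁ →
  ∀ (R X H : ℕ) (σ : Fin 4), 2 ≤ R → 8 * R₀ ≤ R → X₀ ≤ X → Y₀ ≤ y → y ^ R ≤ X →
  X < (y + 1) ^ R → n ≤ 3 * w.factorial * X → c ≤ 3 * w.factorial * X → 1 ≤ H →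
  (σ = 0 ∨ σ = 1) → (∀ i, 2 * (H : ℝ) ^ 2 ≤ lam (P i)) →
  10 * (Fintype.card ι * H) ≤ w₁ →
  ∀ (φ : (Fin 4 → ι → ℕ) → ℝ) (q : ℝ), (∀ τ, 0 ≤ φ τ ∧ φ τ ≤ 1) →
  (∀ τ, bx H (fun j : ι → ℕ => φ (τ + slot σ j)) ≤ q) →
  ∑ v ∈ Finset.Icc 1 X, φ (hL cl κ n (w.factorial * v + c)) ≤
    (((Finset.Icc 1 X).filter fun v => ¬ Nat.Coprime (w.factorial * v + c) n).card : ℝ) +
      C / R * X +
      ∑ i, 4 * (H : ℝ) ^ 2 / lam (P i) ^ 2 * ((X : ℝ) * lam (P i) + 3 * ((P i).card : ℝ) ^ 2) +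
      24 * 4 ^ Fintype.card ι * ((3 * R + 1 : ℕ) : ℝ) ^ (4 * Fintype.card ι) * X * q

/-- [Dm] (MEDIUM) `DomS`. Let `d = |ι|`, `R₀, C` of `StDn`. `w₀ = max 10 ⌈20/ε⌉`; `R = max (8R₀) (max 2 ⌈4C/ε⌉)`;
`C' = 24 4^d (3R+1)^(4d)`. Given `H`: `w₁ = max w (10 d H)`, `P i` a finite set of primes `> w₁` of the class `i` with
`lam (P i) ≥ max (2H²) (32 d H²/ε)` (`StFt`). For `M` large let `y` be the largest integer with `y^R ≤ M` (`y ≥ 2, Y₀` and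
all members of the `P i`, since `y → ∞`). For fixed `u, u', v'` put `n = Q (u + u') + 1`, `c = Q v' + 1`, `X = M`, and
`φ₄ τ = φ (hv n + τ 1) (τ 0 + τ 2) (τ 3)`; `xF = n L_2`, `yF = L_1 L_3`, `zF = L_4` (`StHv`), a shift of the first vector is the
slot `1`, of the second the slot `0`. `StDn` and `StGc`: the average is at most
`5/w + C/R + ∑_i 4H²/lam (1 + 3|P i|²/(M lam)) + C' s ≤ ε + C' s` (reorder the sums over `v`, `v'`).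
(hHv : StHv) (hFt : StFt) (hGc : StGc) (hDn : StDn) -/
def StDm : Prop := DomS

end Pool.Agent.F0f91f8.FC
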