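import Pool.Agent.Work.MP_0f91f8_co.FC.StmtsP

/-!
# Item EigS of block FC, module P (helper64)
-/

set_option autoImplicit false

namespace Pool.Agent.F0f91f8.FC

open Filter Topology ComplexConjugate
open Pool.Agent.F0f91f8.HD Pool.Agent.F0f91f8.RC Pool.Agent.F0f91f8.KR
open scoped BigOperators

namespace IEigS

theorem cm_conj {f g : ℕ → ℂ} (hf : CM f) (hg : CM g) : CM fun n => conj (f n * g n) := by
  refine ⟨?_, fun m n => ?_, fun n hn => ?_⟩
  · simp only [hf.1, zero_mul, map_zero]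
  · simp only [hf.2.1, hg.2.1, map_mul]
    ring
  · simp only [RCLike.norm_conj, norm_mul, hf.2.2 n hn, hg.2.2 n hn, mul_one]

theorem fz_pos {ι : Type} [Fintype ι] [DecidableEq ι] (cl : ℕ → Option ι) (z : ι → ℂ) {n : ℕ}
    (hn : 0 < n) : fz cl z n = ch z (hv cl n) := by
  unfold fz
  rw [if_neg (by omega)]

end IEigS

theorem pr_EigS (hPa : StPa) (hPb : StPb) (hA : Aper3) (hC : PretStmt) : StEigS := by
  intro ι i1 i2 cl z' z hz' hz hor w κ hκ
  have hf1 := ((hPb ι i1 i2 cl).2 z' hz').1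
  have hf2 := ((hPb ι i1 i2 cl).2 z hz).1
  have hf3 := IEigS.cm_conj hf1 hf2
  have hap : Aper (fz cl z') ∨ Aper (fz cl z) := by
    rcases hor with h | h
    · left
      by_contra h1
      exact h (hC _ hf1 h1)
    · right
      by_contra h1
      exact h (hC _ hf2 h1)
  have hlim := hA _ _ _ hf1 hf2 hf3 hap κ 1 w.factorial 1 1 hκ.1 one_pos
    (Nat.factorial_pos w) one_pos
  have hkey : ∀ M : ℕ, (BxR w.factorial 1 1 M fun a n =>
      fz cl z' (tX κ 1 a n) * fz cl z (tY κ 1 a n) *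
        conj (fz cl z' (tZ κ 1 a n) * fz cl z (tZ κ 1 a n))) =
      fz cl z' (2 * κ) * AC w κ M (fun x y t =>
        ch z' (hv cl x) * ch z (hv cl y) * conj (ch z' (hv cl t) * ch z (hv cl t))) := by
    intro M
    rw [hPa.2.1]
    unfold BxR Bx
    rw [← mul_div_assoc]
    congr 1
    simp only [Finset.mul_sum]
    refine Finset.sum_congr rfl fun u _ => Finset.sum_congr rfl fun u' _ =>
      Finset.sum_congr rfl fun v _ => Finset.sum_congr rfl fun v' _ => ?_
    have ha : 0 < w.factorial * (v + v') + 1 := Nat.succ_pos _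
    have hn : 0 < w.factorial * (u + u') + 1 := Nat.succ_pos _
    generalize w.factorial * (v + v') + 1 = a at ha ⊢
    generalize w.factorial * (u + u') + 1 = n at hn ⊢
    have hx : 0 < xF κ a n := by unfold xF; positivity
    have hy : 0 < yF κ a n := by unfold yF; positivity
    have ht : 0 < zF κ a n := by unfold zF; positivity
    rw [(hPa.2.2 κ a n).1, (hPa.2.2 κ a n).2.1, (hPa.2.2 κ a n).2.2, hf1.2.1 (2 * κ),
      IEigS.fz_pos cl z' hx, IEigS.fz_pos cl z hy, IEigS.fz_pos cl z' ht, IEigS.fz_pos cl z ht]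
    ring
  have hne : fz cl z' (2 * κ) ≠ 0 := by
    have h1 := hf1.2.2 (2 * κ) (by have := hκ.1; omega)
    intro h2
    rw [h2, norm_zero] at h1
    exact zero_ne_one h1
  have h2 := hlim.const_mul (fz cl z' (2 * κ))⁻¹
  rw [mul_zero] at h2
  refine h2.congr fun M => ?_
  rw [hkey M, ← mul_assoc, inv_mul_cancel₀ hne, one_mul]

end Pool.Agent.F0f91f8.FC
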