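import Pool.Agent.Work.MP_0f91f8_co.FC.StmtsP

/-!
# Block FC, module P, item Pa (helper4): the averages
-/

set_option autoImplicit false

namespace Pool.Agent.F0f91f8.FC

open Filter Topology ComplexConjugate
open Pool.Agent.F0f91f8.HD Pool.Agent.F0f91f8.RC Pool.Agent.F0f91f8.KR
open scoped BigOperators

theorem pr_Pa : StPa := by
  refine ⟨?_, ?_, ?_⟩
  · intro w κ M Φ
    unfold AF BR
    rw [one_mul]
    congr 1
    ring
  · intro w κ M Φ
    unfold AC BxR Bx
    rw [one_mul]
    congr 1
    ring
  · intro κ a n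
    unfold tX tY tZ xF yF zF
    refine ⟨by ring, by ring, by ring⟩

end Pool.Agent.F0f91f8.FC
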