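import Pool.Agent.Work.MP_0f91f8_co.FC.StmtsP

/-!
# Block FC, module P, item Pb: the counting vector and the multiplicative function
-/

set_option autoImplicit false

namespace Pool.Agent.F0f91f8.FC

open Filter Topology ComplexConjugate
open Pool.Agent.F0f91f8.HD Pool.Agent.F0f91f8.RC Pool.Agent.F0f91f8.KR
open scoped BigOperators

namespace IPb

variable {ι : Type}

theorem hv_ext [DecidableEq ι] (cl : ℕ → Option ι) (n : ℕ) (S : Finset ℕ)
    (hS : n.primeFactors ⊆ S) (i : ι) :
    hv cl n i = ∑ p ∈ S.filter (fun p => cl p = some i), n.factorization p := by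
  unfold hv
  refine Finset.sum_subset (Finset.filter_subset_filter _ hS) ?_
  intro p hp hp'
  rw [Finset.mem_filter] at hp hp'
  have h1 : p ∉ n.primeFactors := fun h => hp' ⟨h, hp.2⟩
  rw [← Nat.support_factorization, Finsupp.mem_support_iff, not_not] at h1
  exact h1

theorem hv_mul [DecidableEq ι] (cl : ℕ → Option ι) (m n : ℕ) (hm : 0 < m) (hn : 0 < n) :
    hv cl (m * n) = hv cl m + hv cl n := by
  funext i
  have hmn : (m * n).primeFactors = m.primeFactors ∪ n.primeFactors :=
    Nat.primeFactors_mul hm.ne' hn.ne'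
  rw [Pi.add_apply, hv_ext cl m (m * n).primeFactors (by rw [hmn]; exact Finset.subset_union_left) i,
    hv_ext cl n (m * n).primeFactors (by rw [hmn]; exact Finset.subset_union_right) i,
    hv_ext cl (m * n) (m * n).primeFactors (Finset.Subset.refl _) i, ← Finset.sum_add_distrib]
  refine Finset.sum_congr rfl fun p _ => ?_
  rw [Nat.factorization_mul hm.ne' hn.ne', Finsupp.add_apply]

theorem hv_one [DecidableEq ι] (cl : ℕ → Option ι) : hv cl 1 = 0 := by
  funext i
  simp [hv]

theorem hv_prime [DecidableEq ι] (cl : ℕ → Option ι) (p : ℕ) (hp : p.Prime) (i : ι) :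
    hv cl p i = if cl p = some i then 1 else 0 := by
  unfold hv
  rw [hp.primeFactors, Finset.filter_singleton]
  split_ifs with h
  · rw [Finset.sum_singleton]
    exact hp.factorization_self
  · rw [Finset.sum_empty]

theorem ch_add [Fintype ι] (z : ι → ℂ) (α β : ι → ℕ) : ch z (α + β) = ch z α * ch z β := by
  unfold ch
  rw [← Finset.prod_mul_distrib]
  exact Finset.prod_congr rfl fun i _ => by rw [Pi.add_apply, pow_add]

theorem ch_zero [Fintype ι] (z : ι → ℂ) : ch z 0 = 1 := by
  unfold ch
  simp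

theorem ch_norm [Fintype ι] (z : ι → ℂ) (hz : Uni z) (α : ι → ℕ) : ‖ch z α‖ = 1 := by
  unfold ch
  rw [norm_prod]
  exact Finset.prod_eq_one fun i _ => by rw [norm_pow, hz i, one_pow]

theorem fz_prime_some [Fintype ι] [DecidableEq ι] (cl : ℕ → Option ι) (z : ι → ℂ) (p : ℕ) (i : ι)
    (hp : p.Prime) (h : cl p = some i) : fz cl z p = z i := by
  unfold fz
  rw [if_neg hp.ne_zero]
  unfold ch
  rw [Finset.prod_eq_single i]
  · rw [hv_prime cl p hp i, if_pos h, pow_one]
  · intro j _ hj
    rw [hv_prime cl p hp j, if_neg, pow_zero]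
    intro h'
    rw [h] at h'
    exact hj (Option.some_injective _ h').symm
  · intro h'
    exact absurd (Finset.mem_univ i) h'

theorem fz_prime_none [Fintype ι] [DecidableEq ι] (cl : ℕ → Option ι) (z : ι → ℂ) (p : ℕ)
    (hp : p.Prime) (h : cl p = none) : fz cl z p = 1 := by
  unfold fz
  rw [if_neg hp.ne_zero]
  unfold ch
  refine Finset.prod_eq_one fun j _ => ?_
  rw [hv_prime cl p hp j, if_neg, pow_zero]
  rw [h]
  intro h'
  cases h'

end IPb

open IPb in
/-- [Pb] `hv` is additive and `fz` is completely multiplicative. -/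
theorem pr_Pb : StPb := by
  intro ι _ _ cl
  refine ⟨hv_mul cl, fun z hz => ⟨?_, fun p i hp h => fz_prime_some cl z p i hp h,
    fun p hp h => fz_prime_none cl z p hp h⟩⟩
  refine ⟨by unfold fz; rw [if_pos rfl], ?_, ?_⟩
  · intro m n
    rcases Nat.eq_zero_or_pos m with rfl | hm
    · unfold fz
      rw [Nat.zero_mul, if_pos rfl, zero_mul]
    rcases Nat.eq_zero_or_pos n with rfl | hn
    · unfold fz
      rw [Nat.mul_zero, if_pos rfl, mul_zero]
    unfold fz
    rw [if_neg (Nat.mul_pos hm hn).ne', if_neg hm.ne', if_neg hn.ne', hv_mul cl m n hm hn, ch_add]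
  · intro n hn
    unfold fz
    rw [if_neg hn.ne']
    exact ch_norm z hz _

end Pool.Agent.F0f91f8.FC
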