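import Pool.Agent.Work.MP_0f91f8_co.FC.StmtsP

/-!
# Block FC, module P, item Pl: large primes are rare divisors of the members of the family
-/

set_option autoImplicit false

namespace Pool.Agent.F0f91f8.FC

open Filter Topology ComplexConjugate
open Pool.Agent.F0f91f8.HD Pool.Agent.F0f91f8.RC Pool.Agent.F0f91f8.KR
open scoped BigOperators

namespace IPl

/-- a prime larger than the length of the progression divides at most one term, and only if it is at most the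
size of the terms -/
lemma lin (p α β M B : ℕ) (hp : p.Prime) (hα : ¬ p ∣ α) (hM : M < p) (hβ : 0 < β)
    (hB : α * M + β ≤ B) :
    ∑ u ∈ Finset.Icc 1 M, (if p ∣ α * u + β then (1 : ℝ) else 0) ≤ (B : ℝ) / p := by
  have hp0 : (0 : ℝ) < p := by exact_mod_cast hp.pos
  rw [← Finset.sum_filter, Finset.sum_const, nsmul_eq_mul, mul_one]
  rcases Finset.eq_empty_or_nonempty ((Finset.Icc 1 M).filter (fun u => p ∣ α * u + β)) with
    h | ⟨u₀, hu₀⟩
  · rw [h, Finset.card_empty, Nat.cast_zero]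
    positivity
  · have h0 := Finset.mem_filter.1 hu₀
    have hI := Finset.mem_Icc.1 h0.1
    have hcard : ((Finset.Icc 1 M).filter (fun u => p ∣ α * u + β)).card ≤ 1 := by
      rw [Finset.card_le_one]
      intro x hx y hy
      have hx' := Finset.mem_filter.1 hx
      have hy' := Finset.mem_filter.1 hy
      have hxI := Finset.mem_Icc.1 hx'.1
      have hyI := Finset.mem_Icc.1 hy'.1
      have key : (p : ℤ) ∣ (α : ℤ) * ((x : ℤ) - y) := by
        have ha : (p : ℤ) ∣ ((α * x + β : ℕ) : ℤ) := Int.natCast_dvd_natCast.2 hx'.2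
        have hb : (p : ℤ) ∣ ((α * y + β : ℕ) : ℤ) := Int.natCast_dvd_natCast.2 hy'.2
        have hc := dvd_sub ha hb
        have he : ((α * x + β : ℕ) : ℤ) - ((α * y + β : ℕ) : ℤ) = (α : ℤ) * ((x : ℤ) - y) := by
          push_cast
          ring
        rwa [he] at hc
      have hcop : IsCoprime (p : ℤ) (α : ℤ) :=
        Nat.isCoprime_iff_coprime.2 ((Nat.Prime.coprime_iff_not_dvd hp).2 hα)
      have h2 : (p : ℤ) ∣ (x : ℤ) - y := hcop.dvd_of_dvd_mul_left key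
      have h3 : (x : ℤ) - y = 0 := by
        apply Int.eq_zero_of_abs_lt_dvd h2
        rw [abs_lt]
        constructor <;> omega
      omega
    have h1 : p ≤ B := by
      have h4 : p ≤ α * u₀ + β := Nat.le_of_dvd (by omega) h0.2
      have h5 : α * u₀ ≤ α * M := Nat.mul_le_mul_left α hI.2
      omega
    rw [le_div_iff₀ hp0]
    have h6 : (((Finset.Icc 1 M).filter (fun u => p ∣ α * u + β)).card : ℝ) ≤ 1 := by
      exact_mod_cast hcard
    have h7 : (p : ℝ) ≤ B := by exact_mod_cast h1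
    nlinarith

/-- sums over four variables, bounded in the third -/
lemma four (M : ℕ) (B : ℝ) (G : ℕ → ℕ → ℕ → ℕ → ℝ)
    (h : ∀ u ∈ Finset.Icc 1 M, ∀ u' ∈ Finset.Icc 1 M, ∀ v' ∈ Finset.Icc 1 M,
      ∑ v ∈ Finset.Icc 1 M, G u u' v v' ≤ B) :
    ∑ u ∈ Finset.Icc 1 M, ∑ u' ∈ Finset.Icc 1 M, ∑ v ∈ Finset.Icc 1 M, ∑ v' ∈ Finset.Icc 1 M,
      G u u' v v' ≤ (M : ℝ) * (M * (M * B)) := by
  have c : ∀ (x : ℝ) (f : ℕ → ℝ), (∀ i ∈ Finset.Icc 1 M, f i ≤ x) →
      ∑ i ∈ Finset.Icc 1 M, f i ≤ (M : ℝ) * x := by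
    intro x f hf
    refine (Finset.sum_le_sum hf).trans (le_of_eq ?_)
    rw [Finset.sum_const, nsmul_eq_mul, Nat.card_Icc, Nat.add_sub_cancel]
  refine c _ _ fun u hu => c _ _ fun u' hu' => ?_
  rw [Finset.sum_comm]
  exact c _ _ fun v' hv' => h u hu u' hu' v' hv'

/-- sums over four variables, bounded in the first -/
lemma four' (M : ℕ) (B : ℝ) (G : ℕ → ℕ → ℝ)
    (h : ∀ u' ∈ Finset.Icc 1 M, ∑ u ∈ Finset.Icc 1 M, G u u' ≤ B) :
    ∑ u ∈ Finset.Icc 1 M, ∑ u' ∈ Finset.Icc 1 M, ∑ _v ∈ Finset.Icc 1 M, ∑ _v' ∈ Finset.Icc 1 M,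
      G u u' ≤ (M : ℝ) * (M * (M * B)) := by
  simp only [Finset.sum_const, Nat.card_Icc, Nat.add_sub_cancel, nsmul_eq_mul, ← Finset.mul_sum]
  rw [Finset.sum_comm]
  have h1 : ∑ u' ∈ Finset.Icc 1 M, ∑ u ∈ Finset.Icc 1 M, G u u' ≤ (M : ℝ) * B := by
    refine (Finset.sum_le_sum h).trans (le_of_eq ?_)
    rw [Finset.sum_const, nsmul_eq_mul, Nat.card_Icc, Nat.add_sub_cancel]
  gcongr

end IPl

open IPl in
theorem pr_Pl (hZp : StRZp) : StPl := by
  classical
  intro w κ hw hA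
  obtain ⟨hκ, -, -⟩ := hA
  obtain ⟨C1, hC1, hZ⟩ := hZp w.factorial 1 κ 1 (Nat.factorial_pos w) one_pos hκ one_pos
  refine ⟨36 * κ * w.factorial + C1, by positivity, fun M hM p hp hwp hMp => ?_⟩
  have hpQ : ¬ p ∣ w.factorial := by
    rw [hp.dvd_factorial]
    omega
  have hz := (hZ M hM 1 (Nat.factorial_pos w)).1 p hp
  have hQ0 : 0 < w.factorial := Nat.factorial_pos w
  generalize w.factorial = Q at *
  have hp0 : (0 : ℝ) < p := by exact_mod_cast hp.pos
  have hM0 : (0 : ℝ) < M := by exact_mod_cast hM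
  -- sizes
  have hQM : 1 ≤ Q * M := Nat.mul_pos hQ0 hM
  have hQκ : Q * M ≤ κ * (Q * M) := Nat.le_mul_of_pos_left _ hκ
  have hn : ∀ u ∈ Finset.Icc 1 M, ∀ u' ∈ Finset.Icc 1 M, Q * (u + u') + 1 ≤ 3 * (Q * M) := by
    intro u hu u' hu'
    rw [Finset.mem_Icc] at hu hu'
    have h1 : Q * (u + u') ≤ Q * (M + M) := Nat.mul_le_mul_left Q (by omega)
    have h2 : Q * (M + M) = 2 * (Q * M) := by ring
    omega
  -- the indicator
  have hdv : ∀ a n : ℕ, dv κ p a n ≤ (if p ∣ n then (1 : ℝ) else 0) + (if p ∣ a then (1 : ℝ) else 0) +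
      (if p ∣ a + κ * n then (1 : ℝ) else 0) + (if p ∣ a + 2 * (κ * n) then (1 : ℝ) else 0) +
      (if p ∣ tZ κ 1 a n then (1 : ℝ) else 0) := by
    intro a n
    have f1 : (0 : ℝ) ≤ (if p ∣ n then (1 : ℝ) else 0) := by split_ifs <;> norm_num
    have f2 : (0 : ℝ) ≤ (if p ∣ a then (1 : ℝ) else 0) := by split_ifs <;> norm_num
    have f3 : (0 : ℝ) ≤ (if p ∣ a + κ * n then (1 : ℝ) else 0) := by split_ifs <;> norm_num
    have f4 : (0 : ℝ) ≤ (if p ∣ a + 2 * (κ * n) then (1 : ℝ) else 0) := by split_ifs <;> norm_num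
    have f5 : (0 : ℝ) ≤ (if p ∣ tZ κ 1 a n then (1 : ℝ) else 0) := by split_ifs <;> norm_num
    unfold dv
    by_cases hd : p ∣ xF κ a n * yF κ a n * zF κ a n
    · rw [if_pos hd]
      unfold xF yF at hd
      rcases (Nat.Prime.dvd_mul hp).1 hd with hd | hd
      · rcases (Nat.Prime.dvd_mul hp).1 hd with hd | hd
        · rcases (Nat.Prime.dvd_mul hp).1 hd with hd | hd
          · rw [if_pos hd]; linarith
          · rw [if_pos hd]; linarith
        · rcases (Nat.Prime.dvd_mul hp).1 hd with hd | hd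
          · rw [if_pos (show p ∣ a from hd)] at *; linarith
          · rw [if_pos hd]; linarith
      · have e : tZ κ 1 a n = zF κ a n := by
          unfold tZ zF
          rw [one_mul]
        rw [e, if_pos hd]
        rw [e] at f5
        linarith
    · rw [if_neg hd]
      linarith
  -- the five sums
  have s1 : ∑ u ∈ Finset.Icc 1 M, ∑ u' ∈ Finset.Icc 1 M, ∑ _v ∈ Finset.Icc 1 M,
      ∑ _v' ∈ Finset.Icc 1 M, (if p ∣ Q * (u + u') + 1 then (1 : ℝ) else 0) ≤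
      (M : ℝ) * (M * (M * (((9 * (κ * (Q * M)) : ℕ) : ℝ) / p))) := by
    refine four' M _ (fun u u' => if p ∣ Q * (u + u') + 1 then (1 : ℝ) else 0) fun u' hu' => ?_
    have h := lin p Q (Q * u' + 1) M (9 * (κ * (Q * M))) hp hpQ hMp (Nat.succ_pos _) (by
      have := hn M (Finset.mem_Icc.2 ⟨hM, le_rfl⟩) u' hu'
      rw [mul_add] at this
      omega)
    refine le_trans (le_of_eq (Finset.sum_congr rfl fun u _ => ?_)) h
    rw [mul_add, add_assoc]
  have s2 : ∀ e : ℕ, e ≤ 2 → ∑ u ∈ Finset.Icc 1 M, ∑ u' ∈ Finset.Icc 1 M, ∑ v ∈ Finset.Icc 1 M,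
      ∑ v' ∈ Finset.Icc 1 M,
        (if p ∣ Q * (v + v') + 1 + e * (κ * (Q * (u + u') + 1)) then (1 : ℝ) else 0) ≤
      (M : ℝ) * (M * (M * (((9 * (κ * (Q * M)) : ℕ) : ℝ) / p))) := by
    intro e he
    refine four M _ (fun u u' v v' =>
      if p ∣ Q * (v + v') + 1 + e * (κ * (Q * (u + u') + 1)) then (1 : ℝ) else 0)
      fun u hu u' hu' v' hv' => ?_
    have h := lin p Q (Q * v' + 1 + e * (κ * (Q * (u + u') + 1))) M (9 * (κ * (Q * M))) hp hpQ hMp
      (by omega) (by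
        have h1 := hn M (Finset.mem_Icc.2 ⟨hM, le_rfl⟩) v' hv'
        have h2 := hn u hu u' hu'
        rw [mul_add] at h1
        have h3 : e * (κ * (Q * (u + u') + 1)) ≤ 2 * (κ * (3 * (Q * M))) :=
          Nat.mul_le_mul he (Nat.mul_le_mul_left κ h2)
        have h4 : 2 * (κ * (3 * (Q * M))) = 6 * (κ * (Q * M)) := by ring
        omega)
    refine le_trans (le_of_eq (Finset.sum_congr rfl fun v _ => ?_)) h
    have e1 : Q * (v + v') + 1 + e * (κ * (Q * (u + u') + 1)) =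
        Q * v + (Q * v' + 1 + e * (κ * (Q * (u + u') + 1))) := by ring
    rw [e1]
  have s20 := s2 0 (by norm_num)
  have s21 := s2 1 (by norm_num)
  have s22 := s2 2 (by norm_num)
  simp only [zero_mul, add_zero] at s20
  simp only [one_mul] at s21
  unfold BR at hz ⊢
  simp only [one_mul] at hz ⊢
  have hden : (0 : ℝ) < (M : ℝ) ^ 2 * (M : ℝ) ^ 2 := by positivity
  rw [div_le_iff₀ hden] at hz ⊢
  have hsum : ∑ u ∈ Finset.Icc 1 M, ∑ u' ∈ Finset.Icc 1 M, ∑ v ∈ Finset.Icc 1 M,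
      ∑ v' ∈ Finset.Icc 1 M, dv κ p (Q * (v + v') + 1) (Q * (u + u') + 1) ≤
      ∑ u ∈ Finset.Icc 1 M, ∑ u' ∈ Finset.Icc 1 M, ∑ v ∈ Finset.Icc 1 M, ∑ v' ∈ Finset.Icc 1 M,
        ((if p ∣ Q * (u + u') + 1 then (1 : ℝ) else 0) +
        (if p ∣ Q * (v + v') + 1 then (1 : ℝ) else 0) +
        (if p ∣ Q * (v + v') + 1 + κ * (Q * (u + u') + 1) then (1 : ℝ) else 0) +
        (if p ∣ Q * (v + v') + 1 + 2 * (κ * (Q * (u + u') + 1)) then (1 : ℝ) else 0) +
        (if p ∣ tZ κ 1 (Q * (v + v') + 1) (Q * (u + u') + 1) then (1 : ℝ) else 0)) :=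
    Finset.sum_le_sum fun u _ => Finset.sum_le_sum fun u' _ => Finset.sum_le_sum fun v _ =>
      Finset.sum_le_sum fun v' _ => hdv _ _
  simp only [Finset.sum_add_distrib] at hsum
  refine hsum.trans ?_
  have hfin : (M : ℝ) * (M * (M * (((9 * (κ * (Q * M)) : ℕ) : ℝ) / p))) * 4 +
      C1 / p * ((M : ℝ) ^ 2 * (M : ℝ) ^ 2) =
      (36 * κ * Q + C1) / p * ((M : ℝ) ^ 2 * (M : ℝ) ^ 2) := by
    push_cast
    field_simp
    ring
  rw [← hfin]
  linarith

end Pool.Agent.F0f91f8.FC
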