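import Pool.Agent.Work.MP_0f91f8_co.FC.StmtsP
import Pool.Agent.Work.MP_0f91f8_co.HD.I_DCt

/-!
# Block FC, module P: item Ps (small primes)
-/

set_option autoImplicit false

namespace Pool.Agent.F0f91f8.FC

open Filter Topology ComplexConjugate
open Pool.Agent.F0f91f8.HD Pool.Agent.F0f91f8.RC Pool.Agent.F0f91f8.KR
open scoped BigOperators

namespace IPs

theorem cop {w p : ℕ} (hp : p.Prime) (hwp : w < p) : Nat.Coprime w.factorial p := by
  rw [Nat.coprime_comm, hp.coprime_iff_not_dvd, hp.dvd_factorial]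
  omega

theorem two_le {p M : ℕ} (hp : p.Prime) (hM : p ≤ M) : (M : ℝ) / p + 1 ≤ 2 * ((M : ℝ) / p) := by
  have h0 : (0 : ℝ) < p := by exact_mod_cast hp.pos
  have h1 : (1 : ℝ) ≤ (M : ℝ) / p := by
    rw [le_div_iff₀ h0, one_mul]
    exact_mod_cast hM
  linarith

theorem lin {w p M : ℕ} (hp : p.Prime) (hwp : w < p) (hM : p ≤ M) (c : ℕ) :
    (((Finset.Icc 1 M).filter fun v => p ∣ w.factorial * v + c).card : ℝ) ≤
      2 * ((M : ℝ) / p) := by
  obtain ⟨r, hr, h⟩ := pr_DCt.2.2.2.1 p w.factorial c hp.pos (cop hp hwp)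
  have h1 := pr_DCt.1 p M 0 {r} hp.pos
  rw [Finset.card_singleton, Nat.cast_one, one_mul] at h1
  refine le_trans ?_ (h1.trans (two_le hp hM))
  have h2 : ((Finset.Icc 1 M).filter fun v => p ∣ w.factorial * v + c) ⊆
      (Finset.Icc 1 M).filter fun u => (u + 0) % p ∈ ({r} : Finset ℕ) := by
    intro v hv
    obtain ⟨h3, h4⟩ := Finset.mem_filter.1 hv
    refine Finset.mem_filter.2 ⟨h3, ?_⟩
    rw [add_zero, Finset.mem_singleton]
    exact (h v).1 h4
  exact_mod_cast Finset.card_le_card h2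

theorem quad {w p M : ℕ} (hp : p.Prime) (hwp : w < p) (hM : p ≤ M) (c d : ℕ) :
    (((Finset.Icc 1 M).filter fun v => p ∣ (w.factorial * v + c) ^ 2 + d ^ 2).card : ℝ) ≤
      4 * ((M : ℝ) / p) := by
  classical
  have h0 : (0 : ℝ) ≤ (M : ℝ) / p := by positivity
  rcases ((Finset.Icc 1 M).filter fun v => p ∣ (w.factorial * v + c) ^ 2 + d ^ 2).eq_empty_or_nonempty
    with he | ⟨v₀, hv₀⟩
  · rw [he, Finset.card_empty, Nat.cast_zero]; linarith
  obtain ⟨-, hd₀⟩ := Finset.mem_filter.1 hv₀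
  obtain ⟨r₁, hr₁, h₁⟩ := pr_DCt.2.2.2.1 p w.factorial (c + (w.factorial * v₀ + c)) hp.pos
    (cop hp hwp)
  have h1 := pr_DCt.1 p M 0 {v₀ % p, r₁} hp.pos
  have hc2 : ((({v₀ % p, r₁} : Finset ℕ).card : ℕ) : ℝ) ≤ 2 := by
    exact_mod_cast Finset.card_le_two
  have h2 : ((Finset.Icc 1 M).filter fun v => p ∣ (w.factorial * v + c) ^ 2 + d ^ 2) ⊆
      (Finset.Icc 1 M).filter fun u => (u + 0) % p ∈ ({v₀ % p, r₁} : Finset ℕ) := by
    intro v hv
    obtain ⟨h3, h4⟩ := Finset.mem_filter.1 hv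
    refine Finset.mem_filter.2 ⟨h3, ?_⟩
    rw [add_zero, Finset.mem_insert, Finset.mem_singleton]
    haveI : Fact p.Prime := ⟨hp⟩
    have g1 := (ZMod.natCast_eq_zero_iff _ p).2 h4
    have g2 := (ZMod.natCast_eq_zero_iff _ p).2 hd₀
    push_cast at g1 g2
    have g3 : ((w.factorial : ZMod p) * v + c - ((w.factorial : ZMod p) * v₀ + c)) *
        ((w.factorial : ZMod p) * v + c + ((w.factorial : ZMod p) * v₀ + c)) = 0 := by
      linear_combination g1 - g2
    rcases mul_eq_zero.1 g3 with g | g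
    · left
      have hw0 : (w.factorial : ZMod p) ≠ 0 := by
        intro h
        have := (ZMod.natCast_eq_zero_iff _ p).1 h
        rw [hp.dvd_factorial] at this
        omega
      have g4 : (w.factorial : ZMod p) * ((v : ZMod p) - v₀) = 0 := by linear_combination g
      have g5 : (v : ZMod p) = v₀ := by
        rcases mul_eq_zero.1 g4 with h | h
        · exact absurd h hw0
        · exact sub_eq_zero.1 h
      exact (ZMod.natCast_eq_natCast_iff' v v₀ p).1 g5
    · right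
      apply (h₁ v).1
      apply (ZMod.natCast_eq_zero_iff _ p).1
      push_cast
      linear_combination g
  have h3 : (((Finset.Icc 1 M).filter fun v => p ∣ (w.factorial * v + c) ^ 2 + d ^ 2).card : ℝ) ≤
      (((Finset.Icc 1 M).filter fun u => (u + 0) % p ∈ ({v₀ % p, r₁} : Finset ℕ)).card : ℝ) := by
    exact_mod_cast Finset.card_le_card h2
  have h4 := two_le hp hM
  have h5 : (({v₀ % p, r₁} : Finset ℕ).card : ℝ) * ((M : ℝ) / p + 1) ≤ 2 * (2 * ((M : ℝ) / p)) :=
    mul_le_mul hc2 h4 (by linarith) (by norm_num)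
  linarith

open Classical in
/-- indicator -/
noncomputable def ii (P : Prop) : ℝ := if P then 1 else 0

theorem ii_nonneg (P : Prop) : 0 ≤ ii P := by unfold ii; split_ifs <;> norm_num

theorem ii_true {P : Prop} (h : P) : ii P = 1 := by unfold ii; rw [if_pos h]

theorem sum_ii (s : Finset ℕ) (P : ℕ → Prop) [DecidablePred P] :
    ∑ v ∈ s, ii (P v) = ((s.filter P).card : ℝ) := by
  rw [Finset.card_filter, Nat.cast_sum]
  refine Finset.sum_congr rfl fun v _ => ?_
  unfold ii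
  by_cases h : P v
  · rw [if_pos h, if_pos h, Nat.cast_one]
  · rw [if_neg h, if_neg h, Nat.cast_zero]

theorem dv_le {κ p a n : ℕ} (hp : p.Prime) : dv κ p a n ≤ ii (p ∣ n) + (ii (p ∣ a) +
    ii (p ∣ a + κ * n) + ii (p ∣ a + 2 * (κ * n)) + ii (p ∣ (a + κ * n) ^ 2 + (κ * n) ^ 2)) := by
  have h1 := ii_nonneg (p ∣ n)
  have h2 := ii_nonneg (p ∣ a)
  have h3 := ii_nonneg (p ∣ a + κ * n)
  have h4 := ii_nonneg (p ∣ a + 2 * (κ * n))
  have h5 := ii_nonneg (p ∣ (a + κ * n) ^ 2 + (κ * n) ^ 2)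
  unfold dv
  split_ifs with h
  · unfold xF yF zF at h
    rcases (Nat.Prime.dvd_mul hp).1 h with h | h
    · rcases (Nat.Prime.dvd_mul hp).1 h with h | h
      · rcases (Nat.Prime.dvd_mul hp).1 h with h | h
        · have := ii_true h; linarith
        · have := ii_true h; linarith
      · rcases (Nat.Prime.dvd_mul hp).1 h with h | h
        · have := ii_true h; linarith
        · have := ii_true h; linarith
    · have := ii_true h; linarith
  · linarith

/-- sum over `v` -/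
theorem sum_v {w κ p M : ℕ} (hp : p.Prime) (hwp : w < p) (hM : p ≤ M) (v' n : ℕ) :
    ∑ v ∈ Finset.Icc 1 M, (ii (p ∣ w.factorial * (v + v') + 1) +
      ii (p ∣ w.factorial * (v + v') + 1 + κ * n) +
      ii (p ∣ w.factorial * (v + v') + 1 + 2 * (κ * n)) +
      ii (p ∣ (w.factorial * (v + v') + 1 + κ * n) ^ 2 + (κ * n) ^ 2)) ≤
      10 * ((M : ℝ) / p) := by
  rw [Finset.sum_add_distrib, Finset.sum_add_distrib, Finset.sum_add_distrib, sum_ii, sum_ii,
    sum_ii, sum_ii]
  have h1 := lin hp hwp hM (w.factorial * v' + 1)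
  have h2 := lin hp hwp hM (w.factorial * v' + 1 + κ * n)
  have h3 := lin hp hwp hM (w.factorial * v' + 1 + 2 * (κ * n))
  have h4 := quad hp hwp hM (w.factorial * v' + 1 + κ * n) (κ * n)
  have e1 : ∀ v : ℕ, w.factorial * (v + v') + 1 = w.factorial * v + (w.factorial * v' + 1) :=
    fun v => by ring
  have e2 : ∀ v : ℕ, w.factorial * (v + v') + 1 + κ * n =
      w.factorial * v + (w.factorial * v' + 1 + κ * n) := fun v => by ring
  have e3 : ∀ v : ℕ, w.factorial * (v + v') + 1 + 2 * (κ * n) =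
      w.factorial * v + (w.factorial * v' + 1 + 2 * (κ * n)) := fun v => by ring
  simp only [e2, e3]
  simp only [e1]
  linarith

end IPs

open IPs in
theorem pr_Ps : StPs := by
  classical
  intro w κ p M _hw _hκ hp hwp hM
  have hp0 : (0 : ℝ) < p := by exact_mod_cast hp.pos
  have hM0 : (0 : ℝ) < M := by
    have : 0 < M := lt_of_lt_of_le hp.pos hM
    exact_mod_cast this
  unfold BR
  rw [one_mul, div_le_iff₀ (by positivity)]
  have key : ∀ u ∈ Finset.Icc 1 M, ∀ u' ∈ Finset.Icc 1 M,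
      ∑ v ∈ Finset.Icc 1 M, ∑ v' ∈ Finset.Icc 1 M,
        dv κ p (w.factorial * (v + v') + 1) (w.factorial * (u + u') + 1) ≤
      (M : ℝ) * (M * ii (p ∣ w.factorial * (u + u') + 1)) + M * (10 * ((M : ℝ) / p)) := by
    intro u _ u' _
    set n := w.factorial * (u + u') + 1 with hn
    calc ∑ v ∈ Finset.Icc 1 M, ∑ v' ∈ Finset.Icc 1 M, dv κ p (w.factorial * (v + v') + 1) n
        ≤ ∑ v ∈ Finset.Icc 1 M, ∑ v' ∈ Finset.Icc 1 M, (ii (p ∣ n) +
          (ii (p ∣ w.factorial * (v + v') + 1) + ii (p ∣ w.factorial * (v + v') + 1 + κ * n) +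
            ii (p ∣ w.factorial * (v + v') + 1 + 2 * (κ * n)) +
            ii (p ∣ (w.factorial * (v + v') + 1 + κ * n) ^ 2 + (κ * n) ^ 2))) :=
          Finset.sum_le_sum fun v _ => Finset.sum_le_sum fun v' _ => dv_le hp
      _ = ∑ v ∈ Finset.Icc 1 M, ∑ v' ∈ Finset.Icc 1 M, ii (p ∣ n) +
          ∑ v' ∈ Finset.Icc 1 M, ∑ v ∈ Finset.Icc 1 M,
          (ii (p ∣ w.factorial * (v + v') + 1) + ii (p ∣ w.factorial * (v + v') + 1 + κ * n) +
            ii (p ∣ w.factorial * (v + v') + 1 + 2 * (κ * n)) +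
            ii (p ∣ (w.factorial * (v + v') + 1 + κ * n) ^ 2 + (κ * n) ^ 2)) := by
          rw [Finset.sum_comm (s := Finset.Icc 1 M) (t := Finset.Icc 1 M)
            (f := fun v' v => (ii (p ∣ w.factorial * (v + v') + 1) +
              ii (p ∣ w.factorial * (v + v') + 1 + κ * n) +
              ii (p ∣ w.factorial * (v + v') + 1 + 2 * (κ * n)) +
              ii (p ∣ (w.factorial * (v + v') + 1 + κ * n) ^ 2 + (κ * n) ^ 2))),
            ← Finset.sum_add_distrib]
          refine Finset.sum_congr rfl fun v _ => ?_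
          rw [Finset.sum_add_distrib]
      _ ≤ (M : ℝ) * (M * ii (p ∣ n)) + M * (10 * ((M : ℝ) / p)) := by
          refine add_le_add (le_of_eq ?_) ?_
          · rw [Finset.sum_const, Finset.sum_const, Nat.card_Icc, nsmul_eq_mul, nsmul_eq_mul,
              Nat.add_sub_cancel]
          · refine (Finset.sum_le_sum fun v' _ => sum_v hp hwp hM v' n).trans (le_of_eq ?_)
            rw [Finset.sum_const, Nat.card_Icc, nsmul_eq_mul, Nat.add_sub_cancel]
  have hu : ∀ u' : ℕ, ∑ u ∈ Finset.Icc 1 M, ii (p ∣ w.factorial * (u + u') + 1) ≤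
      2 * ((M : ℝ) / p) := by
    intro u'
    rw [sum_ii]
    have h1 := lin hp hwp hM (w.factorial * u' + 1)
    have e1 : ∀ u : ℕ, w.factorial * (u + u') + 1 = w.factorial * u + (w.factorial * u' + 1) :=
      fun u => by ring
    simp only [e1]
    exact h1
  calc ∑ u ∈ Finset.Icc 1 M, ∑ u' ∈ Finset.Icc 1 M, ∑ v ∈ Finset.Icc 1 M, ∑ v' ∈ Finset.Icc 1 M,
        dv κ p (w.factorial * (v + v') + 1) (w.factorial * (u + u') + 1)
      ≤ ∑ u ∈ Finset.Icc 1 M, ∑ u' ∈ Finset.Icc 1 M,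
        ((M : ℝ) * (M * ii (p ∣ w.factorial * (u + u') + 1)) + M * (10 * ((M : ℝ) / p))) :=
        Finset.sum_le_sum fun u hu1 => Finset.sum_le_sum fun u' hu2 => key u hu1 u' hu2
    _ = (M : ℝ) * (M * ∑ u' ∈ Finset.Icc 1 M, ∑ u ∈ Finset.Icc 1 M,
          ii (p ∣ w.factorial * (u + u') + 1)) + M * (M * (M * (10 * ((M : ℝ) / p)))) := by
        rw [Finset.sum_comm (s := Finset.Icc 1 M) (t := Finset.Icc 1 M)
          (f := fun u' u => ii (p ∣ w.factorial * (u + u') + 1)), Finset.mul_sum, Finset.mul_sum]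
        rw [show (M : ℝ) * (M * (M * (10 * ((M : ℝ) / p)))) =
          ∑ u ∈ Finset.Icc 1 M, ∑ u' ∈ Finset.Icc 1 M, (M : ℝ) * (10 * ((M : ℝ) / p)) by
            rw [Finset.sum_const, Finset.sum_const, Nat.card_Icc, nsmul_eq_mul, nsmul_eq_mul,
              Nat.add_sub_cancel]]
        rw [← Finset.sum_add_distrib]
        refine Finset.sum_congr rfl fun u _ => ?_
        rw [Finset.mul_sum, Finset.mul_sum, ← Finset.sum_add_distrib]
    _ ≤ (M : ℝ) * (M * (M * (2 * ((M : ℝ) / p)))) + M * (M * (M * (10 * ((M : ℝ) / p)))) := by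
        have h1 : ∑ u' ∈ Finset.Icc 1 M, ∑ u ∈ Finset.Icc 1 M,
            ii (p ∣ w.factorial * (u + u') + 1) ≤ M * (2 * ((M : ℝ) / p)) := by
          refine (Finset.sum_le_sum fun u' _ => hu u').trans (le_of_eq ?_)
          rw [Finset.sum_const, Nat.card_Icc, nsmul_eq_mul, Nat.add_sub_cancel]
        have h2 : (M : ℝ) * (M * ∑ u' ∈ Finset.Icc 1 M, ∑ u ∈ Finset.Icc 1 M,
            ii (p ∣ w.factorial * (u + u') + 1)) ≤ (M : ℝ) * (M * (M * (2 * ((M : ℝ) / p)))) := by
          gcongr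
        linarith
    _ = 12 / (p : ℝ) * ((M : ℝ) ^ 2 * (M : ℝ) ^ 2) := by
        field_simp
        ring

end Pool.Agent.F0f91f8.FC
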