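import Pool.Agent.Work.MP_0f91f8_co.FC.StmtsP
import Pool.Agent.Work.MP_0f91f8_co.RC.T0

/-!
# Block FC, module P, item T0 (helper85; the proof is that of `RC.t_zero`, helper83)
-/

set_option autoImplicit false

namespace Pool.Agent.F0f91f8.FC

open Filter Topology ComplexConjugate
open Pool.Agent.F0f91f8.HD Pool.Agent.F0f91f8.RC Pool.Agent.F0f91f8.KR
open scoped BigOperators

theorem pr_T0 (hBL : S_BL) : StT0 := by
  classical
  intro t hs
  by_contra ht
  have hpi := Real.pi_pos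
  have hta : 0 < |t| := abs_pos.mpr ht
  -- step
  set η : ℝ := Real.pi / (3 * |t|) with hη
  have hη0 : 0 < η := by positivity
  have htη : |t| * η = Real.pi / 3 := by rw [hη]; field_simp
  obtain ⟨c, hc, j₀, hj₀⟩ := hBL η hη0
  set T₀ : Set ℕ := {p : ℕ | 1 / 2 ≤ ‖1 - ((p : ℕ) : ℂ) ^ ((t : ℂ) * Complex.I)‖} with hT₀
  let G : ℕ → ℝ := fun p => T₀.indicator (fun p : ℕ => 1 / (p : ℝ)) p
  have hG0 : ∀ p, 0 ≤ G p := fun p => Set.indicator_nonneg (fun p _ => by positivity) p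
  have hGmem : ∀ p : ℕ, 1 / 2 ≤ ‖1 - ((p : ℕ) : ℂ) ^ ((t : ℂ) * Complex.I)‖ →
      G p = 1 / (p : ℝ) := fun p hp => Set.indicator_of_mem (show p ∈ T₀ from hp) _
  -- every finite set of primes has a bounded sum
  have hfin : ∀ S : Finset ℕ, (∀ p ∈ S, p.Prime) → ∑ p ∈ S, G p ≤ ∑' p : Nat.Primes, G p := by
    intro S hS
    have h1 : ∑ p ∈ S, G p = ∑ p ∈ S.attach.image (fun x => (⟨x.1, hS x.1 x.2⟩ : Nat.Primes)), G p := by
      rw [Finset.sum_image]
      · exact (Finset.sum_attach S G).symm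
      · intro x _ y _ hxy
        exact Subtype.ext (congrArg (fun z : Nat.Primes => (z : ℕ)) hxy)
    rw [h1]
    exact Summable.sum_le_tsum (f := fun p : Nat.Primes => G p) _ (fun p _ => hG0 p) hs
  set T := ∑' p : Nat.Primes, G p with hT
  -- one of two blocks has a large sum
  have hS0 : ∀ i, 0 ≤ ∑ p ∈ Blk η i, G p := fun i => Finset.sum_nonneg fun p _ => hG0 p
  have hhalf : ∀ i : ℕ, (∀ p ∈ Blk η i, 1 / 2 ≤ ‖1 - ((p : ℕ) : ℂ) ^ ((t : ℂ) * Complex.I)‖) →
      ∑ p ∈ Blk η i, (1 : ℝ) / p ≤ ∑ p ∈ Blk η i, G p := by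
    intro i hi
    refine Finset.sum_le_sum fun p hp => ?_
    exact (hGmem p (hi p hp)).ge
  have hpair : ∀ j : ℕ, j₀ ≤ j → 1 ≤ j → c / ((j : ℝ) + 3) ≤
      ∑ p ∈ Blk η j, G p + ∑ p ∈ Blk η (j + 3), G p := by
    intro j hj hj1
    have hjR : (0 : ℝ) < j := by exact_mod_cast hj1
    by_cases hA : ∀ p ∈ Blk η j, 1 / 2 ≤ ‖1 - ((p : ℕ) : ℂ) ^ ((t : ℂ) * Complex.I)‖
    · have h1 := hhalf j hA
      have h2 := hj₀ j hj
      have h3 : c / ((j : ℝ) + 3) ≤ c / (j : ℝ) :=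
        div_le_div_of_nonneg_left hc.le hjR (by linarith)
      have := hS0 (j + 3)
      linarith
    · push Not at hA
      obtain ⟨q, hq, hq2⟩ := hA
      have hB : ∀ p ∈ Blk η (j + 3), 1 / 2 ≤ ‖1 - ((p : ℕ) : ℂ) ^ ((t : ℂ) * Complex.I)‖ := by
        intro p hp
        obtain ⟨q1, q2, q3⟩ := mem_blk hq
        obtain ⟨p1, p2, p3⟩ := mem_blk hp
        have hd1 : 2 * η ≤ Real.log p - Real.log q := by
          push_cast at p2; nlinarith
        have hd2 : Real.log p - Real.log q ≤ 4 * η := by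
          push_cast at p3; nlinarith
        have hab : |t * Real.log p - t * Real.log q| = |t| * (Real.log p - Real.log q) := by
          rw [← mul_sub, abs_mul, abs_of_nonneg (by linarith : (0 : ℝ) ≤ Real.log p - Real.log q)]
        have h1 := far (a := t * Real.log p) (b := t * Real.log q)
          (by rw [hab]; nlinarith) (by rw [hab]; nlinarith)
        rw [← cpow_eq p1.pos, ← cpow_eq q1.pos] at h1
        have h2 : ‖((p : ℕ) : ℂ) ^ ((t : ℂ) * Complex.I) - ((q : ℕ) : ℂ) ^ ((t : ℂ) * Complex.I)‖ ≤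
            ‖1 - ((q : ℕ) : ℂ) ^ ((t : ℂ) * Complex.I)‖ +
            ‖1 - ((p : ℕ) : ℂ) ^ ((t : ℂ) * Complex.I)‖ := by
          have e : ((p : ℕ) : ℂ) ^ ((t : ℂ) * Complex.I) - ((q : ℕ) : ℂ) ^ ((t : ℂ) * Complex.I) =
            (1 - ((q : ℕ) : ℂ) ^ ((t : ℂ) * Complex.I)) -
              (1 - ((p : ℕ) : ℂ) ^ ((t : ℂ) * Complex.I)) := by ring
          rw [e]; exact norm_sub_le _ _
        linarith
      have h1 := hhalf (j + 3) hB
      have h2 := hj₀ (j + 3) (by omega)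
      push_cast at h2
      have := hS0 j
      linarith
  -- sum over the blocks
  have hsumS : ∀ (J L s : ℕ), ∑ j ∈ Finset.Ico J (J + L), ∑ p ∈ Blk η (j + s), G p ≤ T := by
    intro J L s
    have hdisj : Set.PairwiseDisjoint (↑(Finset.Ico J (J + L)) : Set ℕ)
        (fun j => Blk η (j + s)) := by
      intro i _ j _ hij
      rw [Function.onFun, Finset.disjoint_left]
      intro p hp1 hp2
      have := blk_disj hη0 hp1 hp2
      exact hij (by omega)
    rw [← Finset.sum_biUnion hdisj]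
    refine hfin _ fun p hp => ?_
    rw [Finset.mem_biUnion] at hp
    obtain ⟨j, _, hj⟩ := hp
    exact (mem_blk hj).1
  have hbound : ∀ L : ℕ, ∑ j ∈ Finset.Ico (j₀ + 1) (j₀ + 1 + L), c / ((j : ℝ) + 3) ≤
      2 * T := by
    intro L
    calc _ ≤ ∑ j ∈ Finset.Ico (j₀ + 1) (j₀ + 1 + L),
          (∑ p ∈ Blk η j, G p + ∑ p ∈ Blk η (j + 3), G p) :=
          Finset.sum_le_sum fun j hj => by
            rw [Finset.mem_Ico] at hj
            exact hpair j (by omega) (by omega)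
      _ = ∑ j ∈ Finset.Ico (j₀ + 1) (j₀ + 1 + L), ∑ p ∈ Blk η (j + 0), G p +
          ∑ j ∈ Finset.Ico (j₀ + 1) (j₀ + 1 + L), ∑ p ∈ Blk η (j + 3), G p := by
          rw [Finset.sum_add_distrib]
          simp
      _ ≤ T + T := add_le_add (hsumS _ _ _) (hsumS _ _ _)
      _ = 2 * T := by ring
  -- the harmonic series diverges
  have hsummable : Summable fun j : ℕ => (1 : ℝ) / ((j : ℝ) + (j₀ + 4 : ℕ)) := by
    refine summable_of_sum_range_le (c := 2 * T / c) (fun j => by positivity) fun L => ?_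
    have h1 := hbound L
    rw [Finset.sum_Ico_eq_sum_range] at h1
    rw [show j₀ + 1 + L - (j₀ + 1) = L by omega] at h1
    have h2 : ∑ j ∈ Finset.range L, (1 : ℝ) / ((j : ℝ) + (j₀ + 4 : ℕ)) =
        (1 / c) * ∑ k ∈ Finset.range L, c / (((j₀ + 1 + k : ℕ) : ℝ) + 3) := by
      rw [Finset.mul_sum]
      refine Finset.sum_congr rfl fun k _ => ?_
      push_cast
      have : (k : ℝ) + (j₀ + 4) ≠ 0 := by positivity
      have h3 : ((j₀ : ℝ) + 1 + k + 3) ≠ 0 := by positivity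
      field_simp
      ring
    rw [h2]
    calc _ ≤ (1 / c) * (2 * T) := mul_le_mul_of_nonneg_left h1 (by positivity)
      _ = 2 * T / c := by ring
  have hns : ¬ Summable fun j : ℕ => (1 : ℝ) / ((j : ℝ) + (j₀ + 4 : ℕ)) := by
    have h1 := (summable_nat_add_iff (f := fun n : ℕ => (1 : ℝ) / (n : ℝ)) (j₀ + 4)).not.mpr
      Real.not_summable_one_div_natCast
    intro h
    apply h1
    refine h.congr fun j => ?_
    push_cast
    rfl
  exact hns hsummable

end Pool.Agent.F0f91f8.FC
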