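import Pool.Agent.Work.MP_0f91f8_co.FC.I_TrivS
import Pool.Agent.Work.MP_0f91f8_co.FC.I_Pb
import Pool.Agent.Work.MP_0f91f8_co.FC.I_EigS
import Pool.Agent.Work.MP_0f91f8_co.FC.I_Ps
import Pool.Agent.Work.MP_0f91f8_co.FC.I_Pl
import Pool.Agent.Work.MP_0f91f8_co.FC.I_T0
import Pool.Agent.Work.MP_0f91f8_co.FC.I_Pa
import Pool.Agent.Work.MP_0f91f8_co.KT.PosE

/-!
# Block FC, module P: composition, no hypotheses (helper83)
-/

set_option autoImplicit false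

namespace Pool.Agent.F0f91f8.FC

open Pool.Agent.F0f91f8.HD Pool.Agent.F0f91f8.RC Pool.Agent.F0f91f8.KR

theorem all_T0 : StT0 := pr_T0 (pr_BL Pool.Agent.Work.MP_a8fbd7_nt.ZF.all_Pnt)

theorem all_EigS : EigS := pr_EigS pr_Pa pr_Pb Pool.Agent.F0f91f8.KT.all_Aper3 pretStmt

theorem all_ThinS : ThinS := pr_ThinS pr_Pa pr_Ps (pr_Pl all_RZp)

theorem all_RootS : RootS := pr_RootS pr_Pb all_T0

theorem all_TrivS : TrivS := pr_TrivS pr_Pa pr_Pb all_T0 all_ThinS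

end Pool.Agent.F0f91f8.FC
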