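import Pool.Agent.Work.MP_0f91f8_co.FC.StmtsS

/-!
# Block FC, item Ch: Chebyshev, Mertens
-/

set_option autoImplicit false

namespace Pool.Agent.F0f91f8.FC

open Filter Topology ComplexConjugate
open scoped BigOperators

namespace XCh

lemma pow_dvd (p y : ℕ) (hp : p.Prime) : p ^ (y / p) ∣ y.factorial := by
  rw [hp.pow_dvd_factorial_iff (b := Nat.log p y + 2) (by omega)]
  have h1 : 1 ∈ Finset.Ico 1 (Nat.log p y + 2) := by
    rw [Finset.mem_Ico]; omega
  have h2 := Finset.single_le_sum (f := fun i => y / p ^ i) (fun i _ => Nat.zero_le _) h1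
  simpa using h2

lemma prod_dvd (y : ℕ) :
    ∏ p ∈ (Finset.Icc 1 y).filter Nat.Prime, p ^ (y / p) ∣ y.factorial := by
  apply Finset.prod_dvd_of_isRelPrime
  · intro p hp q hq hpq
    have hp' := (Finset.mem_filter.1 hp).2
    have hq' := (Finset.mem_filter.1 hq).2
    show IsRelPrime (p ^ (y / p)) (q ^ (y / q))
    rw [← Nat.coprime_iff_isRelPrime]
    exact Nat.Coprime.pow _ _ ((Nat.coprime_primes hp' hq').2 hpq)
  · intro p hp
    exact pow_dvd p y (Finset.mem_filter.1 hp).2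

lemma sum_le (y : ℕ) (hy : 1 ≤ y) :
    ∑ p ∈ (Finset.Icc 1 y).filter Nat.Prime, ((y / p : ℕ) : ℝ) * Real.log p ≤
      y * Real.log y := by
  have h1 := Nat.le_of_dvd (Nat.factorial_pos y) (prod_dvd y)
  have h2 := h1.trans (Nat.factorial_le_pow y)
  have h3 : ((∏ p ∈ (Finset.Icc 1 y).filter Nat.Prime, p ^ (y / p) : ℕ) : ℝ) ≤
      ((y ^ y : ℕ) : ℝ) := by exact_mod_cast h2
  have hne : ∀ p ∈ (Finset.Icc 1 y).filter Nat.Prime, ((p : ℝ) ^ (y / p)) ≠ 0 := by
    intro p hp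
    have := (Finset.mem_filter.1 hp).2.pos
    positivity
  have h4 : Real.log ((∏ p ∈ (Finset.Icc 1 y).filter Nat.Prime, p ^ (y / p) : ℕ) : ℝ) =
      ∑ p ∈ (Finset.Icc 1 y).filter Nat.Prime, ((y / p : ℕ) : ℝ) * Real.log p := by
    rw [Nat.cast_prod, Finset.prod_congr rfl (fun p _ => Nat.cast_pow p (y / p)),
      Real.log_prod hne]
    exact Finset.sum_congr rfl fun p _ => Real.log_pow _ _
  rw [← h4]
  have h5 : Real.log (((y ^ y : ℕ) : ℝ)) = y * Real.log y := by
    rw [Nat.cast_pow, Real.log_pow]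
  rw [← h5]
  refine Real.log_le_log ?_ h3
  have h6 : 0 < ∏ p ∈ (Finset.Icc 1 y).filter Nat.Prime, p ^ (y / p) :=
    Finset.prod_pos fun p hp => pow_pos (Finset.mem_filter.1 hp).2.pos _
  exact_mod_cast h6

end XCh

theorem pr_Ch : StCh := by
  refine ⟨3, by norm_num, fun y hy => ?_⟩
  have hy0 : (0 : ℝ) < y := by exact_mod_cast (by omega : 0 < y)
  have h1 := XCh.sum_le y (by omega)
  have h2 : Chebyshev.theta (y : ℝ) ≤ Real.log 4 * y := Chebyshev.theta_le_log4_mul_x hy0.le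
  have h3 : Chebyshev.theta (y : ℝ) = ∑ p ∈ (Finset.Icc 1 y).filter Nat.Prime, Real.log p := by
    unfold Chebyshev.theta
    rw [Nat.floor_natCast]
    apply Finset.sum_congr _ fun _ _ => rfl
    ext p
    simp only [Finset.mem_filter, Finset.mem_Ioc, Finset.mem_Icc]
    constructor
    · rintro ⟨⟨a, b⟩, c⟩
      exact ⟨⟨a, b⟩, c⟩
    · rintro ⟨⟨a, b⟩, c⟩
      exact ⟨⟨a, b⟩, c⟩
  have h4 : ∑ p ∈ (Finset.Icc 1 y).filter Nat.Prime, y * (Real.log p / p) ≤
      ∑ p ∈ (Finset.Icc 1 y).filter Nat.Prime,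
        (((y / p : ℕ) : ℝ) * Real.log p + Real.log p) := by
    apply Finset.sum_le_sum
    intro p hp
    have hp' := (Finset.mem_filter.1 hp).2
    have hpp : (0 : ℝ) < p := by exact_mod_cast hp'.pos
    have hl : 0 ≤ Real.log p := Real.log_nonneg (by exact_mod_cast hp'.one_lt.le)
    have h5 : (y : ℝ) / p ≤ ((y / p : ℕ) : ℝ) + 1 := by
      rw [div_le_iff₀ hpp]
      have h6 : y < (y / p + 1) * p := by
        have := Nat.div_add_mod y p
        have := Nat.mod_lt y hp'.pos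
        nlinarith
      have h7 : (y : ℝ) ≤ (((y / p + 1) * p : ℕ) : ℝ) := by exact_mod_cast h6.le
      push_cast at h7
      exact h7
    calc (y : ℝ) * (Real.log p / p) = (y : ℝ) / p * Real.log p := by ring
      _ ≤ (((y / p : ℕ) : ℝ) + 1) * Real.log p := mul_le_mul_of_nonneg_right h5 hl
      _ = _ := by ring
  rw [← Finset.mul_sum, Finset.sum_add_distrib, ← h3] at h4
  have h8 : (y : ℝ) * ∑ p ∈ (Finset.Icc 1 y).filter Nat.Prime, Real.log p / p ≤
      y * (Real.log y + Real.log 4) := by linarith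
  have h9 := le_of_mul_le_mul_left h8 hy0
  have h10 : Real.log 4 ≤ 2 * Real.log y := by
    have e : (4 : ℝ) = 2 ^ 2 := by norm_num
    rw [e, Real.log_pow]
    have h11 : Real.log 2 ≤ Real.log y := Real.log_le_log (by norm_num) (by exact_mod_cast hy)
    push_cast
    linarith
  linarith

end Pool.Agent.F0f91f8.FC
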