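import Pool.Agent.Work.MP_0f91f8_co.FC.StmtsS

/-!
# Block FC, module S: item Cp (the forms are coprime)
-/

set_option autoImplicit false

namespace Pool.Agent.F0f91f8.FC

open Filter Topology ComplexConjugate
open scoped BigOperators

namespace XCp

theorem sp_dvd (w y N : ℕ) (hN : N ≠ 0) : sp w y N ∣ N := by
  conv_rhs => rw [← Nat.factorization_prod_pow_eq_self hN]
  unfold sp
  rw [Finsupp.prod, Nat.support_factorization]
  exact Finset.prod_dvd_prod_of_subset _ _ _ (Finset.filter_subset _ _)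

theorem sp_pos (w y N : ℕ) : 0 < sp w y N := by
  unfold sp
  refine Finset.prod_pos fun p hp => ?_
  have := (Nat.prime_of_mem_primeFactors (Finset.mem_filter.1 hp).1).pos
  positivity

theorem prime_sp {w y N p : ℕ} (hp : p.Prime) (h : p ∣ sp w y N) : w < p ∧ p ≤ y := by
  unfold sp at h
  rw [Prime.dvd_finsetProd_iff hp.prime] at h
  obtain ⟨q, hq, hpq⟩ := h
  obtain ⟨h1, h2⟩ := Finset.mem_filter.1 hq
  have h3 := (Nat.prime_dvd_prime_iff_eq hp (Nat.prime_of_mem_primeFactors h1)).1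
    (hp.dvd_of_dvd_pow hpq)
  rw [h3]
  exact h2

theorem dvd_sp {w y N p : ℕ} (hN : N ≠ 0) (hp : p.Prime) (h : p ∣ N) (h1 : w < p) (h2 : p ≤ y) :
    p ∣ sp w y N := by
  have hm : p ∈ N.primeFactors.filter (fun p => w < p ∧ p ≤ y) :=
    Finset.mem_filter.2 ⟨Nat.mem_primeFactors.2 ⟨hp, h, hN⟩, h1, h2⟩
  have h3 : p ∣ p ^ N.factorization p := by
    apply dvd_pow_self
    exact (hp.factorization_pos_of_dvd hN h).ne'
  exact h3.trans (Finset.dvd_prod_of_mem (fun p => p ^ N.factorization p) hm)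

variable {w κ n a : ℕ}

/-- the forms modulo `p` -/
theorem cast_Lf (p : ℕ) (κ n a : ℕ) (j : Fin 4) (h : p ∣ Lf κ n a j) :
    ((![(a : ZMod p), a + κ * n, a + 2 * (κ * n), (a + κ * n) ^ 2 + (κ * n) ^ 2] : Fin 4 → ZMod p)
      j) = 0 := by
  have h1 := (ZMod.natCast_eq_zero_iff (Lf κ n a j) p).2 h
  rw [← h1]
  fin_cases j <;> simp [Lf]

theorem gt_w (hκ : Adm w κ) (ha : a % w.factorial = 1 % w.factorial) {p : ℕ} (hp : p.Prime)
    (j : Fin 4) (h : p ∣ Lf κ n a j) : w < p := by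
  by_contra hle
  have hle' : p ≤ w := not_lt.1 hle
  haveI : Fact p.Prime := ⟨hp⟩
  have hpQ : p ∣ w.factorial := (hp.dvd_factorial).2 hle'
  have h1 : (a : ZMod p) = 1 := by
    have : a ≡ 1 [MOD p] := (show a ≡ 1 [MOD w.factorial] from ha).of_dvd hpQ
    have h2 := (ZMod.natCast_eq_natCast_iff a 1 p).2 this
    rw [h2, Nat.cast_one]
  have h2 : (κ : ZMod p) = 0 := (ZMod.natCast_eq_zero_iff κ p).2 (hpQ.trans hκ.2.1)
  have h3 := cast_Lf p κ n a j h
  rw [h1, h2] at h3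
  fin_cases j <;> simp at h3

theorem not_dvd_n (hcop : Nat.Coprime a n) {p : ℕ} (hp : p.Prime)
    (j : Fin 4) (h : p ∣ Lf κ n a j) : ¬ p ∣ n := by
  intro hn
  haveI : Fact p.Prime := ⟨hp⟩
  have h2 : (n : ZMod p) = 0 := (ZMod.natCast_eq_zero_iff n p).2 hn
  have h3 := cast_Lf p κ n a j h
  rw [h2] at h3
  have h4 : (a : ZMod p) = 0 := by
    fin_cases j <;> simpa using h3
  have h5 : p ∣ a := (ZMod.natCast_eq_zero_iff a p).1 h4
  have h6 := Nat.dvd_gcd h5 hn
  rw [Nat.Coprime] at hcop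
  rw [hcop] at h6
  exact hp.one_lt.ne' (Nat.dvd_one.1 h6)

theorem two_sq {R : Type*} [CommRing R] (x N : R) (i j : Fin 4) (hij : i ≠ j)
    (hi : (![x, x + N, x + 2 * N, (x + N) ^ 2 + N ^ 2] : Fin 4 → R) i = 0)
    (hj : (![x, x + N, x + 2 * N, (x + N) ^ 2 + N ^ 2] : Fin 4 → R) j = 0) :
    2 * N ^ 2 = 0 := by
  fin_cases i <;> fin_cases j <;> simp at hi hj hij ⊢
  · linear_combination (2 * N) * (hj - hi)
  · linear_combination N * (hj - hi)
  · linear_combination hj - (x + 2 * N) * hi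
  · linear_combination (2 * N) * (hi - hj)
  · linear_combination (2 * N) * (hj - hi)
  · linear_combination 2 * hj - 2 * (x + N) * hi
  · linear_combination N * (hi - hj)
  · linear_combination (2 * N) * (hi - hj)
  · linear_combination hj - x * hi
  · linear_combination hi - (x + 2 * N) * hj
  · linear_combination 2 * hi - 2 * (x + N) * hj
  · linear_combination hi - x * hj

theorem cop (hw : 10 ≤ w) (hκ : Adm w κ) (ha : a % w.factorial = 1 % w.factorial)
    (hcop : Nat.Coprime a n) (i j : Fin 4) (hij : i ≠ j) :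
    Nat.Coprime (Lf κ n a i) (Lf κ n a j) := by
  by_contra hc
  obtain ⟨p, hp, h1, h2⟩ := Nat.Prime.not_coprime_iff_dvd.1 hc
  haveI : Fact p.Prime := ⟨hp⟩
  have hwp := gt_w hκ ha hp i h1
  have hn := not_dvd_n hcop hp i h1
  have g1 := cast_Lf p κ n a i h1
  have g2 := cast_Lf p κ n a j h2
  have h3 := two_sq (a : ZMod p) ((κ : ZMod p) * n) i j hij g1 g2
  have h4 : (2 : ZMod p) ≠ 0 := by
    intro h
    have h' : ((2 : ℕ) : ZMod p) = 0 := by exact_mod_cast h
    have := Nat.le_of_dvd (by norm_num) ((ZMod.natCast_eq_zero_iff 2 p).1 h')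
    omega
  have h5 : ((κ : ZMod p) * n) = 0 := by
    rcases mul_eq_zero.1 h3 with h | h
    · exact absurd h h4
    · exact pow_eq_zero_iff (two_ne_zero) |>.1 h
  rcases mul_eq_zero.1 h5 with h | h
  · have := hκ.2.2 p hp ((ZMod.natCast_eq_zero_iff κ p).1 h)
    omega
  · exact hn ((ZMod.natCast_eq_zero_iff n p).1 h)

end XCp

theorem pr_Cp : StCp := by
  classical
  intro w y κ n c X v hw hκ hn hnQ hcQ hv hcop
  set a := w.factorial * v + c with ha
  have haQ : a % w.factorial = 1 % w.factorial := by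
    rw [ha, Nat.mul_add_mod]
    exact hcQ
  have hv1 : 1 ≤ v := (Finset.mem_Icc.1 hv).1
  have ha0 : 0 < a := by
    have : 0 < w.factorial * v := Nat.mul_pos (Nat.factorial_pos w) hv1
    omega
  have hL0 : ∀ j, Lf κ n a j ≠ 0 := by
    intro j
    have hκn : 0 < κ * n := Nat.mul_pos hκ.1 hn
    fin_cases j
    · exact ha0.ne'
    · show a + κ * n ≠ 0
      omega
    · show a + 2 * (κ * n) ≠ 0
      omega
    · show (a + κ * n) ^ 2 + (κ * n) ^ 2 ≠ 0
      positivity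
  have hgt : ∀ (j : Fin 4) (p : ℕ), p.Prime → p ∣ Lf κ n a j → w < p :=
    fun j p hp h => XCp.gt_w hκ haQ hp j h
  refine ⟨hgt, ⟨fun j => XCp.sp_pos _ _ _, ?_, ?_, ?_⟩, ?_⟩
  · intro i j hij
    exact Nat.Coprime.coprime_dvd_left (XCp.sp_dvd w y _ (hL0 i))
      (Nat.Coprime.coprime_dvd_right (XCp.sp_dvd w y _ (hL0 j)) (XCp.cop hw hκ haQ hcop i j hij))
  · intro j p hp h
    exact XCp.prime_sp hp h
  · intro j
    by_contra hc
    obtain ⟨p, hp, h1, h2⟩ := Nat.Prime.not_coprime_iff_dvd.1 hc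
    exact XCp.not_dvd_n hcop hp j (h1.trans (XCp.sp_dvd w y _ (hL0 j))) h2
  · unfold Ns
    rw [Finset.mem_filter]
    refine ⟨hv, fun j => XCp.sp_dvd w y _ (hL0 j), ?_⟩
    intro p hp hdiv
    obtain ⟨hpi, hpp, hwp, hnd⟩ := Finset.mem_filter.1 hp
    have hpy : p ≤ y := (Finset.mem_Icc.1 hpi).2
    rw [Prime.dvd_finsetProd_iff hpp.prime] at hdiv
    obtain ⟨j, -, hj⟩ := hdiv
    apply hnd
    refine Dvd.dvd.mul_right ?_ n
    exact (XCp.dvd_sp (hL0 j) hpp hj hwp hpy).trans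
      (Finset.dvd_prod_of_mem (fun j => sp w y (Lf κ n a j)) (Finset.mem_univ j))

end Pool.Agent.F0f91f8.FC
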