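import Pool.Agent.Work.MP_0f91f8_co.FC.StmtsS

/-!
# Block FC, item Cw: the weight of the families (helper72)
-/

set_option autoImplicit false

namespace Pool.Agent.F0f91f8.FC

open Filter Topology ComplexConjugate
open scoped BigOperators

namespace XCw

variable {ι : Type} [Fintype ι] [DecidableEq ι]

/-- the families with product dividing `N` are counted by binomial coefficients -/
theorem count (hHv : StHv) (cl : ℕ → Option ι) (P : ι → Finset ℕ) (j : ι → ℕ)
    (hP : ∀ i, ∀ p ∈ P i, p.Prime ∧ cl p = some i) (N : ℕ) :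
    ((FB P j).filter fun B => bB B ∣ N).card = ∏ i, (Np (P i) N).choose (j i) := by
  have h : ((FB P j).filter fun B => bB B ∣ N) =
      Fintype.piFinset fun i => ((P i).filter fun p => p ∣ N).powersetCard (j i) := by
    ext B
    simp only [FB, Finset.mem_filter, Fintype.mem_piFinset, Finset.mem_powersetCard]
    constructor
    · rintro ⟨h1, h2⟩ i
      have hB : ∀ i, ∀ p ∈ B i, p.Prime ∧ cl p = some i := fun i p hp => hP i p ((h1 i).1 hp)
      have h3 := ((((hHv ι inferInstance inferInstance cl).2.2 B hB).2.2.2.2) N).1 h2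
      refine ⟨fun p hp => ?_, (h1 i).2⟩
      rw [Finset.mem_filter]
      exact ⟨(h1 i).1 hp, h3 i p hp⟩
    · intro h1
      have h1a : ∀ i, B i ⊆ P i := fun i p hp => (Finset.mem_filter.1 ((h1 i).1 hp)).1
      have hB : ∀ i, ∀ p ∈ B i, p.Prime ∧ cl p = some i := fun i p hp => hP i p (h1a i hp)
      refine ⟨fun i => ⟨h1a i, (h1 i).2⟩, ?_⟩
      exact ((((hHv ι inferInstance inferInstance cl).2.2 B hB).2.2.2.2) N).2
        fun i p hp => (Finset.mem_filter.1 ((h1 i).1 hp)).2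
  rw [h, Fintype.card_piFinset]
  refine Finset.prod_congr rfl fun i _ => ?_
  rw [Finset.card_powersetCard]
  rfl

theorem first (hHv : StHv) (hWj : StWj) (cl : ℕ → Option ι) (P : ι → Finset ℕ) (j : ι → ℕ)
    (H : ℕ) (hP : ∀ i, ∀ p ∈ P i, p.Prime ∧ cl p = some i) (hL : ∀ i, 0 < lam (P i))
    (hj : ∀ i, j i < H) (N : ℕ)
    (hN : ∀ i, (1 - 1 / (H : ℝ)) * lam (P i) + H ≤ Np (P i) N) :
    1 ≤ 4 ^ Fintype.card ι * (cj P j * (((FB P j).filter fun B => bB B ∣ N).card : ℝ)) := by
  rw [count hHv cl P j hP N]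
  have h4 : (4 : ℝ) ^ Fintype.card ι = ∏ _i : ι, (4 : ℝ) := by
    rw [Finset.prod_const, Finset.card_univ]
  have h : (4 : ℝ) ^ Fintype.card ι *
      (cj P j * ((∏ i, (Np (P i) N).choose (j i) : ℕ) : ℝ)) =
      ∏ i, 4 * (((Np (P i) N).descFactorial (j i) : ℝ) / lam (P i) ^ (j i)) := by
    rw [h4, cj, Nat.cast_prod, ← Finset.prod_mul_distrib, ← Finset.prod_mul_distrib]
    refine Finset.prod_congr rfl fun i _ => ?_
    rw [Nat.descFactorial_eq_factorial_mul_choose, Nat.cast_mul]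
    ring
  rw [h]
  calc (1 : ℝ) = ∏ _i : ι, (1 : ℝ) := by rw [Finset.prod_const_one]
    _ ≤ _ := Finset.prod_le_prod (fun i _ => zero_le_one)
        (fun i _ => hWj _ _ H _ (hL i) (hj i) (hN i))

theorem second (hEs : StEs) (P : ι → Finset ℕ) (j : ι → ℕ) (hL : ∀ i, 0 < lam (P i)) :
    cj P j * ∑ B ∈ FB P j, 1 / (bB B : ℝ) ≤ 1 := by
  have h : ∑ B ∈ FB P j, 1 / (bB B : ℝ) =
      ∏ i, ∑ B ∈ (P i).powersetCard (j i), ∏ p ∈ B, 1 / (p : ℝ) := by
    rw [Finset.prod_univ_sum]
    refine Finset.sum_congr rfl fun B _ => ?_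
    rw [bB]
    push_cast
    rw [one_div, ← Finset.prod_inv_distrib]
    refine Finset.prod_congr rfl fun i _ => ?_
    rw [← Finset.prod_inv_distrib]
    refine Finset.prod_congr rfl fun p _ => ?_
    rw [one_div]
  rw [h, cj, ← Finset.prod_mul_distrib]
  refine Finset.prod_le_one (fun i _ => ?_) (fun i _ => ?_)
  · refine mul_nonneg (div_nonneg (Nat.cast_nonneg _) (pow_nonneg (hL i).le _)) ?_
    exact Finset.sum_nonneg fun B _ => Finset.prod_nonneg fun p _ => by positivity
  · have h1 := hEs (P i) (fun p => 1 / (p : ℝ)) (j i) (fun p _ => by positivity)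
    have h2 : 0 < lam (P i) ^ (j i) := pow_pos (hL i) _
    rw [div_mul_eq_mul_div, div_le_one h2]
    exact h1

end XCw

/-- the weight -/
theorem pr_Cw (hHv : StHv) (hWj : StWj) (hEs : StEs) : StCw := by
  intro ι _ _ cl P j H hP hL hj
  exact ⟨fun N hN => XCw.first hHv hWj cl P j H hP hL hj N hN, XCw.second hEs P j hL⟩

end Pool.Agent.F0f91f8.FC
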