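import Pool.Agent.Work.MP_0f91f8_co.FC.StmtsS

/-!
# Block FC, module S, item Dm: domination (helper14)
-/

set_option autoImplicit false

namespace Pool.Agent.F0f91f8.FC

open Filter Topology ComplexConjugate
open scoped BigOperators

namespace XDm

theorem root (R M : ℕ) (hR : 2 ≤ R) : ∃ y : ℕ, y ^ R ≤ M ∧ M < (y + 1) ^ R ∧
    ∀ Y : ℕ, Y ^ R ≤ M → Y ≤ y := by
  have hR0 : R ≠ 0 := by omega
  have h0 : (0 : ℕ) ^ R ≤ M := by
    rw [zero_pow hR0]
    exact Nat.zero_le _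
  refine ⟨Nat.findGreatest (fun y => y ^ R ≤ M) M, ?_, ?_, ?_⟩
  · exact Nat.findGreatest_spec (P := fun y => y ^ R ≤ M) (Nat.zero_le M) h0
  · by_contra hcon
    rw [not_lt] at hcon
    have h1 : Nat.findGreatest (fun y => y ^ R ≤ M) M + 1 ≤ M :=
      (Nat.le_self_pow hR0 _).trans hcon
    exact Nat.findGreatest_is_greatest (P := fun y => y ^ R ≤ M) (Nat.lt_succ_self _) h1 hcon
  · intro Y hY
    exact Nat.le_findGreatest ((Nat.le_self_pow hR0 _).trans hY) hY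

section
variable {ι : Type} [Fintype ι] [DecidableEq ι]

theorem slot1 (τ : Fin 4 → ι → ℕ) (j : ι → ℕ) :
    (τ + slot 1 j) 1 = τ 1 + j ∧ (τ + slot 1 j) 0 = τ 0 ∧ (τ + slot 1 j) 2 = τ 2 ∧
      (τ + slot 1 j) 3 = τ 3 := by
  refine ⟨?_, ?_, ?_, ?_⟩
  · funext i
    simp [slot]
  · funext i
    simp [slot]
  · funext i
    have : (2 : Fin 4) ≠ 1 := by decide
    simp [slot, this]
  · funext i
    have : (3 : Fin 4) ≠ 1 := by decide
    simp [slot, this]

theorem slot0 (τ : Fin 4 → ι → ℕ) (j : ι → ℕ) :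
    (τ + slot 0 j) 0 = τ 0 + j ∧ (τ + slot 0 j) 1 = τ 1 ∧ (τ + slot 0 j) 2 = τ 2 ∧
      (τ + slot 0 j) 3 = τ 3 := by
  refine ⟨?_, ?_, ?_, ?_⟩
  · funext i
    simp [slot]
  · funext i
    have : (1 : Fin 4) ≠ 0 := by decide
    simp [slot]
  · funext i
    have : (2 : Fin 4) ≠ 0 := by decide
    simp [slot, this]
  · funext i
    have : (3 : Fin 4) ≠ 0 := by decide
    simp [slot, this]

theorem val (hHv : StHv) (cl : ℕ → Option ι) (φ : (ι → ℕ) → (ι → ℕ) → (ι → ℕ) → ℝ) (κ n a : ℕ)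
    (hn : 0 < n) (ha : 0 < a) :
    φ (hv cl (xF κ a n)) (hv cl (yF κ a n)) (hv cl (zF κ a n)) =
      φ (hv cl n + hL cl κ n a 1) (hL cl κ n a 0 + hL cl κ n a 2) (hL cl κ n a 3) := by
  have h := (hHv ι inferInstance inferInstance cl).1
  have e1 : hv cl (xF κ a n) = hv cl n + hL cl κ n a 1 := by
    unfold xF
    rw [h n (a + κ * n) hn (by omega)]
    rfl
  have e2 : hv cl (yF κ a n) = hL cl κ n a 0 + hL cl κ n a 2 := by
    unfold yF
    rw [h a (a + 2 * (κ * n)) ha (by omega)]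
    rfl
  have e3 : hv cl (zF κ a n) = hL cl κ n a 3 := rfl
  rw [e1, e2, e3]

end

end XDm

open XDm in
theorem pr_Dm (hHv : StHv) (hFt : StFt) (hGc : StGc) (hDn : StDn) : StDm := by
  intro ι _ _ cl hcl ε hε
  obtain ⟨R₀, C, hR₀, hC, hD⟩ := hDn
  obtain ⟨w₀, hw₀⟩ := exists_nat_ge (20 / ε)
  obtain ⟨R₁, hR₁⟩ := exists_nat_ge (4 * C / ε)
  obtain ⟨R, hRd⟩ : ∃ R : ℕ, R = max (8 * R₀) (max 2 R₁) := ⟨_, rfl⟩
  have hR2 : 2 ≤ R := by rw [hRd]; exact (le_max_left _ _).trans (le_max_right _ _)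
  have hR8 : 8 * R₀ ≤ R := by rw [hRd]; exact le_max_left _ _
  have hRR : R₁ ≤ R := by rw [hRd]; exact (le_max_right _ _).trans (le_max_right _ _)
  have hRpos : (0 : ℝ) < R := by
    have : 0 < R := by omega
    exact_mod_cast this
  have hCR : C / R ≤ ε / 4 := by
    rw [div_le_iff₀ hRpos]
    have h1 : 4 * C / ε ≤ R := hR₁.trans (by exact_mod_cast hRR)
    rw [div_le_iff₀ hε] at h1
    linarith
  obtain ⟨d, hd⟩ : ∃ d : ℕ, d = Fintype.card ι := ⟨_, rfl⟩
  refine ⟨max 10 w₀, fun w hw κ hκ => ?_⟩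
  have hw10 : 10 ≤ w := (le_max_left _ _).trans hw
  have hww : w₀ ≤ w := (le_max_right _ _).trans hw
  have hwpos : (0 : ℝ) < w := by
    have : 0 < w := by omega
    exact_mod_cast this
  have h5w : 5 / (w : ℝ) ≤ ε / 4 := by
    rw [div_le_iff₀ hwpos]
    have h1 : 20 / ε ≤ w := hw₀.trans (by exact_mod_cast hww)
    rw [div_le_iff₀ hε] at h1
    linarith
  obtain ⟨X₀, Y₀, hD⟩ := hD w κ hw10 hκ
  obtain ⟨C', hC'⟩ : ∃ C' : ℝ, C' = 24 * 4 ^ d * ((3 * R + 1 : ℕ) : ℝ) ^ (4 * d) := ⟨_, rfl⟩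
  refine ⟨C', by rw [hC']; positivity, fun H hH => ?_⟩
  have hHpos : (0 : ℝ) < H := by exact_mod_cast hH
  have hH1 : (1 : ℝ) ≤ H := by exact_mod_cast hH
  obtain ⟨w₁, hw₁⟩ : ∃ w₁ : ℕ, w₁ = max w (10 * (d * H)) := ⟨_, rfl⟩
  have hPex : ∀ i : ι, ∃ P : Finset ℕ, (∀ p ∈ P, p.Prime ∧ w₁ < p ∧ p ∈ {p | cl p = some i}) ∧
      max (2 * (H : ℝ) ^ 2) (32 * d * (H : ℝ) ^ 2 / ε) ≤ lam P :=
    fun i => hFt _ (hcl.2 i) w₁ _
  choose P hP hlam using hPex
  have hlam2 : ∀ i, 2 * (H : ℝ) ^ 2 ≤ lam (P i) := fun i => (le_max_left _ _).trans (hlam i)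
  have hlam32 : ∀ i, 32 * d * (H : ℝ) ^ 2 / ε ≤ lam (P i) := fun i =>
    (le_max_right _ _).trans (hlam i)
  have hlam1 : ∀ i, 1 ≤ lam (P i) := by
    intro i
    have := hlam2 i
    nlinarith
  obtain ⟨M₁, hM₁⟩ := hGc w hw10
  obtain ⟨Y, hY⟩ : ∃ Y : ℕ, Y = max (max Y₀ 2) (∑ i, ∑ p ∈ P i, p) := ⟨_, rfl⟩
  obtain ⟨K, hK⟩ : ∃ K : ℕ, K = ∑ i, 3 * (P i).card ^ 2 := ⟨_, rfl⟩
  refine ⟨max (max X₀ M₁) (max (Y ^ R) (K + 1)), fun M hM φ s hφ hs => ?_⟩
  have hMX : X₀ ≤ M := ((le_max_left _ _).trans (le_max_left _ _)).trans hM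
  have hMM : M₁ ≤ M := ((le_max_right _ _).trans (le_max_left _ _)).trans hM
  have hMY : Y ^ R ≤ M := ((le_max_left _ _).trans (le_max_right _ _)).trans hM
  have hMK : K + 1 ≤ M := ((le_max_right _ _).trans (le_max_right _ _)).trans hM
  have hM1 : 1 ≤ M := by omega
  have hMpos : (0 : ℝ) < M := by exact_mod_cast hM1
  obtain ⟨y, hy1, hy2, hy3⟩ := root R M hR2
  have hyY : Y ≤ y := hy3 Y hMY
  have hyY₀ : Y₀ ≤ y := by
    refine le_trans ?_ hyY
    rw [hY]
    exact (le_max_left _ _).trans (le_max_left _ _)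
  have hyP : ∀ i, ∀ p ∈ P i, p ≤ y := by
    intro i p hp
    refine le_trans ?_ hyY
    rw [hY]
    refine le_trans ?_ (le_max_right _ _)
    calc p ≤ ∑ p ∈ P i, p := Finset.single_le_sum (f := fun p : ℕ => p)
          (fun _ _ => Nat.zero_le _) hp
      _ ≤ ∑ i, ∑ p ∈ P i, p := Finset.single_le_sum (f := fun i => ∑ p ∈ P i, p)
          (fun _ _ => Nat.zero_le _) (Finset.mem_univ i)
  have hcardP : ∀ i, 3 * ((P i).card : ℝ) ^ 2 ≤ M * lam (P i) := by
    intro i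
    have h1 : 3 * (P i).card ^ 2 ≤ M := by
      have : 3 * (P i).card ^ 2 ≤ K := by
        rw [hK]
        exact Finset.single_le_sum (f := fun i => 3 * (P i).card ^ 2)
          (fun _ _ => Nat.zero_le _) (Finset.mem_univ i)
      omega
    have h2 : 3 * ((P i).card : ℝ) ^ 2 ≤ M := by exact_mod_cast h1
    have h3 : (M : ℝ) * 1 ≤ M * lam (P i) := mul_le_mul_of_nonneg_left (hlam1 i) hMpos.le
    linarith
  have hsumP : ∑ i, 4 * (H : ℝ) ^ 2 / lam (P i) ^ 2 *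
      ((M : ℝ) * lam (P i) + 3 * ((P i).card : ℝ) ^ 2) ≤ ε / 4 * M := by
    have h1 : ∀ i ∈ (Finset.univ : Finset ι), 4 * (H : ℝ) ^ 2 / lam (P i) ^ 2 *
        ((M : ℝ) * lam (P i) + 3 * ((P i).card : ℝ) ^ 2) ≤ ε / (4 * d) * M := by
      intro i _
      have hdpos : (0 : ℝ) < d := by
        have : 0 < d := by
          rw [hd]
          exact Fintype.card_pos_iff.2 ⟨i⟩
        exact_mod_cast this
      have hl : 0 < lam (P i) := lt_of_lt_of_le one_pos (hlam1 i)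
      have h2 : (M : ℝ) * lam (P i) + 3 * ((P i).card : ℝ) ^ 2 ≤ 2 * (M * lam (P i)) := by
        have := hcardP i
        linarith
      have h3 : 4 * (H : ℝ) ^ 2 / lam (P i) ^ 2 *
          ((M : ℝ) * lam (P i) + 3 * ((P i).card : ℝ) ^ 2) ≤
          4 * (H : ℝ) ^ 2 / lam (P i) ^ 2 * (2 * (M * lam (P i))) :=
        mul_le_mul_of_nonneg_left h2 (by positivity)
      have h4 : 4 * (H : ℝ) ^ 2 / lam (P i) ^ 2 * (2 * (M * lam (P i))) =
          8 * (H : ℝ) ^ 2 / lam (P i) * M := by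
        field_simp
        ring
      have h5 : 8 * (H : ℝ) ^ 2 / lam (P i) ≤ ε / (4 * d) := by
        rw [div_le_div_iff₀ hl (by positivity)]
        have h6 := hlam32 i
        rw [div_le_iff₀ hε] at h6
        linarith
      calc _ ≤ _ := h3
        _ = _ := h4
        _ ≤ _ := mul_le_mul_of_nonneg_right h5 hMpos.le
    refine (Finset.sum_le_sum h1).trans ?_
    rw [Finset.sum_const, Finset.card_univ, nsmul_eq_mul, ← hd]
    rcases Nat.eq_zero_or_pos d with h0 | h0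
    · rw [h0]
      simp only [Nat.cast_zero, zero_mul]
      positivity
    · have hdpos : (0 : ℝ) < d := by exact_mod_cast h0
      apply le_of_eq
      field_simp
  -- fixed n and c
  have key : ∀ n c : ℕ, 0 < n → n % w.factorial = 1 % w.factorial →
      c % w.factorial = 1 % w.factorial → n ≤ 3 * w.factorial * M → c ≤ 3 * w.factorial * M →
      ∑ v ∈ Finset.Icc 1 M, φ (hv cl (xF κ (w.factorial * v + c) n))
        (hv cl (yF κ (w.factorial * v + c) n)) (hv cl (zF κ (w.factorial * v + c) n)) ≤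
      (((Finset.Icc 1 M).filter fun v => ¬ Nat.Coprime (w.factorial * v + c) n).card : ℝ) +
        (ε / 2 + C' * s) * M := by
    intro n c hn hn1 hc1 hnM hcM
    obtain ⟨φ₄, hφ₄⟩ : ∃ φ₄ : (Fin 4 → ι → ℕ) → ℝ,
        φ₄ = fun τ => φ (hv cl n + τ 1) (τ 0 + τ 2) (τ 3) := ⟨_, rfl⟩
    have hval : ∑ v ∈ Finset.Icc 1 M, φ (hv cl (xF κ (w.factorial * v + c) n))
        (hv cl (yF κ (w.factorial * v + c) n)) (hv cl (zF κ (w.factorial * v + c) n)) =
        ∑ v ∈ Finset.Icc 1 M, φ₄ (hL cl κ n (w.factorial * v + c)) := by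
      refine Finset.sum_congr rfl fun v hv => ?_
      have hv1 := (Finset.mem_Icc.1 hv).1
      have hfac := Nat.factorial_pos w
      have ha : 0 < w.factorial * v + c := by
        have := Nat.mul_pos hfac hv1
        omega
      rw [val hHv cl φ κ n _ hn ha, hφ₄]
    have hset : Set1 cl w y κ n c P w₁ :=
      { hw := hw10
        hκ := hκ
        hn := ⟨hn, hn1⟩
        hc := hc1
        hw₁ := by rw [hw₁]; exact le_max_left _ _
        hP := fun i p hp => ⟨(hP i p hp).1, (hP i p hp).2.1, hyP i p hp, (hP i p hp).2.2⟩ }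
    have hσ : ∃ σ : Fin 4, (σ = 0 ∨ σ = 1) ∧ ∀ τ, bx H (fun j : ι → ℕ => φ₄ (τ + slot σ j)) ≤ s := by
      rcases hs with hs | hs
      · refine ⟨1, Or.inr rfl, fun τ => ?_⟩
        have e : (fun j : ι → ℕ => φ₄ (τ + slot 1 j)) =
            fun j : ι → ℕ => φ ((hv cl n + τ 1) + j) (τ 0 + τ 2) (τ 3) := by
          funext j
          obtain ⟨a1, a2, a3, a4⟩ := slot1 τ j
          rw [hφ₄]
          show φ (hv cl n + (τ + slot 1 j) 1) ((τ + slot 1 j) 0 + (τ + slot 1 j) 2)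
            ((τ + slot 1 j) 3) = _
          rw [a1, a2, a3, a4, add_assoc]
        rw [e]
        exact hs _ _ _
      · refine ⟨0, Or.inl rfl, fun τ => ?_⟩
        have e : (fun j : ι → ℕ => φ₄ (τ + slot 0 j)) =
            fun j : ι → ℕ => φ (hv cl n + τ 1) ((τ 0 + τ 2) + j) (τ 3) := by
          funext j
          obtain ⟨a1, a2, a3, a4⟩ := slot0 τ j
          rw [hφ₄]
          show φ (hv cl n + (τ + slot 0 j) 1) ((τ + slot 0 j) 0 + (τ + slot 0 j) 2)
            ((τ + slot 0 j) 3) = _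
          rw [a1, a2, a3, a4, add_right_comm]
        rw [e]
        exact hs _ _ _
    obtain ⟨σ, hσ1, hσ2⟩ := hσ
    have hmain := hD ι inferInstance inferInstance cl y n c P w₁ hset R M H σ hR2 hR8 hMX hyY₀ hy1
      hy2 hnM hcM hH hσ1 hlam2 (by rw [hw₁, ← hd]; exact le_max_right _ _) φ₄ s
      (fun τ => by rw [hφ₄]; exact hφ _ _ _) hσ2
    rw [hval]
    refine hmain.trans ?_
    rw [← hd, ← hC']
    have hCRM : C / R * (M : ℝ) ≤ ε / 4 * M := mul_le_mul_of_nonneg_right hCR hMpos.le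
    have e1 : C' * (M : ℝ) * s = C' * s * M := by ring
    linarith [hsumP]
  -- the average
  have hfac := Nat.factorial_pos w
  have hQM : 1 ≤ w.factorial * M := Nat.mul_pos hfac hM1
  have hG := hM₁ M hMM
  have hsum : ∑ u ∈ Finset.Icc 1 M, ∑ u' ∈ Finset.Icc 1 M, ∑ v ∈ Finset.Icc 1 M,
      ∑ v' ∈ Finset.Icc 1 M,
        φ (hv cl (xF κ (w.factorial * (v + v') + 1) (w.factorial * (u + u') + 1)))
          (hv cl (yF κ (w.factorial * (v + v') + 1) (w.factorial * (u + u') + 1)))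
          (hv cl (zF κ (w.factorial * (v + v') + 1) (w.factorial * (u + u') + 1))) ≤
      ∑ u ∈ Finset.Icc 1 M, ∑ u' ∈ Finset.Icc 1 M, ∑ v' ∈ Finset.Icc 1 M,
        ((((Finset.Icc 1 M).filter fun v => ¬ Nat.Coprime (w.factorial * v + (w.factorial * v' + 1))
          (w.factorial * (u + u') + 1)).card : ℝ) + (ε / 2 + C' * s) * M) := by
    refine Finset.sum_le_sum fun u hu => Finset.sum_le_sum fun u' hu' => ?_
    rw [Finset.sum_comm]
    refine Finset.sum_le_sum fun v' hv' => ?_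
    have hu2 := (Finset.mem_Icc.1 hu).2
    have hu2' := (Finset.mem_Icc.1 hu').2
    have hv2' := (Finset.mem_Icc.1 hv').2
    have b1 : w.factorial * (u + u') + 1 ≤ 3 * w.factorial * M := by
      have : w.factorial * (u + u') ≤ w.factorial * (2 * M) := Nat.mul_le_mul_left _ (by omega)
      nlinarith
    have b2 : w.factorial * v' + 1 ≤ 3 * w.factorial * M := by
      have : w.factorial * v' ≤ w.factorial * M := Nat.mul_le_mul_left _ hv2'
      nlinarith
    have hk := key (w.factorial * (u + u') + 1) (w.factorial * v' + 1) (Nat.succ_pos _)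
      (Nat.mul_add_mod _ _ _) (Nat.mul_add_mod _ _ _) b1 b2
    refine le_trans (le_of_eq (Finset.sum_congr rfl fun v _ => ?_)) hk
    have e : w.factorial * (v + v') + 1 = w.factorial * v + (w.factorial * v' + 1) := by ring
    rw [e]
  have hcardIcc : ((Finset.Icc 1 M).card : ℝ) = M := by
    rw [Nat.card_Icc]
    norm_num
  have htot : ∑ u ∈ Finset.Icc 1 M, ∑ u' ∈ Finset.Icc 1 M, ∑ v' ∈ Finset.Icc 1 M,
        ((((Finset.Icc 1 M).filter fun v => ¬ Nat.Coprime (w.factorial * v + (w.factorial * v' + 1))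
          (w.factorial * (u + u') + 1)).card : ℝ) + (ε / 2 + C' * s) * M) ≤
      (ε + C' * s) * (M : ℝ) ^ 4 := by
    simp only [Finset.sum_add_distrib, Finset.sum_const, nsmul_eq_mul, hcardIcc]
    push_cast at hG
    have h1 : 5 / (w : ℝ) * (M : ℝ) ^ 4 ≤ ε / 4 * (M : ℝ) ^ 4 :=
      mul_le_mul_of_nonneg_right h5w (by positivity)
    have h2 : 0 ≤ ε / 4 * (M : ℝ) ^ 4 := by positivity
    have h3 : (M : ℝ) * (M * (M * ((ε / 2 + C' * s) * M))) = (ε / 2 + C' * s) * (M : ℝ) ^ 4 := by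
      ring
    rw [h3]
    have h4 := hG.trans h1
    nlinarith
  unfold AF
  rw [div_le_iff₀ (by positivity)]
  exact hsum.trans htot

end Pool.Agent.F0f91f8.FC
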