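import Pool.Agent.Work.MP_0f91f8_co.FC.StmtsS

/-!
# Block FC, module S, item Dn: domination for fixed `n` and `c`
-/

set_option autoImplicit false

namespace Pool.Agent.F0f91f8.FC

namespace XDn

open scoped BigOperators

/-- sums over a filtered interval of a function bounded by one -/
theorem split {ι : Type} [Fintype ι] (V : Finset ℕ) (f : ℕ → ℝ)
    (hf : ∀ v, 0 ≤ f v ∧ f v ≤ 1) (A : ℕ → Prop) (B : Fin 4 → ℕ → Prop) (D : ι → ℕ → Prop)
    (G : ℕ → Prop) [DecidablePred A] [∀ j, DecidablePred (B j)] [∀ i, DecidablePred (D i)]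
    [DecidablePred G] (hG : ∀ v ∈ V, ¬ G v → A v ∨ (∃ j, B j v) ∨ ∃ i, D i v) :
    ∑ v ∈ V, f v ≤ ∑ v ∈ V.filter G, f v + ((V.filter A).card : ℝ) +
      ∑ j : Fin 4, ((V.filter (B j)).card : ℝ) + ∑ i : ι, ((V.filter (D i)).card : ℝ) := by
  have h1 : ∀ (E : ℕ → Prop) [DecidablePred E], ((V.filter E).card : ℝ) = ∑ v ∈ V, (if E v then (1 : ℝ) else 0) := by
    intro E _
    rw [Finset.card_filter]
    push_cast
    rfl
  rw [h1 A]
  simp_rw [h1]
  rw [Finset.sum_comm (s := (Finset.univ : Finset (Fin 4))),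
    Finset.sum_comm (s := (Finset.univ : Finset ι)), Finset.sum_filter, ← Finset.sum_add_distrib,
    ← Finset.sum_add_distrib, ← Finset.sum_add_distrib]
  apply Finset.sum_le_sum
  intro v hv
  have hB0 : ∀ j : Fin 4, (0 : ℝ) ≤ (if B j v then (1 : ℝ) else 0) := by
    intro j
    split_ifs <;> norm_num
  have hD0 : ∀ i : ι, (0 : ℝ) ≤ (if D i v then (1 : ℝ) else 0) := by
    intro i
    split_ifs <;> norm_num
  have hA0 : (0 : ℝ) ≤ (if A v then (1 : ℝ) else 0) := by
    split_ifs <;> norm_num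
  have hG0 : (0 : ℝ) ≤ (if G v then f v else 0) := by
    split_ifs
    · exact (hf v).1
    · norm_num
  have hBs : (0 : ℝ) ≤ ∑ j : Fin 4, (if B j v then (1 : ℝ) else 0) :=
    Finset.sum_nonneg fun j _ => hB0 j
  have hDs : (0 : ℝ) ≤ ∑ i : ι, (if D i v then (1 : ℝ) else 0) :=
    Finset.sum_nonneg fun i _ => hD0 i
  by_cases hGv : G v
  · have : (if G v then f v else 0) = f v := if_pos hGv
    linarith
  · have hf1 := (hf v).2
    rcases hG v hv hGv with h | ⟨j, h⟩ | ⟨i, h⟩
    · have : (if A v then (1 : ℝ) else 0) = 1 := if_pos h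
      linarith
    · have h2 : (if B j v then (1 : ℝ) else 0) = 1 := if_pos h
      have h3 := Finset.single_le_sum (f := fun j : Fin 4 => (if B j v then (1 : ℝ) else 0))
        (fun j _ => hB0 j) (Finset.mem_univ j)
      linarith
    · have h2 : (if D i v then (1 : ℝ) else 0) = 1 := if_pos h
      have h3 := Finset.single_le_sum (f := fun i : ι => (if D i v then (1 : ℝ) else 0))
        (fun i _ => hD0 i) (Finset.mem_univ i)
      linarith

end XDn

open scoped BigOperators

/-- item Dn -/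
theorem pr_Dn (hSB : StSB) (hTp : StTp) (hTl : StTl) (hTb : StTb) (hAv : StAv) : StDn := by
  classical
  obtain ⟨R₀, hR₀, hSB⟩ := hSB
  obtain ⟨C, hC, hTl⟩ := hTl
  refine ⟨R₀, 4 * C, hR₀, by positivity, ?_⟩
  intro w κ hw hκ
  obtain ⟨Y₀, hTp⟩ := hTp w κ hw hκ
  obtain ⟨X₀, hTl⟩ := hTl w κ hw hκ
  refine ⟨max X₀ 1, max Y₀ 2, ?_⟩
  intro ι iF iD cl y n c P w₁ hS R X H σ hR2 hR8 hX hY hyR hXy hnX hcX hH hσ hlam hw₁ φ q hφ hq
  have hX0 : X₀ ≤ X := le_trans (le_max_left _ _) hX
  have hX1 : 1 ≤ X := le_trans (le_max_right _ _) hX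
  have hY0 : Y₀ ≤ y := le_trans (le_max_left _ _) hY
  have hy2 : 2 ≤ y := le_trans (le_max_right _ _) hY
  have hn0 : 0 < n := hS.hn.1
  have hσ3 : σ ≠ 3 := by
    rcases hσ with rfl | rfl <;> decide
  have hHr : (1 : ℝ) ≤ (H : ℝ) := by exact_mod_cast hH
  have hlam0 : ∀ i, 0 < lam (P i) := by
    intro i
    have := hlam i
    nlinarith
  -- the good members
  have hNs : ∀ s ∈ SS w y n X, ((Ns w y κ n c X s).card : ℝ) ≤ 6 * X * Wt w y n s := by
    intro s hs
    unfold SS at hs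
    rw [Finset.mem_filter] at hs
    refine hSB w y κ n c X s hw hκ hn0 hy2 ?_ hs.2.1 hs.2.2
    exact le_trans (Nat.pow_le_pow_right (by omega) hR8) hyR
  have hrp : ∀ v ∈ Finset.Icc 1 X, ∀ (j : Fin 4) (i : ι),
      hv cl (rp y (Lf κ n (w.factorial * v + c) j)) i ≤ 3 * R := by
    intro v hv' j i
    exact hTp y hY0 X R n c v (by omega) hXy hX1 hnX hcX hv' hn0 ι iF iD cl j i
  have hGood := hAv ι iF iD cl w y κ n c P w₁ hS X H (3 * R) σ hX1 hH hσ3 hlam0 hw₁ hNs hrp φ q
    (fun τ => (hφ τ).1) hq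
  -- the large parts
  have hSp : ∀ j : Fin 4, (((Finset.Icc 1 X).filter fun v => Nat.Coprime (w.factorial * v + c) n ∧
      X < sp w y (Lf κ n (w.factorial * v + c) j) ^ 16).card : ℝ) ≤ C / R * X := by
    intro j
    have h := hTl X hX0 R y n c hR2 hy2 hyR hn0 hnX hcX hS.hn.2 hS.hc j
    convert h using 3
  -- few prime factors
  have hNp : ∀ i : ι, (((Finset.Icc 1 X).filter fun v =>
      ((Np (P i) (Lf κ n (w.factorial * v + c) σ) : ℕ) : ℝ) <
        (1 - 1 / (H : ℝ)) * lam (P i) + H).card : ℝ) ≤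
      4 * (H : ℝ) ^ 2 / lam (P i) ^ 2 * ((X : ℝ) * lam (P i) + 3 * ((P i).card : ℝ) ^ 2) := by
    intro i
    have hP : ∀ p ∈ P i, p.Prime ∧ ¬ p ∣ w.factorial := by
      intro p hp
      have h1 := hS.hP i p hp
      refine ⟨h1.1, ?_⟩
      intro hd
      have h2 := (Nat.Prime.dvd_factorial h1.1).1 hd
      have h3 := hS.hw₁
      omega
    rcases hσ with rfl | rfl
    · have h := hTb (P i) w.factorial c X H hP hH (hlam i)
      have e : ∀ v, Lf κ n (w.factorial * v + c) 0 = w.factorial * v + c := fun v => rfl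
      simp only [e]
      convert h using 3
    · have h := hTb (P i) w.factorial (c + κ * n) X H hP hH (hlam i)
      have e : ∀ v, Lf κ n (w.factorial * v + c) 1 = w.factorial * v + (c + κ * n) := by
        intro v
        show w.factorial * v + c + κ * n = _
        ring
      simp only [e]
      convert h using 3
  have hsplit := XDn.split (Finset.Icc 1 X)
    (fun v => φ (hL cl κ n (w.factorial * v + c))) (fun v => hφ _)
    (fun v => ¬ Nat.Coprime (w.factorial * v + c) n)
    (fun j v => Nat.Coprime (w.factorial * v + c) n ∧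
      X < sp w y (Lf κ n (w.factorial * v + c) j) ^ 16)
    (fun i v => ((Np (P i) (Lf κ n (w.factorial * v + c) σ) : ℕ) : ℝ) <
        (1 - 1 / (H : ℝ)) * lam (P i) + H)
    (fun v => Nat.Coprime (w.factorial * v + c) n ∧
      (∀ j, sp w y (Lf κ n (w.factorial * v + c) j) ^ 16 ≤ X) ∧
      ∀ i, (1 - 1 / (H : ℝ)) * lam (P i) + H ≤ Np (P i) (Lf κ n (w.factorial * v + c) σ))
    (by
      intro v _ hG
      by_cases h1 : Nat.Coprime (w.factorial * v + c) n
      · right
        by_cases h2 : ∀ j, sp w y (Lf κ n (w.factorial * v + c) j) ^ 16 ≤ X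
        · right
          by_contra h3
          push Not at h3
          exact hG ⟨h1, h2, h3⟩
        · left
          push Not at h2
          obtain ⟨j, hj⟩ := h2
          exact ⟨j, h1, hj⟩
      · left
        exact h1)
  have hGe : ∑ v ∈ (Finset.Icc 1 X).filter (fun v => Nat.Coprime (w.factorial * v + c) n ∧
      (∀ j, sp w y (Lf κ n (w.factorial * v + c) j) ^ 16 ≤ X) ∧
      ∀ i, (1 - 1 / (H : ℝ)) * lam (P i) + H ≤ Np (P i) (Lf κ n (w.factorial * v + c) σ)),
        φ (hL cl κ n (w.factorial * v + c)) ≤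
      24 * 4 ^ Fintype.card ι * ((3 * R + 1 : ℕ) : ℝ) ^ (4 * Fintype.card ι) * X * q := by
    refine le_trans (le_of_eq ?_) hGood
    unfold Good
    congr 1
  have hs1 : ∑ j : Fin 4, (((Finset.Icc 1 X).filter fun v =>
      Nat.Coprime (w.factorial * v + c) n ∧
      X < sp w y (Lf κ n (w.factorial * v + c) j) ^ 16).card : ℝ) ≤ 4 * C / R * X := by
    refine le_trans (Finset.sum_le_sum fun j _ => hSp j) ?_
    rw [Finset.sum_const, Finset.card_univ, Fintype.card_fin]
    apply le_of_eq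
    simp only [nsmul_eq_mul]
    push_cast
    ring
  have hs2 := Finset.sum_le_sum (s := (Finset.univ : Finset ι)) fun i _ => hNp i
  refine le_trans hsplit ?_
  linarith [hGe, hs1, hs2]

end Pool.Agent.F0f91f8.FC
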