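import Pool.Agent.Work.MP_0f91f8_co.FC.StmtsS

/-! Item Es: elementary symmetric sums of nonnegative numbers. -/

set_option autoImplicit false

namespace Pool.Agent.F0f91f8.FC

namespace XEs

theorem bern (S a : ℝ) (hS : 0 ≤ S) (ha : 0 ≤ a) : ∀ j : ℕ,
    S ^ (j + 1) + (j + 1) * a * S ^ j ≤ (S + a) ^ (j + 1)
  | 0 => by simp
  | j + 1 => by
    have ih := bern S a hS ha j
    have h1 : (S + a) * (S ^ (j + 1) + (j + 1) * a * S ^ j) ≤ (S + a) * (S + a) ^ (j + 1) :=
      mul_le_mul_of_nonneg_left ih (by linarith)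
    have h2 : 0 ≤ ((j : ℝ) + 1) * a ^ 2 * S ^ j := by positivity
    have h3 : (S + a) * (S + a) ^ (j + 1) = (S + a) ^ (j + 1 + 1) := by ring
    rw [h3] at h1
    push_cast
    calc S ^ (j + 1 + 1) + ((j : ℝ) + 1 + 1) * a * S ^ (j + 1)
        ≤ S ^ (j + 1 + 1) + ((j : ℝ) + 1 + 1) * a * S ^ (j + 1) +
          ((j : ℝ) + 1) * a ^ 2 * S ^ j := by linarith
      _ = (S + a) * (S ^ (j + 1) + (j + 1) * a * S ^ j) := by ring
      _ ≤ _ := h1

theorem step (P : Finset ℕ) (x : ℕ → ℝ) (a : ℕ) (ha : a ∉ P) (j : ℕ) :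
    ∑ B ∈ (insert a P).powersetCard (j + 1), ∏ p ∈ B, x p =
      ∑ B ∈ P.powersetCard (j + 1), ∏ p ∈ B, x p + x a * ∑ B ∈ P.powersetCard j, ∏ p ∈ B, x p := by
  rw [Finset.powersetCard_succ_insert ha, Finset.sum_union, Finset.sum_image, Finset.mul_sum]
  · congr 1
    apply Finset.sum_congr rfl
    intro t ht
    rw [Finset.mem_powersetCard] at ht
    rw [Finset.prod_insert (fun h => ha (ht.1 h))]
  · intro t ht t' ht' h
    rw [Finset.mem_coe, Finset.mem_powersetCard] at ht ht'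
    have h1 : a ∉ t := fun h => ha (ht.1 h)
    have h2 : a ∉ t' := fun h => ha (ht'.1 h)
    have h3 := congrArg (fun s => Finset.erase s a) h
    simpa [Finset.erase_insert h1, Finset.erase_insert h2] using h3
  · rw [Finset.disjoint_left]
    intro t ht ht'
    rw [Finset.mem_powersetCard] at ht
    rw [Finset.mem_image] at ht'
    obtain ⟨s, _, rfl⟩ := ht'
    exact ha (ht.1 (Finset.mem_insert_self a s))

end XEs

theorem pr_Es : StEs := by
  intro P x j hx
  classical
  induction P using Finset.induction_on generalizing j with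
  | empty =>
    cases j with
    | zero => simp
    | succ j =>
      rw [Finset.powersetCard_eq_empty.2 (by simp)]
      simp
  | insert a P ha ih =>
    have hxP : ∀ p ∈ P, 0 ≤ x p := fun p hp => hx p (Finset.mem_insert_of_mem hp)
    have hxa : 0 ≤ x a := hx a (Finset.mem_insert_self a P)
    have hS : 0 ≤ ∑ p ∈ P, x p := Finset.sum_nonneg hxP
    cases j with
    | zero => simp
    | succ j =>
      have h1 := ih (j + 1) hxP
      have h2 := ih j hxP
      have h3 := XEs.bern (∑ p ∈ P, x p) (x a) hS hxa j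
      rw [XEs.step P x a ha j, Finset.sum_insert ha]
      have h4 : ((j + 1).factorial : ℝ) = (j + 1) * (j.factorial : ℝ) := by
        rw [Nat.factorial_succ]; push_cast; ring
      have h5 : ((j : ℝ) + 1) * x a * ((j.factorial : ℝ) * ∑ B ∈ P.powersetCard j, ∏ p ∈ B, x p) ≤
          ((j : ℝ) + 1) * x a * (∑ p ∈ P, x p) ^ j :=
        mul_le_mul_of_nonneg_left h2 (by positivity)
      calc ((j + 1).factorial : ℝ) * (∑ B ∈ P.powersetCard (j + 1), ∏ p ∈ B, x p +
            x a * ∑ B ∈ P.powersetCard j, ∏ p ∈ B, x p)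
          = ((j + 1).factorial : ℝ) * ∑ B ∈ P.powersetCard (j + 1), ∏ p ∈ B, x p +
            ((j : ℝ) + 1) * x a * ((j.factorial : ℝ) * ∑ B ∈ P.powersetCard j, ∏ p ∈ B, x p) := by
            rw [mul_add, h4]; ring
        _ ≤ (∑ p ∈ P, x p) ^ (j + 1) + ((j : ℝ) + 1) * x a * (∑ p ∈ P, x p) ^ j :=
            add_le_add h1 h5
        _ ≤ (∑ p ∈ P, x p + x a) ^ (j + 1) := h3
        _ = (x a + ∑ p ∈ P, x p) ^ (j + 1) := by rw [add_comm]

end Pool.Agent.F0f91f8.FC
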