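import Pool.Agent.Work.MP_0f91f8_co.FC.StmtsS

/-!
# Item Fb of block FC: sorting the good `v` by the parts in `(w, y]` and the vectors of the rest
-/

set_option autoImplicit false

namespace Pool.Agent.F0f91f8.FC

open Filter Topology ComplexConjugate
open scoped BigOperators

namespace XFb

/-- the forms are positive -/
theorem Lf_pos (κ n a : ℕ) (ha : 0 < a) (j : Fin 4) : 0 < Lf κ n a j := by
  fin_cases j
  · simpa [Lf] using ha
  · show 0 < a + κ * n
    omega
  · show 0 < a + 2 * (κ * n)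
    omega
  · show 0 < (a + κ * n) ^ 2 + (κ * n) ^ 2
    have : 0 < (a + κ * n) ^ 2 := by positivity
    omega

/-- the primes of `rp y N` are `> y` -/
theorem prime_rp {y N p : ℕ} (hp : p.Prime) (h : p ∣ rp y N) : y < p := by
  unfold rp at h
  obtain ⟨q, hq, hpq⟩ := (hp.prime.dvd_finsetProd_iff _).1 h
  rw [Finset.mem_filter] at hq
  have hqp : q.Prime := Nat.prime_of_mem_primeFactors hq.1
  have h1 : p ∣ q := hp.dvd_of_dvd_pow hpq
  have h2 : p = q := (Nat.prime_dvd_prime_iff_eq hp hqp).1 h1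
  rw [h2]
  exact hq.2

/-- a divisor with primes `≤ y` is coprime to `rp y N` -/
theorem cop_rp {y N b : ℕ} (hb : ∀ p : ℕ, p.Prime → p ∣ b → p ≤ y) : Nat.Coprime b (rp y N) := by
  by_contra hne
  obtain ⟨p, hp, h1, h2⟩ := Nat.Prime.not_coprime_iff_dvd.1 hne
  have h3 := hb p hp h1
  have h4 := prime_rp hp h2
  omega

/-- the product of four numbers with small 16-th power -/
theorem prod_le (s : Fin 4 → ℕ) (X : ℕ) (h : ∀ j, s j ^ 16 ≤ X) : (∏ j, s j) ^ 4 ≤ X := by
  by_contra hlt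
  push Not at hlt
  have h1 : X ^ 4 < ((∏ j, s j) ^ 4) ^ 4 := Nat.pow_lt_pow_left hlt (by norm_num)
  have h2 : ((∏ j, s j) ^ 4) ^ 4 = ∏ j, s j ^ 16 := by
    rw [← pow_mul, Finset.prod_pow]
  have h3 : ∏ j, s j ^ 16 ≤ ∏ _j : Fin 4, X := Finset.prod_le_prod' fun j _ => h j
  have h4 : ∏ _j : Fin 4, X = X ^ 4 := by simp
  omega

/-- membership in `SS` -/
theorem mem_SS {w y n X : ℕ} {s : Fin 4 → ℕ} (h1 : ∀ j, s j ≤ X) (h2 : AdmS w y n s)
    (h3 : (∏ j, s j) ^ 4 ≤ X) : s ∈ SS w y n X := by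
  classical
  unfold SS
  refine Finset.mem_filter.2 ⟨?_, h2, h3⟩
  rw [Fintype.mem_piFinset]
  intro j
  rw [Finset.mem_range]
  have := h1 j
  omega

end XFb

theorem pr_Fb (hHv : StHv) (hCp : StCp) : StFb := by
  intro ι _ _ cl w y κ n c P w₁ hS X H K σ hX hNs hK φ hφ b hbsq hb
  obtain ⟨_, hHv2, _⟩ := hHv ι inferInstance inferInstance cl
  set G := (Good w y κ n c X H σ P).filter
    (fun v => b ∣ Lf κ n (w.factorial * v + c) σ) with hG
  -- the data of a good `v`
  have hdata : ∀ v ∈ G, v ∈ Finset.Icc 1 X ∧ Nat.Coprime (w.factorial * v + c) n ∧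
      (∀ j, sp w y (Lf κ n (w.factorial * v + c) j) ^ 16 ≤ X) ∧
      b ∣ Lf κ n (w.factorial * v + c) σ := by
    intro v hvm
    rw [hG, Finset.mem_filter] at hvm
    obtain ⟨hv1, hv2⟩ := hvm
    unfold Good at hv1
    rw [Finset.mem_filter] at hv1
    exact ⟨hv1.1, hv1.2.1, hv1.2.2.1, hv2⟩
  have hapos : ∀ v ∈ G, 0 < w.factorial * v + c := by
    intro v hvm
    have h1 := (Finset.mem_Icc.1 (hdata v hvm).1).1
    have h2 := w.factorial_pos
    have h3 : 0 < w.factorial * v := Nat.mul_pos h2 (by omega)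
    omega
  -- the classifying maps
  let sv : ℕ → Fin 4 → ℕ := fun v j => sp w y (Lf κ n (w.factorial * v + c) j)
  let tv : ℕ → Fin 4 → ι → Fin (K + 1) := fun v j i =>
    Fin.ofNat (K + 1) (hv cl (rp y (Lf κ n (w.factorial * v + c) j)) i)
  let F : (Fin 4 → ι → Fin (K + 1)) × (Fin 4 → ℕ) → ℝ := fun q =>
    φ (fun j => hv cl (q.2 j) + fun i => (q.1 j i : ℕ))
  let T : Finset ((Fin 4 → ι → Fin (K + 1)) × (Fin 4 → ℕ)) :=
    Finset.univ ×ˢ (SS w y n X).filter (fun s => b ∣ s σ)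
  have hcp : ∀ v ∈ G, (∀ (j : Fin 4) (p : ℕ), p.Prime →
        p ∣ Lf κ n (w.factorial * v + c) j → w < p) ∧
      AdmS w y n (sv v) ∧ v ∈ Ns w y κ n c X (sv v) := by
    intro v hvm
    have h := hdata v hvm
    exact hCp w y κ n c X v hS.hw hS.hκ hS.hn.1 hS.hn.2 hS.hc h.1 h.2.1
  have hval : ∀ v ∈ G, φ (hL cl κ n (w.factorial * v + c)) = F (tv v, sv v) := by
    intro v hvm
    show φ _ = φ _
    congr 1
    funext j
    have h := hHv2 w y (Lf κ n (w.factorial * v + c) j) (XFb.Lf_pos _ _ _ (hapos v hvm) j)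
      ((hcp v hvm).1 j)
    show hv cl (Lf κ n (w.factorial * v + c) j) = _
    rw [h.2.2.2]
    funext i
    simp only [Pi.add_apply]
    congr 1
    have h5 := hK v (hdata v hvm).1 j i
    show _ = ((Fin.ofNat (K + 1) (hv cl (rp y (Lf κ n (w.factorial * v + c) j)) i) : Fin (K + 1)) : ℕ)
    rw [Fin.val_ofNat, Nat.mod_eq_of_lt (by omega)]
  have hmaps : ∀ v ∈ G, (tv v, sv v) ∈ T := by
    intro v hvm
    obtain ⟨h1, h2, h3, h4⟩ := hdata v hvm
    refine Finset.mem_product.2 ⟨Finset.mem_univ _, ?_⟩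
    show sv v ∈ _
    rw [Finset.mem_filter]
    constructor
    · refine XFb.mem_SS ?_ (hcp v hvm).2.1 (XFb.prod_le _ _ h3)
      intro j
      have h5 : sv v j ≤ sv v j ^ 16 := Nat.le_self_pow (by norm_num) _
      have h6 : sv v j ^ 16 ≤ X := h3 j
      omega
    · have h := hHv2 w y (Lf κ n (w.factorial * v + c) σ) (XFb.Lf_pos _ _ _ (hapos v hvm) σ)
        ((hcp v hvm).1 σ)
      have h5 : b ∣ sp w y (Lf κ n (w.factorial * v + c) σ) *
          rp y (Lf κ n (w.factorial * v + c) σ) := by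
        rw [← h.1]
        exact h4
      exact (XFb.cop_rp fun p hp hpb => (hb p hp hpb).2).dvd_of_dvd_mul_right h5
  have hmaps' : ∀ v ∈ G, (fun v => (tv v, sv v)) v ∈ T := hmaps
  rw [← Finset.sum_fiberwise_of_maps_to hmaps']
  have hstep : ∀ q ∈ T, ∑ v ∈ G.filter (fun v => (tv v, sv v) = q),
      φ (hL cl κ n (w.factorial * v + c)) ≤ 6 * X * Wt w y n q.2 * F q := by
    intro q hq
    have hq2 : q.2 ∈ SS w y n X :=
      (Finset.mem_filter.1 (Finset.mem_product.1 hq).2).1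
    have h1 : ∑ v ∈ G.filter (fun v => (tv v, sv v) = q),
        φ (hL cl κ n (w.factorial * v + c)) =
        ((G.filter (fun v => (tv v, sv v) = q)).card : ℝ) * F q := by
      rw [← nsmul_eq_mul, ← Finset.sum_const]
      refine Finset.sum_congr rfl fun v hvm => ?_
      rw [Finset.mem_filter] at hvm
      rw [hval v hvm.1, hvm.2]
    rw [h1]
    have h2 : (G.filter (fun v => (tv v, sv v) = q)).card ≤ (Ns w y κ n c X q.2).card := by
      refine Finset.card_le_card fun v hvm => ?_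
      rw [Finset.mem_filter] at hvm
      have h3 := (hcp v hvm.1).2.2
      have h4 : sv v = q.2 := by rw [← hvm.2]
      rw [h4] at h3
      exact h3
    have h3 : ((G.filter (fun v => (tv v, sv v) = q)).card : ℝ) ≤ 6 * X * Wt w y n q.2 :=
      le_trans (by exact_mod_cast h2) (hNs q.2 hq2)
    exact mul_le_mul_of_nonneg_right h3 (hφ _)
  refine le_trans (Finset.sum_le_sum hstep) (le_of_eq ?_)
  rw [Finset.sum_product, Finset.mul_sum]
  refine Finset.sum_congr rfl fun t _ => ?_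
  rw [Finset.mul_sum]
  refine Finset.sum_congr rfl fun s _ => ?_
  ring

end Pool.Agent.F0f91f8.FC
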