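import Pool.Agent.Work.MP_0f91f8_co.FC.StmtsS

/-!
# Block FC, module S, item Ft: a set of primes which is not thin has finite subsets of large primes with
large sum of reciprocals (helper57)
-/

set_option autoImplicit false

namespace Pool.Agent.F0f91f8.FC

open Filter Topology ComplexConjugate
open scoped BigOperators

theorem pr_Ft : StFt := by
  intro T hT w₁ B
  classical
  by_contra hcon
  push Not at hcon
  apply hT
  have key : Summable (Set.indicator {p : ℕ | p.Prime}
      (T.indicator (fun p : ℕ => 1 / (p : ℝ)))) := by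
    set f : ℕ → ℝ := Set.indicator {p : ℕ | p.Prime}
      (T.indicator (fun p : ℕ => 1 / (p : ℝ))) with hf
    have hf0 : ∀ n, 0 ≤ f n := fun n =>
      Set.indicator_nonneg (fun _ _ => Set.indicator_nonneg (fun _ _ => by positivity) _) _
    refine summable_of_sum_le (c := ∑ n ∈ Finset.range (w₁ + 1), f n + B) hf0 fun u => ?_
    have h1 := (Finset.sum_filter_add_sum_filter_not u (fun n => n ≤ w₁) f).symm
    have h2 : ∑ n ∈ u.filter (fun n => n ≤ w₁), f n ≤ ∑ n ∈ Finset.range (w₁ + 1), f n := by
      refine Finset.sum_le_sum_of_subset_of_nonneg (fun n hn => ?_) fun n _ _ => hf0 n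
      rw [Finset.mem_filter] at hn
      exact Finset.mem_range.2 (Nat.lt_succ_of_le hn.2)
    have h3 : ∑ n ∈ u.filter (fun n => ¬ n ≤ w₁), f n =
        lam ((u.filter (fun n => ¬ n ≤ w₁)).filter (fun n => n.Prime ∧ n ∈ T)) := by
      unfold lam
      rw [Finset.sum_filter (fun n : ℕ => n.Prime ∧ n ∈ T)]
      refine Finset.sum_congr rfl fun n _ => ?_
      by_cases h : n.Prime
      · have h' : n ∈ {p : ℕ | p.Prime} := h
        by_cases h'' : n ∈ T
        · rw [if_pos ⟨h, h''⟩, hf, Set.indicator_of_mem h', Set.indicator_of_mem h'']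
        · rw [if_neg (fun a => h'' a.2), hf, Set.indicator_of_mem h',
            Set.indicator_of_notMem h'']
      · have h' : n ∉ {p : ℕ | p.Prime} := h
        rw [if_neg (fun a => h a.1), hf, Set.indicator_of_notMem h']
    have h4 := hcon ((u.filter (fun n => ¬ n ≤ w₁)).filter (fun n => n.Prime ∧ n ∈ T)) (by
      intro p hp
      rw [Finset.mem_filter, Finset.mem_filter] at hp
      exact ⟨hp.2.1, not_le.1 hp.1.2, hp.2.2⟩)
    linarith
  exact summable_subtype_iff_indicator.2 key

end Pool.Agent.F0f91f8.FC
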