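import Pool.Agent.Work.MP_0f91f8_co.FC.StmtsS

/-!
# Block FC, module S, item Hv: the counting vectors
-/

set_option autoImplicit false

namespace Pool.Agent.F0f91f8.FC

open scoped BigOperators

namespace XHv

variable {ι : Type}

theorem hv_ext [DecidableEq ι] (cl : ℕ → Option ι) (n : ℕ) (S : Finset ℕ) (hS : n.primeFactors ⊆ S) (i : ι) :
    hv cl n i = ∑ p ∈ S.filter (fun p => cl p = some i), n.factorization p := by
  unfold hv
  refine Finset.sum_subset (Finset.filter_subset_filter _ hS) ?_
  intro p hp hp'
  rw [Finset.mem_filter] at hp hp'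
  have h1 : p ∉ n.primeFactors := fun h => hp' ⟨h, hp.2⟩
  rw [← Nat.support_factorization, Finsupp.mem_support_iff, not_not] at h1
  exact h1

theorem hv_mul [DecidableEq ι] (cl : ℕ → Option ι) (m n : ℕ) (hm : 0 < m) (hn : 0 < n) :
    hv cl (m * n) = hv cl m + hv cl n := by
  funext i
  have hmn : (m * n).primeFactors = m.primeFactors ∪ n.primeFactors :=
    Nat.primeFactors_mul hm.ne' hn.ne'
  rw [Pi.add_apply, hv_ext cl m (m * n).primeFactors (by rw [hmn]; exact Finset.subset_union_left) i,
    hv_ext cl n (m * n).primeFactors (by rw [hmn]; exact Finset.subset_union_right) i,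
    hv_ext cl (m * n) (m * n).primeFactors (Finset.Subset.refl _) i, ← Finset.sum_add_distrib]
  refine Finset.sum_congr rfl fun p _ => ?_
  rw [Nat.factorization_mul hm.ne' hn.ne', Finsupp.add_apply]

theorem prod_pow (N : ℕ) (hN : 0 < N) : ∏ p ∈ N.primeFactors, p ^ N.factorization p = N := by
  have h := Nat.prod_factorization_pow_eq_self hN.ne'
  rw [Finsupp.prod, Nat.support_factorization] at h
  exact h

theorem pos_part (N : ℕ) (q : ℕ → Prop) [DecidablePred q] :
    0 < ∏ p ∈ N.primeFactors.filter q, p ^ N.factorization p := by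
  refine Finset.prod_pos fun p hp => ?_
  exact pow_pos (Nat.prime_of_mem_primeFactors (Finset.mem_filter.mp hp).1).pos _

theorem split (w y N : ℕ) (hN : 0 < N) (h : ∀ p : ℕ, p.Prime → p ∣ N → w < p) :
    N = sp w y N * rp y N := by
  unfold sp rp
  have h1 : N.primeFactors.filter (fun p => w < p ∧ p ≤ y) =
      N.primeFactors.filter (fun p => p ≤ y) := by
    refine Finset.filter_congr fun p hp => ?_
    have h2 := h p (Nat.prime_of_mem_primeFactors hp) (Nat.dvd_of_mem_primeFactors hp)
    exact ⟨fun h3 => h3.2, fun h3 => ⟨h2, h3⟩⟩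
  have h2 : N.primeFactors.filter (fun p => y < p) =
      N.primeFactors.filter (fun p => ¬ p ≤ y) :=
    Finset.filter_congr fun p _ => not_le.symm
  rw [h1, h2, Finset.prod_filter_mul_prod_filter_not, prod_pow N hN]

theorem bB_eq [Fintype ι] [DecidableEq ι] (cl : ℕ → Option ι) (B : ι → Finset ℕ)
    (hB : ∀ i, ∀ p ∈ B i, p.Prime ∧ cl p = some i) :
    bB B = ∏ p ∈ Finset.univ.biUnion B, p := by
  unfold bB
  rw [Finset.prod_biUnion]
  intro i _ j _ hij
  show Disjoint (B i) (B j)
  rw [Finset.disjoint_left]
  intro p hp hp'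
  have h1 := (hB i p hp).2
  have h2 := (hB j p hp').2
  rw [h1] at h2
  exact hij (Option.some_injective _ h2)

end XHv

open XHv in
/-- [Hv] The counting vectors. -/
theorem pr_Hv : StHv := by
  intro ι _ _ cl
  refine ⟨hv_mul cl, ?_, ?_⟩
  · intro w y N hN h
    have h1 := split w y N hN h
    have h2 : 0 < sp w y N := pos_part N _
    have h3 : 0 < rp y N := pos_part N _
    refine ⟨h1, h2, h3, ?_⟩
    rw [← hv_mul cl _ _ h2 h3, ← h1]
  · intro B hB
    have hprime : ∀ p ∈ Finset.univ.biUnion B, p.Prime := by
      intro p hp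
      obtain ⟨i, _, hi⟩ := Finset.mem_biUnion.mp hp
      exact (hB i p hi).1
    have hpos : 0 < bB B := by
      rw [bB_eq cl B hB]
      exact Finset.prod_pos fun p hp => (hprime p hp).pos
    have hpf : (bB B).primeFactors = Finset.univ.biUnion B := by
      rw [bB_eq cl B hB]
      exact Nat.primeFactors_prod hprime
    have hsq : Squarefree (bB B) := by
      rw [bB_eq cl B hB]
      apply Finset.squarefree_prod_of_pairwise_isCoprime
      · intro p hp q hq hpq
        show IsRelPrime p q
        exact Nat.coprime_iff_isRelPrime.mp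
          ((Nat.coprime_primes (hprime p hp) (hprime q hq)).mpr hpq)
      · intro p hp
        exact (hprime p hp).prime.irreducible.squarefree
    refine ⟨hpos, hsq, ?_, hpf, ?_⟩
    · funext i
      rw [hv_ext cl (bB B) (bB B).primeFactors (Finset.Subset.refl _) i, hpf]
      have h1 : (Finset.univ.biUnion B).filter (fun p => cl p = some i) = B i := by
        ext p
        rw [Finset.mem_filter, Finset.mem_biUnion]
        constructor
        · rintro ⟨⟨j, _, hj⟩, hi⟩
          have h2 := (hB j p hj).2
          rw [hi] at h2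
          have h3 : i = j := Option.some_injective _ h2
          rw [h3]
          exact hj
        · intro hp
          exact ⟨⟨i, Finset.mem_univ i, hp⟩, (hB i p hp).2⟩
      rw [h1]
      have h2 : ∀ p ∈ B i, (bB B).factorization p = 1 := by
        intro p hp
        apply Nat.factorization_eq_one_of_squarefree hsq (hB i p hp).1
        apply Nat.dvd_of_mem_primeFactors
        rw [hpf]
        exact Finset.mem_biUnion.mpr ⟨i, Finset.mem_univ i, hp⟩
      rw [Finset.sum_congr rfl h2, Finset.sum_const, smul_eq_mul, mul_one]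
    · intro N
      constructor
      · intro h i p hp
        refine dvd_trans (Nat.dvd_of_mem_primeFactors ?_) h
        rw [hpf]
        exact Finset.mem_biUnion.mpr ⟨i, Finset.mem_univ i, hp⟩
      · intro h
        rw [bB_eq cl B hB]
        apply Finset.prod_primes_dvd
        · intro p hp
          exact (hprime p hp).prime
        · intro p hp
          obtain ⟨i, _, hi⟩ := Finset.mem_biUnion.mp hp
          exact h i p hi

end Pool.Agent.F0f91f8.FC
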