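import Pool.Agent.Work.MP_0f91f8_co.FC.StmtsS

/-!
# Block FC, item LSb: the arithmetic large sieve
-/

set_option autoImplicit false

namespace Pool.Agent.F0f91f8.FC

open Filter Topology ComplexConjugate
open scoped BigOperators
open Pool.Agent.Work.MP_122e00_nt (ee)

namespace XLSb

lemma ee_zero : ee 0 = 1 := by
  simp [Pool.Agent.Work.MP_122e00_nt.ee]

lemma sum_ind {N : ℕ} {Z : Finset ℕ} (hZ : ∀ z ∈ Z, z < N) :
    ∑ n ∈ Finset.range N, (if n ∈ Z then (1 : ℝ) else 0) = Z.card := by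
  classical
  rw [← Finset.sum_filter, Finset.sum_const, nsmul_eq_mul, mul_one]
  have h1 : (Finset.range N).filter (fun n => n ∈ Z) = Z := by
    ext n
    simp only [Finset.mem_filter, Finset.mem_range]
    exact ⟨fun h => h.2, fun h => ⟨hZ n h, h⟩⟩
  rw [h1]

lemma sum_indC {N : ℕ} {Z : Finset ℕ} (hZ : ∀ z ∈ Z, z < N) :
    ∑ n ∈ Finset.range N, (if n ∈ Z then (1 : ℂ) else 0) * ee ((n : ℝ) * 0) = (Z.card : ℂ) := by
  classical
  have h0 : ∀ n ∈ Finset.range N, (if n ∈ Z then (1 : ℂ) else 0) * ee ((n : ℝ) * 0) =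
      if n ∈ Z then (1 : ℂ) else 0 := fun n _ => by rw [mul_zero, ee_zero, mul_one]
  rw [Finset.sum_congr rfl h0, ← Finset.sum_filter, Finset.sum_const, nsmul_eq_mul, mul_one]
  have h1 : (Finset.range N).filter (fun n => n ∈ Z) = Z := by
    ext n
    simp only [Finset.mem_filter, Finset.mem_range]
    exact ⟨fun h => h.2, fun h => ⟨hZ n h, h⟩⟩
  rw [h1]

end XLSb

theorem pr_LSb (hq : StLSq) : StLSb := by
  intro P o Z N F hP hZ hF
  classical
  have hfl := Pool.Agent.Work.MP_122e00_nt.farey_ls F hF N (fun n => if n ∈ Z then (1 : ℂ) else 0)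
  have hn : ∑ n ∈ Finset.range N, ‖(if n ∈ Z then (1 : ℂ) else 0)‖ ^ 2 = (Z.card : ℝ) := by
    rw [← XLSb.sum_ind hZ]
    refine Finset.sum_congr rfl fun n _ => ?_
    by_cases h : n ∈ Z <;> simp [h]
  simp only [hn] at hfl
  have key : (Z.card : ℝ) ^ 2 * Gs P o F ≤
      ((N : ℝ) + ((F ^ 2 : ℕ) : ℝ) * (harmonic (F ^ 2) : ℝ)) * Z.card := by
    refine le_trans ?_ hfl
    unfold Gs
    rw [Finset.mul_sum]
    refine le_trans (Finset.sum_le_sum (g := fun f => ∑ j ∈ (Finset.range f).filter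
      (fun j => Nat.Coprime j f), ‖∑ n ∈ Finset.range N, (if n ∈ Z then (1 : ℂ) else 0) *
        ee ((n : ℝ) * ((j : ℝ) / f))‖ ^ 2) fun q hqm => ?_) ?_
    · obtain ⟨_, hsq, hsub⟩ := Finset.mem_filter.1 hqm
      have h := hq P o N (fun n => if n ∈ Z then (1 : ℂ) else 0) (by
        intro p hp
        obtain ⟨h1, h2, h3⟩ := hP p hp
        refine ⟨h1, h2, le_trans (Nat.add_le_add_right (Finset.card_le_card ?_) _) h3⟩
        intro r hr
        obtain ⟨_, n, _, hnr, hnZ⟩ := Finset.mem_filter.1 hr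
        have hnZ' : n ∈ Z := by
          by_contra h
          exact hnZ (if_neg h)
        exact Finset.mem_image.2 ⟨n, hnZ', hnr⟩) q hsq hsub 0
      simp only [XLSb.sum_indC hZ, zero_add] at h
      rw [Complex.norm_natCast] at h
      rw [mul_comm]
      exact h
    · exact Finset.sum_le_sum_of_subset_of_nonneg (Finset.filter_subset _ _)
        fun f _ _ => Finset.sum_nonneg fun j _ => by positivity
  rcases Nat.eq_zero_or_pos Z.card with h0 | h0
  · rw [h0]
    have : (0 : ℝ) ≤ (harmonic (F ^ 2) : ℝ) := by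
      rw [harmonic]
      push_cast
      exact Finset.sum_nonneg fun i _ => by positivity
    simp only [Nat.cast_zero, zero_mul]
    positivity
  · have hZ0 : (0 : ℝ) < Z.card := by exact_mod_cast h0
    refine le_of_mul_le_mul_right ?_ hZ0
    calc (Z.card : ℝ) * Gs P o F * Z.card = (Z.card : ℝ) ^ 2 * Gs P o F := by ring
      _ ≤ _ := key

end Pool.Agent.F0f91f8.FC
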