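import Pool.Agent.Work.MP_0f91f8_co.FC.StmtsS

/-!
# Item [LSp] of block FC, module S: Montgomery's inequality for a prime

Author: helper10.  Captain: helper48.
-/

set_option autoImplicit false

namespace Pool.Agent.F0f91f8.FC

open Filter Topology ComplexConjugate
open scoped BigOperators
open Pool.Agent.Work.MP_122e00_nt (ee norm_ee ee_add ee_one_period ee_nat_mul)

namespace XLSp

open Finset

lemma conj_mul_self (x : ℝ) : ee x * conj (ee x) = 1 := by
  rw [Complex.mul_conj, Complex.normSq_eq_norm_sq, norm_ee]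
  norm_num

lemma prim (p : ℕ) (hp : p ≠ 0) : IsPrimitiveRoot (ee (1 / p)) p := by
  have h := Complex.isPrimitiveRoot_exp p hp
  have e : ee (1 / p) = Complex.exp (2 * Real.pi * Complex.I / p) := by
    unfold ee
    congr 1
    push_cast
    ring
  rw [e]
  exact h

lemma orth (p : ℕ) (hp : p ≠ 0) (r r' : ℕ) (hr : r < p) (hr' : r' < p) :
    ∑ j ∈ range p, ee (r * ((j : ℝ) / p)) * conj (ee (r' * ((j : ℝ) / p))) =
      if r = r' then (p : ℂ) else 0 := by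
  have hpr : IsPrimitiveRoot (ee (1 / p)) p := prim p hp
  have hzz : ee (1 / p) * conj (ee (1 / p)) = 1 := conj_mul_self _
  have e1 : ∀ a j : ℕ, ee (a * ((j : ℝ) / p)) = (ee (1 / p) ^ a) ^ j := by
    intro a j
    rw [← ee_nat_mul, ← ee_nat_mul]
    congr 1
    ring
  generalize ee (1 / p) = z at hpr hzz e1
  simp only [e1, map_pow]
  have e2 : ∀ j : ℕ, (z ^ r) ^ j * ((conj z) ^ r') ^ j = (z ^ r * (conj z) ^ r') ^ j :=
    fun j => (mul_pow _ _ j).symm
  simp only [e2]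
  have hw2 : z ^ r * (conj z) ^ r' * z ^ r' = z ^ r := by
    rw [mul_assoc, ← mul_pow, mul_comm (conj z) z, hzz, one_pow, mul_one]
  have hwp : (z ^ r * (conj z) ^ r') ^ p = 1 := by
    have h3 : (conj z) ^ p = 1 := by rw [← map_pow, hpr.pow_eq_one, map_one]
    rw [mul_pow, ← pow_mul, ← pow_mul, mul_comm r p, mul_comm r' p, pow_mul, pow_mul,
      hpr.pow_eq_one, h3, one_pow, one_pow, one_mul]
  split_ifs with h
  · have h1 : z ^ r * (conj z) ^ r' = 1 := by rw [← h, ← mul_pow, hzz, one_pow]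
    simp [h1]
  · have hw1 : z ^ r * (conj z) ^ r' ≠ 1 := by
      intro h1
      rw [h1, one_mul] at hw2
      exact h (hpr.pow_inj hr' hr hw2).symm
    have h4 := mul_neg_geom_sum (z ^ r * (conj z) ^ r') p
    rw [hwp, sub_self] at h4
    exact (mul_eq_zero.1 h4).resolve_left (sub_ne_zero.2 (Ne.symm hw1))

lemma parseval (p : ℕ) (hp : p ≠ 0) (S : ℕ → ℂ) :
    ∑ j ∈ range p, ‖∑ r ∈ range p, ee (r * ((j : ℝ) / p)) * S r‖ ^ 2 =
      p * ∑ r ∈ range p, ‖S r‖ ^ 2 := by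
  have hc : ((∑ j ∈ range p, ‖∑ r ∈ range p, ee (r * ((j : ℝ) / p)) * S r‖ ^ 2 : ℝ) : ℂ) =
      ((p * ∑ r ∈ range p, ‖S r‖ ^ 2 : ℝ) : ℂ) := by
    have h1 : ∀ w : ℂ, (‖w‖ : ℂ) ^ 2 = w * conj w := fun w => (Complex.mul_conj' w).symm
    push_cast
    simp only [h1, map_sum, map_mul, Finset.sum_mul_sum]
    rw [Finset.sum_comm, Finset.mul_sum]
    refine Finset.sum_congr rfl fun r hr => ?_
    rw [Finset.sum_comm]
    have h2 : ∀ r' ∈ range p, ∑ j ∈ range p, (ee (r * ((j : ℝ) / p)) * S r) *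
        (conj (ee (r' * ((j : ℝ) / p))) * conj (S r')) =
        (if r = r' then (p : ℂ) else 0) * (S r * conj (S r')) := by
      intro r' hr'
      rw [← orth p hp r r' (mem_range.1 hr) (mem_range.1 hr'), Finset.sum_mul]
      refine Finset.sum_congr rfl fun j _ => ?_
      ring
    rw [Finset.sum_congr rfl h2, Finset.sum_eq_single r]
    · rw [if_pos rfl]
    · intro r' _ hne
      rw [if_neg (Ne.symm hne), zero_mul]
    · intro h
      exact absurd hr h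
  exact_mod_cast hc

lemma expand (p N : ℕ) (hp : 0 < p) (c : ℕ → ℂ) (α : ℝ) (j : ℕ) :
    ∑ n ∈ range N, c n * ee (n * (α + (j : ℝ) / p)) =
      ∑ r ∈ range p, ee (r * ((j : ℝ) / p)) *
        ∑ n ∈ (range N).filter (fun n => n % p = r), c n * ee (n * α) := by
  rw [← Finset.sum_fiberwise_of_maps_to (s := range N) (t := range p) (g := fun n => n % p)
    (fun n _ => mem_range.2 (Nat.mod_lt n hp))]
  refine Finset.sum_congr rfl fun r _ => ?_
  rw [Finset.mul_sum]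
  refine Finset.sum_congr rfl fun n hn => ?_
  have hn' : n % p = r := (mem_filter.1 hn).2
  have hp0 : (p : ℝ) ≠ 0 := by exact_mod_cast hp.ne'
  have e : ee (n * (α + (j : ℝ) / p)) = ee (r * ((j : ℝ) / p)) * ee (n * α) := by
    have h0 := Nat.div_add_mod n p
    rw [hn'] at h0
    generalize n / p = k at h0
    have h1 : (n : ℝ) = p * k + r := by exact_mod_cast h0.symm
    have h2 : (n : ℝ) * (α + (j : ℝ) / p) =
        (r * ((j : ℝ) / p) + n * α) + (((k * j : ℕ) : ℤ) : ℝ) := by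
      push_cast
      rw [h1]
      field_simp
      ring
    rw [h2, ee_one_period, ee_add]
  rw [e]
  ring

lemma core (p N o : ℕ) (c : ℕ → ℂ) (hp : 0 < p) (ho : o < p) (R : Finset ℕ)
    (hR : ∀ r, r ∈ R ↔ r < p ∧ ∃ n ∈ range N, n % p = r ∧ c n ≠ 0) (hRc : R.card + o ≤ p)
    (α : ℝ) (s : Finset ℕ) (hs : ∀ j, j ∈ s ↔ j < p ∧ j ≠ 0) :
    (o : ℝ) / ((p : ℝ) - o) * ‖∑ n ∈ range N, c n * ee (n * α)‖ ^ 2 ≤
    ∑ j ∈ s, ‖∑ n ∈ range N, c n * ee (n * (α + (j : ℝ) / p))‖ ^ 2 := by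
  set S : ℕ → ℂ := fun r => ∑ n ∈ (range N).filter (fun n => n % p = r), c n * ee (n * α)
    with hS
  have hpo : (0 : ℝ) < (p : ℝ) - o := by
    have : (o : ℝ) < p := by exact_mod_cast ho
    linarith
  -- the total sum
  have htot : ∑ n ∈ range N, c n * ee (n * α) = ∑ r ∈ R, S r := by
    rw [← Finset.sum_fiberwise_of_maps_to (s := range N) (t := range p) (g := fun n => n % p)
      (fun n _ => mem_range.2 (Nat.mod_lt n hp))]
    symm
    refine Finset.sum_subset (fun r hr => mem_range.2 ((hR r).1 hr).1) fun r hr hr' => ?_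
    refine Finset.sum_eq_zero fun n hn => ?_
    have h1 := mem_filter.1 hn
    have h2 : c n = 0 := by
      by_contra h3
      exact hr' ((hR r).2 ⟨mem_range.1 hr, n, h1.1, h1.2, h3⟩)
    rw [h2, zero_mul]
  have hCS : ‖∑ n ∈ range N, c n * ee (n * α)‖ ^ 2 ≤ ((p : ℝ) - o) * ∑ r ∈ range p, ‖S r‖ ^ 2 := by
    rw [htot]
    have h1 : ‖∑ r ∈ R, S r‖ ^ 2 ≤ (∑ r ∈ R, ‖S r‖) ^ 2 :=
      pow_le_pow_left₀ (norm_nonneg _) (norm_sum_le _ _) 2
    have h2 : (∑ r ∈ R, ‖S r‖) ^ 2 ≤ R.card * ∑ r ∈ R, ‖S r‖ ^ 2 := sq_sum_le_card_mul_sum_sq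
    have h3 : ∑ r ∈ R, ‖S r‖ ^ 2 ≤ ∑ r ∈ range p, ‖S r‖ ^ 2 :=
      Finset.sum_le_sum_of_subset_of_nonneg (fun r hr => mem_range.2 ((hR r).1 hr).1)
        fun _ _ _ => by positivity
    have h4 : (R.card : ℝ) ≤ (p : ℝ) - o := by
      have : ((R.card + o : ℕ) : ℝ) ≤ p := by exact_mod_cast hRc
      push_cast at this
      linarith
    calc ‖∑ r ∈ R, S r‖ ^ 2 ≤ R.card * ∑ r ∈ R, ‖S r‖ ^ 2 := h1.trans h2
      _ ≤ ((p : ℝ) - o) * ∑ r ∈ range p, ‖S r‖ ^ 2 :=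
        mul_le_mul h4 h3 (Finset.sum_nonneg fun _ _ => by positivity) hpo.le
  have hall : ∑ j ∈ range p, ‖∑ n ∈ range N, c n * ee (n * (α + (j : ℝ) / p))‖ ^ 2 =
      p * ∑ r ∈ range p, ‖S r‖ ^ 2 := by
    rw [← parseval p hp.ne' S]
    refine Finset.sum_congr rfl fun j _ => ?_
    rw [expand p N hp c α j]
  have hsp : range p = insert 0 s := by
    ext j
    rw [mem_range, mem_insert, hs]
    rcases Nat.eq_zero_or_pos j with h | h
    · subst h
      simp [hp]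
    · simp [h.ne']
  have h0s : (0 : ℕ) ∉ s := fun h => ((hs 0).1 h).2 rfl
  rw [hsp, Finset.sum_insert h0s] at hall
  have hz : ∑ n ∈ range N, c n * ee (n * (α + ((0 : ℕ) : ℝ) / p)) =
      ∑ n ∈ range N, c n * ee (n * α) := by simp
  rw [hz, ← hsp] at hall
  have key : (o : ℝ) / ((p : ℝ) - o) * ‖∑ n ∈ range N, c n * ee (n * α)‖ ^ 2 +
      ‖∑ n ∈ range N, c n * ee (n * α)‖ ^ 2 ≤ p * ∑ r ∈ range p, ‖S r‖ ^ 2 := by
    have h5 : (o : ℝ) / ((p : ℝ) - o) * ‖∑ n ∈ range N, c n * ee (n * α)‖ ^ 2 +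
      ‖∑ n ∈ range N, c n * ee (n * α)‖ ^ 2 =
        p / ((p : ℝ) - o) * ‖∑ n ∈ range N, c n * ee (n * α)‖ ^ 2 := by
      have h6 : (p : ℝ) / ((p : ℝ) - o) = (o : ℝ) / ((p : ℝ) - o) + 1 := by
        rw [div_add_one hpo.ne']
        congr 1
        ring
      rw [h6]
      ring
    rw [h5]
    calc p / ((p : ℝ) - o) * ‖∑ n ∈ range N, c n * ee (n * α)‖ ^ 2
        ≤ p / ((p : ℝ) - o) * (((p : ℝ) - o) * ∑ r ∈ range p, ‖S r‖ ^ 2) :=
          mul_le_mul_of_nonneg_left hCS (by positivity)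
      _ = p * ∑ r ∈ range p, ‖S r‖ ^ 2 := by
          rw [← mul_assoc, div_mul_cancel₀ _ hpo.ne']
  linarith

end XLSp

/-- [LSp] -/
theorem pr_LSp : StLSp := by
  intro p N o c hp ho hcard α
  refine XLSp.core p N o c hp.pos ho _ (fun r => ?_) hcard α _ (fun j => ?_)
  · rw [Finset.mem_filter, Finset.mem_range]
  · rw [Finset.mem_filter, Finset.mem_range]
    constructor
    · rintro ⟨h1, h2⟩
      refine ⟨h1, fun h => ?_⟩
      subst h
      rw [Nat.coprime_zero_left] at h2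
      exact hp.one_lt.ne' h2
    · rintro ⟨h1, h2⟩
      refine ⟨h1, Nat.Coprime.symm ((Nat.Prime.coprime_iff_not_dvd hp).2 fun h => ?_)⟩
      exact absurd (Nat.le_of_dvd (Nat.pos_of_ne_zero h2) h) (not_le.2 h1)

end Pool.Agent.F0f91f8.FC
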