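import Pool.Agent.Work.MP_0f91f8_co.FC.StmtsS

/-!
# Block FC, item LSq: Montgomery's inequality for squarefree moduli
-/

set_option autoImplicit false

namespace Pool.Agent.F0f91f8.FC

open scoped BigOperators
open Pool.Agent.Work.MP_122e00_nt (ee ee_one_period)

namespace XLSq

/-- the square of the exponential sum -/
noncomputable def Sx (N : ℕ) (c : ℕ → ℂ) (x : ℝ) : ℝ :=
  ‖∑ n ∈ Finset.range N, c n * ee (n * x)‖ ^ 2

theorem Sx_nonneg (N : ℕ) (c : ℕ → ℂ) (x : ℝ) : 0 ≤ Sx N c x := by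
  unfold Sx
  positivity

theorem Sx_per (N : ℕ) (c : ℕ → ℂ) (x : ℝ) (m : ℕ) : Sx N c (x + m) = Sx N c x := by
  unfold Sx
  have h : ∀ n : ℕ, ee (n * (x + m)) = ee (n * x) := by
    intro n
    have e := ee_one_period (n * x) ((n * m : ℕ) : ℤ)
    rw [← e]
    congr 1
    push_cast
    ring
  simp only [h]

/-- reduced classes -/
def RR (q : ℕ) : Finset ℕ := (Finset.range q).filter (fun j => Nat.Coprime j q)

/-- the map of the Chinese remainder theorem -/
def g (q p : ℕ) (x : ℕ × ℕ) : ℕ := (x.1 * p + x.2 * q) % (q * p)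

theorem g_mem {q p : ℕ} (hq : 0 < q) (hp : 0 < p) (h : Nat.Coprime q p) {x : ℕ × ℕ}
    (hx : x ∈ RR q ×ˢ RR p) : g q p x ∈ RR (q * p) := by
  rw [Finset.mem_product] at hx
  obtain ⟨h1, h2⟩ := hx
  simp only [RR, Finset.mem_filter, Finset.mem_range] at h1 h2 ⊢
  refine ⟨Nat.mod_lt _ (Nat.mul_pos hq hp), ?_⟩
  have e : Nat.Coprime (x.1 * p + x.2 * q) (q * p) := by
    refine Nat.Coprime.mul_right ?_ ?_
    · have e1 : Nat.Coprime (x.1 * p) q := Nat.Coprime.mul_left h1.2 h.symm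
      exact (Nat.coprime_add_mul_right_left (x.1 * p) q x.2).mpr e1
    · have e1 : Nat.Coprime (x.2 * q) p := Nat.Coprime.mul_left h2.2 h
      rw [add_comm]
      exact (Nat.coprime_add_mul_right_left (x.2 * q) p x.1).mpr e1
  unfold g
  unfold Nat.Coprime at e ⊢
  rw [← Nat.gcd_rec, Nat.gcd_comm]
  exact e

theorem g_inj {q p : ℕ} (h : Nat.Coprime q p) :
    Set.InjOn (g q p) (RR q ×ˢ RR p : Finset (ℕ × ℕ)) := by
  rintro ⟨a, b⟩ hx ⟨a', b'⟩ hy hxy
  rw [Finset.mem_coe, Finset.mem_product] at hx hy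
  simp only [RR, Finset.mem_filter, Finset.mem_range] at hx hy
  have hm : a * p + b * q ≡ a' * p + b' * q [MOD q * p] := hxy
  have h1 : a * p + b * q ≡ a' * p + b' * q [MOD q] := Nat.ModEq.of_mul_right p hm
  have h2 : a * p + b * q ≡ a' * p + b' * q [MOD p] := Nat.ModEq.of_mul_left q hm
  have h3 : a * p ≡ a' * p [MOD q] := by
    have e1 : a * p + b * q ≡ a * p [MOD q] := by
      simp [Nat.ModEq]
    have e2 : a' * p + b' * q ≡ a' * p [MOD q] := by
      simp [Nat.ModEq]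
    exact (e1.symm.trans h1).trans e2
  have h4 : b * q ≡ b' * q [MOD p] := by
    have e1 : a * p + b * q ≡ b * q [MOD p] := by
      simp [Nat.ModEq]
    have e2 : a' * p + b' * q ≡ b' * q [MOD p] := by
      simp [Nat.ModEq]
    exact (e1.symm.trans h2).trans e2
  have h5 : a ≡ a' [MOD q] := Nat.ModEq.cancel_right_of_coprime h h3
  have h6 : b ≡ b' [MOD p] := Nat.ModEq.cancel_right_of_coprime h.symm h4
  have h7 : a = a' := Nat.ModEq.eq_of_lt_of_lt h5 hx.1.1 hy.1.1
  have h8 : b = b' := Nat.ModEq.eq_of_lt_of_lt h6 hx.2.1 hy.2.1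
  rw [h7, h8]

theorem g_val {q p : ℕ} (hq : 0 < q) (hp : 0 < p) (x : ℕ × ℕ) : ∃ m : ℕ,
    (x.1 : ℝ) / q + (x.2 : ℝ) / p = (g q p x : ℝ) / ((q * p : ℕ) : ℝ) + m := by
  refine ⟨(x.1 * p + x.2 * q) / (q * p), ?_⟩
  have hq' : (q : ℝ) ≠ 0 := by exact_mod_cast hq.ne'
  have hp' : (p : ℝ) ≠ 0 := by exact_mod_cast hp.ne'
  have e : g q p x + (q * p) * ((x.1 * p + x.2 * q) / (q * p)) = x.1 * p + x.2 * q :=
    Nat.mod_add_div _ _
  have e' : ((g q p x : ℕ) : ℝ) + ((q : ℝ) * p) * (((x.1 * p + x.2 * q) / (q * p) : ℕ) : ℝ) =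
      (x.1 : ℝ) * p + x.2 * q := by
    have := congrArg (fun t : ℕ => (t : ℝ)) e
    simpa only [Nat.cast_add, Nat.cast_mul] using this
  have hqp : ((q * p : ℕ) : ℝ) = (q : ℝ) * p := Nat.cast_mul _ _
  rw [hqp]
  have hqp0 : (q : ℝ) * p ≠ 0 := mul_ne_zero hq' hp'
  have lhs : (x.1 : ℝ) / q + (x.2 : ℝ) / p = ((x.1 : ℝ) * p + x.2 * q) / ((q : ℝ) * p) := by
    field_simp
  rw [lhs, ← e', add_div, mul_div_cancel_left₀ _ hqp0]

/-- splitting of the reduced fractions modulo one -/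
theorem split {q p : ℕ} (hq : 0 < q) (hp : 0 < p) (h : Nat.Coprime q p) (F : ℝ → ℝ)
    (h0 : ∀ x, 0 ≤ F x) (h1 : ∀ (x : ℝ) (m : ℕ), F (x + m) = F x) :
    ∑ a ∈ RR q, ∑ b ∈ RR p, F ((a : ℝ) / q + (b : ℝ) / p) ≤
      ∑ j ∈ RR (q * p), F ((j : ℝ) / ((q * p : ℕ) : ℝ)) := by
  classical
  calc ∑ a ∈ RR q, ∑ b ∈ RR p, F ((a : ℝ) / q + (b : ℝ) / p)
      = ∑ x ∈ RR q ×ˢ RR p, F ((x.1 : ℝ) / q + (x.2 : ℝ) / p) := by
        rw [Finset.sum_product]
    _ = ∑ x ∈ RR q ×ˢ RR p, F ((g q p x : ℝ) / ((q * p : ℕ) : ℝ)) := by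
        refine Finset.sum_congr rfl fun x _ => ?_
        obtain ⟨m, hm⟩ := g_val hq hp x
        rw [hm, h1]
    _ = ∑ j ∈ (RR q ×ˢ RR p).image (g q p), F ((j : ℝ) / ((q * p : ℕ) : ℝ)) := by
        rw [Finset.sum_image]
        exact g_inj h
    _ ≤ ∑ j ∈ RR (q * p), F ((j : ℝ) / ((q * p : ℕ) : ℝ)) := by
        refine Finset.sum_le_sum_of_subset_of_nonneg ?_ fun j _ _ => h0 _
        intro j hj
        obtain ⟨x, hx, rfl⟩ := Finset.mem_image.mp hj
        exact g_mem hq hp h hx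

end XLSq

open XLSq

theorem pr_LSq (hp : StLSp) : StLSq := by
  intro P o N c hP q
  induction q using Nat.strong_induction_on with
  | _ q ih =>
    intro hsq hqP α
    have main : (∏ p ∈ q.primeFactors, (o p : ℝ) / ((p : ℝ) - o p)) * Sx N c α ≤
        ∑ j ∈ RR q, Sx N c (α + (j : ℝ) / q) := by
      rcases Nat.lt_or_ge 1 q with hq1 | hq1
      · -- split off a prime
        obtain ⟨p, hpp, r, hr⟩ : ∃ p, p.Prime ∧ ∃ r, q = r * p := by
          obtain ⟨p, hpp, r, hr⟩ := Nat.exists_prime_and_dvd (ne_of_gt hq1)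
          exact ⟨p, hpp, r, by rw [hr, mul_comm]⟩
        have hr0 : 0 < r := by
          rcases Nat.eq_zero_or_pos r with h | h
          · rw [h, zero_mul] at hr
            omega
          · exact h
        have hcop : Nat.Coprime r p := by
          rw [hr] at hsq
          exact Nat.coprime_of_squarefree_mul hsq
        have hrq : r < q := by
          rw [hr]
          exact (Nat.lt_mul_iff_one_lt_right hr0).mpr hpp.one_lt
        have hsr : Squarefree r := by
          rw [hr] at hsq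
          exact hsq.of_mul_left
        have hpf : q.primeFactors = r.primeFactors ∪ {p} := by
          rw [hr, Nat.primeFactors_mul hr0.ne' hpp.ne_zero, hpp.primeFactors]
        have hpP : p ∈ P := hqP (by rw [hpf]; simp)
        have hrP : r.primeFactors ⊆ P := fun x hx => hqP (by rw [hpf]; exact Finset.mem_union_left _ hx)
        have hpr : p ∉ r.primeFactors := by
          intro hmem
          have := Nat.dvd_of_mem_primeFactors hmem
          have h2 := Nat.Coprime.eq_one_of_dvd hcop.symm this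
          exact hpp.one_lt.ne' h2
        have hprod : (∏ p ∈ q.primeFactors, (o p : ℝ) / ((p : ℝ) - o p)) =
            (∏ p ∈ r.primeFactors, (o p : ℝ) / ((p : ℝ) - o p)) * ((o p : ℝ) / ((p : ℝ) - o p)) := by
          rw [hpf, Finset.prod_union (Finset.disjoint_singleton_right.mpr hpr),
            Finset.prod_singleton]
        obtain ⟨_, hop, hcard⟩ := hP p hpP
        have hg0 : 0 ≤ (o p : ℝ) / ((p : ℝ) - o p) := by
          have : (o p : ℝ) < p := by exact_mod_cast hop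
          exact div_nonneg (Nat.cast_nonneg _) (by linarith)
        have ih' : (∏ p ∈ r.primeFactors, (o p : ℝ) / ((p : ℝ) - o p)) * Sx N c α ≤
            ∑ j ∈ RR r, Sx N c (α + (j : ℝ) / r) := by
          have := ih r hrq hsr hrP α
          exact this
        have step : ∀ x : ℝ, (o p : ℝ) / ((p : ℝ) - o p) * Sx N c x ≤
            ∑ j ∈ RR p, Sx N c (x + (j : ℝ) / p) := by
          intro x
          have := hp p N (o p) c hpp hop hcard x
          exact this
        have hs := split hr0 hpp.pos hcop (fun x => Sx N c (α + x))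
          (fun x => Sx_nonneg N c _) (fun x m => by
            show Sx N c (α + (x + m)) = Sx N c (α + x)
            rw [← add_assoc]
            exact Sx_per N c (α + x) m)
        rw [hprod]
        calc (∏ p ∈ r.primeFactors, (o p : ℝ) / ((p : ℝ) - o p)) * ((o p : ℝ) / ((p : ℝ) - o p)) *
              Sx N c α = ((o p : ℝ) / ((p : ℝ) - o p)) *
                ((∏ p ∈ r.primeFactors, (o p : ℝ) / ((p : ℝ) - o p)) * Sx N c α) := by ring
          _ ≤ ((o p : ℝ) / ((p : ℝ) - o p)) * ∑ j ∈ RR r, Sx N c (α + (j : ℝ) / r) :=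
              mul_le_mul_of_nonneg_left ih' hg0
          _ = ∑ j ∈ RR r, ((o p : ℝ) / ((p : ℝ) - o p)) * Sx N c (α + (j : ℝ) / r) :=
              Finset.mul_sum _ _ _
          _ ≤ ∑ a ∈ RR r, ∑ b ∈ RR p, Sx N c (α + (a : ℝ) / r + (b : ℝ) / p) :=
              Finset.sum_le_sum fun a _ => step _
          _ = ∑ a ∈ RR r, ∑ b ∈ RR p, Sx N c (α + ((a : ℝ) / r + (b : ℝ) / p)) := by
              simp only [add_assoc]
          _ ≤ ∑ j ∈ RR (r * p), Sx N c (α + (j : ℝ) / ((r * p : ℕ) : ℝ)) := hs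
          _ = ∑ j ∈ RR q, Sx N c (α + (j : ℝ) / q) := by rw [hr]
      · have hq : q = 1 := by
          have := Nat.pos_of_ne_zero hsq.ne_zero
          omega
        subst hq
        simp [RR]
    exact main

end Pool.Agent.F0f91f8.FC
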