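import Pool.Agent.Work.MP_0f91f8_co.FC.StmtsS

/-!
# Block FC, module S, item Mj (helper50)
-/

set_option autoImplicit false

namespace Pool.Agent.F0f91f8.FC

open Filter Topology ComplexConjugate
open scoped BigOperators

namespace XMj

/-- the weights are nonnegative (from `StSh` with `b = 1`) -/
lemma wt_nonneg (hSh : StSh) (w y n : ℕ) (s : Fin 4 → ℕ) (hw : 10 ≤ w) (hs : AdmS w y n s) :
    0 ≤ Wt w y n s := by
  have h := (hSh w y n w 0 1 s 0 hw le_rfl (by omega) (by decide) hs one_pos (one_dvd _)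
    (by simp) (by
      intro p hp h1
      have := hp.one_lt
      have := Nat.le_of_dvd one_pos h1
      omega)).2
  rw [Nat.div_one, Function.update_eq_self] at h
  push_cast at h
  linarith

lemma mem_SS {w y n X : ℕ} {s : Fin 4 → ℕ} : s ∈ SS w y n X ↔
    (∀ k, s k ≤ X) ∧ AdmS w y n s ∧ (∏ k, s k) ^ 4 ≤ X := by
  classical
  unfold SS
  rw [Finset.mem_filter, Fintype.mem_piFinset]
  simp only [Finset.mem_range, Nat.lt_succ_iff]

lemma upd_le (s : Fin 4 → ℕ) (σ : Fin 4) (b : ℕ) (k : Fin 4) :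
    Function.update s σ (s σ / b) k ≤ s k := by
  by_cases h : k = σ
  · subst h
    rw [Function.update_self]
    exact Nat.div_le_self _ _
  · rw [Function.update_of_ne h]

lemma upd_inj (s r : Fin 4 → ℕ) (σ : Fin 4) (b : ℕ) (hs : b ∣ s σ) (hr : b ∣ r σ)
    (h : Function.update s σ (s σ / b) = Function.update r σ (r σ / b)) : s = r := by
  funext k
  by_cases hk : k = σ
  · subst hk
    have h1 := congrFun h k
    rw [Function.update_self, Function.update_self] at h1
    rw [← Nat.div_mul_cancel hs, ← Nat.div_mul_cancel hr, h1]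
  · have h1 := congrFun h k
    rwa [Function.update_of_ne hk, Function.update_of_ne hk] at h1

end XMj

open XMj

theorem pr_Mj (hHv : StHv) (hSh : StSh) (hCw : StCw) (hFb : StFb) : StMj := by
  intro ι _ _ cl w y κ n c P w₁ hS X H K σ hX hσ hlam hw₁ hN hrp φ hφ j hj
  obtain ⟨hadd, -, hB⟩ := hHv ι _ _ cl
  have hP : ∀ i, ∀ p ∈ P i, p.Prime ∧ cl p = some i :=
    fun i p hp => ⟨(hS.hP i p hp).1, (hS.hP i p hp).2.2.2⟩
  obtain ⟨c1, c2⟩ := hCw ι _ _ cl P j H hP hlam hj
  have hcj : 0 ≤ cj P j := by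
    unfold cj
    refine Finset.prod_nonneg fun i _ => ?_
    have := hlam i
    positivity
  -- the sums for fixed `t`
  obtain ⟨T, hT⟩ : ∃ T : (Fin 4 → ι → Fin (K + 1)) → ℝ, T = fun t => ∑ s ∈ SS w y n X,
      Wt w y n s * φ ((fun k => hv cl (s k) + fun i => (t k i : ℕ)) + slot σ j) := ⟨_, rfl⟩
  have hWt : ∀ s ∈ SS w y n X, 0 ≤ Wt w y n s := fun s hs =>
    wt_nonneg hSh w y n s hS.hw (mem_SS.1 hs).2.1
  have hT0 : ∀ t, 0 ≤ T t := by
    intro t
    rw [hT]
    exact Finset.sum_nonneg fun s hs => mul_nonneg (hWt s hs) (hφ _)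
  -- the inner sums
  have key : ∀ B ∈ FB P j, ∀ t : Fin 4 → ι → Fin (K + 1),
      ∑ s ∈ (SS w y n X).filter (fun s => bB B ∣ s σ),
        Wt w y n s * φ (fun k => hv cl (s k) + fun i => (t k i : ℕ)) ≤
      2 / (bB B : ℝ) * T t := by
    intro B hBm t
    have hBm' : ∀ i, B i ⊆ P i ∧ (B i).card = j i := by
      intro i
      have := Fintype.mem_piFinset.1 hBm i
      exact Finset.mem_powersetCard.1 this
    have hBp : ∀ i, ∀ p ∈ B i, p.Prime ∧ cl p = some i := fun i p hp => hP i p ((hBm' i).1 hp)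
    obtain ⟨b0, -, bhv, bpf, -⟩ := hB B hBp
    have bpr : ∀ p : ℕ, p.Prime → p ∣ bB B → w₁ < p := by
      intro p hp hpb
      have h1 : p ∈ (bB B).primeFactors := Nat.mem_primeFactors.2 ⟨hp, hpb, b0.ne'⟩
      rw [bpf, Finset.mem_biUnion] at h1
      obtain ⟨i, -, hi⟩ := h1
      exact (hS.hP i p ((hBm' i).1 hi)).2.1
    have bcard : (bB B).primeFactors.card ≤ Fintype.card ι * H := by
      rw [bpf]
      refine Finset.card_biUnion_le.trans ?_
      calc ∑ i, (B i).card ≤ ∑ _i : ι, H := by
            refine Finset.sum_le_sum fun i _ => ?_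
            rw [(hBm' i).2]
            exact (hj i).le
        _ = Fintype.card ι * H := by simp
    have hmap : ∀ s ∈ (SS w y n X).filter (fun s => bB B ∣ s σ),
        Function.update s σ (s σ / bB B) ∈ SS w y n X ∧
        Wt w y n s * φ (fun k => hv cl (s k) + fun i => (t k i : ℕ)) ≤
          2 / (bB B : ℝ) * (Wt w y n (Function.update s σ (s σ / bB B)) *
            φ ((fun k => hv cl (Function.update s σ (s σ / bB B) k) + fun i => (t k i : ℕ)) +
              slot σ j)) := by
      intro s hs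
      rw [Finset.mem_filter] at hs
      obtain ⟨hs1, hs2⟩ := hs
      obtain ⟨m1, m2, m3⟩ := mem_SS.1 hs1
      obtain ⟨a1, a2⟩ := hSh w y n w₁ (Fintype.card ι * H) (bB B) s σ hS.hw hS.hw₁ hw₁ hσ m2 b0 hs2
        bcard bpr
      refine ⟨mem_SS.2 ⟨fun k => (upd_le s σ _ k).trans (m1 k), a1, le_trans ?_ m3⟩, ?_⟩
      · exact Nat.pow_le_pow_left (Finset.prod_le_prod' fun k _ => upd_le s σ _ k) 4
      · have e1 : (fun k => hv cl (s k) + fun i => (t k i : ℕ)) =
            (fun k => hv cl (Function.update s σ (s σ / bB B) k) + fun i => (t k i : ℕ)) +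
              slot σ j := by
          funext k
          rw [Pi.add_apply]
          unfold slot
          by_cases hk : k = σ
          · subst hk
            rw [if_pos rfl, Function.update_self]
            have h1 : s k = bB B * (s k / bB B) := (Nat.mul_div_cancel' hs2).symm
            have h2 : 0 < s k / bB B := Nat.div_pos (Nat.le_of_dvd (m2.1 k) hs2) b0
            have h3 : hv cl (s k) = (fun i => (B i).card) + hv cl (s k / bB B) := by
              rw [← bhv, ← hadd _ _ b0 h2, ← h1]
            rw [h3]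
            funext i
            simp only [Pi.add_apply, (hBm' i).2]
            ring
          · rw [if_neg hk, Function.update_of_ne hk, add_zero]
        rw [e1, ← mul_assoc]
        exact mul_le_mul_of_nonneg_right a2 (hφ _)
    calc ∑ s ∈ (SS w y n X).filter (fun s => bB B ∣ s σ),
          Wt w y n s * φ (fun k => hv cl (s k) + fun i => (t k i : ℕ))
        ≤ ∑ s ∈ (SS w y n X).filter (fun s => bB B ∣ s σ),
          2 / (bB B : ℝ) * (Wt w y n (Function.update s σ (s σ / bB B)) *
            φ ((fun k => hv cl (Function.update s σ (s σ / bB B) k) + fun i => (t k i : ℕ)) +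
              slot σ j)) := Finset.sum_le_sum fun s hs => (hmap s hs).2
      _ = 2 / (bB B : ℝ) * ∑ s ∈ (SS w y n X).filter (fun s => bB B ∣ s σ),
          (Wt w y n (Function.update s σ (s σ / bB B)) *
            φ ((fun k => hv cl (Function.update s σ (s σ / bB B) k) + fun i => (t k i : ℕ)) +
              slot σ j)) := by rw [Finset.mul_sum]
      _ = 2 / (bB B : ℝ) * ∑ r ∈ ((SS w y n X).filter (fun s => bB B ∣ s σ)).image
            (fun s => Function.update s σ (s σ / bB B)),
          (Wt w y n r * φ ((fun k => hv cl (r k) + fun i => (t k i : ℕ)) + slot σ j)) := by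
          rw [Finset.sum_image]
          intro s hs r hr h
          exact upd_inj s r σ _ (Finset.mem_filter.1 hs).2 (Finset.mem_filter.1 hr).2 h
      _ ≤ 2 / (bB B : ℝ) * T t := by
          refine mul_le_mul_of_nonneg_left ?_ (by positivity)
          rw [hT]
          refine Finset.sum_le_sum_of_subset_of_nonneg ?_ fun r hr _ =>
            mul_nonneg (hWt r hr) (hφ _)
          intro r hr
          obtain ⟨s, hs, rfl⟩ := Finset.mem_image.1 hr
          exact (hmap s hs).1
  have key2 : ∀ B ∈ FB P j,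
      ∑ v ∈ (Good w y κ n c X H σ P).filter (fun v => bB B ∣ Lf κ n (w.factorial * v + c) σ),
        φ (hL cl κ n (w.factorial * v + c)) ≤ 12 * X * (∑ t, T t) * (1 / (bB B : ℝ)) := by
    intro B hBm
    have hBm' : ∀ i, B i ⊆ P i ∧ (B i).card = j i := by
      intro i
      have := Fintype.mem_piFinset.1 hBm i
      exact Finset.mem_powersetCard.1 this
    have hBp : ∀ i, ∀ p ∈ B i, p.Prime ∧ cl p = some i := fun i p hp => hP i p ((hBm' i).1 hp)
    obtain ⟨b0, bsq, -, bpf, -⟩ := hB B hBp
    have bpr : ∀ p : ℕ, p.Prime → p ∣ bB B → w₁ < p ∧ p ≤ y := by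
      intro p hp hpb
      have h1 : p ∈ (bB B).primeFactors := Nat.mem_primeFactors.2 ⟨hp, hpb, b0.ne'⟩
      rw [bpf, Finset.mem_biUnion] at h1
      obtain ⟨i, -, hi⟩ := h1
      exact ⟨(hS.hP i p ((hBm' i).1 hi)).2.1, (hS.hP i p ((hBm' i).1 hi)).2.2.1⟩
    refine (hFb ι _ _ cl w y κ n c P w₁ hS X H K σ hX hN hrp φ hφ (bB B) bsq bpr).trans ?_
    calc 6 * (X : ℝ) * ∑ t : Fin 4 → ι → Fin (K + 1),
          ∑ s ∈ (SS w y n X).filter (fun s => bB B ∣ s σ),
            Wt w y n s * φ (fun k => hv cl (s k) + fun i => (t k i : ℕ))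
        ≤ 6 * (X : ℝ) * ∑ t : Fin 4 → ι → Fin (K + 1), 2 / (bB B : ℝ) * T t := by
          refine mul_le_mul_of_nonneg_left ?_ (by positivity)
          exact Finset.sum_le_sum fun t _ => key B hBm t
      _ = 12 * X * (∑ t, T t) * (1 / (bB B : ℝ)) := by
          rw [← Finset.mul_sum]
          ring
  have hST : 0 ≤ ∑ t, T t := Finset.sum_nonneg fun t _ => hT0 t
  calc ∑ v ∈ Good w y κ n c X H σ P, φ (hL cl κ n (w.factorial * v + c))
      ≤ ∑ v ∈ Good w y κ n c X H σ P, (4 : ℝ) ^ Fintype.card ι * (cj P j *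
        (((FB P j).filter fun B => bB B ∣ Lf κ n (w.factorial * v + c) σ).card : ℝ)) *
          φ (hL cl κ n (w.factorial * v + c)) := by
        refine Finset.sum_le_sum fun v hv' => ?_
        have h1 := c1 (Lf κ n (w.factorial * v + c) σ) (by
          unfold Good at hv'
          exact (Finset.mem_filter.1 hv').2.2.2)
        have h2 := mul_le_mul_of_nonneg_right h1 (hφ (hL cl κ n (w.factorial * v + c)))
        rwa [one_mul] at h2
    _ = (4 : ℝ) ^ Fintype.card ι * (cj P j * ∑ v ∈ Good w y κ n c X H σ P, ∑ B ∈ FB P j,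
          if bB B ∣ Lf κ n (w.factorial * v + c) σ then
            φ (hL cl κ n (w.factorial * v + c)) else 0) := by
        rw [Finset.mul_sum, Finset.mul_sum]
        refine Finset.sum_congr rfl fun v _ => ?_
        rw [← Finset.sum_filter, Finset.sum_const, nsmul_eq_mul]
        ring
    _ = (4 : ℝ) ^ Fintype.card ι * (cj P j * ∑ B ∈ FB P j,
          ∑ v ∈ (Good w y κ n c X H σ P).filter
            (fun v => bB B ∣ Lf κ n (w.factorial * v + c) σ),
            φ (hL cl κ n (w.factorial * v + c))) := by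
        rw [Finset.sum_comm]
        congr 2
        refine Finset.sum_congr rfl fun B _ => ?_
        rw [Finset.sum_filter]
    _ ≤ (4 : ℝ) ^ Fintype.card ι * (cj P j * ∑ B ∈ FB P j,
          12 * X * (∑ t, T t) * (1 / (bB B : ℝ))) := by
        gcongr with B hBm
        exact key2 B hBm
    _ = 12 * 4 ^ Fintype.card ι * X * (∑ t, T t) * (cj P j * ∑ B ∈ FB P j, 1 / (bB B : ℝ)) := by
        rw [← Finset.mul_sum]
        ring
    _ ≤ 12 * 4 ^ Fintype.card ι * X * (∑ t, T t) * 1 := by gcongr
    _ = _ := by rw [mul_one, hT]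

end Pool.Agent.F0f91f8.FC
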