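import Pool.Agent.Work.MP_0f91f8_co.FC.StmtsS

/-!
# Block FC, item Ms: total mass of the weights of admissible tuples
-/

set_option autoImplicit false

namespace Pool.Agent.F0f91f8.FC

open scoped BigOperators

namespace XMs

/-- local weight of an exponent vector -/
noncomputable def lw (p : ℕ) (v : Fin 4 → ℕ) : ℝ :=
  if v = 0 then 1 - (om p : ℝ) / p
  else (if v 3 = 0 then 1 else (rho p : ℝ)) / (p : ℝ) ^ (∑ j, v j)

/-- local exponent vector of a tuple -/
def loc (s : Fin 4 → ℕ) (p : ℕ) : Fin 4 → ℕ := fun j => (s j).factorization p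

/-- the exponent vectors with at most one nonzero entry, of size at most `X` -/
def TT (X : ℕ) : Finset (Fin 4 → ℕ) :=
  insert 0 ((Finset.univ ×ˢ Finset.Icc 1 X).image fun q : Fin 4 × ℕ => Pi.single q.1 q.2)

lemma om_le (hRh : StRh) {p : ℕ} (hp : p.Prime) : om p ≤ 5 := by
  have := hRh p hp
  unfold om; omega

lemma lw_nonneg (hRh : StRh) {p : ℕ} (hp : p.Prime) (h10 : 10 < p) (v : Fin 4 → ℕ) :
    0 ≤ lw p v := by
  unfold lw
  split_ifs
  · have h1 : (om p : ℝ) ≤ 5 := by exact_mod_cast om_le hRh hp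
    have h2 : (10 : ℝ) < p := by exact_mod_cast h10
    rw [sub_nonneg, div_le_one (by linarith)]
    linarith
  · positivity
  · positivity

lemma geo {p : ℝ} (hp : 1 < p) (X : ℕ) :
    ∑ e ∈ Finset.Icc 1 X, 1 / p ^ e = (1 - 1 / p ^ X) / (p - 1) := by
  have h1 : p - 1 ≠ 0 := by linarith
  have h0 : p ≠ 0 := by linarith
  induction X with
  | zero => simp
  | succ X ih =>
    rw [Finset.sum_Icc_succ_top (by omega), ih]
    field_simp
    ring

lemma sum_lw (hRh : StRh) {p : ℕ} (hp : p.Prime) (h10 : 10 < p) (X : ℕ) :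
    ∑ v ∈ TT X, lw p v ≤ 1 + 5 / ((p : ℝ) * (p - 1)) := by
  classical
  have h2 : (10 : ℝ) < p := by exact_mod_cast h10
  have hp0 : (p : ℝ) ≠ 0 := by linarith
  have hp1 : (p : ℝ) - 1 ≠ 0 := by linarith
  unfold TT
  have hnot : (0 : Fin 4 → ℕ) ∉ ((Finset.univ ×ˢ Finset.Icc 1 X).image
      fun q : Fin 4 × ℕ => (Pi.single q.1 q.2 : Fin 4 → ℕ)) := by
    rw [Finset.mem_image]
    rintro ⟨⟨j, e⟩, hq, h⟩
    have h3 := congrFun h j
    simp only [Pi.single_eq_same, Pi.zero_apply] at h3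
    rw [Finset.mem_product, Finset.mem_Icc] at hq
    have := hq.2.1
    simp only at this
    omega
  rw [Finset.sum_insert hnot]
  have hinj : Set.InjOn (fun q : Fin 4 × ℕ => (Pi.single q.1 q.2 : Fin 4 → ℕ))
      ((Finset.univ ×ˢ Finset.Icc 1 X : Finset (Fin 4 × ℕ)) : Set (Fin 4 × ℕ)) := by
    rintro ⟨j, e⟩ hq ⟨j', e'⟩ hq' h
    rw [Finset.mem_coe, Finset.mem_product, Finset.mem_Icc] at hq hq'
    have he : 1 ≤ e := hq.2.1
    have h3 := congrFun h j
    simp only [Pi.single_eq_same] at h3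
    by_cases hj : j = j'
    · subst hj
      simp only [Pi.single_eq_same] at h3
      rw [h3]
    · rw [Pi.single_eq_of_ne hj] at h3
      omega
  rw [Finset.sum_image hinj, Finset.sum_product]
  have h3 : ∀ j : Fin 4, ∑ e ∈ Finset.Icc 1 X, lw p (Pi.single j e) =
      (if j = 3 then (rho p : ℝ) else 1) * ((1 - 1 / (p : ℝ) ^ X) / (p - 1)) := by
    intro j
    rw [← geo (by linarith : (1 : ℝ) < p) X, Finset.mul_sum]
    refine Finset.sum_congr rfl fun e he => ?_
    rw [Finset.mem_Icc] at he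
    have hne : (Pi.single j e : Fin 4 → ℕ) ≠ 0 := by
      intro h
      have h4 := congrFun h j
      simp only [Pi.single_eq_same, Pi.zero_apply] at h4
      omega
    have hsum : ∑ i, (Pi.single j e : Fin 4 → ℕ) i = e := by
      rw [Finset.sum_pi_single']
      simp
    unfold lw
    rw [if_neg hne, hsum]
    by_cases hj : j = 3
    · subst hj
      rw [if_pos rfl, Pi.single_eq_same, if_neg (by omega)]
      ring
    · rw [if_neg hj, Pi.single_eq_of_ne (Ne.symm hj), if_pos rfl]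
      ring
  simp_rw [h3]
  rw [Fin.sum_univ_four]
  have h01 : (0 : Fin 4) ≠ 3 := by decide
  have h11 : (1 : Fin 4) ≠ 3 := by decide
  have h21 : (2 : Fin 4) ≠ 3 := by decide
  rw [if_neg h01, if_neg h11, if_neg h21, if_pos rfl]
  have hlw0 : lw p 0 = 1 - (om p : ℝ) / p := by
    unfold lw; rw [if_pos rfl]
  rw [hlw0]
  have hom : (om p : ℝ) = 3 + rho p := by unfold om; push_cast; ring
  have hom5 : (om p : ℝ) ≤ 5 := by exact_mod_cast om_le hRh hp
  have hpow : 0 ≤ 1 / (p : ℝ) ^ X := by positivity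
  have h5 : 1 * ((1 - 1 / (p : ℝ) ^ X) / (p - 1)) + 1 * ((1 - 1 / (p : ℝ) ^ X) / (p - 1)) +
      1 * ((1 - 1 / (p : ℝ) ^ X) / (p - 1)) + (rho p : ℝ) * ((1 - 1 / (p : ℝ) ^ X) / (p - 1)) =
      (om p : ℝ) * ((1 - 1 / (p : ℝ) ^ X) / (p - 1)) := by
    rw [hom]; ring
  rw [h5]
  have h6 : (1 - 1 / (p : ℝ) ^ X) / (p - 1) ≤ 1 / (p - 1) := by
    apply div_le_div_of_nonneg_right _ (by linarith)
    linarith
  have h7 : (om p : ℝ) * ((1 - 1 / (p : ℝ) ^ X) / (p - 1)) ≤ (om p : ℝ) * (1 / (p - 1)) :=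
    mul_le_mul_of_nonneg_left h6 (by positivity)
  have h8 : 1 - (om p : ℝ) / p + (om p : ℝ) * (1 / (p - 1)) = 1 + om p / ((p : ℝ) * (p - 1)) := by
    field_simp
    ring
  have h9 : (om p : ℝ) / ((p : ℝ) * (p - 1)) ≤ 5 / ((p : ℝ) * (p - 1)) := by
    apply div_le_div_of_nonneg_right hom5
    apply mul_nonneg <;> linarith
  linarith

lemma tele {w y : ℕ} (hw : 1 ≤ w) (hwy : w ≤ y) :
    ∑ m ∈ Finset.Ioc w y, 5 / ((m : ℝ) * (m - 1)) = 5 / w - 5 / y := by
  induction y, hwy using Nat.le_induction with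
  | base => simp
  | succ y hy ih =>
    rw [Finset.sum_Ioc_succ_top (by omega), ih]
    have h1 : (w : ℝ) ≠ 0 := by exact_mod_cast (by omega : w ≠ 0)
    have h2 : (y : ℝ) ≠ 0 := by exact_mod_cast (by omega : y ≠ 0)
    have h3 : (y : ℝ) + 1 ≠ 0 := by positivity
    push_cast
    rw [add_sub_cancel_right]
    field_simp
    ring

lemma prod_le {w y N : ℕ} (hw : 10 ≤ w) :
    ∏ p ∈ PN w y N, (1 + 5 / ((p : ℝ) * (p - 1))) ≤ 2 := by
  have hmem : ∀ p ∈ PN w y N, w < p ∧ p ≤ y := by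
    intro p hp
    unfold PN at hp
    rw [Finset.mem_filter, Finset.mem_Icc] at hp
    exact ⟨hp.2.2.1, hp.1.2⟩
  have h1 : ∏ p ∈ PN w y N, (1 + 5 / ((p : ℝ) * (p - 1))) ≤
      Real.exp (∑ p ∈ PN w y N, 5 / ((p : ℝ) * (p - 1))) := by
    rw [Real.exp_sum]
    refine Finset.prod_le_prod (fun p hp => ?_) (fun p _ => ?_)
    · have h2 : (10 : ℝ) < p := by exact_mod_cast lt_of_le_of_lt hw (hmem p hp).1
      have h3 : (0 : ℝ) ≤ (p : ℝ) * (p - 1) := mul_nonneg (by linarith) (by linarith)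
      positivity
    · rw [add_comm]
      exact Real.add_one_le_exp _
  have h2 : ∑ p ∈ PN w y N, 5 / ((p : ℝ) * (p - 1)) ≤ 1 / 2 := by
    rcases le_or_gt w y with hwy | hwy
    · have h3 : PN w y N ⊆ Finset.Ioc w y := by
        intro p hp
        rw [Finset.mem_Ioc]
        exact hmem p hp
      have h4 : ∑ p ∈ PN w y N, 5 / ((p : ℝ) * (p - 1)) ≤
          ∑ p ∈ Finset.Ioc w y, 5 / ((p : ℝ) * (p - 1)) := by
        refine Finset.sum_le_sum_of_subset_of_nonneg h3 fun p hp _ => ?_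
        rw [Finset.mem_Ioc] at hp
        have h5 : (10 : ℝ) < p := by exact_mod_cast lt_of_le_of_lt hw hp.1
        have h6 : (0 : ℝ) ≤ (p : ℝ) * (p - 1) := mul_nonneg (by linarith) (by linarith)
        positivity
      rw [tele (by omega) hwy] at h4
      have h5 : (10 : ℝ) ≤ w := by exact_mod_cast hw
      have h6 : (5 : ℝ) / w ≤ 5 / 10 := by
        apply div_le_div_of_nonneg_left (by norm_num) (by norm_num) h5
      have h7 : (0 : ℝ) ≤ 5 / y := by positivity
      linarith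
    · have h3 : PN w y N = ∅ := by
        rw [Finset.eq_empty_iff_forall_notMem]
        intro p hp
        have := hmem p hp
        omega
      rw [h3]
      norm_num
  have h3 : Real.exp (1 / 2) ≤ 2 := by
    have h4 : Real.exp (1 / 2) ^ 2 = Real.exp 1 := by
      rw [← Real.exp_nat_mul]; norm_num
    have h5 := Real.exp_one_lt_d9
    nlinarith [Real.exp_pos (1 / 2 : ℝ)]
  exact h1.trans ((Real.exp_le_exp.mpr h2).trans h3)

lemma mem_PN {w y N p : ℕ} : p ∈ PN w y N ↔ p.Prime ∧ w < p ∧ p ≤ y ∧ ¬ p ∣ N := by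
  unfold PN
  rw [Finset.mem_filter, Finset.mem_Icc]
  constructor
  · rintro ⟨h1, h2, h3, h4⟩; exact ⟨h2, h3, h1.2, h4⟩
  · rintro ⟨h1, h2, h3, h4⟩; exact ⟨⟨h1.one_lt.le, h3⟩, h1, h2, h4⟩

lemma prime_mem {w y n : ℕ} {s : Fin 4 → ℕ} (hs : AdmS w y n s) {p : ℕ} (hp : p.Prime) {j : Fin 4}
    (h : p ∣ s j) : p ∈ PN w y n := by
  obtain ⟨h1, h2, h3, h4⟩ := hs
  obtain ⟨h5, h6⟩ := h3 j p hp h
  refine mem_PN.mpr ⟨hp, h5, h6, fun h7 => ?_⟩
  have h8 := Nat.dvd_gcd h h7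
  rw [(h4 j : Nat.gcd _ _ = 1)] at h8
  exact hp.one_lt.ne' (Nat.dvd_one.mp h8)

lemma loc_mem {w y n X : ℕ} {s : Fin 4 → ℕ} (hs : AdmS w y n s) (hX : ∀ j, s j ≤ X) {p : ℕ}
    (hp : p.Prime) : loc s p ∈ TT X := by
  classical
  unfold TT
  rw [Finset.mem_insert]
  by_cases h0 : ∃ j, p ∣ s j
  · obtain ⟨j, hj⟩ := h0
    right
    rw [Finset.mem_image]
    have hsj : s j ≠ 0 := (hs.1 j).ne'
    refine ⟨(j, (s j).factorization p), ?_, ?_⟩
    · rw [Finset.mem_product, Finset.mem_Icc]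
      refine ⟨Finset.mem_univ _, ?_, ?_⟩
      · exact hp.factorization_pos_of_dvd hsj hj
      · exact ((Nat.factorization_lt p hsj).trans_le (hX j)).le
    · funext i
      change (Pi.single j ((s j).factorization p) : Fin 4 → ℕ) i = (s i).factorization p
      by_cases hi : i = j
      · subst hi; rw [Pi.single_eq_same]
      · rw [Pi.single_eq_of_ne hi]
        symm
        apply Nat.factorization_eq_zero_of_not_dvd
        intro h
        have h8 := Nat.dvd_gcd h hj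
        rw [(hs.2.1 i j hi : Nat.gcd _ _ = 1)] at h8
        exact hp.one_lt.ne' (Nat.dvd_one.mp h8)
  · left
    funext i
    apply Nat.factorization_eq_zero_of_not_dvd
    exact fun h => h0 ⟨i, h⟩

lemma Wt_eq {w y n : ℕ} {s : Fin 4 → ℕ} (hs : AdmS w y n s) :
    Wt w y n s = ∏ p ∈ PN w y n, lw p (loc s p) := by
  classical
  have hs0 : ∀ j, s j ≠ 0 := fun j => (hs.1 j).ne'
  set S : ℕ := ∏ j, s j with hS
  have hS0 : S ≠ 0 := Finset.prod_ne_zero_iff.mpr fun j _ => hs0 j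
  have hdvd : ∀ p : ℕ, p.Prime → (p ∣ S ↔ ∃ j, p ∣ s j) := by
    intro p hp
    rw [hS, hp.prime.dvd_finset_prod_iff]
    simp
  rw [← Finset.prod_filter_mul_prod_filter_not (PN w y n) (fun p => p ∣ S)]
  have e1 : (PN w y n).filter (fun p => ¬ p ∣ S) = PN w y (S * n) := by
    ext p
    rw [Finset.mem_filter, mem_PN, mem_PN]
    constructor
    · rintro ⟨⟨h1, h2, h3, h4⟩, h5⟩
      refine ⟨h1, h2, h3, fun h => ?_⟩
      rcases h1.dvd_mul.mp h with h | h
      · exact h5 h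
      · exact h4 h
    · rintro ⟨h1, h2, h3, h4⟩
      exact ⟨⟨h1, h2, h3, fun h => h4 (h.mul_left _)⟩, fun h => h4 (h.mul_right _)⟩
  have e2 : (PN w y n).filter (fun p => p ∣ S) = S.primeFactors := by
    ext p
    rw [Finset.mem_filter, Nat.mem_primeFactors]
    constructor
    · rintro ⟨h1, h2⟩
      exact ⟨(mem_PN.mp h1).1, h2, hS0⟩
    · rintro ⟨h1, h2, h3⟩
      obtain ⟨j, hj⟩ := (hdvd p h1).mp h2
      exact ⟨prime_mem hs h1 hj, h2⟩
  rw [e1, e2]
  have e3 : ∏ p ∈ PN w y (S * n), lw p (loc s p) =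
      ∏ p ∈ PN w y (S * n), (1 - (om p : ℝ) / p) := by
    refine Finset.prod_congr rfl fun p hp => ?_
    obtain ⟨h1, h2, h3, h4⟩ := mem_PN.mp hp
    unfold lw
    rw [if_pos]
    funext j
    apply Nat.factorization_eq_zero_of_not_dvd
    exact fun h => h4 (((hdvd p h1).mpr ⟨j, h⟩).mul_right _)
  have e4 : ∏ p ∈ S.primeFactors, lw p (loc s p) =
      (∏ p ∈ S.primeFactors, (if loc s p 3 = 0 then 1 else (rho p : ℝ))) /
        ∏ p ∈ S.primeFactors, (p : ℝ) ^ (∑ j, loc s p j) := by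
    rw [← Finset.prod_div_distrib]
    refine Finset.prod_congr rfl fun p hp => ?_
    obtain ⟨h1, h2, h3⟩ := Nat.mem_primeFactors.mp hp
    obtain ⟨j, hj⟩ := (hdvd p h1).mp h2
    unfold lw
    rw [if_neg]
    intro h
    have h4 : (s j).factorization p = 0 := congrFun h j
    have h5 := h1.factorization_pos_of_dvd (hs0 j) hj
    omega
  have e5 : ∏ p ∈ S.primeFactors, (p : ℝ) ^ (∑ j, loc s p j) = (S : ℝ) := by
    have h1 := Nat.factorization_prod_pow_eq_self hS0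
    rw [Nat.prod_factorization_eq_prod_primeFactors] at h1
    conv_rhs => rw [← h1]
    push_cast
    refine Finset.prod_congr rfl fun p _ => ?_
    congr 1
    rw [hS, Nat.factorization_prod fun j _ => hs0 j, Finsupp.finset_sum_apply]
    rfl
  have e6 : ∏ p ∈ S.primeFactors, (if loc s p 3 = 0 then 1 else (rho p : ℝ)) =
      (rho4 (s 3) : ℝ) := by
    unfold rho4
    push_cast
    have h1 : (s 3).primeFactors = S.primeFactors.filter fun p => ¬ loc s p 3 = 0 := by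
      ext p
      rw [Finset.mem_filter, Nat.mem_primeFactors, Nat.mem_primeFactors]
      constructor
      · rintro ⟨h1, h2, h3⟩
        refine ⟨⟨h1, (hdvd p h1).mpr ⟨3, h2⟩, hS0⟩, ?_⟩
        have h5 := h1.factorization_pos_of_dvd h3 h2
        exact h5.ne'
      · rintro ⟨⟨h1, h2, h3⟩, h4⟩
        refine ⟨h1, ?_, hs0 3⟩
        by_contra h5
        exact h4 (Nat.factorization_eq_zero_of_not_dvd h5)
    rw [h1, Finset.prod_filter]
    refine Finset.prod_congr rfl fun p _ => ?_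
    by_cases h : loc s p 3 = 0
    · rw [if_pos h, if_neg (not_not.mpr h)]
    · rw [if_neg h, if_pos h]
  rw [e3, e4, e5, e6]
  unfold Wt
  rw [← hS]

end XMs

open XMs in
theorem pr_Ms (hRh : StRh) : StMs := by
  classical
  intro w y n X hw
  set P := PN w y n with hP
  have hPp : ∀ p ∈ P, p.Prime ∧ 10 < p := fun p hp =>
    ⟨(mem_PN.mp hp).1, lt_of_le_of_lt hw (mem_PN.mp hp).2.1⟩
  have hSS : ∀ s ∈ SS w y n X, AdmS w y n s ∧ ∀ j, s j ≤ X := by
    intro s hs
    unfold SS at hs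
    rw [Finset.mem_filter, Fintype.mem_piFinset] at hs
    exact ⟨hs.2.1, fun j => Nat.lt_succ_iff.mp (Finset.mem_range.mp (hs.1 j))⟩
  let φ : (Fin 4 → ℕ) → ∀ p ∈ P, Fin 4 → ℕ := fun s p _ => loc s p
  let g : (∀ p ∈ P, Fin 4 → ℕ) → ℝ := fun x => ∏ p ∈ P.attach, lw p.1 (x p.1 p.2)
  have h1 : ∑ s ∈ SS w y n X, Wt w y n s = ∑ s ∈ SS w y n X, g (φ s) := by
    refine Finset.sum_congr rfl fun s hs => ?_
    rw [Wt_eq (hSS s hs).1]
    change _ = ∏ p ∈ P.attach, lw p.1 (loc s p.1)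
    rw [Finset.prod_attach P fun p => lw p (loc s p)]
  have hinj : Set.InjOn φ (SS w y n X : Set (Fin 4 → ℕ)) := by
    intro s hs s' hs' h
    obtain ⟨ha, -⟩ := hSS s hs
    obtain ⟨ha', -⟩ := hSS s' hs'
    funext j
    apply Nat.eq_of_factorization_eq (ha.1 j).ne' (ha'.1 j).ne'
    intro p
    by_cases hp : p.Prime
    · by_cases hpP : p ∈ P
      · have h2 := congrFun (congrFun h p) hpP
        exact congrFun h2 j
      · have h2 : ¬ p ∣ s j := fun h3 => hpP (prime_mem ha hp h3)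
        have h3 : ¬ p ∣ s' j := fun h3 => hpP (prime_mem ha' hp h3)
        rw [Nat.factorization_eq_zero_of_not_dvd h2, Nat.factorization_eq_zero_of_not_dvd h3]
    · rw [Nat.factorization_eq_zero_of_not_prime _ hp, Nat.factorization_eq_zero_of_not_prime _ hp]
  have hgn : ∀ x, 0 ≤ g x := fun x =>
    Finset.prod_nonneg fun p _ => lw_nonneg hRh (hPp p.1 p.2).1 (hPp p.1 p.2).2 _
  have h2 : ∑ s ∈ SS w y n X, g (φ s) ≤ ∑ x ∈ P.pi (fun _ => TT X), g x := by
    rw [← Finset.sum_image (f := g) (g := φ) hinj]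
    refine Finset.sum_le_sum_of_subset_of_nonneg ?_ fun x _ _ => hgn x
    intro x hx
    obtain ⟨s, hs, rfl⟩ := Finset.mem_image.mp hx
    rw [Finset.mem_pi]
    intro p hp
    exact loc_mem (hSS s hs).1 (hSS s hs).2 (hPp p hp).1
  have h3 : ∑ x ∈ P.pi (fun _ => TT X), g x = ∏ p ∈ P, ∑ v ∈ TT X, lw p v :=
    (Finset.prod_sum P (fun _ => TT X) fun p v => lw p v).symm
  have h4 : ∏ p ∈ P, ∑ v ∈ TT X, lw p v ≤ ∏ p ∈ P, (1 + 5 / ((p : ℝ) * (p - 1))) :=
    Finset.prod_le_prod (fun p hp => Finset.sum_nonneg fun v _ =>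
      lw_nonneg hRh (hPp p hp).1 (hPp p hp).2 v) fun p hp => sum_lw hRh (hPp p hp).1 (hPp p hp).2 X
  rw [h1]
  exact h2.trans (h3.le.trans (h4.trans (prod_le hw)))

end Pool.Agent.F0f91f8.FC
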