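import Pool.Agent.Work.MP_0f91f8_co.FC.StmtsS

/-!
# Block FC, module S, item Nb (helper85): the large sieve in the residue classes of a tuple
-/

set_option autoImplicit false

namespace Pool.Agent.F0f91f8.FC

open Filter Topology ComplexConjugate
open scoped BigOperators

namespace XNb

theorem Lf_modEq {m κ n a b : ℕ} (h : a ≡ b [MOD m]) (j : Fin 4) :
    Lf κ n a j ≡ Lf κ n b j [MOD m] := by
  fin_cases j
  · exact h
  · exact h.add_right _
  · exact h.add_right _
  · exact ((h.add_right _).pow 2).add_right _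

theorem prod_modEq {m κ n a b : ℕ} (h : a ≡ b [MOD m]) :
    (∏ j, Lf κ n a j) ≡ ∏ j, Lf κ n b j [MOD m] := by
  have h1 : ∀ t : Finset (Fin 4), (∏ j ∈ t, Lf κ n a j) ≡ ∏ j ∈ t, Lf κ n b j [MOD m] := by
    intro t
    induction t using Finset.induction_on with
    | empty => rfl
    | insert i t hi ih =>
      rw [Finset.prod_insert hi, Finset.prod_insert hi]
      exact (Lf_modEq h i).mul ih
  exact h1 _

/-- the sieve bound for one residue class `r` modulo `S` -/
theorem fiber (hRh : StRh) (hRc : StRc) (hLS : StLSb) {w y κ n c X F S r : ℕ} (hw : 10 ≤ w)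
    (hκ : Adm w κ) (hF : 0 < F) (hS : 0 < S) (V : Finset ℕ)
    (hV : ∀ v ∈ V, v ≤ X ∧ v % S = r ∧ ∀ p ∈ PN w y (S * n),
      ¬ p ∣ ∏ j, Lf κ n (w.factorial * v + c) j) :
    (V.card : ℝ) * Gs (PN w y (S * n)) om F ≤
      (X : ℝ) / (S : ℝ) + 1 + ((F ^ 2 : ℕ) : ℝ) * (harmonic (F ^ 2) : ℝ) := by
  classical
  set Z : Finset ℕ := V.image fun v => v / S with hZ
  have hcard : Z.card = V.card := by
    refine Finset.card_image_of_injOn ?_
    intro v hv v' hv' h
    have e1 := Nat.div_add_mod v S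
    have e2 := Nat.div_add_mod v' S
    rw [(hV v hv).2.1] at e1
    rw [(hV v' hv').2.1] at e2
    have h' : v / S = v' / S := h
    rw [← e1, ← e2, h']
  have h1 := hLS (PN w y (S * n)) om Z (X / S + 1) F ?_ ?_ hF
  · rw [hcard] at h1
    refine h1.trans ?_
    have h2 : ((X / S : ℕ) : ℝ) ≤ (X : ℝ) / (S : ℝ) := Nat.cast_div_le
    push_cast
    linarith
  · intro p hp
    have hp' := (Finset.mem_filter.1 hp).2
    obtain ⟨hpp, hwp, hpn⟩ := hp'
    have h10 : 10 < p := lt_of_le_of_lt hw hwp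
    have hom : om p < p := by
      have := hRh p hpp
      unfold om
      omega
    refine ⟨hpp, hom, ?_⟩
    have hpS : ¬ p ∣ S := fun h => hpn (h.mul_right n)
    have hpn' : ¬ p ∣ n := fun h => hpn (h.mul_left S)
    have hpκ : ¬ p ∣ κ := fun h => absurd (hκ.2.2 p hpp h) (not_le.2 hwp)
    have hpA : ¬ p ∣ w.factorial * S := by
      rw [hpp.dvd_mul, not_or]
      exact ⟨fun h => absurd ((hpp.dvd_factorial).1 h) (not_le.2 hwp), hpS⟩
    have hcount := hRc p κ n (w.factorial * S) (w.factorial * r + c) hpp h10 hpA hpκ hpn'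
    rw [← hcount, ← Finset.card_union_of_disjoint]
    · refine (Finset.card_le_card ?_).trans (Finset.card_range p).le
      intro t ht
      rcases Finset.mem_union.1 ht with ht | ht
      · obtain ⟨z, -, rfl⟩ := Finset.mem_image.1 ht
        exact Finset.mem_range.2 (Nat.mod_lt _ hpp.pos)
      · exact (Finset.mem_filter.1 ht).1
    · rw [Finset.disjoint_left]
      intro t ht ht'
      obtain ⟨z, hz, rfl⟩ := Finset.mem_image.1 ht
      obtain ⟨v, hv, rfl⟩ := Finset.mem_image.1 hz
      obtain ⟨-, hr, hv3⟩ := hV v hv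
      refine hv3 p hp ?_
      have ht2 := (Finset.mem_filter.1 ht').2
      have e1 : w.factorial * v + c =
          w.factorial * S * (v / S) + (w.factorial * r + c) := by
        have e2 := Nat.div_add_mod v S
        rw [hr] at e2
        calc w.factorial * v + c = w.factorial * (S * (v / S) + r) + c := by rw [e2]
          _ = _ := by ring
      rw [e1]
      have hmod : w.factorial * S * (v / S % p) + (w.factorial * r + c) ≡
          w.factorial * S * (v / S) + (w.factorial * r + c) [MOD p] :=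
        ((Nat.mod_modEq _ _).mul_left _).add_right _
      exact ((prod_modEq (κ := κ) (n := n) hmod).dvd_iff dvd_rfl).1 ht2
  · intro z hz
    obtain ⟨v, hv, rfl⟩ := Finset.mem_image.1 hz
    exact Nat.lt_succ_of_le (Nat.div_le_div_right (hV v hv).1)

end XNb

open XNb in
theorem pr_Nb (hRh : StRh) (hRc : StRc) (hRt : StRt) (hLS : StLSb) : StNb := by
  classical
  intro w y κ n c X F s hw hκ hn hF hs
  set S : ℕ := ∏ j, s j with hSdef
  have hS : 0 < S := Finset.prod_pos fun j _ => hs.1 j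
  set R : Finset ℕ :=
    (Finset.range S).filter fun v => ∀ j, s j ∣ Lf κ n (w.factorial * v + c) j with hR
  have hRcard : R.card ≤ rho4 (s 3) := hRt w y κ n c s hw hκ hn hs
  have hmem : ∀ v ∈ Ns w y κ n c X s, v ≤ X ∧ (∀ j, s j ∣ Lf κ n (w.factorial * v + c) j) ∧
      ∀ p ∈ PN w y (S * n), ¬ p ∣ ∏ j, Lf κ n (w.factorial * v + c) j := by
    intro v hv
    have h := Finset.mem_filter.1 hv
    exact ⟨(Finset.mem_Icc.1 h.1).2, h.2.1, h.2.2⟩
  have hmaps : ∀ v ∈ Ns w y κ n c X s, v % S ∈ R := by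
    intro v hv
    refine Finset.mem_filter.2 ⟨Finset.mem_range.2 (Nat.mod_lt _ hS), fun j => ?_⟩
    have hdvd : s j ∣ S := Finset.dvd_prod_of_mem s (Finset.mem_univ j)
    have hmod : w.factorial * (v % S) + c ≡ w.factorial * v + c [MOD S] :=
      ((Nat.mod_modEq _ _).mul_left _).add_right _
    exact ((Lf_modEq (κ := κ) (n := n) hmod j).dvd_iff hdvd).2 ((hmem v hv).2.1 j)
  set B : ℝ := (X : ℝ) / (S : ℝ) + 1 + ((F ^ 2 : ℕ) : ℝ) * (harmonic (F ^ 2) : ℝ) with hB
  have hB0 : 0 ≤ B := by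
    have : (0 : ℝ) ≤ (harmonic (F ^ 2) : ℝ) := by
      have h0 : (0 : ℚ) ≤ harmonic (F ^ 2) := by
        unfold harmonic
        positivity
      exact_mod_cast h0
    positivity
  have hfib : ∀ r ∈ R, (((Ns w y κ n c X s).filter fun v => v % S = r).card : ℝ) *
      Gs (PN w y (S * n)) om F ≤ B := by
    intro r _
    refine fiber hRh hRc hLS (c := c) (r := r) hw hκ hF hS _ fun v hv => ?_
    have h := Finset.mem_filter.1 hv
    exact ⟨(hmem v h.1).1, h.2, (hmem v h.1).2.2⟩
  have hsum : ((Ns w y κ n c X s).card : ℝ) =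
      ∑ r ∈ R, (((Ns w y κ n c X s).filter fun v => v % S = r).card : ℝ) := by
    rw [Finset.card_eq_sum_card_fiberwise hmaps]
    push_cast
    rfl
  rw [hsum, Finset.sum_mul]
  refine (Finset.sum_le_sum hfib).trans ?_
  rw [Finset.sum_const, nsmul_eq_mul]
  exact mul_le_mul_of_nonneg_right (by exact_mod_cast hRcard) hB0

end Pool.Agent.F0f91f8.FC
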