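import Pool.Agent.Work.MP_0f91f8_co.FC.StmtsS

/-! Item Rc (helper15): the number of residue classes removed by `p`. -/

set_option autoImplicit false

namespace Pool.Agent.F0f91f8.FC

open Filter Topology ComplexConjugate
open scoped BigOperators

namespace XRc

theorem card_cast (p : ℕ) [Fact p.Prime] (Q : ZMod p → Prop) [DecidablePred Q] :
    ((Finset.range p).filter fun t : ℕ => Q ((t : ℕ) : ZMod p)).card =
      (Finset.univ.filter Q).card := by
  refine Finset.card_nbij' (fun t : ℕ => (t : ZMod p)) (fun x => x.val) ?_ ?_ ?_ ?_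
  · intro t ht
    exact Finset.mem_filter.2 ⟨Finset.mem_univ _, (Finset.mem_filter.1 ht).2⟩
  · intro x hx
    refine Finset.mem_filter.2 ⟨Finset.mem_range.2 (ZMod.val_lt x), ?_⟩
    rw [ZMod.natCast_zmod_val]
    exact (Finset.mem_filter.1 hx).2
  · intro t ht
    exact ZMod.val_cast_of_lt (Finset.mem_range.1 (Finset.mem_filter.1 ht).1)
  · intro x _
    exact ZMod.natCast_zmod_val x

theorem card_aff (p : ℕ) [Fact p.Prime] (A c : ZMod p) (hA : A ≠ 0) (Q : ZMod p → Prop)
    [DecidablePred Q] :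
    (Finset.univ.filter fun t => Q (A * t + c)).card = (Finset.univ.filter Q).card := by
  refine Finset.card_nbij' (fun t => A * t + c) (fun a => A⁻¹ * (a - c)) ?_ ?_ ?_ ?_
  · intro t ht
    exact Finset.mem_filter.2 ⟨Finset.mem_univ _, (Finset.mem_filter.1 ht).2⟩
  · intro a ha
    refine Finset.mem_filter.2 ⟨Finset.mem_univ _, ?_⟩
    have e : A * (A⁻¹ * (a - c)) + c = a := by
      rw [← mul_assoc, mul_inv_cancel₀ hA]
      ring
    rw [e]
    exact (Finset.mem_filter.1 ha).2
  · intro t _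
    simp only
    rw [add_sub_cancel_right, ← mul_assoc, inv_mul_cancel₀ hA, one_mul]
  · intro a _
    simp only
    rw [← mul_assoc, mul_inv_cancel₀ hA]
    ring

theorem core (p : ℕ) [Fact p.Prime] (h2 : (2 : ZMod p) ≠ 0) (N : ZMod p) (hN : N ≠ 0) :
    (Finset.univ.filter fun a : ZMod p =>
      a * (a + N) * (a + 2 * N) * ((a + N) ^ 2 + N ^ 2) = 0).card =
      3 + (Finset.univ.filter fun x : ZMod p => x ^ 2 + 1 = 0).card := by
  have h1 : (Finset.univ.filter fun a : ZMod p =>
      a * (a + N) * (a + 2 * N) * ((a + N) ^ 2 + N ^ 2) = 0) =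
      ({0, -N, -(2 * N)} : Finset (ZMod p)) ∪
        (Finset.univ.filter fun x : ZMod p => x ^ 2 + 1 = 0).image (fun x => N * (x - 1)) := by
    ext a
    simp only [Finset.mem_filter, Finset.mem_univ, true_and, Finset.mem_union, Finset.mem_insert,
      Finset.mem_singleton, Finset.mem_image, mul_eq_zero]
    constructor
    · rintro (((h | h) | h) | h)
      · exact Or.inl (Or.inl h)
      · exact Or.inl (Or.inr (Or.inl (eq_neg_of_add_eq_zero_left h)))
      · exact Or.inl (Or.inr (Or.inr (eq_neg_of_add_eq_zero_left h)))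
      · refine Or.inr ⟨a / N + 1, ?_, ?_⟩
        · have h3 : (a / N + 1) ^ 2 + 1 = ((a + N) ^ 2 + N ^ 2) / N ^ 2 := by
            field_simp
          rw [h3, h, zero_div]
        · field_simp
          ring
    · rintro ((h | h | h) | ⟨x, hx, h⟩)
      · exact Or.inl (Or.inl (Or.inl h))
      · exact Or.inl (Or.inl (Or.inr (by rw [h]; ring)))
      · exact Or.inl (Or.inr (by rw [h]; ring))
      · refine Or.inr ?_
        have h3 : (a + N) ^ 2 + N ^ 2 = N ^ 2 * (x ^ 2 + 1) := by
          rw [← h]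
          ring
        rw [h3, hx, mul_zero]
  have h3 : Disjoint ({0, -N, -(2 * N)} : Finset (ZMod p))
      ((Finset.univ.filter fun x : ZMod p => x ^ 2 + 1 = 0).image (fun x => N * (x - 1))) := by
    rw [Finset.disjoint_left]
    intro a ha hb
    obtain ⟨x, hx, rfl⟩ := Finset.mem_image.1 hb
    have hx' : x ^ 2 + 1 = 0 := (Finset.mem_filter.1 hx).2
    simp only [Finset.mem_insert, Finset.mem_singleton] at ha
    rcases ha with h | h | h
    · have h4 : x = 1 := by
        rcases mul_eq_zero.1 h with h5 | h5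
        · exact absurd h5 hN
        · exact sub_eq_zero.1 h5
      rw [h4] at hx'
      exact h2 (by rw [← hx']; ring)
    · have h4 : x = 0 := by
        have h5 : N * x = 0 := by linear_combination h
        rcases mul_eq_zero.1 h5 with h6 | h6
        · exact absurd h6 hN
        · exact h6
      rw [h4] at hx'
      simp at hx'
    · have h4 : x = -1 := by
        have h5 : N * (x + 1) = 0 := by linear_combination h
        rcases mul_eq_zero.1 h5 with h6 | h6
        · exact absurd h6 hN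
        · exact eq_neg_of_add_eq_zero_left h6
      rw [h4] at hx'
      exact h2 (by rw [← hx']; ring)
  have h4 : ({0, -N, -(2 * N)} : Finset (ZMod p)).card = 3 := by
    rw [Finset.card_eq_three]
    refine ⟨0, -N, -(2 * N), ?_, ?_, ?_, rfl⟩
    · intro h
      exact hN (neg_eq_zero.1 h.symm)
    · intro h
      rcases mul_eq_zero.1 (neg_eq_zero.1 h.symm) with h5 | h5
      · exact h2 h5
      · exact hN h5
    · intro h
      have h5 : N = 0 := by linear_combination h
      exact hN h5
  rw [h1, Finset.card_union_of_disjoint h3, h4, Finset.card_image_of_injective]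
  intro x y hxy
  have h5 : N * (x - 1) = N * (y - 1) := hxy
  have h6 := mul_left_cancel₀ hN h5
  exact sub_left_injective h6

theorem rho_eq (p : ℕ) [Fact p.Prime] :
    rho p = (Finset.univ.filter fun x : ZMod p => x ^ 2 + 1 = 0).card := by
  rw [← card_cast p (fun x : ZMod p => x ^ 2 + 1 = 0), rho]
  congr 1
  refine Finset.filter_congr fun x _ => ?_
  rw [← ZMod.natCast_eq_zero_iff]
  push_cast
  rfl

theorem dvd_iff (p κ n a : ℕ) :
    p ∣ ∏ j, Lf κ n a j ↔ (a : ZMod p) * ((a : ZMod p) + (κ : ZMod p) * n) *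
      ((a : ZMod p) + 2 * ((κ : ZMod p) * n)) *
      (((a : ZMod p) + (κ : ZMod p) * n) ^ 2 + ((κ : ZMod p) * n) ^ 2) = 0 := by
  have h : ∏ j, Lf κ n a j =
      a * (a + κ * n) * (a + 2 * (κ * n)) * ((a + κ * n) ^ 2 + (κ * n) ^ 2) := by
    rw [Fin.prod_univ_four]
    rfl
  rw [h, ← ZMod.natCast_eq_zero_iff]
  push_cast
  rfl

end XRc

theorem pr_Rc : StRc := by
  intro p κ n A c hp h10 hA hκ hn
  have : Fact p.Prime := ⟨hp⟩
  have hA' : (A : ZMod p) ≠ 0 := fun h => hA ((ZMod.natCast_eq_zero_iff _ _).1 h)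
  have hκ' : (κ : ZMod p) ≠ 0 := fun h => hκ ((ZMod.natCast_eq_zero_iff _ _).1 h)
  have hn' : (n : ZMod p) ≠ 0 := fun h => hn ((ZMod.natCast_eq_zero_iff _ _).1 h)
  have h2 : (2 : ZMod p) ≠ 0 := by
    intro h
    have h3 : ((2 : ℕ) : ZMod p) = 0 := by exact_mod_cast h
    have := Nat.le_of_dvd (by norm_num) ((ZMod.natCast_eq_zero_iff _ _).1 h3)
    omega
  rw [om, XRc.rho_eq, ← XRc.core p h2 ((κ : ZMod p) * n) (mul_ne_zero hκ' hn'),
    ← XRc.card_aff p (A : ZMod p) (c : ZMod p) hA' (fun a : ZMod p =>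
      a * (a + (κ : ZMod p) * n) * (a + 2 * ((κ : ZMod p) * n)) *
        ((a + (κ : ZMod p) * n) ^ 2 + ((κ : ZMod p) * n) ^ 2) = 0), ← XRc.card_cast]
  congr 1
  refine Finset.filter_congr fun t _ => ?_
  rw [XRc.dvd_iff]
  push_cast
  rfl

end Pool.Agent.F0f91f8.FC
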