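import Pool.Agent.Work.MP_0f91f8_co.FC.StmtsS

/-!
# Block FC, item Rh: a polynomial of degree two has at most two roots modulo a prime
-/

set_option autoImplicit false

namespace Pool.Agent.F0f91f8.FC

open Filter Topology ComplexConjugate
open scoped BigOperators

/-- [Rh] `x² + 1` has at most two roots modulo a prime. -/
theorem pr_Rh : StRh := by
  intro p hp
  unfold rho
  rcases Finset.eq_empty_or_nonempty ((Finset.range p).filter fun x => p ∣ x ^ 2 + 1) with h | h
  · rw [h, Finset.card_empty]
    omega
  · obtain ⟨a, ha⟩ := h
    obtain ⟨ha1, ha2⟩ := Finset.mem_filter.1 ha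
    have ha3 := Finset.mem_range.1 ha1
    have hsub : (Finset.range p).filter (fun x => p ∣ x ^ 2 + 1) ⊆ {a, p - a} := by
      intro x hx
      obtain ⟨hx1, hx2⟩ := Finset.mem_filter.1 hx
      have hx3 := Finset.mem_range.1 hx1
      rw [Finset.mem_insert, Finset.mem_singleton]
      have h1 : ((p : ℕ) : ℤ) ∣ ((x : ℤ) - a) * ((x : ℤ) + a) := by
        have e1 : ((p : ℕ) : ℤ) ∣ (x : ℤ) ^ 2 + 1 := by exact_mod_cast hx2
        have e2 : ((p : ℕ) : ℤ) ∣ (a : ℤ) ^ 2 + 1 := by exact_mod_cast ha2
        have e3 := dvd_sub e1 e2
        have e4 : ((x : ℤ) ^ 2 + 1) - ((a : ℤ) ^ 2 + 1) = ((x : ℤ) - a) * ((x : ℤ) + a) := by ring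
        rwa [e4] at e3
      rcases (Nat.prime_iff_prime_int.1 hp).dvd_or_dvd h1 with h2 | h2
      · left
        obtain ⟨c, hc⟩ := h2
        have hc0 : c = 0 := by
          by_contra hne
          have hc1 : 1 ≤ |c| := Int.one_le_abs hne
          have e5 : |((x : ℤ) - a)| = (p : ℤ) * |c| := by
            rw [hc, abs_mul, Nat.abs_cast]
          have e6 : |((x : ℤ) - a)| < p := by
            rw [abs_lt]
            constructor <;> omega
          nlinarith
        rw [hc0, mul_zero] at hc
        omega
      · right
        rcases Nat.eq_zero_or_pos (x + a) with h0 | h0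
        · exfalso
          have e5 : a = 0 := by omega
          rw [e5] at ha2
          have e6 := Nat.le_of_dvd (by norm_num) ha2
          have := hp.two_le
          omega
        · have e7 : p ∣ x + a := by exact_mod_cast h2
          obtain ⟨c, hc⟩ := e7
          have hc1 : c < 2 := by
            by_contra hne
            have : p * 2 ≤ p * c := Nat.mul_le_mul_left p (by omega)
            omega
          have hc2 : c = 1 := by
            rcases Nat.eq_zero_or_pos c with hz | hz
            · rw [hz, mul_zero] at hc
              omega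
            · omega
          rw [hc2, mul_one] at hc
          omega
    calc _ ≤ ({a, p - a} : Finset ℕ).card := Finset.card_le_card hsub
      _ ≤ 2 := Finset.card_le_two

end Pool.Agent.F0f91f8.FC
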