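import Pool.Agent.Work.MP_0f91f8_co.FC.StmtsS

set_option autoImplicit false

namespace Pool.Agent.F0f91f8.FC

open Filter Topology ComplexConjugate
open scoped BigOperators

namespace XRt

/-- The root of `x² + 1` modulo `p` belonging to `v`. -/
noncomputable def root (N A p : ℕ) : ℕ := ZMod.val (((A : ℕ) : ZMod p) * ((N : ℕ) : ZMod p)⁻¹)

theorem root_mem (N A p : ℕ) (hp : p.Prime) (hN : ¬ p ∣ N) (h : p ∣ A ^ 2 + N ^ 2) :
    root N A p ∈ (Finset.range p).filter fun x => p ∣ x ^ 2 + 1 := by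
  haveI : Fact p.Prime := ⟨hp⟩
  rw [Finset.mem_filter, Finset.mem_range]
  refine ⟨ZMod.val_lt _, ?_⟩
  rw [← ZMod.natCast_eq_zero_iff]
  have hN0 : ((N : ℕ) : ZMod p) ≠ 0 := by
    rw [Ne, ZMod.natCast_eq_zero_iff]
    exact hN
  have hA : ((A : ℕ) : ZMod p) ^ 2 + ((N : ℕ) : ZMod p) ^ 2 = 0 := by
    have := (ZMod.natCast_eq_zero_iff (A ^ 2 + N ^ 2) p).mpr h
    push_cast at this
    exact this
  unfold root
  push_cast
  rw [ZMod.natCast_val, ZMod.cast_id']
  simp only [id]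
  have h2 : (((A : ℕ) : ZMod p) * ((N : ℕ) : ZMod p)⁻¹) ^ 2 + 1 =
      (((A : ℕ) : ZMod p) ^ 2 + ((N : ℕ) : ZMod p) ^ 2) * (((N : ℕ) : ZMod p)⁻¹) ^ 2 := by
    field_simp
  rw [h2, hA, zero_mul]

theorem root_inj (N A A' p : ℕ) (hp : p.Prime) (hN : ¬ p ∣ N) (h : root N A p = root N A' p) :
    (p : ℤ) ∣ (A : ℤ) - (A' : ℤ) := by
  haveI : Fact p.Prime := ⟨hp⟩
  have hN0 : ((N : ℕ) : ZMod p) ≠ 0 := by
    rw [Ne, ZMod.natCast_eq_zero_iff]
    exact hN
  have h1 := ZMod.val_injective p h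
  have h2 : ((A : ℕ) : ZMod p) = ((A' : ℕ) : ZMod p) := mul_right_cancel₀ (inv_ne_zero hN0) h1
  rw [← ZMod.intCast_zmod_eq_zero_iff_dvd]
  push_cast
  rw [h2, sub_self]

/-- `p ∤ κ n`. -/
theorem not_dvd (w y κ n : ℕ) (s : Fin 4 → ℕ) (hκ : Adm w κ) (hs : AdmS w y n s)
    (j : Fin 4) (p : ℕ) (hp : p.Prime) (hps : p ∣ s j) : ¬ p ∣ κ * n := by
  intro h
  rcases (Nat.Prime.dvd_mul hp).mp h with h | h
  · have h1 := hκ.2.2 p hp h
    have h2 := (hs.2.2.1 j p hp hps).1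
    omega
  · exact Nat.Prime.not_coprime_iff_dvd.mpr ⟨p, hp, hps, h⟩ (hs.2.2.2 j)

/-- `s j` is coprime to `w!`. -/
theorem cop_fact (w y n : ℕ) (s : Fin 4 → ℕ) (hs : AdmS w y n s) (j : Fin 4) :
    Nat.Coprime (s j) w.factorial := by
  by_contra h
  obtain ⟨p, hp, h1, h2⟩ := Nat.Prime.not_coprime_iff_dvd.mp h
  have h3 := (hp.dvd_factorial).mp h2
  have h4 := (hs.2.2.1 j p hp h1).1
  omega

end XRt

theorem pr_Rt : StRt := by
  intro w y κ n c s hw hκ hn hs
  have hpos := hs.1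
  have hcop := hs.2.1
  set Q : ℕ := w.factorial with hQ
  -- the map to the roots
  let f : ℕ → ∀ p ∈ (s 3).primeFactors, ℕ := fun v p _ => XRt.root (κ * n) (Q * v + c + κ * n) p
  have hcard : ((s 3).primeFactors.pi
      (fun p => (Finset.range p).filter fun x => p ∣ x ^ 2 + 1)).card = rho4 (s 3) := by
    rw [Finset.card_pi]
    rfl
  rw [← hcard]
  refine Finset.card_le_card_of_injOn f ?_ ?_
  · intro v hv
    rw [Finset.mem_coe, Finset.mem_filter] at hv
    rw [Finset.mem_coe, Finset.mem_pi]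
    intro p hp
    rw [Nat.mem_primeFactors] at hp
    refine XRt.root_mem _ _ p hp.1 (XRt.not_dvd w y κ n s hκ hs 3 p hp.1 hp.2.1) ?_
    exact hp.2.1.trans (hv.2 3)
  · intro v hv v' hv' hff
    rw [Finset.mem_coe, Finset.mem_filter, Finset.mem_range] at hv hv'
    -- every `s j` divides `Q (v - v')`
    have key : ∀ j : Fin 4, ((s j : ℕ) : ℤ) ∣ (Q : ℤ) * ((v : ℤ) - (v' : ℤ)) := by
      intro j
      have h1 := Int.natCast_dvd_natCast.mpr (hv.2 j)
      have h2 := Int.natCast_dvd_natCast.mpr (hv'.2 j)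
      fin_cases j
      · have h1' : ((s 0 : ℕ) : ℤ) ∣ ((Q * v + c : ℕ) : ℤ) := h1
        have h2' : ((s 0 : ℕ) : ℤ) ∣ ((Q * v' + c : ℕ) : ℤ) := h2
        have h3 := dvd_sub h1' h2'
        have h4 : ((Q * v + c : ℕ) : ℤ) - ((Q * v' + c : ℕ) : ℤ) = (Q : ℤ) * ((v : ℤ) - v') := by
          push_cast; ring
        rwa [h4] at h3
      · have h1' : ((s 1 : ℕ) : ℤ) ∣ ((Q * v + c + κ * n : ℕ) : ℤ) := h1
        have h2' : ((s 1 : ℕ) : ℤ) ∣ ((Q * v' + c + κ * n : ℕ) : ℤ) := h2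
        have h3 := dvd_sub h1' h2'
        have h4 : ((Q * v + c + κ * n : ℕ) : ℤ) - ((Q * v' + c + κ * n : ℕ) : ℤ) =
            (Q : ℤ) * ((v : ℤ) - v') := by
          push_cast; ring
        rwa [h4] at h3
      · have h1' : ((s 2 : ℕ) : ℤ) ∣ ((Q * v + c + 2 * (κ * n) : ℕ) : ℤ) := h1
        have h2' : ((s 2 : ℕ) : ℤ) ∣ ((Q * v' + c + 2 * (κ * n) : ℕ) : ℤ) := h2
        have h3 := dvd_sub h1' h2'
        have h4 : ((Q * v + c + 2 * (κ * n) : ℕ) : ℤ) - ((Q * v' + c + 2 * (κ * n) : ℕ) : ℤ) =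
            (Q : ℤ) * ((v : ℤ) - v') := by
          push_cast; ring
        rwa [h4] at h3
      · have h1' : ((s 3 : ℕ) : ℤ) ∣ (((Q * v + c + κ * n) ^ 2 + (κ * n) ^ 2 : ℕ) : ℤ) := h1
        have h2' : ((s 3 : ℕ) : ℤ) ∣ (((Q * v' + c + κ * n) ^ 2 + (κ * n) ^ 2 : ℕ) : ℤ) := h2
        have h3 := dvd_sub h1' h2'
        have h4 : (((Q * v + c + κ * n) ^ 2 + (κ * n) ^ 2 : ℕ) : ℤ) -
            (((Q * v' + c + κ * n) ^ 2 + (κ * n) ^ 2 : ℕ) : ℤ) =
            (((Q * v + c + κ * n : ℕ) : ℤ) + ((Q * v' + c + κ * n : ℕ) : ℤ)) *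
              ((Q : ℤ) * ((v : ℤ) - v')) := by
          push_cast; ring
        rw [h4] at h3
        have hco : IsCoprime ((s 3 : ℕ) : ℤ)
            (((Q * v + c + κ * n : ℕ) : ℤ) + ((Q * v' + c + κ * n : ℕ) : ℤ)) := by
          have hnat : Nat.Coprime (s 3) ((Q * v + c + κ * n) + (Q * v' + c + κ * n)) := by
            by_contra hnc
            obtain ⟨p, hp, hp1, hp2⟩ := Nat.Prime.not_coprime_iff_dvd.mp hnc
            have hpN := XRt.not_dvd w y κ n s hκ hs 3 p hp hp1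
            have hmem : p ∈ (s 3).primeFactors :=
              Nat.mem_primeFactors.mpr ⟨hp, hp1, (hpos 3).ne'⟩
            have hroot : XRt.root (κ * n) (Q * v + c + κ * n) p =
                XRt.root (κ * n) (Q * v' + c + κ * n) p := by
              have := congrFun (congrFun hff p) hmem
              exact this
            have hd := XRt.root_inj _ _ _ p hp hpN hroot
            have hsum : (p : ℤ) ∣ ((Q * v + c + κ * n : ℕ) : ℤ) + ((Q * v' + c + κ * n : ℕ) : ℤ) := by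
              have := Int.natCast_dvd_natCast.mpr hp2
              push_cast at this ⊢
              exact this
            have h2A : (p : ℤ) ∣ 2 * ((Q * v + c + κ * n : ℕ) : ℤ) := by
              have := dvd_add hd hsum
              have he : ((Q * v + c + κ * n : ℕ) : ℤ) - ((Q * v' + c + κ * n : ℕ) : ℤ) +
                  (((Q * v + c + κ * n : ℕ) : ℤ) + ((Q * v' + c + κ * n : ℕ) : ℤ)) =
                  2 * ((Q * v + c + κ * n : ℕ) : ℤ) := by ring
              rwa [he] at this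
            have h2A' : p ∣ 2 * (Q * v + c + κ * n) := by exact_mod_cast h2A
            have hpA : p ∣ Q * v + c + κ * n := by
              rcases (Nat.Prime.dvd_mul hp).mp h2A' with h | h
              · have := Nat.le_of_dvd (by norm_num) h
                have h5 := (hs.2.2.1 3 p hp hp1).1
                omega
              · exact h
            have hpsum : p ∣ (Q * v + c + κ * n) ^ 2 + (κ * n) ^ 2 := hp1.trans (hv.2 3)
            have hpN2 : p ∣ (κ * n) ^ 2 :=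
              (Nat.dvd_add_right (Dvd.dvd.pow hpA (by norm_num))).mp hpsum
            exact hpN (hp.dvd_of_dvd_pow hpN2)
          have := Nat.isCoprime_iff_coprime.mpr hnat
          push_cast at this ⊢
          exact this
        exact hco.dvd_of_dvd_mul_left h3
    have key2 : ∀ j : Fin 4, ((s j : ℕ) : ℤ) ∣ (v : ℤ) - (v' : ℤ) := by
      intro j
      have hc := Nat.isCoprime_iff_coprime.mpr (XRt.cop_fact w y n s hs j)
      exact hc.dvd_of_dvd_mul_left (key j)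
    have hprod : (∏ j, ((s j : ℕ) : ℤ)) ∣ (v : ℤ) - (v' : ℤ) := by
      refine Finset.prod_dvd_of_coprime ?_ fun j _ => key2 j
      intro i _ j _ hij
      exact Nat.isCoprime_iff_coprime.mpr (hcop i j hij)
    have hS : ((∏ j, s j : ℕ) : ℤ) ∣ (v : ℤ) - (v' : ℤ) := by
      push_cast
      exact hprod
    have hlt : |(v : ℤ) - (v' : ℤ)| < ((∏ j, s j : ℕ) : ℤ) := by
      have h1 : (v : ℤ) < ((∏ j, s j : ℕ) : ℤ) := by exact_mod_cast hv.1
      have h2 : (v' : ℤ) < ((∏ j, s j : ℕ) : ℤ) := by exact_mod_cast hv'.1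
      rw [abs_lt]
      constructor <;> omega
    have h0 := Int.eq_zero_of_abs_lt_dvd hS hlt
    omega

end Pool.Agent.F0f91f8.FC
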