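import Pool.Agent.Work.MP_0f91f8_co.FC.StmtsS

/-!
# Block FC, module S, item SB: the sieve bound for `Ns`
-/

set_option autoImplicit false

namespace Pool.Agent.F0f91f8.FC

open Filter Topology ComplexConjugate
open scoped BigOperators

namespace XSB

theorem om_le (hRh : StRh) {p : ℕ} (hp : p.Prime) : om p ≤ 5 := by
  have := hRh p hp
  unfold om
  omega

theorem harm_le (m : ℕ) (hm : 0 < m) : (harmonic m : ℝ) ≤ m := by
  have h1 : (harmonic m : ℝ) ≤ 1 + Real.log m := harmonic_le_one_add_log m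
  have h2 : Real.log (m : ℝ) ≤ m - 1 := Real.log_le_sub_one_of_pos (by exact_mod_cast hm)
  linarith

theorem FS_le (F S X : ℕ) (hF : F ^ 8 ≤ X) (hS : S ^ 4 ≤ X) (hX : 1 ≤ X) : F ^ 4 * S ≤ X := by
  have h1 : (F ^ 4 * S) ^ 4 ≤ X ^ 4 := by
    calc (F ^ 4 * S) ^ 4 = (F ^ 8) ^ 2 * S ^ 4 := by ring
      _ ≤ X ^ 2 * X := Nat.mul_le_mul (Nat.pow_le_pow_left hF 2) hS
      _ = X ^ 3 * 1 := by ring
      _ ≤ X ^ 3 * X := Nat.mul_le_mul_left _ hX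
      _ = X ^ 4 := by ring
  exact (Nat.pow_le_pow_iff_left (by norm_num)).1 h1

end XSB

open XSB in
theorem pr_SB (hRh : StRh) (hRk : StRk) (hNb : StNb) : StSB := by
  obtain ⟨R₀, hR₀, hR⟩ := hRk
  refine ⟨R₀, hR₀, ?_⟩
  intro w y κ n c X s hw hκ hn hy hyX hs hSX
  set S : ℕ := ∏ j, s j with hSdef
  have hSpos : 0 < S := Finset.prod_pos fun j _ => hs.1 j
  set F : ℕ := y ^ R₀ with hFdef
  have hFpos : 0 < F := pow_pos (by omega) _
  have hF8 : F ^ 8 ≤ X := by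
    rw [hFdef, ← pow_mul, mul_comm]
    exact hyX
  have hX1 : 1 ≤ X := le_trans (Nat.one_le_pow _ _ hFpos) hF8
  have hFS : F ^ 4 * S ≤ X := FS_le F S X hF8 hSX hX1
  have hSX' : S ≤ X := le_trans (Nat.le_mul_of_pos_left S (pow_pos hFpos 4)) hFS
  set P := PN w y (S * n) with hP
  have hPmem : ∀ p ∈ P, p.Prime ∧ 10 < p ∧ p ≤ y := by
    intro p hp
    simp only [hP, PN, Finset.mem_filter, Finset.mem_Icc] at hp
    exact ⟨hp.2.1, by omega, hp.1.2⟩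
  have h1 := hR y F P om hy hPmem (fun p hp => om_le hRh (hPmem p hp).1) le_rfl
  have h2 := hNb w y κ n c X F s hw hκ hn hFpos hs
  rw [← hSdef, ← hP] at h2
  have hprod : 0 ≤ ∏ p ∈ P, (1 - (om p : ℝ) / p) := by
    refine Finset.prod_nonneg fun p hp => ?_
    have h5 : (om p : ℝ) ≤ 5 := by exact_mod_cast om_le hRh (hPmem p hp).1
    have h10 : (10 : ℝ) < p := by exact_mod_cast (hPmem p hp).2.1
    have : (om p : ℝ) / p ≤ 1 := by
      rw [div_le_one (by linarith)]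
      linarith
    linarith
  have hSr : (0 : ℝ) < S := by exact_mod_cast hSpos
  have hXS1 : (1 : ℝ) ≤ (X : ℝ) / S := by
    rw [le_div_iff₀ hSr, one_mul]
    exact_mod_cast hSX'
  have hh : ((F ^ 2 : ℕ) : ℝ) * (harmonic (F ^ 2) : ℝ) ≤ (X : ℝ) / S := by
    have a1 : (harmonic (F ^ 2) : ℝ) ≤ ((F ^ 2 : ℕ) : ℝ) := harm_le _ (pow_pos hFpos 2)
    have a2 : ((F ^ 2 : ℕ) : ℝ) * (harmonic (F ^ 2) : ℝ) ≤
        ((F ^ 2 : ℕ) : ℝ) * ((F ^ 2 : ℕ) : ℝ) :=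
      mul_le_mul_of_nonneg_left a1 (Nat.cast_nonneg _)
    refine a2.trans ?_
    rw [le_div_iff₀ hSr]
    have a3 : ((F ^ 4 * S : ℕ) : ℝ) ≤ X := by exact_mod_cast hFS
    have a4 : ((F ^ 2 : ℕ) : ℝ) * ((F ^ 2 : ℕ) : ℝ) * S = ((F ^ 4 * S : ℕ) : ℝ) := by
      push_cast
      ring
    rw [a4]
    exact a3
  have hcard : (0 : ℝ) ≤ ((Ns w y κ n c X s).card : ℝ) := Nat.cast_nonneg _
  have hrho : (0 : ℝ) ≤ (rho4 (s 3) : ℝ) := Nat.cast_nonneg _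
  have h3 : ((Ns w y κ n c X s).card : ℝ) * Gs P om F ≤ (rho4 (s 3) : ℝ) * (3 * ((X : ℝ) / S)) := by
    refine h2.trans (mul_le_mul_of_nonneg_left ?_ hrho)
    linarith
  have h4 : ((Ns w y κ n c X s).card : ℝ) * (1 / 2) ≤
      (rho4 (s 3) : ℝ) * (3 * ((X : ℝ) / S)) * ∏ p ∈ P, (1 - (om p : ℝ) / p) := by
    calc ((Ns w y κ n c X s).card : ℝ) * (1 / 2)
        ≤ ((Ns w y κ n c X s).card : ℝ) * (Gs P om F * ∏ p ∈ P, (1 - (om p : ℝ) / p)) :=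
          mul_le_mul_of_nonneg_left h1 hcard
      _ = ((Ns w y κ n c X s).card : ℝ) * Gs P om F * ∏ p ∈ P, (1 - (om p : ℝ) / p) := by ring
      _ ≤ _ := mul_le_mul_of_nonneg_right h3 hprod
  have h5 : (rho4 (s 3) : ℝ) * (3 * ((X : ℝ) / S)) * ∏ p ∈ P, (1 - (om p : ℝ) / p) =
      3 * X * Wt w y n s := by
    unfold Wt
    rw [← hSdef, ← hP]
    ring
  rw [h5] at h4
  linarith

end Pool.Agent.F0f91f8.FC
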