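import Pool.Agent.Work.MP_0f91f8_co.FC.StmtsS

set_option autoImplicit false

namespace Pool.Agent.F0f91f8.FC

namespace XSh

theorem bern {α : Type} (M : Finset α) (a : α → ℝ) (h0 : ∀ p ∈ M, 0 ≤ a p)
    (h1 : ∀ p ∈ M, a p ≤ 1) : 0 ≤ ∏ p ∈ M, (1 - a p) ∧ 1 - ∑ p ∈ M, a p ≤ ∏ p ∈ M, (1 - a p) ∧
      ∏ p ∈ M, (1 - a p) ≤ 1 := by
  classical
  induction M using Finset.induction_on with
  | empty => simp
  | insert q M hq ih =>
    obtain ⟨i0, i1, i2⟩ := ih (fun p hp => h0 p (Finset.mem_insert_of_mem hp))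
      (fun p hp => h1 p (Finset.mem_insert_of_mem hp))
    have hq0 := h0 q (Finset.mem_insert_self q M)
    have hq1 := h1 q (Finset.mem_insert_self q M)
    rw [Finset.prod_insert hq, Finset.sum_insert hq]
    refine ⟨mul_nonneg (by linarith) i0, ?_, ?_⟩
    · nlinarith
    · nlinarith

end XSh

open XSh in
theorem pr_Sh (hRh : StRh) : StSh := by
  classical
  intro w y n w₁ ν b s σ hw hww hν hσ hs hb hbs hcard hbp
  obtain ⟨hpos, hcop, hpr, hn⟩ := hs
  set s' : Fin 4 → ℕ := Function.update s σ (s σ / b) with hs'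
  have hσ' : s' σ = s σ / b := Function.update_self ..
  have hne : ∀ j, j ≠ σ → s' j = s j := fun j hj => Function.update_of_ne hj ..
  have hdvd : ∀ j, s' j ∣ s j := by
    intro j
    by_cases hj : j = σ
    · subst hj
      rw [hσ']
      exact Nat.div_dvd_of_dvd hbs
    · rw [hne j hj]
  have hadm : AdmS w y n s' := by
    refine ⟨fun j => ?_, fun i j hij => ?_, fun j p hp hpj => hpr j p hp (hpj.trans (hdvd j)),
      fun j => Nat.Coprime.coprime_dvd_left (hdvd j) (hn j)⟩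
    · exact Nat.pos_of_dvd_of_pos (hdvd j) (hpos j)
    · exact Nat.Coprime.coprime_dvd_left (hdvd i)
        (Nat.Coprime.coprime_dvd_right (hdvd j) (hcop i j hij))
  refine ⟨hadm, ?_⟩
  have h3 : s' 3 = s 3 := hne 3 hσ.symm
  have hprod : ∏ j, s j = b * ∏ j, s' j := by
    rw [hs', Finset.prod_update_of_mem (Finset.mem_univ σ), ← mul_assoc,
      Nat.mul_div_cancel' hbs, ← Finset.mul_prod_erase Finset.univ s (Finset.mem_univ σ)]
    congr 2
    ext j
    simp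
  have hS' : 0 < ∏ j, s' j := Finset.prod_pos fun j _ => hadm.1 j
  set S' := ∏ j, s' j with hS'def
  set S := ∏ j, s j with hSdef
  have hom : ∀ p : ℕ, p.Prime → (om p : ℝ) ≤ 5 := by
    intro p hp
    have h := hRh p hp
    have h2 : om p ≤ 5 := by unfold om; omega
    exact_mod_cast h2
  have hfac : ∀ p : ℕ, p.Prime → w < p → 0 ≤ (om p : ℝ) / p ∧ (om p : ℝ) / p ≤ 1 := by
    intro p hp hwp
    have hp0 : (0 : ℝ) < p := by exact_mod_cast hp.pos
    have h10 : (10 : ℝ) < p := by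
      have : 10 < p := by omega
      exact_mod_cast this
    refine ⟨by positivity, ?_⟩
    rw [div_le_one hp0]
    linarith [hom p hp]
  -- the two sets of primes
  set A := PN w y (S * n) with hA
  set B := PN w y (S' * n) with hB
  have hAB : A ⊆ B := by
    intro p hp
    simp only [hA, hB, PN, Finset.mem_filter] at hp ⊢
    refine ⟨hp.1, hp.2.1, hp.2.2.1, fun h => hp.2.2.2 ?_⟩
    rw [hprod, mul_assoc]
    exact h.mul_left b
  have hM : ∀ p ∈ B \ A, p.Prime ∧ w < p ∧ p ∣ b := by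
    intro p hp
    rw [Finset.mem_sdiff] at hp
    obtain ⟨h1, h2⟩ := hp
    simp only [hA, hB, PN, Finset.mem_filter] at h1 h2
    refine ⟨h1.2.1, h1.2.2.1, ?_⟩
    have h4 : p ∣ S * n := by
      by_contra h5
      exact h2 ⟨h1.1, h1.2.1, h1.2.2.1, h5⟩
    rw [hprod, mul_assoc, h1.2.1.dvd_mul] at h4
    exact h4.resolve_right h1.2.2.2
  have hMcard : (B \ A).card ≤ ν := by
    refine le_trans (Finset.card_le_card fun p hp => ?_) hcard
    obtain ⟨h1, _, h2⟩ := hM p hp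
    exact Nat.mem_primeFactors.2 ⟨h1, h2, hb.ne'⟩
  have hw₁ : (0 : ℝ) < w₁ := by
    have : 0 < w₁ := by omega
    exact_mod_cast this
  have hsum : ∑ p ∈ B \ A, (om p : ℝ) / p ≤ 1 / 2 := by
    have h1 : ∑ p ∈ B \ A, (om p : ℝ) / p ≤ ∑ _p ∈ B \ A, 5 / (w₁ : ℝ) := by
      refine Finset.sum_le_sum fun p hp => ?_
      obtain ⟨h1, _, h2⟩ := hM p hp
      have h3 : (w₁ : ℝ) ≤ p := by exact_mod_cast (hbp p h1 h2).le
      exact div_le_div₀ (by norm_num) (hom p h1) hw₁ h3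
    rw [Finset.sum_const, nsmul_eq_mul] at h1
    refine h1.trans ?_
    have h2 : ((B \ A).card : ℝ) ≤ ν := by exact_mod_cast hMcard
    have h3 : (10 : ℝ) * ν ≤ w₁ := by exact_mod_cast hν
    rw [mul_div_assoc', div_le_iff₀ hw₁]
    linarith
  have hbM := bern (B \ A) (fun p => (om p : ℝ) / p)
    (fun p hp => (hfac p (hM p hp).1 (hM p hp).2.1).1)
    (fun p hp => (hfac p (hM p hp).1 (hM p hp).2.1).2)
  have hbA := bern A (fun p => (om p : ℝ) / p)
    (fun p hp => by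
      simp only [hA, PN, Finset.mem_filter] at hp
      exact (hfac p hp.2.1 hp.2.2.1).1)
    (fun p hp => by
      simp only [hA, PN, Finset.mem_filter] at hp
      exact (hfac p hp.2.1 hp.2.2.1).2)
  have hsplit : (∏ p ∈ B \ A, (1 - (om p : ℝ) / p)) * ∏ p ∈ A, (1 - (om p : ℝ) / p) =
      ∏ p ∈ B, (1 - (om p : ℝ) / p) := Finset.prod_sdiff hAB
  have hkey : ∏ p ∈ A, (1 - (om p : ℝ) / p) ≤ 2 * ∏ p ∈ B, (1 - (om p : ℝ) / p) := by
    rw [← hsplit]
    have h1 : (1 : ℝ) / 2 ≤ ∏ p ∈ B \ A, (1 - (om p : ℝ) / p) := by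
      have := hbM.2.1
      linarith
    nlinarith [hbA.1]
  have hb0 : (0 : ℝ) < b := by exact_mod_cast hb
  have hS0 : (0 : ℝ) < (S' : ℝ) := by exact_mod_cast hS'
  unfold Wt
  rw [← hSdef, ← hS'def, ← hA, ← hB, h3, hprod]
  push_cast
  have e1 : (rho4 (s 3) : ℝ) / ((b : ℝ) * (S' : ℝ)) = (1 / (b : ℝ)) * ((rho4 (s 3) : ℝ) / S') := by
    rw [div_mul_div_comm, one_mul]
  have h0 : (0 : ℝ) ≤ (1 / (b : ℝ)) * ((rho4 (s 3) : ℝ) / S') := by positivity
  rw [e1]
  calc (1 / (b : ℝ)) * ((rho4 (s 3) : ℝ) / S') * ∏ p ∈ A, (1 - (om p : ℝ) / p)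
      ≤ (1 / (b : ℝ)) * ((rho4 (s 3) : ℝ) / S') * (2 * ∏ p ∈ B, (1 - (om p : ℝ) / p)) :=
        mul_le_mul_of_nonneg_left hkey h0
    _ = _ := by ring

end Pool.Agent.F0f91f8.FC
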