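import Pool.Agent.Work.MP_0f91f8_co.FC.StmtsS

/-!
# Block FC, item TK: the second moment of the number of prime divisors
-/

set_option autoImplicit false

namespace Pool.Agent.F0f91f8.FC

open Filter Topology ComplexConjugate
open scoped BigOperators

namespace XTK

/-- the solutions of the congruence form a residue class -/
theorem class_eq (d Q c : ℕ) (hd : 0 < d) (hQ : Nat.Coprime Q d) :
    ∃ v₀ : ℕ, ∀ v : ℕ, d ∣ Q * v + c ↔ v ≡ v₀ [MOD d] := by
  have hdz : NeZero d := ⟨hd.ne'⟩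
  let u : (ZMod d)ˣ := ZMod.unitOfCoprime Q hQ
  have hu : (u : ZMod d) = (Q : ZMod d) := ZMod.coe_unitOfCoprime Q hQ
  refine ⟨(-(c : ZMod d) * (↑u⁻¹ : ZMod d)).val, fun v => ?_⟩
  rw [← ZMod.natCast_eq_zero_iff, ← ZMod.natCast_eq_natCast_iff, ZMod.natCast_zmod_val]
  push_cast
  rw [← hu]
  constructor
  · intro h
    have h1 : (u : ZMod d) * (v : ZMod d) = -(c : ZMod d) := eq_neg_of_add_eq_zero_left h
    rw [← h1, mul_comm (u : ZMod d), mul_assoc, Units.mul_inv, mul_one]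
  · intro h
    rw [h, mul_comm (-(c : ZMod d)), ← mul_assoc, Units.mul_inv, one_mul, neg_add_cancel]

/-- counting the solutions of the congruence -/
theorem count (d Q c X : ℕ) (hd : 0 < d) (hQ : Nat.Coprime Q d) :
    (X : ℝ) / d - 1 ≤ (((Finset.Icc 1 X).filter fun v => d ∣ Q * v + c).card : ℝ) ∧
      (((Finset.Icc 1 X).filter fun v => d ∣ Q * v + c).card : ℝ) ≤ (X : ℝ) / d + 1 := by
  obtain ⟨v₀, hv₀⟩ := class_eq d Q c hd hQ
  have h1 : ((Finset.Icc 1 X).filter fun v => d ∣ Q * v + c) =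
      (Finset.Ioc 0 X).filter fun v => v ≡ v₀ [MOD d] := by
    ext v
    rw [Finset.mem_filter, Finset.mem_filter, Finset.mem_Icc, Finset.mem_Ioc, hv₀ v]
    exact Iff.rfl
  rw [h1]
  have h2 := Nat.Ioc_filter_modEq_card 0 X hd v₀
  have h3 : (((Finset.Ioc 0 X).filter fun v => v ≡ v₀ [MOD d]).card : ℝ) =
      max (((⌊((X : ℚ) - v₀) / (d : ℚ)⌋ : ℤ) : ℝ) - ((⌊(((0 : ℕ) : ℚ) - v₀) / (d : ℚ)⌋ : ℤ) : ℝ)) 0 := by
    have := congrArg (fun z : ℤ => (z : ℝ)) h2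
    simpa using this
  rw [h3]
  have hdq : (0 : ℚ) < d := by exact_mod_cast hd
  have a1 := Int.floor_le (((X : ℚ) - v₀) / (d : ℚ))
  have a2 := Int.lt_floor_add_one (((X : ℚ) - v₀) / (d : ℚ))
  have b1 := Int.floor_le ((((0 : ℕ) : ℚ) - v₀) / (d : ℚ))
  have b2 := Int.lt_floor_add_one ((((0 : ℕ) : ℚ) - v₀) / (d : ℚ))
  have e : ((X : ℚ) - v₀) / (d : ℚ) - (((0 : ℕ) : ℚ) - v₀) / (d : ℚ) = (X : ℚ) / d := by
    rw [← sub_div]
    congr 1
    push_cast
    ring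
  have c1 : (X : ℚ) / d - 1 ≤ ((⌊((X : ℚ) - v₀) / (d : ℚ)⌋ : ℤ) : ℚ) -
      ((⌊(((0 : ℕ) : ℚ) - v₀) / (d : ℚ)⌋ : ℤ) : ℚ) := by linarith
  have c2 : ((⌊((X : ℚ) - v₀) / (d : ℚ)⌋ : ℤ) : ℚ) -
      ((⌊(((0 : ℕ) : ℚ) - v₀) / (d : ℚ)⌋ : ℤ) : ℚ) ≤ (X : ℚ) / d + 1 := by linarith
  have c1' : (X : ℝ) / d - 1 ≤ ((⌊((X : ℚ) - v₀) / (d : ℚ)⌋ : ℤ) : ℝ) -
      ((⌊(((0 : ℕ) : ℚ) - v₀) / (d : ℚ)⌋ : ℤ) : ℝ) := by
    have := (Rat.cast_le (K := ℝ)).2 c1
    push_cast at this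
    push_cast
    exact this
  have c2' : ((⌊((X : ℚ) - v₀) / (d : ℚ)⌋ : ℤ) : ℝ) -
      ((⌊(((0 : ℕ) : ℚ) - v₀) / (d : ℚ)⌋ : ℤ) : ℝ) ≤ (X : ℝ) / d + 1 := by
    have := (Rat.cast_le (K := ℝ)).2 c2
    push_cast at this
    push_cast
    exact this
  constructor
  · exact c1'.trans (le_max_left _ _)
  · refine max_le c2' ?_
    have : (0 : ℝ) ≤ (X : ℝ) / d := by positivity
    linarith

/-- indicator -/
noncomputable def idc (Q c p v : ℕ) : ℝ := if p ∣ Q * v + c then 1 else 0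

theorem Np_eq (P : Finset ℕ) (Q c v : ℕ) : (Np P (Q * v + c) : ℝ) = ∑ p ∈ P, idc Q c p v := by
  unfold Np idc
  rw [Finset.sum_ite, Finset.sum_const_zero, add_zero, Finset.sum_const, nsmul_eq_mul, mul_one]

theorem sum_idc (Q c X p : ℕ) : ∑ v ∈ Finset.Icc 1 X, idc Q c p v =
    (((Finset.Icc 1 X).filter fun v => p ∣ Q * v + c).card : ℝ) := by
  unfold idc
  rw [Finset.sum_ite, Finset.sum_const_zero, add_zero, Finset.sum_const, nsmul_eq_mul, mul_one]

theorem idc_mul_self (Q c p v : ℕ) : idc Q c p v * idc Q c p v = idc Q c p v := by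
  unfold idc
  split_ifs <;> simp

theorem idc_mul (Q c p q v : ℕ) (h : Nat.Coprime p q) :
    idc Q c p v * idc Q c q v = idc Q c (p * q) v := by
  unfold idc
  by_cases h1 : p ∣ Q * v + c
  · by_cases h2 : q ∣ Q * v + c
    · rw [if_pos h1, if_pos h2, if_pos (h.mul_dvd_of_dvd_of_dvd h1 h2), mul_one]
    · rw [if_neg h2, if_neg fun h3 => h2 ((Dvd.intro_left p rfl).trans h3), mul_zero]
  · rw [if_neg h1, if_neg fun h3 => h1 ((Dvd.intro q rfl).trans h3), zero_mul]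

end XTK

open XTK in
theorem pr_TK : StTK := by
  intro P Q c X hP
  have hcop : ∀ p ∈ P, Nat.Coprime Q p := fun p hp =>
    ((hP p hp).1.coprime_iff_not_dvd.2 (hP p hp).2).symm
  have hpos : ∀ p ∈ P, 0 < p := fun p hp => (hP p hp).1.pos
  -- first moment
  have h1 : (X : ℝ) * lam P - P.card ≤ ∑ v ∈ Finset.Icc 1 X, (Np P (Q * v + c) : ℝ) := by
    have e1 : ∑ v ∈ Finset.Icc 1 X, (Np P (Q * v + c) : ℝ) =
        ∑ p ∈ P, ∑ v ∈ Finset.Icc 1 X, idc Q c p v := by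
      rw [Finset.sum_comm]
      exact Finset.sum_congr rfl fun v _ => Np_eq P Q c v
    rw [e1]
    have e2 : (X : ℝ) * lam P - P.card = ∑ p ∈ P, ((X : ℝ) / p - 1) := by
      rw [Finset.sum_sub_distrib, Finset.sum_const, nsmul_eq_mul, mul_one]
      unfold lam
      rw [Finset.mul_sum]
      congr 1
      exact Finset.sum_congr rfl fun p _ => by rw [mul_one_div]
    rw [e2]
    refine Finset.sum_le_sum fun p hp => ?_
    rw [sum_idc]
    exact (count p Q c X (hpos p hp) (hcop p hp)).1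
  -- second moment
  have h2 : ∑ v ∈ Finset.Icc 1 X, (Np P (Q * v + c) : ℝ) ^ 2 ≤
      (X : ℝ) * lam P ^ 2 + X * lam P + (P.card : ℝ) ^ 2 := by
    have e1 : ∑ v ∈ Finset.Icc 1 X, (Np P (Q * v + c) : ℝ) ^ 2 =
        ∑ p ∈ P, ∑ q ∈ P, ∑ v ∈ Finset.Icc 1 X, idc Q c p v * idc Q c q v := by
      have g1 : ∀ v ∈ Finset.Icc 1 X, (Np P (Q * v + c) : ℝ) ^ 2 =
          ∑ p ∈ P, ∑ q ∈ P, idc Q c p v * idc Q c q v := by
        intro v _
        rw [Np_eq, sq, Finset.sum_mul_sum]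
      rw [Finset.sum_congr rfl g1, Finset.sum_comm]
      refine Finset.sum_congr rfl fun p _ => ?_
      rw [Finset.sum_comm]
    rw [e1]
    have e2 : (X : ℝ) * lam P ^ 2 + X * lam P + (P.card : ℝ) ^ 2 =
        ∑ p ∈ P, ∑ q ∈ P, ((X : ℝ) * ((1 / (p : ℝ)) * (1 / (q : ℝ))) +
          (if p = q then (X : ℝ) * (1 / (p : ℝ)) else 0) + 1) := by
      have g1 : ∀ p ∈ P, ∑ q ∈ P, ((X : ℝ) * ((1 / (p : ℝ)) * (1 / (q : ℝ))) +
          (if p = q then (X : ℝ) * (1 / (p : ℝ)) else 0) + 1) =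
          (X : ℝ) * (1 / (p : ℝ)) * lam P + (X : ℝ) * (1 / (p : ℝ)) + P.card := by
        intro p hp
        rw [Finset.sum_add_distrib, Finset.sum_add_distrib, Finset.sum_ite_eq, if_pos hp,
          Finset.sum_const, nsmul_eq_mul, mul_one]
        congr 2
        unfold lam
        rw [Finset.mul_sum]
        exact Finset.sum_congr rfl fun q _ => by ring
      rw [Finset.sum_congr rfl g1, Finset.sum_add_distrib, Finset.sum_add_distrib,
        Finset.sum_const, nsmul_eq_mul, ← Finset.sum_mul, ← Finset.mul_sum]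
      unfold lam
      ring
    rw [e2]
    refine Finset.sum_le_sum fun p hp => Finset.sum_le_sum fun q hq => ?_
    by_cases hpq : p = q
    · subst hpq
      rw [if_pos rfl]
      have g1 : ∑ v ∈ Finset.Icc 1 X, idc Q c p v * idc Q c p v =
          ∑ v ∈ Finset.Icc 1 X, idc Q c p v :=
        Finset.sum_congr rfl fun v _ => idc_mul_self Q c p v
      rw [g1, sum_idc]
      have g2 := (count p Q c X (hpos p hp) (hcop p hp)).2
      have g3 : (0 : ℝ) ≤ (X : ℝ) * ((1 / (p : ℝ)) * (1 / (p : ℝ))) := by positivity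
      have g4 : (X : ℝ) * (1 / (p : ℝ)) = (X : ℝ) / p := mul_one_div _ _
      rw [g4]
      linarith
    · rw [if_neg hpq, add_zero]
      have hc : Nat.Coprime p q := (Nat.coprime_primes (hP p hp).1 (hP q hq).1).2 hpq
      have g1 : ∑ v ∈ Finset.Icc 1 X, idc Q c p v * idc Q c q v =
          ∑ v ∈ Finset.Icc 1 X, idc Q c (p * q) v :=
        Finset.sum_congr rfl fun v _ => idc_mul Q c p q v hc
      rw [g1, sum_idc]
      have g2 := (count (p * q) Q c X (Nat.mul_pos (hpos p hp) (hpos q hq))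
        ((hcop p hp).mul_right (hcop q hq))).2
      have g3 : (X : ℝ) / ((p * q : ℕ) : ℝ) = (X : ℝ) * ((1 / (p : ℝ)) * (1 / (q : ℝ))) := by
        push_cast
        rw [one_div_mul_one_div, mul_one_div]
      rw [g3] at g2
      exact g2
  -- lam P ≤ card
  have h3 : lam P ≤ P.card := by
    unfold lam
    have : ∑ p ∈ P, 1 / (p : ℝ) ≤ ∑ _p ∈ P, (1 : ℝ) := by
      refine Finset.sum_le_sum fun p hp => ?_
      have hp1 : (1 : ℝ) ≤ p := by exact_mod_cast hpos p hp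
      rw [div_le_one (by linarith)]
      exact hp1
    rwa [Finset.sum_const, nsmul_eq_mul, mul_one] at this
  have h4 : 0 ≤ lam P := by
    unfold lam
    exact Finset.sum_nonneg fun p _ => by positivity
  have h5 : ∑ v ∈ Finset.Icc 1 X, ((Np P (Q * v + c) : ℝ) - lam P) ^ 2 =
      ∑ v ∈ Finset.Icc 1 X, (Np P (Q * v + c) : ℝ) ^ 2 -
        2 * lam P * ∑ v ∈ Finset.Icc 1 X, (Np P (Q * v + c) : ℝ) + X * lam P ^ 2 := by
    have g1 : ∀ v ∈ Finset.Icc 1 X, ((Np P (Q * v + c) : ℝ) - lam P) ^ 2 =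
        (Np P (Q * v + c) : ℝ) ^ 2 - 2 * lam P * (Np P (Q * v + c) : ℝ) + lam P ^ 2 := by
      intro v _
      ring
    rw [Finset.sum_congr rfl g1, Finset.sum_add_distrib, Finset.sum_sub_distrib, ← Finset.mul_sum,
      Finset.sum_const, nsmul_eq_mul, Nat.card_Icc, Nat.add_sub_cancel]
  rw [h5]
  have h6 : lam P * ((X : ℝ) * lam P - P.card) ≤
      lam P * ∑ v ∈ Finset.Icc 1 X, (Np P (Q * v + c) : ℝ) := mul_le_mul_of_nonneg_left h1 h4
  have h7 : (0 : ℝ) ≤ P.card := Nat.cast_nonneg _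
  nlinarith [mul_le_mul_of_nonneg_right h3 h7]

end Pool.Agent.F0f91f8.FC
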