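import Pool.Agent.Work.MP_0f91f8_co.FC.StmtsS

/-!
# Block FC, item Tb: Chebyshev's inequality for the number of prime factors
-/

set_option autoImplicit false

namespace Pool.Agent.F0f91f8.FC

open Filter Topology ComplexConjugate
open scoped BigOperators

open Classical in
/-- [Tb] Chebyshev's inequality. -/
theorem pr_Tb (hTK : StTK) : StTb := by
  intro P Q c X H hP hH hL
  have hH1 : (1 : ℝ) ≤ H := by exact_mod_cast hH
  have hH0 : (0 : ℝ) < H := by linarith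
  set L : ℝ := lam P with hLdef
  have hL0 : 0 < L := by nlinarith
  set F := (Finset.Icc 1 X).filter fun v =>
    (Np P (Q * v + c) : ℝ) < (1 - 1 / (H : ℝ)) * L + H with hF
  have hpt : ∀ v ∈ F, L ^ 2 / (4 * (H : ℝ) ^ 2) ≤ ((Np P (Q * v + c) : ℝ) - L) ^ 2 := by
    intro v hv
    have h1 : (Np P (Q * v + c) : ℝ) < (1 - 1 / (H : ℝ)) * L + H := (Finset.mem_filter.1 hv).2
    have h2 : (H : ℝ) ≤ L / (2 * H) := by
      rw [le_div_iff₀ (by positivity)]
      nlinarith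
    have h3 : L / H = L / (2 * H) + L / (2 * H) := by
      field_simp
      ring
    have h4 : (1 - 1 / (H : ℝ)) * L = L - L / H := by
      ring
    have h5 : L / (2 * H) ≤ L - (Np P (Q * v + c) : ℝ) := by
      rw [h4, h3] at h1
      linarith
    have h6 : 0 ≤ L / (2 * H) := by positivity
    have h7 : (L / (2 * H)) ^ 2 ≤ (L - (Np P (Q * v + c) : ℝ)) ^ 2 := pow_le_pow_left₀ h6 h5 2
    have h8 : (L / (2 * H)) ^ 2 = L ^ 2 / (4 * (H : ℝ) ^ 2) := by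
      rw [div_pow, mul_pow]
      norm_num
    rw [h8] at h7
    calc L ^ 2 / (4 * (H : ℝ) ^ 2) ≤ (L - (Np P (Q * v + c) : ℝ)) ^ 2 := h7
      _ = ((Np P (Q * v + c) : ℝ) - L) ^ 2 := by ring
  have hsum : (F.card : ℝ) * (L ^ 2 / (4 * (H : ℝ) ^ 2)) ≤
      (X : ℝ) * L + 3 * (P.card : ℝ) ^ 2 := by
    calc (F.card : ℝ) * (L ^ 2 / (4 * (H : ℝ) ^ 2))
        = ∑ v ∈ F, L ^ 2 / (4 * (H : ℝ) ^ 2) := by rw [Finset.sum_const, nsmul_eq_mul]
      _ ≤ ∑ v ∈ F, ((Np P (Q * v + c) : ℝ) - L) ^ 2 := Finset.sum_le_sum hpt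
      _ ≤ ∑ v ∈ Finset.Icc 1 X, ((Np P (Q * v + c) : ℝ) - L) ^ 2 :=
          Finset.sum_le_sum_of_subset_of_nonneg (Finset.filter_subset _ _)
            fun v _ _ => sq_nonneg _
      _ ≤ _ := hTK P Q c X hP
  have hpos : 0 < 4 * (H : ℝ) ^ 2 / L ^ 2 := by positivity
  have h9 := mul_le_mul_of_nonneg_left hsum hpos.le
  have h10 : 4 * (H : ℝ) ^ 2 / L ^ 2 * ((F.card : ℝ) * (L ^ 2 / (4 * (H : ℝ) ^ 2))) = F.card := by
    field_simp
  rw [h10] at h9
  exact h9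

end Pool.Agent.F0f91f8.FC
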