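import Pool.Agent.Work.MP_0f91f8_co.FC.StmtsS

/-!
# Block FC, item Tl: the parts in `(w, y]` are small (first moment of the logarithm)
-/

set_option autoImplicit false

namespace Pool.Agent.F0f91f8.FC

open Filter Topology ComplexConjugate
open scoped BigOperators

namespace XTl

/-! ## the parameter `K` -/

theorem logsq (B : ℕ) : ∃ X₀ : ℕ, ∀ X ≥ X₀, (2 * Nat.log 2 (B * X ^ 2)) ^ 2 ≤ X := by
  have h := (Real.isLittleO_pow_log_id_atTop (n := 2)).def (c := 1 / 100) (by norm_num)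
  obtain ⟨x0, hx0⟩ := Filter.eventually_atTop.1 h
  refine ⟨max ⌈x0⌉₊ (max B 1), fun X hX => ?_⟩
  have hX1 : x0 ≤ X := (Nat.le_ceil x0).trans (by exact_mod_cast le_of_max_le_left hX)
  have hX2 : B ≤ X := (le_max_left B 1).trans (le_of_max_le_right hX)
  have hX3 : 1 ≤ X := (le_max_right B 1).trans (le_of_max_le_right hX)
  have e := hx0 X hX1
  have hXr : (1 : ℝ) ≤ X := by exact_mod_cast hX3
  have hlog : 0 ≤ Real.log X := Real.log_nonneg hXr
  rw [Real.norm_of_nonneg (by positivity), id, Real.norm_of_nonneg (by linarith)] at e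
  have hK : (Nat.log 2 (B * X ^ 2) : ℝ) ≤ 5 * Real.log X := by
    have h1 := Real.natLog_le_logb (B * X ^ 2) 2
    refine h1.trans ?_
    have hl2 : (0.6931471803 : ℝ) < Real.log 2 := Real.log_two_gt_d9
    rw [Real.logb, div_le_iff₀ (by push_cast; linarith)]
    have h3 : Real.log ((B * X ^ 2 : ℕ) : ℝ) ≤ 3 * Real.log X := by
      rcases Nat.eq_zero_or_pos B with hB | hB
      · subst hB
        simp
        exact hlog
      · have h4 : Real.log ((B * X ^ 2 : ℕ) : ℝ) ≤ Real.log ((X : ℝ) ^ 3) := by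
          apply Real.log_le_log
          · have : 0 < B * X ^ 2 := by positivity
            exact_mod_cast this
          · have : B * X ^ 2 ≤ X ^ 3 := by
              calc B * X ^ 2 ≤ X * X ^ 2 := Nat.mul_le_mul_right _ hX2
                _ = X ^ 3 := by ring
            exact_mod_cast this
        rw [Real.log_pow] at h4
        exact_mod_cast h4
    refine h3.trans ?_
    push_cast
    nlinarith
  have h5 : ((2 * Nat.log 2 (B * X ^ 2) : ℕ) : ℝ) ^ 2 ≤ X := by
    push_cast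
    have h6 : (0 : ℝ) ≤ (Nat.log 2 (B * X ^ 2) : ℝ) := Nat.cast_nonneg _
    have h7 : (2 * (Nat.log 2 (B * X ^ 2) : ℝ)) ^ 2 ≤ (10 * Real.log X) ^ 2 :=
      pow_le_pow_left₀ (by positivity) (by linarith) 2
    nlinarith
  exact_mod_cast h5

/-! ## counting in residue classes -/

theorem cls (X m r : ℕ) (S : Finset ℕ) (hS : ∀ v ∈ S, v ≤ X ∧ v % m = r) :
    S.card ≤ X / m + 1 := by
  have h : S.card ≤ (Finset.range (X / m + 1)).card := by
    refine Finset.card_le_card_of_injOn (fun v => v / m) (fun v hv => ?_) (fun u hu v hv h => ?_)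
    · have := Nat.div_le_div_right (c := m) (hS v hv).1
      simp only [Finset.coe_range, Set.mem_Iio]
      omega
    · have h1 := Nat.div_add_mod u m
      have h2 := Nat.div_add_mod v m
      have h3 := (hS u hu).2
      have h4 := (hS v hv).2
      simp only at h
      rw [← h1, ← h2, h3, h4, h]
  simpa using h

theorem two (X m r₁ r₂ : ℕ) (S : Finset ℕ)
    (hS : ∀ v ∈ S, v ≤ X ∧ (v % m = r₁ ∨ v % m = r₂)) : S.card ≤ 2 * (X / m + 1) := by
  rw [← Finset.card_filter_add_card_filter_not (s := S) (fun v => v % m = r₁)]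
  have h1 := cls X m r₁ (S.filter fun v => v % m = r₁) (fun v hv => by
    rw [Finset.mem_filter] at hv
    exact ⟨(hS v hv.1).1, hv.2⟩)
  have h2 := cls X m r₂ (S.filter fun v => ¬ v % m = r₁) (fun v hv => by
    rw [Finset.mem_filter] at hv
    exact ⟨(hS v hv.1).1, (hS v hv.1).2.resolve_left hv.2⟩)
  omega

/-- from divisibility of the difference to equal residues -/
theorem res {p k Q u v : ℕ} (hp : p.Prime) (hQ : ¬ p ∣ Q)
    (h : (p : ℤ) ^ k ∣ (Q : ℤ) * ((u : ℤ) - v)) : u % p ^ k = v % p ^ k := by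
  have h1 : (p : ℤ) ^ k ∣ (u : ℤ) - v := by
    refine (Nat.prime_iff_prime_int.1 hp).pow_dvd_of_dvd_mul_left k ?_ h
    exact_mod_cast hQ
  have h2 : v ≡ u [MOD p ^ k] := (Nat.modEq_iff_dvd).2 (by exact_mod_cast h1)
  exact h2.symm

theorem lin {p k Q e : ℕ} (hp : p.Prime) (hQ : ¬ p ∣ Q) (S : Finset ℕ)
    (hS : ∀ v ∈ S, p ^ k ∣ Q * v + e) : ∃ r₁ r₂ : ℕ, ∀ v ∈ S, v % p ^ k = r₁ ∨ v % p ^ k = r₂ := by
  rcases S.eq_empty_or_nonempty with h | ⟨v0, hv0⟩
  · subst h
    exact ⟨0, 0, fun v hv => absurd hv (Finset.notMem_empty v)⟩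
  · refine ⟨v0 % p ^ k, 0, fun v hv => Or.inl (res hp hQ ?_)⟩
    have h1 : ((p : ℤ) ^ k) ∣ (Q : ℤ) * v + e := by exact_mod_cast hS v hv
    have h2 : ((p : ℤ) ^ k) ∣ (Q : ℤ) * v0 + e := by exact_mod_cast hS v0 hv0
    have h3 := dvd_sub h1 h2
    have : (Q : ℤ) * ((v : ℤ) - v0) = (Q : ℤ) * v + e - ((Q : ℤ) * v0 + e) := by ring
    rw [this]
    exact h3

theorem quad {p k Q e N : ℕ} (hp : p.Prime) (h2 : p ≠ 2) (hQ : ¬ p ∣ Q) (hN : ¬ p ∣ N)
    (hk : 1 ≤ k) (S : Finset ℕ) (hS : ∀ v ∈ S, p ^ k ∣ (Q * v + e) ^ 2 + N ^ 2) :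
    ∃ r₁ r₂ : ℕ, ∀ v ∈ S, v % p ^ k = r₁ ∨ v % p ^ k = r₂ := by
  classical
  rcases S.eq_empty_or_nonempty with h | ⟨v0, hv0⟩
  · subst h
    exact ⟨0, 0, fun v hv => absurd hv (Finset.notMem_empty v)⟩
  have hpi : Prime (p : ℤ) := Nat.prime_iff_prime_int.1 hp
  have hS' : ∀ v ∈ S, (p : ℤ) ^ k ∣ ((Q : ℤ) * v + e) ^ 2 + (N : ℤ) ^ 2 := fun v hv => by
    exact_mod_cast hS v hv
  -- `p` does not divide `b v0`
  have hb0 : ¬ (p : ℤ) ∣ (Q : ℤ) * v0 + e := by
    intro h
    have h3 : (p : ℤ) ∣ ((Q : ℤ) * v0 + e) ^ 2 + (N : ℤ) ^ 2 :=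
      (dvd_pow_self (p : ℤ) (by omega)).trans (hS' v0 hv0)
    have h4 : (p : ℤ) ∣ (N : ℤ) ^ 2 := (dvd_add_right (dvd_pow h two_ne_zero)).1 h3
    have h5 : (p : ℤ) ∣ (N : ℤ) := hpi.dvd_of_dvd_pow h4
    exact hN (by exact_mod_cast h5)
  have key : ∀ v ∈ S, (p : ℤ) ^ k ∣ ((Q : ℤ) * v + e) - ((Q : ℤ) * v0 + e) ∨
      (p : ℤ) ^ k ∣ ((Q : ℤ) * v + e) + ((Q : ℤ) * v0 + e) := by
    intro v hv
    have h3 := dvd_sub (hS' v hv) (hS' v0 hv0)
    have e1 : ((Q : ℤ) * v + e) ^ 2 + (N : ℤ) ^ 2 - (((Q : ℤ) * v0 + e) ^ 2 + (N : ℤ) ^ 2) =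
        (((Q : ℤ) * v + e) - ((Q : ℤ) * v0 + e)) * (((Q : ℤ) * v + e) + ((Q : ℤ) * v0 + e)) := by
      ring
    rw [e1] at h3
    by_cases h4 : (p : ℤ) ∣ ((Q : ℤ) * v + e) - ((Q : ℤ) * v0 + e)
    · left
      have h5 : ¬ (p : ℤ) ∣ ((Q : ℤ) * v + e) + ((Q : ℤ) * v0 + e) := by
        intro h5
        have h6 := dvd_sub h5 h4
        have e2 : ((Q : ℤ) * v + e) + ((Q : ℤ) * v0 + e) -
            (((Q : ℤ) * v + e) - ((Q : ℤ) * v0 + e)) = 2 * ((Q : ℤ) * v0 + e) := by ring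
        rw [e2] at h6
        rcases hpi.dvd_or_dvd h6 with h7 | h7
        · have h8 : p ∣ 2 := by exact_mod_cast h7
          exact h2 ((Nat.prime_dvd_prime_iff_eq hp Nat.prime_two).1 h8)
        · exact hb0 h7
      rw [mul_comm] at h3
      exact hpi.pow_dvd_of_dvd_mul_left k h5 h3
    · right
      exact hpi.pow_dvd_of_dvd_mul_left k h4 h3
  by_cases hex : ∃ v1 ∈ S, (p : ℤ) ^ k ∣ ((Q : ℤ) * v1 + e) + ((Q : ℤ) * v0 + e)
  · obtain ⟨v1, hv1, h1⟩ := hex
    refine ⟨v0 % p ^ k, v1 % p ^ k, fun v hv => ?_⟩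
    rcases key v hv with h | h
    · left
      refine res hp hQ ?_
      have : (Q : ℤ) * ((v : ℤ) - v0) = (Q : ℤ) * v + e - ((Q : ℤ) * v0 + e) := by ring
      rw [this]
      exact h
    · right
      refine res hp hQ ?_
      have : (Q : ℤ) * ((v : ℤ) - v1) = ((Q : ℤ) * v + e) + ((Q : ℤ) * v0 + e) -
          (((Q : ℤ) * v1 + e) + ((Q : ℤ) * v0 + e)) := by ring
      rw [this]
      exact dvd_sub h h1
  · refine ⟨v0 % p ^ k, 0, fun v hv => Or.inl ?_⟩
    rcases key v hv with h | h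
    · refine res hp hQ ?_
      have : (Q : ℤ) * ((v : ℤ) - v0) = (Q : ℤ) * v + e - ((Q : ℤ) * v0 + e) := by ring
      rw [this]
      exact h
    · exact absurd ⟨v, hv, h⟩ hex

/-- the number of members with `p ^ k ∣ L_j` -/
theorem cnt {w κ n c X p k : ℕ} (hw : 10 ≤ w) (hκ : Adm w κ) (hp : p.Prime)
    (hwp : w < p) (hk : 1 ≤ k) (j : Fin 4) (S : Finset ℕ)
    (hS : ∀ v ∈ S, v ≤ X ∧ Nat.Coprime (w.factorial * v + c) n ∧
      p ^ k ∣ Lf κ n (w.factorial * v + c) j) : S.card ≤ 2 * (X / p ^ k + 1) := by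
  have hQ : ¬ p ∣ w.factorial := fun h => by
    have := hp.dvd_factorial.1 h
    omega
  have hκ' : ¬ p ∣ κ := fun h => by
    have := hκ.2.2 p hp h
    omega
  have hp2 : p ≠ 2 := by omega
  by_cases hn : p ∣ n
  · have hemp : S = ∅ := by
      rw [Finset.eq_empty_iff_forall_notMem]
      intro v hv
      obtain ⟨-, h1, h2⟩ := hS v hv
      have h3 : p ∣ Lf κ n (w.factorial * v + c) j := (dvd_pow_self p (by omega)).trans h2
      have h4 : p ∣ κ * n := hn.mul_left κ
      have h5 : p ∣ w.factorial * v + c := by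
        fin_cases j
        · exact h3
        · exact (Nat.dvd_add_left h4).1 h3
        · exact (Nat.dvd_add_left (h4.mul_left 2)).1 h3
        · have h6 : p ∣ (w.factorial * v + c + κ * n) ^ 2 :=
            (Nat.dvd_add_left (dvd_pow h4 two_ne_zero)).1 h3
          exact (Nat.dvd_add_left h4).1 (hp.dvd_of_dvd_pow h6)
      exact Nat.not_coprime_of_dvd_of_dvd hp.one_lt h5 hn h1
    rw [hemp, Finset.card_empty]
    exact Nat.zero_le _
  · have hN : ¬ p ∣ κ * n := fun h => (hp.dvd_mul.1 h).elim hκ' hn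
    have hcls : ∃ r₁ r₂ : ℕ, ∀ v ∈ S, v % p ^ k = r₁ ∨ v % p ^ k = r₂ := by
      fin_cases j
      · exact lin (e := c) hp hQ S fun v hv => (hS v hv).2.2
      · exact lin (e := c + κ * n) hp hQ S fun v hv => by
          have := (hS v hv).2.2
          rw [← add_assoc]
          exact this
      · exact lin (e := c + 2 * (κ * n)) hp hQ S fun v hv => by
          have := (hS v hv).2.2
          rw [← add_assoc]
          exact this
      · exact quad (e := c + κ * n) (N := κ * n) hp hp2 hQ hN hk S fun v hv => by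
          have := (hS v hv).2.2
          rw [← add_assoc]
          exact this
    obtain ⟨r₁, r₂, h⟩ := hcls
    exact two X (p ^ k) r₁ r₂ S fun v hv => ⟨(hS v hv).1, h v hv⟩

/-! ## the first moment -/

theorem geo (x : ℝ) (h0 : 0 ≤ x) (h1 : x ≤ 1 / 2) (K : ℕ) :
    ∑ k ∈ Finset.range K, x ^ (k + 1) ≤ 2 * x - 2 * x ^ (K + 1) := by
  induction K with
  | zero => simp
  | succ K ih =>
    rw [Finset.sum_range_succ]
    have h2 : x ^ (K + 1 + 1) = x * x ^ (K + 1) := by ring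
    have h3 : 0 ≤ x ^ (K + 1) := by positivity
    rw [h2]
    nlinarith

/-- the bound for the exponents -/
theorem fac_le {p L M : ℕ} (hp : p.Prime) (hL : 0 < L) (hM : L ≤ M) :
    L.factorization p ≤ Nat.log 2 M := by
  have h1 : p ^ L.factorization p ∣ L := Nat.ordProj_dvd L p
  have h2 : 2 ^ L.factorization p ≤ M :=
    (Nat.pow_le_pow_left hp.two_le _).trans ((Nat.le_of_dvd hL h1).trans hM)
  exact Nat.le_log_of_pow_le (by norm_num) h2

/-- the sum of the exponents of `p` -/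
theorem expo {w κ n c X p : ℕ} (hw : 10 ≤ w) (hκ : Adm w κ) (hp : p.Prime)
    (hwp : w < p) (j : Fin 4) (K : ℕ) (S : Finset ℕ)
    (hS : ∀ v ∈ S, v ≤ X ∧ Nat.Coprime (w.factorial * v + c) n ∧
      0 < Lf κ n (w.factorial * v + c) j ∧
      (Lf κ n (w.factorial * v + c) j).factorization p ≤ K) :
    ((∑ v ∈ S, (Lf κ n (w.factorial * v + c) j).factorization p : ℕ) : ℝ) ≤
      4 * X / p + 2 * K := by
  classical
  have h1 : ∑ v ∈ S, (Lf κ n (w.factorial * v + c) j).factorization p ≤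
      ∑ k ∈ Finset.range K, 2 * (X / p ^ (k + 1) + 1) := by
    calc ∑ v ∈ S, (Lf κ n (w.factorial * v + c) j).factorization p
        ≤ ∑ v ∈ S, ((Finset.range K).filter fun k =>
            p ^ (k + 1) ∣ Lf κ n (w.factorial * v + c) j).card := by
          refine Finset.sum_le_sum fun v hv => ?_
          obtain ⟨-, -, h3, h4⟩ := hS v hv
          conv_lhs => rw [← Finset.card_range ((Lf κ n (w.factorial * v + c) j).factorization p)]
          refine Finset.card_le_card fun k hk => ?_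
          rw [Finset.mem_range] at hk
          rw [Finset.mem_filter, Finset.mem_range]
          exact ⟨by omega, (hp.pow_dvd_iff_le_factorization (by omega)).2 (by omega)⟩
      _ = ∑ k ∈ Finset.range K, (S.filter fun v =>
            p ^ (k + 1) ∣ Lf κ n (w.factorial * v + c) j).card := by
          simp only [Finset.card_filter]
          exact Finset.sum_comm
      _ ≤ ∑ k ∈ Finset.range K, 2 * (X / p ^ (k + 1) + 1) := by
          refine Finset.sum_le_sum fun k _ => ?_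
          refine cnt (n := n) (c := c) hw hκ hp hwp (by omega) j _ fun v hv => ?_
          rw [Finset.mem_filter] at hv
          exact ⟨(hS v hv.1).1, (hS v hv.1).2.1, hv.2⟩
  have h2 : ((∑ v ∈ S, (Lf κ n (w.factorial * v + c) j).factorization p : ℕ) : ℝ) ≤
      ((∑ k ∈ Finset.range K, 2 * (X / p ^ (k + 1) + 1) : ℕ) : ℝ) := by exact_mod_cast h1
  refine h2.trans ?_
  have hp0 : (0 : ℝ) < p := by exact_mod_cast hp.pos
  have hp2 : (2 : ℝ) ≤ p := by exact_mod_cast hp.two_le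
  have h3 : ((∑ k ∈ Finset.range K, 2 * (X / p ^ (k + 1) + 1) : ℕ) : ℝ) ≤
      ∑ k ∈ Finset.range K, (2 * X * (1 / (p : ℝ)) ^ (k + 1) + 2) := by
    push_cast
    refine Finset.sum_le_sum fun k _ => ?_
    have h4 : ((X / p ^ (k + 1) : ℕ) : ℝ) ≤ (X : ℝ) / (p : ℝ) ^ (k + 1) := by
      have := Nat.cast_div_le (m := X) (n := p ^ (k + 1)) (α := ℝ)
      push_cast at this
      exact this
    have h5 : (X : ℝ) * (1 / (p : ℝ)) ^ (k + 1) = (X : ℝ) / (p : ℝ) ^ (k + 1) := by
      rw [one_div, inv_pow, div_eq_mul_inv]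
    nlinarith
  refine h3.trans ?_
  rw [Finset.sum_add_distrib, ← Finset.mul_sum, Finset.sum_const, Finset.card_range, nsmul_eq_mul]
  have hx1 : (1 : ℝ) / p ≤ 1 / 2 := one_div_le_one_div_of_le (by norm_num) hp2
  have h6 := geo (1 / (p : ℝ)) (by positivity) hx1 K
  have h7 : (0 : ℝ) ≤ (1 / (p : ℝ)) ^ (K + 1) := by positivity
  have hX0 : (0 : ℝ) ≤ X := Nat.cast_nonneg X
  have h8 : 2 * (X : ℝ) * ∑ k ∈ Finset.range K, (1 / (p : ℝ)) ^ (k + 1) ≤
      2 * X * (2 * (1 / (p : ℝ))) := by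
    refine mul_le_mul_of_nonneg_left ?_ (by positivity)
    linarith
  have h9 : 2 * (X : ℝ) * (2 * (1 / (p : ℝ))) = 4 * X / p := by ring
  rw [h9] at h8
  linarith

/-- the logarithm of the part in `(w, y]` -/
theorem log_sp (w y L : ℕ) : Real.log (sp w y L) =
    ∑ p ∈ (Finset.Icc 1 y).filter (fun p => p.Prime ∧ w < p), (L.factorization p : ℝ) *
      Real.log p := by
  rw [sp]
  push_cast
  rw [Real.log_prod]
  · simp only [Real.log_pow]
    refine Finset.sum_subset ?_ ?_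
    · intro p hp
      rw [Finset.mem_filter, Nat.mem_primeFactors] at hp
      rw [Finset.mem_filter, Finset.mem_Icc]
      exact ⟨⟨hp.1.1.one_lt.le, hp.2.2⟩, hp.1.1, hp.2.1⟩
    · intro p hp hp'
      rw [Finset.mem_filter, Finset.mem_Icc] at hp
      have : L.factorization p = 0 := by
        by_contra h
        apply hp'
        rw [Finset.mem_filter]
        refine ⟨?_, hp.2.2, hp.1.2⟩
        rw [← Nat.support_factorization, Finsupp.mem_support_iff]
        exact h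
      rw [this]
      simp
  · intro p hp
    rw [Finset.mem_filter, Nat.mem_primeFactors] at hp
    have : (p : ℝ) ≠ 0 := by exact_mod_cast hp.1.1.ne_zero
    positivity

/-- the bound for the values of the forms -/
theorem Lf_le {w κ n c X v : ℕ} (hκ : 0 < κ) (hn : n ≤ 3 * w.factorial * X)
    (hc : c ≤ 3 * w.factorial * X) (hv : v ≤ X) (hX : 1 ≤ X) (j : Fin 4) :
    Lf κ n (w.factorial * v + c) j ≤ (98 * κ ^ 2 * w.factorial ^ 2) * X ^ 2 := by
  set Q := w.factorial with hQ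
  have hQ1 : 1 ≤ Q := Nat.one_le_iff_ne_zero.2 (Nat.factorial_ne_zero w)
  have hQX : 1 ≤ Q * X := Nat.mul_pos hQ1 hX
  set T := κ * (Q * X) with hT
  have hTQ : Q * X ≤ T := Nat.le_mul_of_pos_left _ hκ
  have h1 : Q * v ≤ Q * X := Nat.mul_le_mul_left _ hv
  have h2 : 3 * Q * X = 3 * (Q * X) := by ring
  rw [h2] at hn hc
  have ha : Q * v + c ≤ 4 * T := by omega
  have hk : κ * n ≤ 3 * T := by
    calc κ * n ≤ κ * (3 * (Q * X)) := Nat.mul_le_mul_left _ hn
      _ = 3 * T := by rw [hT]; ring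
  have hT1 : 1 ≤ T := hQX.trans hTQ
  have hTT : T ≤ T ^ 2 := by nlinarith
  have e : (98 * κ ^ 2 * Q ^ 2) * X ^ 2 = 98 * T ^ 2 := by rw [hT]; ring
  rw [e]
  fin_cases j
  · show Q * v + c ≤ 98 * T ^ 2
    omega
  · show Q * v + c + κ * n ≤ 98 * T ^ 2
    omega
  · show Q * v + c + 2 * (κ * n) ≤ 98 * T ^ 2
    omega
  · show (Q * v + c + κ * n) ^ 2 + (κ * n) ^ 2 ≤ 98 * T ^ 2
    have h3 : (Q * v + c + κ * n) ^ 2 ≤ (7 * T) ^ 2 := Nat.pow_le_pow_left (by omega) 2
    have h4 : (κ * n) ^ 2 ≤ (3 * T) ^ 2 := Nat.pow_le_pow_left hk 2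
    have h5 : (7 * T) ^ 2 + (3 * T) ^ 2 = 58 * T ^ 2 := by ring
    omega

theorem Lf_pos {κ n a : ℕ} (ha : 0 < a) (j : Fin 4) : 0 < Lf κ n a j := by
  fin_cases j
  · exact ha
  · show 0 < a + κ * n
    omega
  · show 0 < a + 2 * (κ * n)
    omega
  · show 0 < (a + κ * n) ^ 2 + (κ * n) ^ 2
    positivity

end XTl

open XTl in
theorem pr_Tl (hCh : StCh) (_hCp : StCp) : StTl := by
  classical
  obtain ⟨C₁, hC₁, hch⟩ := hCh
  refine ⟨16 * (4 * C₁ + 1), by positivity, fun w κ hw hκ => ?_⟩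
  set B : ℕ := 98 * κ ^ 2 * w.factorial ^ 2 with hB
  obtain ⟨X₀, hX₀⟩ := logsq B
  refine ⟨X₀, fun X hX R y n c hR hy hyR hn hnX hcX hn1 hc1 j => ?_⟩
  set K : ℕ := Nat.log 2 (B * X ^ 2) with hK
  have hK2 : (2 * K) ^ 2 ≤ X := hX₀ X hX
  have hyX : y ^ 2 ≤ X := (Nat.pow_le_pow_right (by omega) hR).trans hyR
  have hX4 : 4 ≤ X := by
    have : 2 ^ 2 ≤ y ^ 2 := Nat.pow_le_pow_left hy 2
    omega
  have hKy : 2 * K * y ≤ X := by
    have h1 : (2 * K * y) ^ 2 ≤ X ^ 2 := by
      calc (2 * K * y) ^ 2 = (2 * K) ^ 2 * y ^ 2 := by ring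
        _ ≤ X * X := Nat.mul_le_mul hK2 hyX
        _ = X ^ 2 := by ring
    exact (Nat.pow_le_pow_iff_left two_ne_zero).1 h1
  set S := (Finset.Icc 1 X).filter fun v => Nat.Coprime (w.factorial * v + c) n ∧
    X < sp w y (Lf κ n (w.factorial * v + c) j) ^ 16 with hS
  set P := (Finset.Icc 1 y).filter (fun p => p.Prime ∧ w < p) with hP
  have hQ1 : 1 ≤ w.factorial := Nat.one_le_iff_ne_zero.2 (Nat.factorial_ne_zero w)
  have hpos : ∀ v ∈ S, 0 < Lf κ n (w.factorial * v + c) j := fun v hv => by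
    rw [hS, Finset.mem_filter, Finset.mem_Icc] at hv
    refine Lf_pos ?_ j
    have : 0 < w.factorial * v := Nat.mul_pos hQ1 (by omega)
    omega
  have hXr : (4 : ℝ) ≤ X := by exact_mod_cast hX4
  have hlogX : 0 < Real.log X := Real.log_pos (by linarith)
  have hyr : (2 : ℝ) ≤ y := by exact_mod_cast hy
  have hlogy : 0 < Real.log y := Real.log_pos (by linarith)
  -- Markov
  have h1 : (S.card : ℝ) * Real.log X ≤
      16 * ∑ v ∈ S, Real.log (sp w y (Lf κ n (w.factorial * v + c) j)) := by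
    rw [Finset.mul_sum, ← nsmul_eq_mul, ← Finset.sum_const]
    refine Finset.sum_le_sum fun v hv => ?_
    rw [hS, Finset.mem_filter] at hv
    have h2 : (X : ℝ) ≤ (sp w y (Lf κ n (w.factorial * v + c) j) : ℝ) ^ 16 := by
      exact_mod_cast hv.2.2.le
    have h3 := Real.log_le_log (by linarith) h2
    rw [Real.log_pow] at h3
    exact_mod_cast h3
  -- the first moment
  have h2 : ∑ v ∈ S, Real.log (sp w y (Lf κ n (w.factorial * v + c) j)) ≤
      ∑ p ∈ P, Real.log p * (4 * X / p + 2 * K) := by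
    calc ∑ v ∈ S, Real.log (sp w y (Lf κ n (w.factorial * v + c) j))
        = ∑ v ∈ S, ∑ p ∈ P, ((Lf κ n (w.factorial * v + c) j).factorization p : ℝ) *
            Real.log p := Finset.sum_congr rfl fun v _ => log_sp w y _
      _ = ∑ p ∈ P, ∑ v ∈ S, ((Lf κ n (w.factorial * v + c) j).factorization p : ℝ) *
            Real.log p := Finset.sum_comm
      _ ≤ ∑ p ∈ P, Real.log p * (4 * X / p + 2 * K) := by
          refine Finset.sum_le_sum fun p hp => ?_
          rw [hP, Finset.mem_filter, Finset.mem_Icc] at hp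
          rw [← Finset.sum_mul, mul_comm]
          refine mul_le_mul_of_nonneg_left ?_ (Real.log_natCast_nonneg p)
          have h3 := expo (X := X) hw hκ hp.2.1 hp.2.2 j K S (c := c) (n := n) (fun v hv => ?_)
          · push_cast at h3
            exact h3
          · have hv' := hv
            rw [hS, Finset.mem_filter, Finset.mem_Icc] at hv'
            exact ⟨hv'.1.2, hv'.2.1, hpos v hv, fac_le hp.2.1 (hpos v hv)
              (Lf_le hκ.1 hnX hcX hv'.1.2 (by omega) j)⟩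
  have h3 : ∑ p ∈ P, Real.log p * (4 * X / p + 2 * K) ≤ (4 * C₁ + 1) * X * Real.log y := by
    have e1 : ∑ p ∈ P, Real.log p * (4 * X / p + 2 * K) =
        4 * X * ∑ p ∈ P, Real.log p / p + 2 * K * ∑ p ∈ P, Real.log p := by
      rw [Finset.mul_sum, Finset.mul_sum, ← Finset.sum_add_distrib]
      refine Finset.sum_congr rfl fun p _ => ?_
      ring
    have e2 : ∑ p ∈ P, Real.log p / p ≤ C₁ * Real.log y := by
      refine le_trans ?_ (hch y hy)
      refine Finset.sum_le_sum_of_subset_of_nonneg ?_ ?_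
      · intro p hp
        rw [hP, Finset.mem_filter] at hp
        exact Finset.mem_filter.2 ⟨hp.1, hp.2.1⟩
      · intro p _ _
        exact div_nonneg (Real.log_natCast_nonneg p) (Nat.cast_nonneg p)
    have e3 : ∑ p ∈ P, Real.log p ≤ y * Real.log y := by
      calc ∑ p ∈ P, Real.log p ≤ ∑ _p ∈ P, Real.log y := by
            refine Finset.sum_le_sum fun p hp => ?_
            rw [hP, Finset.mem_filter, Finset.mem_Icc] at hp
            exact Real.log_le_log (by exact_mod_cast hp.2.1.pos) (by exact_mod_cast hp.1.2)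
        _ = P.card * Real.log y := by rw [Finset.sum_const, nsmul_eq_mul]
        _ ≤ y * Real.log y := by
            refine mul_le_mul_of_nonneg_right ?_ hlogy.le
            have : P.card ≤ y := by
              calc P.card ≤ (Finset.Icc 1 y).card := Finset.card_filter_le _ _
                _ = y := by simp
            exact_mod_cast this
    have e4 : (2 * K * y : ℝ) ≤ X := by exact_mod_cast hKy
    have hX0 : (0 : ℝ) ≤ X := by linarith
    have hK0 : (0 : ℝ) ≤ K := Nat.cast_nonneg K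
    rw [e1]
    have e5 : 4 * (X : ℝ) * ∑ p ∈ P, Real.log p / p ≤ 4 * X * (C₁ * Real.log y) :=
      mul_le_mul_of_nonneg_left e2 (by positivity)
    have e6 : 2 * (K : ℝ) * ∑ p ∈ P, Real.log p ≤ 2 * K * (y * Real.log y) :=
      mul_le_mul_of_nonneg_left e3 (by positivity)
    have e7 : 2 * (K : ℝ) * (y * Real.log y) ≤ X * Real.log y := by
      calc 2 * (K : ℝ) * (y * Real.log y) = (2 * K * y) * Real.log y := by ring
        _ ≤ X * Real.log y := mul_le_mul_of_nonneg_right e4 hlogy.le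
    linarith
  have h4 : (R : ℝ) * Real.log y ≤ Real.log X := by
    have h5 : ((y : ℝ)) ^ R ≤ X := by exact_mod_cast hyR
    have h6 := Real.log_le_log (by positivity) h5
    rwa [Real.log_pow] at h6
  have hR0 : (0 : ℝ) < R := by
    have : 0 < R := by omega
    exact_mod_cast this
  have h5 : (S.card : ℝ) * Real.log X ≤ 16 * ((4 * C₁ + 1) * X * Real.log y) :=
    h1.trans (mul_le_mul_of_nonneg_left (h2.trans h3) (by norm_num))
  have h6 : (S.card : ℝ) * R * Real.log X ≤ 16 * (4 * C₁ + 1) * X * Real.log X := by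
    calc (S.card : ℝ) * R * Real.log X = R * ((S.card : ℝ) * Real.log X) := by ring
      _ ≤ R * (16 * ((4 * C₁ + 1) * X * Real.log y)) := mul_le_mul_of_nonneg_left h5 hR0.le
      _ = 16 * (4 * C₁ + 1) * X * (R * Real.log y) := by ring
      _ ≤ 16 * (4 * C₁ + 1) * X * Real.log X := mul_le_mul_of_nonneg_left h4 (by positivity)
  have h7 : (S.card : ℝ) * R ≤ 16 * (4 * C₁ + 1) * X := le_of_mul_le_mul_right h6 hlogX
  rw [div_mul_eq_mul_div, le_div_iff₀ hR0]
  exact h7

end Pool.Agent.F0f91f8.FC
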