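import Pool.Agent.Work.MP_0f91f8_co.FC.StmtsS

/-! Item Tp of the block FC (helper29): number of prime factors beyond `y`. -/

set_option autoImplicit false

namespace Pool.Agent.F0f91f8.FC

open scoped BigOperators

namespace XTp

lemma prod_eq (N : ℕ) (hN : N ≠ 0) : ∏ p ∈ N.primeFactors, p ^ N.factorization p = N := by
  have h := Nat.prod_factorization_pow_eq_self hN
  rw [Finsupp.prod, Nat.support_factorization] at h
  exact h

lemma rp_le (y N : ℕ) (hN : N ≠ 0) : rp y N ≤ N := by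
  calc rp y N ≤ ∏ p ∈ N.primeFactors, p ^ N.factorization p :=
        Finset.prod_le_prod_of_subset_of_one_le' (Finset.filter_subset _ _)
          (fun p hp _ => Nat.one_le_pow _ _ (Nat.pos_of_mem_primeFactors hp))
    _ = N := prod_eq N hN

lemma rp_ne (y N : ℕ) : rp y N ≠ 0 := by
  unfold rp
  refine Finset.prod_ne_zero_iff.2 fun p hp => ?_
  exact pow_ne_zero _ (Nat.pos_of_mem_primeFactors (Finset.mem_filter.1 hp).1).ne'

lemma rp_prime (y N p : ℕ) (hp : p.Prime) (h : p ∣ rp y N) : y < p := by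
  unfold rp at h
  obtain ⟨q, hq, hpq⟩ := (Prime.dvd_finsetProd_iff hp.prime _).1 h
  have hq' := Finset.mem_filter.1 hq
  have h1 := hp.dvd_of_dvd_pow hpq
  have h2 := (Nat.prime_dvd_prime_iff_eq hp (Nat.prime_of_mem_primeFactors hq'.1)).1 h1
  rw [h2]
  exact hq'.2

lemma pow_le (y M : ℕ) (hM : M ≠ 0) (h : ∀ p : ℕ, p.Prime → p ∣ M → y < p) (S : Finset ℕ)
    (hS : S ⊆ M.primeFactors) : (y + 1) ^ (∑ p ∈ S, M.factorization p) ≤ M := by
  rw [← Finset.prod_pow_eq_pow_sum]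
  calc ∏ p ∈ S, (y + 1) ^ (M.factorization p) ≤ ∏ p ∈ S, p ^ (M.factorization p) :=
        Finset.prod_le_prod' (fun p hp => Nat.pow_le_pow_left
          (h p (Nat.prime_of_mem_primeFactors (hS hp)) (Nat.dvd_of_mem_primeFactors (hS hp))) _)
    _ ≤ ∏ p ∈ M.primeFactors, p ^ (M.factorization p) :=
        Finset.prod_le_prod_of_subset_of_one_le' hS
          (fun p hp _ => Nat.one_le_pow _ _ (Nat.pos_of_mem_primeFactors hp))
    _ = M := prod_eq M hM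

lemma Lf_le (κ Q X n c v : ℕ) (hκ : 1 ≤ κ) (hQ : 1 ≤ Q) (hX : 1 ≤ X) (hn : n ≤ 3 * Q * X)
    (hc : c ≤ 3 * Q * X) (hv : v ≤ X) (j : Fin 4) :
    Lf κ n (Q * v + c) j ≤ 98 * κ ^ 2 * Q ^ 2 * X ^ 2 := by
  have hQX : 1 ≤ Q * X := Nat.one_le_iff_ne_zero.2 (Nat.mul_ne_zero (by omega) (by omega))
  set T := κ * (Q * X) with hT
  have hTle : Q * X ≤ T := Nat.le_mul_of_pos_left _ hκ
  have hT1 : 1 ≤ T := hQX.trans hTle
  have ha : Q * v + c ≤ 4 * T := by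
    have h1 : Q * v ≤ Q * X := Nat.mul_le_mul_left _ hv
    have h2 : c ≤ 3 * (Q * X) := by rw [← mul_assoc]; exact hc
    omega
  have hκn : κ * n ≤ 3 * T := by
    calc κ * n ≤ κ * (3 * Q * X) := Nat.mul_le_mul_left _ hn
      _ = 3 * T := by rw [hT]; ring
  have hTT : T ≤ T ^ 2 := by nlinarith
  have hR : 98 * κ ^ 2 * Q ^ 2 * X ^ 2 = 98 * T ^ 2 := by rw [hT]; ring
  rw [hR]
  have h1 : (Q * v + c + κ * n) ^ 2 ≤ (7 * T) ^ 2 := Nat.pow_le_pow_left (by omega) 2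
  have h2 : (κ * n) ^ 2 ≤ (3 * T) ^ 2 := Nat.pow_le_pow_left hκn 2
  have e1 : (7 * T) ^ 2 = 49 * T ^ 2 := by ring
  have e2 : (3 * T) ^ 2 = 9 * T ^ 2 := by ring
  fin_cases j
  · show Q * v + c ≤ 98 * T ^ 2
    omega
  · show Q * v + c + κ * n ≤ 98 * T ^ 2
    omega
  · show Q * v + c + 2 * (κ * n) ≤ 98 * T ^ 2
    omega
  · show (Q * v + c + κ * n) ^ 2 + (κ * n) ^ 2 ≤ 98 * T ^ 2
    omega

lemma Lf_ne (κ n a : ℕ) (ha : 0 < a) (j : Fin 4) : Lf κ n a j ≠ 0 := by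
  fin_cases j
  · show a ≠ 0
    omega
  · show a + κ * n ≠ 0
    omega
  · show a + 2 * (κ * n) ≠ 0
    omega
  · show (a + κ * n) ^ 2 + (κ * n) ^ 2 ≠ 0
    have : 0 < (a + κ * n) ^ 2 := by positivity
    omega

end XTp

theorem pr_Tp : StTp := by
  intro w κ _ hκ
  refine ⟨98 * κ ^ 2 * w.factorial ^ 2, ?_⟩
  intro y hy X R n c v _ hXR hX hn hc hvm _ ι _ _ cl j i
  have hQ : 1 ≤ w.factorial := Nat.factorial_pos w
  have hv' := Finset.mem_Icc.1 hvm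
  have ha : 0 < w.factorial * v + c := by
    have : 0 < w.factorial * v := Nat.mul_pos hQ hv'.1
    omega
  set N := Lf κ n (w.factorial * v + c) j with hN
  have hN0 : N ≠ 0 := XTp.Lf_ne κ n _ ha j
  have hNle : N ≤ 98 * κ ^ 2 * w.factorial ^ 2 * X ^ 2 :=
    XTp.Lf_le κ w.factorial X n c v hκ.1 hQ hX hn hc hv'.2 j
  have h1 : (y + 1) ^ hv cl (rp y N) i ≤ rp y N :=
    XTp.pow_le y (rp y N) (XTp.rp_ne y N) (fun p hp h => XTp.rp_prime y N p hp h) _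
      (Finset.filter_subset _ _)
  have h2 : (y + 1) ^ hv cl (rp y N) i < (y + 1) ^ (2 * R + 1) := by
    calc (y + 1) ^ hv cl (rp y N) i ≤ N := h1.trans (XTp.rp_le y N hN0)
      _ ≤ 98 * κ ^ 2 * w.factorial ^ 2 * X ^ 2 := hNle
      _ ≤ y * X ^ 2 := Nat.mul_le_mul_right _ hy
      _ ≤ y * ((y + 1) ^ R) ^ 2 := Nat.mul_le_mul_left _ (Nat.pow_le_pow_left hXR.le 2)
      _ < (y + 1) * ((y + 1) ^ R) ^ 2 := by
          have : 0 < ((y + 1) ^ R) ^ 2 := by positivity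
          exact Nat.mul_lt_mul_of_pos_right (Nat.lt_succ_self y) this
      _ = (y + 1) ^ (2 * R + 1) := by ring
  have hy1 : 1 < y + 1 := by
    have : 0 < 98 * κ ^ 2 * w.factorial ^ 2 := by
      have := hκ.1
      positivity
    omega
  have h3 := (Nat.pow_lt_pow_iff_right hy1).1 h2
  omega

end Pool.Agent.F0f91f8.FC
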