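import Pool.Agent.Work.MP_0f91f8_co.FC.StmtsS

/-!
# Block FC, module S, item Wj
-/

set_option autoImplicit false

namespace Pool.Agent.F0f91f8.FC

open Filter Topology ComplexConjugate
open scoped BigOperators

namespace XWj

/-- `(m / (m + 1))^m ≥ 1/4`. -/
lemma quarter (m : ℕ) (hm : 1 ≤ m) : (1 / 4 : ℝ) ≤ (1 - 1 / ((m : ℝ) + 1)) ^ m := by
  have hm0 : (0 : ℝ) < m := by exact_mod_cast hm
  have h1 : (1 + 1 / (m : ℝ)) ^ m ≤ 4 := by
    have h2 : 1 + 1 / (m : ℝ) ≤ Real.exp (1 / (m : ℝ)) := by
      have := Real.add_one_le_exp (1 / (m : ℝ))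
      linarith
    calc (1 + 1 / (m : ℝ)) ^ m ≤ (Real.exp (1 / (m : ℝ))) ^ m :=
          pow_le_pow_left₀ (by positivity) h2 m
      _ = Real.exp 1 := by
          rw [← Real.exp_nat_mul]
          congr 1
          field_simp
      _ ≤ 4 := by
          have := Real.exp_one_lt_d9
          linarith
  have h3 : (1 - 1 / ((m : ℝ) + 1)) = (1 + 1 / (m : ℝ))⁻¹ := by
    field_simp
    ring
  rw [h3, inv_pow, one_div]
  exact inv_anti₀ (by positivity) h1

end XWj

/-- Item Wj. -/
theorem pr_Wj : StWj := by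
  intro N j H L hL hj hN
  rcases Nat.eq_zero_or_pos j with rfl | hj0
  · simp
  · have hH2 : 2 ≤ H := by omega
    have hH0 : (0 : ℝ) < H := by
      have : 0 < H := by omega
      exact_mod_cast this
    have hH2' : (2 : ℝ) ≤ H := by exact_mod_cast hH2
    obtain ⟨q, hq⟩ : ∃ q : ℝ, q = 1 - 1 / (H : ℝ) := ⟨_, rfl⟩
    rw [← hq] at hN
    have hq0 : 0 < q := by
      rw [hq]
      have : 1 / (H : ℝ) ≤ 1 / 2 := by
        rw [div_le_div_iff₀ hH0 (by norm_num)]
        linarith
      linarith
    have hq1 : q ≤ 1 := by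
      rw [hq]
      have : 0 ≤ 1 / (H : ℝ) := by positivity
      linarith
    have hqL : 0 < q * L := mul_pos hq0 hL
    have hHN : H ≤ N := by
      have : (H : ℝ) ≤ N := by linarith
      exact_mod_cast this
    have h1 : (q * L) ^ j ≤ (N.descFactorial j : ℝ) := by
      rw [Nat.descFactorial_eq_prod_range]
      push_cast
      rw [← Finset.card_range j, ← Finset.prod_const, Finset.card_range]
      refine Finset.prod_le_prod (fun _ _ => hqL.le) fun i hi => ?_
      have hi' : i < j := Finset.mem_range.mp hi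
      have hiH : i ≤ H := by omega
      rw [Nat.cast_sub (by omega)]
      have : (i : ℝ) ≤ H := by exact_mod_cast hiH
      linarith
    have h2 : (1 / 4 : ℝ) ≤ q ^ j := by
      have h3 := XWj.quarter (H - 1) (by omega)
      have h4 : ((H - 1 : ℕ) : ℝ) + 1 = H := by
        rw [Nat.cast_sub (by omega)]
        push_cast
        ring
      rw [h4, ← hq] at h3
      exact h3.trans (pow_le_pow_of_le_one hq0.le hq1 (by omega))
    have h5 : q ^ j ≤ (N.descFactorial j : ℝ) / L ^ j := by
      rw [le_div_iff₀ (by positivity), ← mul_pow]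
      exact h1
    linarith

end Pool.Agent.F0f91f8.FC
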