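import Pool.Agent.Work.MP_0f91f8_co.FC.I_Av
import Pool.Agent.Work.MP_0f91f8_co.FC.I_Ch
import Pool.Agent.Work.MP_0f91f8_co.FC.I_Cp
import Pool.Agent.Work.MP_0f91f8_co.FC.I_Cw
import Pool.Agent.Work.MP_0f91f8_co.FC.I_Dm
import Pool.Agent.Work.MP_0f91f8_co.FC.I_Dn
import Pool.Agent.Work.MP_0f91f8_co.FC.I_Es
import Pool.Agent.Work.MP_0f91f8_co.FC.I_Fb
import Pool.Agent.Work.MP_0f91f8_co.FC.I_Ft
import Pool.Agent.Work.MP_0f91f8_co.FC.I_Gc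
import Pool.Agent.Work.MP_0f91f8_co.FC.I_Hv
import Pool.Agent.Work.MP_0f91f8_co.FC.I_LSb
import Pool.Agent.Work.MP_0f91f8_co.FC.I_LSp
import Pool.Agent.Work.MP_0f91f8_co.FC.I_LSq
import Pool.Agent.Work.MP_0f91f8_co.FC.I_Mj
import Pool.Agent.Work.MP_0f91f8_co.FC.I_Ms
import Pool.Agent.Work.MP_0f91f8_co.FC.I_Nb
import Pool.Agent.Work.MP_0f91f8_co.FC.I_Rc
import Pool.Agent.Work.MP_0f91f8_co.FC.I_Rh
import Pool.Agent.Work.MP_0f91f8_co.FC.I_Rk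
import Pool.Agent.Work.MP_0f91f8_co.FC.I_Rt
import Pool.Agent.Work.MP_0f91f8_co.FC.I_SB
import Pool.Agent.Work.MP_0f91f8_co.FC.I_Sh
import Pool.Agent.Work.MP_0f91f8_co.FC.I_TK
import Pool.Agent.Work.MP_0f91f8_co.FC.I_Tb
import Pool.Agent.Work.MP_0f91f8_co.FC.I_Tl
import Pool.Agent.Work.MP_0f91f8_co.FC.I_Tp
import Pool.Agent.Work.MP_0f91f8_co.FC.I_Wj

/-!
# Block FC: module S complete
-/

set_option autoImplicit false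

namespace Pool.Agent.F0f91f8.FC

theorem all_LSb : StLSb := pr_LSb (pr_LSq pr_LSp)

theorem all_SB : StSB := pr_SB pr_Rh (pr_Rk pr_Ch) (pr_Nb pr_Rh pr_Rc pr_Rt all_LSb)

theorem all_Cw : StCw := pr_Cw pr_Hv pr_Wj pr_Es

theorem all_Av : StAv :=
  pr_Av pr_Rh (pr_Ms pr_Rh) (pr_Mj pr_Hv (pr_Sh pr_Rh) all_Cw (pr_Fb pr_Hv pr_Cp))

theorem all_Dn : StDn := pr_Dn all_SB pr_Tp (pr_Tl pr_Ch pr_Cp) (pr_Tb pr_TK) all_Av

/-- MODULE S -/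
theorem all_DomS : DomS := pr_Dm pr_Hv pr_Ft pr_Gc all_Dn

end Pool.Agent.F0f91f8.FC
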