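import Pool.Agent.Work.MP_0f91f8_co.FC.StmtsA

/-!
# Item [AA] of block FC, module A: invariance under the primes of a class

Author: helper10.  Captain: helper48.
-/

set_option autoImplicit false

namespace Pool.Agent.F0f91f8.FC

open Filter Topology ComplexConjugate
open scoped BigOperators

namespace XAA

variable {ι : Type} [Fintype ι] [DecidableEq ι]

lemma hv_eq (cl : ℕ → Option ι) (n : ℕ) (S : Finset ℕ) (hS : n.primeFactors ⊆ S) (i : ι) :
    hv cl n i = ∑ p ∈ S.filter (fun p => cl p = some i), n.factorization p := by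
  unfold hv
  refine Finset.sum_subset (Finset.filter_subset_filter _ hS) fun p hp hp' => ?_
  rw [Finset.mem_filter] at hp hp'
  have h1 : p ∉ n.primeFactors := fun h => hp' ⟨h, hp.2⟩
  exact Finsupp.notMem_support_iff.1 (by rwa [Nat.support_factorization])

lemma hv_mul (cl : ℕ → Option ι) (m n : ℕ) (hm : m ≠ 0) (hn : n ≠ 0) (i : ι) :
    hv cl (m * n) i = hv cl m i + hv cl n i := by
  have h0 : m * n ≠ 0 := mul_ne_zero hm hn
  rw [hv_eq cl m (m * n).primeFactors (Nat.primeFactors_mono (Dvd.intro _ rfl) h0),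
    hv_eq cl n (m * n).primeFactors (Nat.primeFactors_mono (Dvd.intro_left _ rfl) h0),
    ← Finset.sum_add_distrib]
  unfold hv
  refine Finset.sum_congr rfl fun p _ => ?_
  rw [Nat.factorization_mul hm hn]
  rfl

lemma hv_self (cl : ℕ → Option ι) (p : ℕ) (hp : p.Prime) (i : ι) (hi : cl p = some i) :
    hv cl p i = 1 := by
  unfold hv
  rw [Nat.Prime.primeFactors hp]
  rw [Finset.sum_filter, Finset.sum_singleton, if_pos hi, Nat.Prime.factorization_self hp]

lemma hv_other (cl : ℕ → Option ι) (p : ℕ) (hp : p.Prime) (i j : ι) (hi : cl p = some i)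
    (hj : j ≠ i) : hv cl p j = 0 := by
  unfold hv
  rw [Nat.Prime.primeFactors hp]
  rw [Finset.sum_filter, Finset.sum_singleton, if_neg]
  rw [hi]
  intro h
  exact hj (Option.some_injective _ h).symm

lemma nn_prime (cl : ℕ → Option ι) (pp : ι → ℕ) (p : ℕ) (hp : p.Prime) (i : ι)
    (hi : cl p = some i) : nn pp (hv cl p) = pp i := by
  unfold nn
  rw [Finset.prod_eq_single i]
  · rw [hv_self cl p hp i hi, pow_one]
  · intro j _ hj
    rw [hv_other cl p hp i j hi hj, pow_zero]
  · intro h
    exact absurd (Finset.mem_univ i) h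

lemma nn_mul (cl : ℕ → Option ι) (pp : ι → ℕ) (m n : ℕ) (hm : m ≠ 0) (hn : n ≠ 0) :
    nn pp (hv cl (m * n)) = nn pp (hv cl m) * nn pp (hv cl n) := by
  unfold nn
  rw [← Finset.prod_mul_distrib]
  refine Finset.prod_congr rfl fun i _ => ?_
  rw [hv_mul cl m n hm hn, pow_add]

lemma nn_one (cl : ℕ → Option ι) (pp : ι → ℕ) : nn pp (hv cl 1) = 1 := by
  unfold nn
  refine Finset.prod_eq_one fun i _ => ?_
  have : hv cl 1 i = 0 := by
    unfold hv
    simp
  rw [this, pow_zero]

end XAA

/-- [AA] -/
theorem pr_AA : StAA := by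
  intro ι _ _ cl pp hR F hF x
  induction x using Nat.strong_induction_on with
  | _ x ih =>
    intro hx hcl n hn
    rcases Nat.lt_or_ge x 2 with h | h
    · have hx1 : x = 1 := by omega
      subst hx1
      rw [XAA.nn_one]
    · have hp : (x.minFac).Prime := Nat.minFac_prime (by omega)
      obtain ⟨y, hy⟩ := Nat.minFac_dvd x
      generalize x.minFac = p at hp hy
      subst hy
      have hy0 : y ≠ 0 := by
        rintro rfl
        simp at hx
      obtain ⟨i, hi⟩ := Option.ne_none_iff_exists'.1 (hcl p hp (Dvd.intro _ rfl))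
      have h1 : F (p * (y * n)) = F (pp i * (y * n)) :=
        hF p (pp i) i hp (hR i).1 hi (hR i).2 (y * n)
          (Nat.mul_pos (Nat.pos_of_ne_zero hy0) hn)
      have h2 := ih y (by
        have := hp.two_le
        nlinarith [Nat.pos_of_ne_zero hy0]) (Nat.pos_of_ne_zero hy0)
        (fun q hq hqy => hcl q hq (hqy.mul_left p)) (pp i * n) (Nat.mul_pos (hR i).1.pos hn)
      rw [XAA.nn_mul cl pp p y hp.ne_zero hy0, XAA.nn_prime cl pp p hp i hi]
      rw [mul_assoc, h1, show pp i * (y * n) = y * (pp i * n) by ring, h2]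
      congr 1
      ring

end Pool.Agent.F0f91f8.FC
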