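import Pool.Agent.Work.MP_0f91f8_co.FC.StmtsA

/-!
# Block FC, item AG: the mean ergodic theorem for boxes
-/

set_option autoImplicit false

namespace Pool.Agent.F0f91f8.FC

open Filter Topology

namespace XAG

variable {N : ℕ} {H : Type} [NormedAddCommGroup H] [InnerProductSpace ℂ H]

/-- the average over the box -/
noncomputable def EK (S : (Fin N → ℕ) → H →ₗᵢ[ℂ] H) (K : ℕ) (h : H) : H :=
  ((K : ℂ) ^ N)⁻¹ • ∑ a : Fin N → Fin K, S (fun i => (a i : ℕ)) h

theorem EK_add (S : (Fin N → ℕ) → H →ₗᵢ[ℂ] H) (K : ℕ) (h h' : H) :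
    EK S K (h + h') = EK S K h + EK S K h' := by
  unfold EK
  simp only [map_add, Finset.sum_add_distrib, smul_add]

theorem EK_smul (S : (Fin N → ℕ) → H →ₗᵢ[ℂ] H) (K : ℕ) (c : ℂ) (h : H) :
    EK S K (c • h) = c • EK S K h := by
  unfold EK
  simp only [map_smul, ← Finset.smul_sum]
  rw [smul_comm]

/-- the average as a linear map -/
noncomputable def EL (S : (Fin N → ℕ) → H →ₗᵢ[ℂ] H) (K : ℕ) : H →ₗ[ℂ] H where
  toFun := EK S K
  map_add' := EK_add S K
  map_smul' := EK_smul S K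

theorem card_box (K : ℕ) : Fintype.card (Fin N → Fin K) = K ^ N := by
  simp

theorem EK_norm (S : (Fin N → ℕ) → H →ₗᵢ[ℂ] H) {K : ℕ} (hK : 0 < K) (h : H) :
    ‖EK S K h‖ ≤ ‖h‖ := by
  have hKN : (0 : ℝ) < (K : ℝ) ^ N := by positivity
  unfold EK
  rw [norm_smul, norm_inv, norm_pow, Complex.norm_natCast]
  have h1 : ‖∑ a : Fin N → Fin K, S (fun i => (a i : ℕ)) h‖ ≤ (K : ℝ) ^ N * ‖h‖ := by
    refine (norm_sum_le _ _).trans (le_of_eq ?_)
    simp only [LinearIsometry.norm_map, Finset.sum_const, Finset.card_univ, card_box,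
      nsmul_eq_mul]
    push_cast
    ring
  rw [inv_mul_le_iff₀ hKN]
  exact h1

theorem EK_inv (S : (Fin N → ℕ) → H →ₗᵢ[ℂ] H) {K : ℕ} (hK : 0 < K) (e : H)
    (he : ∀ a, S a e = e) : EK S K e = e := by
  have hKN : ((K : ℂ) ^ N) ≠ 0 := pow_ne_zero _ (by exact_mod_cast hK.ne')
  unfold EK
  simp only [he, Finset.sum_const, Finset.card_univ, card_box]
  rw [← Nat.cast_smul_eq_nsmul ℂ, smul_smul]
  push_cast
  rw [inv_mul_cancel₀ hKN, one_smul]

theorem ins_add {M K : ℕ} (i : Fin (M + 1)) (j : Fin K) (a : Fin M → Fin K) :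
    (fun l => ((i.insertNth j a : Fin (M + 1) → Fin K) l : ℕ)) =
      (i.insertNth (j : ℕ) (fun l => (a l : ℕ)) : Fin (M + 1) → ℕ) := by
  funext l
  revert l
  rw [Fin.forall_iff_succAbove i]
  refine ⟨by simp, fun l => by simp⟩

theorem ins_single {M : ℕ} (i : Fin (M + 1)) (j : ℕ) (a : Fin M → ℕ) :
    (i.insertNth j a : Fin (M + 1) → ℕ) + Pi.single i 1 =
      (i.insertNth (j + 1) a : Fin (M + 1) → ℕ) := by
  funext l
  revert l
  rw [Fin.forall_iff_succAbove i]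
  refine ⟨by simp, fun l => by simp⟩

theorem shift {M : ℕ} (S : (Fin (M + 1) → ℕ) → H →ₗᵢ[ℂ] H)
    (hS : ∀ a b h, S (a + b) h = S a (S b h)) (i : Fin (M + 1)) (K : ℕ) (h : H) :
    ‖(∑ a : Fin (M + 1) → Fin K, S (fun l => (a l : ℕ)) (S (Pi.single i 1) h)) -
      ∑ a : Fin (M + 1) → Fin K, S (fun l => (a l : ℕ)) h‖ ≤ (K : ℝ) ^ M * (2 * ‖h‖) := by
  rw [← Finset.sum_sub_distrib,
    ← (Fin.insertNthEquiv (fun _ => Fin K) i).sum_comp, Fintype.sum_prod_type, Finset.sum_comm]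
  have hinner : ∀ a : Fin M → Fin K,
      ‖∑ j : Fin K, (S (fun l => (((Fin.insertNthEquiv (fun _ => Fin K) i) (j, a)) l : ℕ))
        (S (Pi.single i 1) h) -
        S (fun l => (((Fin.insertNthEquiv (fun _ => Fin K) i) (j, a)) l : ℕ)) h)‖ ≤
      2 * ‖h‖ := by
    intro a
    have h1 : ∀ j : Fin K, (S (fun l => (((Fin.insertNthEquiv (fun _ => Fin K) i) (j, a)) l : ℕ))
        (S (Pi.single i 1) h) -
        S (fun l => (((Fin.insertNthEquiv (fun _ => Fin K) i) (j, a)) l : ℕ)) h) =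
        (fun j : ℕ => S (i.insertNth (j + 1) (fun l => (a l : ℕ)) : Fin (M + 1) → ℕ) h -
          S (i.insertNth j (fun l => (a l : ℕ)) : Fin (M + 1) → ℕ) h) j := by
      intro j
      have h2 : (fun l => (((Fin.insertNthEquiv (fun _ => Fin K) i) (j, a)) l : ℕ)) =
          (i.insertNth (j : ℕ) (fun l => (a l : ℕ)) : Fin (M + 1) → ℕ) := ins_add i j a
      rw [h2, ← hS, ins_single]
    rw [Finset.sum_congr rfl (fun j _ => h1 j), ← Finset.sum_range (fun j : ℕ =>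
      S (i.insertNth (j + 1) (fun l => (a l : ℕ)) : Fin (M + 1) → ℕ) h -
          S (i.insertNth j (fun l => (a l : ℕ)) : Fin (M + 1) → ℕ) h),
      Finset.sum_range_sub (fun j : ℕ =>
        S (i.insertNth j (fun l => (a l : ℕ)) : Fin (M + 1) → ℕ) h)]
    refine (norm_sub_le _ _).trans (le_of_eq ?_)
    simp only [LinearIsometry.norm_map]
    ring
  refine (norm_sum_le _ _).trans ?_
  refine (Finset.sum_le_sum (fun a _ => hinner a)).trans (le_of_eq ?_)
  simp

theorem tend_single {N : ℕ} (S : (Fin N → ℕ) → H →ₗᵢ[ℂ] H)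
    (hS : ∀ a b h, S (a + b) h = S a (S b h)) (i : Fin N) (h : H) :
    Tendsto (fun K : ℕ => EK S K (S (Pi.single i 1) h) - EK S K h) atTop (𝓝 0) := by
  obtain ⟨M, rfl⟩ : ∃ M, N = M + 1 := ⟨N - 1, by have := i.pos; omega⟩
  have hb : ∀ᶠ K : ℕ in atTop, ‖EK S K (S (Pi.single i 1) h) - EK S K h‖ ≤
      (2 * ‖h‖) * ((K : ℝ))⁻¹ := by
    filter_upwards [eventually_gt_atTop 0] with K hK
    have hKR : (0 : ℝ) < K := by exact_mod_cast hK
    unfold EK
    rw [← smul_sub, norm_smul, norm_inv, norm_pow, Complex.norm_natCast]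
    have h1 := shift S hS i K h
    calc ((K : ℝ) ^ (M + 1))⁻¹ * _ ≤ ((K : ℝ) ^ (M + 1))⁻¹ * ((K : ℝ) ^ M * (2 * ‖h‖)) := by
          gcongr
      _ = (2 * ‖h‖) * ((K : ℝ))⁻¹ := by
          rw [pow_succ]
          field_simp
  refine squeeze_zero_norm' hb ?_
  have h2 := (tendsto_inv_atTop_zero.comp tendsto_natCast_atTop_atTop :
    Tendsto (fun K : ℕ => ((K : ℝ))⁻¹) atTop (𝓝 0)).const_mul (2 * ‖h‖)
  simpa using h2

theorem tend_all {N : ℕ} (S : (Fin N → ℕ) → H →ₗᵢ[ℂ] H) (h0 : ∀ h, S 0 h = h)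
    (hS : ∀ a b h, S (a + b) h = S a (S b h)) (b : Fin N → ℕ) :
    ∀ h : H, Tendsto (fun K : ℕ => EK S K (S b h) - EK S K h) atTop (𝓝 0) := by
  let T : AddSubmonoid (Fin N → ℕ) :=
    { carrier := {b | ∀ h : H, Tendsto (fun K : ℕ => EK S K (S b h) - EK S K h) atTop (𝓝 0)}
      add_mem' := by
        intro a b ha hb h
        have h1 := (ha (S b h)).add (hb h)
        rw [add_zero] at h1
        refine h1.congr (fun K => ?_)
        rw [hS]
        abel
      zero_mem' := by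
        intro h
        simp only [h0, sub_self]
        exact tendsto_const_nhds }
  have hb : b ∈ T := by
    rw [← Finset.univ_sum_single b]
    refine sum_mem (fun i _ => ?_)
    have h1 : (Pi.single i (b i) : Fin N → ℕ) = b i • Pi.single i 1 := by
      rw [← Pi.single_smul]
      simp
    rw [h1]
    have h2 : (Pi.single i 1 : Fin N → ℕ) ∈ T := fun h => tend_single S hS i h
    exact nsmul_mem h2 _
  exact hb

end XAG

theorem pr_AG (hErg : ErgS) : StAG := by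
  intro N H _ _ _ S h0 hS f
  obtain ⟨e, he, hap⟩ := hErg (Fin N → ℕ) inferInstance H inferInstance inferInstance inferInstance
    S h0 hS f
  refine ⟨e, he, ?_⟩
  rw [Metric.tendsto_atTop]
  intro ε hε
  obtain ⟨s, c, hc, hc1, hv⟩ := hap (ε / 2) (by positivity)
  have hT : Tendsto (fun K : ℕ => ∑ a ∈ s, (c a : ℂ) • (XAG.EK S K (S a f) - XAG.EK S K f))
      atTop (𝓝 0) := by
    have h1 : Tendsto (fun K : ℕ => ∑ a ∈ s, (c a : ℂ) • (XAG.EK S K (S a f) - XAG.EK S K f))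
        atTop (𝓝 (∑ a ∈ s, (c a : ℂ) • (0 : H))) :=
      tendsto_finsetSum _ (fun a _ => (XAG.tend_all S h0 hS a f).const_smul _)
    simpa using h1
  rw [Metric.tendsto_atTop] at hT
  obtain ⟨K₀, hK₀⟩ := hT (ε / 2) (by positivity)
  refine ⟨max K₀ 1, fun K hK => ?_⟩
  have hKpos : 0 < K := by
    have := le_max_right K₀ 1
    omega
  have hK1 := hK₀ K ((le_max_left K₀ 1).trans hK)
  rw [dist_zero_right] at hK1
  rw [dist_eq_norm]
  change ‖XAG.EK S K f - e‖ < ε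
  set v : H := ∑ a ∈ s, (c a : ℂ) • S a f with hvdef
  have hsum : ∑ a ∈ s, (c a : ℂ) • (XAG.EK S K (S a f) - XAG.EK S K f) =
      XAG.EK S K v - XAG.EK S K f := by
    have h2 : XAG.EK S K v = ∑ a ∈ s, (c a : ℂ) • XAG.EK S K (S a f) := by
      change XAG.EL S K v = _
      rw [hvdef, map_sum]
      refine Finset.sum_congr rfl (fun a _ => ?_)
      rw [map_smul]
      rfl
    rw [h2]
    simp only [smul_sub, Finset.sum_sub_distrib]
    rw [← Finset.sum_smul]
    have h3 : ∑ a ∈ s, (c a : ℂ) = 1 := by exact_mod_cast hc1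
    rw [h3, one_smul]
  have hEe : XAG.EK S K e = e := XAG.EK_inv S hKpos e he
  have hsub : XAG.EK S K (v - e) = XAG.EK S K v - e := by
    have : XAG.EL S K (v - e) = XAG.EL S K v - XAG.EL S K e := map_sub _ _ _
    have h4 : XAG.EL S K e = e := hEe
    rw [h4] at this
    exact this
  have h5 : ‖XAG.EK S K v - e‖ ≤ ε / 2 := by
    rw [← hsub]
    exact (XAG.EK_norm S hKpos _).trans hv
  have h6 : ‖XAG.EK S K v - XAG.EK S K f‖ < ε / 2 := by rw [← hsum]; exact hK1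
  calc ‖XAG.EK S K f - e‖ = ‖(XAG.EK S K v - e) - (XAG.EK S K v - XAG.EK S K f)‖ := by
        congr 1; abel
    _ ≤ ‖XAG.EK S K v - e‖ + ‖XAG.EK S K v - XAG.EK S K f‖ := norm_sub_le _ _
    _ < ε := by linarith

end Pool.Agent.F0f91f8.FC
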