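import Pool.Agent.Work.MP_0f91f8_co.FC.StmtsA

/-!
# Block FC, item AK (helper59): the average over the parameter
-/

set_option autoImplicit false

namespace Pool.Agent.F0f91f8.FC

open Filter Topology ComplexConjugate
open Pool.Agent.F0f91f8.HD
open scoped BigOperators

namespace XAK

/-- the product of the primes up to `w` with exponents `a` -/
def Pw (w : ℕ) (a : Fin (w + 1) → ℕ) : ℕ :=
  ∏ p : Fin (w + 1), if (p : ℕ).Prime then (p : ℕ) ^ (a p) else 1

lemma Pw_kp (w K : ℕ) (e : Fin (w + 1) → Fin K) : kp w K e = Pw w (fun i => (e i : ℕ)) := rfl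

lemma Pw_pos (w : ℕ) (a : Fin (w + 1) → ℕ) : 0 < Pw w a := by
  refine Finset.prod_pos fun p _ => ?_
  split_ifs with h
  · exact pow_pos h.pos _
  · exact one_pos

lemma Pw_zero (w : ℕ) : Pw w 0 = 1 := by
  unfold Pw
  refine Finset.prod_eq_one fun p _ => ?_
  split_ifs <;> simp

lemma Pw_add (w : ℕ) (a b : Fin (w + 1) → ℕ) : Pw w (a + b) = Pw w a * Pw w b := by
  unfold Pw
  rw [← Finset.prod_mul_distrib]
  refine Finset.prod_congr rfl fun p _ => ?_
  split_ifs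
  · rw [Pi.add_apply, pow_add]
  · simp

lemma Pw_single (w : ℕ) (p : Fin (w + 1)) (hp : (p : ℕ).Prime) : Pw w (Pi.single p 1) = p := by
  unfold Pw
  rw [Finset.prod_eq_single p]
  · rw [if_pos hp, Pi.single_eq_same, pow_one]
  · intro q _ hq
    rw [Pi.single_eq_of_ne hq]; simp
  · intro h; exact absurd (Finset.mem_univ p) h

variable {m : (ℕ → ℝ) → ℝ}

lemma bdR_I01 {F : ℕ → ℝ} (h : I01 F) : BdR F :=
  ⟨1, fun n => abs_le.2 ⟨by linarith [(h n).1], (h n).2⟩⟩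

lemma bdC_cf {F : ℕ → ℝ} (h : BdR F) : BdC (cf F) := by
  obtain ⟨C, hC⟩ := h
  refine ⟨C, fun n => ?_⟩
  unfold cf
  rw [Complex.norm_real]
  exact hC n

lemma e_sum {α : Type} (R : Rep m) (s : Finset α) (G : α → ℕ → ℂ) (hG : ∀ a ∈ s, BdC (G a)) :
    BdC (fun n => ∑ a ∈ s, G a n) ∧ R.e (fun n => ∑ a ∈ s, G a n) = ∑ a ∈ s, R.e (G a) := by
  classical
  induction s using Finset.induction_on with
  | empty =>
    refine ⟨⟨0, fun n => by simp⟩, ?_⟩
    have h := R.e_smul 0 (fun _ => (0 : ℂ)) ⟨0, fun n => by simp⟩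
    simpa using h
  | insert a s ha ih =>
    obtain ⟨ih1, ih2⟩ := ih fun b hb => hG b (Finset.mem_insert_of_mem hb)
    have h1 := hG a (Finset.mem_insert_self a s)
    have e1 : (fun n => ∑ b ∈ insert a s, G b n) = fun n => G a n + ∑ b ∈ s, G b n := by
      funext n
      rw [Finset.sum_insert ha]
    constructor
    · rw [e1]
      obtain ⟨C, hC⟩ := h1
      obtain ⟨D, hD⟩ := ih1
      exact ⟨C + D, fun n => (norm_add_le _ _).trans (add_le_add (hC n) (hD n))⟩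
    · rw [e1, R.e_add _ _ h1 ih1, ih2, Finset.sum_insert ha]

lemma inner_cf (hAm : StAm) (hm : IsMean m) (R : Rep m) {F G : ℕ → ℝ} (hF : BdR F) (hG : BdR G) :
    inner ℂ (R.e (cf F)) (R.e (cf G)) = ((m fun n => F n * G n : ℝ) : ℂ) := by
  rw [R.e_inner _ _ (bdC_cf hF) (bdC_cf hG)]
  unfold mC cf
  have h1 : (fun n => (conj ((F n : ℝ) : ℂ) * ((G n : ℝ) : ℂ)).re) = fun n => F n * G n := by
    funext n; simp
  have h2 : (fun n => (conj ((F n : ℝ) : ℂ) * ((G n : ℝ) : ℂ)).im) = fun _ => (0 : ℝ) := by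
    funext n; simp
  rw [h1, h2, (hAm m hm).2.2.1 0]
  simp

/-- averages over the exponents -/
noncomputable def avg (w K : ℕ) (f : ℕ → ℝ) (n : ℕ) : ℝ :=
  ∑ e : Fin (w + 1) → Fin K, ((K : ℝ) ^ (w + 1))⁻¹ * f (kp w K e * n)

lemma card_fun (w K : ℕ) : (Fintype.card (Fin (w + 1) → Fin K) : ℝ) = (K : ℝ) ^ (w + 1) := by
  rw [Fintype.card_fun, Fintype.card_fin, Fintype.card_fin]
  push_cast; rfl

lemma avg_I01 {w K : ℕ} (hK : 1 ≤ K) {f : ℕ → ℝ} (hf : I01 f) : I01 (avg w K f) := by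
  have hK0 : (0 : ℝ) < (K : ℝ) ^ (w + 1) := by positivity
  intro n
  unfold avg
  constructor
  · refine Finset.sum_nonneg fun e _ => mul_nonneg (inv_nonneg.2 hK0.le) (hf _).1
  · rw [← Finset.mul_sum]
    have h1 : ∑ e : Fin (w + 1) → Fin K, f (kp w K e * n) ≤ (K : ℝ) ^ (w + 1) := by
      calc ∑ e : Fin (w + 1) → Fin K, f (kp w K e * n) ≤ ∑ e : Fin (w + 1) → Fin K, (1 : ℝ) :=
            Finset.sum_le_sum fun e _ => (hf _).2
        _ = (K : ℝ) ^ (w + 1) := by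
            rw [Finset.sum_const, Finset.card_univ, nsmul_eq_mul, mul_one, card_fun]
    calc ((K : ℝ) ^ (w + 1))⁻¹ * ∑ e : Fin (w + 1) → Fin K, f (kp w K e * n)
        ≤ ((K : ℝ) ^ (w + 1))⁻¹ * (K : ℝ) ^ (w + 1) :=
          mul_le_mul_of_nonneg_left h1 (inv_nonneg.2 hK0.le)
      _ = 1 := inv_mul_cancel₀ hK0.ne'

lemma avg_sq {w K : ℕ} (hK : 1 ≤ K) (f : ℕ → ℝ) (n : ℕ) :
    avg w K f n ^ 2 ≤ avg w K (fun k => f k ^ 2) n := by
  have hK0 : (0 : ℝ) < (K : ℝ) ^ (w + 1) := by positivity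
  unfold avg
  rw [← Finset.mul_sum, ← Finset.mul_sum, mul_pow]
  have h1 := sq_sum_le_card_mul_sum_sq (s := (Finset.univ : Finset (Fin (w + 1) → Fin K)))
    (f := fun e => f (kp w K e * n))
  rw [Finset.card_univ, card_fun] at h1
  calc ((K : ℝ) ^ (w + 1))⁻¹ ^ 2 * (∑ e : Fin (w + 1) → Fin K, f (kp w K e * n)) ^ 2
      ≤ ((K : ℝ) ^ (w + 1))⁻¹ ^ 2 *
        ((K : ℝ) ^ (w + 1) * ∑ e : Fin (w + 1) → Fin K, f (kp w K e * n) ^ 2) :=
        mul_le_mul_of_nonneg_left h1 (by positivity)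
    _ = ((K : ℝ) ^ (w + 1))⁻¹ * ∑ e : Fin (w + 1) → Fin K, f (kp w K e * n) ^ 2 := by
        field_simp

lemma e_avg (R : Rep m) {w K : ℕ} {f : ℕ → ℝ} (hf : BdR f) :
    R.e (cf (avg w K f)) = ((K : ℂ) ^ (w + 1))⁻¹ •
      ∑ e : Fin (w + 1) → Fin K, R.T (kp w K e) (R.e (cf f)) := by
  obtain ⟨C, hC⟩ := hf
  have hb : ∀ e ∈ (Finset.univ : Finset (Fin (w + 1) → Fin K)),
      BdC (fun n => cf f (kp w K e * n)) := fun e _ => ⟨C, fun n => by
    unfold cf
    rw [Complex.norm_real]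
    exact hC _⟩
  obtain ⟨h1, h2⟩ := e_sum R Finset.univ (fun e n => cf f (kp w K e * n)) hb
  have e1 : cf (avg w K f) = fun n => ((K : ℂ) ^ (w + 1))⁻¹ *
      ∑ e : Fin (w + 1) → Fin K, cf f (kp w K e * n) := by
    funext n
    unfold cf avg
    rw [← Finset.mul_sum]
    push_cast
    rfl
  rw [e1, R.e_smul _ _ h1, h2]
  congr 1
  refine Finset.sum_congr rfl fun e _ => ?_
  rw [R.T_e (kp w K e) (by rw [Pw_kp]; exact Pw_pos _ _) (cf f)
    ⟨C, fun n => by unfold cf; rw [Complex.norm_real]; exact hC _⟩]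

end XAK

open XAK in
theorem pr_AK (hAm : StAm) (hAn : StAn) (hAG : StAG) : StAK := by
  intro m hm R f hf w ε hw hε
  have Am := hAm m hm
  have An := hAn m hm R
  have hfB : BdR f := bdR_I01 hf
  -- the action
  let S : (Fin (w + 1) → ℕ) → R.H →ₗᵢ[ℂ] R.H := fun a => R.T (Pw w a)
  have hS0 : ∀ h, S 0 h = h := fun h => by
    change R.T (Pw w 0) h = h
    rw [Pw_zero, R.T_one]
  have hSadd : ∀ a b h, S (a + b) h = S a (S b h) := fun a b h => by
    change R.T (Pw w (a + b)) h = R.T (Pw w a) (R.T (Pw w b) h)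
    rw [Pw_add, R.T_mul _ _ (Pw_pos _ _) (Pw_pos _ _)]
  obtain ⟨u, hu, hlim⟩ := hAG (w + 1) R.H inferInstance inferInstance inferInstance S hS0 hSadd
    (R.e (cf f))
  -- `u` is invariant under dilations by integers with prime factors at most `w`
  have hTu : ∀ n : ℕ, n ≠ 0 → (∀ p : ℕ, p.Prime → p ∣ n → p ≤ w) → R.T n u = u := by
    intro n
    induction n using Nat.recOnMul with
    | zero => intro h; exact absurd rfl h
    | one => intro _ _; exact R.T_one u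
    | prime p hp =>
      intro _ h
      have hpw := h p hp dvd_rfl
      have h1 := hu (Pi.single (⟨p, by omega⟩ : Fin (w + 1)) 1)
      change R.T (Pw w _) u = u at h1
      rwa [Pw_single w ⟨p, by omega⟩ hp] at h1
    | mul a b iha ihb =>
      intro h0 h
      have ha : a ≠ 0 := fun h1 => h0 (by rw [h1, zero_mul])
      have hb : b ≠ 0 := fun h1 => h0 (by rw [h1, mul_zero])
      rw [R.T_mul a b (Nat.pos_of_ne_zero ha) (Nat.pos_of_ne_zero hb),
        ihb hb fun p hp hpb => h p hp (hpb.mul_left a),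
        iha ha fun p hp hpa => h p hp (hpa.mul_right b)]
  set q : ℕ := 2 * w.factorial with hq
  have hq0 : 0 < q := by positivity
  have hTq : R.T q u = u := by
    refine hTu q hq0.ne' fun p hp hpq => ?_
    rcases (Nat.Prime.dvd_mul hp).1 hpq with h | h
    · exact (Nat.le_of_dvd two_pos h).trans hw
    · exact (hp.dvd_factorial).1 h
  -- choice of `K`
  have hlim2 := (Metric.tendsto_atTop.1 hlim) (ε / 2) (by positivity)
  obtain ⟨K₁, hK₁⟩ := hlim2
  refine ⟨max K₁ 1, fun K hK => ?_⟩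
  have hK1 : 1 ≤ K := (le_max_right _ _).trans hK
  have hδ : ‖R.e (cf (avg w K f)) - u‖ ≤ ε / 2 := by
    have h1 := hK₁ K ((le_max_left _ _).trans hK)
    rw [dist_eq_norm] at h1
    rw [e_avg R hfB]
    exact h1.le
  have hK0 : (0 : ℝ) < (K : ℝ) ^ (w + 1) := by positivity
  set F := avg w K f with hFdef
  set G := avg w K (fun k => f k ^ 2) with hGdef
  have hf2 : I01 (fun k => f k ^ 2) := fun n =>
    ⟨sq_nonneg _, pow_le_one₀ (hf n).1 (hf n).2⟩
  have hF01 : I01 F := avg_I01 hK1 hf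
  have hG01 : I01 G := avg_I01 hK1 hf2
  have hdF01 : I01 (dil q F) := fun n => hF01 _
  -- (1) the left side
  have e1 : (∑ e : Fin (w + 1) → Fin K,
      m fun n => f n ^ 2 * f (2 * (w.factorial * kp w K e) * n)) / (K : ℝ) ^ (w + 1) =
      m fun n => f n ^ 2 * dil q F n := by
    have h1 := Am.2.2.2.2.1 (Fin (w + 1) → Fin K) Finset.univ
      (fun _ => ((K : ℝ) ^ (w + 1))⁻¹)
      (fun e n => f n ^ 2 * f (2 * (w.factorial * kp w K e) * n)) (fun e _ =>
        bdR_I01 fun n => ⟨mul_nonneg (hf2 n).1 (hf _).1,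
          mul_le_one₀ (hf2 n).2 (hf _).1 (hf _).2⟩)
    rw [← Finset.mul_sum] at h1
    rw [div_eq_inv_mul, ← h1]
    congr 1
    funext n
    rw [hFdef]
    unfold dil avg
    rw [Finset.mul_sum]
    refine Finset.sum_congr rfl fun e _ => ?_
    have h2 : 2 * (w.factorial * kp w K e) * n = kp w K e * (q * n) := by rw [hq]; ring
    rw [h2]
    ring
  -- (2) the mean of `F`
  have e2 : m F = m f := by
    have h1 := Am.2.2.2.2.1 (Fin (w + 1) → Fin K) Finset.univ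
      (fun _ => ((K : ℝ) ^ (w + 1))⁻¹)
      (fun e n => f (kp w K e * n)) (fun e _ => bdR_I01 fun n => hf _)
    have h2 : m F = ∑ e : Fin (w + 1) → Fin K, ((K : ℝ) ^ (w + 1))⁻¹ *
        m (fun n => f (kp w K e * n)) := h1
    rw [h2]
    have h3 : ∀ e : Fin (w + 1) → Fin K, m (fun n => f (kp w K e * n)) = m f := fun e =>
      hm.2.2.2.2 _ (by rw [Pw_kp]; exact Pw_pos _ _) f hfB
    simp only [h3, Finset.sum_const, Finset.card_univ, nsmul_eq_mul, card_fun]
    rw [← mul_assoc, mul_inv_cancel₀ hK0.ne', one_mul]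
  -- (3) inner products
  have i1 : inner ℂ (R.e (cf fun k => f k ^ 2)) (R.T q (R.e (cf F))) =
      ((m fun n => f n ^ 2 * dil q F n : ℝ) : ℂ) := by
    rw [An.2.2.2.2.1 q hq0 F (bdR_I01 hF01)]
    exact inner_cf hAm hm R (bdR_I01 hf2) (bdR_I01 hdF01)
  have i2 : inner ℂ (R.e (cf G)) (R.e (cf F)) = ((m fun n => G n * F n : ℝ) : ℂ) :=
    inner_cf hAm hm R (bdR_I01 hG01) (bdR_I01 hF01)
  have i3 : inner ℂ (R.e (cf G)) u = inner ℂ (R.e (cf fun k => f k ^ 2)) u := by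
    rw [hGdef, e_avg R (bdR_I01 hf2), inner_smul_left, sum_inner]
    have h3 : ∀ e : Fin (w + 1) → Fin K,
        inner ℂ (R.T (kp w K e) (R.e (cf fun k => f k ^ 2))) u =
          inner ℂ (R.e (cf fun k => f k ^ 2)) u := by
      intro e
      have h4 : R.T (kp w K e) u = u := hu (fun i => (e i : ℕ))
      nth_rewrite 1 [← h4]
      exact LinearIsometry.inner_map_map _ _ _
    simp only [h3, Finset.sum_const, Finset.card_univ, nsmul_eq_mul]
    have h5 : ((Fintype.card (Fin (w + 1) → Fin K) : ℕ) : ℂ) = (K : ℂ) ^ (w + 1) := by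
      exact_mod_cast card_fun w K
    rw [h5, ← mul_assoc]
    have h6 : (K : ℂ) ^ (w + 1) ≠ 0 := by exact_mod_cast hK0.ne'
    have h7 : conj (((K : ℂ) ^ (w + 1))⁻¹) = ((K : ℂ) ^ (w + 1))⁻¹ := by simp
    rw [h7, inv_mul_cancel₀ h6, one_mul]
  have n1 : ‖R.e (cf fun k => f k ^ 2)‖ ≤ 1 := An.2.2.2.1 _ hf2
  have n2 : ‖R.e (cf G)‖ ≤ 1 := An.2.2.2.1 _ hG01
  -- (4) first comparison
  have c1 : (inner ℂ (R.e (cf fun k => f k ^ 2)) u).re - ε / 2 ≤
      m fun n => f n ^ 2 * dil q F n := by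
    have h1 : inner ℂ (R.e (cf fun k => f k ^ 2)) (R.T q (R.e (cf F))) -
        inner ℂ (R.e (cf fun k => f k ^ 2)) u =
        inner ℂ (R.e (cf fun k => f k ^ 2)) (R.T q (R.e (cf F) - u)) := by
      rw [map_sub, hTq, inner_sub_right]
    have h2 : ‖inner ℂ (R.e (cf fun k => f k ^ 2)) (R.T q (R.e (cf F) - u))‖ ≤ ε / 2 := by
      refine (norm_inner_le_norm _ _).trans ?_
      rw [LinearIsometry.norm_map]
      calc ‖R.e (cf fun k => f k ^ 2)‖ * ‖R.e (cf F) - u‖ ≤ 1 * (ε / 2) :=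
            mul_le_mul n1 hδ (norm_nonneg _) zero_le_one
        _ = ε / 2 := one_mul _
    rw [← h1, i1] at h2
    have h3 := (Complex.abs_re_le_norm _).trans h2
    rw [Complex.sub_re, Complex.ofReal_re] at h3
    have := (abs_le.1 h3).1
    linarith
  have c2 : (m fun n => G n * F n) - ε / 2 ≤ (inner ℂ (R.e (cf G)) u).re := by
    have h1 : inner ℂ (R.e (cf G)) (R.e (cf F)) - inner ℂ (R.e (cf G)) u =
        inner ℂ (R.e (cf G)) (R.e (cf F) - u) := by
      rw [inner_sub_right]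
    have h2 : ‖inner ℂ (R.e (cf G)) (R.e (cf F) - u)‖ ≤ ε / 2 := by
      refine (norm_inner_le_norm _ _).trans ?_
      calc ‖R.e (cf G)‖ * ‖R.e (cf F) - u‖ ≤ 1 * (ε / 2) :=
            mul_le_mul n2 hδ (norm_nonneg _) zero_le_one
        _ = ε / 2 := one_mul _
    rw [← h1, i2] at h2
    have h3 := (Complex.abs_re_le_norm _).trans h2
    rw [Complex.sub_re, Complex.ofReal_re] at h3
    have := (abs_le.1 h3).2
    linarith
  -- (5) the main term
  have c3 : m F ^ 3 ≤ m fun n => G n * F n := by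
    refine (Am.2.2.2.2.2.2 F hF01).trans (Am.1 _ _ (bdR_I01 fun n =>
      ⟨pow_nonneg (hF01 n).1 3, pow_le_one₀ (hF01 n).1 (hF01 n).2⟩) (bdR_I01 fun n =>
      ⟨mul_nonneg (hG01 n).1 (hF01 n).1, mul_le_one₀ (hG01 n).2 (hF01 n).1 (hF01 n).2⟩)
      fun n _ => ?_)
    have h1 : F n ^ 3 = F n ^ 2 * F n := by ring
    rw [h1]
    exact mul_le_mul_of_nonneg_right (avg_sq hK1 f n) (hF01 n).1
  rw [e1]
  rw [e2] at c3
  rw [i3] at c2
  linarith

end Pool.Agent.F0f91f8.FC
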