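import Pool.Agent.Work.MP_0f91f8_co.FC.StmtsA

/-!
# Block FC, item AL: the structured part at members with trivial characters
-/

set_option autoImplicit false

namespace Pool.Agent.F0f91f8.FC

open Filter Topology ComplexConjugate
open Pool.Agent.F0f91f8.HD
open scoped BigOperators

namespace XAL

theorem abs1 {F : ℕ → ℝ} (h : I01 F) (n : ℕ) : |F n| ≤ 1 := by
  rw [abs_le]
  constructor <;> linarith [(h n).1, (h n).2]

theorem bd {F : ℕ → ℝ} (h : I01 F) : BdR F := ⟨1, abs1 h⟩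

theorem i01_dil {F : ℕ → ℝ} (h : I01 F) (k : ℕ) : I01 (dil k F) := fun n => h (k * n)

theorem i01_mul {F G : ℕ → ℝ} (hF : I01 F) (hG : I01 G) : I01 fun n => F n * G n := fun n =>
  ⟨mul_nonneg (hF n).1 (hG n).1, mul_le_one₀ (hF n).2 (hG n).1 (hG n).2⟩

end XAL

open XAL in
theorem pr_AL (hTA : StTA) (hAm : StAm) (hAn : StAn) : StAL := by
  intro ι iF iD cl pp hpp m hm R f f' X₁ ε hf hε hA k hk α β γ habc
  obtain ⟨hnn, hact⟩ := hTA ι iF iD cl pp hpp
  obtain ⟨-, hcomm⟩ := hact m R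
  obtain ⟨-, -, -, -, n5, n6⟩ := hAn m hm R
  obtain ⟨-, -, -, -, m5, -, -⟩ := hAm m hm
  have hinv := hm.2.2.2.2
  have hf' := hA.h01
  obtain ⟨G, hG⟩ : ∃ G : ℕ → ℝ, G = dil k f' := ⟨_, rfl⟩
  have hG01 : I01 G := hG ▸ i01_dil hf' k
  have hnn0 : ∀ a : ι → ℕ, 0 < nn pp a := fun a => (hnn a a).1
  -- almost invariance
  have D1 : ∀ a : ι → ℕ, (∀ z ∈ X₁, ch z a = 1) →
      ‖R.e (cf (dil (nn pp a) f')) - R.e (cf f')‖ ≤ ε := by
    intro a ha
    have h := hA.hi a ha
    unfold Sa at h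
    rwa [n5 _ (hnn0 a) f' (bd hf')] at h
  have D2 : ∀ a : ι → ℕ, (∀ z ∈ X₁, ch z a = 1) →
      ‖R.e (cf (dil (nn pp a) G)) - R.e (cf G)‖ ≤ ε := by
    intro a ha
    have e1 : R.e (cf G) = R.T k (R.e (cf f')) := by rw [hG, n5 k hk f' (bd hf')]
    have e2 : R.e (cf (dil (nn pp a) G)) = R.T k (Sa R pp a (R.e (cf f'))) := by
      rw [← n5 _ (hnn0 a) G (bd hG01), e1, hcomm k a _ hk]
      rfl
    rw [e2, e1, ← map_sub, LinearIsometry.norm_map]
    exact hA.hi a ha
  have tri : ∀ x y z : R.H, ‖x - z‖ ≤ ε → ‖y - z‖ ≤ ε → ‖x - y‖ ≤ 2 * ε := by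
    intro x y z h1 h2
    have : x - y = (x - z) - (y - z) := by abel
    rw [this]
    exact (norm_sub_le _ _).trans (by linarith)
  obtain ⟨hα, hβ, hγ⟩ : (∀ z ∈ X₁, ch z α = 1) ∧ (∀ z ∈ X₁, ch z β = 1) ∧
      (∀ z ∈ X₁, ch z γ = 1) :=
    ⟨fun z hz => (habc z hz).1, fun z hz => (habc z hz).2.1, fun z hz => (habc z hz).2.2⟩
  -- step 1
  have s1 : |(m fun n => f (nn pp γ * n) * G (nn pp α * n) * f' (nn pp β * n)) -
      m fun n => f (nn pp γ * n) * G (nn pp γ * n) * f' (nn pp β * n)| ≤ 2 * ε := by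
    have h := n6 (dil (nn pp γ) f) (dil (nn pp β) f') (dil (nn pp α) G) (dil (nn pp γ) G)
      (abs1 (i01_dil hf _)) (abs1 (i01_dil hf' _)) (bd (i01_dil hG01 _)) (bd (i01_dil hG01 _))
    have h' := tri _ _ _ (D2 α hα) (D2 γ hγ)
    have e1 : (fun n => f (nn pp γ * n) * G (nn pp α * n) * f' (nn pp β * n)) =
        fun n => dil (nn pp γ) f n * dil (nn pp β) f' n * dil (nn pp α) G n := by
      funext n
      unfold dil
      ring
    have e2 : (fun n => f (nn pp γ * n) * G (nn pp γ * n) * f' (nn pp β * n)) =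
        fun n => dil (nn pp γ) f n * dil (nn pp β) f' n * dil (nn pp γ) G n := by
      funext n
      unfold dil
      ring
    rw [e1, e2]
    exact h.trans h'
  -- step 2
  have s2 : |(m fun n => f (nn pp γ * n) * G (nn pp γ * n) * f' (nn pp β * n)) -
      m fun n => f (nn pp γ * n) * G (nn pp γ * n) * f' (nn pp γ * n)| ≤ 2 * ε := by
    have h := n6 (dil (nn pp γ) f) (dil (nn pp γ) G) (dil (nn pp β) f') (dil (nn pp γ) f')
      (abs1 (i01_dil hf _)) (abs1 (i01_dil hG01 _)) (bd (i01_dil hf' _)) (bd (i01_dil hf' _))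
    exact h.trans (tri _ _ _ (D1 β hβ) (D1 γ hγ))
  have hfGf : I01 fun n => f n * G n * f' n := i01_mul (i01_mul hf hG01) hf'
  have s3 : ∀ a : ι → ℕ, (m fun n => f (nn pp a * n) * G (nn pp a * n) * f' (nn pp a * n)) =
      m fun n => f n * G n * f' n := fun a =>
    hinv (nn pp a) (hnn0 a) (fun n => f n * G n * f' n) (bd hfGf)
  -- step 3
  have s4 : ∀ a : ι → ℕ, (∀ z ∈ X₁, ch z a = 1) →
      |(m fun n => f n * G n * f' n) - m fun n => f (nn pp a * n) * G n * f' n| ≤ 2 * ε := by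
    intro a ha
    have h1 := n6 (dil (nn pp a) f) (dil (nn pp a) f') (dil (nn pp a) G) G
      (abs1 (i01_dil hf _)) (abs1 (i01_dil hf' _)) (bd (i01_dil hG01 _)) (bd hG01)
    have h2 := n6 (dil (nn pp a) f) G (dil (nn pp a) f') f'
      (abs1 (i01_dil hf _)) (abs1 hG01) (bd (i01_dil hf' _)) (bd hf')
    have e1 : (fun n => f (nn pp a * n) * G (nn pp a * n) * f' (nn pp a * n)) =
        fun n => dil (nn pp a) f n * dil (nn pp a) f' n * dil (nn pp a) G n := by
      funext n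
      unfold dil
      ring
    have e2 : (fun n => dil (nn pp a) f n * dil (nn pp a) f' n * G n) =
        fun n => dil (nn pp a) f n * G n * dil (nn pp a) f' n := by
      funext n
      ring
    have e3 : (fun n => f (nn pp a * n) * G n * f' n) =
        fun n => dil (nn pp a) f n * G n * f' n := rfl
    rw [← s3 a, e1, e3]
    rw [e2] at h1
    have h3 := h1.trans (D2 a ha)
    have h4 := h2.trans (D1 a ha)
    calc _ ≤ _ := abs_sub_le _ (m fun n => dil (nn pp a) f n * G n * dil (nn pp a) f' n) _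
      _ ≤ ε + ε := add_le_add h3 h4
      _ = 2 * ε := by ring
  obtain ⟨s, c, hs, hc0, hc1, hcf⟩ := hA.hc
  have s5 : (m fun n => f' n ^ 2 * f' (k * n)) =
      ∑ a ∈ s, c a * m fun n => f (nn pp a * n) * G n * f' n := by
    rw [← m5 (ι → ℕ) s c (fun a n => f (nn pp a * n) * G n * f' n)
      (fun a _ => bd (i01_mul (i01_mul (i01_dil hf (nn pp a)) hG01) hf'))]
    congr 1
    funext n
    have e1 : ∑ a ∈ s, c a * (f (nn pp a * n) * G n * f' n) =
        (∑ a ∈ s, c a * f (nn pp a * n)) * (G n * f' n) := by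
      rw [Finset.sum_mul]
      exact Finset.sum_congr rfl fun a _ => by ring
    rw [e1, ← hcf n, hG]
    unfold dil
    ring
  have s6 : |(m fun n => f n * G n * f' n) - m fun n => f' n ^ 2 * f' (k * n)| ≤ 2 * ε := by
    have e1 : (m fun n => f n * G n * f' n) - (m fun n => f' n ^ 2 * f' (k * n)) =
        ∑ a ∈ s, c a * ((m fun n => f n * G n * f' n) - m fun n => f (nn pp a * n) * G n * f' n) := by
      rw [s5]
      simp only [mul_sub]
      rw [Finset.sum_sub_distrib, ← Finset.sum_mul, hc1, one_mul]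
    rw [e1]
    calc _ ≤ ∑ a ∈ s, |c a * ((m fun n => f n * G n * f' n) -
          m fun n => f (nn pp a * n) * G n * f' n)| := Finset.abs_sum_le_sum_abs _ _
      _ ≤ ∑ a ∈ s, c a * (2 * ε) := by
          refine Finset.sum_le_sum fun a ha => ?_
          rw [abs_mul, abs_of_nonneg (hc0 a)]
          exact mul_le_mul_of_nonneg_left (s4 a (hs a ha)) (hc0 a)
      _ = 2 * ε := by rw [← Finset.sum_mul, hc1, one_mul]
  rw [s3 γ] at s2
  have e0 : Qm m pp f (dil k f') f' α β γ =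
      m fun n => f (nn pp γ * n) * G (nn pp α * n) * f' (nn pp β * n) := by
    rw [hG]
    rfl
  rw [e0]
  have t1 := abs_le.1 s1
  have t2 := abs_le.1 s2
  have t3 := abs_le.1 s6
  rw [abs_le]
  constructor <;> linarith [t1.1, t1.2, t2.1, t2.2, t3.1, t3.2]

end Pool.Agent.F0f91f8.FC
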