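import Pool.Agent.Work.MP_0f91f8_co.FC.StmtsA

/-!
# Block FC, item AM: the prime factors of the members of the family
-/

set_option autoImplicit false

namespace Pool.Agent.F0f91f8.FC

open Filter Topology ComplexConjugate
open Pool.Agent.F0f91f8.HD
open scoped BigOperators

namespace XAM

/-- all prime factors of the members are `> w` -/
theorem key (w κ A N p : ℕ) (hk : w.factorial ∣ κ) (hp : p.Prime)
    (hd : p ∣ xF κ (w.factorial * A + 1) (w.factorial * N + 1) *
      yF κ (w.factorial * A + 1) (w.factorial * N + 1) *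
      zF κ (w.factorial * A + 1) (w.factorial * N + 1)) : w < p := by
  by_contra hle
  push Not at hle
  have h1 : p ∣ w.factorial := (hp.dvd_factorial).2 hle
  have h2 : w.factorial ≡ 0 [MOD p] := (Nat.modEq_zero_iff_dvd).2 h1
  have hk2 : κ ≡ 0 [MOD p] := (Nat.modEq_zero_iff_dvd).2 (h1.trans hk)
  have ha : w.factorial * A + 1 ≡ 1 [MOD p] := by
    have := (h2.mul_right A).add_right 1
    simpa using this
  have hn : w.factorial * N + 1 ≡ 1 [MOD p] := by
    have := (h2.mul_right N).add_right 1
    simpa using this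
  have hkn : κ * (w.factorial * N + 1) ≡ 0 * 1 [MOD p] := hk2.mul hn
  have hx : xF κ (w.factorial * A + 1) (w.factorial * N + 1) ≡ 1 * (1 + 0 * 1) [MOD p] :=
    hn.mul (ha.add hkn)
  have hy : yF κ (w.factorial * A + 1) (w.factorial * N + 1) ≡ 1 * (1 + 2 * (0 * 1)) [MOD p] :=
    ha.mul (ha.add (hkn.mul_left 2))
  have hz : zF κ (w.factorial * A + 1) (w.factorial * N + 1) ≡
      (1 + 0 * 1) ^ 2 + (0 * 1) ^ 2 [MOD p] :=
    ((ha.add hkn).pow 2).add (hkn.pow 2)
  have h3 := (hx.mul hy).mul hz
  have h4 := (Nat.modEq_zero_iff_dvd).2 hd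
  have h5 := h3.symm.trans h4
  have h6 : p ∣ 1 := by
    have h7 := (Nat.modEq_zero_iff_dvd).1 h5
    simpa using h7
  exact hp.one_lt.ne' (Nat.dvd_one.1 h6)

end XAM

/-- [AM] the prime factors of the members of the family are `> w`. -/
theorem pr_AM : StAM := by
  intro w κ M hA F G h
  unfold AF
  apply div_le_div_of_nonneg_right _ (by positivity)
  refine Finset.sum_le_sum fun u _ => Finset.sum_le_sum fun u' _ =>
    Finset.sum_le_sum fun v _ => Finset.sum_le_sum fun v' _ => ?_
  apply h
  · unfold xF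
    positivity
  · unfold yF
    positivity
  · unfold zF
    positivity
  · intro p hp hd
    exact XAM.key w κ (v + v') (u + u') p hA.2.1 hp hd

end Pool.Agent.F0f91f8.FC
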