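import Pool.Agent.Work.MP_0f91f8_co.FC.StmtsA

/-!
# Block FC, module A, item AP: existence of the approximation
-/

set_option autoImplicit false

namespace Pool.Agent.F0f91f8.FC

open Filter Topology ComplexConjugate
open Pool.Agent.F0f91f8.HD
open scoped BigOperators

namespace XAP

theorem ch_zero {ι : Type} [Fintype ι] (z : ι → ℂ) : ch z 0 = 1 := by
  simp [ch]

theorem ch_add {ι : Type} [Fintype ι] (z : ι → ℂ) (a b : ι → ℕ) :
    ch z (a + b) = ch z a * ch z b := by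
  simp [ch, pow_add, Finset.prod_mul_distrib]

/-- the submonoid of the exponents at which all the characters are one -/
def Lam {ι : Type} [Fintype ι] (X : Finset (ι → ℂ)) : AddSubmonoid (ι → ℕ) where
  carrier := {a | ∀ z ∈ X, ch z a = 1}
  zero_mem' := fun z _ => ch_zero z
  add_mem' := by
    intro a b ha hb z hz
    rw [ch_add, ha z hz, hb z hz, one_mul]

theorem mem_Lam {ι : Type} [Fintype ι] (X : Finset (ι → ℂ)) (a : ι → ℕ) :
    a ∈ Lam X ↔ ∀ z ∈ X, ch z a = 1 := Iff.rfl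

theorem span_fix {ι : Type} [Fintype ι] {H : Type*} [NormedAddCommGroup H]
    [InnerProductSpace ℂ H] (S : (ι → ℕ) → H →ₗᵢ[ℂ] H) (Y : Set (ι → ℂ)) (v : H)
    (hv : v ∈ Submodule.span ℂ {e | ∃ z ∈ Y, Uni z ∧ EigV S z e}) :
    ∃ X : Finset (ι → ℂ), (∀ z ∈ X, Uni z ∧ z ∈ Y) ∧
      ∀ a : ι → ℕ, (∀ z ∈ X, ch z a = 1) → S a v = v := by
  classical
  induction hv using Submodule.span_induction with
  | mem e he =>
    obtain ⟨z, hz, hu, hE⟩ := he
    refine ⟨{z}, ?_, ?_⟩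
    · intro z' hz'
      rw [Finset.mem_singleton] at hz'
      rw [hz']
      exact ⟨hu, hz⟩
    · intro a ha
      rw [hE a, ha z (Finset.mem_singleton_self z), one_smul]
  | zero => exact ⟨∅, by simp, fun a _ => map_zero _⟩
  | add x y _ _ hx hy =>
    obtain ⟨X, h1, h2⟩ := hx
    obtain ⟨X', h3, h4⟩ := hy
    refine ⟨X ∪ X', ?_, ?_⟩
    · intro z hz
      rcases Finset.mem_union.1 hz with h | h
      · exact h1 z h
      · exact h3 z h
    · intro a ha
      rw [map_add, h2 a (fun z hz => ha z (Finset.mem_union_left _ hz)),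
        h4 a (fun z hz => ha z (Finset.mem_union_right _ hz))]
  | smul c x _ hx =>
    obtain ⟨X, h1, h2⟩ := hx
    exact ⟨X, h1, fun a ha => by rw [map_smul, h2 a ha]⟩

theorem e_zero {m : (ℕ → ℝ) → ℝ} (R : Rep m) : R.e (fun _ => 0) = 0 := by
  have h := R.e_smul 0 (fun _ => 0) ⟨0, fun _ => by simp⟩
  simpa using h

theorem e_sum {m : (ℕ → ℝ) → ℝ} (R : Rep m) {α : Type} (s : Finset α) (c : α → ℂ)
    (F : α → ℕ → ℂ) (hF : ∀ a, BdC (F a)) :
    R.e (fun n => ∑ a ∈ s, c a * F a n) = ∑ a ∈ s, c a • R.e (F a) := by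
  classical
  have hb1 : ∀ a, BdC (fun n => c a * F a n) := by
    intro a
    obtain ⟨C, hC⟩ := hF a
    refine ⟨‖c a‖ * C, fun n => ?_⟩
    rw [norm_mul]
    exact mul_le_mul_of_nonneg_left (hC n) (norm_nonneg _)
  have hb2 : ∀ t : Finset α, BdC (fun n => ∑ a ∈ t, c a * F a n) := by
    intro t
    choose C hC using hb1
    refine ⟨∑ a ∈ t, C a, fun n => ?_⟩
    exact (norm_sum_le _ _).trans (Finset.sum_le_sum fun a _ => hC a n)
  induction s using Finset.induction_on with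
  | empty =>
    simp only [Finset.sum_empty]
    exact e_zero R
  | insert a s ha ih =>
    have h1 : (fun n => ∑ b ∈ insert a s, c b * F b n) =
        fun n => (fun n => c a * F a n) n + (fun n => ∑ b ∈ s, c b * F b n) n := by
      funext n
      rw [Finset.sum_insert ha]
    rw [h1, R.e_add _ _ (hb1 a) (hb2 s), Finset.sum_insert ha, ih, R.e_smul (c a) (F a) (hF a)]

/-- `1` minus a convex combination of isometries -/
noncomputable def D {ι : Type} {H : Type*} [NormedAddCommGroup H]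
    [InnerProductSpace ℂ H] (S : (ι → ℕ) → H →ₗᵢ[ℂ] H) (s : Finset (ι → ℕ)) (c : (ι → ℕ) → ℝ)
    (x : H) : H := x - ∑ a ∈ s, (c a : ℂ) • S a x

theorem D_add {ι : Type} {H : Type*} [NormedAddCommGroup H]
    [InnerProductSpace ℂ H] (S : (ι → ℕ) → H →ₗᵢ[ℂ] H) (s : Finset (ι → ℕ)) (c : (ι → ℕ) → ℝ)
    (x y : H) : D S s c (x + y) = D S s c x + D S s c y := by
  unfold D
  have h : ∑ a ∈ s, (c a : ℂ) • S a (x + y) =
      ∑ a ∈ s, (c a : ℂ) • S a x + ∑ a ∈ s, (c a : ℂ) • S a y := by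
    rw [← Finset.sum_add_distrib]
    exact Finset.sum_congr rfl fun a _ => by rw [map_add, smul_add]
  rw [h]
  abel

theorem D_norm {ι : Type} {H : Type*} [NormedAddCommGroup H]
    [InnerProductSpace ℂ H] (S : (ι → ℕ) → H →ₗᵢ[ℂ] H) (s : Finset (ι → ℕ)) (c : (ι → ℕ) → ℝ)
    (hc : ∀ a, 0 ≤ c a) (h1 : ∑ a ∈ s, c a = 1) (x : H) : ‖D S s c x‖ ≤ 2 * ‖x‖ := by
  unfold D
  have h2 : ‖∑ a ∈ s, (c a : ℂ) • S a x‖ ≤ ‖x‖ := by
    refine (norm_sum_le _ _).trans ?_
    calc ∑ a ∈ s, ‖(c a : ℂ) • S a x‖ = ∑ a ∈ s, c a * ‖x‖ := by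
          apply Finset.sum_congr rfl
          intro a _
          rw [norm_smul, (S a).norm_map, Complex.norm_real, Real.norm_eq_abs,
            abs_of_nonneg (hc a)]
      _ = ‖x‖ := by rw [← Finset.sum_mul, h1, one_mul]
      _ ≤ ‖x‖ := le_rfl
  calc ‖x - ∑ a ∈ s, (c a : ℂ) • S a x‖ ≤ ‖x‖ + ‖∑ a ∈ s, (c a : ℂ) • S a x‖ := norm_sub_le _ _
    _ ≤ 2 * ‖x‖ := by linarith

theorem D_fix {ι : Type} {H : Type*} [NormedAddCommGroup H]
    [InnerProductSpace ℂ H] (S : (ι → ℕ) → H →ₗᵢ[ℂ] H) (s : Finset (ι → ℕ)) (c : (ι → ℕ) → ℝ)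
    (h1 : ∑ a ∈ s, c a = 1) (v : H) (hv : ∀ a ∈ s, S a v = v) : D S s c v = 0 := by
  unfold D
  have h2 : ∑ a ∈ s, (c a : ℂ) • S a v = v := by
    calc ∑ a ∈ s, (c a : ℂ) • S a v = ∑ a ∈ s, (c a : ℂ) • v :=
          Finset.sum_congr rfl fun a ha => by rw [hv a ha]
      _ = v := by
          rw [← Finset.sum_smul, ← Complex.ofReal_sum, h1, Complex.ofReal_one, one_smul]
  rw [h2, sub_self]

end XAP

open XAP in
theorem pr_AP (hDec : DecS) (hErg : ErgS) (hTA : StTA) (hAm : StAm) (hAn : StAn)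
    (hAW : StAW) : StAP := by
  intro ι _ _ cl pp hR m hm R f hf ε hε
  classical
  obtain ⟨hnn, hTA2⟩ := hTA ι inferInstance inferInstance cl pp hR
  obtain ⟨hAct, -⟩ := hTA2 m R
  obtain ⟨am1, am2, am3, am4, am5, am6, am7⟩ := hAm m hm
  obtain ⟨an1, an2, an3, an4, an5, an6⟩ := hAn m hm R
  have hfb : BdR f := ⟨1, fun n => abs_le.2 ⟨by linarith [(hf n).1], (hf n).2⟩⟩
  have hh : ‖R.e (cf f)‖ ≤ 1 := an4 f hf
  obtain ⟨h₁, hE1, h₂, hE2, h₃, hW3, hsum, hn1, hn2, hn3⟩ :=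
    hDec ι inferInstance inferInstance R.H inferInstance inferInstance inferInstance
      (Sa R pp) hAct {z | Pret (fz cl z)} (R.e (cf f))
  -- an approximation of the first part
  have hcl : h₁ ∈ closure ((Submodule.span ℂ {e | ∃ z ∈ {z | Pret (fz cl z)},
      Uni z ∧ EigV (Sa R pp) z e} : Submodule ℂ R.H) : Set R.H) := by
    have := hE1
    unfold Es at this
    rw [← SetLike.mem_coe, Submodule.topologicalClosure_coe] at this
    exact this
  obtain ⟨v, hv1, hv2⟩ := Metric.mem_closure_iff.1 hcl (ε / 4) (by positivity)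
  rw [dist_eq_norm] at hv2
  obtain ⟨X, hX1, hX2⟩ := span_fix (Sa R pp) {z | Pret (fz cl z)} v hv1
  -- the ergodic theorem
  obtain ⟨e, he1, he2⟩ := hErg (Lam X) inferInstance R.H inferInstance inferInstance
    inferInstance (fun a => Sa R pp a.1) (fun x => hAct.1 x)
    (fun a b x => hAct.2 a.1 b.1 x) (R.e (cf f))
  obtain ⟨s, c, hc0, hc1, hce⟩ := he2 (ε / 2) (by positivity)
  set s' : Finset (ι → ℕ) := s.map (Function.Embedding.subtype _) with hs'
  set c' : (ι → ℕ) → ℝ := fun a => if ha : a ∈ Lam X then c ⟨a, ha⟩ else 0 with hc'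
  have hcc : ∀ a : Lam X, c' a.1 = c a := by
    intro a
    rw [hc']
    simp only
    rw [dif_pos a.2]
  have hc'0 : ∀ a, 0 ≤ c' a := by
    intro a
    rw [hc']
    simp only
    split_ifs with h
    · exact hc0 _
    · exact le_rfl
  have hs'L : ∀ a ∈ s', ∀ z ∈ X, ch z a = 1 := by
    intro a ha
    rw [hs', Finset.mem_map] at ha
    obtain ⟨b, _, rfl⟩ := ha
    exact b.2
  have hc'1 : ∑ a ∈ s', c' a = 1 := by
    rw [hs', Finset.sum_map]
    rw [← hc1]
    exact Finset.sum_congr rfl fun a _ => hcc a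
  -- the function
  have hdb : ∀ a : ι → ℕ, BdR (fun n => f (nn pp a * n)) := fun a =>
    ⟨1, fun n => abs_le.2 ⟨by linarith [(hf (nn pp a * n)).1], (hf (nn pp a * n)).2⟩⟩
  have hdc : ∀ a : ι → ℕ, BdC (cf (dil (nn pp a) f)) := by
    intro a
    refine ⟨1, fun n => ?_⟩
    show ‖((f (nn pp a * n) : ℝ) : ℂ)‖ ≤ 1
    rw [Complex.norm_real, Real.norm_eq_abs]
    exact abs_le.2 ⟨by linarith [(hf (nn pp a * n)).1], (hf (nn pp a * n)).2⟩
  set f' : ℕ → ℝ := fun n => ∑ a ∈ s', c' a * f (nn pp a * n) with hf'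
  have hf'01 : I01 f' := by
    intro n
    constructor
    · exact Finset.sum_nonneg fun a _ => mul_nonneg (hc'0 a) (hf _).1
    · calc f' n ≤ ∑ a ∈ s', c' a * 1 :=
            Finset.sum_le_sum fun a _ => mul_le_mul_of_nonneg_left (hf _).2 (hc'0 a)
        _ = 1 := by rw [← Finset.sum_mul, hc'1, one_mul]
  have hf'b : BdR f' := ⟨1, fun n => abs_le.2 ⟨by linarith [(hf'01 n).1], (hf'01 n).2⟩⟩
  have hmf : m f' = m f := by
    rw [hf', am5 (ι → ℕ) s' c' (fun a n => f (nn pp a * n)) (fun a _ => hdb a)]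
    calc ∑ a ∈ s', c' a * m (fun n => f (nn pp a * n)) = ∑ a ∈ s', c' a * m f := by
          apply Finset.sum_congr rfl
          intro a _
          rw [hm.2.2.2.2 (nn pp a) (hnn a 0).1 f hfb]
      _ = m f := by rw [← Finset.sum_mul, hc'1, one_mul]
  have hef : R.e (cf f') = ∑ a ∈ s', (c' a : ℂ) • Sa R pp a (R.e (cf f)) := by
    have h1 : cf f' = fun n => ∑ a ∈ s', (c' a : ℂ) * cf (dil (nn pp a) f) n := by
      funext n
      show ((f' n : ℝ) : ℂ) = _
      rw [hf']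
      simp only
      push_cast
      rfl
    rw [h1, e_sum R s' (fun a => (c' a : ℂ)) (fun a => cf (dil (nn pp a) f)) hdc]
    apply Finset.sum_congr rfl
    intro a _
    congr 1
    exact (an5 (nn pp a) (hnn a 0).1 f hfb).symm
  have hee : ‖R.e (cf f') - e‖ ≤ ε / 2 := by
    have h1 : ∑ a ∈ s', (c' a : ℂ) • Sa R pp a (R.e (cf f)) =
        ∑ a ∈ s, (c a : ℂ) • Sa R pp a.1 (R.e (cf f)) := by
      rw [hs', Finset.sum_map]
      apply Finset.sum_congr rfl
      intro a _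
      show (c' a.1 : ℂ) • Sa R pp a.1 (R.e (cf f)) = _
      rw [hcc a]
    rw [hef, h1]
    exact hce
  refine ⟨f', X, ⟨fun z hz => hX1 z hz, hf'01, hmf, ⟨s', c', hs'L, hc'0, hc'1, fun n => rfl⟩,
    ?_, ?_⟩⟩
  · refine ⟨D (Sa R pp) s' c' h₁, D (Sa R pp) s' c' h₂, D (Sa R pp) s' c' h₃, ?_, ?_, ?_, ?_, ?_,
      ?_⟩
    · rw [an3 f f' hfb hf'b, hef]
      show D (Sa R pp) s' c' (R.e (cf f)) = _
      rw [hsum, D_add, D_add]
    · have h1 : D (Sa R pp) s' c' h₁ = D (Sa R pp) s' c' (h₁ - v) := by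
        have h2 : h₁ = (h₁ - v) + v := by abel
        conv_lhs => rw [h2]
        rw [D_add, D_fix (Sa R pp) s' c' hc'1 v (fun a ha => hX2 a (hs'L a ha)), add_zero]
      rw [h1]
      have h2 := D_norm (Sa R pp) s' c' hc'0 hc'1 (h₁ - v)
      linarith
    · have h2 := D_norm (Sa R pp) s' c' hc'0 hc'1 h₂
      linarith
    · have h2 := D_norm (Sa R pp) s' c' hc'0 hc'1 h₃
      linarith
    · have hE2' : h₂ ∈ Es (Sa R pp) {z | ¬ Pret (fz cl z)} := hE2
      unfold D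
      refine Submodule.sub_mem _ hE2' (Submodule.sum_mem _ fun a _ => Submodule.smul_mem _ _ ?_)
      exact (hAW ι inferInstance inferInstance cl pp hR m R (nn pp a) (hnn a 0).1).1 _ h₂ hE2'
    · intro z w hz hw
      unfold D
      rw [inner_sub_right, hW3 z w hz hw, inner_sum]
      rw [Finset.sum_eq_zero, sub_zero]
      intro a _
      rw [inner_smul_right]
      have h1 := (hAW ι inferInstance inferInstance cl pp hR m R (nn pp a) (hnn a 0).1).2 h₃ hW3
        z w hz hw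
      show (c' a : ℂ) * inner ℂ w (R.T (nn pp a) h₃) = 0
      rw [h1, mul_zero]
  · intro a ha
    have h1 : Sa R pp a e = e := he1 ⟨a, ha⟩
    have h2 : Sa R pp a (R.e (cf f')) - R.e (cf f') =
        Sa R pp a (R.e (cf f') - e) - (R.e (cf f') - e) := by
      rw [map_sub, h1]
      abel
    rw [h2]
    have h3 := norm_sub_le (Sa R pp a (R.e (cf f') - e)) (R.e (cf f') - e)
    rw [(Sa R pp a).norm_map] at h3
    linarith

end Pool.Agent.F0f91f8.FC
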