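import Pool.Agent.Work.MP_0f91f8_co.FC.StmtsA

/-!
# Block FC, item AQ: the trilinear expression on real functions
-/

set_option autoImplicit false

namespace Pool.Agent.F0f91f8.FC

open Filter Topology ComplexConjugate
open scoped BigOperators

namespace XAQ

/-- the complex function of a bounded real function, dilated, is bounded -/
lemma bd (F : ℕ → ℝ) (hF : BdR F) (k : ℕ) : BdC (fun n => cf F (k * n)) := by
  obtain ⟨C, hC⟩ := hF
  refine ⟨C, fun n => ?_⟩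
  show ‖((F (k * n) : ℝ) : ℂ)‖ ≤ C
  rw [Complex.norm_real]
  exact hC _

lemma bd1 (F : ℕ → ℝ) (hF : BdR F) : BdC (cf F) := by
  obtain ⟨C, hC⟩ := hF
  refine ⟨C, fun n => ?_⟩
  show ‖((F n : ℝ) : ℂ)‖ ≤ C
  rw [Complex.norm_real]
  exact hC _

/-- the mean of the zero function -/
lemma mean_zero (m : (ℕ → ℝ) → ℝ) (hm : IsMean m) : m (fun _ => 0) = 0 := by
  have h := hm.2.1 0 (fun _ => 0) ⟨0, fun n => by simp⟩
  simpa using h

end XAQ

theorem pr_AQ (hTA : StTA) : StAQ := by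
  intro ι _ _ cl pp hpp m hm R F₀ F₁ F₂ h0 h1 h2 α β γ
  have hpos := fun a : ι → ℕ => ((hTA ι inferInstance inferInstance cl pp hpp).1 a 0).1
  unfold Tr Sa
  rw [R.T_e _ (hpos α) _ (XAQ.bd1 F₁ h1), R.T_e _ (hpos β) _ (XAQ.bd1 F₂ h2),
    R.B_e _ _ _ (XAQ.bd F₀ h0 _) (XAQ.bd F₁ h1 _) (XAQ.bd F₂ h2 _)]
  unfold mC Qm
  have hre : (fun n => (cf F₀ (nn pp γ * n) * cf F₁ (nn pp α * n) * cf F₂ (nn pp β * n)).re) =
      fun n => F₀ (nn pp γ * n) * F₁ (nn pp α * n) * F₂ (nn pp β * n) := by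
    funext n
    unfold cf
    rw [← Complex.ofReal_mul, ← Complex.ofReal_mul, Complex.ofReal_re]
  have him : (fun n => (cf F₀ (nn pp γ * n) * cf F₁ (nn pp α * n) * cf F₂ (nn pp β * n)).im) =
      fun _ => (0 : ℝ) := by
    funext n
    unfold cf
    rw [← Complex.ofReal_mul, ← Complex.ofReal_mul, Complex.ofReal_im]
  rw [hre, him, XAQ.mean_zero m hm]
  simp

end Pool.Agent.F0f91f8.FC
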