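import Pool.Agent.Work.MP_0f91f8_co.FC.StmtsA

/-!
# Block FC, item AR: the main comparison
-/

set_option autoImplicit false

namespace Pool.Agent.F0f91f8.FC

open Filter Topology ComplexConjugate
open Pool.Agent.F0f91f8.HD Pool.Agent.F0f91f8.KR Pool.Agent.F0f91f8.RC
open scoped BigOperators

namespace XAR

theorem bd_mul {f g : ℕ → ℝ} (hf : BdR f) (hg : BdR g) : BdR fun n => f n * g n := by
  obtain ⟨C, hC⟩ := hf
  obtain ⟨D, hD⟩ := hg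
  refine ⟨C * D, fun n => ?_⟩
  rw [abs_mul]
  exact mul_le_mul (hC n) (hD n) (abs_nonneg _) ((abs_nonneg _).trans (hC n))

theorem bd_add {f g : ℕ → ℝ} (hf : BdR f) (hg : BdR g) : BdR fun n => f n + g n := by
  obtain ⟨C, hC⟩ := hf
  obtain ⟨D, hD⟩ := hg
  exact ⟨C + D, fun n => (abs_add_le _ _).trans (add_le_add (hC n) (hD n))⟩

theorem bd_sub {f g : ℕ → ℝ} (hf : BdR f) (hg : BdR g) : BdR fun n => f n - g n := by
  obtain ⟨C, hC⟩ := hf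
  obtain ⟨D, hD⟩ := hg
  exact ⟨C + D, fun n => (abs_sub _ _).trans (add_le_add (hC n) (hD n))⟩

theorem bd_comp {f : ℕ → ℝ} (hf : BdR f) (a : ℕ → ℕ) : BdR fun n => f (a n) := by
  obtain ⟨C, hC⟩ := hf
  exact ⟨C, fun n => hC _⟩

theorem bd_01 {f : ℕ → ℝ} (hf : I01 f) : BdR f :=
  ⟨1, fun n => by rw [abs_of_nonneg (hf n).1]; exact (hf n).2⟩

theorem wm_smul {ι : Type} [Fintype ι] [DecidableEq ι] {H : Type*} [NormedAddCommGroup H]
    [InnerProductSpace ℂ H] {S : (ι → ℕ) → H →ₗᵢ[ℂ] H} {g : H} (h : Wm S g) (c : ℂ) :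
    Wm S (c • g) := fun z e hz he => by
  rw [inner_smul_right, h z e hz he, mul_zero]

end XAR

open XAR in
theorem pr_AR (hTri : TriS) (hTC : StTC) (hTB : StTB) (hAm : StAm) (hAn : StAn)
    (hAQ : StAQ) (hAW : StAW) (hAV : StAV) (hAL : StAL) : StAR := by
  intro ι i1 i2 cl hFat pp hpp m hm R f f' X₁ ε hf hε hA
  obtain ⟨w1, hw1⟩ := hTri ι i1 i2 cl hFat ε hε
  obtain ⟨w2, hw2⟩ := hAV ι i1 i2 cl hFat X₁ hA.hX ε hε
  refine ⟨max w1 w2, fun w hw κ hκ => ?_⟩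
  have hT := hw1 w ((le_max_left _ _).trans hw) κ hκ pp hpp m hm R (cf f) (fun n => by
    show ‖((f n : ℝ) : ℂ)‖ ≤ 1
    rw [Complex.norm_real, Real.norm_of_nonneg (hf n).1]
    exact (hf n).2)
  obtain ⟨M3, hM3⟩ := hw2 w ((le_max_right _ _).trans hw) κ hκ
  have hk : 0 < 2 * κ := Nat.mul_pos (by norm_num) hκ.1
  obtain ⟨am_mono, am_congr, am_const, am_sub, am_sum, am_sq, am_cube⟩ := hAm m hm
  obtain ⟨an_norm, an_congr, an_sub, an_le, an_T, an_lip⟩ := hAn m hm R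
  obtain ⟨tb_le, tb_add, tb_smul, tb_symm, -⟩ := hTB ι i1 i2 cl pp hpp m R (cf f) (fun n => by
    show ‖((f n : ℝ) : ℂ)‖ ≤ 1
    rw [Complex.norm_real, Real.norm_of_nonneg (hf n).1]
    exact (hf n).2)
  have hf' := hA.h01
  -- the doubled vectors
  have key : ∀ (h g₁ g₂ g₃ : R.H), ‖h‖ ≤ 1 → ‖g₁‖ ≤ ε → ‖g₂‖ ≤ 2 → ‖g₃‖ ≤ 2 →
      g₂ ∈ Es (Sa R pp) {z | ¬ Pret (fz cl z)} → Wm (Sa R pp) g₃ → ∃ M₀ : ℕ, ∀ M ≥ M₀, 1 ≤ M →
      ‖AC w κ M fun x y t => Tr R pp (cf f) h (g₁ + g₂ + g₃) (hv cl x) (hv cl y) (hv cl t)‖ ≤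
        3 * ε ∧
      ‖AC w κ M fun x y t => Tr R pp (cf f) (g₁ + g₂ + g₃) h (hv cl x) (hv cl y) (hv cl t)‖ ≤
        3 * ε := by
    intro h g₁ g₂ g₃ hh h1 h2 h3 hE hW
    have hn : ∀ g : R.H, ‖(1 / 2 : ℂ) • g‖ = ‖g‖ / 2 := fun g => by
      rw [norm_smul]
      norm_num
      ring
    obtain ⟨M₀, hM₀⟩ := hT h ((1 / 2 : ℂ) • g₁) ((1 / 2 : ℂ) • g₂) ((1 / 2 : ℂ) • g₃) hh
      (by rw [hn]; linarith) (by rw [hn]; linarith) (Submodule.smul_mem _ _ hE) (wm_smul hW _)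
    refine ⟨M₀, fun M hM hM1 => ?_⟩
    obtain ⟨-, tc_mul, -⟩ := hTC w κ M hM1
    obtain ⟨c1, c2⟩ := hM₀ M hM
    have hg : g₁ + g₂ + g₃ =
        (2 : ℂ) • ((1 / 2 : ℂ) • g₁ + (1 / 2 : ℂ) • g₂ + (1 / 2 : ℂ) • g₃) := by
      rw [smul_add, smul_add, smul_smul, smul_smul, smul_smul]
      norm_num
    have e2 : ∀ α β γ : ι → ℕ, Tr R pp (cf f) (g₁ + g₂ + g₃) h α β γ = 2 * Tr R pp (cf f)
        ((1 / 2 : ℂ) • g₁ + (1 / 2 : ℂ) • g₂ + (1 / 2 : ℂ) • g₃) h α β γ := fun α β γ => by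
      rw [hg, tb_smul]
    have e1 : ∀ α β γ : ι → ℕ, Tr R pp (cf f) h (g₁ + g₂ + g₃) α β γ = 2 * Tr R pp (cf f) h
        ((1 / 2 : ℂ) • g₁ + (1 / 2 : ℂ) • g₂ + (1 / 2 : ℂ) • g₃) α β γ := fun α β γ => by
      rw [tb_symm, e2, ← tb_symm]
    rw [hn] at c1 c2
    constructor
    · simp only [e1]
      rw [tc_mul, norm_mul]
      norm_num
      linarith
    · simp only [e2]
      rw [tc_mul, norm_mul]
      norm_num
      linarith
  obtain ⟨g₁, g₂, g₃, hg, hg1, hg2, hg3, hgE, hgW⟩ := hA.hd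
  have hbf : BdR f := bd_01 hf
  have hbf' : BdR f' := bd_01 hf'
  obtain ⟨u, hu⟩ : ∃ u : ℕ → ℝ, u = fun n => f n - f' n := ⟨_, rfl⟩
  have hbu : BdR u := by rw [hu]; exact bd_sub hbf hbf'
  rw [← hu] at hg
  have hdil : ∀ F : ℕ → ℝ, I01 F → I01 (dil (2 * κ) F) := fun F hF n => hF _
  have hbdil : ∀ F : ℕ → ℝ, BdR F → BdR (dil (2 * κ) F) := fun F hF => bd_comp hF _
  obtain ⟨M1, hM1⟩ := key (R.e (cf (dil (2 * κ) f))) g₁ g₂ g₃ (an_le _ (hdil f hf)) hg1 hg2 hg3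
    hgE hgW
  obtain ⟨aw1, aw2⟩ := hAW ι i1 i2 cl pp hpp m R (2 * κ) hk
  obtain ⟨M2, hM2⟩ := key (R.e (cf f')) (R.T (2 * κ) g₁) (R.T (2 * κ) g₂) (R.T (2 * κ) g₃)
    (an_le _ hf') (by rw [LinearIsometry.norm_map]; exact hg1)
    (by rw [LinearIsometry.norm_map]; exact hg2) (by rw [LinearIsometry.norm_map]; exact hg3)
    (aw1 _ _ hgE) (aw2 _ hgW)
  refine ⟨max (max M1 M2) (max M3 1), fun M hM => ?_⟩
  have hMM1 : M1 ≤ M := ((le_max_left _ _).trans (le_max_left _ _)).trans hM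
  have hMM2 : M2 ≤ M := ((le_max_right _ _).trans (le_max_left _ _)).trans hM
  have hMM3 : M3 ≤ M := ((le_max_left _ _).trans (le_max_right _ _)).trans hM
  have hM1' : 1 ≤ M := ((le_max_right _ _).trans (le_max_right _ _)).trans hM
  have b1 := (hM1 M hMM1 hM1').1
  have b2 := (hM2 M hMM2 hM1').2
  have b3 := hM3 M hMM3
  obtain ⟨tc_add, tc_mul, tc_norm, tc_real, tr_add, tr_mul, tr_mono, tr_const, -, -⟩ :=
    hTC w κ M hM1'
  -- the two error terms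
  have hQ1 : ∀ α β γ : ι → ℕ, Tr R pp (cf f) (R.e (cf (dil (2 * κ) f))) (g₁ + g₂ + g₃) α β γ =
      (Qm m pp f (dil (2 * κ) f) u α β γ : ℂ) := fun α β γ => by
    rw [← hg]
    exact hAQ ι i1 i2 cl pp hpp m hm R f (dil (2 * κ) f) u hbf (hbdil f hbf) hbu α β γ
  have hTg : R.T (2 * κ) g₁ + R.T (2 * κ) g₂ + R.T (2 * κ) g₃ = R.e (cf (dil (2 * κ) u)) := by
    rw [← map_add, ← map_add, ← hg, an_T (2 * κ) hk u hbu]
  have hQ2 : ∀ α β γ : ι → ℕ, Tr R pp (cf f)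
      (R.T (2 * κ) g₁ + R.T (2 * κ) g₂ + R.T (2 * κ) g₃) (R.e (cf f')) α β γ =
      (Qm m pp f (dil (2 * κ) u) f' α β γ : ℂ) := fun α β γ => by
    rw [hTg]
    exact hAQ ι i1 i2 cl pp hpp m hm R f (dil (2 * κ) u) f' hbf (hbdil u hbu) hbf' α β γ
  simp only [hQ1] at b1
  simp only [hQ2] at b2
  rw [tc_real (fun x y t => Qm m pp f (dil (2 * κ) f) u (hv cl x) (hv cl y) (hv cl t)),
    Complex.norm_real, Real.norm_eq_abs] at b1
  rw [tc_real (fun x y t => Qm m pp f (dil (2 * κ) u) f' (hv cl x) (hv cl y) (hv cl t)),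
    Complex.norm_real, Real.norm_eq_abs] at b2
  -- the splitting
  have hsplit : ∀ α β γ : ι → ℕ, Qm m pp f (dil (2 * κ) f) f α β γ =
      Qm m pp f (dil (2 * κ) f) u α β γ + Qm m pp f (dil (2 * κ) u) f' α β γ +
        Qm m pp f (dil (2 * κ) f') f' α β γ := by
    intro α β γ
    unfold Qm
    have c0 : ∀ F : ℕ → ℝ, BdR F → ∀ a : ℕ, BdR fun n => F (a * n) := fun F hF a => bd_comp hF _
    rw [← hm.1 _ _ (bd_mul (bd_mul (c0 f hbf _) (c0 _ (hbdil f hbf) _)) (c0 u hbu _))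
        (bd_mul (bd_mul (c0 f hbf _) (c0 _ (hbdil u hbu) _)) (c0 f' hbf' _)),
      ← hm.1 _ _ (bd_add (bd_mul (bd_mul (c0 f hbf _) (c0 _ (hbdil f hbf) _)) (c0 u hbu _))
        (bd_mul (bd_mul (c0 f hbf _) (c0 _ (hbdil u hbu) _)) (c0 f' hbf' _)))
        (bd_mul (bd_mul (c0 f hbf _) (c0 _ (hbdil f' hbf') _)) (c0 f' hbf' _))]
    congr 1
    funext n
    rw [hu]
    simp only [dil]
    ring
  -- the main term
  obtain ⟨A, hAdef⟩ : ∃ A : ℝ, A = m (fun n => f' n ^ 2 * f' (2 * κ * n)) := ⟨_, rfl⟩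
  have hA1 : A ≤ 1 := by
    rw [hAdef, ← am_const 1]
    refine am_mono _ _ ?_ ⟨1, fun n => by simp⟩ fun n _ => ?_
    · have c1 : BdR fun n => f' n * f' n := bd_mul hbf' hbf'
      have c2 := bd_mul c1 (bd_comp hbf' fun n => 2 * κ * n)
      have e : (fun n => f' n ^ 2 * f' (2 * κ * n)) = fun n => f' n * f' n * f' (2 * κ * n) := by
        funext n; ring
      rw [e]
      exact c2
    · exact mul_le_one₀ (pow_le_one₀ (hf' n).1 (hf' n).2) (hf' _).1 (hf' _).2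
  have hpt : ∀ α β γ : ι → ℕ, (∀ z ∈ X₁, ch z α = 1 ∧ ch z β = 1 ∧ ch z γ = 1) →
      A - 6 * ε ≤ Qm m pp f (dil (2 * κ) f') f' α β γ := fun α β γ h => by
    have h1 := hAL ι i1 i2 cl pp hpp m hm R f f' X₁ ε hf hε hA (2 * κ) hk α β γ h
    rw [← hAdef] at h1
    have h2 := (abs_le.1 h1).1
    linarith
  have hpos : ∀ α β γ : ι → ℕ, 0 ≤ Qm m pp f (dil (2 * κ) f') f' α β γ := fun α β γ => by
    unfold Qm
    have c0 : ∀ F : ℕ → ℝ, BdR F → ∀ a : ℕ, BdR fun n => F (a * n) := fun F hF a => bd_comp hF _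
    refine hm.2.2.1 _ (bd_mul (bd_mul (c0 f hbf _) (c0 _ (hbdil f' hbf') _)) (c0 f' hbf' _))
      fun n _ => ?_
    exact mul_nonneg (mul_nonneg (hf _).1 (hf' _).1) (hf' _).1
  classical
  obtain ⟨E, hE⟩ : ∃ E : ℕ → ℕ → ℕ → ℝ, E = fun x y t => if ∀ z ∈ X₁, ch z (hv cl x) = 1 ∧
    ch z (hv cl y) = 1 ∧ ch z (hv cl t) = 1 then 0 else 1 := ⟨_, rfl⟩
  have hEb : AF w κ M E ≤ ε := by
    rw [hE]
    exact b3
  have hmain : (A - 6 * ε) + (-1) * AF w κ M E ≤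
      AF w κ M fun x y t => Qm m pp f (dil (2 * κ) f') f' (hv cl x) (hv cl y) (hv cl t) := by
    rw [← tr_const (A - 6 * ε), ← tr_mul, ← tr_add]
    refine tr_mono _ _ fun x y t _ _ _ => ?_
    rw [hE]
    by_cases h : ∀ z ∈ X₁, ch z (hv cl x) = 1 ∧ ch z (hv cl y) = 1 ∧ ch z (hv cl t) = 1
    · simp only [if_pos h]
      have := hpt _ _ _ h
      linarith
    · simp only [if_neg h]
      have := hpos (hv cl x) (hv cl y) (hv cl t)
      linarith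
  have hsum : (AF w κ M fun x y t => Qm m pp f (dil (2 * κ) f) f (hv cl x) (hv cl y) (hv cl t)) =
      (AF w κ M fun x y t => Qm m pp f (dil (2 * κ) f) u (hv cl x) (hv cl y) (hv cl t)) +
      (AF w κ M fun x y t => Qm m pp f (dil (2 * κ) u) f' (hv cl x) (hv cl y) (hv cl t)) +
      AF w κ M fun x y t => Qm m pp f (dil (2 * κ) f') f' (hv cl x) (hv cl y) (hv cl t) := by
    rw [← tr_add, ← tr_add]
    congr 1
    funext x y t
    exact hsplit _ _ _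
  rw [hsum, ← hAdef]
  have d1 := (abs_le.1 b1).1
  have d2 := (abs_le.1 b2).1
  linarith

end Pool.Agent.F0f91f8.FC
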