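import Pool.Agent.Work.MP_0f91f8_co.FC.StmtsA

/-!
# Block FC, module A, item AT: the density theorem for fat classes
-/

set_option autoImplicit false

namespace Pool.Agent.F0f91f8.FC

open Filter Topology ComplexConjugate
open Pool.Agent.F0f91f8.HD
open scoped BigOperators

namespace XAT

lemma kp_pos (w K : ℕ) (e : Fin (w + 1) → Fin K) : 0 < kp w K e := by
  unfold kp
  refine Finset.prod_pos fun p _ => ?_
  split_ifs with h
  · exact pow_pos h.pos _
  · exact one_pos

lemma adm (w K : ℕ) (e : Fin (w + 1) → Fin K) : Adm w (w.factorial * kp w K e) := by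
  refine ⟨Nat.mul_pos (Nat.factorial_pos w) (kp_pos w K e), dvd_mul_right _ _, ?_⟩
  intro p hp hd
  rcases (Nat.Prime.dvd_mul hp).1 hd with h | h
  · exact (hp.dvd_factorial).1 h
  · unfold kp at h
    obtain ⟨q, -, hq⟩ := (Prime.dvd_finsetProd_iff hp.prime _).1 h
    split_ifs at hq with h1
    · have h2 := (Nat.prime_dvd_prime_iff_eq hp h1).1 (hp.dvd_of_dvd_pow hq)
      rw [h2]
      have := q.2
      omega
    · exact absurd (Nat.dvd_one.1 hq) hp.one_lt.ne'

lemma ind_mul (A : Set ℕ) (x y z n : ℕ) :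
    ind A (x * n) * ind A (y * n) * ind A (z * n) =
      ind {n | x * n ∈ A ∧ y * n ∈ A ∧ z * n ∈ A} n := by
  classical
  unfold ind
  simp only [Set.indicator_apply, Set.mem_ofPred_eq]
  by_cases h1 : x * n ∈ A <;> by_cases h2 : y * n ∈ A <;> by_cases h3 : z * n ∈ A <;>
    simp [h1, h2, h3]

end XAT

open XAT in
theorem pr_AT (hRep : RepS) (hTC : StTC) (hAP : StAP) (hAR : StAR)
    (hAS : StAS) (hAK : StAK) : StAT := by
  classical
  intro ι _ _ cl hF m hm A hA ε hε
  have hex : ∀ i : ι, ∃ p : ℕ, p.Prime ∧ cl p = some i := by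
    intro i
    by_contra hno
    push Not at hno
    apply hF.2 i
    unfold Thin
    have h0 : (fun p : Nat.Primes => Set.indicator {p : ℕ | cl p = some i}
        (fun p : ℕ => 1 / (p : ℝ)) (p : ℕ)) = fun _ => 0 := by
      funext p
      rw [Set.indicator_of_notMem]
      exact hno p p.2
    rw [h0]
    exact summable_zero
  choose pp hpp using hex
  have hR : Rpr cl pp := hpp
  obtain ⟨R⟩ := hRep m hm
  have hf : I01 (ind A) := by
    intro n
    unfold ind
    by_cases h : n ∈ A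
    · rw [Set.indicator_of_mem h]
      norm_num
    · rw [Set.indicator_of_notMem h]
      norm_num
  have hInv : InvF cl (ind A) := by
    intro p q i hp hq hcp hcq n hn
    have h := hA p q i hp hq hcp hcq n hn
    unfold ind
    by_cases h1 : p * n ∈ A
    · rw [Set.indicator_of_mem h1, Set.indicator_of_mem (h.1 h1)]
    · rw [Set.indicator_of_notMem h1, Set.indicator_of_notMem (fun h2 => h1 (h.2 h2))]
  obtain ⟨δ, rfl⟩ : ∃ δ : ℝ, ε = 32 * δ := ⟨ε / 32, by ring⟩
  have hδ : 0 < δ := by linarith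
  obtain ⟨f', X₁, hApx⟩ := hAP ι _ _ cl pp hR m hm R (ind A) hf δ hδ
  obtain ⟨w1, h1⟩ := hAR ι _ _ cl hF pp hR m hm R (ind A) f' X₁ δ hf hδ hApx
  obtain ⟨w2, h2⟩ := hAS ι _ _ cl hF pp hR m hm (ind A) hf hInv δ hδ
  obtain ⟨w, hw2, hw1, hw3⟩ : ∃ w : ℕ, 2 ≤ w ∧ w1 ≤ w ∧ w2 ≤ w :=
    ⟨2 + w1 + w2, by omega, by omega, by omega⟩
  obtain ⟨K0, hK0⟩ := hAK m hm R f' hApx.h01 w δ hw2 hδ
  obtain ⟨K, hK1, hKK0⟩ : ∃ K : ℕ, 1 ≤ K ∧ K0 ≤ K := ⟨1 + K0, by omega, by omega⟩
  have hK := hK0 K hKK0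
  choose M1 hM1 using fun e : Fin (w + 1) → Fin K =>
    h1 w hw1 (w.factorial * kp w K e) (adm w K e)
  choose M2 hM2 using fun e : Fin (w + 1) → Fin K =>
    h2 w hw3 (w.factorial * kp w K e) (adm w K e)
  obtain ⟨M, hM, hMe1, hMe2⟩ : ∃ M : ℕ, 1 ≤ M ∧ (∀ e, M1 e ≤ M) ∧ ∀ e, M2 e ≤ M := by
    refine ⟨1 + ∑ e, M1 e + ∑ e, M2 e, by omega, fun e => ?_, fun e => ?_⟩
    · have := Finset.single_le_sum (f := M1) (fun i _ => Nat.zero_le _) (Finset.mem_univ e)
      omega
    · have := Finset.single_le_sum (f := M2) (fun i _ => Nat.zero_le _) (Finset.mem_univ e)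
      omega
  have hE : ∀ e : Fin (w + 1) → Fin K,
      (m fun n => f' n ^ 2 * f' (2 * (w.factorial * kp w K e) * n)) - 14 * δ ≤
      AF w (w.factorial * kp w K e) M fun x y t => m fun n =>
        ind A (2 * (w.factorial * kp w K e) * x * n) * ind A (y * n) * ind A (t * n) := by
    intro e
    have a1 := hM1 e M (hMe1 e)
    have a2 := hM2 e M (hMe2 e)
    linarith
  obtain ⟨e, he⟩ : ∃ e : Fin (w + 1) → Fin K, m (ind A) ^ 3 - 32 * δ <
      AF w (w.factorial * kp w K e) M fun x y t => m fun n =>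
        ind A (2 * (w.factorial * kp w K e) * x * n) * ind A (y * n) * ind A (t * n) := by
    by_contra hno
    push Not at hno
    have hpos : (0 : ℝ) < (K : ℝ) ^ (w + 1) := by
      have : (0 : ℝ) < K := by exact_mod_cast hK1
      positivity
    have hsum : ∑ e : Fin (w + 1) → Fin K,
        (m fun n => f' n ^ 2 * f' (2 * (w.factorial * kp w K e) * n)) ≤
        (K : ℝ) ^ (w + 1) * (m (ind A) ^ 3 - 32 * δ + 14 * δ) := by
      have h3 : ∀ e ∈ (Finset.univ : Finset (Fin (w + 1) → Fin K)),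
          (m fun n => f' n ^ 2 * f' (2 * (w.factorial * kp w K e) * n)) ≤
            m (ind A) ^ 3 - 32 * δ + 14 * δ := by
        intro e _
        have a1 := hE e
        have a2 := hno e
        linarith
      refine (Finset.sum_le_sum h3).trans (le_of_eq ?_)
      rw [Finset.sum_const, nsmul_eq_mul, Finset.card_univ, Fintype.card_fun, Fintype.card_fin,
        Fintype.card_fin]
      push_cast
      ring
    rw [hApx.hm] at hK
    rw [le_div_iff₀ hpos] at hK
    have h4 : (m (ind A) ^ 3 - δ) * (K : ℝ) ^ (w + 1) ≤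
        (m (ind A) ^ 3 - 32 * δ + 14 * δ) * (K : ℝ) ^ (w + 1) := by
      refine hK.trans (hsum.trans (le_of_eq ?_))
      ring
    have h5 := le_of_mul_le_mul_right h4 hpos
    linarith
  obtain ⟨-, -, -, -, -, -, -, -, -, hlast⟩ := hTC w (w.factorial * kp w K e) M hM
  obtain ⟨a, n, ha, hn, hc⟩ := hlast _ _ he
  have hκ := (adm w K e).1
  refine ⟨2 * (w.factorial * kp w K e) * xF (w.factorial * kp w K e) a n,
    yF (w.factorial * kp w K e) a n, zF (w.factorial * kp w K e) a n, ?_, ?_, ?_,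
    xyzF _ _ _, ?_⟩
  · unfold xF
    positivity
  · unfold yF
    positivity
  · unfold zF
    positivity
  · have h6 : (fun j => ind A (2 * (w.factorial * kp w K e) *
        xF (w.factorial * kp w K e) a n * j) * ind A (yF (w.factorial * kp w K e) a n * j) *
        ind A (zF (w.factorial * kp w K e) a n * j)) =
        ind {j | 2 * (w.factorial * kp w K e) * xF (w.factorial * kp w K e) a n * j ∈ A ∧
          yF (w.factorial * kp w K e) a n * j ∈ A ∧
          zF (w.factorial * kp w K e) a n * j ∈ A} := by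
      funext j
      exact ind_mul A _ _ _ j
    rw [← h6]
    exact hc.le

end Pool.Agent.F0f91f8.FC
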