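import Pool.Agent.Work.MP_0f91f8_co.FC.StmtsA

/-!
# Block FC, item AV: finitely many pretentious characters are trivial at most members (helper72)
-/

set_option autoImplicit false

namespace Pool.Agent.F0f91f8.FC

open Filter Topology ComplexConjugate
open Pool.Agent.F0f91f8.HD
open scoped BigOperators

namespace XAV

variable {ι : Type} [Fintype ι] [DecidableEq ι]

theorem fin_sep (S : Finset ℂ) (hS : ∀ ζ ∈ S, ζ ≠ 1) :
    ∃ c : ℝ, 0 < c ∧ ∀ ζ ∈ S, c ≤ ‖1 - ζ‖ := by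
  rcases S.eq_empty_or_nonempty with h | h
  · exact ⟨1, one_pos, by simp [h]⟩
  · obtain ⟨ζ₀, h0, h1⟩ := S.exists_min_image (fun ζ => ‖1 - ζ‖) h
    refine ⟨‖1 - ζ₀‖, norm_pos_iff.2 (sub_ne_zero.2 (hS ζ₀ h0).symm), h1⟩

omit [DecidableEq ι] in
theorem ch_pow (z : ι → ℂ) (N : ℕ) (h : ∀ i, z i ^ N = 1) (α : ι → ℕ) : ch z α ^ N = 1 := by
  unfold ch
  rw [← Finset.prod_pow]
  refine Finset.prod_eq_one fun i _ => ?_
  rw [← pow_mul, mul_comm, pow_mul, h i, one_pow]

omit [DecidableEq ι] in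
theorem sep (z : ι → ℂ) (N : ℕ) (hN : 0 < N) (h : ∀ i, z i ^ N = 1) :
    ∃ c : ℝ, 0 < c ∧ ∀ α : ι → ℕ, ch z α ≠ 1 → c ≤ ‖1 - ch z α‖ := by
  classical
  obtain ⟨c, hc, h1⟩ := fin_sep ((Polynomial.nthRoots N (1 : ℂ)).toFinset.erase 1)
    (fun ζ hζ => (Finset.mem_erase.1 hζ).1)
  refine ⟨c, hc, fun α hα => h1 _ (Finset.mem_erase.2 ⟨hα, ?_⟩)⟩
  rw [Multiset.mem_toFinset, Polynomial.mem_nthRoots hN]
  exact ch_pow z N h α

open Classical in
theorem main (hR : RootS) (hT : TrivS) (hTC : StTC) (cl : ℕ → Option ι) (hF : Fat cl)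
    (X₁ : Finset (ι → ℂ)) : (∀ z ∈ X₁, Uni z ∧ Pret (fz cl z)) → ∀ ε : ℝ, 0 < ε →
    ∃ w₀ : ℕ, ∀ w ≥ w₀, ∀ κ : ℕ, Adm w κ → ∃ M₀ : ℕ, ∀ M ≥ M₀,
    AF w κ M (fun x y t => if ∀ z ∈ X₁, ch z (hv cl x) = 1 ∧ ch z (hv cl y) = 1 ∧
      ch z (hv cl t) = 1 then 0 else 1) ≤ ε := by
  induction X₁ using Finset.induction_on with
  | empty =>
    intro _ ε hε
    refine ⟨0, fun w _ κ _ => ⟨1, fun M hM => ?_⟩⟩
    obtain ⟨-, -, -, -, -, -, -, hc, -, -⟩ := hTC w κ M hM
    have h0 := hc 0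
    have h1 : (fun x y t : ℕ => if ∀ z ∈ (∅ : Finset (ι → ℂ)), ch z (hv cl x) = 1 ∧
        ch z (hv cl y) = 1 ∧ ch z (hv cl t) = 1 then (0 : ℝ) else 1) = fun _ _ _ => 0 := by
      funext x y t
      rw [if_pos]
      intro z hz
      exact absurd hz (Finset.notMem_empty z)
    rw [h1, h0]
    exact hε.le
  | insert z X hzX ih =>
    intro hX ε hε
    have hz := hX z (Finset.mem_insert_self z X)
    have hX' : ∀ z ∈ X, Uni z ∧ Pret (fz cl z) := fun y hy => hX y (Finset.mem_insert_of_mem hy)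
    obtain ⟨N, hN, hroot⟩ := hR ι inferInstance inferInstance cl hF z hz.1 hz.2
    obtain ⟨c, hc, hsep⟩ := sep z N hN hroot
    obtain ⟨w₁, h1⟩ := hT ι inferInstance inferInstance cl hF z hz.1 hz.2 (c * (ε / 2))
      (mul_pos hc (half_pos hε))
    obtain ⟨w₂, h2⟩ := ih hX' (ε / 2) (half_pos hε)
    refine ⟨max w₁ w₂, fun w hw κ hκ => ?_⟩
    obtain ⟨M₁, h1'⟩ := h1 w ((le_max_left _ _).trans hw) κ hκ
    obtain ⟨M₂, h2'⟩ := h2 w ((le_max_right _ _).trans hw) κ hκ
    refine ⟨max (max M₁ M₂) 1, fun M hM => ?_⟩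
    have hM1 : M₁ ≤ M := ((le_max_left _ _).trans (le_max_left _ _)).trans hM
    have hM2 : M₂ ≤ M := ((le_max_right _ _).trans (le_max_left _ _)).trans hM
    have hM3 : 1 ≤ M := (le_max_right _ _).trans hM
    have e1 := h1' M hM1
    have e2 := h2' M hM2
    obtain ⟨-, -, -, -, hadd, hmul, hmono, -, -, -⟩ := hTC w κ M hM3
    have e3 : AF w κ M (fun x y t => if ∀ z' ∈ insert z X, ch z' (hv cl x) = 1 ∧
        ch z' (hv cl y) = 1 ∧ ch z' (hv cl t) = 1 then (0 : ℝ) else 1) ≤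
        AF w κ M (fun x y t => c⁻¹ * (‖1 - ch z (hv cl x)‖ + ‖1 - ch z (hv cl y)‖ +
          ‖1 - ch z (hv cl t)‖) + if ∀ z' ∈ X, ch z' (hv cl x) = 1 ∧ ch z' (hv cl y) = 1 ∧
          ch z' (hv cl t) = 1 then 0 else 1) := by
      refine hmono _ _ fun x y t _ _ _ => ?_
      have n1 := norm_nonneg (1 - ch z (hv cl x))
      have n2 := norm_nonneg (1 - ch z (hv cl y))
      have n3 := norm_nonneg (1 - ch z (hv cl t))
      have hT0 : 0 ≤ c⁻¹ * (‖1 - ch z (hv cl x)‖ + ‖1 - ch z (hv cl y)‖ +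
          ‖1 - ch z (hv cl t)‖) := mul_nonneg (inv_pos.2 hc).le (by linarith)
      by_cases hA : ∀ z' ∈ X, ch z' (hv cl x) = 1 ∧ ch z' (hv cl y) = 1 ∧
          ch z' (hv cl t) = 1
      · by_cases hB : ch z (hv cl x) = 1 ∧ ch z (hv cl y) = 1 ∧ ch z (hv cl t) = 1
        · have hC : ∀ z' ∈ insert z X, ch z' (hv cl x) = 1 ∧
              ch z' (hv cl y) = 1 ∧ ch z' (hv cl t) = 1 := by
            intro z' hz'
            rcases Finset.mem_insert.1 hz' with rfl | h
            · exact hB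
            · exact hA z' h
          rw [if_pos hC, if_pos hA]
          linarith
        · have hC : ¬ ∀ z' ∈ insert z X, ch z' (hv cl x) = 1 ∧
              ch z' (hv cl y) = 1 ∧ ch z' (hv cl t) = 1 := fun h =>
            hB (h z (Finset.mem_insert_self z X))
          rw [if_neg hC, if_pos hA]
          have hs : c ≤ ‖1 - ch z (hv cl x)‖ + ‖1 - ch z (hv cl y)‖ +
              ‖1 - ch z (hv cl t)‖ := by
            by_cases b1 : ch z (hv cl x) = 1
            · by_cases b2 : ch z (hv cl y) = 1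
              · have b3 : ch z (hv cl t) ≠ 1 := fun b3 => hB ⟨b1, b2, b3⟩
                have := hsep _ b3
                linarith
              · have := hsep _ b2
                linarith
            · have := hsep _ b1
              linarith
          have := mul_le_mul_of_nonneg_left hs (inv_pos.2 hc).le
          rw [inv_mul_cancel₀ hc.ne'] at this
          linarith
      · have hC : ¬ ∀ z' ∈ insert z X, ch z' (hv cl x) = 1 ∧
            ch z' (hv cl y) = 1 ∧ ch z' (hv cl t) = 1 := fun h =>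
          hA fun z' hz' => h z' (Finset.mem_insert_of_mem hz')
        rw [if_neg hC, if_neg hA]
        linarith
    refine e3.trans ?_
    rw [hadd, hmul]
    have e4 := mul_le_mul_of_nonneg_left e1 (inv_pos.2 hc).le
    have e5 : c⁻¹ * (c * (ε / 2)) = ε / 2 := by field_simp
    linarith

end XAV

/-- finitely many pretentious characters are trivial at most members -/
theorem pr_AV (hR : RootS) (hT : TrivS) (hTC : StTC) : StAV := by
  intro ι _ _ cl hF X₁ hX ε hε
  exact XAV.main hR hT hTC cl hF X₁ hX ε hε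

end Pool.Agent.F0f91f8.FC
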