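import Pool.Agent.Work.MP_0f91f8_co.FC.StmtsA

/-!
# Item AW of block FC (MP_0f91f8_co): the dilations preserve `Es Y` and `Wm`
-/

set_option autoImplicit false

namespace Pool.Agent.F0f91f8.FC

open Filter Topology ComplexConjugate
open scoped BigOperators

namespace XAW

theorem norm_ch {ι : Type} [Fintype ι] {z : ι → ℂ} (hz : Uni z) (α : ι → ℕ) : ‖ch z α‖ = 1 := by
  unfold ch
  rw [norm_prod]
  apply Finset.prod_eq_one
  intro i _
  rw [norm_pow, hz i, one_pow]

/-- an isometry `S` with `S e = c e`, `‖c‖ = 1`, commuting with the isometry `T`: the adjoint of `T` maps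
`e` to an eigenvector -/
theorem adj_eig {H : Type*} [NormedAddCommGroup H] [InnerProductSpace ℂ H] [CompleteSpace H]
    (S T : H →ₗᵢ[ℂ] H) (hc : ∀ h, T (S h) = S (T h)) {c : ℂ} (h1 : ‖c‖ = 1) {e : H}
    (he : S e = c • e) :
    S (ContinuousLinearMap.adjoint T.toContinuousLinearMap e) =
      c • ContinuousLinearMap.adjoint T.toContinuousLinearMap e := by
  set v : H := ContinuousLinearMap.adjoint T.toContinuousLinearMap e with hv
  have hcc : c * conj c = 1 := by
    rw [Complex.mul_conj, Complex.normSq_eq_norm_sq, h1]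
    norm_num
  have hcc' : conj c * c = 1 := by rw [mul_comm]; exact hcc
  have he' : e = conj c • S e := by
    rw [he, smul_smul, hcc', one_smul]
  have hadj : ∀ x : H, inner ℂ x v = inner ℂ (T x) e := by
    intro x
    rw [hv, ContinuousLinearMap.adjoint_inner_right]
    rfl
  have h2 : inner ℂ (S v) v = conj c * ((‖v‖ : ℂ) ^ 2) := by
    rw [hadj (S v), hc v]
    conv_lhs => rw [he']
    rw [inner_smul_right, S.inner_map_map, ← hadj v, inner_self_eq_norm_sq_to_K]
    rfl
  have h3 : inner ℂ (S v) (c • v) = ((‖v‖ : ℂ) ^ 2) := by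
    rw [inner_smul_right, h2, ← mul_assoc, hcc, one_mul]
  have h4 : ‖S v - c • v‖ ^ 2 = 0 := by
    have h5 := @norm_sub_sq ℂ H _ _ _ (S v) (c • v)
    rw [h3, S.norm_map, norm_smul, h1, one_mul] at h5
    have h6 : RCLike.re ((‖v‖ : ℂ) ^ 2) = ‖v‖ ^ 2 := by
      have : ((‖v‖ : ℂ) ^ 2) = ((‖v‖ ^ 2 : ℝ) : ℂ) := by push_cast; rfl
      rw [this]
      exact Complex.ofReal_re _
    rw [h6] at h5
    rw [h5]; ring
  have h7 : S v - c • v = 0 := by
    have := pow_eq_zero_iff (n := 2) (by norm_num) |>.1 h4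
    exact norm_eq_zero.1 this
  exact sub_eq_zero.1 h7

end XAW

theorem pr_AW (hTA : StTA) : StAW := by
  intro ι _ _ cl pp hpp m R k hk
  obtain ⟨-, hT⟩ := hTA ι inferInstance inferInstance cl pp hpp
  obtain ⟨-, hcomm⟩ := hT m R
  refine ⟨?_, ?_⟩
  · intro Y g hg
    refine map_mem_closure (R.T k).continuous hg ?_
    intro x hx
    induction hx using Submodule.span_induction with
    | mem x hx =>
      obtain ⟨z, hz, hU, hE⟩ := hx
      refine Submodule.subset_span ⟨z, hz, hU, fun a => ?_⟩
      rw [← hcomm k a x hk, hE a, map_smul]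
    | zero => rw [map_zero]; exact Submodule.zero_mem _
    | add x y _ _ hx hy => rw [map_add]; exact Submodule.add_mem _ hx hy
    | smul a x _ hx => rw [map_smul]; exact Submodule.smul_mem _ a hx
  · intro g hg z e hU hE
    have h1 : EigV (Sa R pp) z
        (ContinuousLinearMap.adjoint (R.T k).toContinuousLinearMap e) := by
      intro a
      exact XAW.adj_eig (Sa R pp a) (R.T k) (fun h => hcomm k a h hk) (XAW.norm_ch hU a) (hE a)
    have h2 := hg z _ hU h1
    rw [ContinuousLinearMap.adjoint_inner_left] at h2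
    exact h2

end Pool.Agent.F0f91f8.FC
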