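import Pool.Agent.Work.MP_0f91f8_co.FC.StmtsA

/-!
# Block FC, item AX: from fat classes to arbitrary classes (helper99)
-/

set_option autoImplicit false

namespace Pool.Agent.F0f91f8.FC

open Filter Topology
open scoped BigOperators

namespace XAX

lemma thin_of {T : Set ℕ} (h : Summable fun p : {p : ℕ // p.Prime ∧ p ∈ T} => 1 / ((p : ℕ) : ℝ)) :
    Thin T := by
  classical
  have h1 : Summable (({p : ℕ | p.Prime ∧ p ∈ T} : Set ℕ).indicator
      (fun p : ℕ => 1 / (p : ℝ))) := by
    rw [← summable_subtype_iff_indicator]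
    exact h
  have hinj : Function.Injective (fun p : Nat.Primes => (p : ℕ)) := Subtype.val_injective
  have h2 := h1.comp_injective hinj
  unfold Thin
  refine h2.congr fun p => ?_
  simp only [Function.comp_apply]
  by_cases hp : (p : ℕ) ∈ T
  · rw [Set.indicator_of_mem hp, Set.indicator_of_mem]
    exact ⟨p.2, hp⟩
  · rw [Set.indicator_of_notMem hp, Set.indicator_of_notMem]
    exact fun h3 => hp h3.2

lemma thin_union {d : ℕ} (cl : ℕ → Fin (d + 1)) (T : Set ℕ)
    (hT : ∀ p ∈ T, Thin {q | cl q = cl p}) : Thin T := by
  classical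
  unfold Thin
  have h1 : ∀ i : Fin (d + 1), Summable fun p : Nat.Primes =>
      (T ∩ {q | cl q = i}).indicator (fun p : ℕ => 1 / (p : ℝ)) (p : ℕ) := by
    intro i
    by_cases hi : ∃ p ∈ T, cl p = i
    · obtain ⟨p, hp, rfl⟩ := hi
      have h2 := hT p hp
      unfold Thin at h2
      refine Summable.of_nonneg_of_le (fun q => ?_) (fun q => ?_) h2
      · exact Set.indicator_nonneg (fun q _ => by positivity) _
      · exact Set.indicator_le_indicator_of_subset Set.inter_subset_right
          (fun q => by positivity) _
    · have h3 : T ∩ {q | cl q = i} = ∅ := by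
        ext q
        simp only [Set.mem_inter_iff, Set.mem_empty_iff_false, iff_false]
        exact fun h4 => hi ⟨q, h4.1, h4.2⟩
      rw [h3]
      simp only [Set.indicator_empty]
      exact summable_zero
  have h4 := summable_sum (s := (Finset.univ : Finset (Fin (d + 1)))) (fun i _ => h1 i)
  refine h4.congr fun p => ?_
  rw [Finset.sum_eq_single (cl (p : ℕ))]
  · by_cases hp : (p : ℕ) ∈ T
    · rw [Set.indicator_of_mem hp, Set.indicator_of_mem]
      exact ⟨hp, rfl⟩
    · rw [Set.indicator_of_notMem hp, Set.indicator_of_notMem]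
      exact fun h3 => hp h3.1
  · intro i _ hi
    rw [Set.indicator_of_notMem]
    exact fun h3 => hi h3.2.symm
  · intro h5
    exact absurd (Finset.mem_univ _) h5

end XAX

theorem pr_AX (hF : FatS) : StAX := by
  classical
  intro d cl h0 m hm A hA ε hε
  let ι : Type := {i : Fin (d + 1) // i ≠ 0 ∧ ¬ Thin {p | cl p = i}}
  let cl' : ℕ → Option ι := fun p =>
    if h : cl p ≠ 0 ∧ ¬ Thin {q | cl q = cl p} then some ⟨cl p, h⟩ else none
  have hcl : ∀ (p : ℕ) (i : ι), cl' p = some i ↔ cl p = i.1 := by
    intro p i
    simp only [cl']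
    constructor
    · intro h
      split_ifs at h with h1
      rw [← Option.some.inj h]
    · intro h
      have h1 : cl p ≠ 0 ∧ ¬ Thin {q | cl q = cl p} := by
        rw [h]
        exact i.2
      rw [dif_pos h1]
      congr 1
      exact Subtype.ext h
  have hfat : Fat cl' := by
    refine ⟨?_, fun i => ?_⟩
    · refine XAX.thin_union cl _ fun p hp => ?_
      have hp' : cl' p = none := hp
      simp only [cl'] at hp'
      split_ifs at hp' with h1
      by_contra h2
      apply h1
      refine ⟨fun h3 => h2 ?_, h2⟩
      rw [h3]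
      exact XAX.thin_of h0
    · have h1 : {p | cl' p = some i} = {p | cl p = i.1} := by
        ext p
        exact hcl p i
      rw [h1]
      exact i.2.2
  have hinv : InvA cl' A := by
    intro p q i hp hq hpi hqi n hn
    rw [hcl] at hpi hqi
    refine hA p q hp hq (hpi.trans hqi.symm) ?_ n hn
    rw [hpi]
    exact i.2.1
  exact hF ι inferInstance inferInstance cl' hfat m hm A hinv ε hε

end Pool.Agent.F0f91f8.FC
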