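import Pool.Agent.Work.MP_0f91f8_co.FC.StmtsA

/-!
# Block FC, module A, item AY: the colouring form
-/

set_option autoImplicit false

namespace Pool.Agent.F0f91f8.FC

namespace XAY

open scoped BigOperators

theorem ind_bd (A : Set ℕ) : BdR (ind A) := by
  refine ⟨1, fun n => ?_⟩
  unfold ind
  by_cases h : n ∈ A
  · rw [Set.indicator_of_mem h]
    norm_num
  · rw [Set.indicator_of_notMem h]
    norm_num

theorem ind_mem {A : Set ℕ} {n : ℕ} (h : n ∈ A) : ind A n = 1 := by
  unfold ind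
  rw [Set.indicator_of_mem h]

theorem ind_not {A : Set ℕ} {n : ℕ} (h : n ∉ A) : ind A n = 0 := by
  unfold ind
  rw [Set.indicator_of_notMem h]

end XAY

open scoped BigOperators
open XAY

/-- item AY -/
theorem pr_AY (hM : MeanS) (hAm : StAm) (hX : FinM) : StAY := by
  intro d cl hsum r c hinv
  obtain ⟨m, hm⟩ := hM
  obtain ⟨_, hcongr, hconst, _, hlin, _, _⟩ := hAm m hm
  -- one class has positive mean
  have hs : ∑ i : Fin r, m (ind {n | c n = i}) = 1 := by
    have h1 := hlin (Fin r) Finset.univ (fun _ => 1) (fun i => ind {n | c n = i})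
      (fun i _ => ind_bd _)
    have h2 : (fun n => ∑ i : Fin r, (1 : ℝ) * ind {n | c n = i} n) = fun _ => (1 : ℝ) := by
      funext n
      have h3 : ∀ i : Fin r, (1 : ℝ) * ind {n | c n = i} n = if c n = i then 1 else 0 := by
        intro i
        rw [one_mul]
        split_ifs with h
        · exact ind_mem h
        · exact ind_not h
      rw [Finset.sum_congr rfl fun i _ => h3 i, Finset.sum_ite_eq]
      simp
    rw [h2, hconst 1] at h1
    rw [h1]
    exact Finset.sum_congr rfl fun i _ => (one_mul _).symm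
  obtain ⟨i, hi⟩ : ∃ i : Fin r, 0 < m (ind {n | c n = i}) := by
    by_contra hcon
    push Not at hcon
    have h4 : ∑ i : Fin r, m (ind {n | c n = i}) ≤ 0 := Finset.sum_nonpos fun i _ => hcon i
    rw [hs] at h4
    linarith
  set A : Set ℕ := {n | c n = i} with hA
  obtain ⟨x, y, z, hx, hy, hz, hxyz, hmm⟩ := hX d cl hsum m hm A
    (by
      intro p q hp hq hpq hp0 n hn
      have h5 := hinv p q hp hq hpq hp0 n hn
      show c (p * n) = i ↔ c (q * n) = i
      rw [h5]) (m (ind A) ^ 3 / 2) (by positivity)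
  have hpos : 0 < m (ind {n | x * n ∈ A ∧ y * n ∈ A ∧ z * n ∈ A}) := by
    have h6 : 0 < m (ind A) ^ 3 := by positivity
    linarith
  obtain ⟨n, hn, h7, h8, h9⟩ : ∃ n, 0 < n ∧ x * n ∈ A ∧ y * n ∈ A ∧ z * n ∈ A := by
    by_contra hcon
    push Not at hcon
    have h10 : m (ind {n | x * n ∈ A ∧ y * n ∈ A ∧ z * n ∈ A}) = m (fun _ => 0) := by
      refine hcongr _ _ (ind_bd _) ⟨0, fun _ => by norm_num⟩ ?_
      intro n hn
      apply ind_not
      rintro ⟨h1, h2, h3⟩
      exact hcon n hn h1 h2 h3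
    rw [h10, hconst 0] at hpos
    exact lt_irrefl _ hpos
  refine ⟨x * n, y * n, z * n, Nat.mul_pos hx hn, Nat.mul_pos hy hn, Nat.mul_pos hz hn, ?_, ?_, ?_⟩
  · calc (x * n) ^ 2 + (y * n) ^ 2 = (x ^ 2 + y ^ 2) * n ^ 2 := by ring
      _ = z ^ 2 * n ^ 2 := by rw [hxyz]
      _ = (z * n) ^ 2 := by ring
  · exact h7.trans h8.symm
  · exact h8.trans h9.symm

end Pool.Agent.F0f91f8.FC
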