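import Pool.Agent.Work.MP_0f91f8_co.FC.Defs

/-!
# Block FC: the uniform colouring form (compactness)
-/

set_option autoImplicit false

namespace Pool.Agent.F0f91f8.FC

open Filter

/-- uniform form: one bound `K` for all partitions of the primes outside `T` into `d` classes and all `r`-colourings -/
def FinU : Prop := ∀ T : Set ℕ, (Summable fun p : {p : ℕ // p.Prime ∧ p ∈ T} => 1 / ((p : ℕ) : ℝ)) →
  ∀ d r : ℕ, ∃ K : ℕ, ∀ (cl : ℕ → Fin d) (c : ℕ → Fin r),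
  (∀ p q n : ℕ, p.Prime → q.Prime → p ∉ T → q ∉ T → cl p = cl q → 0 < n → p * n ≤ K → q * n ≤ K →
    c (p * n) = c (q * n)) →
  ∃ x y z : ℕ, 0 < x ∧ 0 < y ∧ 0 < z ∧ z ≤ K ∧ x ^ 2 + y ^ 2 = z ^ 2 ∧ c x = c y ∧ c y = c z

theorem XAZ.lim {r : ℕ} (𝒰 : Ultrafilter ℕ) (f : ℕ → Fin r) : ∃ a, ∀ᶠ K in (𝒰 : Filter ℕ), f K = a := by
  have : Nonempty (Fin r) := ⟨f 0⟩
  obtain ⟨a, ha⟩ := Ultrafilter.eq_pure_of_finite (𝒰.map f)
  refine ⟨a, ?_⟩
  have h : ({a} : Set (Fin r)) ∈ 𝒰.map f := by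
    rw [ha]
    exact Ultrafilter.mem_pure.2 rfl
  exact h

theorem pr_AZ (hC : FinC) : FinU := by
  classical
  intro T hT d r
  by_contra hcon
  push Not at hcon
  choose clK cK hinv hno using hcon
  set 𝒰 := hyperfilter ℕ
  choose cl0 hcl0 using fun n => XAZ.lim 𝒰 (fun K => clK K n)
  choose c0 hc0 using fun n => XAZ.lim 𝒰 (fun K => cK K n)
  have hge : ∀ N : ℕ, ∀ᶠ K in (𝒰 : Filter ℕ), N ≤ K := fun N =>
    (Nat.hyperfilter_le_atTop : (𝒰 : Filter ℕ) ≤ atTop) (eventually_ge_atTop N)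
  have hT' : Summable fun p : {p : ℕ // p.Prime ∧
      (fun p => if p ∈ T then (0 : Fin (d + 1)) else (cl0 p).succ) p = 0} =>
        1 / ((p : ℕ) : ℝ) := by
    have hiff : ∀ p : ℕ, (p.Prime ∧ (fun p => if p ∈ T then (0 : Fin (d + 1)) else (cl0 p).succ) p = 0) ↔
        (p.Prime ∧ p ∈ T) := by
      intro p
      by_cases hp : p ∈ T
      · simp [hp]
      · simp [hp, Fin.succ_ne_zero]
    exact ((Equiv.subtypeEquivRight hiff).summable_iff (f := fun p : {p : ℕ // p.Prime ∧ p ∈ T} =>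
      1 / ((p : ℕ) : ℝ))).2 hT
  obtain ⟨x, y, z, hx, hy, hz, hxyz, h1, h2⟩ := hC d _ hT' r c0 (by
    intro p q hp hq hpq hp0 n hn
    have hpT : p ∉ T := fun h => hp0 (by simp [h])
    have hqT : q ∉ T := fun h => hp0 (by rw [hpq]; simp [h])
    have hclpq : cl0 p = cl0 q := by
      have : (cl0 p).succ = (cl0 q).succ := by simpa [hpT, hqT] using hpq
      exact Fin.succ_injective _ this
    have hev : ∀ᶠ K in (𝒰 : Filter ℕ), c0 (p * n) = c0 (q * n) := by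
      filter_upwards [hcl0 p, hcl0 q, hc0 (p * n), hc0 (q * n), hge (p * n), hge (q * n)]
        with K e1 e2 e3 e4 e5 e6
      rw [← e3, ← e4]
      exact hinv K p q n hp hq hpT hqT (by rw [e1, e2, hclpq]) hn e5 e6
    exact hev.exists.choose_spec)
  have hev : ∀ᶠ K in (𝒰 : Filter ℕ), False := by
    filter_upwards [hc0 x, hc0 y, hc0 z, hge z] with K e1 e2 e3 e4
    exact hno K x y z hx hy hz e4 hxyz (by rw [e1, e2, h1]) (by rw [e2, e3, h2])
  exact hev.exists.choose_spec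

end Pool.Agent.F0f91f8.FC
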