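import Pool.Agent.Work.MP_0f91f8_co.FC.StmtsA

/-!
# Block FC, item Am: calculus of means
-/

set_option autoImplicit false

namespace Pool.Agent.F0f91f8.FC

open Filter Topology ComplexConjugate
open scoped BigOperators

namespace XAm

lemma bd_const (c : ℝ) : BdR (fun _ => c) := ⟨|c|, fun _ => le_rfl⟩

lemma bd_add {F G : ℕ → ℝ} (hF : BdR F) (hG : BdR G) : BdR (fun n => F n + G n) := by
  obtain ⟨C, hC⟩ := hF
  obtain ⟨D, hD⟩ := hG
  exact ⟨C + D, fun n => (abs_add_le _ _).trans (add_le_add (hC n) (hD n))⟩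

lemma bd_smul {F : ℕ → ℝ} (c : ℝ) (hF : BdR F) : BdR (fun n => c * F n) := by
  obtain ⟨C, hC⟩ := hF
  exact ⟨|c| * C, fun n => by
    rw [abs_mul]
    exact mul_le_mul_of_nonneg_left (hC n) (abs_nonneg c)⟩

lemma bd_neg {F : ℕ → ℝ} (hF : BdR F) : BdR (fun n => -F n) := by
  obtain ⟨C, hC⟩ := hF
  exact ⟨C, fun n => by rw [abs_neg]; exact hC n⟩

lemma bd_sub {F G : ℕ → ℝ} (hF : BdR F) (hG : BdR G) : BdR (fun n => F n - G n) := by
  have h := bd_add hF (bd_neg hG)
  simpa only [sub_eq_add_neg] using h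

lemma bd_mul {F G : ℕ → ℝ} (hF : BdR F) (hG : BdR G) : BdR (fun n => F n * G n) := by
  obtain ⟨C, hC⟩ := hF
  obtain ⟨D, hD⟩ := hG
  refine ⟨C * D, fun n => ?_⟩
  rw [abs_mul]
  exact mul_le_mul (hC n) (hD n) (abs_nonneg _) ((abs_nonneg _).trans (hC n))

lemma bd_sum {α : Type} (s : Finset α) (c : α → ℝ) (F : α → ℕ → ℝ)
    (h : ∀ a ∈ s, BdR (F a)) : BdR (fun n => ∑ a ∈ s, c a * F a n) := by
  classical
  induction s using Finset.induction_on with
  | empty => exact ⟨0, fun n => by simp⟩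
  | insert a s ha ih =>
    have h1 := bd_add (bd_smul (c a) (h a (Finset.mem_insert_self a s)))
      (ih fun b hb => h b (Finset.mem_insert_of_mem hb))
    simpa only [Finset.sum_insert ha] using h1

variable {m : (ℕ → ℝ) → ℝ}

lemma m_const (hm : IsMean m) (c : ℝ) : m (fun _ => c) = c := by
  have h := hm.2.1 c (fun _ => 1) (bd_const 1)
  simp only [mul_one] at h
  rw [h, hm.2.2.2.1, mul_one]

lemma m_sub (hm : IsMean m) {F G : ℕ → ℝ} (hF : BdR F) (hG : BdR G) :
    m (fun n => F n - G n) = m F - m G := by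
  have h := hm.1 (fun n => F n - G n) G (bd_sub hF hG) hG
  simp only [sub_add_cancel] at h
  linarith

lemma m_mono (hm : IsMean m) {F G : ℕ → ℝ} (hF : BdR F) (hG : BdR G)
    (h : ∀ n, 0 < n → F n ≤ G n) : m F ≤ m G := by
  have h1 := hm.2.2.1 (fun n => G n - F n) (bd_sub hG hF) fun n hn => sub_nonneg.2 (h n hn)
  rw [m_sub hm hG hF] at h1
  linarith

lemma m_sum (hm : IsMean m) {α : Type} (s : Finset α) (c : α → ℝ) (F : α → ℕ → ℝ)
    (h : ∀ a ∈ s, BdR (F a)) :
    m (fun n => ∑ a ∈ s, c a * F a n) = ∑ a ∈ s, c a * m (F a) := by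
  classical
  induction s using Finset.induction_on with
  | empty =>
    simp only [Finset.sum_empty]
    exact m_const hm 0
  | insert a s ha ih =>
    have hs : ∀ b ∈ s, BdR (F b) := fun b hb => h b (Finset.mem_insert_of_mem hb)
    have ha' : BdR (F a) := h a (Finset.mem_insert_self a s)
    have h1 := hm.1 (fun n => c a * F a n) (fun n => ∑ b ∈ s, c b * F b n)
      (bd_smul (c a) ha') (bd_sum s c F hs)
    rw [ih hs, hm.2.1 (c a) (F a) ha'] at h1
    simp only [Finset.sum_insert ha]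
    exact h1

end XAm

theorem pr_Am : StAm := by
  intro m hm
  refine ⟨fun F G hF hG h => XAm.m_mono hm hF hG h,
    fun F G hF hG h => le_antisymm (XAm.m_mono hm hF hG fun n hn => (h n hn).le)
      (XAm.m_mono hm hG hF fun n hn => (h n hn).ge),
    XAm.m_const hm, fun F G hF hG => XAm.m_sub hm hF hG,
    fun α s c F h => XAm.m_sum hm s c F h, ?_, ?_⟩
  · intro F hF
    have hF2 : BdR (fun n => F n ^ 2) := by
      have h := XAm.bd_mul hF hF
      simpa only [pow_two] using h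
    have h1 : m (fun n => 2 * m F * F n - m F ^ 2) ≤ m (fun n => F n ^ 2) := by
      refine XAm.m_mono hm (XAm.bd_sub (XAm.bd_smul _ hF) (XAm.bd_const _)) hF2 fun n _ => ?_
      nlinarith [sq_nonneg (F n - m F)]
    rw [XAm.m_sub hm (XAm.bd_smul _ hF) (XAm.bd_const _), XAm.m_const hm, hm.2.1 _ _ hF] at h1
    nlinarith
  · intro F hI
    have hF : BdR F := ⟨1, fun n => by
      rw [abs_of_nonneg (hI n).1]
      exact (hI n).2⟩
    have hF3 : BdR (fun n => F n ^ 3) := by
      have h := XAm.bd_mul hF (XAm.bd_mul hF hF)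
      have e : (fun n => F n ^ 3) = fun n => F n * (F n * F n) := by
        funext n; ring
      rw [e]
      exact h
    have h0 : 0 ≤ m F := hm.2.2.1 F hF fun n _ => (hI n).1
    have h1 : m (fun n => 3 * m F ^ 2 * F n - 2 * m F ^ 3) ≤ m (fun n => F n ^ 3) := by
      refine XAm.m_mono hm (XAm.bd_sub (XAm.bd_smul _ hF) (XAm.bd_const _)) hF3 fun n _ => ?_
      have h2 := (hI n).1
      nlinarith [mul_nonneg (add_nonneg h2 (mul_nonneg zero_le_two h0)) (sq_nonneg (F n - m F))]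
    rw [XAm.m_sub hm (XAm.bd_smul _ hF) (XAm.bd_const _), XAm.m_const hm, hm.2.1 _ _ hF] at h1
    nlinarith

end Pool.Agent.F0f91f8.FC
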