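import Pool.Agent.Work.MP_0f91f8_co.FC.StmtsA

/-!
# Block FC, item An: norms in the Hilbert space of a mean
-/

set_option autoImplicit false

namespace Pool.Agent.F0f91f8.FC

open Filter Topology ComplexConjugate
open Pool.Agent.F0f91f8.HD
open scoped BigOperators

namespace XAn

lemma bdc_of_bdr {F : ℕ → ℝ} (h : BdR F) : BdC (cf F) := by
  obtain ⟨C, hC⟩ := h
  exact ⟨C, fun n => by
    show ‖(F n : ℂ)‖ ≤ C
    rw [Complex.norm_real]
    exact hC n⟩

lemma bdr_sub {F G : ℕ → ℝ} (hF : BdR F) (hG : BdR G) : BdR (fun n => F n - G n) := by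
  obtain ⟨C, hC⟩ := hF
  obtain ⟨D, hD⟩ := hG
  exact ⟨C + D, fun n => (abs_sub _ _).trans (add_le_add (hC n) (hD n))⟩

lemma bdr_mul {F G : ℕ → ℝ} (hF : BdR F) (hG : BdR G) : BdR (fun n => F n * G n) := by
  obtain ⟨C, hC⟩ := hF
  obtain ⟨D, hD⟩ := hG
  refine ⟨C * D, fun n => ?_⟩
  rw [abs_mul]
  exact mul_le_mul (hC n) (hD n) (abs_nonneg _) ((abs_nonneg _).trans (hC n))

lemma bdr_sq {F : ℕ → ℝ} (hF : BdR F) : BdR (fun n => F n ^ 2) := by
  have h := bdr_mul hF hF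
  have e : (fun n => F n ^ 2) = fun n => F n * F n := by
    funext n
    ring
  rw [e]
  exact h

lemma bdr_abs {F : ℕ → ℝ} (hF : BdR F) : BdR (fun n => |F n|) := by
  obtain ⟨C, hC⟩ := hF
  exact ⟨C, fun n => by rw [abs_abs]; exact hC n⟩

lemma bdr_one {F : ℕ → ℝ} (hF : ∀ n, |F n| ≤ 1) : BdR F := ⟨1, hF⟩

end XAn

theorem pr_An (hAm : StAm) : StAn := by
  intro m hm R
  obtain ⟨mono, congr', cst, sub', -, sq', -⟩ := hAm m hm
  -- norm of a class
  have key : ∀ F : ℕ → ℂ, BdC F → ‖R.e F‖ ^ 2 = m fun n => ‖F n‖ ^ 2 := by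
    intro F hF
    have h1 := R.e_inner F F hF hF
    rw [inner_self_eq_norm_sq_to_K] at h1
    have h2 := congrArg Complex.re h1
    unfold mC at h2
    have e1 : (fun n => (conj (F n) * F n).re) = fun n => ‖F n‖ ^ 2 := by
      funext n
      rw [← Complex.normSq_eq_conj_mul_self, Complex.ofReal_re, Complex.normSq_eq_norm_sq]
    have e2 : (fun n => (conj (F n) * F n).im) = fun _ => 0 := by
      funext n
      rw [← Complex.normSq_eq_conj_mul_self, Complex.ofReal_im]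
    rw [e1, e2, cst 0] at h2
    simpa [← Complex.ofReal_pow] using h2
  have sub1 : ∀ F G : ℕ → ℂ, BdC F → BdC G → R.e (fun n => F n - G n) = R.e F - R.e G := by
    intro F G hF hG
    obtain ⟨C, hC⟩ := hG
    have hG' : BdC fun n => (-1 : ℂ) * G n := ⟨C, fun n => by
      rw [norm_mul, norm_neg, norm_one, one_mul]
      exact hC n⟩
    have e : (fun n => F n - G n) = fun n => F n + (-1 : ℂ) * G n := by
      funext n
      ring
    rw [e, R.e_add F (fun n => (-1 : ℂ) * G n) hF hG', R.e_smul (-1 : ℂ) G ⟨C, hC⟩]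
    simp [sub_eq_add_neg]
  have bdsub : ∀ F G : ℕ → ℂ, BdC F → BdC G → BdC fun n => F n - G n := by
    rintro F G ⟨C, hC⟩ ⟨D, hD⟩
    exact ⟨C + D, fun n => (norm_sub_le _ _).trans (add_le_add (hC n) (hD n))⟩
  have p1 : ∀ F, BdR F → ‖R.e (cf F)‖ ^ 2 = m fun n => F n ^ 2 := by
    intro F hF
    rw [key _ (XAn.bdc_of_bdr hF)]
    congr 1
    funext n
    show ‖(F n : ℂ)‖ ^ 2 = F n ^ 2
    rw [Complex.norm_real, Real.norm_eq_abs, sq_abs]
  have p3 : ∀ F G, BdR F → BdR G →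
      R.e (cf fun n => F n - G n) = R.e (cf F) - R.e (cf G) := by
    intro F G hF hG
    rw [← sub1 _ _ (XAn.bdc_of_bdr hF) (XAn.bdc_of_bdr hG)]
    congr 1
    funext n
    show ((F n - G n : ℝ) : ℂ) = (F n : ℂ) - (G n : ℂ)
    push_cast
    ring
  have hc : ∀ c : ℝ, BdR fun _ => c := fun c => ⟨|c|, fun _ => le_rfl⟩
  refine ⟨p1, ?_, p3, ?_, ?_, ?_⟩
  · intro F G hF hG h
    have h1 := key _ (bdsub F G hF hG)
    have h2 : (m fun n => ‖F n - G n‖ ^ 2) = m fun _ => (0 : ℝ) := by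
      apply congr'
      · obtain ⟨C, hC⟩ := bdsub F G hF hG
        refine ⟨C ^ 2, fun n => ?_⟩
        rw [abs_of_nonneg (sq_nonneg _)]
        exact pow_le_pow_left₀ (norm_nonneg _) (hC n) 2
      · exact hc 0
      · intro n hn
        rw [h n hn, sub_self, norm_zero]
        norm_num
    rw [h2, cst 0, sub1 F G hF hG] at h1
    have h3 : ‖R.e F - R.e G‖ = 0 := by
      exact pow_eq_zero_iff (two_ne_zero) |>.1 h1
    exact sub_eq_zero.1 (norm_eq_zero.1 h3)
  · intro F hF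
    have hb : BdR F := ⟨1, fun n => by
      rw [abs_of_nonneg (hF n).1]
      exact (hF n).2⟩
    have h1 := p1 F hb
    have h2 : (m fun n => F n ^ 2) ≤ m fun _ => (1 : ℝ) := by
      apply mono _ _ (XAn.bdr_sq hb) (hc 1)
      intro n _
      exact pow_le_one₀ (hF n).1 (hF n).2
    rw [cst 1, ← h1] at h2
    have h3 := norm_nonneg (R.e (cf F))
    nlinarith
  · intro k hk F hF
    rw [R.T_e k hk _ (XAn.bdc_of_bdr hF)]
    rfl
  · intro F₀ F₁ F₂ F₂' h0 h1 h2 h2'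
    have b0 := XAn.bdr_one h0
    have b1 := XAn.bdr_one h1
    have b01 := XAn.bdr_mul b0 b1
    have bd := XAn.bdr_sub h2 h2'
    have hd := sub' _ _ (XAn.bdr_mul b01 h2) (XAn.bdr_mul b01 h2')
    rw [← hd, ← p3 _ _ h2 h2']
    have e : (fun n => F₀ n * F₁ n * F₂ n - F₀ n * F₁ n * F₂' n) =
        fun n => (F₀ n * F₁ n) * (F₂ n - F₂' n) := by
      funext n
      ring
    rw [e]
    have bb := XAn.bdr_mul b01 bd
    have h3 : m (fun n => (F₀ n * F₁ n) * (F₂ n - F₂' n)) ≤ m fun n => |F₂ n - F₂' n| := by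
      apply mono _ _ bb (XAn.bdr_abs bd)
      intro n _
      refine (le_abs_self _).trans ?_
      rw [abs_mul, abs_mul]
      have : |F₀ n| * |F₁ n| ≤ 1 := mul_le_one₀ (h0 n) (abs_nonneg _) (h1 n)
      have h4 := abs_nonneg (F₂ n - F₂' n)
      nlinarith
    have h5 : m (fun n => 0 - |F₂ n - F₂' n|) ≤
        m (fun n => (F₀ n * F₁ n) * (F₂ n - F₂' n)) := by
      apply mono _ _ (XAn.bdr_sub (hc 0) (XAn.bdr_abs bd)) bb
      intro n _
      have h6 := neg_abs_le ((F₀ n * F₁ n) * (F₂ n - F₂' n))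
      rw [abs_mul, abs_mul] at h6
      have : |F₀ n| * |F₁ n| ≤ 1 := mul_le_one₀ (h0 n) (abs_nonneg _) (h1 n)
      have h4 := abs_nonneg (F₂ n - F₂' n)
      nlinarith
    rw [sub' _ _ (hc 0) (XAn.bdr_abs bd), cst 0] at h5
    have h7 := sq' _ (XAn.bdr_abs bd)
    have e2 : (fun n => |F₂ n - F₂' n| ^ 2) = fun n => (F₂ n - F₂' n) ^ 2 := by
      funext n
      rw [sq_abs]
    rw [e2, ← p1 _ bd] at h7
    have h8 := abs_le_of_sq_le_sq' h7 (norm_nonneg _)
    rw [abs_le]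
    constructor
    · linarith [h8.2]
    · linarith [h8.2]

end Pool.Agent.F0f91f8.FC
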