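import Pool.Agent.Work.MP_0f91f8_co.FC.StmtsT

/-!
# Block FC, module T, item TA: the action
-/

set_option autoImplicit false

namespace Pool.Agent.F0f91f8.FC

open Filter Topology ComplexConjugate
open Pool.Agent.F0f91f8.HD
open scoped BigOperators

namespace XTA

theorem nn_pos {ι : Type} [Fintype ι] (pp : ι → ℕ) (h : ∀ i, (pp i).Prime) (α : ι → ℕ) :
    0 < nn pp α := by
  unfold nn
  exact Finset.prod_pos fun i _ => pow_pos (h i).pos _

theorem nn_add {ι : Type} [Fintype ι] (pp : ι → ℕ) (α β : ι → ℕ) :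
    nn pp (α + β) = nn pp α * nn pp β := by
  unfold nn
  rw [← Finset.prod_mul_distrib]
  apply Finset.prod_congr rfl
  intro i _
  rw [Pi.add_apply, pow_add]

theorem nn_zero {ι : Type} [Fintype ι] (pp : ι → ℕ) : nn pp (0 : ι → ℕ) = 1 := by
  unfold nn
  apply Finset.prod_eq_one
  intro i _
  rw [Pi.zero_apply, pow_zero]

end XTA

open XTA in
theorem pr_TA : StTA := by
  intro ι _ _ cl pp hR
  have hp : ∀ i, (pp i).Prime := fun i => (hR i).1
  refine ⟨fun α β => ⟨nn_pos pp hp α, nn_add pp α β⟩, ?_⟩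
  intro m R
  refine ⟨⟨?_, ?_⟩, ?_⟩
  · intro h
    show R.T (nn pp (0 : ι → ℕ)) h = h
    rw [nn_zero]
    exact R.T_one h
  · intro a b h
    show R.T (nn pp (a + b)) h = R.T (nn pp a) (R.T (nn pp b) h)
    rw [nn_add]
    exact R.T_mul _ _ (nn_pos pp hp a) (nn_pos pp hp b) h
  · intro k α h hk
    show R.T k (R.T (nn pp α) h) = R.T (nn pp α) (R.T k h)
    rw [← R.T_mul _ _ hk (nn_pos pp hp α) h, ← R.T_mul _ _ (nn_pos pp hp α) hk h, mul_comm]

end Pool.Agent.F0f91f8.FC
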