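import Pool.Agent.Work.MP_0f91f8_co.FC.StmtsT

/-!
# Block FC, item TB: the trilinear expression
-/

set_option autoImplicit false

namespace Pool.Agent.F0f91f8.FC

open Filter Topology ComplexConjugate
open Pool.Agent.F0f91f8.HD
open scoped BigOperators

namespace XTB

variable {ι : Type} [Fintype ι] [DecidableEq ι]

omit [DecidableEq ι] in
theorem nn_pos {cl : ℕ → Option ι} {pp : ι → ℕ} (h : Rpr cl pp) (α : ι → ℕ) : 0 < nn pp α :=
  Finset.prod_pos fun i _ => pow_pos (h i).1.pos _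

omit [DecidableEq ι] in
theorem norm_ch {z : ι → ℂ} (hz : Uni z) (α : ι → ℕ) : ‖ch z α‖ = 1 := by
  unfold ch
  rw [norm_prod]
  refine Finset.prod_eq_one fun i _ => ?_
  rw [norm_pow, hz i, one_pow]

theorem conj_mul_ch {z : ι → ℂ} (hz : Uni z) (α : ι → ℕ) : conj (ch z α) * ch z α = 1 := by
  rw [← Complex.normSq_eq_conj_mul_self, Complex.normSq_eq_norm_sq, norm_ch hz α]
  norm_num

theorem eig_back {m : (ℕ → ℝ) → ℝ} {R : Rep m} {pp : ι → ℕ} {z : ι → ℂ} {h : R.H} (hz : Uni z)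
    (hh : EigV (Sa R pp) z h) (γ : ι → ℕ) : h = conj (ch z γ) • R.T (nn pp γ) h := by
  have h1 : R.T (nn pp γ) h = ch z γ • h := hh γ
  rw [h1, smul_smul, conj_mul_ch hz, one_smul]

theorem bdd_dil {b : ℕ → ℂ} (hb : ∀ n, ‖b n‖ ≤ 1) (k : ℕ) :
    (∀ n, ‖b (k * n)‖ ≤ 1) ∧ BdC fun n => b (k * n) :=
  ⟨fun _ => hb _, 1, fun _ => hb _⟩

theorem B_smul' {m : (ℕ → ℝ) → ℝ} (R : Rep m) {b : ℕ → ℂ} (hb : BdC b) (c : ℂ) (h k : R.H) :
    R.B b h (c • k) = c * R.B b h k := by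
  rw [R.B_symm b hb, R.B_smul b hb, R.B_symm b hb]

end XTB

open XTB in
/-- [TB] the trilinear expression. -/
theorem pr_TB : StTB := by
  intro ι _ _ cl pp hpp m R b hb
  refine ⟨?_, ?_, ?_, ?_, ?_⟩
  · intro h k α β γ
    unfold Tr
    have h1 := R.B_le (fun j => b (nn pp γ * j)) 1 (bdd_dil hb _).1 (Sa R pp α h) (Sa R pp β k)
    rw [one_mul, LinearIsometry.norm_map, LinearIsometry.norm_map] at h1
    exact h1
  · intro h h' k α β γ
    unfold Tr
    rw [map_add, R.B_add _ (bdd_dil hb _).2]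
  · intro c h k α β γ
    unfold Tr
    rw [map_smul, R.B_smul _ (bdd_dil hb _).2]
  · intro h k α β γ
    unfold Tr
    exact R.B_symm _ (bdd_dil hb _).2 _ _
  · intro z' z h k hz' hz hh hk α β γ
    have hB := (bdd_dil hb (nn pp γ)).2
    have e1 : R.B (fun j => b (nn pp γ * j)) h k =
        conj (ch z' γ) * (conj (ch z γ) * R.B b h k) := by
      have hT := R.B_T b ⟨1, hb⟩ (nn pp γ) (nn_pos hpp γ) h k
      calc R.B (fun j => b (nn pp γ * j)) h k
          = R.B (fun j => b (nn pp γ * j)) (conj (ch z' γ) • R.T (nn pp γ) h)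
              (conj (ch z γ) • R.T (nn pp γ) k) := by
            rw [← eig_back hz' hh γ, ← eig_back hz hk γ]
        _ = conj (ch z' γ) * (conj (ch z γ) * R.B b h k) := by
            rw [R.B_smul _ hB, B_smul' R hB, hT]
    unfold Tr
    rw [hh α, hk β, R.B_smul _ hB, B_smul' R hB, e1, map_mul]
    ring

end Pool.Agent.F0f91f8.FC
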