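import Pool.Agent.Work.MP_0f91f8_co.FC.StmtsT

/-!
# Block FC, module T, item TC: calculus of the averages
-/

set_option autoImplicit false

namespace Pool.Agent.F0f91f8.FC

open Filter Topology ComplexConjugate
open Pool.Agent.F0f91f8.HD
open scoped BigOperators

namespace XTC

/-- the index set -/
def PP (M : ℕ) : Finset (ℕ × ℕ × ℕ × ℕ) :=
  Finset.Icc 1 M ×ˢ Finset.Icc 1 M ×ˢ Finset.Icc 1 M ×ˢ Finset.Icc 1 M

/-- the numbers `a` -/
def aa (w : ℕ) (t : ℕ × ℕ × ℕ × ℕ) : ℕ := w.factorial * (t.2.2.1 + t.2.2.2) + 1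

/-- the numbers `n` -/
def mm (w : ℕ) (t : ℕ × ℕ × ℕ × ℕ) : ℕ := w.factorial * (t.1 + t.2.1) + 1

lemma card_PP (M : ℕ) : (PP M).card = M ^ 4 := by
  unfold PP
  rw [Finset.card_product, Finset.card_product, Finset.card_product, Nat.card_Icc,
    Nat.add_sub_cancel]
  ring

lemma AF_eq (w κ M : ℕ) (Φ : ℕ → ℕ → ℕ → ℝ) : AF w κ M Φ =
    (∑ t ∈ PP M, Φ (xF κ (aa w t) (mm w t)) (yF κ (aa w t) (mm w t)) (zF κ (aa w t) (mm w t))) /
      (M : ℝ) ^ 4 := by
  unfold AF PP aa mm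
  rw [Finset.sum_product]
  congr 1
  refine Finset.sum_congr rfl fun u _ => ?_
  rw [Finset.sum_product]
  refine Finset.sum_congr rfl fun u' _ => ?_
  rw [Finset.sum_product]

lemma AC_eq (w κ M : ℕ) (Φ : ℕ → ℕ → ℕ → ℂ) : AC w κ M Φ =
    (∑ t ∈ PP M, Φ (xF κ (aa w t) (mm w t)) (yF κ (aa w t) (mm w t)) (zF κ (aa w t) (mm w t))) /
      (M : ℂ) ^ 4 := by
  unfold AC PP aa mm
  rw [Finset.sum_product]
  congr 1
  refine Finset.sum_congr rfl fun u _ => ?_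
  rw [Finset.sum_product]
  refine Finset.sum_congr rfl fun u' _ => ?_
  rw [Finset.sum_product]

lemma pos (κ : ℕ) {a n : ℕ} (ha : 0 < a) (hn : 0 < n) :
    0 < xF κ a n ∧ 0 < yF κ a n ∧ 0 < zF κ a n := by
  unfold xF yF zF
  refine ⟨by positivity, by positivity, by positivity⟩

lemma aa_pos (w : ℕ) (t : ℕ × ℕ × ℕ × ℕ) : 0 < aa w t := Nat.succ_pos _

lemma mm_pos (w : ℕ) (t : ℕ × ℕ × ℕ × ℕ) : 0 < mm w t := Nat.succ_pos _

end XTC

open XTC in
/-- item TC -/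
theorem pr_TC : StTC := by
  intro w κ M hM
  have hM0 : (0 : ℝ) < (M : ℝ) ^ 4 := by
    have : (0 : ℝ) < M := by exact_mod_cast hM
    positivity
  have hcard : ((PP M).card : ℝ) = (M : ℝ) ^ 4 := by
    rw [card_PP]
    push_cast
    ring
  have hmono : ∀ F G : ℕ → ℕ → ℕ → ℝ,
      (∀ a n : ℕ, 0 < a → 0 < n →
        F (xF κ a n) (yF κ a n) (zF κ a n) ≤ G (xF κ a n) (yF κ a n) (zF κ a n)) →
      AF w κ M F ≤ AF w κ M G := by
    intro F G h
    rw [AF_eq, AF_eq]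
    exact div_le_div_of_nonneg_right
      (Finset.sum_le_sum fun t _ => h _ _ (aa_pos w t) (mm_pos w t)) hM0.le
  have hconst : ∀ c : ℝ, AF w κ M (fun _ _ _ => c) = c := by
    intro c
    rw [AF_eq, Finset.sum_const, nsmul_eq_mul, hcard, mul_div_assoc, mul_comm, div_mul_cancel₀]
    exact hM0.ne'
  refine ⟨?_, ?_, ?_, ?_, ?_, ?_, ?_, hconst, ?_, ?_⟩
  · intro Φ Ψ
    rw [AC_eq, AC_eq, AC_eq, Finset.sum_add_distrib, add_div]
  · intro c Φ
    rw [AC_eq, AC_eq, ← Finset.mul_sum, mul_div_assoc]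
  · intro Φ
    rw [AC_eq, AF_eq, norm_div, norm_pow, Complex.norm_natCast]
    exact div_le_div_of_nonneg_right (norm_sum_le _ _) hM0.le
  · intro F
    rw [AC_eq, AF_eq]
    push_cast
    rfl
  · intro F G
    rw [AF_eq, AF_eq, AF_eq, Finset.sum_add_distrib, add_div]
  · intro c F
    rw [AF_eq, AF_eq, ← Finset.mul_sum, mul_div_assoc]
  · intro F G h
    refine hmono F G fun a n ha hn => ?_
    obtain ⟨h1, h2, h3⟩ := pos κ ha hn
    exact h _ _ _ h1 h2 h3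
  · intro F
    rw [AF_eq, AF_eq, div_pow, div_le_div_iff₀ (by positivity) hM0]
    have h := sq_sum_le_card_mul_sum_sq (s := PP M)
      (f := fun t => F (xF κ (aa w t) (mm w t)) (yF κ (aa w t) (mm w t)) (zF κ (aa w t) (mm w t)))
    rw [hcard] at h
    calc _ ≤ ((M : ℝ) ^ 4 * ∑ t ∈ PP M, F (xF κ (aa w t) (mm w t)) (yF κ (aa w t) (mm w t))
          (zF κ (aa w t) (mm w t)) ^ 2) * (M : ℝ) ^ 4 :=
          mul_le_mul_of_nonneg_right h hM0.le
      _ = _ := by ring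
  · intro F c hc
    by_contra hcon
    push Not at hcon
    have h1 : AF w κ M F ≤ AF w κ M (fun _ _ _ => c) := hmono F _ fun a n ha hn => hcon a n ha hn
    rw [hconst] at h1
    exact absurd hc (not_lt.2 h1)

end Pool.Agent.F0f91f8.FC
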