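import Pool.Agent.Work.MP_0f91f8_co.FC.StmtsT

/-!
# Block FC, item TE: two eigenvectors (helper99)
-/

set_option autoImplicit false

namespace Pool.Agent.F0f91f8.FC

open Filter Topology ComplexConjugate
open Pool.Agent.F0f91f8.HD
open scoped BigOperators

theorem pr_TE (hE : EigS) (hTC : StTC) (hTB : StTB) : StTE := by
  intro ι i1 i2 cl pp hpp m R b hb z' z h k hz' hz hh hk hP w κ hA
  obtain ⟨-, -, -, -, hT⟩ := hTB ι i1 i2 cl pp hpp m R b hb
  have h1 := hT z' z h k hz' hz hh hk
  have h2 := (hE ι i1 i2 cl z' z hz' hz hP w κ hA).const_mul (R.B b h k)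
  rw [mul_zero] at h2
  refine h2.congr' ?_
  filter_upwards [eventually_ge_atTop 1] with M hM
  rw [← (hTC w κ M hM).2.1]
  congr 1
  funext x y t
  exact (h1 (hv cl x) (hv cl y) (hv cl t)).symm

end Pool.Agent.F0f91f8.FC
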