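import Pool.Agent.Work.MP_0f91f8_co.FC.StmtsT

/-!
# Block FC, item TR: Riesz representation of the trilinear expression
-/

set_option autoImplicit false

namespace Pool.Agent.F0f91f8.FC

open Filter Topology ComplexConjugate
open Pool.Agent.F0f91f8.HD
open scoped BigOperators

namespace XTR

/-- the functional `k ↦ B b u k` -/
noncomputable def lin {m : (ℕ → ℝ) → ℝ} (R : Rep m) (b : ℕ → ℂ) (hb : ∀ n, ‖b n‖ ≤ 1)
    (u : R.H) : R.H →ₗ[ℂ] ℂ where
  toFun k := R.B b u k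
  map_add' k k' := by
    have hB : BdC b := ⟨1, hb⟩
    rw [R.B_symm b hB u (k + k'), R.B_add b hB k k' u, R.B_symm b hB k u, R.B_symm b hB k' u]
  map_smul' c k := by
    have hB : BdC b := ⟨1, hb⟩
    rw [R.B_symm b hB u (c • k), R.B_smul b hB c k u, R.B_symm b hB k u]
    rfl

theorem riesz {m : (ℕ → ℝ) → ℝ} (R : Rep m) (b : ℕ → ℂ) (hb : ∀ n, ‖b n‖ ≤ 1) (u : R.H) :
    ∃ F : R.H, ‖F‖ ≤ ‖u‖ ∧ ∀ k : R.H, R.B b u k = inner ℂ F k := by
  have hbd : ∀ k : R.H, ‖lin R b hb u k‖ ≤ ‖u‖ * ‖k‖ := by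
    intro k
    have h := R.B_le b 1 hb u k
    rw [one_mul] at h
    exact h
  refine ⟨(InnerProductSpace.toDual ℂ R.H).symm ((lin R b hb u).mkContinuous ‖u‖ hbd), ?_, ?_⟩
  · rw [LinearIsometryEquiv.norm_map]
    exact LinearMap.mkContinuous_norm_le _ (norm_nonneg _) _
  · intro k
    rw [InnerProductSpace.toDual_symm_apply]
    rfl

end XTR

theorem pr_TR : StTR := by
  intro ι _ _ cl pp _ m R b hb h α γ
  obtain ⟨F, hF, hFk⟩ := XTR.riesz R (fun j => b (nn pp γ * j)) (fun n => hb _) (Sa R pp α h)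
  refine ⟨F, ?_, ?_⟩
  · rwa [LinearIsometry.norm_map] at hF
  · intro k β
    exact hFk (Sa R pp β k)

end Pool.Agent.F0f91f8.FC
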