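import Pool.Agent.Work.MP_0f91f8_co.FC.StmtsT

/-!
# Block FC, item TS: closed spans
-/

set_option autoImplicit false

namespace Pool.Agent.F0f91f8.FC

open Filter Topology ComplexConjugate
open Pool.Agent.F0f91f8.HD
open scoped BigOperators

namespace XTS

/-- a sequence of functionals, linear and uniformly bounded from `1` on, which tends to `0` on a set, tends
to `0` on its closed span -/
theorem one_var {H : Type} [NormedAddCommGroup H] [InnerProductSpace ℂ H] (B : ℕ → H → ℂ) (C : ℝ)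
    (hC : 0 ≤ C) (hadd : ∀ M ≥ 1, ∀ h k, B M (h + k) = B M h + B M k)
    (hsm : ∀ M ≥ 1, ∀ (c : ℂ) h, B M (c • h) = c * B M h) (hb : ∀ M ≥ 1, ∀ h, ‖B M h‖ ≤ C * ‖h‖)
    (E : Set H) (hE : ∀ e ∈ E, Tendsto (fun M => B M e) atTop (𝓝 0)) :
    ∀ h ∈ (Submodule.span ℂ E).topologicalClosure, Tendsto (fun M => B M h) atTop (𝓝 0) := by
  have hspan : ∀ h ∈ Submodule.span ℂ E, Tendsto (fun M => B M h) atTop (𝓝 0) := by
    intro h hh
    induction hh using Submodule.span_induction with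
    | mem x hx => exact hE x hx
    | zero =>
      refine Tendsto.congr' (f₁ := fun _ => (0 : ℂ)) ?_ tendsto_const_nhds
      filter_upwards [eventually_ge_atTop 1] with M hM
      have h1 := hb M hM 0
      rw [norm_zero, mul_zero] at h1
      exact (norm_le_zero_iff.1 h1).symm
    | add x y _ _ hx hy =>
      have h1 := hx.add hy
      rw [add_zero] at h1
      refine Tendsto.congr' ?_ h1
      filter_upwards [eventually_ge_atTop 1] with M hM
      exact (hadd M hM x y).symm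
    | smul c x _ hx =>
      have h1 := hx.const_mul c
      rw [mul_zero] at h1
      refine Tendsto.congr' ?_ h1
      filter_upwards [eventually_ge_atTop 1] with M hM
      exact (hsm M hM c x).symm
  intro h hh
  have hh' : h ∈ closure ((Submodule.span ℂ E : Submodule ℂ H) : Set H) := hh
  rw [Metric.tendsto_atTop]
  intro ε hε
  obtain ⟨h', hh1, hd⟩ := Metric.mem_closure_iff.1 hh' (ε / (2 * (C + 1))) (by positivity)
  obtain ⟨N, hN⟩ := Metric.tendsto_atTop.1 (hspan h' hh1) (ε / 2) (by positivity)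
  refine ⟨max N 1, fun M hM => ?_⟩
  have hM1 : M ≥ 1 := (le_max_right _ _).trans hM
  have h1 := hN M ((le_max_left _ _).trans hM)
  rw [dist_zero_right] at h1 ⊢
  have h2 : B M h = B M (h - h') + B M h' := by
    rw [← hadd M hM1, sub_add_cancel]
  have h3 := hb M hM1 (h - h')
  rw [dist_eq_norm] at hd
  have h4 : C * ‖h - h'‖ ≤ (C + 1) * (ε / (2 * (C + 1))) :=
    mul_le_mul (by linarith) hd.le (norm_nonneg _) (by linarith)
  have h5 : (C + 1) * (ε / (2 * (C + 1))) = ε / 2 := by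
    field_simp
  rw [h2]
  calc ‖B M (h - h') + B M h'‖ ≤ ‖B M (h - h')‖ + ‖B M h'‖ := norm_add_le _ _
    _ < ε := by linarith

/-- the same in two variables -/
theorem two_var {H : Type} [NormedAddCommGroup H] [InnerProductSpace ℂ H] (A : ℕ → H → H → ℂ)
    (hadd1 : ∀ M ≥ 1, ∀ h h' k, A M (h + h') k = A M h k + A M h' k)
    (hsm1 : ∀ M ≥ 1, ∀ (c : ℂ) h k, A M (c • h) k = c * A M h k)
    (hadd2 : ∀ M ≥ 1, ∀ h k k', A M h (k + k') = A M h k + A M h k')
    (hsm2 : ∀ M ≥ 1, ∀ (c : ℂ) h k, A M h (c • k) = c * A M h k)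
    (hb : ∀ M ≥ 1, ∀ h k, ‖A M h k‖ ≤ ‖h‖ * ‖k‖)
    (E₁ E₂ : Set H) (hE : ∀ e ∈ E₁, ∀ f ∈ E₂, Tendsto (fun M => A M e f) atTop (𝓝 0)) :
    ∀ h ∈ (Submodule.span ℂ E₁).topologicalClosure, ∀ g ∈ (Submodule.span ℂ E₂).topologicalClosure,
      Tendsto (fun M => A M h g) atTop (𝓝 0) := by
  have h1 : ∀ f ∈ E₂, ∀ h ∈ (Submodule.span ℂ E₁).topologicalClosure,
      Tendsto (fun M => A M h f) atTop (𝓝 0) := fun f hf =>
    one_var (fun M h => A M h f) ‖f‖ (norm_nonneg _) (fun M hM h k => hadd1 M hM h k f)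
      (fun M hM c h => hsm1 M hM c h f) (fun M hM h => by rw [mul_comm]; exact hb M hM h f) E₁
      (fun e he => hE e he f hf)
  intro h hh
  exact one_var (fun M g => A M h g) ‖h‖ (norm_nonneg _) (fun M hM g k => hadd2 M hM h g k)
    (fun M hM c g => hsm2 M hM c h g) (fun M hM g => hb M hM h g) E₂ (fun f hf => h1 f hf h hh)

end XTS

open XTS in
theorem pr_TS (hTC : StTC) (hTB : StTB) (hTE : StTE) : StTS := by
  intro ι i1 i2 cl pp hpp m R b hb h g hh hg w κ hκ ε hε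
  obtain ⟨t1, t2, t3, t4, -⟩ := hTB ι i1 i2 cl pp hpp m R b hb
  have hE := hTE ι i1 i2 cl pp hpp m R b hb
  set A : ℕ → R.H → R.H → ℂ := fun M h k =>
    AC w κ M fun x y t => Tr R pp b h k (hv cl x) (hv cl y) (hv cl t) with hA
  have hadd1 : ∀ M ≥ 1, ∀ h h' k, A M (h + h') k = A M h k + A M h' k := by
    intro M hM h h' k
    rw [hA]
    simp only
    rw [← (hTC w κ M hM).1]
    congr 1
    funext x y t
    exact t2 h h' k _ _ _
  have hsm1 : ∀ M ≥ 1, ∀ (c : ℂ) h k, A M (c • h) k = c * A M h k := by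
    intro M hM c h k
    rw [hA]
    simp only
    rw [← (hTC w κ M hM).2.1]
    congr 1
    funext x y t
    exact t3 c h k _ _ _
  have hadd2 : ∀ M ≥ 1, ∀ h k k', A M h (k + k') = A M h k + A M h k' := by
    intro M hM h k k'
    rw [hA]
    simp only
    rw [← (hTC w κ M hM).1]
    congr 1
    funext x y t
    rw [t4 h (k + k'), t2, t4 h k, t4 h k']
  have hsm2 : ∀ M ≥ 1, ∀ (c : ℂ) h k, A M h (c • k) = c * A M h k := by
    intro M hM c h k
    rw [hA]
    simp only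
    rw [← (hTC w κ M hM).2.1]
    congr 1
    funext x y t
    rw [t4 h (c • k), t3, t4 h k]
  have hbd : ∀ M ≥ 1, ∀ h k, ‖A M h k‖ ≤ ‖h‖ * ‖k‖ := by
    intro M hM h k
    obtain ⟨-, -, c3, -, -, -, c7, c8, -⟩ := hTC w κ M hM
    refine (c3 _).trans ?_
    rw [← c8 (‖h‖ * ‖k‖)]
    exact c7 _ _ fun x y z _ _ _ => t1 h k _ _ _
  have k1 := two_var A hadd1 hsm1 hadd2 hsm2 hbd
    {e | ∃ z ∈ (Set.univ : Set (ι → ℂ)), Uni z ∧ EigV (Sa R pp) z e}
    {e | ∃ z ∈ {z : ι → ℂ | ¬ HD.Pret (fz cl z)}, Uni z ∧ EigV (Sa R pp) z e}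
    (by
      rintro e ⟨z', -, hz', he⟩ f ⟨z, hz, hzu, hf⟩
      exact hE z' z e f hz' hzu he hf (Or.inr hz) w κ hκ) h hh g hg
  have k2 := two_var A hadd1 hsm1 hadd2 hsm2 hbd
    {e | ∃ z ∈ {z : ι → ℂ | ¬ HD.Pret (fz cl z)}, Uni z ∧ EigV (Sa R pp) z e}
    {e | ∃ z ∈ (Set.univ : Set (ι → ℂ)), Uni z ∧ EigV (Sa R pp) z e}
    (by
      rintro e ⟨z', hz', hz'u, he⟩ f ⟨z, -, hzu, hf⟩
      exact hE z' z e f hz'u hzu he hf (Or.inl hz') w κ hκ) g hg h hh
  obtain ⟨M₁, hM₁⟩ := Metric.tendsto_atTop.1 k1 ε hε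
  obtain ⟨M₂, hM₂⟩ := Metric.tendsto_atTop.1 k2 ε hε
  refine ⟨max M₁ M₂, fun M hM => ⟨?_, ?_⟩⟩
  · have := hM₁ M ((le_max_left _ _).trans hM)
    rw [dist_zero_right] at this
    exact this.le
  · have := hM₂ M ((le_max_right _ _).trans hM)
    rw [dist_zero_right] at this
    exact this.le

end Pool.Agent.F0f91f8.FC
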