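import Pool.Agent.Work.MP_0f91f8_co.FC.StmtsT

/-!
Item TU (helper92): the trilinear averages, module T of the block FC.
-/

set_option autoImplicit false

namespace Pool.Agent.F0f91f8.FC

open Filter Topology ComplexConjugate
open Pool.Agent.F0f91f8.HD
open scoped BigOperators

namespace XTU

section
variable {ι : Type} [Fintype ι] [DecidableEq ι] {H : Type*} [NormedAddCommGroup H]
  [InnerProductSpace ℂ H]

theorem es_mono (S : (ι → ℕ) → H →ₗᵢ[ℂ] H) {Y Y' : Set (ι → ℂ)} (hY : Y ⊆ Y') :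
    Es S Y ≤ Es S Y' := by
  unfold Es
  apply Submodule.topologicalClosure_mono
  apply Submodule.span_mono
  rintro e ⟨z, hz, hu, he⟩
  exact ⟨z, hY hz, hu, he⟩

end

section
variable {ι : Type} [Fintype ι] [DecidableEq ι]

/-- the average -/
noncomputable def A {m : (ℕ → ℝ) → ℝ} (R : Rep m) (cl : ℕ → Option ι) (pp : ι → ℕ) (b : ℕ → ℂ)
    (w κ M : ℕ) (h k : R.H) : ℂ :=
  AC w κ M fun x y t => Tr R pp b h k (hv cl x) (hv cl y) (hv cl t)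

variable {m : (ℕ → ℝ) → ℝ} (R : Rep m) (cl : ℕ → Option ι) (pp : ι → ℕ) (b : ℕ → ℂ)
  (w κ M : ℕ)

theorem A_addL (hTC : StTC) (hTB : StTB) (hp : Rpr cl pp) (hb : ∀ n, ‖b n‖ ≤ 1) (hM : 1 ≤ M)
    (h h' k : R.H) : A R cl pp b w κ M (h + h') k =
      A R cl pp b w κ M h k + A R cl pp b w κ M h' k := by
  obtain ⟨_, hadd, _, _, _⟩ := hTB ι inferInstance inferInstance cl pp hp m R b hb
  obtain ⟨cadd, _⟩ := hTC w κ M hM
  unfold A
  rw [← cadd]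
  congr 1
  funext x y t
  exact hadd h h' k _ _ _

theorem A_addR (hTC : StTC) (hTB : StTB) (hp : Rpr cl pp) (hb : ∀ n, ‖b n‖ ≤ 1) (hM : 1 ≤ M)
    (h k k' : R.H) : A R cl pp b w κ M h (k + k') =
      A R cl pp b w κ M h k + A R cl pp b w κ M h k' := by
  obtain ⟨_, hadd, _, hsym, _⟩ := hTB ι inferInstance inferInstance cl pp hp m R b hb
  obtain ⟨cadd, _⟩ := hTC w κ M hM
  unfold A
  rw [← cadd]
  congr 1
  funext x y t
  rw [hsym h (k + k'), hadd, hsym h k, hsym h k']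

theorem A_le (hTC : StTC) (hM : 1 ≤ M) (h k : R.H) :
    ‖A R cl pp b w κ M h k‖ ≤
      AF w κ M (fun x y t => ‖Tr R pp b h k (hv cl x) (hv cl y) (hv cl t)‖) := by
  obtain ⟨_, _, cn, _⟩ := hTC w κ M hM
  exact cn _

theorem A_le' (hTC : StTC) (hTB : StTB) (hp : Rpr cl pp) (hb : ∀ n, ‖b n‖ ≤ 1) (hM : 1 ≤ M)
    (h k : R.H) : ‖A R cl pp b w κ M h k‖ ≤ ‖h‖ * ‖k‖ := by
  obtain ⟨hbd, _⟩ := hTB ι inferInstance inferInstance cl pp hp m R b hb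
  obtain ⟨_, _, cn, _, _, _, cmono, cc, _⟩ := hTC w κ M hM
  refine (cn _).trans ?_
  refine (cmono _ (fun _ _ _ => ‖h‖ * ‖k‖) fun x y z _ _ _ => hbd h k _ _ _).trans ?_
  exact (cc _).le

end

end XTU

open XTU in
/-- Item TU. -/
theorem pr_TU (hDec : DecS) (hTC : StTC) (hTA : StTA) (hTB : StTB) (hTW : StTW) (hTS : StTS) :
    StTU := by
  intro ι _ _ cl hFat ε hε
  obtain ⟨w₀, hw₀⟩ := hTW ι inferInstance inferInstance cl hFat (ε / 4) (by positivity)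
  refine ⟨w₀, ?_⟩
  intro w hw κ hκ pp hp m _ R b hb h g₁ g₂ g₃ hh hg₂ hg₃ hE₂ hW₃
  have hW := hw₀ w hw κ hκ pp hp m R b hb
  have hAct : IsAct (Sa R pp) :=
    ((hTA ι inferInstance inferInstance cl pp hp).2 m R).1
  obtain ⟨h₁, hh₁, h₂, hh₂, h₃, hWm, hsum, _, _, hn₃⟩ :=
    hDec ι inferInstance inferInstance R.H inferInstance inferInstance inferInstance
      (Sa R pp) hAct Set.univ h
  have hn₃' : ‖h₃‖ ≤ 1 := hn₃.trans hh
  have hE₁ : h₁ + h₂ ∈ Es (Sa R pp) Set.univ :=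
    Submodule.add_mem _ hh₁ (es_mono _ (Set.subset_univ _) hh₂)
  obtain ⟨M₁, hM₁⟩ := hTS ι inferInstance inferInstance cl pp hp m R b hb (h₁ + h₂) g₂ hE₁ hE₂
    w κ hκ (ε / 4) (by positivity)
  obtain ⟨M₂, hM₂⟩ := hW g₂ h₃ hg₂ hn₃' hWm
  obtain ⟨M₃, hM₃⟩ := hW h g₃ hh hg₃ hW₃
  refine ⟨max (max M₁ M₂) (max M₃ 1), fun M hM => ?_⟩
  have e1 : M₁ ≤ M := ((le_max_left _ _).trans (le_max_left _ _)).trans hM
  have e2 : M₂ ≤ M := ((le_max_right _ _).trans (le_max_left _ _)).trans hM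
  have e3 : M₃ ≤ M := ((le_max_left _ _).trans (le_max_right _ _)).trans hM
  have e4 : 1 ≤ M := ((le_max_right _ _).trans (le_max_right _ _)).trans hM
  obtain ⟨a1, a1'⟩ := hM₁ M e1
  obtain ⟨a2, a2'⟩ := hM₂ M e2
  obtain ⟨a3, a3'⟩ := hM₃ M e3
  have b1 : ‖A R cl pp b w κ M (h₁ + h₂) g₂‖ ≤ ε / 4 := a1
  have b1' : ‖A R cl pp b w κ M g₂ (h₁ + h₂)‖ ≤ ε / 4 := a1'
  have b2 : ‖A R cl pp b w κ M g₂ h₃‖ ≤ ε / 4 := (A_le R cl pp b w κ M hTC e4 _ _).trans a2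
  have b2' : ‖A R cl pp b w κ M h₃ g₂‖ ≤ ε / 4 := (A_le R cl pp b w κ M hTC e4 _ _).trans a2'
  have b3 : ‖A R cl pp b w κ M h g₃‖ ≤ ε / 4 := (A_le R cl pp b w κ M hTC e4 _ _).trans a3
  have b3' : ‖A R cl pp b w κ M g₃ h‖ ≤ ε / 4 := (A_le R cl pp b w κ M hTC e4 _ _).trans a3'
  have b4 : ‖A R cl pp b w κ M h g₁‖ ≤ ‖g₁‖ := by
    refine (A_le' R cl pp b w κ M hTC hTB hp hb e4 _ _).trans ?_
    exact mul_le_of_le_one_left (norm_nonneg _) hh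
  have b4' : ‖A R cl pp b w κ M g₁ h‖ ≤ ‖g₁‖ := by
    refine (A_le' R cl pp b w κ M hTC hTB hp hb e4 _ _).trans ?_
    exact mul_le_of_le_one_right (norm_nonneg _) hh
  have hR := A_addR R cl pp b w κ M hTC hTB hp hb e4
  have hL := A_addL R cl pp b w κ M hTC hTB hp hb e4
  constructor
  · change ‖A R cl pp b w κ M h (g₁ + g₂ + g₃)‖ ≤ ‖g₁‖ + ε
    have e : A R cl pp b w κ M h (g₁ + g₂ + g₃) = A R cl pp b w κ M h g₁ +
        (A R cl pp b w κ M (h₁ + h₂) g₂ + A R cl pp b w κ M h₃ g₂) +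
        A R cl pp b w κ M h g₃ := by
      rw [hR, hR, ← hL (h₁ + h₂) h₃ g₂, ← hsum]
    rw [e]
    calc _ ≤ ‖A R cl pp b w κ M h g₁‖ +
        (‖A R cl pp b w κ M (h₁ + h₂) g₂‖ + ‖A R cl pp b w κ M h₃ g₂‖) +
        ‖A R cl pp b w κ M h g₃‖ :=
          (norm_add_le _ _).trans (add_le_add_left ((norm_add_le _ _).trans
            (add_le_add_right (norm_add_le _ _) _)) _)
      _ ≤ ‖g₁‖ + ε := by linarith
  · change ‖A R cl pp b w κ M (g₁ + g₂ + g₃) h‖ ≤ ‖g₁‖ + ε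
    have e : A R cl pp b w κ M (g₁ + g₂ + g₃) h = A R cl pp b w κ M g₁ h +
        (A R cl pp b w κ M g₂ (h₁ + h₂) + A R cl pp b w κ M g₂ h₃) +
        A R cl pp b w κ M g₃ h := by
      rw [hL, hL, ← hR g₂ (h₁ + h₂) h₃, ← hsum]
    rw [e]
    calc _ ≤ ‖A R cl pp b w κ M g₁ h‖ +
        (‖A R cl pp b w κ M g₂ (h₁ + h₂)‖ + ‖A R cl pp b w κ M g₂ h₃‖) +
        ‖A R cl pp b w κ M g₃ h‖ :=
          (norm_add_le _ _).trans (add_le_add_left ((norm_add_le _ _).trans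
            (add_le_add_right (norm_add_le _ _) _)) _)
      _ ≤ ‖g₁‖ + ε := by linarith

end Pool.Agent.F0f91f8.FC
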