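import Pool.Agent.Work.MP_0f91f8_co.FC.AllH
import Pool.Agent.Work.MP_0f91f8_co.FC.AllP
import Pool.Agent.Work.MP_0f91f8_co.FC.AllS
import Pool.Agent.Work.MP_0f91f8_co.FC.I_TA
import Pool.Agent.Work.MP_0f91f8_co.FC.I_TB
import Pool.Agent.Work.MP_0f91f8_co.FC.I_TC
import Pool.Agent.Work.MP_0f91f8_co.FC.I_TE
import Pool.Agent.Work.MP_0f91f8_co.FC.I_TR
import Pool.Agent.Work.MP_0f91f8_co.FC.I_TS
import Pool.Agent.Work.MP_0f91f8_co.FC.I_TU
import Pool.Agent.Work.MP_0f91f8_co.FC.I_TW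
import Pool.Agent.Work.MP_0f91f8_co.FC.I_Am
import Pool.Agent.Work.MP_0f91f8_co.FC.I_An
import Pool.Agent.Work.MP_0f91f8_co.FC.I_AQ
import Pool.Agent.Work.MP_0f91f8_co.FC.I_AA
import Pool.Agent.Work.MP_0f91f8_co.FC.I_AM
import Pool.Agent.Work.MP_0f91f8_co.FC.I_AW
import Pool.Agent.Work.MP_0f91f8_co.FC.I_AP
import Pool.Agent.Work.MP_0f91f8_co.FC.I_AV
import Pool.Agent.Work.MP_0f91f8_co.FC.I_AL
import Pool.Agent.Work.MP_0f91f8_co.FC.I_AR
import Pool.Agent.Work.MP_0f91f8_co.FC.I_AS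
import Pool.Agent.Work.MP_0f91f8_co.FC.I_AG
import Pool.Agent.Work.MP_0f91f8_co.FC.I_AK
import Pool.Agent.Work.MP_0f91f8_co.FC.I_AT
import Pool.Agent.Work.MP_0f91f8_co.FC.I_AX
import Pool.Agent.Work.MP_0f91f8_co.FC.I_AY
import Pool.Agent.Work.MP_0f91f8_co.FC.I_AZ

/-!
# Block FC: composition, no hypotheses

`all_FinM` is the density form, `all_FinC` the colouring form, `all_FinU` the uniform colouring form.
-/

set_option autoImplicit false

namespace Pool.Agent.F0f91f8.FC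

theorem all_TB : StTB := pr_TB

theorem all_TE : StTE := pr_TE all_EigS pr_TC all_TB

theorem all_TW : StTW := pr_TW all_DomS all_WmS pr_TC pr_TA all_TB pr_TR

theorem all_TriS : TriS := pr_TU all_DecS pr_TC pr_TA all_TB all_TW (pr_TS pr_TC all_TB all_TE)

theorem all_AR : StAR :=
  pr_AR all_TriS pr_TC all_TB pr_Am (pr_An pr_Am) (pr_AQ pr_TA) (pr_AW pr_TA)
    (pr_AV all_RootS all_TrivS pr_TC) (pr_AL pr_TA pr_Am (pr_An pr_Am))

theorem all_FatS : FatS :=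
  pr_AT all_RepS pr_TC (pr_AP all_DecS all_ErgS pr_TA pr_Am (pr_An pr_Am) (pr_AW pr_TA)) all_AR
    (pr_AS all_ThinS pr_TC pr_Am pr_AA pr_AM) (pr_AK pr_Am (pr_An pr_Am) (pr_AG all_ErgS))

/-- density form -/
theorem all_FinM : FinM := pr_AX all_FatS

/-- colouring form -/
theorem all_FinC : FinC := pr_AY all_MeanS pr_Am all_FinM

/-- uniform colouring form -/
theorem all_FinU : FinU := pr_AZ all_FinC

end Pool.Agent.F0f91f8.FC
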