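import Pool.Agent.Work.MP_0f91f8_co.FC.StmtsA

/-!
# Block FC, module A, item AS: the true members
-/

set_option autoImplicit false

namespace Pool.Agent.F0f91f8.FC

open Filter Topology ComplexConjugate
open Pool.Agent.F0f91f8.HD
open scoped BigOperators

namespace XAS

theorem prod3 {a b c : ℝ} (ha : 0 ≤ a ∧ a ≤ 1) (hb : 0 ≤ b ∧ b ≤ 1) (hc : 0 ≤ c ∧ c ≤ 1) :
    0 ≤ a * b * c ∧ a * b * c ≤ 1 :=
  ⟨mul_nonneg (mul_nonneg ha.1 hb.1) hc.1,
    mul_le_one₀ (mul_le_one₀ ha.2 hb.1 hb.2) hc.1 hc.2⟩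

theorem bdR_of_01 {F : ℕ → ℝ} (h : ∀ n, 0 ≤ F n ∧ F n ≤ 1) : BdR F :=
  ⟨1, fun n => by rw [abs_of_nonneg (h n).1]; exact (h n).2⟩

end XAS

open XAS in
/-- [AS] The true members. -/
theorem pr_AS (hTh : ThinS) (hTC : StTC) (hAm : StAm) (hAA : StAA) (hAM : StAM) : StAS := by
  classical
  intro ι _ _ cl hFat pp hpp m hm f hf hinv ε hε
  obtain ⟨w₀, hw₀⟩ := hTh {p | cl p = none} hFat.1 ε hε
  refine ⟨w₀, fun w hw κ hκ => ?_⟩
  obtain ⟨M₀, hM₀⟩ := hw₀ w hw κ hκ
  refine ⟨max M₀ 1, fun M hM => ?_⟩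
  have hM1 : 1 ≤ M := le_trans (le_max_right _ _) hM
  have hM2 : M₀ ≤ M := le_trans (le_max_left _ _) hM
  obtain ⟨mono, meq, mconst, -, -, -, -⟩ := hAm m hm
  obtain ⟨-, -, -, -, tadd, -, -, -, -, -⟩ := hTC w κ M hM1
  have hκ0 : 0 < κ := hκ.1
  set F : ℕ → ℕ → ℕ → ℝ := fun x y t =>
    Qm m pp f (dil (2 * κ) f) f (hv cl x) (hv cl y) (hv cl t) with hF
  set G : ℕ → ℕ → ℕ → ℝ := fun x y t =>
    m fun n => f (2 * κ * x * n) * f (y * n) * f (t * n) with hG
  have hF1 : ∀ x y t, F x y t ≤ 1 := by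
    intro x y t
    have h1 : ∀ n, 0 ≤ f (nn pp (hv cl t) * n) * dil (2 * κ) f (nn pp (hv cl x) * n) *
        f (nn pp (hv cl y) * n) ∧ f (nn pp (hv cl t) * n) *
        dil (2 * κ) f (nn pp (hv cl x) * n) * f (nn pp (hv cl y) * n) ≤ 1 :=
      fun n => prod3 (hf _) (hf _) (hf _)
    have h2 := mono _ _ (bdR_of_01 h1) ⟨1, fun n => by rw [abs_one]⟩ fun n _ => (h1 n).2
    rw [mconst 1] at h2
    exact h2
  have hG0 : ∀ x y t, 0 ≤ G x y t := by
    intro x y t
    have h1 : ∀ n, 0 ≤ f (2 * κ * x * n) * f (y * n) * f (t * n) ∧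
        f (2 * κ * x * n) * f (y * n) * f (t * n) ≤ 1 :=
      fun n => prod3 (hf _) (hf _) (hf _)
    have h2 := mono (fun _ => 0) _ ⟨0, fun n => by rw [abs_zero]⟩ (bdR_of_01 h1)
      fun n _ => (h1 n).1
    rw [mconst 0] at h2
    exact h2
  have hFG : ∀ x y t : ℕ, 0 < x → 0 < y → 0 < t →
      (∀ p : ℕ, p.Prime → p ∣ x * y * t → w < p) →
      (∀ p : ℕ, p.Prime → w < p → p ∈ {p | cl p = none} → ¬ p ∣ x * y * t) →
      F x y t = G x y t := by
    intro x y t hx hy ht h1 h2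
    have hcl : ∀ p : ℕ, p.Prime → p ∣ x * y * t → cl p ≠ none :=
      fun p hp hd hn => h2 p hp (h1 p hp hd) hn hd
    apply meq
    · exact bdR_of_01 fun n => prod3 (hf _) (hf _) (hf _)
    · exact bdR_of_01 fun n => prod3 (hf _) (hf _) (hf _)
    · intro n hn
      have e1 : f (x * (2 * κ * n)) = f (nn pp (hv cl x) * (2 * κ * n)) :=
        hAA ι _ _ cl pp hpp f hinv x hx
          (fun p hp hd => hcl p hp ((hd.mul_right y).mul_right t)) (2 * κ * n) (by positivity)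
      have e2 : f (y * n) = f (nn pp (hv cl y) * n) :=
        hAA ι _ _ cl pp hpp f hinv y hy
          (fun p hp hd => hcl p hp ((hd.mul_left x).mul_right t)) n hn
      have e3 : f (t * n) = f (nn pp (hv cl t) * n) :=
        hAA ι _ _ cl pp hpp f hinv t ht
          (fun p hp hd => hcl p hp (hd.mul_left (x * y))) n hn
      have e4 : 2 * κ * x * n = x * (2 * κ * n) := by ring
      have e5 : dil (2 * κ) f (nn pp (hv cl x) * n) = f (nn pp (hv cl x) * (2 * κ * n)) := by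
        unfold dil
        congr 1
        ring
      rw [e4, e1, e2, e3, e5]
      ring
  set φ : ℕ → ℕ → ℕ → ℝ := fun x y t =>
    if ∀ p : ℕ, p.Prime → p ∣ x * y * t → w < p then F x y t - G x y t else 0 with hφ
  have h1 : AF w κ M φ ≤ ε := by
    apply hM₀ M hM2 φ
    · intro x y t _ _ _
      rw [hφ]
      show (if ∀ p : ℕ, p.Prime → p ∣ x * y * t → w < p then F x y t - G x y t else 0) ≤ 1
      split_ifs
      · linarith [hF1 x y t, hG0 x y t]
      · exact zero_le_one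
    · intro x y t hx hy ht hT
      rw [hφ]
      show (if ∀ p : ℕ, p.Prime → p ∣ x * y * t → w < p then F x y t - G x y t else 0) ≤ 0
      split_ifs with hc
      · rw [hFG x y t hx hy ht hc hT]
        linarith
      · exact le_rfl
  have h2 : AF w κ M F ≤ AF w κ M (fun x y t => G x y t + φ x y t) := by
    apply hAM w κ M hκ
    intro x y t _ _ _ hc
    have h3 : φ x y t = F x y t - G x y t := by
      rw [hφ]
      show (if ∀ p : ℕ, p.Prime → p ∣ x * y * t → w < p then F x y t - G x y t else 0) = _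
      rw [if_pos hc]
    rw [h3]
    linarith
  rw [tadd G φ] at h2
  linarith

end Pool.Agent.F0f91f8.FC
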