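import Pool.Agent.Work.MP_0f91f8_co.FC.AllS
import Pool.Agent.Work.MP_0f91f8_co.FC.AllP
import Pool.Agent.Work.MP_0f91f8_co.FC.I_TA
import Pool.Agent.Work.MP_0f91f8_co.FC.I_TB
import Pool.Agent.Work.MP_0f91f8_co.FC.I_TC
import Pool.Agent.Work.MP_0f91f8_co.FC.I_TE
import Pool.Agent.Work.MP_0f91f8_co.FC.I_TR
import Pool.Agent.Work.MP_0f91f8_co.FC.I_TS
import Pool.Agent.Work.MP_0f91f8_co.FC.I_TU
import Pool.Agent.Work.MP_0f91f8_co.FC.I_TW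
import Pool.Agent.Work.MP_0f91f8_co.FC.I_AA
import Pool.Agent.Work.MP_0f91f8_co.FC.I_AG
import Pool.Agent.Work.MP_0f91f8_co.FC.I_AK
import Pool.Agent.Work.MP_0f91f8_co.FC.I_AL
import Pool.Agent.Work.MP_0f91f8_co.FC.I_AM
import Pool.Agent.Work.MP_0f91f8_co.FC.I_AP
import Pool.Agent.Work.MP_0f91f8_co.FC.I_AQ
import Pool.Agent.Work.MP_0f91f8_co.FC.I_AR
import Pool.Agent.Work.MP_0f91f8_co.FC.I_AS
import Pool.Agent.Work.MP_0f91f8_co.FC.I_AT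
import Pool.Agent.Work.MP_0f91f8_co.FC.I_AV
import Pool.Agent.Work.MP_0f91f8_co.FC.I_AW
import Pool.Agent.Work.MP_0f91f8_co.FC.I_AX
import Pool.Agent.Work.MP_0f91f8_co.FC.I_AY
import Pool.Agent.Work.MP_0f91f8_co.FC.I_AZ
import Pool.Agent.Work.MP_0f91f8_co.FC.I_Am
import Pool.Agent.Work.MP_0f91f8_co.FC.I_An

/-!
# Block FC: modules T and A from module H
-/

set_option autoImplicit false

namespace Pool.Agent.F0f91f8.FC

theorem all_TriS (hW : WmS) (hD : DecS) : TriS :=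
  pr_TU hD pr_TC pr_TA pr_TB (pr_TW all_DomS hW pr_TC pr_TA pr_TB pr_TR)
    (pr_TS pr_TC pr_TB (pr_TE all_EigS pr_TC pr_TB))

theorem all_FatS (hR : RepS) (hW : WmS) (hD : DecS) (hE : ErgS) : FatS :=
  pr_AT hR pr_TC (pr_AP hD hE pr_TA pr_Am (pr_An pr_Am) (pr_AW pr_TA))
    (pr_AR (all_TriS hW hD) pr_TC pr_TB pr_Am (pr_An pr_Am) (pr_AQ pr_TA) (pr_AW pr_TA)
      (pr_AV all_RootS all_TrivS pr_TC) (pr_AL pr_TA pr_Am (pr_An pr_Am)))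
    (pr_AS all_ThinS pr_TC pr_Am pr_AA pr_AM) (pr_AK pr_Am (pr_An pr_Am) (pr_AG hE))

theorem all_FinM' (hR : RepS) (hW : WmS) (hD : DecS) (hE : ErgS) : FinM :=
  pr_AX (all_FatS hR hW hD hE)

theorem all_FinC' (hR : RepS) (hM : MeanS) (hW : WmS) (hD : DecS) (hE : ErgS) : FinC :=
  pr_AY hM pr_Am (all_FinM' hR hW hD hE)

theorem all_FinU' (hR : RepS) (hM : MeanS) (hW : WmS) (hD : DecS) (hE : ErgS) : FinU :=
  pr_AZ (all_FinC' hR hM hW hD hE)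

end Pool.Agent.F0f91f8.FC
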