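import Pool.Agent.Work.MP_0f91f8_co.FC.StmtsH

/-!
# Block FC, item HB: shift of a box
-/

set_option autoImplicit false

namespace Pool.Agent.F0f91f8.FC

open Filter Topology ComplexConjugate
open Pool.Agent.F0f91f8.HD
open scoped BigOperators

namespace XHB

lemma step {ι : Type} [Fintype ι] [DecidableEq ι] {H : Type} [NormedAddCommGroup H]
    (f : (ι → ℕ) → H) (C : ℝ) (hC : ∀ j, ‖f j‖ ≤ C) (i : ι) (L : ℕ) :
    (L : ℝ) * ‖(∑ j : ι → Fin L, f (Pi.single i 1 + vl j)) - ∑ j : ι → Fin L, f (vl j)‖ ≤
      2 * C * (L : ℝ) ^ Fintype.card ι := by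
  classical
  let e := Equiv.funSplitAt i (Fin L)
  let h : ({j // j ≠ i} → Fin L) → ℕ → H := fun r n =>
    f (fun j => if hj : j = i then n else (r ⟨j, hj⟩ : ℕ))
  have h1 : ∑ j : ι → Fin L, f (Pi.single i 1 + vl j) =
      ∑ r : {j // j ≠ i} → Fin L, ∑ k : Fin L, h r ((k : ℕ) + 1) := by
    rw [← Equiv.sum_comp e.symm, Fintype.sum_prod_type_right]
    refine Finset.sum_congr rfl fun r _ => Finset.sum_congr rfl fun k _ => ?_
    simp only [h]
    congr 1
    funext j
    simp only [Pi.add_apply, vl, e, Equiv.funSplitAt_symm_apply]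
    by_cases hj : j = i
    · subst hj
      simp [add_comm]
    · simp [hj]
  have h2 : ∑ j : ι → Fin L, f (vl j) =
      ∑ r : {j // j ≠ i} → Fin L, ∑ k : Fin L, h r (k : ℕ) := by
    rw [← Equiv.sum_comp e.symm, Fintype.sum_prod_type_right]
    refine Finset.sum_congr rfl fun r _ => Finset.sum_congr rfl fun k _ => ?_
    simp only [h]
    congr 1
    funext j
    simp only [vl, e, Equiv.funSplitAt_symm_apply]
    by_cases hj : j = i
    · subst hj
      simp
    · simp [hj]
  have h3 : ∀ r : {j // j ≠ i} → Fin L, (∑ k : Fin L, h r ((k : ℕ) + 1)) -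
      ∑ k : Fin L, h r (k : ℕ) = h r L - h r 0 := by
    intro r
    rw [Fin.sum_univ_eq_sum_range (fun k => h r (k + 1)) L, Fin.sum_univ_eq_sum_range (fun k => h r k) L,
      ← Finset.sum_sub_distrib, Finset.sum_range_sub]
  have h4 : ‖(∑ j : ι → Fin L, f (Pi.single i 1 + vl j)) - ∑ j : ι → Fin L, f (vl j)‖ ≤
      (L : ℝ) ^ (Fintype.card ι - 1) * (2 * C) := by
    rw [h1, h2, ← Finset.sum_sub_distrib]
    simp only [h3]
    refine (norm_sum_le _ _).trans ?_
    have h5 : ∀ r ∈ (Finset.univ : Finset ({j // j ≠ i} → Fin L)), ‖h r L - h r 0‖ ≤ 2 * C := by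
      intro r _
      have h6 := norm_sub_le (h r L) (h r 0)
      have h7 := hC (fun j => if hj : j = i then L else (r ⟨j, hj⟩ : ℕ))
      have h8 := hC (fun j => if hj : j = i then 0 else (r ⟨j, hj⟩ : ℕ))
      linarith
    refine (Finset.sum_le_card_nsmul _ _ _ h5).trans (le_of_eq ?_)
    rw [Finset.card_univ, nsmul_eq_mul, Fintype.card_fun, Fintype.card_fin]
    have h9 : Fintype.card {j // j ≠ i} = Fintype.card ι - 1 := by
      rw [Fintype.card_subtype_compl, Fintype.card_subtype_eq]
    rw [h9]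
    push_cast
    ring
  have hcard : 1 ≤ Fintype.card ι := Fintype.card_pos_iff.2 ⟨i⟩
  calc (L : ℝ) * ‖(∑ j : ι → Fin L, f (Pi.single i 1 + vl j)) - ∑ j : ι → Fin L, f (vl j)‖
      ≤ (L : ℝ) * ((L : ℝ) ^ (Fintype.card ι - 1) * (2 * C)) :=
        mul_le_mul_of_nonneg_left h4 (Nat.cast_nonneg _)
    _ = 2 * C * (L : ℝ) ^ Fintype.card ι := by
        obtain ⟨d, hd⟩ : ∃ d, Fintype.card ι = d + 1 := ⟨Fintype.card ι - 1, by omega⟩
        rw [hd, Nat.add_sub_cancel, pow_succ]
        ring

end XHB

theorem pr_HB : StHB := by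
  intro ι _ _ H _ f C hC a L
  have key : ∀ n : ℕ, ∀ a : ι → ℕ, ∑ i, a i = n →
      (L : ℝ) * ‖(∑ j : ι → Fin L, f (a + vl j)) - ∑ j : ι → Fin L, f (vl j)‖ ≤
        2 * C * (n : ℝ) * (L : ℝ) ^ Fintype.card ι := by
    intro n
    induction n with
    | zero =>
      intro a ha
      have h0 : a = 0 := by
        funext i
        have := (Finset.sum_eq_zero_iff.1 ha) i (Finset.mem_univ i)
        simpa using this
      subst h0
      simp
    | succ n ih =>
      intro a ha
      obtain ⟨i, hi⟩ : ∃ i, 0 < a i := by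
        by_contra hcon
        push Not at hcon
        have : ∑ i, a i = 0 := Finset.sum_eq_zero fun i _ => Nat.le_zero.1 (hcon i)
        omega
      let b : ι → ℕ := a - Pi.single i 1
      have hab : a = b + Pi.single i 1 := by
        funext j
        simp only [b, Pi.add_apply, Pi.sub_apply]
        by_cases hj : j = i
        · subst hj
          simp
          omega
        · simp [Pi.single_eq_of_ne hj]
      have hb : ∑ j, b j = n := by
        have h1 : ∑ j, a j = ∑ j, b j + ∑ j, (Pi.single i 1 : ι → ℕ) j := by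
          rw [← Finset.sum_add_distrib]
          refine Finset.sum_congr rfl fun j _ => ?_
          conv_lhs => rw [hab]
          rfl
        rw [Finset.sum_pi_single'] at h1
        simp at h1
        omega
      have h1 := ih b hb
      have h2 := XHB.step (fun j => f (b + j)) C (fun j => hC _) i L
      have h3 : ∀ j : ι → Fin L, a + vl j = b + (Pi.single i 1 + vl j) := by
        intro j
        rw [← add_assoc, ← hab]
      simp only [h3]
      have h4 : (∑ j : ι → Fin L, f (b + (Pi.single i 1 + vl j))) - ∑ j : ι → Fin L, f (vl j) =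
          ((∑ j : ι → Fin L, f (b + (Pi.single i 1 + vl j))) - ∑ j : ι → Fin L, f (b + vl j)) +
          ((∑ j : ι → Fin L, f (b + vl j)) - ∑ j : ι → Fin L, f (vl j)) := by abel
      rw [h4]
      refine (mul_le_mul_of_nonneg_left (norm_add_le _ _) (Nat.cast_nonneg _)).trans ?_
      rw [mul_add]
      push_cast
      linarith
  have := key _ a rfl
  push_cast at this
  exact this

end Pool.Agent.F0f91f8.FC
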