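import Pool.Agent.Work.MP_0f91f8_co.FC.StmtsH

/-!
# Block FC, item HC: counting (helper77)
-/

set_option autoImplicit false

namespace Pool.Agent.F0f91f8.FC

open scoped BigOperators

namespace XHC

theorem lt_aux {M L x y : ℕ} (hx : x < M - L) (hy : y < L) : x + y < M := by omega

/-- the point `t + k` -/
def sh {ι : Type} {M L : ℕ} (k : ι → Fin L) (t : ι → Fin (M - L)) : ι → Fin M :=
  fun i => ⟨(t i : ℕ) + (k i : ℕ), lt_aux (t i).2 (k i).2⟩

theorem sh_inj {ι : Type} {M L : ℕ} (k : ι → Fin L) :
    Function.Injective (sh (M := M) k) := by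
  intro t t' h
  funext i
  have hi := congrArg Fin.val (congrFun h i)
  simp only [sh] at hi
  exact Fin.ext (by omega)

end XHC

/-- Item HC. -/
theorem pr_HC : StHC := by
  intro ι _ _ M L hLM j k
  have hcard : (Finset.univ : Finset (ι → Fin (M - L))).card ≤
      ((Finset.univ : Finset ((ι → Fin M) × (ι → Fin M))).filter
        fun l => vl l.1 + vl j = vl l.2 + vl k).card := by
    refine Finset.card_le_card_of_injOn (fun t => (XHC.sh k t, XHC.sh j t)) ?_ ?_
    · intro t _
      simp only [Finset.coe_filter, Finset.mem_univ, true_and, Set.mem_ofPred_eq]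
      funext i
      simp only [vl, XHC.sh, Pi.add_apply]
      omega
    · intro t _ t' _ h
      exact XHC.sh_inj k (Prod.ext_iff.1 h).1
  have h1 : (Finset.univ : Finset (ι → Fin (M - L))).card = (M - L) ^ Fintype.card ι := by
    rw [Finset.card_univ, Fintype.card_fun, Fintype.card_fin]
  rw [h1] at hcard
  have h2 : ((M : ℝ) - L) ^ Fintype.card ι = (((M - L) ^ Fintype.card ι : ℕ) : ℝ) := by
    rw [Nat.cast_pow, Nat.cast_sub hLM]
  rw [h2]
  exact_mod_cast hcard

end Pool.Agent.F0f91f8.FC
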