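import Pool.Agent.Work.MP_0f91f8_co.FC.StmtsH

/-!
# Block FC, item HD: decomposition of a vector
-/

set_option autoImplicit false

namespace Pool.Agent.F0f91f8.FC

open ComplexConjugate
open scoped BigOperators

namespace XHD

theorem ch_single {ι : Type} [Fintype ι] [DecidableEq ι] (z : ι → ℂ) (i : ι) :
    ch z (Pi.single i 1) = z i := by
  unfold ch
  rw [Finset.prod_eq_single i]
  · rw [Pi.single_eq_same, pow_one]
  · intro k _ hk
    rw [Pi.single_eq_of_ne hk, pow_zero]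
  · intro h
    exact absurd (Finset.mem_univ i) h

theorem ortho {ι : Type} [Fintype ι] [DecidableEq ι] {H : Type} [NormedAddCommGroup H]
    [InnerProductSpace ℂ H] (S : (ι → ℕ) → H →ₗᵢ[ℂ] H) {z z' : ι → ℂ} (hz : Uni z)
    (hne : z ≠ z') {e e' : H} (he : EigV S z e) (he' : EigV S z' e') :
    inner ℂ e e' = 0 := by
  obtain ⟨i, hi⟩ : ∃ i, z i ≠ z' i := by
    by_contra h
    push Not at h
    exact hne (funext h)
  have h1 : inner ℂ (S (Pi.single i 1) e) (S (Pi.single i 1) e') = inner ℂ e e' :=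
    LinearIsometry.inner_map_map _ _ _
  rw [he, he', ch_single, ch_single, inner_smul_left, inner_smul_right] at h1
  have h2 : (conj (z i) * z' i - 1) * inner ℂ e e' = 0 := by
    linear_combination h1
  rcases mul_eq_zero.mp h2 with h3 | h3
  · exfalso
    apply hi
    have h4 : z i * conj (z i) = 1 := by
      rw [Complex.mul_conj, Complex.normSq_eq_norm_sq, hz i]
      norm_num
    have h5 : z i * (conj (z i) * z' i - 1) = 0 := by rw [h3, mul_zero]
    linear_combination (-1 : ℂ) * h5 + z' i * h4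
  · exact h3

theorem EsOrtho {ι : Type} [Fintype ι] [DecidableEq ι] {H : Type} [NormedAddCommGroup H]
    [InnerProductSpace ℂ H] (S : (ι → ℕ) → H →ₗᵢ[ℂ] H) (Y : Set (ι → ℂ)) :
    Es S Y ≤ (Es S Yᶜ)ᗮ := by
  unfold Es
  rw [Submodule.orthogonal_closure]
  refine Submodule.topologicalClosure_minimal _ ?_ (Submodule.isClosed_orthogonal _)
  have h := Submodule.isOrtho_span (𝕜 := ℂ) (s := {e | ∃ z ∈ Y, Uni z ∧ EigV S z e})
    (t := {e | ∃ z ∈ Yᶜ, Uni z ∧ EigV S z e})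
  refine h.mpr ?_
  rintro u ⟨z, hz, hzu, hze⟩ v ⟨z', hz', hzu', hze'⟩
  refine ortho S hzu ?_ hze hze'
  rintro rfl
  exact hz' hz

end XHD

open XHD

theorem pr_HD : StHD := by
  intro ι _ _ H _ _ _ S hS Y g
  have hA : IsClosed (Es S Y : Set H) := Submodule.isClosed_topologicalClosure _
  have hB : IsClosed (Es S Yᶜ : Set H) := Submodule.isClosed_topologicalClosure _
  have : CompleteSpace (Es S Y) := hA.completeSpace_coe
  have : CompleteSpace (Es S Yᶜ) := hB.completeSpace_coe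
  have hAB : Es S Y ≤ (Es S Yᶜ)ᗮ := EsOrtho S Y
  have hBA : Es S Yᶜ ≤ (Es S Y)ᗮ := (Submodule.isOrtho_comm.mp hAB)
  obtain ⟨g₁, hg₁, h1⟩ : ∃ g₁ ∈ Es S Y, g - g₁ ∈ (Es S Y)ᗮ :=
    ⟨_, Submodule.starProjection_apply_mem (Es S Y) g, Submodule.sub_starProjection_mem_orthogonal g⟩
  obtain ⟨g₂, hg₂, h2⟩ : ∃ g₂ ∈ Es S Yᶜ, g - g₂ ∈ (Es S Yᶜ)ᗮ :=
    ⟨_, Submodule.starProjection_apply_mem (Es S Yᶜ) g, Submodule.sub_starProjection_mem_orthogonal g⟩
  have h3 : g - g₁ - g₂ ∈ (Es S Y)ᗮ := Submodule.sub_mem _ h1 (hBA hg₂)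
  have h4 : g - g₁ - g₂ ∈ (Es S Yᶜ)ᗮ := by
    have : g - g₁ - g₂ = (g - g₂) - g₁ := by abel
    rw [this]
    exact Submodule.sub_mem _ h2 (hAB hg₁)
  have key : ∀ a b : H, inner ℂ a b = 0 → ‖a‖ ≤ ‖a + b‖ := by
    intro a b hab
    have e := norm_add_sq_eq_norm_sq_add_norm_sq_of_inner_eq_zero a b hab
    nlinarith [norm_nonneg a, norm_nonneg b, norm_nonneg (a + b)]
  refine ⟨g₁, hg₁, g₂, hg₂, g - g₁ - g₂, ?_, by abel, ?_, ?_, ?_⟩
  · intro z e hz he
    by_cases hzY : z ∈ Y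
    · exact (Submodule.mem_orthogonal _ _).mp h3 e
        (Submodule.le_topologicalClosure _ (Submodule.subset_span ⟨z, hzY, hz, he⟩))
    · exact (Submodule.mem_orthogonal _ _).mp h4 e
        (Submodule.le_topologicalClosure _ (Submodule.subset_span ⟨z, hzY, hz, he⟩))
  · have := key g₁ (g - g₁) ((Submodule.mem_orthogonal _ _).mp h1 g₁ hg₁)
    rwa [add_sub_cancel] at this
  · have := key g₂ (g - g₂) ((Submodule.mem_orthogonal _ _).mp h2 g₂ hg₂)
    rwa [add_sub_cancel] at this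
  · have h5 : inner ℂ (g - g₁ - g₂) (g₁ + g₂) = 0 := by
      rw [inner_add_right, Submodule.inner_left_of_mem_orthogonal hg₁ h3,
        Submodule.inner_left_of_mem_orthogonal hg₂ h4, add_zero]
    have := key (g - g₁ - g₂) (g₁ + g₂) h5
    have e : g - g₁ - g₂ + (g₁ + g₂) = g := by abel
    rwa [e] at this

end Pool.Agent.F0f91f8.FC
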