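import Pool.Agent.Work.MP_0f91f8_co.FC.StmtsH

/-!
# Block FC, item HF: orthogonality of the vectors of roots of unity
-/

set_option autoImplicit false

namespace Pool.Agent.F0f91f8.FC

open Filter Topology ComplexConjugate
open scoped BigOperators

namespace XHF

/-- one coordinate -/
lemma one (N : ℕ) (hN : 1 ≤ N) (k l : ℕ) (hk : k < N) (hl : l < N) :
    ∑ s : Fin N, (Complex.exp (2 * Real.pi * Complex.I * (((s : ℕ) : ℕ) : ℂ) / (N : ℂ))) ^ k *
      conj ((Complex.exp (2 * Real.pi * Complex.I * (((s : ℕ) : ℕ) : ℂ) / (N : ℂ))) ^ l) =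
      if k = l then (N : ℂ) else 0 := by
  set ζ : ℂ := Complex.exp (2 * Real.pi * Complex.I / (N : ℂ)) with hζ
  have hprim : IsPrimitiveRoot ζ N := Complex.isPrimitiveRoot_exp N (by omega)
  have hexp : ∀ s : ℕ, Complex.exp (2 * Real.pi * Complex.I * (s : ℂ) / (N : ℂ)) = ζ ^ s := by
    intro s
    rw [hζ, ← Complex.exp_nat_mul]
    congr 1
    ring
  have hnorm : ‖ζ‖ = 1 := hprim.norm'_eq_one (by omega)
  have hconj : ∀ n : ℕ, ζ ^ n * conj (ζ ^ n) = 1 := by
    intro n
    rw [Complex.mul_conj, Complex.normSq_eq_norm_sq, norm_pow, hnorm]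
    simp
  set q : ℂ := ζ ^ k * conj (ζ ^ l) with hq
  have hterm : ∀ s : Fin N, (Complex.exp (2 * Real.pi * Complex.I * ((s : ℕ) : ℂ) / (N : ℂ))) ^ k *
      conj ((Complex.exp (2 * Real.pi * Complex.I * ((s : ℕ) : ℂ) / (N : ℂ))) ^ l) =
      q ^ (s : ℕ) := by
    intro s
    rw [hexp, hq, mul_pow, ← map_pow, ← pow_mul, ← pow_mul, ← pow_mul, ← pow_mul,
      mul_comm k, mul_comm l]
  rw [Finset.sum_congr rfl fun s _ => hterm s, Fin.sum_univ_eq_sum_range (fun s => q ^ s) N]
  split_ifs with h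
  · have h1 : q = 1 := by rw [hq, h]; exact hconj l
    rw [h1]
    simp
  · have h1 : q ≠ 1 := by
      intro h2
      refine h (hprim.pow_inj hk hl ?_)
      have h3 : q * ζ ^ l = ζ ^ l := by rw [h2, one_mul]
      rw [hq, mul_assoc, mul_comm (conj (ζ ^ l)), hconj l, mul_one] at h3
      exact h3
    have h2 : q ^ N = 1 := by
      rw [hq, mul_pow, ← map_pow, ← pow_mul, ← pow_mul, mul_comm k, mul_comm l, pow_mul, pow_mul,
        hprim.pow_eq_one]
      simp
    have h3 := geom_sum_mul q N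
    rw [h2, sub_self] at h3
    exact (mul_eq_zero.1 h3).resolve_right (sub_ne_zero.2 h1)

end XHF

open XHF in
theorem pr_HF : StHF := by
  intro ι _ _ N hN k l hkl
  let g : ι → Fin N → ℂ := fun i s =>
    (Complex.exp (2 * Real.pi * Complex.I * ((s : ℕ) : ℂ) / (N : ℂ))) ^ k i *
      conj ((Complex.exp (2 * Real.pi * Complex.I * ((s : ℕ) : ℂ) / (N : ℂ))) ^ l i)
  have h1 : ∀ r : ι → Fin N, ch (rt N r) k * conj (ch (rt N r) l) = ∏ i, g i (r i) := by
    intro r
    simp only [ch, rt, g]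
    rw [map_prod, ← Finset.prod_mul_distrib]
  have h2 := Finset.prod_univ_sum (fun _ : ι => (Finset.univ : Finset (Fin N))) g
  rw [Fintype.piFinset_univ] at h2
  rw [Finset.sum_congr rfl fun r _ => h1 r, ← h2]
  have h3 : ∀ i ∈ (Finset.univ : Finset ι), ∑ s : Fin N, g i s = if k i = l i then (N : ℂ) else 0 :=
    fun i _ => one N hN (k i) (l i) (hkl i).1 (hkl i).2
  rw [Finset.prod_congr rfl h3]
  split_ifs with h
  · subst h
    simp
  · obtain ⟨i, hi⟩ := Function.ne_iff.1 h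
    exact Finset.prod_eq_zero (Finset.mem_univ i) (if_neg hi)

end Pool.Agent.F0f91f8.FC
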