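import Pool.Agent.Work.MP_0f91f8_co.FC.StmtsH

/-!
# Item HG of block FC: an inequality for the Gram matrix
-/

set_option autoImplicit false

namespace Pool.Agent.F0f91f8.FC

open Filter Topology ComplexConjugate
open scoped BigOperators

namespace XHG

/-- Cauchy-Schwarz over pairs -/
theorem cs_pairs {J : Type} [Fintype J] (c : J → ℝ) (G : J → J → ℝ) :
    (∑ j, ∑ k, c j * c k * G j k) ^ 2 ≤ (∑ j, c j ^ 2) ^ 2 * ∑ j, ∑ k, G j k ^ 2 := by
  have h := Finset.sum_mul_sq_le_sq_mul_sq (Finset.univ : Finset (J × J))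
    (fun q => c q.1 * c q.2) (fun q => G q.1 q.2)
  have h1 : ∑ q : J × J, c q.1 * c q.2 * G q.1 q.2 = ∑ j, ∑ k, c j * c k * G j k :=
    Fintype.sum_prod_type _
  have h2 : ∑ q : J × J, (c q.1 * c q.2) ^ 2 = (∑ j, c j ^ 2) ^ 2 := by
    rw [Fintype.sum_prod_type, sq (∑ j, c j ^ 2), Finset.sum_mul_sum]
    refine Finset.sum_congr rfl fun j _ => Finset.sum_congr rfl fun k _ => ?_
    ring
  have h3 : ∑ q : J × J, (G q.1 q.2) ^ 2 = ∑ j, ∑ k, G j k ^ 2 := Fintype.sum_prod_type _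
  rw [h1, h2, h3] at h
  exact h

end XHG

theorem pr_HG : StHG := by
  intro J _ H _ _ v F hF
  set c : J → ℂ := fun j => inner ℂ F (v j) with hc
  set u : H := ∑ j, conj (c j) • v j with hu
  set X : ℝ := ∑ j, ‖c j‖ ^ 2 with hX
  set Y : ℝ := ∑ j, ∑ k, ‖(inner ℂ (v j) (v k) : ℂ)‖ ^ 2 with hY
  have hX0 : 0 ≤ X := Finset.sum_nonneg fun j _ => by positivity
  have hY0 : 0 ≤ Y := Finset.sum_nonneg fun j _ => Finset.sum_nonneg fun k _ => by positivity
  show X ^ 2 ≤ Y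
  -- the inner product with `F`
  have h1 : (inner ℂ F u : ℂ) = (X : ℂ) := by
    rw [hu, inner_sum, hX]
    push_cast
    refine Finset.sum_congr rfl fun j _ => ?_
    rw [inner_smul_right]
    show conj (c j) * c j = _
    rw [mul_comm, Complex.mul_conj, Complex.normSq_eq_norm_sq]
    push_cast
    rfl
  have h2 : X ≤ ‖u‖ := by
    have h3 : ‖(inner ℂ F u : ℂ)‖ ≤ ‖F‖ * ‖u‖ := norm_inner_le_norm F u
    rw [h1, Complex.norm_real, Real.norm_of_nonneg hX0] at h3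
    calc X ≤ ‖F‖ * ‖u‖ := h3
      _ ≤ 1 * ‖u‖ := mul_le_mul_of_nonneg_right hF (norm_nonneg u)
      _ = ‖u‖ := one_mul _
  -- the norm of `u`
  set Z : ℝ := ∑ j, ∑ k, ‖c j‖ * ‖c k‖ * ‖(inner ℂ (v j) (v k) : ℂ)‖ with hZ
  have h4 : ‖u‖ ^ 2 ≤ Z := by
    have h5 : ‖u‖ ^ 2 = ‖(inner ℂ u u : ℂ)‖ := by
      rw [inner_self_eq_norm_sq_to_K]
      simp
    rw [h5]
    have h6 : (inner ℂ u u : ℂ) = ∑ j, ∑ k, c j * (conj (c k) * inner ℂ (v j) (v k)) := by
      rw [hu, sum_inner]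
      refine Finset.sum_congr rfl fun j _ => ?_
      rw [inner_sum]
      refine Finset.sum_congr rfl fun k _ => ?_
      rw [inner_smul_left, inner_smul_right, Complex.conj_conj]
    rw [h6, hZ]
    refine (norm_sum_le _ _).trans (Finset.sum_le_sum fun j _ => ?_)
    refine (norm_sum_le _ _).trans (Finset.sum_le_sum fun k _ => ?_)
    rw [norm_mul, norm_mul, Complex.norm_conj, mul_assoc]
  have h7 : Z ^ 2 ≤ X ^ 2 * Y :=
    XHG.cs_pairs (fun j => ‖c j‖) fun j k => ‖(inner ℂ (v j) (v k) : ℂ)‖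
  have h8 : X ^ 2 ≤ Z := le_trans (pow_le_pow_left₀ hX0 h2 2) h4
  have h9 : (X ^ 2) ^ 2 ≤ X ^ 2 * Y := le_trans (pow_le_pow_left₀ (by positivity) h8 2) h7
  rcases eq_or_lt_of_le hX0 with h0 | h0
  · rw [← h0]
    simpa using hY0
  · have h10 : 0 < X ^ 2 := by positivity
    have h11 : X ^ 2 * X ^ 2 ≤ X ^ 2 * Y := by rw [← sq]; exact h9
    exact le_of_mul_le_mul_left h11 h10

end Pool.Agent.F0f91f8.FC
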