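import Pool.Agent.Work.MP_0f91f8_co.FC.StmtsH

/-!
# Block FC, item HU: uniform smallness of the twisted averages
-/

set_option autoImplicit false

namespace Pool.Agent.F0f91f8.FC

open Filter Topology ComplexConjugate
open Pool.Agent.F0f91f8.HD
open scoped BigOperators

namespace XHU

section
variable {ι : Type} [Fintype ι] [DecidableEq ι]

theorem norm_ch (z : ι → ℂ) (hz : Uni z) (a : ι → ℕ) : ‖ch z a‖ = 1 := by
  unfold ch
  rw [norm_prod]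
  refine Finset.prod_eq_one fun i _ => ?_
  rw [norm_pow, hz i, one_pow]

theorem ch_add (z : ι → ℂ) (a b : ι → ℕ) : ch z (a + b) = ch z a * ch z b := by
  unfold ch
  rw [← Finset.prod_mul_distrib]
  refine Finset.prod_congr rfl fun i _ => ?_
  rw [Pi.add_apply, pow_add]

theorem ch_cont (a : ι → ℕ) : Continuous fun z : ι → ℂ => ch z a := by
  unfold ch
  fun_prop

theorem compact_uni : IsCompact {z : ι → ℂ | Uni z} := by
  have h : {z : ι → ℂ | Uni z} = Set.univ.pi fun _ => Metric.sphere (0 : ℂ) 1 := by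
    ext z
    simp [Uni, Set.mem_pi]
  rw [h]
  exact isCompact_univ_pi fun _ => isCompact_sphere 0 1

variable {H : Type} [NormedAddCommGroup H] [InnerProductSpace ℂ H]

/-- the twisted orbit -/
noncomputable def fo (S : (ι → ℕ) → H →ₗᵢ[ℂ] H) (g : H) (z : ι → ℂ) (a : ι → ℕ) : H :=
  conj (ch z a) • S a g

theorem norm_fo (S : (ι → ℕ) → H →ₗᵢ[ℂ] H) (g : H) (z : ι → ℂ) (hz : Uni z) (a : ι → ℕ) :
    ‖fo S g z a‖ = ‖g‖ := by
  unfold fo
  rw [norm_smul, RCLike.norm_conj, norm_ch z hz, one_mul, LinearIsometry.norm_map]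

theorem fo_cont (S : (ι → ℕ) → H →ₗᵢ[ℂ] H) (g : H) (a : ι → ℕ) :
    Continuous fun z : ι → ℂ => fo S g z a := by
  unfold fo
  exact (Complex.continuous_conj.comp (ch_cont a)).smul continuous_const

theorem fo_add (S : (ι → ℕ) → H →ₗᵢ[ℂ] H) (hS : IsAct S) (g : H) (z : ι → ℂ) (a b : ι → ℕ) :
    fo S g z (a + b) = conj (ch z b) • S b (fo S g z a) := by
  unfold fo
  rw [LinearIsometry.map_smul, smul_smul, add_comm a b, hS.2, ch_add, map_mul]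

theorem comb (S : (ι → ℕ) → H →ₗᵢ[ℂ] H) (hS : IsAct S) (g : H) (z : ι → ℂ) (hz : Uni z)
    (s : Finset (ι → ℕ)) (c : (ι → ℕ) → ℝ) (b : ι → ℕ) :
    ‖∑ a ∈ s, (c a : ℂ) • fo S g z (a + b)‖ = ‖∑ a ∈ s, (c a : ℂ) • fo S g z a‖ := by
  have h : ∑ a ∈ s, (c a : ℂ) • fo S g z (a + b) =
      conj (ch z b) • S b (∑ a ∈ s, (c a : ℂ) • fo S g z a) := by
    rw [map_sum, Finset.smul_sum]
    refine Finset.sum_congr rfl fun a _ => ?_
    rw [fo_add S hS, LinearIsometry.map_smul, smul_comm]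
  rw [h, norm_smul, RCLike.norm_conj, norm_ch z hz, one_mul, LinearIsometry.norm_map]

/-- compactness: all combinations have bounded support -/
theorem bdd (S : (ι → ℕ) → H →ₗᵢ[ℂ] H) (g : H) (ε : ℝ) (hε : 0 < ε)
    (h : ∀ z : ι → ℂ, Uni z → ∃ (s : Finset (ι → ℕ)) (c : (ι → ℕ) → ℝ), (∀ a, 0 ≤ c a) ∧
      ∑ a ∈ s, c a = 1 ∧ ‖∑ a ∈ s, (c a : ℂ) • fo S g z a‖ ≤ ε / 4) :
    ∃ A : ℕ, ∀ z : ι → ℂ, Uni z → ∃ (s : Finset (ι → ℕ)) (c : (ι → ℕ) → ℝ), (∀ a, 0 ≤ c a) ∧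
      ∑ a ∈ s, c a = 1 ∧ (∀ a ∈ s, ∑ i, a i ≤ A) ∧ ‖∑ a ∈ s, (c a : ℂ) • fo S g z a‖ ≤ ε / 2 := by
  refine IsCompact.induction_on (p := fun K : Set (ι → ℂ) => ∃ A : ℕ, ∀ z ∈ K,
    ∃ (s : Finset (ι → ℕ)) (c : (ι → ℕ) → ℝ), (∀ a, 0 ≤ c a) ∧
      ∑ a ∈ s, c a = 1 ∧ (∀ a ∈ s, ∑ i, a i ≤ A) ∧ ‖∑ a ∈ s, (c a : ℂ) • fo S g z a‖ ≤ ε / 2)
    (compact_uni (ι := ι)) ?_ ?_ ?_ ?_
  · exact ⟨0, fun z hz => absurd hz (Set.notMem_empty z)⟩
  · rintro K K' hK ⟨A, hA⟩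
    exact ⟨A, fun z hz => hA z (hK hz)⟩
  · rintro K K' ⟨A, hA⟩ ⟨A', hA'⟩
    refine ⟨max A A', fun z hz => ?_⟩
    rcases hz with hz | hz
    · obtain ⟨s, c, h1, h2, h3, h4⟩ := hA z hz
      exact ⟨s, c, h1, h2, fun a ha => (h3 a ha).trans (le_max_left _ _), h4⟩
    · obtain ⟨s, c, h1, h2, h3, h4⟩ := hA' z hz
      exact ⟨s, c, h1, h2, fun a ha => (h3 a ha).trans (le_max_right _ _), h4⟩
  · intro z hz
    obtain ⟨s, c, h1, h2, h3⟩ := h z hz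
    have hc : Continuous fun w : ι → ℂ => ‖∑ a ∈ s, (c a : ℂ) • fo S g w a‖ :=
      (continuous_finsetSum s fun a _ => continuous_const.smul (fo_cont S g a)).norm
    have ho : {w : ι → ℂ | ‖∑ a ∈ s, (c a : ℂ) • fo S g w a‖ < ε / 2} ∈ 𝓝 z :=
      (isOpen_lt hc continuous_const).mem_nhds (lt_of_le_of_lt h3 (by linarith))
    refine ⟨_, mem_nhdsWithin_of_mem_nhds ho, s.sup fun a => ∑ i, a i, fun w hw => ?_⟩
    exact ⟨s, c, h1, h2, fun a ha => Finset.le_sup (f := fun a : ι → ℕ => ∑ i, a i) ha,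
      le_of_lt hw⟩

end

end XHU

open XHU in
/-- HU: uniform smallness of the twisted averages. -/
theorem pr_HU (hZ : StHZ) (hB : StHB) : StHU := by
  intro ι iF iD H iN iI iC S hS g hg ε hε
  obtain ⟨A, hA⟩ := bdd S g ε hε fun z hz => hZ ι iF iD H iN iI iC S hS g hg z hz (ε / 4)
    (by linarith)
  obtain ⟨L₁, hL₁⟩ := exists_nat_ge (4 * ‖g‖ * A / ε)
  refine ⟨max L₁ 1, fun L hL z hz => ?_⟩
  have hL1 : 1 ≤ L := (le_max_right _ _).trans hL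
  have hLL : L₁ ≤ L := (le_max_left _ _).trans hL
  have hL0 : (0 : ℝ) < L := by exact_mod_cast hL1
  have hLe : 4 * ‖g‖ * A ≤ L * ε := by
    have h1 : (L₁ : ℝ) ≤ L := by exact_mod_cast hLL
    rw [div_le_iff₀ hε] at hL₁
    exact hL₁.trans (mul_le_mul_of_nonneg_right h1 hε.le)
  obtain ⟨s, c, h1, h2, h3, h4⟩ := hA z hz
  set f : (ι → ℕ) → H := fo S g z with hf
  have htw : tw S L z g = ∑ j : ι → Fin L, f (vl j) := rfl
  set P : ℝ := (L : ℝ) ^ Fintype.card ι with hP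
  have hP0 : 0 ≤ P := by positivity
  have hfn : ∀ a, ‖f a‖ ≤ ‖g‖ := fun a => (norm_fo S g z hz a).le
  -- decomposition
  have hdec : ∑ j : ι → Fin L, f (vl j) =
      (∑ j : ι → Fin L, ∑ a ∈ s, (c a : ℂ) • f (a + vl j)) -
      ∑ a ∈ s, (c a : ℂ) • ((∑ j : ι → Fin L, f (a + vl j)) - ∑ j : ι → Fin L, f (vl j)) := by
    have e1 : ∑ j : ι → Fin L, ∑ a ∈ s, (c a : ℂ) • f (a + vl j) =
        ∑ a ∈ s, (c a : ℂ) • ∑ j : ι → Fin L, f (a + vl j) := by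
      rw [Finset.sum_comm]
      refine Finset.sum_congr rfl fun a _ => ?_
      rw [Finset.smul_sum]
    have e2 : ∑ a ∈ s, (c a : ℂ) • (∑ j : ι → Fin L, f (vl j)) = ∑ j : ι → Fin L, f (vl j) := by
      rw [← Finset.sum_smul]
      have : ∑ a ∈ s, (c a : ℂ) = 1 := by exact_mod_cast h2
      rw [this, one_smul]
    simp only [smul_sub]
    rw [Finset.sum_sub_distrib, e1, e2]
    abel
  have hfirst : ‖∑ j : ι → Fin L, ∑ a ∈ s, (c a : ℂ) • f (a + vl j)‖ ≤ P * (ε / 2) := by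
    refine (norm_sum_le _ _).trans ?_
    have h5 : ∀ j ∈ (Finset.univ : Finset (ι → Fin L)),
        ‖∑ a ∈ s, (c a : ℂ) • f (a + vl j)‖ ≤ ε / 2 := fun j _ => by
      rw [hf, comb S hS g z hz s c (vl j)]
      exact h4
    refine (Finset.sum_le_card_nsmul _ _ _ h5).trans (le_of_eq ?_)
    rw [Finset.card_univ, Fintype.card_fun, Fintype.card_fin, nsmul_eq_mul, Nat.cast_pow]
  have hsecond : (L : ℝ) * ‖∑ a ∈ s, (c a : ℂ) •
      ((∑ j : ι → Fin L, f (a + vl j)) - ∑ j : ι → Fin L, f (vl j))‖ ≤ 2 * ‖g‖ * A * P := by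
    have h5 : (L : ℝ) * ‖∑ a ∈ s, (c a : ℂ) •
        ((∑ j : ι → Fin L, f (a + vl j)) - ∑ j : ι → Fin L, f (vl j))‖ ≤
        ∑ a ∈ s, c a * (2 * ‖g‖ * A * P) := by
      refine (mul_le_mul_of_nonneg_left (norm_sum_le _ _) hL0.le).trans ?_
      rw [Finset.mul_sum]
      refine Finset.sum_le_sum fun a ha => ?_
      rw [norm_smul, Complex.norm_real, Real.norm_of_nonneg (h1 a)]
      have h6 := hB ι iF iD H iN f ‖g‖ hfn a L
      have h7 : (∑ i, (a i : ℝ)) ≤ A := by exact_mod_cast h3 a ha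
      have h8 : 2 * ‖g‖ * (∑ i, (a i : ℝ)) * P ≤ 2 * ‖g‖ * A * P :=
        mul_le_mul_of_nonneg_right (mul_le_mul_of_nonneg_left h7 (by positivity)) hP0
      calc (L : ℝ) * (c a * ‖(∑ j : ι → Fin L, f (a + vl j)) - ∑ j : ι → Fin L, f (vl j)‖)
          = c a * ((L : ℝ) * ‖(∑ j : ι → Fin L, f (a + vl j)) - ∑ j : ι → Fin L, f (vl j)‖) := by
            ring
        _ ≤ c a * (2 * ‖g‖ * A * P) := mul_le_mul_of_nonneg_left (h6.trans h8) (h1 a)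
    rw [← Finset.sum_mul, h2, one_mul] at h5
    exact h5
  have hfin : (L : ℝ) * ‖∑ j : ι → Fin L, f (vl j)‖ ≤ (L : ℝ) * (ε * P) := by
    have h5 : ‖∑ j : ι → Fin L, f (vl j)‖ ≤
        ‖∑ j : ι → Fin L, ∑ a ∈ s, (c a : ℂ) • f (a + vl j)‖ +
        ‖∑ a ∈ s, (c a : ℂ) • ((∑ j : ι → Fin L, f (a + vl j)) - ∑ j : ι → Fin L, f (vl j))‖ := by
      conv_lhs => rw [hdec]
      exact norm_sub_le _ _
    have h6 := mul_le_mul_of_nonneg_left h5 hL0.le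
    rw [mul_add] at h6
    have h7 := mul_le_mul_of_nonneg_left hfirst hL0.le
    have h8 : 4 * ‖g‖ * A * P ≤ L * ε * P := mul_le_mul_of_nonneg_right hLe hP0
    nlinarith
  rw [htw]
  exact le_of_mul_le_mul_left hfin hL0

end Pool.Agent.F0f91f8.FC
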