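import Pool.Agent.Work.MP_0f91f8_co.FC.StmtsH

/-!
# Block FC, item HV: Fejer-Wiener inequality (helper72)
-/

set_option autoImplicit false

namespace Pool.Agent.F0f91f8.FC

open Filter Topology ComplexConjugate
open Pool.Agent.F0f91f8.HD
open scoped BigOperators

namespace XHV

theorem uni_rt {ι : Type} (N : ℕ) (r : ι → Fin N) : Uni (rt N r) := by
  intro i
  have h : (2 * Real.pi * Complex.I * ((r i : ℕ) : ℂ) / (N : ℂ) : ℂ) =
      ((2 * Real.pi * ((r i : ℕ) : ℝ) / (N : ℝ) : ℝ) : ℂ) * Complex.I := by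
    push_cast
    ring
  unfold rt
  rw [h, Complex.norm_exp_ofReal_mul_I]

theorem bern (d : ℕ) (L : ℝ) (hL : 0 < L) :
    (2 * ((d : ℝ) + 1) * L) ^ d / 2 ≤ (2 * ((d : ℝ) + 1) * L - L) ^ d := by
  have hd : (0 : ℝ) < d + 1 := by positivity
  have h1 : 2 * ((d : ℝ) + 1) * L - L =
      (2 * ((d : ℝ) + 1) * L) * (1 + -(1 / (2 * ((d : ℝ) + 1)))) := by
    field_simp
    ring
  rw [h1, mul_pow (2 * ((d : ℝ) + 1) * L) (1 + -(1 / (2 * ((d : ℝ) + 1))))]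
  have h2 : -2 ≤ -(1 / (2 * ((d : ℝ) + 1))) := by
    have : 1 / (2 * ((d : ℝ) + 1)) ≤ 1 := by
      rw [div_le_one (by positivity)]
      linarith
    linarith
  have h3 := one_add_mul_le_pow h2 d
  have h4 : (1 : ℝ) / 2 ≤ 1 + (d : ℝ) * -(1 / (2 * ((d : ℝ) + 1))) := by
    have h5 : (d : ℝ) * (1 / (2 * ((d : ℝ) + 1))) ≤ 1 / 2 := by
      rw [mul_one_div, div_le_div_iff₀ (by positivity) (by norm_num)]
      linarith
    linarith
  have h6 : 0 ≤ (2 * ((d : ℝ) + 1) * L) ^ d := by positivity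
  calc (2 * ((d : ℝ) + 1) * L) ^ d / 2 = (2 * ((d : ℝ) + 1) * L) ^ d * (1 / 2) := by ring
    _ ≤ _ := mul_le_mul_of_nonneg_left (h4.trans h3) h6

end XHV

/-- Fejer-Wiener inequality -/
theorem pr_HV (hW : StHW) (hC : StHC) : StHV := by
  intro ι _ _ H _ _ S hS g L δ hL hδ hz
  have hL0 : (0 : ℝ) < L := by exact_mod_cast hL
  set d : ℕ := Fintype.card ι with hd
  set M : ℕ := 2 * (d + 1) * L with hM
  have hLM : L ≤ M := by
    rw [hM]
    nlinarith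
  have hN1 : 1 ≤ M + L := by omega
  obtain ⟨e1, e2⟩ := hW ι inferInstance inferInstance H inferInstance inferInstance S hS g
    (M + L) M L hN1 le_rfl
  set X : ℝ := ∑ j : ι → Fin L, ∑ k : ι → Fin L, ‖inner ℂ (S (vl j) g) (S (vl k) g)‖ ^ 2 with hX
  set P : ℝ := (((M + L : ℕ) : ℝ)) ^ Fintype.card ι with hP
  have hP0 : 0 < P := by
    rw [hP]
    have : (0 : ℝ) < ((M + L : ℕ) : ℝ) := by exact_mod_cast hN1
    positivity
  have h1 : ((M : ℝ) - L) ^ d * X ≤ ∑ j : ι → Fin L, ∑ k : ι → Fin L,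
      (((Finset.univ : Finset ((ι → Fin M) × (ι → Fin M))).filter
        fun l => vl l.1 + vl j = vl l.2 + vl k).card : ℝ) *
      ‖inner ℂ (S (vl j) g) (S (vl k) g)‖ ^ 2 := by
    rw [hX, Finset.mul_sum]
    refine Finset.sum_le_sum fun j _ => ?_
    rw [Finset.mul_sum]
    refine Finset.sum_le_sum fun k _ => ?_
    exact mul_le_mul_of_nonneg_right (hC ι inferInstance inferInstance M L hLM j k) (by positivity)
  have h2 : ∑ r : ι → Fin (M + L), ‖tw S M (rt (M + L) r) g‖ ^ 2 *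
      ‖tw S L (rt (M + L) r) g‖ ^ 2 ≤
      (δ * (L : ℝ) ^ d) ^ 2 * ∑ r : ι → Fin (M + L), ‖tw S M (rt (M + L) r) g‖ ^ 2 := by
    rw [Finset.mul_sum]
    refine Finset.sum_le_sum fun r _ => ?_
    have := hz _ (XHV.uni_rt (M + L) r)
    have h3 : ‖tw S L (rt (M + L) r) g‖ ^ 2 ≤ (δ * (L : ℝ) ^ d) ^ 2 :=
      pow_le_pow_left₀ (norm_nonneg _) this 2
    rw [mul_comm]
    exact mul_le_mul_of_nonneg_right h3 (by positivity)
  rw [e1, e2] at h2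
  have h3 : ((M : ℝ) - L) ^ d * X ≤ (δ * (L : ℝ) ^ d) ^ 2 * ((M : ℝ) ^ d * ‖g‖ ^ 2) := by
    have h4 : P * (((M : ℝ) - L) ^ d * X) ≤
        P * ((δ * (L : ℝ) ^ d) ^ 2 * ((M : ℝ) ^ d * ‖g‖ ^ 2)) := by
      refine (mul_le_mul_of_nonneg_left h1 hP0.le).trans (h2.trans (le_of_eq ?_))
      rw [hP]
      ring
    exact le_of_mul_le_mul_left h4 hP0
  have hX0 : 0 ≤ X := by
    rw [hX]
    positivity
  have hMr : (M : ℝ) = 2 * ((d : ℝ) + 1) * L := by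
    rw [hM]
    push_cast
    ring
  have h5 := XHV.bern d L hL0
  rw [← hMr] at h5
  have hM0 : (0 : ℝ) < (M : ℝ) ^ d := by
    rw [hMr]
    positivity
  have h6 : (M : ℝ) ^ d / 2 * X ≤ (δ * (L : ℝ) ^ d) ^ 2 * ((M : ℝ) ^ d * ‖g‖ ^ 2) :=
    (mul_le_mul_of_nonneg_right h5 hX0).trans h3
  have h7 : (M : ℝ) ^ d * X ≤ (M : ℝ) ^ d * (2 * δ ^ 2 * ‖g‖ ^ 2 * ((L : ℝ) ^ d) ^ 2) := by
    nlinarith [h6]
  exact le_of_mul_le_mul_left h7 hM0

end Pool.Agent.F0f91f8.FC
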