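import Pool.Agent.Work.MP_0f91f8_co.FC.StmtsH

/-!
# Item HW of block FC (MP_0f91f8_co): first and second moments of the twisted sums
-/

set_option autoImplicit false
set_option linter.unusedSectionVars false

namespace Pool.Agent.F0f91f8.FC

open Filter Topology ComplexConjugate
open scoped BigOperators

namespace XHW

variable {ι : Type} [Fintype ι] [DecidableEq ι]

theorem ch_add (z : ι → ℂ) (a b : ι → ℕ) : ch z (a + b) = ch z a * ch z b := by
  unfold ch
  rw [← Finset.prod_mul_distrib]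
  apply Finset.prod_congr rfl
  intro i _
  rw [Pi.add_apply, pow_add]

theorem vl_inj {L : ℕ} {j k : ι → Fin L} (h : vl j = vl k) : j = k := by
  funext i
  exact Fin.ext (congrFun h i)

/-- the square of the norm of a twisted sum -/
theorem tw_sq {H : Type*} [NormedAddCommGroup H] [InnerProductSpace ℂ H]
    (S : (ι → ℕ) → H →ₗᵢ[ℂ] H) (M : ℕ) (z : ι → ℂ) (g : H) :
    ((‖tw S M z g‖ ^ 2 : ℝ) : ℂ) = ∑ l : (ι → Fin M) × (ι → Fin M),
      ch z (vl l.1) * conj (ch z (vl l.2)) * inner ℂ (S (vl l.1) g) (S (vl l.2) g) := by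
  have h1 : ((‖tw S M z g‖ ^ 2 : ℝ) : ℂ) = inner ℂ (tw S M z g) (tw S M z g) := by
    rw [inner_self_eq_norm_sq_to_K]
    push_cast
    rfl
  rw [h1, Fintype.sum_prod_type]
  unfold tw
  rw [sum_inner]
  apply Finset.sum_congr rfl
  intro l _
  rw [inner_sum]
  apply Finset.sum_congr rfl
  intro l' _
  rw [inner_smul_left, inner_smul_right, Complex.conj_conj]
  ring

theorem key {H : Type*} [NormedAddCommGroup H] [InnerProductSpace ℂ H]
    (S : (ι → ℕ) → H →ₗᵢ[ℂ] H) (hS : IsAct S) (g : H) (l l' j k : ι → ℕ) (h : l + j = l' + k) :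
    inner ℂ (S l g) (S l' g) * inner ℂ (S j g) (S k g) =
      ((‖inner ℂ (S j g) (S k g)‖ ^ 2 : ℝ) : ℂ) := by
  have h1 : inner ℂ (S l g) (S l' g) = inner ℂ (S k g) (S j g) := by
    rw [← (S j).inner_map_map (S l g) (S l' g), ← hS.2 j l g, ← hS.2 j l' g, add_comm j l, h,
      add_comm j l', hS.2 l' k g, hS.2 l' j g, (S l').inner_map_map]
  rw [h1, ← inner_conj_symm (S k g) (S j g), mul_comm, Complex.mul_conj,
    Complex.normSq_eq_norm_sq]

end XHW

theorem pr_HW (hF : StHF) : StHW := by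
  intro ι _ _ H _ _ S hS g N M L hN hML
  have hF' := hF ι inferInstance inferInstance N hN
  refine ⟨?_, ?_⟩
  · apply Complex.ofReal_injective
    rw [Complex.ofReal_sum]
    have h1 : ∀ r : ι → Fin N, ((‖tw S M (rt N r) g‖ ^ 2 : ℝ) : ℂ) = _ :=
      fun r => XHW.tw_sq S M (rt N r) g
    rw [Finset.sum_congr rfl fun r _ => h1 r, Finset.sum_comm]
    have h2 : ∀ l : (ι → Fin M) × (ι → Fin M),
        ∑ r : ι → Fin N, ch (rt N r) (vl l.1) * conj (ch (rt N r) (vl l.2)) *
          inner ℂ (S (vl l.1) g) (S (vl l.2) g) =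
        if l.1 = l.2 then ((N : ℂ) ^ Fintype.card ι * (‖g‖ : ℂ) ^ 2) else 0 := by
      intro l
      rw [← Finset.sum_mul, hF' (vl l.1) (vl l.2) (fun i => ⟨by
        have := (l.1 i).2
        show ((l.1 i : Fin M) : ℕ) < N
        omega, by
        have := (l.2 i).2
        show ((l.2 i : Fin M) : ℕ) < N
        omega⟩)]
      by_cases h : l.1 = l.2
      · rw [if_pos h, if_pos (by rw [h]), h, (S (vl l.2)).inner_map_map,
          inner_self_eq_norm_sq_to_K]
        rfl
      · rw [if_neg h, if_neg (fun h' => h (XHW.vl_inj h')), zero_mul]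
    rw [Finset.sum_congr rfl fun l _ => h2 l, Fintype.sum_prod_type]
    have h3 : ∀ l : ι → Fin M, ∑ l' : ι → Fin M,
        (if l = l' then ((N : ℂ) ^ Fintype.card ι * (‖g‖ : ℂ) ^ 2) else 0) =
        (N : ℂ) ^ Fintype.card ι * (‖g‖ : ℂ) ^ 2 := by
      intro l
      rw [Finset.sum_ite_eq Finset.univ l, if_pos (Finset.mem_univ l)]
    rw [Finset.sum_congr rfl fun l _ => h3 l, Finset.sum_const, nsmul_eq_mul, Finset.card_univ,
      Fintype.card_pi]
    simp only [Fintype.card_fin, Finset.prod_const, Finset.card_univ]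
    push_cast
    ring
  · apply Complex.ofReal_injective
    rw [Complex.ofReal_sum]
    have h1 : ∀ r : ι → Fin N,
        ((‖tw S M (rt N r) g‖ ^ 2 * ‖tw S L (rt N r) g‖ ^ 2 : ℝ) : ℂ) =
        ∑ p : (ι → Fin L) × (ι → Fin L), ∑ l : (ι → Fin M) × (ι → Fin M),
          (ch (rt N r) (vl l.1 + vl p.1) * conj (ch (rt N r) (vl l.2 + vl p.2))) *
            (inner ℂ (S (vl l.1) g) (S (vl l.2) g) * inner ℂ (S (vl p.1) g) (S (vl p.2) g)) := by
      intro r
      rw [Complex.ofReal_mul, XHW.tw_sq S M, XHW.tw_sq S L, mul_comm, Finset.sum_mul]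
      apply Finset.sum_congr rfl
      intro p _
      rw [Finset.mul_sum]
      apply Finset.sum_congr rfl
      intro l _
      rw [XHW.ch_add, XHW.ch_add, map_mul]
      ring
    rw [Finset.sum_congr rfl fun r _ => h1 r, Finset.sum_comm]
    rw [Fintype.sum_prod_type, Complex.ofReal_mul, Complex.ofReal_sum, Finset.mul_sum]
    apply Finset.sum_congr rfl
    intro j _
    rw [Complex.ofReal_sum, Finset.mul_sum]
    apply Finset.sum_congr rfl
    intro k _
    rw [Finset.sum_comm]
    have h2 : ∀ l : (ι → Fin M) × (ι → Fin M),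
        ∑ r : ι → Fin N, (ch (rt N r) (vl l.1 + vl (j, k).1) *
          conj (ch (rt N r) (vl l.2 + vl (j, k).2))) *
            (inner ℂ (S (vl l.1) g) (S (vl l.2) g) *
              inner ℂ (S (vl (j, k).1) g) (S (vl (j, k).2) g)) =
        if vl l.1 + vl j = vl l.2 + vl k then
          (N : ℂ) ^ Fintype.card ι * ((‖inner ℂ (S (vl j) g) (S (vl k) g)‖ ^ 2 : ℝ) : ℂ)
        else 0 := by
      intro l
      have h3 : ∀ (a : ι → Fin M) (b : ι → Fin L) (i : ι), (vl a + vl b) i < N := by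
        intro a b i
        have h4 := (a i).2
        have h5 := (b i).2
        show ((a i : Fin M) : ℕ) + ((b i : Fin L) : ℕ) < N
        omega
      rw [← Finset.sum_mul, hF' (vl l.1 + vl (j, k).1) (vl l.2 + vl (j, k).2)
        (fun i => ⟨h3 l.1 j i, h3 l.2 k i⟩)]
      by_cases h : vl l.1 + vl j = vl l.2 + vl k
      · rw [if_pos h, if_pos h, XHW.key S hS g _ _ _ _ h]
      · rw [if_neg h, if_neg h, zero_mul]
    rw [Finset.sum_congr rfl fun l _ => h2 l, ← Finset.sum_filter, Finset.sum_const,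
      nsmul_eq_mul]
    push_cast
    ring

end Pool.Agent.F0f91f8.FC
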