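import Pool.Agent.Work.MP_0f91f8_co.FC.StmtsH

/-!
# [0f91f8 FC HZ] one character
-/

set_option autoImplicit false

namespace Pool.Agent.F0f91f8.FC

open Filter Topology ComplexConjugate
open Pool.Agent.F0f91f8.HD
open scoped BigOperators

namespace XHZ

section
variable {ι : Type} [Fintype ι]

theorem ch_zero (z : ι → ℂ) : ch z 0 = 1 := by
  simp [ch]

theorem ch_add (z : ι → ℂ) (a b : ι → ℕ) : ch z (a + b) = ch z a * ch z b := by
  unfold ch
  rw [← Finset.prod_mul_distrib]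
  refine Finset.prod_congr rfl fun i _ => ?_
  rw [Pi.add_apply, pow_add]

theorem norm_ch {z : ι → ℂ} (hz : Uni z) (a : ι → ℕ) : ‖ch z a‖ = 1 := by
  unfold ch
  rw [norm_prod]
  refine Finset.prod_eq_one fun i _ => ?_
  rw [norm_pow, hz i, one_pow]

theorem ch_mul_conj {z : ι → ℂ} (hz : Uni z) (a : ι → ℕ) : ch z a * conj (ch z a) = 1 := by
  rw [Complex.mul_conj, Complex.normSq_eq_norm_sq, norm_ch hz]
  simp

variable {H : Type} [NormedAddCommGroup H] [InnerProductSpace ℂ H]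

/-- the twisted operators -/
noncomputable def U (S : (ι → ℕ) → H →ₗᵢ[ℂ] H) (z : ι → ℂ) (hz : Uni z) (a : ι → ℕ) :
    H →ₗᵢ[ℂ] H where
  toLinearMap := conj (ch z a) • (S a).toLinearMap
  norm_map' := by
    intro h
    show ‖conj (ch z a) • S a h‖ = ‖h‖
    rw [norm_smul, RCLike.norm_conj, norm_ch hz, one_mul, LinearIsometry.norm_map]

theorem U_apply (S : (ι → ℕ) → H →ₗᵢ[ℂ] H) (z : ι → ℂ) (hz : Uni z) (a : ι → ℕ) (h : H) :
    U S z hz a h = conj (ch z a) • S a h := rfl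

end

end XHZ

open XHZ in
theorem pr_HZ (hE : ErgS) : StHZ := by
  intro ι _ _ H _ _ _ S hS g hg z hz ε hε
  obtain ⟨e, he1, he2⟩ := hE (ι → ℕ) inferInstance H inferInstance inferInstance inferInstance
    (U S z hz)
    (by
      intro h
      rw [U_apply, ch_zero, map_one, one_smul, hS.1])
    (by
      intro a b h
      rw [U_apply, U_apply, U_apply, ch_add, map_mul, hS.2, map_smul, smul_smul]) g
  have hEig : EigV S z e := by
    intro a
    have h1 := he1 a
    rw [U_apply] at h1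
    calc S a e = (ch z a * conj (ch z a)) • S a e := by rw [ch_mul_conj hz, one_smul]
      _ = ch z a • (conj (ch z a) • S a e) := (smul_smul _ _ _).symm
      _ = ch z a • e := by rw [h1]
  have h0 : inner ℂ e g = 0 := hg z e hz hEig
  have hU : ∀ a, inner ℂ e (U S z hz a g) = 0 := by
    intro a
    calc inner ℂ e (U S z hz a g) = inner ℂ (U S z hz a e) (U S z hz a g) := by rw [he1 a]
      _ = inner ℂ e g := LinearIsometry.inner_map_map _ _ _
      _ = 0 := h0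
  have hez : e = 0 := by
    by_contra hne
    have hpos : 0 < ‖e‖ := norm_pos_iff.2 hne
    obtain ⟨s, c, hc0, hc1, hc2⟩ := he2 (‖e‖ / 2) (by positivity)
    have h1 : inner ℂ e (∑ a ∈ s, (c a : ℂ) • U S z hz a g) = 0 := by
      rw [inner_sum]
      refine Finset.sum_eq_zero fun a _ => ?_
      rw [inner_smul_right, hU a, mul_zero]
    have h2 : inner ℂ e ((∑ a ∈ s, (c a : ℂ) • U S z hz a g) - e) = -inner ℂ e e := by
      rw [inner_sub_right, h1, zero_sub]
    have h3 := norm_inner_le_norm (𝕜 := ℂ) e ((∑ a ∈ s, (c a : ℂ) • U S z hz a g) - e)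
    rw [h2, norm_neg, inner_self_eq_norm_sq_to_K, norm_pow] at h3
    have h4 : ‖((‖e‖ : ℝ) : ℂ)‖ = ‖e‖ := by
      rw [Complex.norm_real, norm_norm]
    have h5 : ‖e‖ ^ 2 ≤ ‖e‖ * (‖e‖ / 2) := by
      calc ‖e‖ ^ 2 = ‖((‖e‖ : ℝ) : ℂ)‖ ^ 2 := by rw [h4]
        _ ≤ ‖e‖ * ‖(∑ a ∈ s, (c a : ℂ) • U S z hz a g) - e‖ := h3
        _ ≤ ‖e‖ * (‖e‖ / 2) := mul_le_mul_of_nonneg_left hc2 hpos.le
    nlinarith
  obtain ⟨s, c, hc0, hc1, hc2⟩ := he2 ε hε
  refine ⟨s, c, hc0, hc1, ?_⟩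
  rw [hez, sub_zero] at hc2
  exact hc2

end Pool.Agent.F0f91f8.FC
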