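import Pool.Agent.Work.MP_0f91f8_co.FC.StmtsH

/-!
Item MD of block FC: the divisors of `(K!)^K` are almost invariant under multiplication by a prime.
-/

set_option autoImplicit false

namespace Pool.Agent.F0f91f8.FC

open Filter Topology ComplexConjugate
open scoped BigOperators

namespace XMD

/-- the number of divisors not divisible by `q` is small -/
theorem card_bound (K q : ℕ) (hq : q.Prime) (hqK : q ≤ K) :
    (K + 1) * ((K.factorial ^ K).divisors.filter (fun d => ¬ q ∣ d)).card ≤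
      (K.factorial ^ K).divisors.card := by
  have hN : K.factorial ^ K ≠ 0 := pow_ne_zero _ (Nat.factorial_ne_zero K)
  have hqN : q ^ K ∣ K.factorial ^ K :=
    pow_dvd_pow_of_dvd ((Nat.Prime.dvd_factorial hq).mpr hqK) K
  have hinj : Set.InjOn (fun x : ℕ × ℕ => q ^ x.1 * x.2)
      ((Finset.range (K + 1) ×ˢ (K.factorial ^ K).divisors.filter (fun d => ¬ q ∣ d) :
        Finset (ℕ × ℕ)) : Set (ℕ × ℕ)) := by
    rintro ⟨i, d⟩ hx ⟨j, e⟩ hy hxy
    rw [Finset.mem_coe, Finset.mem_product, Finset.mem_filter] at hx hy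
    have hd : ¬ q ∣ d := hx.2.2
    have he : ¬ q ∣ e := hy.2.2
    have h : q ^ i * d = q ^ j * e := hxy
    have hq0 : ∀ k : ℕ, 0 < q ^ k := fun k => pow_pos hq.pos k
    rcases lt_trichotomy i j with hij | hij | hij
    · exfalso
      obtain ⟨k, rfl⟩ := Nat.exists_eq_add_of_lt hij
      have h2 : q ^ i * d = q ^ i * (q ^ (k + 1) * e) := by
        rw [h]; ring
      have h3 := Nat.eq_of_mul_eq_mul_left (hq0 i) h2
      apply hd
      rw [h3, pow_succ, mul_assoc]
      exact Dvd.dvd.mul_left (Dvd.intro _ rfl) _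
    · subst hij
      have h3 := Nat.eq_of_mul_eq_mul_left (hq0 i) h
      rw [h3]
    · exfalso
      obtain ⟨k, rfl⟩ := Nat.exists_eq_add_of_lt hij
      have h2 : q ^ j * (q ^ (k + 1) * d) = q ^ j * e := by
        rw [← h]; ring
      have h3 := Nat.eq_of_mul_eq_mul_left (hq0 j) h2
      apply he
      rw [← h3, pow_succ, mul_assoc]
      exact Dvd.dvd.mul_left (Dvd.intro _ rfl) _
  have hmaps : ∀ x ∈ (Finset.range (K + 1) ×ˢ (K.factorial ^ K).divisors.filter
      (fun d => ¬ q ∣ d) : Finset (ℕ × ℕ)), q ^ x.1 * x.2 ∈ (K.factorial ^ K).divisors := by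
    rintro ⟨i, d⟩ hx
    rw [Finset.mem_product, Finset.mem_filter, Finset.mem_range, Nat.mem_divisors] at hx
    rw [Nat.mem_divisors]
    refine ⟨?_, hN⟩
    have h1 : q ^ i ∣ K.factorial ^ K := dvd_trans (pow_dvd_pow q (by omega)) hqN
    have hc : Nat.Coprime (q ^ i) d := by
      apply Nat.Coprime.pow_left
      exact (Nat.Prime.coprime_iff_not_dvd hq).mpr hx.2.2
    exact Nat.Coprime.mul_dvd_of_dvd_of_dvd hc h1 hx.2.1.1
  have h := Finset.card_le_card_of_injOn _ hmaps hinj
  rw [Finset.card_product, Finset.card_range] at h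
  exact h

theorem diff_bound (s t : Finset ℕ) (f : ℕ → ℝ) (C : ℝ) (hf : ∀ n, |f n| ≤ C)
    (hst : s.card = t.card) :
    |∑ d ∈ s, f d - ∑ d ∈ t, f d| ≤ 2 * C * ((t \ s).card : ℝ) := by
  have h1 : ∑ d ∈ s, f d - ∑ d ∈ t, f d = ∑ d ∈ s \ t, f d - ∑ d ∈ t \ s, f d := by
    exact (Finset.sum_sdiff_sub_sum_sdiff).symm
  have hc : (s \ t).card = (t \ s).card := Finset.card_sdiff_comm hst
  have hb : ∀ u : Finset ℕ, |∑ d ∈ u, f d| ≤ C * (u.card : ℝ) := by
    intro u
    calc |∑ d ∈ u, f d| ≤ ∑ d ∈ u, |f d| := Finset.abs_sum_le_sum_abs _ _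
      _ ≤ ∑ _d ∈ u, C := Finset.sum_le_sum fun d _ => hf d
      _ = C * (u.card : ℝ) := by rw [Finset.sum_const, nsmul_eq_mul, mul_comm]
  rw [h1]
  have h2 := hb (s \ t)
  have h3 := hb (t \ s)
  rw [hc] at h2
  have h4 := abs_sub (∑ d ∈ s \ t, f d) (∑ d ∈ t \ s, f d)
  linarith

end XMD

theorem pr_MD : StMD := by
  intro K q hq hqK f C hf
  have hC : 0 ≤ C := le_trans (abs_nonneg _) (hf 0)
  have hN : K.factorial ^ K ≠ 0 := pow_ne_zero _ (Nat.factorial_ne_zero K)
  have hD : 0 < ((K.factorial ^ K).divisors.card : ℝ) := by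
    have : 0 < (K.factorial ^ K).divisors.card :=
      Finset.card_pos.mpr ⟨1, Nat.mem_divisors.mpr ⟨one_dvd _, hN⟩⟩
    exact_mod_cast this
  have hinj : Function.Injective (fun d : ℕ => q * d) := fun a b hab =>
    Nat.eq_of_mul_eq_mul_left hq.pos hab
  have hsum : ∑ d ∈ (K.factorial ^ K).divisors, f (q * d) =
      ∑ d ∈ (K.factorial ^ K).divisors.image (fun d => q * d), f d := by
    rw [Finset.sum_image]
    exact fun a _ b _ hab => hinj hab
  have hcard : ((K.factorial ^ K).divisors.image (fun d => q * d)).card =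
      (K.factorial ^ K).divisors.card := Finset.card_image_of_injective _ hinj
  have h1 := XMD.diff_bound ((K.factorial ^ K).divisors.image (fun d => q * d))
    (K.factorial ^ K).divisors f C hf hcard
  have h2 : ((K.factorial ^ K).divisors \ (K.factorial ^ K).divisors.image (fun d => q * d)).card ≤
      ((K.factorial ^ K).divisors.filter (fun d => ¬ q ∣ d)).card := by
    apply Finset.card_le_card
    intro d hd
    rw [Finset.mem_sdiff] at hd
    rw [Finset.mem_filter]
    refine ⟨hd.1, ?_⟩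
    rintro ⟨e, rfl⟩
    apply hd.2
    rw [Finset.mem_image]
    refine ⟨e, ?_, rfl⟩
    rw [Nat.mem_divisors] at hd ⊢
    exact ⟨dvd_trans (Dvd.intro_left _ rfl) hd.1.1, hN⟩
  have h3 := XMD.card_bound K q hq hqK
  have h4 : ((K : ℝ) + 1) * (((K.factorial ^ K).divisors \
      (K.factorial ^ K).divisors.image (fun d => q * d)).card : ℝ) ≤
      ((K.factorial ^ K).divisors.card : ℝ) := by
    have h5 : (K + 1) * ((K.factorial ^ K).divisors \
      (K.factorial ^ K).divisors.image (fun d => q * d)).card ≤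
        (K.factorial ^ K).divisors.card := le_trans (Nat.mul_le_mul_left _ h2) h3
    exact_mod_cast h5
  unfold dK
  rw [hsum, ← sub_div, abs_div, abs_of_pos hD, div_le_div_iff₀ hD (by positivity)]
  have hK : (0 : ℝ) < (K : ℝ) + 1 := by positivity
  calc |∑ d ∈ (K.factorial ^ K).divisors.image (fun d => q * d), f d -
        ∑ d ∈ (K.factorial ^ K).divisors, f d| * ((K : ℝ) + 1)
      ≤ (2 * C * (((K.factorial ^ K).divisors \
      (K.factorial ^ K).divisors.image (fun d => q * d)).card : ℝ)) * ((K : ℝ) + 1) :=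
        mul_le_mul_of_nonneg_right h1 hK.le
    _ = 2 * C * (((K : ℝ) + 1) * (((K.factorial ^ K).divisors \
      (K.factorial ^ K).divisors.image (fun d => q * d)).card : ℝ)) := by ring
    _ ≤ 2 * C * ((K.factorial ^ K).divisors.card : ℝ) :=
        mul_le_mul_of_nonneg_left h4 (by positivity)

end Pool.Agent.F0f91f8.FC
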