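import Pool.Agent.Work.MP_0f91f8_co.FC.StmtsH

set_option autoImplicit false

open Filter Topology

namespace Pool.Agent.F0f91f8.FC

namespace XML

/-- the free ultrafilter as a filter -/
noncomputable def U : Filter ℕ := (Filter.hyperfilter ℕ : Filter ℕ)

instance : NeBot U := by unfold U; infer_instance

/-- bounded functions have limits along the ultrafilter -/
theorem ex_lim (f : ℕ → ℝ) (hf : BdR f) : ∃ c : ℝ, Tendsto f U (𝓝 c) := by
  obtain ⟨C, hC⟩ := hf
  have h1 : (↑((Filter.hyperfilter ℕ).map f) : Filter ℝ) ≤ 𝓟 (Set.Icc (-C) C) := by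
    rw [Filter.le_principal_iff, Ultrafilter.mem_coe, Ultrafilter.mem_map]
    exact Filter.mem_of_superset Filter.univ_mem fun n _ => abs_le.1 (hC n)
  obtain ⟨x, _, hx⟩ := (isCompact_Icc (a := -C) (b := C)).ultrafilter_le_nhds _ h1
  exact ⟨x, hx⟩

theorem lim_spec (f : ℕ → ℝ) (hf : BdR f) : Tendsto f U (𝓝 (limUnder U f)) :=
  tendsto_nhds_limUnder (ex_lim f hf)

theorem bdR_add (f g : ℕ → ℝ) (hf : BdR f) (hg : BdR g) : BdR (fun n => f n + g n) := by
  obtain ⟨C, hC⟩ := hf
  obtain ⟨D, hD⟩ := hg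
  exact ⟨C + D, fun n => (abs_add_le _ _).trans (add_le_add (hC n) (hD n))⟩

theorem bdR_smul (c : ℝ) (f : ℕ → ℝ) (hf : BdR f) : BdR (fun n => c * f n) := by
  obtain ⟨C, hC⟩ := hf
  refine ⟨|c| * C, fun n => ?_⟩
  rw [abs_mul]
  exact mul_le_mul_of_nonneg_left (hC n) (abs_nonneg c)

end XML

open XML in
/-- ML: generalised limits. -/
theorem pr_ML : StML := by
  refine ⟨fun f => limUnder U f, ?_, ?_, ?_, ?_⟩
  · intro f g hf hg
    exact ((lim_spec f hf).add (lim_spec g hg)).limUnder_eq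
  · intro c f hf
    exact ((lim_spec f hf).const_mul c).limUnder_eq
  · intro f hf h0
    exact ge_of_tendsto' (lim_spec f hf) h0
  · intro f c hf
    refine Tendsto.limUnder_eq ?_
    exact hf.mono_left (Nat.hyperfilter_le_atTop)

end Pool.Agent.F0f91f8.FC
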