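import Pool.Agent.Work.MP_0f91f8_co.FC.StmtsH

set_option autoImplicit false

open Filter Topology

namespace Pool.Agent.F0f91f8.FC

namespace XMM

theorem fac_ne (K : ℕ) : (K.factorial ^ K) ≠ 0 := pow_ne_zero _ (Nat.factorial_ne_zero K)

theorem card_pos (K : ℕ) : (0 : ℝ) < ((K.factorial ^ K).divisors.card : ℝ) := by
  have : 0 < (K.factorial ^ K).divisors.card :=
    Finset.card_pos.2 ⟨1, Nat.mem_divisors.2 ⟨one_dvd _, fac_ne K⟩⟩
  exact_mod_cast this

theorem dK_add (K : ℕ) (f g : ℕ → ℝ) : dK K (fun n => f n + g n) = dK K f + dK K g := by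
  unfold dK
  rw [Finset.sum_add_distrib, add_div]

theorem dK_smul (K : ℕ) (c : ℝ) (f : ℕ → ℝ) : dK K (fun n => c * f n) = c * dK K f := by
  unfold dK
  rw [← Finset.mul_sum, mul_div_assoc]

theorem dK_one (K : ℕ) : dK K (fun _ => 1) = 1 := by
  unfold dK
  rw [Finset.sum_const, nsmul_eq_mul, mul_one, div_self (card_pos K).ne']

theorem dK_nonneg (K : ℕ) (f : ℕ → ℝ) (hf : ∀ n, 0 < n → 0 ≤ f n) : 0 ≤ dK K f := by
  unfold dK
  refine div_nonneg (Finset.sum_nonneg fun d hd => hf d (Nat.pos_of_mem_divisors hd)) ?_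
  exact (card_pos K).le

theorem dK_abs (K : ℕ) (f : ℕ → ℝ) (C : ℝ) (hf : ∀ n, |f n| ≤ C) : |dK K f| ≤ C := by
  unfold dK
  rw [abs_div, abs_of_pos (card_pos K), div_le_iff₀ (card_pos K)]
  calc |∑ d ∈ (K.factorial ^ K).divisors, f d| ≤ ∑ d ∈ (K.factorial ^ K).divisors, |f d| :=
        Finset.abs_sum_le_sum_abs _ _
    _ ≤ ∑ d ∈ (K.factorial ^ K).divisors, C := Finset.sum_le_sum fun d _ => hf d
    _ = C * ((K.factorial ^ K).divisors.card : ℝ) := by
        rw [Finset.sum_const, nsmul_eq_mul, mul_comm]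

theorem bd (f : ℕ → ℝ) (hf : BdR f) : BdR (fun K => dK K f) := by
  obtain ⟨C, hC⟩ := hf
  exact ⟨C, fun K => dK_abs K f C hC⟩

end XMM

open XMM in
/-- MM: dilation invariant means exist. -/
theorem pr_MM (hL : StML) (hD : StMD) : StMM := by
  obtain ⟨Φ, h1, h2, h3, h4⟩ := hL
  have hpr : ∀ q : ℕ, q.Prime → ∀ f, BdR f →
      Φ (fun K => dK K (fun n => f (q * n))) = Φ (fun K => dK K f) := by
    intro q hq f hf
    obtain ⟨C, hC⟩ := hf
    have hfq : BdR (fun n => f (q * n)) := ⟨C, fun n => hC _⟩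
    have ht : Tendsto (fun K => dK K (fun n => f (q * n)) + (-1) * dK K f) atTop (𝓝 0) := by
      have hlim : Tendsto (fun K : ℕ => 2 * C / ((K : ℝ) + 1)) atTop (𝓝 0) := by
        have := (tendsto_one_div_add_atTop_nhds_zero_nat (𝕜 := ℝ)).const_mul (2 * C)
        simpa [div_eq_mul_inv] using this
      refine squeeze_zero_norm' ?_ hlim
      filter_upwards [eventually_ge_atTop q] with K hK
      have := hD K q hq hK f C hC
      rw [Real.norm_eq_abs, neg_one_mul, ← sub_eq_add_neg]
      exact this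
    have e1 := h4 _ 0 ht
    rw [h1 _ _ (bd _ hfq) (by
      obtain ⟨D, hD'⟩ := bd f ⟨C, hC⟩
      exact ⟨D, fun n => by
        show |(-1) * dK n f| ≤ D
        rw [neg_one_mul, abs_neg]; exact hD' n⟩), h2 _ _ (bd f ⟨C, hC⟩)] at e1
    linarith
  refine ⟨fun f => Φ (fun K => dK K f), ?_, ?_, ?_, ?_, ?_⟩
  · intro f g hf hg
    simp only [dK_add]
    exact h1 _ _ (bd f hf) (bd g hg)
  · intro c f hf
    simp only [dK_smul]
    exact h2 _ _ (bd f hf)
  · intro f hf h0
    exact h3 _ (bd f hf) fun K => dK_nonneg K f h0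
  · simp only [dK_one]
    exact h4 _ 1 tendsto_const_nhds
  · intro k
    induction k using Nat.recOnMul with
    | zero => intro h; exact absurd h (lt_irrefl 0)
    | one => intro _ f _; simp only [one_mul]
    | prime p hp => intro _ f hf; exact hpr p hp f hf
    | mul a b iha ihb =>
      intro hab f hf
      have ha : 0 < a := Nat.pos_of_mul_pos_right hab |> fun h => by
        rcases Nat.eq_zero_or_pos a with h0 | h0
        · subst h0; simp at hab
        · exact h0
      have hb : 0 < b := by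
        rcases Nat.eq_zero_or_pos b with h0 | h0
        · subst h0; simp at hab
        · exact h0
      have hfa : BdR (fun n => f (a * n)) := by
        obtain ⟨C, hC⟩ := hf
        exact ⟨C, fun n => hC _⟩
      have e1 := ihb hb (fun n => f (a * n)) hfa
      have e2 := iha ha f hf
      simp only [mul_assoc]
      exact e1.trans e2

end Pool.Agent.F0f91f8.FC
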