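import Pool.Agent.Work.MP_0f91f8_co.FC.StmtsH

/-!
# Block FC, module H, item RA: calculus of the complex mean
-/

set_option autoImplicit false

namespace Pool.Agent.F0f91f8.FC

open Filter Topology ComplexConjugate

namespace XRA

variable {m : (ℕ → ℝ) → ℝ}

theorem bre {F : ℕ → ℂ} (hF : BdC F) : BdR fun n => (F n).re := by
  obtain ⟨C, hC⟩ := hF
  exact ⟨C, fun n => (Complex.abs_re_le_norm _).trans (hC n)⟩

theorem bim {F : ℕ → ℂ} (hF : BdC F) : BdR fun n => (F n).im := by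
  obtain ⟨C, hC⟩ := hF
  exact ⟨C, fun n => (Complex.abs_im_le_norm _).trans (hC n)⟩

theorem badd {f g : ℕ → ℝ} (hf : BdR f) (hg : BdR g) : BdR fun n => f n + g n := by
  obtain ⟨C, hC⟩ := hf
  obtain ⟨D, hD⟩ := hg
  exact ⟨C + D, fun n => (abs_add_le _ _).trans (add_le_add (hC n) (hD n))⟩

theorem bsmul (c : ℝ) {f : ℕ → ℝ} (hf : BdR f) : BdR fun n => c * f n := by
  obtain ⟨C, hC⟩ := hf
  refine ⟨|c| * C, fun n => ?_⟩
  rw [abs_mul]
  exact mul_le_mul_of_nonneg_left (hC n) (abs_nonneg _)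

theorem bconst (c : ℝ) : BdR fun _ => c := ⟨|c|, fun _ => le_rfl⟩

theorem badC {f g : ℕ → ℂ} (hf : BdC f) (hg : BdC g) : BdC fun n => f n + g n := by
  obtain ⟨C, hC⟩ := hf
  obtain ⟨D, hD⟩ := hg
  exact ⟨C + D, fun n => (norm_add_le _ _).trans (add_le_add (hC n) (hD n))⟩

theorem bsmC (c : ℂ) {f : ℕ → ℂ} (hf : BdC f) : BdC fun n => c * f n := by
  obtain ⟨C, hC⟩ := hf
  refine ⟨‖c‖ * C, fun n => ?_⟩
  rw [norm_mul]
  exact mul_le_mul_of_nonneg_left (hC n) (norm_nonneg _)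

theorem bmuC {f g : ℕ → ℂ} (hf : BdC f) (hg : BdC g) : BdC fun n => f n * g n := by
  obtain ⟨C, hC⟩ := hf
  obtain ⟨D, hD⟩ := hg
  refine ⟨C * D, fun n => ?_⟩
  rw [norm_mul]
  exact mul_le_mul (hC n) (hD n) (norm_nonneg _) ((norm_nonneg _).trans (hC n))

theorem bsq {F : ℕ → ℂ} (hF : BdC F) : BdR fun n => ‖F n‖ ^ 2 := by
  obtain ⟨C, hC⟩ := hF
  refine ⟨C ^ 2, fun n => ?_⟩
  rw [abs_of_nonneg (by positivity)]
  exact pow_le_pow_left₀ (norm_nonneg _) (hC n) 2

theorem m_const (hm : IsMean m) (c : ℝ) : m (fun _ => c) = c := by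
  have h := hm.2.1 c (fun _ => 1) (bconst 1)
  simp only [mul_one] at h
  rw [h, hm.2.2.2.1, mul_one]

theorem m_neg (hm : IsMean m) {f : ℕ → ℝ} (hf : BdR f) : m (fun n => -f n) = -m f := by
  have h := hm.2.1 (-1) f hf
  simp only [neg_one_mul] at h
  exact h

theorem m_mono (hm : IsMean m) {f g : ℕ → ℝ} (hf : BdR f) (hg : BdR g)
    (h : ∀ n, 0 < n → f n ≤ g n) : m f ≤ m g := by
  have h1 := hm.2.2.1 (fun n => g n + (-1) * f n) (badd hg (bsmul _ hf)) (fun n hn => by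
    have := h n hn
    linarith)
  rw [hm.1 g (fun n => (-1) * f n) hg (bsmul _ hf), hm.2.1 (-1) f hf] at h1
  linarith

theorem c_add (hm : IsMean m) {F G : ℕ → ℂ} (hF : BdC F) (hG : BdC G) :
    mC m (fun n => F n + G n) = mC m F + mC m G := by
  unfold mC
  simp only [Complex.add_re, Complex.add_im]
  rw [hm.1 _ _ (bre hF) (bre hG), hm.1 _ _ (bim hF) (bim hG)]
  push_cast
  ring

theorem c_smul (hm : IsMean m) (c : ℂ) {F : ℕ → ℂ} (hF : BdC F) :
    mC m (fun n => c * F n) = c * mC m F := by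
  have e1 : m (fun n => (c * F n).re) = c.re * m (fun n => (F n).re) +
      (-c.im) * m (fun n => (F n).im) := by
    rw [← hm.2.1 c.re _ (bre hF), ← hm.2.1 (-c.im) _ (bim hF),
      ← hm.1 _ _ (bsmul _ (bre hF)) (bsmul _ (bim hF))]
    congr 1
    funext n
    rw [Complex.mul_re]
    ring
  have e2 : m (fun n => (c * F n).im) = c.re * m (fun n => (F n).im) +
      c.im * m (fun n => (F n).re) := by
    rw [← hm.2.1 c.re _ (bim hF), ← hm.2.1 c.im _ (bre hF),
      ← hm.1 _ _ (bsmul _ (bim hF)) (bsmul _ (bre hF))]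
    rfl
  unfold mC
  rw [e1, e2]
  apply Complex.ext
  · simp
    ring
  · simp

theorem c_conj (hm : IsMean m) {F : ℕ → ℂ} (hF : BdC F) :
    mC m (fun n => conj (F n)) = conj (mC m F) := by
  unfold mC
  simp only [Complex.conj_re, Complex.conj_im]
  rw [m_neg hm (bim hF)]
  apply Complex.ext <;> simp

theorem c_real (hm : IsMean m) (f : ℕ → ℝ) : mC m (fun n => (f n : ℂ)) = (m f : ℂ) := by
  unfold mC
  simp only [Complex.ofReal_re, Complex.ofReal_im]
  rw [m_const hm 0]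
  simp

theorem c_le (hm : IsMean m) {F : ℕ → ℂ} (hF : BdC F) {g : ℕ → ℝ} (hg : BdR g)
    (h : ∀ n, 0 < n → ‖F n‖ ≤ g n) : ‖mC m F‖ ≤ m g := by
  rcases eq_or_ne (mC m F) 0 with h0 | h0
  · rw [h0, norm_zero, ← m_const hm 0]
    exact m_mono hm (bconst 0) hg (fun n hn => (norm_nonneg _).trans (h n hn))
  · have hn0 : (‖mC m F‖ : ℂ) ≠ 0 := by
      rw [Complex.ofReal_ne_zero]
      exact norm_ne_zero_iff.mpr h0
    set w := mC m F with hw
    set u : ℂ := conj w / (‖w‖ : ℂ) with hu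
    have hu1 : ‖u‖ = 1 := by
      rw [hu, norm_div, RCLike.norm_conj, Complex.norm_real, norm_norm]
      exact div_self (norm_ne_zero_iff.mpr h0)
    have huw : u * w = (‖w‖ : ℂ) := by
      rw [hu, div_mul_eq_mul_div, mul_comm (conj w) w, Complex.mul_conj, Complex.normSq_eq_norm_sq]
      push_cast
      field_simp
    have h1 : mC m (fun n => u * F n) = (‖w‖ : ℂ) := by rw [c_smul hm u hF, huw]
    have h2 : m (fun n => (u * F n).re) = ‖w‖ := by
      have h3 := congrArg Complex.re h1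
      unfold mC at h3
      simp only [Complex.add_re, Complex.ofReal_re, Complex.mul_re, Complex.ofReal_im,
        Complex.I_re, Complex.I_im, mul_zero, zero_mul, sub_zero, add_zero] at h3
      exact h3
    rw [← h2]
    refine m_mono hm (bre (bsmC u hF)) hg (fun n hn => ?_)
    refine (Complex.re_le_norm _).trans ?_
    rw [norm_mul, hu1, one_mul]
    exact h n hn

theorem c_bound (hm : IsMean m) {F : ℕ → ℂ} (hF : BdC F) (C : ℝ)
    (h : ∀ n, 0 < n → ‖F n‖ ≤ C) : ‖mC m F‖ ≤ C := by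
  have h1 := c_le hm hF (bconst C) h
  rwa [m_const hm C] at h1

theorem c_congr (hm : IsMean m) {F G : ℕ → ℂ} (hF : BdC F) (hG : BdC G)
    (h : ∀ n, 0 < n → F n = G n) : mC m F = mC m G := by
  have h1 := c_bound hm (badC hF (bsmC (-1) hG)) 0 (fun n hn => by
    rw [h n hn]
    simp)
  rw [c_add hm hF (bsmC (-1) hG), c_smul hm (-1) hG] at h1
  have h2 := norm_le_zero_iff.mp h1
  linear_combination h2

theorem c_cs (hm : IsMean m) (b F G : ℕ → ℂ) (C : ℝ) (hb : ∀ n, ‖b n‖ ≤ C) (hF : BdC F)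
    (hG : BdC G) : ‖mC m (fun n => b n * F n * G n)‖ ≤
      C * Real.sqrt (m fun n => ‖F n‖ ^ 2) * Real.sqrt (m fun n => ‖G n‖ ^ 2) := by
  have hC : 0 ≤ C := (norm_nonneg _).trans (hb 0)
  have hbC : BdC b := ⟨C, hb⟩
  set A := m fun n => ‖F n‖ ^ 2 with hA
  set B := m fun n => ‖G n‖ ^ 2 with hB
  have hA0 : 0 ≤ A := hm.2.2.1 _ (bsq hF) (fun n _ => by positivity)
  have hB0 : 0 ≤ B := hm.2.2.1 _ (bsq hG) (fun n _ => by positivity)
  set X := ‖mC m (fun n => b n * F n * G n)‖ with hX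
  have hX0 : 0 ≤ X := norm_nonneg _
  have key : ∀ t : ℝ, 0 < t → X ≤ (C * t / 2) * A + (C / (2 * t)) * B := by
    intro t ht
    rw [hA, hB, ← hm.2.1 _ _ (bsq hF), ← hm.2.1 _ _ (bsq hG),
      ← hm.1 _ _ (bsmul _ (bsq hF)) (bsmul _ (bsq hG))]
    refine c_le hm (bmuC (bmuC hbC hF) hG) (badd (bsmul _ (bsq hF)) (bsmul _ (bsq hG)))
      (fun n _ => ?_)
    rw [norm_mul, norm_mul]
    have h1 : ‖b n‖ * ‖F n‖ * ‖G n‖ ≤ C * ‖F n‖ * ‖G n‖ := by
      have := hb n
      gcongr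
    refine h1.trans ?_
    have e : C * t / 2 * ‖F n‖ ^ 2 + C / (2 * t) * ‖G n‖ ^ 2 - C * ‖F n‖ * ‖G n‖ =
        C / (2 * t) * (t * ‖F n‖ - ‖G n‖) ^ 2 := by
      field_simp
      ring
    have e2 : 0 ≤ C / (2 * t) * (t * ‖F n‖ - ‖G n‖) ^ 2 := by positivity
    linarith
  have hq : ∀ t : ℝ, 0 ≤ (C * A) * (t * t) + (-(2 * X)) * t + C * B := by
    intro t
    rcases lt_or_ge 0 t with ht | ht
    · have h1 := key t ht
      have h2 : X * (2 * t) ≤ (C * t / 2 * A + C / (2 * t) * B) * (2 * t) :=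
        mul_le_mul_of_nonneg_right h1 (by positivity)
      have e : (C * t / 2 * A + C / (2 * t) * B) * (2 * t) = C * A * (t * t) + C * B := by
        field_simp
      rw [e] at h2
      linarith
    · have h1 : 0 ≤ (C * A) * (t * t) := mul_nonneg (mul_nonneg hC hA0) (mul_self_nonneg t)
      have h2 : 0 ≤ C * B := mul_nonneg hC hB0
      have h3 : 0 ≤ (-(2 * X)) * t := mul_nonneg_of_nonpos_of_nonpos (by linarith) ht
      linarith
  have hd := discrim_le_zero hq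
  unfold discrim at hd
  have h4 : X ^ 2 ≤ (C * Real.sqrt A * Real.sqrt B) ^ 2 := by
    rw [mul_pow, mul_pow, Real.sq_sqrt hA0, Real.sq_sqrt hB0]
    nlinarith
  exact le_of_sq_le_sq h4 (by positivity)

end XRA

open XRA in
theorem pr_RA : StRA := by
  intro m hm
  refine ⟨fun F G hF hG => c_add hm hF hG, fun c F hF => c_smul hm c hF,
    fun F hF => c_conj hm hF, fun f => c_real hm f, ?_, fun F hF C h => c_bound hm hF C h,
    fun F G hF hG h => c_congr hm hF hG h, fun b F G C hb hF hG => c_cs hm b F G C hb hF hG⟩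
  intro k hk F hF
  unfold mC
  rw [hm.2.2.2.2 k hk (fun n => (F n).re) (bre hF), hm.2.2.2.2 k hk (fun n => (F n).im) (bim hF)]

end Pool.Agent.F0f91f8.FC
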