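import Pool.Agent.Work.MP_0f91f8_co.FC.StmtsH

/-!
# Block FC, module H, item RB: the Hilbert space of a mean (`RepS` from `StRA`) (helper79)
-/

set_option autoImplicit false

namespace Pool.Agent.F0f91f8.FC

open Filter Topology ComplexConjugate
open Pool.Agent.F0f91f8.HD
open scoped BigOperators

namespace XRB

lemma bd_add {F G : ℕ → ℂ} (hF : BdC F) (hG : BdC G) : BdC (fun n => F n + G n) := by
  obtain ⟨A, hA⟩ := hF
  obtain ⟨B, hB⟩ := hG
  exact ⟨A + B, fun n => (norm_add_le _ _).trans (add_le_add (hA n) (hB n))⟩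

lemma bd_mul {F G : ℕ → ℂ} (hF : BdC F) (hG : BdC G) : BdC (fun n => F n * G n) := by
  obtain ⟨A, hA⟩ := hF
  obtain ⟨B, hB⟩ := hG
  refine ⟨A * B, fun n => ?_⟩
  rw [norm_mul]
  exact mul_le_mul (hA n) (hB n) (norm_nonneg _) ((norm_nonneg _).trans (hA n))

lemma bd_const (c : ℂ) : BdC (fun _ => c) := ⟨‖c‖, fun _ => le_refl _⟩

lemma bd_smul (c : ℂ) {F : ℕ → ℂ} (hF : BdC F) : BdC (fun n => c * F n) :=
  bd_mul (bd_const c) hF

lemma bd_conj {F : ℕ → ℂ} (hF : BdC F) : BdC (fun n => conj (F n)) := by
  obtain ⟨A, hA⟩ := hF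
  exact ⟨A, fun n => by rw [RCLike.norm_conj]; exact hA n⟩

lemma bd_dil {F : ℕ → ℂ} (hF : BdC F) (k : ℕ) : BdC (fun n => F (k * n)) := by
  obtain ⟨A, hA⟩ := hF
  exact ⟨A, fun n => hA _⟩

/-- bounded functions -/
def Vb : Submodule ℂ (ℕ → ℂ) where
  carrier := {F | BdC F}
  add_mem' := fun hF hG => bd_add hF hG
  zero_mem' := bd_const 0
  smul_mem' := fun c _ hF => bd_smul c hF

variable (m : (ℕ → ℝ) → ℝ) (hm : IsMean m) (hA : StRA)

/-- type synonym -/
def VM (m : (ℕ → ℝ) → ℝ) (_ : IsMean m) (_ : StRA) : Type := Vb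

instance : AddCommGroup (VM m hm hA) := inferInstanceAs (AddCommGroup Vb)
noncomputable instance : Module ℂ (VM m hm hA) := inferInstanceAs (Module ℂ Vb)

/-- the function -/
def fn (F : VM m hm hA) : ℕ → ℂ := (show Vb from F).1

/-- the element -/
def el (F : ℕ → ℂ) (hF : BdC F) : VM m hm hA := (show Vb from ⟨F, hF⟩)

lemma fn_bd (F : VM m hm hA) : BdC (fn m hm hA F) := (show Vb from F).2

lemma fn_add (F G : VM m hm hA) (n : ℕ) :
    fn m hm hA (F + G) n = fn m hm hA F n + fn m hm hA G n := rfl

lemma fn_smul (c : ℂ) (F : VM m hm hA) (n : ℕ) :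
    fn m hm hA (c • F) n = c * fn m hm hA F n := rfl

lemma fn_el (F : ℕ → ℂ) (hF : BdC F) : fn m hm hA (el m hm hA F hF) = F := rfl

lemma el_fn (F : VM m hm hA) : el m hm hA (fn m hm hA F) (fn_bd m hm hA F) = F := rfl

lemma ext {F G : VM m hm hA} (h : fn m hm hA F = fn m hm hA G) : F = G := by
  apply Subtype.ext
  exact h

/-- the positive semidefinite form -/
noncomputable abbrev core : PreInnerProductSpace.Core ℂ (VM m hm hA) where
  inner F G := mC m (fun n => conj (fn m hm hA F n) * fn m hm hA G n)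
  conj_inner_symm F G := by
    rw [← (hA m hm).2.2.1 _ (bd_mul (bd_conj (fn_bd m hm hA G)) (fn_bd m hm hA F))]
    congr 1
    funext n
    rw [map_mul, Complex.conj_conj, mul_comm]
  re_inner_nonneg F := by
    have h : (fun n => conj (fn m hm hA F n) * fn m hm hA F n) =
        fun n => ((‖fn m hm hA F n‖ ^ 2 : ℝ) : ℂ) := by
      funext n
      rw [mul_comm, Complex.mul_conj, Complex.normSq_eq_norm_sq]
    show 0 ≤ RCLike.re (mC m (fun n => conj (fn m hm hA F n) * fn m hm hA F n))
    rw [h, (hA m hm).2.2.2.1]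
    show 0 ≤ ((m _ : ℝ) : ℂ).re
    rw [Complex.ofReal_re]
    apply hm.2.2.1
    · obtain ⟨A, hA'⟩ := fn_bd m hm hA F
      refine ⟨A ^ 2, fun n => ?_⟩
      rw [abs_of_nonneg (by positivity)]
      exact pow_le_pow_left₀ (norm_nonneg _) (hA' n) 2
    · intro n _
      positivity
  add_left F G K := by
    rw [← (hA m hm).1 _ _ (bd_mul (bd_conj (fn_bd m hm hA F)) (fn_bd m hm hA K))
      (bd_mul (bd_conj (fn_bd m hm hA G)) (fn_bd m hm hA K))]
    congr 1
    funext n
    rw [fn_add, map_add]
    ring
  smul_left F G c := by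
    rw [← (hA m hm).2.1 _ _ (bd_mul (bd_conj (fn_bd m hm hA F)) (fn_bd m hm hA G))]
    congr 1
    funext n
    rw [fn_smul, map_mul]
    ring

noncomputable instance : SeminormedAddCommGroup (VM m hm hA) :=
  InnerProductSpace.Core.toSeminormedAddCommGroup (c := core m hm hA)
noncomputable instance : InnerProductSpace ℂ (VM m hm hA) :=
  InnerProductSpace.ofCore (core m hm hA)

lemma inner_def (F G : VM m hm hA) :
    inner ℂ F G = mC m (fun n => conj (fn m hm hA F n) * fn m hm hA G n) := rfl

lemma norm_sq (F : VM m hm hA) : ‖F‖ ^ 2 = m fun n => ‖fn m hm hA F n‖ ^ 2 := by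
  have h1 : ((‖F‖ ^ 2 : ℝ) : ℂ) = inner ℂ F F := by
    rw [inner_self_eq_norm_sq_to_K]
    norm_cast
  have h : (fun n => conj (fn m hm hA F n) * fn m hm hA F n) =
      fun n => ((‖fn m hm hA F n‖ ^ 2 : ℝ) : ℂ) := by
    funext n
    rw [mul_comm, Complex.mul_conj, Complex.normSq_eq_norm_sq]
  rw [inner_def, h, (hA m hm).2.2.2.1] at h1
  exact_mod_cast h1

lemma norm_eq (F : VM m hm hA) : ‖F‖ = Real.sqrt (m fun n => ‖fn m hm hA F n‖ ^ 2) := by
  rw [← norm_sq m hm hA F, Real.sqrt_sq (norm_nonneg _)]

lemma bdR_sq {F : ℕ → ℂ} (hF : BdC F) : BdR (fun n => ‖F n‖ ^ 2) := by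
  obtain ⟨A, hA'⟩ := hF
  refine ⟨A ^ 2, fun n => ?_⟩
  rw [abs_of_nonneg (by positivity)]
  exact pow_le_pow_left₀ (norm_nonneg _) (hA' n) 2

/-- dilation -/
noncomputable def dil (k : ℕ) (hk : 0 < k) : VM m hm hA →ₗᵢ[ℂ] VM m hm hA where
  toFun F := el m hm hA (fun n => fn m hm hA F (k * n)) (bd_dil (fn_bd m hm hA F) k)
  map_add' F G := rfl
  map_smul' c F := rfl
  norm_map' F := by
    show ‖el m hm hA (fun n => fn m hm hA F (k * n)) (bd_dil (fn_bd m hm hA F) k)‖ = ‖F‖
    rw [norm_eq, norm_eq]
    congr 1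
    have := hm.2.2.2.2 k hk (fun n => ‖fn m hm hA F n‖ ^ 2) (bdR_sq (fn_bd m hm hA F))
    exact this

/-- multiplication -/
noncomputable def mulb (b : ℕ → ℂ) (C : ℝ) (hC : ∀ n, ‖b n‖ ≤ C) :
    VM m hm hA →L[ℂ] VM m hm hA :=
  LinearMap.mkContinuous
    { toFun := fun F => el m hm hA (fun n => b n * fn m hm hA F n)
        (bd_mul ⟨C, hC⟩ (fn_bd m hm hA F))
      map_add' := fun F G => by
        apply ext
        funext n
        show b n * (fn m hm hA F n + fn m hm hA G n) =
          b n * fn m hm hA F n + b n * fn m hm hA G n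
        ring
      map_smul' := fun c F => by
        apply ext
        funext n
        show b n * (c * fn m hm hA F n) = c * (b n * fn m hm hA F n)
        ring } C (by
    intro F
    have hC0 : 0 ≤ C := (norm_nonneg _).trans (hC 0)
    show ‖el m hm hA (fun n => b n * fn m hm hA F n) _‖ ≤ C * ‖F‖
    rw [← sq_le_sq₀ (norm_nonneg _) (by positivity), mul_pow, norm_sq, norm_sq,
      ← hm.2.1 _ _ (bdR_sq (fn_bd m hm hA F))]
    have h1 := hm.2.2.1 (fun n => C ^ 2 * ‖fn m hm hA F n‖ ^ 2 +
      (-1) * ‖b n * fn m hm hA F n‖ ^ 2) ?_ ?_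
    · rw [hm.1 (fun n => C ^ 2 * ‖fn m hm hA F n‖ ^ 2)
        (fun n => (-1) * ‖b n * fn m hm hA F n‖ ^ 2), hm.2.1 (-1)] at h1
      · show (m fun n => ‖b n * fn m hm hA F n‖ ^ 2) ≤ _
        linarith
      · exact bdR_sq (bd_mul ⟨C, hC⟩ (fn_bd m hm hA F))
      · obtain ⟨A, hA'⟩ := bdR_sq (fn_bd m hm hA F)
        refine ⟨C ^ 2 * A, fun n => ?_⟩
        rw [abs_mul, abs_of_nonneg (by positivity : (0 : ℝ) ≤ C ^ 2)]
        exact mul_le_mul_of_nonneg_left (hA' n) (by positivity)
      · obtain ⟨A, hA'⟩ := bdR_sq (bd_mul ⟨C, hC⟩ (fn_bd m hm hA F))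
        refine ⟨A, fun n => ?_⟩
        rw [abs_mul]
        simpa using hA' n
    · obtain ⟨A, hA'⟩ := bdR_sq (fn_bd m hm hA F)
      obtain ⟨B, hB'⟩ := bdR_sq (bd_mul ⟨C, hC⟩ (fn_bd m hm hA F))
      refine ⟨C ^ 2 * A + B, fun n => ?_⟩
      refine (abs_add_le _ _).trans (add_le_add ?_ ?_)
      · rw [abs_mul, abs_of_nonneg (by positivity : (0 : ℝ) ≤ C ^ 2)]
        exact mul_le_mul_of_nonneg_left (hA' n) (by positivity)
      · rw [abs_mul]
        simpa using hB' n
    · intro n _
      have : ‖b n * fn m hm hA F n‖ ^ 2 ≤ C ^ 2 * ‖fn m hm hA F n‖ ^ 2 := by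
        rw [norm_mul, mul_pow]
        exact mul_le_mul_of_nonneg_right (pow_le_pow_left₀ (norm_nonneg _) (hC n) 2)
          (by positivity)
      linarith)

/-- conjugation -/
noncomputable def cj : VM m hm hA →SL[starRingEnd ℂ] VM m hm hA :=
  LinearMap.mkContinuous
    { toFun := fun F => el m hm hA (fun n => conj (fn m hm hA F n)) (bd_conj (fn_bd m hm hA F))
      map_add' := fun F G => by
        apply ext
        funext n
        show conj (fn m hm hA F n + fn m hm hA G n) =
          conj (fn m hm hA F n) + conj (fn m hm hA G n)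
        rw [map_add]
      map_smul' := fun c F => by
        apply ext
        funext n
        show conj (c * fn m hm hA F n) = conj c * conj (fn m hm hA F n)
        rw [map_mul] } 1 (by
    intro F
    show ‖el m hm hA (fun n => conj (fn m hm hA F n)) _‖ ≤ 1 * ‖F‖
    rw [one_mul, norm_eq, norm_eq]
    apply le_of_eq
    congr 2
    funext n
    show ‖conj (fn m hm hA F n)‖ ^ 2 = _
    rw [RCLike.norm_conj])

open UniformSpace Completion

/-- the Hilbert space -/
abbrev HM : Type := UniformSpace.Completion (VM m hm hA)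

/-- the dilations -/
noncomputable def TM (k : ℕ) : HM m hm hA →ₗᵢ[ℂ] HM m hm hA :=
  if hk : 0 < k then
    { (dil m hm hA k hk).toContinuousLinearMap.completion.toLinearMap with
      norm_map' := by
        intro x
        show ‖(dil m hm hA k hk).toContinuousLinearMap.completion x‖ = ‖x‖
        induction x using Completion.induction_on with
        | hp => exact isClosed_eq (by fun_prop) (by fun_prop)
        | ih a =>
          rw [ContinuousLinearMap.completion_apply_coe, Completion.norm_coe, Completion.norm_coe]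
          exact (dil m hm hA k hk).norm_map a }
  else LinearIsometry.id

lemma TM_coe (k : ℕ) (hk : 0 < k) (F : VM m hm hA) :
    TM m hm hA k (F : HM m hm hA) = ((dil m hm hA k hk F : VM m hm hA) : HM m hm hA) := by
  unfold TM
  rw [dif_pos hk]
  show (dil m hm hA k hk).toContinuousLinearMap.completion (F : HM m hm hA) = _
  rw [ContinuousLinearMap.completion_apply_coe]
  rfl

open Classical in
/-- the bilinear form -/
noncomputable def BM (b : ℕ → ℂ) (h k : HM m hm hA) : ℂ :=
  if hb : BdC b then
    inner ℂ ((cj m hm hA).completion h) ((mulb m hm hA b hb.choose hb.choose_spec).completion k)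
  else 0

lemma BM_coe (b : ℕ → ℂ) (hb : BdC b) (F G : VM m hm hA) :
    BM m hm hA b (F : HM m hm hA) (G : HM m hm hA) =
      mC m (fun n => b n * fn m hm hA F n * fn m hm hA G n) := by
  unfold BM
  rw [dif_pos hb, ContinuousLinearMap.completion_apply_coe,
    ContinuousLinearMap.completion_apply_coe, Completion.inner_coe, inner_def]
  congr 1
  funext n
  show conj (conj (fn m hm hA F n)) * (b n * fn m hm hA G n) = _
  rw [Complex.conj_conj]
  ring

lemma BM_cont (b : ℕ → ℂ) (hb : BdC b) :
    Continuous fun p : HM m hm hA × HM m hm hA => BM m hm hA b p.1 p.2 := by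
  have : (fun p : HM m hm hA × HM m hm hA => BM m hm hA b p.1 p.2) = fun p =>
      inner ℂ ((cj m hm hA).completion p.1)
        ((mulb m hm hA b hb.choose hb.choose_spec).completion p.2) := by
    funext p
    unfold BM
    rw [dif_pos hb]
  rw [this]
  fun_prop

open Classical in
/-- the class of a function -/
noncomputable def eM (F : ℕ → ℂ) : HM m hm hA :=
  if hF : BdC F then ((el m hm hA F hF : VM m hm hA) : HM m hm hA) else 0

lemma eM_eq (F : ℕ → ℂ) (hF : BdC F) :
    eM m hm hA F = ((el m hm hA F hF : VM m hm hA) : HM m hm hA) := by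
  unfold eM
  rw [dif_pos hF]

end XRB

open XRB in
/-- item RB: the Hilbert space of a mean -/
theorem pr_RB (hA : StRA) : RepS := by
  intro m hm
  refine ⟨{ H := HM m hm hA
            e := eM m hm hA
            T := TM m hm hA
            B := BM m hm hA
            e_add := ?_
            e_smul := ?_
            e_inner := ?_
            T_one := ?_
            T_mul := ?_
            T_e := ?_
            B_add := ?_
            B_smul := ?_
            B_symm := ?_
            B_le := ?_
            B_e := ?_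
            B_T := ?_ }⟩
  · intro F G hF hG
    rw [eM_eq m hm hA _ (bd_add hF hG), eM_eq m hm hA _ hF, eM_eq m hm hA _ hG,
      ← UniformSpace.Completion.coe_add]
    rfl
  · intro c F hF
    rw [eM_eq m hm hA _ (bd_smul c hF), eM_eq m hm hA _ hF, ← UniformSpace.Completion.coe_smul]
    rfl
  · intro F G hF hG
    rw [eM_eq m hm hA _ hF, eM_eq m hm hA _ hG, UniformSpace.Completion.inner_coe, inner_def]
    rfl
  · intro h
    induction h using UniformSpace.Completion.induction_on with
    | hp => exact isClosed_eq (TM m hm hA 1).continuous continuous_id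
    | ih a =>
      rw [TM_coe m hm hA 1 one_pos]
      congr 1
      apply XRB.ext
      funext n
      show fn m hm hA a (1 * n) = _
      rw [one_mul]
  · intro k n hk hn h
    induction h using UniformSpace.Completion.induction_on with
    | hp =>
      exact isClosed_eq (TM m hm hA _).continuous
        ((TM m hm hA k).continuous.comp (TM m hm hA n).continuous)
    | ih a =>
      rw [TM_coe m hm hA n hn, TM_coe m hm hA k hk, TM_coe m hm hA (k * n) (Nat.mul_pos hk hn)]
      congr 1
      apply XRB.ext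
      funext j
      show fn m hm hA a (k * n * j) = fn m hm hA a (n * (k * j))
      congr 1
      ring
  · intro k hk F hF
    rw [eM_eq m hm hA _ hF, eM_eq m hm hA _ (bd_dil hF k), TM_coe m hm hA k hk]
    rfl
  · intro b hb h h' k
    unfold BM
    rw [dif_pos hb, dif_pos hb, dif_pos hb, map_add, inner_add_left]
  · intro b hb c h k
    unfold BM
    rw [dif_pos hb, dif_pos hb, ContinuousLinearMap.map_smulₛₗ, inner_smul_left,
      Complex.conj_conj]
  · intro b hb h k
    induction h, k using UniformSpace.Completion.induction_on₂ with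
    | hp =>
      exact isClosed_eq (BM_cont m hm hA b hb)
        ((BM_cont m hm hA b hb).comp (continuous_snd.prodMk continuous_fst))
    | ih F G =>
      rw [BM_coe m hm hA b hb, BM_coe m hm hA b hb]
      congr 1
      funext n
      ring
  · intro b C hC h k
    have hb : BdC b := ⟨C, hC⟩
    induction h, k using UniformSpace.Completion.induction_on₂ with
    | hp =>
      exact isClosed_le (BM_cont m hm hA b hb).norm (by fun_prop)
    | ih F G =>
      rw [BM_coe m hm hA b hb, UniformSpace.Completion.norm_coe, UniformSpace.Completion.norm_coe,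
        norm_eq, norm_eq]
      exact (hA m hm).2.2.2.2.2.2.2 b _ _ C hC (fn_bd m hm hA F) (fn_bd m hm hA G)
  · intro b F G hb hF hG
    rw [eM_eq m hm hA _ hF, eM_eq m hm hA _ hG, BM_coe m hm hA b hb]
    rfl
  · intro b hb n hn h k
    have hb' : BdC (fun j => b (n * j)) := bd_dil hb n
    induction h, k using UniformSpace.Completion.induction_on₂ with
    | hp =>
      exact isClosed_eq ((BM_cont m hm hA _ hb').comp
        (((TM m hm hA n).continuous.comp continuous_fst).prodMk
          ((TM m hm hA n).continuous.comp continuous_snd))) (BM_cont m hm hA b hb)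
    | ih F G =>
      rw [TM_coe m hm hA n hn, TM_coe m hm hA n hn, BM_coe m hm hA _ hb', BM_coe m hm hA b hb]
      exact (hA m hm).2.2.2.2.1 n hn (fun j => b j * fn m hm hA F j * fn m hm hA G j)
        (bd_mul (bd_mul hb (fn_bd m hm hA F)) (fn_bd m hm hA G))

end Pool.Agent.F0f91f8.FC
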