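import Pool.Agent.Work.MP_0f91f8_co.FC.I_HE
import Pool.Agent.Work.MP_0f91f8_co.FC.I_HD
import Pool.Agent.Work.MP_0f91f8_co.FC.I_HB
import Pool.Agent.Work.MP_0f91f8_co.FC.I_HZ
import Pool.Agent.Work.MP_0f91f8_co.FC.I_HU
import Pool.Agent.Work.MP_0f91f8_co.FC.I_HF
import Pool.Agent.Work.MP_0f91f8_co.FC.I_HW
import Pool.Agent.Work.MP_0f91f8_co.FC.I_HC
import Pool.Agent.Work.MP_0f91f8_co.FC.I_HV
import Pool.Agent.Work.MP_0f91f8_co.FC.I_HG
import Pool.Agent.Work.MP_0f91f8_co.FC.I_HS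
import Pool.Agent.Work.MP_0f91f8_co.FC.I_ML
import Pool.Agent.Work.MP_0f91f8_co.FC.I_MD
import Pool.Agent.Work.MP_0f91f8_co.FC.I_MM
import Pool.Agent.Work.MP_0f91f8_co.FC.I_RA
import Pool.Agent.Work.MP_0f91f8_co.FC.I_RB

/-!
# Block FC, module H: composition, no hypotheses (helper79)
-/

set_option autoImplicit false

namespace Pool.Agent.F0f91f8.FC

/-- means exist -/
theorem all_MeanS : MeanS := pr_MM pr_ML pr_MD

/-- the Hilbert space of a mean exists -/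
theorem all_RepS : RepS := pr_RB pr_RA

/-- mean ergodic theorem -/
theorem all_ErgS : ErgS := pr_HE

/-- decomposition -/
theorem all_DecS : DecS := pr_HD

/-- weakly mixing vectors -/
theorem all_WmS : WmS := pr_HS (pr_HU (pr_HZ all_ErgS) pr_HB) (pr_HV (pr_HW pr_HF) pr_HC) pr_HG

end Pool.Agent.F0f91f8.FC
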