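import Pool.Agent.Work.MP_0f91f8_co.FC.StmtsU

/-!
# Item [UA] of block FC, module U: invariance almost everywhere under the primes of a class
-/

set_option autoImplicit false

namespace Pool.Agent.F0f91f8.FC

open Filter Topology ComplexConjugate
open scoped BigOperators

namespace XUA

variable {ι : Type} [Fintype ι] [DecidableEq ι]

lemma hv_eq (cl : ℕ → Option ι) (n : ℕ) (S : Finset ℕ) (hS : n.primeFactors ⊆ S) (i : ι) :
    hv cl n i = ∑ p ∈ S.filter (fun p => cl p = some i), n.factorization p := by
  unfold hv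
  refine Finset.sum_subset (Finset.filter_subset_filter _ hS) fun p hp hp' => ?_
  rw [Finset.mem_filter] at hp hp'
  have h1 : p ∉ n.primeFactors := fun h => hp' ⟨h, hp.2⟩
  exact Finsupp.notMem_support_iff.1 (by rwa [Nat.support_factorization])

lemma hv_mul (cl : ℕ → Option ι) (m n : ℕ) (hm : m ≠ 0) (hn : n ≠ 0) (i : ι) :
    hv cl (m * n) i = hv cl m i + hv cl n i := by
  have h0 : m * n ≠ 0 := mul_ne_zero hm hn
  rw [hv_eq cl m (m * n).primeFactors (Nat.primeFactors_mono (Dvd.intro _ rfl) h0),
    hv_eq cl n (m * n).primeFactors (Nat.primeFactors_mono (Dvd.intro_left _ rfl) h0),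
    ← Finset.sum_add_distrib]
  unfold hv
  refine Finset.sum_congr rfl fun p _ => ?_
  rw [Nat.factorization_mul hm hn]
  rfl

lemma hv_self (cl : ℕ → Option ι) (p : ℕ) (hp : p.Prime) (i : ι) (hi : cl p = some i) :
    hv cl p i = 1 := by
  unfold hv
  rw [Nat.Prime.primeFactors hp]
  rw [Finset.sum_filter, Finset.sum_singleton, if_pos hi, Nat.Prime.factorization_self hp]

lemma hv_other (cl : ℕ → Option ι) (p : ℕ) (hp : p.Prime) (i j : ι) (hi : cl p = some i)
    (hj : j ≠ i) : hv cl p j = 0 := by
  unfold hv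
  rw [Nat.Prime.primeFactors hp]
  rw [Finset.sum_filter, Finset.sum_singleton, if_neg]
  rw [hi]
  intro h
  exact hj (Option.some_injective _ h).symm

lemma nn_prime (cl : ℕ → Option ι) (pp : ι → ℕ) (p : ℕ) (hp : p.Prime) (i : ι)
    (hi : cl p = some i) : nn pp (hv cl p) = pp i := by
  unfold nn
  rw [Finset.prod_eq_single i]
  · rw [hv_self cl p hp i hi, pow_one]
  · intro j _ hj
    rw [hv_other cl p hp i j hi hj, pow_zero]
  · intro h
    exact absurd (Finset.mem_univ i) h

lemma nn_mul (cl : ℕ → Option ι) (pp : ι → ℕ) (m n : ℕ) (hm : m ≠ 0) (hn : n ≠ 0) :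
    nn pp (hv cl (m * n)) = nn pp (hv cl m) * nn pp (hv cl n) := by
  unfold nn
  rw [← Finset.prod_mul_distrib]
  refine Finset.prod_congr rfl fun i _ => ?_
  rw [hv_mul cl m n hm hn, pow_add]

lemma nn_one (cl : ℕ → Option ι) (pp : ι → ℕ) : nn pp (hv cl 1) = 1 := by
  unfold nn
  refine Finset.prod_eq_one fun i _ => ?_
  have : hv cl 1 i = 0 := by
    unfold hv
    simp
  rw [this, pow_zero]

end XUA

/-- [UA] -/
theorem pr_UA (hAm : StAm) : StUA := by
  intro ι _ _ cl pp hR m hm F hF hI x
  obtain ⟨hmono, hcongr, hconst, -, -, -, -⟩ := hAm m hm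
  obtain ⟨hadd, -, -, -, hinv⟩ := hm
  have hbd : ∀ a b : ℕ → ℕ, BdR fun n => |F (a n) - F (b n)| := by
    obtain ⟨C, hC⟩ := hF
    intro a b
    refine ⟨C + C, fun n => ?_⟩
    rw [abs_abs]
    exact (abs_sub _ _).trans (add_le_add (hC _) (hC _))
  have h00 : BdR fun _ => (0 : ℝ) := ⟨0, fun n => by simp⟩
  induction x using Nat.strong_induction_on with
  | _ x ih =>
    intro hx hcl
    rcases Nat.lt_or_ge x 2 with h | h
    · have hx1 : x = 1 := by omega
      subst hx1
      rw [XUA.nn_one]
      have h1 := hcongr (fun n => |F (1 * n) - F (1 * n)|) (fun _ => 0) (hbd _ _) h00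
        (fun n _ => by simp)
      rw [h1, hconst]
    · have hp : (x.minFac).Prime := Nat.minFac_prime (by omega)
      obtain ⟨y, hy⟩ := Nat.minFac_dvd x
      generalize x.minFac = p at hp hy
      subst hy
      have hy0 : y ≠ 0 := by
        rintro rfl
        simp at hx
      have hy1 : 0 < y := Nat.pos_of_ne_zero hy0
      obtain ⟨i, hi⟩ := Option.ne_none_iff_exists'.1 (hcl p hp (Dvd.intro _ rfl))
      have hg := hI p (pp i) i hp (hR i).1 hi (hR i).2
      have hh := ih y (by
        have := hp.two_le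
        nlinarith) hy1
        (fun q hq hqy => hcl q hq (hqy.mul_left p))
      have hg' : m (fun n => |F (p * (y * n)) - F (pp i * (y * n))|) = 0 := by
        rw [← hg]
        exact hinv y hy1 (fun n => |F (p * n) - F (pp i * n)|) (hbd _ _)
      have hh' : m (fun n => |F (y * (pp i * n)) - F (nn pp (hv cl y) * (pp i * n))|) = 0 := by
        rw [← hh]
        exact hinv (pp i) (hR i).1.pos (fun n => |F (y * n) - F (nn pp (hv cl y) * n)|) (hbd _ _)
      rw [XUA.nn_mul cl pp p y hp.ne_zero hy0, XUA.nn_prime cl pp p hp i hi]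
      apply le_antisymm
      · have hs := hadd (fun n => |F (p * (y * n)) - F (pp i * (y * n))|)
          (fun n => |F (y * (pp i * n)) - F (nn pp (hv cl y) * (pp i * n))|) (hbd _ _) (hbd _ _)
        rw [hg', hh', add_zero] at hs
        rw [← hs]
        refine hmono _ _ (hbd _ _) ?_ ?_
        · obtain ⟨C, hC⟩ := hbd (fun n => p * (y * n)) (fun n => pp i * (y * n))
          obtain ⟨D, hD⟩ := hbd (fun n => y * (pp i * n))
            (fun n => nn pp (hv cl y) * (pp i * n))
          exact ⟨C + D, fun n => (abs_add_le _ _).trans (add_le_add (hC n) (hD n))⟩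
        · intro n _
          have e1 : p * y * n = p * (y * n) := by ring
          have e2 : pp i * nn pp (hv cl y) * n = nn pp (hv cl y) * (pp i * n) := by ring
          have e3 : pp i * (y * n) = y * (pp i * n) := by ring
          rw [e1, e2, e3]
          have := abs_add_le (F (p * (y * n)) - F (y * (pp i * n)))
            (F (y * (pp i * n)) - F (nn pp (hv cl y) * (pp i * n)))
          rwa [sub_add_sub_cancel] at this
      · rw [← hconst 0]
        exact hmono _ _ h00 (hbd _ _) (fun n _ => abs_nonneg _)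

end Pool.Agent.F0f91f8.FC
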