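import Pool.Agent.Work.MP_0f91f8_co.FC.StmtsU
import Pool.Agent.Work.MP_0f91f8_co.FC.I_ML
import Pool.Agent.Work.MP_0f91f8_co.FC.I_AZ
import Pool.Agent.Work.MP_0f91f8_co.FC.I_Am

/-!
# Block FC, module U, item UF: compactness
-/

set_option autoImplicit false

namespace Pool.Agent.F0f91f8.FC

open Filter Topology ComplexConjugate
open Pool.Agent.F0f91f8.HD
open scoped BigOperators

namespace XUF

/-- fast growing factors -/
lemma exN (F : ℕ → Finset ℕ) : ∃ N : ℕ → ℕ, (∀ K, 0 < N K) ∧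
    ∀ J K : ℕ, J < K → ∀ n ∈ F J, N J * n < N K := by
  have hp : ∀ K : ℕ, 0 < ∏ J ∈ Finset.range K, (∑ n ∈ F J, n + 1) := fun K =>
    Finset.prod_pos fun J _ => Nat.succ_pos _
  refine ⟨fun K => ∏ J ∈ Finset.range K, (∑ n ∈ F J, n + 1), hp, ?_⟩
  intro J K hJK n hn
  have h1 : n ≤ ∑ n ∈ F J, n :=
    Finset.single_le_sum (f := fun n => n) (fun _ _ => Nat.zero_le _) hn
  have h2 : ∏ L ∈ Finset.range (J + 1), (∑ n ∈ F L, n + 1) ≤
      ∏ L ∈ Finset.range K, (∑ n ∈ F L, n + 1) :=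
    Finset.prod_le_prod_of_subset_of_one_le' (Finset.range_subset_range.2 hJK)
      fun _ _ _ => Nat.succ_pos _
  rw [Finset.prod_range_succ] at h2
  exact lt_of_lt_of_le (Nat.mul_lt_mul_of_pos_left (by omega) (hp J)) h2

lemma uniq {F : ℕ → Finset ℕ} {N : ℕ → ℕ} (hpos : ∀ K, ∀ n ∈ F K, 0 < n) (hN0 : ∀ K, 0 < N K)
    (hN : ∀ J K : ℕ, J < K → ∀ n ∈ F J, N J * n < N K) {K J n n' : ℕ} (hn : n ∈ F K)
    (hn' : n' ∈ F J) (h : N K * n = N J * n') : K = J ∧ n = n' := by
  have hKJ : K = J := by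
    rcases lt_trichotomy K J with h1 | h1 | h1
    · have h2 := hN K J h1 n hn
      have h3 : N J ≤ N J * n' := Nat.le_mul_of_pos_right _ (hpos J n' hn')
      omega
    · exact h1
    · have h2 := hN J K h1 n' hn'
      have h3 : N K ≤ N K * n := Nat.le_mul_of_pos_right _ (hpos K n hn)
      omega
  subst hKJ
  exact ⟨rfl, Nat.eq_of_mul_eq_mul_left (hN0 K) h⟩

open Classical in
/-- the function coding a sequence of sets -/
noncomputable def fA (N : ℕ → ℕ) (A : ℕ → Finset ℕ) (j : ℕ) : ℝ :=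
  if ∃ K, ∃ n ∈ A K, j = N K * n then 1 else 0

lemma fA_01 (N : ℕ → ℕ) (A : ℕ → Finset ℕ) : I01 (fA N A) := by
  intro j
  unfold fA
  split_ifs
  · exact ⟨zero_le_one, le_rfl⟩
  · exact ⟨le_rfl, zero_le_one⟩

lemma fA_pos {A : ℕ → Finset ℕ} {N : ℕ → ℕ} {K n : ℕ} (h : n ∈ A K) :
    fA N A (N K * n) = 1 := by
  unfold fA
  rw [if_pos ⟨K, n, h, rfl⟩]

lemma fA_neg {F A : ℕ → Finset ℕ} {N : ℕ → ℕ} (hpos : ∀ K, ∀ n ∈ F K, 0 < n)
    (hN0 : ∀ K, 0 < N K) (hN : ∀ J K : ℕ, J < K → ∀ n ∈ F J, N J * n < N K)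
    (hA : ∀ K, A K ⊆ F K) {K n : ℕ} (hn : n ∈ F K) (h : n ∉ A K) : fA N A (N K * n) = 0 := by
  unfold fA
  rw [if_neg]
  rintro ⟨J, n', hn', e⟩
  obtain ⟨h1, h2⟩ := uniq hpos hN0 hN hn (hA J hn') e
  subst h1 h2
  exact h hn'

/-- the proportion of elements which leave the set -/
noncomputable def eK (F : Finset ℕ) (x : ℕ) : ℝ :=
  ((F.filter fun n => x * n ∉ F).card : ℝ) / (F.card : ℝ)

lemma eK_nonneg (F : Finset ℕ) (x : ℕ) : 0 ≤ eK F x := by
  unfold eK
  positivity

lemma eK_mul (F : Finset ℕ) (x y : ℕ) (hy : 0 < y) : eK F (x * y) ≤ eK F x + eK F y := by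
  unfold eK
  rw [← add_div]
  refine div_le_div_of_nonneg_right ?_ (Nat.cast_nonneg _)
  have h1 : (F.filter fun n => x * y * n ∉ F) ⊆ (F.filter fun n => y * n ∉ F) ∪
      (F.filter fun n => y * n ∈ F ∧ x * (y * n) ∉ F) := by
    intro n hn
    rw [Finset.mem_union, Finset.mem_filter, Finset.mem_filter]
    rw [Finset.mem_filter] at hn
    by_cases h : y * n ∈ F
    · right
      refine ⟨hn.1, h, ?_⟩
      rw [← mul_assoc]
      exact hn.2
    · exact Or.inl ⟨hn.1, h⟩
  have h2 : (F.filter fun n => y * n ∈ F ∧ x * (y * n) ∉ F).card ≤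
      (F.filter fun n => x * n ∉ F).card := by
    refine Finset.card_le_card_of_injOn (fun n => y * n) ?_ ?_
    · intro n hn
      simp only [Finset.coe_filter, Set.mem_ofPred_eq] at hn ⊢
      exact ⟨hn.2.1, hn.2.2⟩
    · intro n _ n' _ h
      exact Nat.eq_of_mul_eq_mul_left hy h
  have h3 := (Finset.card_le_card h1).trans (Finset.card_union_le _ _)
  have h4 : (F.filter fun n => x * y * n ∉ F).card ≤
      (F.filter fun n => x * n ∉ F).card + (F.filter fun n => y * n ∉ F).card := by omega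
  exact_mod_cast h4

lemma eK_prime {F : Finset ℕ} (hF : F.Nonempty) {p : ℕ} {δ : ℝ}
    (h : (1 - δ) * (F.card : ℝ) ≤ ((F.filter fun n => p * n ∈ F).card : ℝ)) : eK F p ≤ δ := by
  have h0 : (0 : ℝ) < F.card := by exact_mod_cast hF.card_pos
  unfold eK
  rw [div_le_iff₀ h0]
  have h1 := Finset.card_filter_add_card_filter_not (s := F) (fun n => p * n ∈ F)
  have h2 : ((F.filter fun n => p * n ∈ F).card : ℝ) + ((F.filter fun n => p * n ∉ F).card : ℝ) =
      F.card := by exact_mod_cast h1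
  linarith

lemma tend_inv : Tendsto (fun K : ℕ => 1 / ((K : ℝ) + 1)) atTop (𝓝 0) :=
  tendsto_one_div_add_atTop_nhds_zero_nat

lemma eK_tendsto {F : ℕ → Finset ℕ} (hne : ∀ K, (F K).Nonempty)
    (hF : ∀ K p : ℕ, p ≤ K → p.Prime →
      (1 - 1 / ((K : ℝ) + 1)) * ((F K).card : ℝ) ≤ (((F K).filter fun n => p * n ∈ F K).card : ℝ)) :
    ∀ x : ℕ, 0 < x → Tendsto (fun K => eK (F K) x) atTop (𝓝 0) := by
  intro x
  induction x using induction_on_primes with
  | zero => exact fun h => absurd h (lt_irrefl 0)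
  | one =>
    intro _
    have e : (fun K => eK (F K) 1) = fun _ => 0 := by
      funext K
      unfold eK
      have h1 : ((F K).filter fun n => 1 * n ∉ F K) = ∅ := by
        rw [Finset.filter_eq_empty_iff]
        intro n hn
        rw [one_mul, not_not]
        exact hn
      rw [h1, Finset.card_empty, Nat.cast_zero, zero_div]
    rw [e]
    exact tendsto_const_nhds
  | prime_mul p a hp ih =>
    intro hpa
    have ha : 0 < a := Nat.pos_of_mul_pos_left hpa
    have h1 := tend_inv.add (ih ha)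
    rw [add_zero] at h1
    refine squeeze_zero' (Eventually.of_forall fun K => eK_nonneg _ _) ?_ h1
    filter_upwards [eventually_ge_atTop p] with K hK
    exact (eK_mul (F K) p a ha).trans (add_le_add (eK_prime (hne K) (hF K p hK hp)) le_rfl)

/-- a sum of values in the unit interval with small support -/
lemma sum_le_card {F : Finset ℕ} {g : ℕ → ℝ} {c : ℕ → Prop} [DecidablePred c]
    (h : ∀ n ∈ F, g n ≤ if c n then 1 else 0) : ∑ n ∈ F, g n ≤ ((F.filter c).card : ℝ) := by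
  refine (Finset.sum_le_sum h).trans (le_of_eq ?_)
  rw [Finset.sum_boole]

lemma card_of_eK {F : Finset ℕ} (hF : F.Nonempty) (x : ℕ) :
    ((F.filter fun n => x * n ∉ F).card : ℝ) = eK F x * (F.card : ℝ) := by
  have h0 : (F.card : ℝ) ≠ 0 := by exact_mod_cast hF.card_pos.ne'
  unfold eK
  rw [div_mul_cancel₀ _ h0]

/-- almost invariance -/
lemma inv_est {F A : Finset ℕ} (hF : F.Nonempty) {f : ℕ → ℝ} (hf : I01 f) {N p q : ℕ} {δ : ℝ}
    (h1 : ∀ n ∈ F, n ∈ A → f (N * n) = 1) (h0 : ∀ n ∈ F, n ∉ A → f (N * n) = 0)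
    (hp : eK F p ≤ δ) (hq : eK F q ≤ δ)
    (hpq : ((F.filter fun n => p * n ∈ A ∧ q * n ∈ F ∧ q * n ∉ A).card : ℝ) ≤ δ * F.card)
    (hqp : ((F.filter fun n => q * n ∈ A ∧ p * n ∈ F ∧ p * n ∉ A).card : ℝ) ≤ δ * F.card) :
    (∑ n ∈ F, |f (p * (N * n)) - f (q * (N * n))|) / (F.card : ℝ) ≤ 4 * δ := by
  have hc : (0 : ℝ) < F.card := by exact_mod_cast hF.card_pos
  rw [div_le_iff₀ hc]
  have key : ∀ n ∈ F, |f (p * (N * n)) - f (q * (N * n))| ≤
      (if p * n ∉ F then (1 : ℝ) else 0) + (if q * n ∉ F then (1 : ℝ) else 0) +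
      (if p * n ∈ A ∧ q * n ∈ F ∧ q * n ∉ A then (1 : ℝ) else 0) +
      (if q * n ∈ A ∧ p * n ∈ F ∧ p * n ∉ A then (1 : ℝ) else 0) := by
    intro n _
    have ep : p * (N * n) = N * (p * n) := by ring
    have eq : q * (N * n) = N * (q * n) := by ring
    rw [ep, eq]
    have hle : |f (N * (p * n)) - f (N * (q * n))| ≤ 1 := by
      have a1 := hf (N * (p * n))
      have a2 := hf (N * (q * n))
      rw [abs_le]
      constructor <;> linarith [a1.1, a1.2, a2.1, a2.2]
    have b : ∀ (c : Prop) [Decidable c], (0 : ℝ) ≤ if c then (1 : ℝ) else 0 := by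
      intro c _
      split_ifs <;> norm_num
    by_cases hpF : p * n ∈ F
    · by_cases hqF : q * n ∈ F
      · by_cases hpA : p * n ∈ A
        · by_cases hqA : q * n ∈ A
          · rw [h1 _ hpF hpA, h1 _ hqF hqA, sub_self, abs_zero]
            have := b (p * n ∉ F)
            have := b (q * n ∉ F)
            have := b (p * n ∈ A ∧ q * n ∈ F ∧ q * n ∉ A)
            have := b (q * n ∈ A ∧ p * n ∈ F ∧ p * n ∉ A)
            linarith
          · rw [if_pos (⟨hpA, hqF, hqA⟩ : p * n ∈ A ∧ q * n ∈ F ∧ q * n ∉ A)]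
            have := b (p * n ∉ F)
            have := b (q * n ∉ F)
            have := b (q * n ∈ A ∧ p * n ∈ F ∧ p * n ∉ A)
            linarith
        · by_cases hqA : q * n ∈ A
          · rw [if_pos (⟨hqA, hpF, hpA⟩ : q * n ∈ A ∧ p * n ∈ F ∧ p * n ∉ A)]
            have := b (p * n ∉ F)
            have := b (q * n ∉ F)
            have := b (p * n ∈ A ∧ q * n ∈ F ∧ q * n ∉ A)
            linarith
          · rw [h0 _ hpF hpA, h0 _ hqF hqA, sub_self, abs_zero]
            have := b (p * n ∉ F)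
            have := b (q * n ∉ F)
            have := b (p * n ∈ A ∧ q * n ∈ F ∧ q * n ∉ A)
            have := b (q * n ∈ A ∧ p * n ∈ F ∧ p * n ∉ A)
            linarith
      · rw [if_pos hqF]
        have := b (p * n ∉ F)
        have := b (p * n ∈ A ∧ q * n ∈ F ∧ q * n ∉ A)
        have := b (q * n ∈ A ∧ p * n ∈ F ∧ p * n ∉ A)
        linarith
    · rw [if_pos hpF]
      have := b (q * n ∉ F)
      have := b (p * n ∈ A ∧ q * n ∈ F ∧ q * n ∉ A)
      have := b (q * n ∈ A ∧ p * n ∈ F ∧ p * n ∉ A)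
      linarith
  have h2 := Finset.sum_le_sum key
  rw [Finset.sum_add_distrib, Finset.sum_add_distrib, Finset.sum_add_distrib, Finset.sum_boole,
    Finset.sum_boole, Finset.sum_boole, Finset.sum_boole, card_of_eK hF, card_of_eK hF] at h2
  have h3 := mul_le_mul_of_nonneg_right hp hc.le
  have h4 := mul_le_mul_of_nonneg_right hq hc.le
  linarith

/-- the product of three dilations -/
lemma prod_est {F A : Finset ℕ} (hF : F.Nonempty) {f : ℕ → ℝ} (hf : I01 f) {N x y z : ℕ}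
    (h0 : ∀ n ∈ F, n ∉ A → f (N * n) = 0) :
    (∑ n ∈ F, f (x * (N * n)) * f (y * (N * n)) * f (z * (N * n))) / (F.card : ℝ) ≤
      ((F.filter fun n => x * n ∈ A ∧ y * n ∈ A ∧ z * n ∈ A).card : ℝ) / F.card +
        (eK F x + eK F y + eK F z) := by
  have hc : (0 : ℝ) < F.card := by exact_mod_cast hF.card_pos
  rw [div_le_iff₀ hc, add_mul, div_mul_cancel₀ _ hc.ne', add_mul, add_mul, ← card_of_eK hF,
    ← card_of_eK hF, ← card_of_eK hF]
  have key : ∀ n ∈ F, f (x * (N * n)) * f (y * (N * n)) * f (z * (N * n)) ≤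
      (if x * n ∈ A ∧ y * n ∈ A ∧ z * n ∈ A then (1 : ℝ) else 0) +
      (if x * n ∉ F then (1 : ℝ) else 0) + (if y * n ∉ F then (1 : ℝ) else 0) +
      (if z * n ∉ F then (1 : ℝ) else 0) := by
    intro n _
    have ex : x * (N * n) = N * (x * n) := by ring
    have ey : y * (N * n) = N * (y * n) := by ring
    have ez : z * (N * n) = N * (z * n) := by ring
    rw [ex, ey, ez]
    have a1 := hf (N * (x * n))
    have a2 := hf (N * (y * n))
    have a3 := hf (N * (z * n))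
    have b : ∀ (c : Prop) [Decidable c], (0 : ℝ) ≤ if c then (1 : ℝ) else 0 := by
      intro c _
      split_ifs <;> norm_num
    have c1 := b (x * n ∈ A ∧ y * n ∈ A ∧ z * n ∈ A)
    have c2 := b (x * n ∉ F)
    have c3 := b (y * n ∉ F)
    have c4 := b (z * n ∉ F)
    have hle : f (N * (x * n)) * f (N * (y * n)) * f (N * (z * n)) ≤ 1 :=
      mul_le_one₀ (mul_le_one₀ a1.2 a2.1 a2.2) a3.1 a3.2
    by_cases hx : x * n ∈ A
    · by_cases hy : y * n ∈ A
      · by_cases hz : z * n ∈ A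
        · rw [if_pos (⟨hx, hy, hz⟩ : x * n ∈ A ∧ y * n ∈ A ∧ z * n ∈ A)]
          linarith
        · by_cases hzF : z * n ∈ F
          · rw [h0 _ hzF hz, mul_zero]
            linarith
          · rw [if_pos hzF]
            linarith
      · by_cases hyF : y * n ∈ F
        · rw [h0 _ hyF hy, mul_zero, zero_mul]
          linarith
        · rw [if_pos hyF]
          linarith
    · by_cases hxF : x * n ∈ F
      · rw [h0 _ hxF hx, zero_mul, zero_mul]
        linarith
      · rw [if_pos hxF]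
        linarith
  have h2 := Finset.sum_le_sum key
  rw [Finset.sum_add_distrib, Finset.sum_add_distrib, Finset.sum_add_distrib, Finset.sum_boole,
    Finset.sum_boole, Finset.sum_boole, Finset.sum_boole] at h2
  linarith

/-- averages of bounded functions are bounded -/
lemma avg_bd {F : ℕ → Finset ℕ} (hne : ∀ K, (F K).Nonempty) {g : ℕ → ℕ → ℝ} {C : ℝ}
    (hg : ∀ K n, |g K n| ≤ C) :
    BdR fun K => (∑ n ∈ F K, g K n) / ((F K).card : ℝ) := by
  refine ⟨C, fun K => ?_⟩
  have hc : (0 : ℝ) < (F K).card := by exact_mod_cast (hne K).card_pos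
  rw [abs_div, abs_of_pos hc, div_le_iff₀ hc]
  refine (Finset.abs_sum_le_sum_abs _ _).trans ?_
  refine (Finset.sum_le_sum fun n _ => hg K n).trans (le_of_eq ?_)
  rw [Finset.sum_const, nsmul_eq_mul, mul_comm]

end XUF

open XUF in
/-- item UF -/
theorem pr_UF (hUX : StUX) (hUL : StUL) : StUF := by
  classical
  intro P hP d r ε hε
  by_contra hcon
  -- for every K a counterexample
  have hcex : ∀ K : ℕ, ∃ (cl : ℕ → Fin d) (F : Finset ℕ) (A : Fin r → Finset ℕ), F.Nonempty ∧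
      (∀ n ∈ F, 0 < n) ∧
      (∀ p : ℕ, p ≤ K → p.Prime →
        (1 - 1 / ((K : ℝ) + 1)) * (F.card : ℝ) ≤ ((F.filter fun n => p * n ∈ F).card : ℝ)) ∧
      (∀ i, A i ⊆ F) ∧
      (∀ p q : ℕ, p ≤ K → q ≤ K → p.Prime → q.Prime → p ∉ P → q ∉ P → cl p = cl q →
        ∀ i, ((F.filter fun n => p * n ∈ A i ∧ q * n ∈ F ∧ q * n ∉ A i).card : ℝ) ≤
          1 / ((K : ℝ) + 1) * (F.card : ℝ)) ∧
      ∀ x y z : ℕ, 0 < x → 0 < y → x ≤ K → y ≤ K → z ≤ K → x ^ 2 + y ^ 2 = z ^ 2 →
        ∑ i, ((F.filter fun n => x * n ∈ A i ∧ y * n ∈ A i ∧ z * n ∈ A i).card : ℝ) <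
          (∑ i, ((A i).card : ℝ) ^ 3) / (F.card : ℝ) ^ 2 - ε * (F.card : ℝ) := by
    intro K
    by_contra hK
    apply hcon
    refine ⟨K, 1 / ((K : ℝ) + 1), by positivity, ?_⟩
    intro cl F hne hpos hF A hA hinv
    by_contra hno
    apply hK
    refine ⟨cl, F, A, hne, hpos, hF, hA, hinv, ?_⟩
    intro x y z hx hy hxk hyk hzk hxyz
    by_contra hlt
    exact hno ⟨x, y, z, hx, hy, hxk, hyk, hzk, hxyz, not_lt.1 hlt⟩
  choose cl F A hne hpos hF hA hinv hno using hcex
  obtain ⟨N, hN0, hN⟩ := exN F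
  have hc : ∀ K, (0 : ℝ) < (F K).card := fun K => by exact_mod_cast (hne K).card_pos
  -- the functions
  set f : Fin r → ℕ → ℝ := fun i => fA N (fun K => A K i) with hf
  have hf01 : ∀ i, I01 (f i) := fun i => fA_01 N _
  have hfA : ∀ i K, ∀ n ∈ F K, n ∈ A K i → f i (N K * n) = 1 := fun i K n _ h =>
    fA_pos (A := fun K => A K i) h
  have hfn : ∀ i K, ∀ n ∈ F K, n ∉ A K i → f i (N K * n) = 0 := fun i K n hn h =>
    fA_neg (A := fun K => A K i) hpos hN0 hN (fun K => hA K i) hn h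
  have hfb : ∀ i n, |f i n| ≤ 1 := fun i n => by
    rw [abs_of_nonneg (hf01 i n).1]
    exact (hf01 i n).2
  -- the mean
  have hm := hUL (fun g => limUnder XML.U g)
    (fun g g' hg hg' => ((XML.lim_spec g hg).add (XML.lim_spec g' hg')).limUnder_eq)
    (fun c g hg => ((XML.lim_spec g hg).const_mul c).limUnder_eq)
    (fun g hg h0 => ge_of_tendsto' (XML.lim_spec g hg) h0)
    (fun g c hg => Tendsto.limUnder_eq (hg.mono_left Nat.hyperfilter_le_atTop))
    F N hne hpos hN0 hF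
  set m : (ℕ → ℝ) → ℝ := fun g => limUnder XML.U fun K =>
    (∑ n ∈ F K, g (N K * n)) / ((F K).card : ℝ) with hmdef
  have hspec : ∀ (g : ℕ → ℝ) (C : ℝ), (∀ n, |g n| ≤ C) →
      Tendsto (fun K => (∑ n ∈ F K, g (N K * n)) / ((F K).card : ℝ)) XML.U (𝓝 (m g)) := by
    intro g C hg
    exact XML.lim_spec _ (avg_bd hne (g := fun K n => g (N K * n)) fun K n => hg _)
  -- the limit of the classes
  choose cl0 hcl0 using fun p => XAZ.lim (hyperfilter ℕ) (fun K => cl K p)
  have hge : ∀ M : ℕ, ∀ᶠ K in XML.U, M ≤ K := fun M =>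
    (Nat.hyperfilter_le_atTop : (hyperfilter ℕ : Filter ℕ) ≤ atTop) (eventually_ge_atTop M)
  have hUat : XML.U ≤ atTop := Nat.hyperfilter_le_atTop
  -- invariance
  have hinvm : ∀ p q : ℕ, p.Prime → q.Prime → p ∉ P → q ∉ P → cl0 p = cl0 q →
      ∀ i, m (fun n => |f i (p * n) - f i (q * n)|) = 0 := by
    intro p q hp hq hpP hqP hpq i
    refine Tendsto.limUnder_eq ?_
    have h4 : Tendsto (fun K : ℕ => 4 * (1 / ((K : ℝ) + 1))) XML.U (𝓝 0) := by
      have h := (tend_inv.const_mul 4).mono_left hUat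
      rwa [mul_zero] at h
    refine squeeze_zero' (Eventually.of_forall fun K => ?_) ?_ h4
    · exact div_nonneg (Finset.sum_nonneg fun _ _ => abs_nonneg _) (Nat.cast_nonneg _)
    · have hclp : ∀ᶠ K in XML.U, cl K p = cl0 p := hcl0 p
      have hclq : ∀ᶠ K in XML.U, cl K q = cl0 q := hcl0 q
      filter_upwards [hge p, hge q, hclp, hclq] with K e1 e2 e3 e4
      have e5 : cl K p = cl K q := by rw [e3, e4, hpq]
      exact inv_est (hne K) (hf01 i) (hfA i K) (hfn i K)
        (eK_prime (hne K) (hF K p e1 hp)) (eK_prime (hne K) (hF K q e2 hq))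
        (hinv K p q e1 e2 hp hq hpP hqP e5 i) (hinv K q p e2 e1 hq hp hqP hpP e5.symm i)
  obtain ⟨x, y, z, hx, hy, hz, hxyz, hfin⟩ :=
    hUX P hP d cl0 m hm r f hf01 hinvm (ε / 2) (by positivity)
  -- the limits
  have hlimA : ∀ i, Tendsto (fun K => ((A K i).card : ℝ) / ((F K).card : ℝ)) XML.U
      (𝓝 (m (f i))) := by
    intro i
    refine (hspec (f i) 1 (hfb i)).congr fun K => ?_
    congr 1
    have e1 : ∑ n ∈ F K, f i (N K * n) = ∑ n ∈ F K, if n ∈ A K i then (1 : ℝ) else 0 := by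
      refine Finset.sum_congr rfl fun n hn => ?_
      by_cases h : n ∈ A K i
      · rw [if_pos h, hfA i K n hn h]
      · rw [if_neg h, hfn i K n hn h]
    rw [e1, Finset.sum_boole]
    congr 2
    ext n
    rw [Finset.mem_filter]
    exact ⟨fun h => h.2, fun h => ⟨hA K i h, h⟩⟩
  have hlimB : ∀ i, Tendsto (fun K => (∑ n ∈ F K, f i (x * (N K * n)) * f i (y * (N K * n)) *
      f i (z * (N K * n))) / ((F K).card : ℝ)) XML.U
      (𝓝 (m (fun n => f i (x * n) * f i (y * n) * f i (z * n)))) := by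
    intro i
    refine hspec (fun n => f i (x * n) * f i (y * n) * f i (z * n)) 1 fun n => ?_
    rw [abs_mul, abs_mul]
    exact mul_le_one₀ (mul_le_one₀ (hfb i _) (abs_nonneg _) (hfb i _)) (abs_nonneg _) (hfb i _)
  have hE : Tendsto (fun K => eK (F K) x + eK (F K) y + eK (F K) z) XML.U (𝓝 0) := by
    have h := (((eK_tendsto hne hF x hx).add (eK_tendsto hne hF y hy)).add
      (eK_tendsto hne hF z hz)).mono_left hUat
    rwa [add_zero, add_zero] at h
  have hl := tendsto_finsetSum Finset.univ fun i (_ : i ∈ (Finset.univ : Finset (Fin r))) =>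
    hlimB i
  have hr1 := tendsto_finsetSum Finset.univ fun i (_ : i ∈ (Finset.univ : Finset (Fin r))) =>
    (hlimA i).pow 3
  have hr := (hr1.sub_const ε).add (hE.const_mul (r : ℝ))
  have hcmp := le_of_tendsto_of_tendsto hl hr (by
    filter_upwards [hge x, hge y, hge z] with K ex ey ez
    have h1 := hno K x y z hx hy ex ey ez hxyz
    have h2 : ∑ i, (∑ n ∈ F K, f i (x * (N K * n)) * f i (y * (N K * n)) *
        f i (z * (N K * n))) / ((F K).card : ℝ) ≤
        ∑ i, ((((F K).filter fun n => x * n ∈ A K i ∧ y * n ∈ A K i ∧ z * n ∈ A K i).card : ℝ) /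
          (F K).card + (eK (F K) x + eK (F K) y + eK (F K) z)) :=
      Finset.sum_le_sum fun i _ => prod_est (hne K) (hf01 i) (hfn i K)
    refine h2.trans ?_
    rw [Finset.sum_add_distrib, Finset.sum_const, Finset.card_univ, Fintype.card_fin,
      nsmul_eq_mul]
    refine add_le_add ?_ le_rfl
    rw [← Finset.sum_div, div_le_iff₀ (hc K)]
    refine h1.le.trans (le_of_eq ?_)
    have h3 : ∑ i, (((A K i).card : ℝ) / ((F K).card : ℝ)) ^ 3 =
        (∑ i, ((A K i).card : ℝ) ^ 3) / ((F K).card : ℝ) ^ 3 := by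
      rw [Finset.sum_div]
      exact Finset.sum_congr rfl fun i _ => div_pow _ _ _
    rw [h3]
    have h4 := (hc K).ne'
    field_simp)
  rw [mul_zero, add_zero] at hcmp
  linarith

end Pool.Agent.F0f91f8.FC
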