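import Pool.Agent.Work.MP_0f91f8_co.FC.StmtsU

set_option autoImplicit false

open Filter Topology

namespace Pool.Agent.F0f91f8.FC

namespace XUL

/-- the average of `g (N n)` over `n ∈ F` -/
noncomputable def av (F : Finset ℕ) (N : ℕ) (g : ℕ → ℝ) : ℝ :=
  (∑ n ∈ F, g (N * n)) / (F.card : ℝ)

theorem cpos {F : Finset ℕ} (hF : F.Nonempty) : (0 : ℝ) < (F.card : ℝ) := by
  exact_mod_cast Finset.card_pos.2 hF

theorem av_add (F : Finset ℕ) (N : ℕ) (f g : ℕ → ℝ) :
    av F N (fun n => f n + g n) = av F N f + av F N g := by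
  unfold av
  rw [Finset.sum_add_distrib, add_div]

theorem av_smul (F : Finset ℕ) (N : ℕ) (c : ℝ) (f : ℕ → ℝ) :
    av F N (fun n => c * f n) = c * av F N f := by
  unfold av
  rw [← Finset.mul_sum, mul_div_assoc]

theorem av_one {F : Finset ℕ} (hF : F.Nonempty) (N : ℕ) : av F N (fun _ => 1) = 1 := by
  unfold av
  rw [Finset.sum_const, nsmul_eq_mul, mul_one, div_self (cpos hF).ne']

theorem av_nonneg {F : Finset ℕ} (hF : F.Nonempty) (h0 : ∀ n ∈ F, 0 < n) {N : ℕ} (hN : 0 < N)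
    (f : ℕ → ℝ) (hf : ∀ n, 0 < n → 0 ≤ f n) : 0 ≤ av F N f := by
  unfold av
  exact div_nonneg (Finset.sum_nonneg fun n hn => hf _ (Nat.mul_pos hN (h0 n hn))) (cpos hF).le

theorem sum_abs (F : Finset ℕ) (f : ℕ → ℝ) (C : ℝ) (hf : ∀ n, |f n| ≤ C) :
    |∑ n ∈ F, f n| ≤ C * (F.card : ℝ) := by
  calc |∑ n ∈ F, f n| ≤ ∑ n ∈ F, |f n| := Finset.abs_sum_le_sum_abs _ _
    _ ≤ ∑ n ∈ F, C := Finset.sum_le_sum fun n _ => hf n
    _ = C * (F.card : ℝ) := by rw [Finset.sum_const, nsmul_eq_mul, mul_comm]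

theorem av_abs {F : Finset ℕ} (hF : F.Nonempty) (N : ℕ) (f : ℕ → ℝ) (C : ℝ)
    (hf : ∀ n, |f n| ≤ C) : |av F N f| ≤ C := by
  unfold av
  rw [abs_div, abs_of_pos (cpos hF), div_le_iff₀ (cpos hF)]
  exact sum_abs F (fun n => f (N * n)) C fun n => hf _

/-- the two averages differ by little -/
theorem dif {F : Finset ℕ} (hF : F.Nonempty) {p N K : ℕ} (hp : 0 < p)
    (h : (1 - 1 / ((K : ℝ) + 1)) * (F.card : ℝ) ≤ ((F.filter fun n => p * n ∈ F).card : ℝ))
    (g : ℕ → ℝ) (C : ℝ) (hg : ∀ n, |g n| ≤ C) :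
    |av F N (fun n => g (p * n)) - av F N g| ≤ 2 * C / ((K : ℝ) + 1) := by
  classical
  have hc := cpos hF
  have hC : 0 ≤ C := (abs_nonneg _).trans (hg 0)
  have hK : (0 : ℝ) < (K : ℝ) + 1 := by positivity
  set F1 := F.filter fun n => p * n ∈ F with hF1
  set I := F1.image fun n => p * n with hI
  have hinj : Set.InjOn (fun n => p * n) (F1 : Set ℕ) := fun a _ b _ hab =>
    Nat.eq_of_mul_eq_mul_left hp hab
  have hIF : I ⊆ F := by
    intro m hm
    obtain ⟨n, hn, rfl⟩ := Finset.mem_image.1 hm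
    exact (Finset.mem_filter.1 hn).2
  have hIc : I.card = F1.card := Finset.card_image_of_injOn hinj
  have e1 : ∑ n ∈ F, g (p * (N * n)) =
      ∑ n ∈ F \ F1, g (p * (N * n)) + ∑ n ∈ F1, g (p * (N * n)) :=
    (Finset.sum_sdiff (Finset.filter_subset _ _)).symm
  have e2 : ∑ n ∈ F, g (N * n) = ∑ n ∈ F \ I, g (N * n) + ∑ n ∈ I, g (N * n) :=
    (Finset.sum_sdiff hIF).symm
  have e3 : ∑ n ∈ I, g (N * n) = ∑ n ∈ F1, g (p * (N * n)) := by
    rw [hI, Finset.sum_image hinj]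
    refine Finset.sum_congr rfl fun n _ => ?_
    rw [mul_left_comm]
  have b1 : ((F \ F1).card : ℝ) ≤ (F.card : ℝ) / ((K : ℝ) + 1) := by
    have e : ((F \ F1).card : ℝ) = (F.card : ℝ) - (F1.card : ℝ) := by
      rw [Finset.card_sdiff_of_subset (Finset.filter_subset _ _),
        Nat.cast_sub (Finset.card_le_card (Finset.filter_subset _ _))]
    rw [e]
    have : (1 - 1 / ((K : ℝ) + 1)) * (F.card : ℝ) =
        (F.card : ℝ) - (F.card : ℝ) / ((K : ℝ) + 1) := by ring
    linarith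
  have b2 : ((F \ I).card : ℝ) ≤ (F.card : ℝ) / ((K : ℝ) + 1) := by
    have e : ((F \ I).card : ℝ) = (F.card : ℝ) - (F1.card : ℝ) := by
      rw [Finset.card_sdiff_of_subset hIF, Nat.cast_sub (Finset.card_le_card hIF), hIc]
    rw [e]
    have : (1 - 1 / ((K : ℝ) + 1)) * (F.card : ℝ) =
        (F.card : ℝ) - (F.card : ℝ) / ((K : ℝ) + 1) := by ring
    linarith
  have c1 := sum_abs (F \ F1) (fun n => g (p * (N * n))) C fun n => hg _
  have c2 := sum_abs (F \ I) (fun n => g (N * n)) C fun n => hg _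
  have key : |∑ n ∈ F, g (p * (N * n)) - ∑ n ∈ F, g (N * n)| ≤
      2 * C / ((K : ℝ) + 1) * (F.card : ℝ) := by
    rw [e1, e2, e3]
    have e : ∑ n ∈ F \ F1, g (p * (N * n)) + ∑ n ∈ F1, g (p * (N * n)) -
        (∑ n ∈ F \ I, g (N * n) + ∑ n ∈ F1, g (p * (N * n))) =
        ∑ n ∈ F \ F1, g (p * (N * n)) - ∑ n ∈ F \ I, g (N * n) := by ring
    rw [e]
    calc |∑ n ∈ F \ F1, g (p * (N * n)) - ∑ n ∈ F \ I, g (N * n)|
        ≤ |∑ n ∈ F \ F1, g (p * (N * n))| + |∑ n ∈ F \ I, g (N * n)| := abs_sub _ _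
      _ ≤ C * ((F \ F1).card : ℝ) + C * ((F \ I).card : ℝ) := add_le_add c1 c2
      _ ≤ C * ((F.card : ℝ) / ((K : ℝ) + 1)) + C * ((F.card : ℝ) / ((K : ℝ) + 1)) :=
          add_le_add (mul_le_mul_of_nonneg_left b1 hC) (mul_le_mul_of_nonneg_left b2 hC)
      _ = 2 * C / ((K : ℝ) + 1) * (F.card : ℝ) := by ring
  unfold av
  rw [← sub_div, abs_div, abs_of_pos hc, div_le_iff₀ hc]
  exact key

end XUL

open XUL in
/-- UL: the mean of a sequence of finite sets. -/
theorem pr_UL : StUL := by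
  intro Φ h1 h2 h3 h4 F N hF h0 hN hinv
  have bd : ∀ f : ℕ → ℝ, BdR f → BdR (fun K => av (F K) (N K) f) := by
    rintro f ⟨C, hC⟩
    exact ⟨C, fun K => av_abs (hF K) (N K) f C hC⟩
  have hpr : ∀ q : ℕ, q.Prime → ∀ f, BdR f →
      Φ (fun K => av (F K) (N K) (fun n => f (q * n))) = Φ (fun K => av (F K) (N K) f) := by
    intro q hq f hf
    obtain ⟨C, hC⟩ := hf
    have hfq : BdR (fun n => f (q * n)) := ⟨C, fun n => hC _⟩
    have ht : Tendsto (fun K => av (F K) (N K) (fun n => f (q * n)) +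
        (-1) * av (F K) (N K) f) atTop (𝓝 0) := by
      have hlim : Tendsto (fun K : ℕ => 2 * C / ((K : ℝ) + 1)) atTop (𝓝 0) := by
        have := (tendsto_one_div_add_atTop_nhds_zero_nat (𝕜 := ℝ)).const_mul (2 * C)
        simpa [div_eq_mul_inv] using this
      refine squeeze_zero_norm' ?_ hlim
      filter_upwards [eventually_ge_atTop q] with K hK
      have := dif (N := N K) (hF K) hq.pos (hinv K q hK hq) f C hC
      rw [Real.norm_eq_abs, neg_one_mul, ← sub_eq_add_neg]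
      exact this
    have e1 := h4 _ 0 ht
    rw [h1 _ _ (bd _ hfq) (by
      obtain ⟨D, hD'⟩ := bd f ⟨C, hC⟩
      exact ⟨D, fun n => by
        show |(-1) * av (F n) (N n) f| ≤ D
        rw [neg_one_mul, abs_neg]; exact hD' n⟩), h2 _ _ (bd f ⟨C, hC⟩)] at e1
    linarith
  refine ⟨?_, ?_, ?_, ?_, ?_⟩
  · intro f g hf hg
    have e : (fun K => (∑ n ∈ F K, (f (N K * n) + g (N K * n))) / ((F K).card : ℝ)) =
        fun K => av (F K) (N K) f + av (F K) (N K) g := by
      funext K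
      exact av_add (F K) (N K) f g
    show Φ (fun K => (∑ n ∈ F K, (f (N K * n) + g (N K * n))) / ((F K).card : ℝ)) = _
    rw [e]
    exact h1 _ _ (bd f hf) (bd g hg)
  · intro c f hf
    have e : (fun K => (∑ n ∈ F K, c * f (N K * n)) / ((F K).card : ℝ)) =
        fun K => c * av (F K) (N K) f := by
      funext K
      exact av_smul (F K) (N K) c f
    show Φ (fun K => (∑ n ∈ F K, c * f (N K * n)) / ((F K).card : ℝ)) = _
    rw [e]
    exact h2 _ _ (bd f hf)
  · intro f hf hpos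
    exact h3 _ (bd f hf) fun K => av_nonneg (hF K) (h0 K) (hN K) f hpos
  · have e : (fun K => (∑ _n ∈ F K, (1 : ℝ)) / ((F K).card : ℝ)) = fun _ => (1 : ℝ) := by
      funext K
      exact av_one (hF K) (N K)
    show Φ (fun K => (∑ _n ∈ F K, (1 : ℝ)) / ((F K).card : ℝ)) = 1
    rw [e]
    exact h4 _ 1 tendsto_const_nhds
  · intro k
    show 0 < k → ∀ f, BdR f → Φ (fun K => av (F K) (N K) (fun n => f (k * n))) =
      Φ (fun K => av (F K) (N K) f)
    induction k using Nat.recOnMul with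
    | zero => intro h; exact absurd h (lt_irrefl 0)
    | one => intro _ f _; simp only [one_mul]
    | prime p hp => intro _ f hf; exact hpr p hp f hf
    | mul a b iha ihb =>
      intro hab f hf
      have ha : 0 < a := by
        rcases Nat.eq_zero_or_pos a with h | h
        · subst h; simp at hab
        · exact h
      have hb : 0 < b := by
        rcases Nat.eq_zero_or_pos b with h | h
        · subst h; simp at hab
        · exact h
      have hfa : BdR (fun n => f (a * n)) := by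
        obtain ⟨C, hC⟩ := hf
        exact ⟨C, fun n => hC _⟩
      have e1 := ihb hb (fun n => f (a * n)) hfa
      have e2 := iha ha f hf
      simp only [mul_assoc]
      exact e1.trans e2

end Pool.Agent.F0f91f8.FC
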