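import Pool.Agent.Work.MP_0f91f8_co.FC.StmtsU

/-!
# Block FC, module U, item US: the true members, functions invariant almost everywhere
-/

set_option autoImplicit false

namespace Pool.Agent.F0f91f8.FC

open Filter Topology ComplexConjugate
open Pool.Agent.F0f91f8.HD
open scoped BigOperators

namespace XUS

theorem prod3 {a b c : ℝ} (ha : 0 ≤ a ∧ a ≤ 1) (hb : 0 ≤ b ∧ b ≤ 1) (hc : 0 ≤ c ∧ c ≤ 1) :
    0 ≤ a * b * c ∧ a * b * c ≤ 1 :=
  ⟨mul_nonneg (mul_nonneg ha.1 hb.1) hc.1,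
    mul_le_one₀ (mul_le_one₀ ha.2 hb.1 hb.2) hc.1 hc.2⟩

theorem bdR_of_01 {F : ℕ → ℝ} (h : ∀ n, 0 ≤ F n ∧ F n ≤ 1) : BdR F :=
  ⟨1, fun n => by rw [abs_of_nonneg (h n).1]; exact (h n).2⟩

theorem bdR_abs {F G : ℕ → ℝ} (hF : ∀ n, 0 ≤ F n ∧ F n ≤ 1) (hG : ∀ n, 0 ≤ G n ∧ G n ≤ 1) :
    BdR fun n => |F n - G n| :=
  ⟨1, fun n => by
    rw [abs_abs, abs_le]
    exact ⟨by linarith [(hF n).1, (hG n).2], by linarith [(hF n).2, (hG n).1]⟩⟩

theorem diff3 {a b c a' b' c' : ℝ} (_ : 0 ≤ a ∧ a ≤ 1) (hb : 0 ≤ b ∧ b ≤ 1)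
    (hc : 0 ≤ c ∧ c ≤ 1) (ha' : 0 ≤ a' ∧ a' ≤ 1) (hb' : 0 ≤ b' ∧ b' ≤ 1)
    (_ : 0 ≤ c' ∧ c' ≤ 1) :
    |a * b * c - a' * b' * c'| ≤ |a - a'| + |b - b'| + |c - c'| := by
  have e : a * b * c - a' * b' * c' =
      (a - a') * (b * c) + a' * ((b - b') * c) + a' * b' * (c - c') := by ring
  rw [e]
  have h1 : |(a - a') * (b * c)| ≤ |a - a'| := by
    rw [abs_mul, abs_of_nonneg (mul_nonneg hb.1 hc.1)]
    exact mul_le_of_le_one_right (abs_nonneg _) (mul_le_one₀ hb.2 hc.1 hc.2)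
  have h2 : |a' * ((b - b') * c)| ≤ |b - b'| := by
    rw [abs_mul, abs_mul, abs_of_nonneg ha'.1, abs_of_nonneg hc.1]
    have h3 : |b - b'| * c ≤ |b - b'| := mul_le_of_le_one_right (abs_nonneg _) hc.2
    exact le_trans (mul_le_of_le_one_left (mul_nonneg (abs_nonneg _) hc.1) ha'.2) h3
  have h3 : |a' * b' * (c - c')| ≤ |c - c'| := by
    rw [abs_mul, abs_of_nonneg (mul_nonneg ha'.1 hb'.1)]
    exact mul_le_of_le_one_left (abs_nonneg _) (mul_le_one₀ ha'.2 hb'.1 hb'.2)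
  calc |(a - a') * (b * c) + a' * ((b - b') * c) + a' * b' * (c - c')|
      ≤ |(a - a') * (b * c) + a' * ((b - b') * c)| + |a' * b' * (c - c')| := abs_add_le _ _
    _ ≤ |(a - a') * (b * c)| + |a' * ((b - b') * c)| + |a' * b' * (c - c')| := by
        gcongr
        exact abs_add_le _ _
    _ ≤ _ := by linarith

/-- two bounded functions whose difference is bounded by a null function have the same mean -/
theorem meq_of {m : (ℕ → ℝ) → ℝ} (hAm : StAm) (hm : IsMean m) {A B D : ℕ → ℝ} (hA : BdR A)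
    (hB : BdR B) (hD : BdR D) (h : ∀ n, |A n - B n| ≤ D n) (h0 : m D = 0) : m A = m B := by
  obtain ⟨mono, -, -, -, -, -, -⟩ := hAm m hm
  have bd : ∀ {F G : ℕ → ℝ}, BdR F → BdR G → BdR fun n => F n + G n := by
    rintro F G ⟨C, hC⟩ ⟨C', hC'⟩
    exact ⟨C + C', fun n => le_trans (abs_add_le _ _) (add_le_add (hC n) (hC' n))⟩
  have h1 : m A ≤ m B := by
    have := mono A (fun n => B n + D n) hA (bd hB hD)
      fun n _ => by linarith [(abs_le.mp (h n)).2]
    rw [hm.1 B D hB hD, h0] at this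
    linarith
  have h2 : m B ≤ m A := by
    have := mono B (fun n => A n + D n) hB (bd hA hD)
      fun n _ => by linarith [(abs_le.mp (h n)).1]
    rw [hm.1 A D hA hD, h0] at this
    linarith
  exact le_antisymm h1 h2

end XUS

open XUS in
/-- [US] The true members, functions which are invariant almost everywhere. -/
theorem pr_US (hTh : ThinS) (hTC : StTC) (hAm : StAm) (hUA : StUA) (hAM : StAM) : StUS := by
  classical
  intro ι _ _ cl hFat pp hpp m hm f hf hinv ε hε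
  obtain ⟨w₀, hw₀⟩ := hTh {p | cl p = none} hFat.1 ε hε
  refine ⟨w₀, fun w hw κ hκ => ?_⟩
  obtain ⟨M₀, hM₀⟩ := hw₀ w hw κ hκ
  refine ⟨max M₀ 1, fun M hM => ?_⟩
  have hM1 : 1 ≤ M := le_trans (le_max_right _ _) hM
  have hM2 : M₀ ≤ M := le_trans (le_max_left _ _) hM
  obtain ⟨mono, -, mconst, -, -, -, -⟩ := hAm m hm
  obtain ⟨-, -, -, -, tadd, -, -, -, -, -⟩ := hTC w κ M hM1
  have hκ0 : 0 < κ := hκ.1
  set F : ℕ → ℕ → ℕ → ℝ := fun x y t =>
    Qm m pp f (dil (2 * κ) f) f (hv cl x) (hv cl y) (hv cl t) with hF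
  set G : ℕ → ℕ → ℕ → ℝ := fun x y t =>
    m fun n => f (2 * κ * x * n) * f (y * n) * f (t * n) with hG
  have hF1 : ∀ x y t, F x y t ≤ 1 := by
    intro x y t
    have h1 : ∀ n, 0 ≤ f (nn pp (hv cl t) * n) * dil (2 * κ) f (nn pp (hv cl x) * n) *
        f (nn pp (hv cl y) * n) ∧ f (nn pp (hv cl t) * n) *
        dil (2 * κ) f (nn pp (hv cl x) * n) * f (nn pp (hv cl y) * n) ≤ 1 :=
      fun n => prod3 (hf _) (hf _) (hf _)
    have h2 := mono _ _ (bdR_of_01 h1) ⟨1, fun n => by rw [abs_one]⟩ fun n _ => (h1 n).2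
    rw [mconst 1] at h2
    exact h2
  have hG0 : ∀ x y t, 0 ≤ G x y t := by
    intro x y t
    have h1 : ∀ n, 0 ≤ f (2 * κ * x * n) * f (y * n) * f (t * n) ∧
        f (2 * κ * x * n) * f (y * n) * f (t * n) ≤ 1 :=
      fun n => prod3 (hf _) (hf _) (hf _)
    have h2 := mono (fun _ => 0) _ ⟨0, fun n => by rw [abs_zero]⟩ (bdR_of_01 h1)
      fun n _ => (h1 n).1
    rw [mconst 0] at h2
    exact h2
  have hFG : ∀ x y t : ℕ, 0 < x → 0 < y → 0 < t →
      (∀ p : ℕ, p.Prime → p ∣ x * y * t → w < p) →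
      (∀ p : ℕ, p.Prime → w < p → p ∈ {p | cl p = none} → ¬ p ∣ x * y * t) →
      F x y t = G x y t := by
    intro x y t hx hy ht h1 h2
    have hcl : ∀ p : ℕ, p.Prime → p ∣ x * y * t → cl p ≠ none :=
      fun p hp hd hn => h2 p hp (h1 p hp hd) hn hd
    have hb1 : ∀ n, 0 ≤ f (nn pp (hv cl t) * n) * dil (2 * κ) f (nn pp (hv cl x) * n) *
        f (nn pp (hv cl y) * n) ∧ f (nn pp (hv cl t) * n) *
        dil (2 * κ) f (nn pp (hv cl x) * n) * f (nn pp (hv cl y) * n) ≤ 1 :=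
      fun n => prod3 (hf _) (hf _) (hf _)
    have hb2 : ∀ n, 0 ≤ f (2 * κ * x * n) * f (y * n) * f (t * n) ∧
        f (2 * κ * x * n) * f (y * n) * f (t * n) ≤ 1 :=
      fun n => prod3 (hf _) (hf _) (hf _)
    have z1 : ∀ u : ℕ, 0 < u → (∀ p : ℕ, p.Prime → p ∣ u → cl p ≠ none) →
        m (fun n => |f (u * n) - f (nn pp (hv cl u) * n)|) = 0 := fun u hu hp =>
      hUA ι _ _ cl pp hpp m hm f (bdR_of_01 hf) hinv u hu hp
    have bb : ∀ u v : ℕ, BdR fun n => |f (u * n) - f (v * n)| := fun u v =>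
      bdR_abs (fun n => hf (u * n)) fun n => hf (v * n)
    have zx : m (fun n => |f (x * (2 * κ * n)) - f (nn pp (hv cl x) * (2 * κ * n))|) = 0 := by
      have h3 := hm.2.2.2.2 (2 * κ) (by positivity)
        (fun n => |f (x * n) - f (nn pp (hv cl x) * n)|) (bb _ _)
      rw [z1 x hx fun p hp hd => hcl p hp ((hd.mul_right y).mul_right t)] at h3
      exact h3
    have zy := z1 y hy fun p hp hd => hcl p hp ((hd.mul_left x).mul_right t)
    have zt := z1 t ht fun p hp hd => hcl p hp (hd.mul_left (x * y))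
    have bx : BdR fun n => |f (x * (2 * κ * n)) - f (nn pp (hv cl x) * (2 * κ * n))| :=
      bdR_abs (fun n => hf (x * (2 * κ * n))) fun n => hf (nn pp (hv cl x) * (2 * κ * n))
    have bxy : BdR fun n => |f (x * (2 * κ * n)) - f (nn pp (hv cl x) * (2 * κ * n))| +
        |f (y * n) - f (nn pp (hv cl y) * n)| := by
      obtain ⟨C, hC⟩ := bx
      obtain ⟨C', hC'⟩ := bb y (nn pp (hv cl y))
      exact ⟨C + C', fun n => le_trans (abs_add_le _ _) (add_le_add (hC n) (hC' n))⟩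
    have bD : BdR fun n => |f (x * (2 * κ * n)) - f (nn pp (hv cl x) * (2 * κ * n))| +
        |f (y * n) - f (nn pp (hv cl y) * n)| + |f (t * n) - f (nn pp (hv cl t) * n)| := by
      obtain ⟨C, hC⟩ := bxy
      obtain ⟨C', hC'⟩ := bb t (nn pp (hv cl t))
      exact ⟨C + C', fun n => le_trans (abs_add_le _ _) (add_le_add (hC n) (hC' n))⟩
    have z0 : m (fun n => |f (x * (2 * κ * n)) - f (nn pp (hv cl x) * (2 * κ * n))| +
        |f (y * n) - f (nn pp (hv cl y) * n)| + |f (t * n) - f (nn pp (hv cl t) * n)|) = 0 := by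
      rw [hm.1 (fun n => |f (x * (2 * κ * n)) - f (nn pp (hv cl x) * (2 * κ * n))| +
        |f (y * n) - f (nn pp (hv cl y) * n)|) (fun n => |f (t * n) - f (nn pp (hv cl t) * n)|)
        bxy (bb _ _), hm.1 (fun n => |f (x * (2 * κ * n)) - f (nn pp (hv cl x) * (2 * κ * n))|)
        (fun n => |f (y * n) - f (nn pp (hv cl y) * n)|) bx (bb _ _), zx, zy, zt]
      ring
    refine meq_of hAm hm (bdR_of_01 hb1) (bdR_of_01 hb2) bD (fun n => ?_) z0
    have e4 : 2 * κ * x * n = x * (2 * κ * n) := by ring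
    have e5 : dil (2 * κ) f (nn pp (hv cl x) * n) = f (nn pp (hv cl x) * (2 * κ * n)) := by
      unfold dil
      congr 1
      ring
    rw [e4, e5]
    have h4 := diff3 (hf (x * (2 * κ * n))) (hf (y * n)) (hf (t * n))
      (hf (nn pp (hv cl x) * (2 * κ * n))) (hf (nn pp (hv cl y) * n)) (hf (nn pp (hv cl t) * n))
    rw [abs_sub_comm] at h4
    calc |f (nn pp (hv cl t) * n) * f (nn pp (hv cl x) * (2 * κ * n)) *
          f (nn pp (hv cl y) * n) - f (x * (2 * κ * n)) * f (y * n) * f (t * n)|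
        = |f (nn pp (hv cl x) * (2 * κ * n)) * f (nn pp (hv cl y) * n) *
          f (nn pp (hv cl t) * n) - f (x * (2 * κ * n)) * f (y * n) * f (t * n)| := by
          congr 1
          ring
      _ ≤ _ := h4
  set φ : ℕ → ℕ → ℕ → ℝ := fun x y t =>
    if ∀ p : ℕ, p.Prime → p ∣ x * y * t → w < p then F x y t - G x y t else 0 with hφ
  have h1 : AF w κ M φ ≤ ε := by
    apply hM₀ M hM2 φ
    · intro x y t _ _ _
      rw [hφ]
      show (if ∀ p : ℕ, p.Prime → p ∣ x * y * t → w < p then F x y t - G x y t else 0) ≤ 1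
      split_ifs
      · linarith [hF1 x y t, hG0 x y t]
      · exact zero_le_one
    · intro x y t hx hy ht hT
      rw [hφ]
      show (if ∀ p : ℕ, p.Prime → p ∣ x * y * t → w < p then F x y t - G x y t else 0) ≤ 0
      split_ifs with hc
      · rw [hFG x y t hx hy ht hc hT]
        linarith
      · exact le_rfl
  have h2 : AF w κ M F ≤ AF w κ M (fun x y t => G x y t + φ x y t) := by
    apply hAM w κ M hκ
    intro x y t _ _ _ hc
    have h3 : φ x y t = F x y t - G x y t := by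
      rw [hφ]
      show (if ∀ p : ℕ, p.Prime → p ∣ x * y * t → w < p then F x y t - G x y t else 0) = _
      rw [if_pos hc]
    rw [h3]
    linarith
  rw [tadd G φ] at h2
  linarith

end Pool.Agent.F0f91f8.FC
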