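import Pool.Agent.Work.MP_0f91f8_co.FC.StmtsU

/-!
# Block FC, module U, item UT: the density theorem for several functions and one triple
-/

set_option autoImplicit false

namespace Pool.Agent.F0f91f8.FC

open Filter Topology ComplexConjugate
open Pool.Agent.F0f91f8.HD
open scoped BigOperators

namespace XUT

lemma kp_pos (w K : ℕ) (e : Fin (w + 1) → Fin K) : 0 < kp w K e := by
  unfold kp
  refine Finset.prod_pos fun p _ => ?_
  split_ifs with h
  · exact pow_pos h.pos _
  · exact one_pos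

lemma adm (w K : ℕ) (e : Fin (w + 1) → Fin K) : Adm w (w.factorial * kp w K e) := by
  refine ⟨Nat.mul_pos (Nat.factorial_pos w) (kp_pos w K e), dvd_mul_right _ _, ?_⟩
  intro p hp hd
  rcases (Nat.Prime.dvd_mul hp).1 hd with h | h
  · exact (hp.dvd_factorial).1 h
  · unfold kp at h
    obtain ⟨q, -, hq⟩ := (Prime.dvd_finsetProd_iff hp.prime _).1 h
    split_ifs at hq with h1
    · have h2 := (Nat.prime_dvd_prime_iff_eq hp h1).1 (hp.dvd_of_dvd_pow hq)
      rw [h2]
      have := q.2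
      omega
    · exact absurd (Nat.dvd_one.1 hq) hp.one_lt.ne'

lemma AF_sum (hTC : StTC) (w κ M : ℕ) (hM : 1 ≤ M) {β : Type} [DecidableEq β] (s : Finset β)
    (G : β → ℕ → ℕ → ℕ → ℝ) :
    AF w κ M (fun x y z => ∑ i ∈ s, G i x y z) = ∑ i ∈ s, AF w κ M (G i) := by
  obtain ⟨-, -, -, -, hadd, -, -, hc, -, -⟩ := hTC w κ M hM
  induction s using Finset.induction_on with
  | empty => simpa using hc 0
  | insert a s ha ih =>
    rw [Finset.sum_insert ha, ← ih, ← hadd]
    congr 1
    funext x y z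
    rw [Finset.sum_insert ha]

end XUT

open XUT in
theorem pr_UT (hRep : RepS) (hTC : StTC) (_hAm : StAm) (hAP : StAP) (hAR : StAR)
    (hUS : StUS) (hAK : StAK) : StUT := by
  classical
  intro ι _ _ cl hF m hm r f hf hInv ε hε
  have hex : ∀ i : ι, ∃ p : ℕ, p.Prime ∧ cl p = some i := by
    intro i
    by_contra hno
    push Not at hno
    apply hF.2 i
    unfold Thin
    have h0 : (fun p : Nat.Primes => Set.indicator {p : ℕ | cl p = some i}
        (fun p : ℕ => 1 / (p : ℝ)) (p : ℕ)) = fun _ => 0 := by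
      funext p
      rw [Set.indicator_of_notMem]
      exact hno p p.2
    rw [h0]
    exact summable_zero
  choose pp hpp using hex
  have hR : Rpr cl pp := hpp
  obtain ⟨R⟩ := hRep m hm
  have hr1 : (0 : ℝ) < (r : ℝ) + 1 := by positivity
  obtain ⟨δ, hδ, hεδ⟩ : ∃ δ : ℝ, 0 < δ ∧ ε = 32 * (((r : ℝ) + 1) * δ) :=
    ⟨ε / (32 * ((r : ℝ) + 1)), by positivity, by field_simp⟩
  subst hεδ
  choose f' X₁ hApx using fun i : Fin r => hAP ι _ _ cl pp hR m hm R (f i) (hf i) δ hδ
  choose w1 h1 using fun i : Fin r =>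
    hAR ι _ _ cl hF pp hR m hm R (f i) (f' i) (X₁ i) δ (hf i) hδ (hApx i)
  choose w2 h2 using fun i : Fin r => hUS ι _ _ cl hF pp hR m hm (f i) (hf i) (hInv i) δ hδ
  obtain ⟨w, hw2, hw1, hw3⟩ : ∃ w : ℕ, 2 ≤ w ∧ (∀ i, w1 i ≤ w) ∧ ∀ i, w2 i ≤ w := by
    refine ⟨2 + ∑ i, w1 i + ∑ i, w2 i, by omega, fun i => ?_, fun i => ?_⟩
    · have := Finset.single_le_sum (f := w1) (fun i _ => Nat.zero_le _) (Finset.mem_univ i)
      omega
    · have := Finset.single_le_sum (f := w2) (fun i _ => Nat.zero_le _) (Finset.mem_univ i)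
      omega
  choose K0 hK0 using fun i : Fin r => hAK m hm R (f' i) (hApx i).h01 w δ hw2 hδ
  obtain ⟨K, hK1, hKK0⟩ : ∃ K : ℕ, 1 ≤ K ∧ ∀ i, K0 i ≤ K := by
    refine ⟨1 + ∑ i, K0 i, by omega, fun i => ?_⟩
    have := Finset.single_le_sum (f := K0) (fun i _ => Nat.zero_le _) (Finset.mem_univ i)
    omega
  have hK := fun i => hK0 i K (hKK0 i)
  choose M1 hM1 using fun (i : Fin r) (e : Fin (w + 1) → Fin K) =>
    h1 i w (hw1 i) (w.factorial * kp w K e) (adm w K e)
  choose M2 hM2 using fun (i : Fin r) (e : Fin (w + 1) → Fin K) =>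
    h2 i w (hw3 i) (w.factorial * kp w K e) (adm w K e)
  obtain ⟨M, hM, hMe1, hMe2⟩ : ∃ M : ℕ, 1 ≤ M ∧ (∀ i e, M1 i e ≤ M) ∧ ∀ i e, M2 i e ≤ M := by
    refine ⟨1 + ∑ i, ∑ e, M1 i e + ∑ i, ∑ e, M2 i e, by omega, fun i e => ?_, fun i e => ?_⟩
    · have a1 := Finset.single_le_sum (f := M1 i) (fun i _ => Nat.zero_le _)
        (Finset.mem_univ e)
      have a2 := Finset.single_le_sum (f := fun i => ∑ e, M1 i e) (fun i _ => Nat.zero_le _)
        (Finset.mem_univ i)
      omega
    · have a1 := Finset.single_le_sum (f := M2 i) (fun i _ => Nat.zero_le _)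
        (Finset.mem_univ e)
      have a2 := Finset.single_le_sum (f := fun i => ∑ e, M2 i e) (fun i _ => Nat.zero_le _)
        (Finset.mem_univ i)
      omega
  have hE : ∀ (i : Fin r) (e : Fin (w + 1) → Fin K),
      (m fun n => f' i n ^ 2 * f' i (2 * (w.factorial * kp w K e) * n)) - 14 * δ ≤
      AF w (w.factorial * kp w K e) M fun x y t => m fun n =>
        f i (2 * (w.factorial * kp w K e) * x * n) * f i (y * n) * f i (t * n) := by
    intro i e
    have a1 := hM1 i e M (hMe1 i e)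
    have a2 := hM2 i e M (hMe2 i e)
    linarith
  have hEs : ∀ e : Fin (w + 1) → Fin K,
      (∑ i, m fun n => f' i n ^ 2 * f' i (2 * (w.factorial * kp w K e) * n)) -
        (r : ℝ) * (14 * δ) ≤
      AF w (w.factorial * kp w K e) M fun x y t => ∑ i, m fun n =>
        f i (2 * (w.factorial * kp w K e) * x * n) * f i (y * n) * f i (t * n) := by
    intro e
    rw [AF_sum hTC w _ M hM Finset.univ (fun i x y t => m fun n =>
        f i (2 * (w.factorial * kp w K e) * x * n) * f i (y * n) * f i (t * n))]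
    have h3 := Finset.sum_le_sum (s := (Finset.univ : Finset (Fin r)))
      (fun i _ => hE i e)
    rw [Finset.sum_sub_distrib, Finset.sum_const, Finset.card_univ, Fintype.card_fin,
      nsmul_eq_mul] at h3
    exact h3
  obtain ⟨e, he⟩ : ∃ e : Fin (w + 1) → Fin K,
      ∑ i, m (f i) ^ 3 - 32 * (((r : ℝ) + 1) * δ) <
      AF w (w.factorial * kp w K e) M fun x y t => ∑ i, m fun n =>
        f i (2 * (w.factorial * kp w K e) * x * n) * f i (y * n) * f i (t * n) := by
    by_contra hno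
    push Not at hno
    have hKpos : (0 : ℝ) < K := by exact_mod_cast hK1
    have hpos : (0 : ℝ) < (K : ℝ) ^ (w + 1) := by positivity
    have hsum : ∑ e : Fin (w + 1) → Fin K,
        (∑ i, m fun n => f' i n ^ 2 * f' i (2 * (w.factorial * kp w K e) * n)) ≤
        (K : ℝ) ^ (w + 1) * (∑ i, m (f i) ^ 3 - 32 * (((r : ℝ) + 1) * δ) +
          (r : ℝ) * (14 * δ)) := by
      have h3 : ∀ e ∈ (Finset.univ : Finset (Fin (w + 1) → Fin K)),
          (∑ i, m fun n => f' i n ^ 2 * f' i (2 * (w.factorial * kp w K e) * n)) ≤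
            ∑ i, m (f i) ^ 3 - 32 * (((r : ℝ) + 1) * δ) + (r : ℝ) * (14 * δ) := by
        intro e _
        have a1 := hEs e
        have a2 := hno e
        linarith
      refine (Finset.sum_le_sum h3).trans (le_of_eq ?_)
      rw [Finset.sum_const, nsmul_eq_mul, Finset.card_univ, Fintype.card_fun, Fintype.card_fin,
        Fintype.card_fin]
      push_cast
      ring
    have hKi : ∀ i : Fin r, (m (f i) ^ 3 - δ) * (K : ℝ) ^ (w + 1) ≤
        ∑ e : Fin (w + 1) → Fin K,
          m fun n => f' i n ^ 2 * f' i (2 * (w.factorial * kp w K e) * n) := by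
      intro i
      have a1 := hK i
      rw [(hApx i).hm, le_div_iff₀ hpos] at a1
      exact a1
    have hKs := Finset.sum_le_sum (s := (Finset.univ : Finset (Fin r))) (fun i _ => hKi i)
    rw [Finset.sum_comm, ← Finset.sum_mul, Finset.sum_sub_distrib, Finset.sum_const,
      Finset.card_univ, Fintype.card_fin, nsmul_eq_mul] at hKs
    have h4 : (∑ i, m (f i) ^ 3 - (r : ℝ) * δ) * (K : ℝ) ^ (w + 1) ≤
        (∑ i, m (f i) ^ 3 - 32 * (((r : ℝ) + 1) * δ) + (r : ℝ) * (14 * δ)) *
          (K : ℝ) ^ (w + 1) := by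
      refine hKs.trans (hsum.trans (le_of_eq ?_))
      ring
    have h5 := le_of_mul_le_mul_right h4 hpos
    have h6 : 0 ≤ (r : ℝ) * δ := by positivity
    nlinarith
  obtain ⟨-, -, -, -, -, -, -, -, -, hlast⟩ := hTC w (w.factorial * kp w K e) M hM
  obtain ⟨a, n, ha, hn, hc⟩ := hlast _ _ he
  have hκ := (adm w K e).1
  refine ⟨2 * (w.factorial * kp w K e) * xF (w.factorial * kp w K e) a n,
    yF (w.factorial * kp w K e) a n, zF (w.factorial * kp w K e) a n, ?_, ?_, ?_,
    xyzF _ _ _, ?_⟩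
  · unfold xF
    positivity
  · unfold yF
    positivity
  · unfold zF
    positivity
  · exact hc.le

end Pool.Agent.F0f91f8.FC
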