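import Pool.Agent.Work.MP_0f91f8_co.FC.StmtsU
import Pool.Agent.Work.MP_0f91f8_co.FC.I_AX

/-!
# Block FC, item UX: arbitrary classes, almost everywhere invariance (helper73)
-/

set_option autoImplicit false

namespace Pool.Agent.F0f91f8.FC

open Filter Topology
open scoped BigOperators

theorem pr_UX (hUT : StUT) : StUX := by
  classical
  intro P h0 d cl₀ m hm r f hf hinv₀ ε hε
  let cl : ℕ → Fin (d + 1) := fun p => if p ∈ P then 0 else (cl₀ p).succ
  have hcl0 : ∀ p, cl p = 0 ↔ p ∈ P := by
    intro p
    simp only [cl]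
    split_ifs with h
    · simp [h]
    · simp [h, Fin.succ_ne_zero]
  have hcls : ∀ p q, cl p = cl q → cl p ≠ 0 → p ∉ P ∧ q ∉ P ∧ cl₀ p = cl₀ q := by
    intro p q h h1
    have hp : p ∉ P := fun h2 => h1 ((hcl0 p).2 h2)
    have hq : q ∉ P := fun h2 => h1 (h.trans ((hcl0 q).2 h2))
    refine ⟨hp, hq, ?_⟩
    simp only [cl, if_neg hp, if_neg hq] at h
    exact Fin.succ_injective _ h
  let ι : Type := {i : Fin (d + 1) // i ≠ 0 ∧ ¬ Thin {p | cl p = i}}
  let cl' : ℕ → Option ι := fun p =>
    if h : cl p ≠ 0 ∧ ¬ Thin {q | cl q = cl p} then some ⟨cl p, h⟩ else none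
  have hcl : ∀ (p : ℕ) (i : ι), cl' p = some i ↔ cl p = i.1 := by
    intro p i
    simp only [cl']
    constructor
    · intro h
      split_ifs at h with h1
      rw [← Option.some.inj h]
    · intro h
      have h1 : cl p ≠ 0 ∧ ¬ Thin {q | cl q = cl p} := by
        rw [h]
        exact i.2
      rw [dif_pos h1]
      congr 1
      exact Subtype.ext h
  have hfat : Fat cl' := by
    refine ⟨?_, fun i => ?_⟩
    · refine XAX.thin_union cl _ fun p hp => ?_
      have hp' : cl' p = none := hp
      simp only [cl'] at hp'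
      split_ifs at hp' with h1
      by_contra h2
      apply h1
      refine ⟨fun h3 => h2 ?_, h2⟩
      have h4 : {q | cl q = cl p} = P := by
        ext q
        simp only [Set.mem_setOf_eq]
        rw [h3]
        exact hcl0 q
      rw [h4]
      exact XAX.thin_of h0
    · have h1 : {p | cl' p = some i} = {p | cl p = i.1} := by
        ext p
        exact hcl p i
      rw [h1]
      exact i.2.2
  have hinv : ∀ j, InvM m cl' (f j) := by
    intro j p q i hp hq hpi hqi
    rw [hcl] at hpi hqi
    have h1 : cl p ≠ 0 := by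
      rw [hpi]
      exact i.2.1
    obtain ⟨h2, h3, h4⟩ := hcls p q (hpi.trans hqi.symm) h1
    exact hinv₀ p q hp hq h2 h3 h4 j
  exact hUT ι inferInstance inferInstance cl' hfat m hm r f hf hinv ε hε

end Pool.Agent.F0f91f8.FC
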