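import Pool.Agent.Work.MP_0f91f8_co.FC.All
import Pool.Agent.Work.MP_0f91f8_co.FC.I_UA
import Pool.Agent.Work.MP_0f91f8_co.FC.I_US
import Pool.Agent.Work.MP_0f91f8_co.FC.I_UT
import Pool.Agent.Work.MP_0f91f8_co.FC.I_UX
import Pool.Agent.Work.MP_0f91f8_co.FC.I_UL
import Pool.Agent.Work.MP_0f91f8_co.FC.I_UF

/-!
# Block FC, module U: composition, no hypotheses (helper79)
-/

set_option autoImplicit false

namespace Pool.Agent.F0f91f8.FC

theorem all_US : StUS := pr_US all_ThinS pr_TC pr_Am (pr_UA pr_Am) pr_AM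

theorem all_UT : StUT :=
  pr_UT all_RepS pr_TC pr_Am (pr_AP all_DecS all_ErgS pr_TA pr_Am (pr_An pr_Am) (pr_AW pr_TA)) all_AR
    all_US (pr_AK pr_Am (pr_An pr_Am) (pr_AG all_ErgS))

theorem all_UX : StUX := pr_UX all_UT

/-- finitary uniform density form -/
theorem all_FinF : FinF := pr_UF all_UX pr_UL

end Pool.Agent.F0f91f8.FC
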