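import Pool.Agent.Work.MP_0f91f8_co.K.Defs

/-!
# Finitely many classes of primes: definitions and interface statements (block FC, MP_0f91f8_co)

THEOREM FC. Let `P_0` be a set of primes with `∑ 1/p < ∞` and let the other primes be divided into finitely
many classes. Every finite colouring `c` of the positive integers with `c (p n) = c (q n)` for all `p`, `q`
in the same class has a monochromatic Pythagorean triple. Density form: if the indicator of `A` has this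
invariance then for every dilation invariant mean `m` and `ε > 0` there is a triple with
`m (A/x ∩ A/y ∩ A/z) ≥ m(A)³ - ε`.

A class function is `cl : ℕ → Option ι`, `ι` finite; only the values at primes matter; `cl p = none` for
the thin part. `hv cl n : ι → ℕ` counts the prime factors of `n` in every class, with multiplicity.

Family: `κ` with all prime factors `≤ w`, `w! ∣ κ`, `a ≡ n ≡ 1` modulo `w!`, and
`x = 2κ xF`, `xF = n (a + κ n)`, `y = yF = a (a + 2 κ n)`, `z = zF = (a + κ n)² + (κ n)²`.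

Modules:
* S `DomS`                      : domination of the law of `(hv xF, hv yF, hv zF)` (sieve);
* P `EigS`, `TrivS`, `ThinS`, `RootS` : pretentious functions, thin sets of primes;
* H `RepS`, `WmS`, `DecS`, `ErgS`     : the Hilbert space of a mean, commuting isometries;
* T `TriS`                      : the trilinear averages;
* A `FinS`                      : the final theorem.
-/

set_option autoImplicit false

namespace Pool.Agent.F0f91f8.FC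

open Filter Topology ComplexConjugate
open Pool.Agent.F0f91f8.HD Pool.Agent.F0f91f8.RC Pool.Agent.F0f91f8.KR
open scoped BigOperators

/-! ## Classes of primes -/

/-- a set of primes with finite sum of reciprocals (elements which are not prime are ignored) -/
def Thin (T : Set ℕ) : Prop :=
  Summable fun p : Nat.Primes => T.indicator (fun p : ℕ => 1 / (p : ℝ)) (p : ℕ)

section
variable {ι : Type} [Fintype ι] [DecidableEq ι]

/-- number of prime factors of `n` in the class `i`, with multiplicity -/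
def hv (cl : ℕ → Option ι) (n : ℕ) : ι → ℕ := fun i =>
  ∑ p ∈ n.primeFactors.filter (fun p => cl p = some i), n.factorization p

/-- every class is fat, the rest is thin -/
def Fat (cl : ℕ → Option ι) : Prop :=
  Thin {p | cl p = none} ∧ ∀ i, ¬ Thin {p | cl p = some i}

/-- the character with values `z` -/
def ch (z : ι → ℂ) (α : ι → ℕ) : ℂ := ∏ i, z i ^ α i

/-- unimodular -/
def Uni (z : ι → ℂ) : Prop := ∀ i, ‖z i‖ = 1

/-- the completely multiplicative function with the value `z i` on the class `i` -/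
noncomputable def fz (cl : ℕ → Option ι) (z : ι → ℂ) (n : ℕ) : ℂ :=
  if n = 0 then 0 else ch z (hv cl n)

/-- average over the box `[0,H)^ι` -/
noncomputable def bx (H : ℕ) (f : (ι → ℕ) → ℝ) : ℝ :=
  (∑ j : ι → Fin H, f (fun i => (j i : ℕ))) / (H : ℝ) ^ Fintype.card ι

end

/-! ## The family -/

def xF (κ a n : ℕ) : ℕ := n * (a + κ * n)
def yF (κ a n : ℕ) : ℕ := a * (a + 2 * (κ * n))
def zF (κ a n : ℕ) : ℕ := (a + κ * n) ^ 2 + (κ * n) ^ 2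

theorem xyzF (κ a n : ℕ) : (2 * κ * xF κ a n) ^ 2 + yF κ a n ^ 2 = zF κ a n ^ 2 := by
  unfold xF yF zF; ring

/-- admissible `κ` -/
def Adm (w κ : ℕ) : Prop := 0 < κ ∧ w.factorial ∣ κ ∧ ∀ p : ℕ, p.Prime → p ∣ κ → p ≤ w

/-- real average over the family, `a = w! (v + v') + 1`, `n = w! (u + u') + 1` -/
noncomputable def AF (w κ M : ℕ) (Φ : ℕ → ℕ → ℕ → ℝ) : ℝ :=
  (∑ u ∈ Finset.Icc 1 M, ∑ u' ∈ Finset.Icc 1 M, ∑ v ∈ Finset.Icc 1 M, ∑ v' ∈ Finset.Icc 1 M,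
    Φ (xF κ (w.factorial * (v + v') + 1) (w.factorial * (u + u') + 1))
      (yF κ (w.factorial * (v + v') + 1) (w.factorial * (u + u') + 1))
      (zF κ (w.factorial * (v + v') + 1) (w.factorial * (u + u') + 1))) / (M : ℝ) ^ 4

/-- complex average over the family -/
noncomputable def AC (w κ M : ℕ) (Φ : ℕ → ℕ → ℕ → ℂ) : ℂ :=
  (∑ u ∈ Finset.Icc 1 M, ∑ u' ∈ Finset.Icc 1 M, ∑ v ∈ Finset.Icc 1 M, ∑ v' ∈ Finset.Icc 1 M,
    Φ (xF κ (w.factorial * (v + v') + 1) (w.factorial * (u + u') + 1))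
      (yF κ (w.factorial * (v + v') + 1) (w.factorial * (u + u') + 1))
      (zF κ (w.factorial * (v + v') + 1) (w.factorial * (u + u') + 1))) / (M : ℂ) ^ 4

/-! ## Module S -/

/-- MODULE S: domination. A bounded nonnegative function of the three counting vectors whose averages over
all shifted boxes in the first (or in the second) vector are at most `s` has average at most `ε + C s`,
where `C` does not depend on the size of the box. -/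
def DomS : Prop := ∀ (ι : Type) (_ : Fintype ι) (_ : DecidableEq ι) (cl : ℕ → Option ι), Fat cl →
  ∀ ε : ℝ, 0 < ε → ∃ w₀ : ℕ, ∀ w ≥ w₀, ∀ κ : ℕ, Adm w κ → ∃ C : ℝ, 0 < C ∧ ∀ H : ℕ, 1 ≤ H →
  ∃ M₀ : ℕ, ∀ M ≥ M₀, ∀ (φ : (ι → ℕ) → (ι → ℕ) → (ι → ℕ) → ℝ) (s : ℝ),
  (∀ α β γ, 0 ≤ φ α β γ ∧ φ α β γ ≤ 1) →
  ((∀ α β γ, bx H (fun j : ι → ℕ => φ (α + j) β γ) ≤ s) ∨ (∀ α β γ, bx H (fun j : ι → ℕ => φ α (β + j) γ) ≤ s)) →
  AF w κ M (fun x y z => φ (hv cl x) (hv cl y) (hv cl z)) ≤ ε + C * s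

/-! ## Module P -/

/-- MODULE P, from `Aper3` and `PretStmt` -/
def EigS : Prop := ∀ (ι : Type) (_ : Fintype ι) (_ : DecidableEq ι) (cl : ℕ → Option ι)
  (z' z : ι → ℂ), Uni z' → Uni z → (¬ Pret (fz cl z') ∨ ¬ Pret (fz cl z)) →
  ∀ w κ : ℕ, Adm w κ → Tendsto (fun M : ℕ => AC w κ M fun x y t =>
    ch z' (hv cl x) * ch z (hv cl y) * conj (ch z' (hv cl t) * ch z (hv cl t))) atTop (𝓝 0)

/-- MODULE P: the primes of a thin set, beyond `w`, are rare in the family -/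
def ThinS : Prop := ∀ T : Set ℕ, Thin T → ∀ ε : ℝ, 0 < ε → ∃ w₀ : ℕ, ∀ w ≥ w₀,
  ∀ κ : ℕ, Adm w κ → ∃ M₀ : ℕ, ∀ M ≥ M₀, ∀ φ : ℕ → ℕ → ℕ → ℝ,
  (∀ x y z, 0 < x → 0 < y → 0 < z → φ x y z ≤ 1) →
  (∀ x y z, 0 < x → 0 < y → 0 < z →
    (∀ p : ℕ, p.Prime → w < p → p ∈ T → ¬ p ∣ x * y * z) → φ x y z ≤ 0) →
  AF w κ M φ ≤ ε

/-- MODULE P: if `fz cl z` is pretentious then all `z i` are roots of unity -/
def RootS : Prop := ∀ (ι : Type) (_ : Fintype ι) (_ : DecidableEq ι) (cl : ℕ → Option ι), Fat cl →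
  ∀ z : ι → ℂ, Uni z → Pret (fz cl z) → ∃ N : ℕ, 0 < N ∧ ∀ i, z i ^ N = 1

/-- MODULE P: pretentious characters are trivial at most members -/
def TrivS : Prop := ∀ (ι : Type) (_ : Fintype ι) (_ : DecidableEq ι) (cl : ℕ → Option ι), Fat cl →
  ∀ z : ι → ℂ, Uni z → Pret (fz cl z) → ∀ ε : ℝ, 0 < ε → ∃ w₀ : ℕ, ∀ w ≥ w₀,
  ∀ κ : ℕ, Adm w κ → ∃ M₀ : ℕ, ∀ M ≥ M₀, AF w κ M (fun x y t =>
    ‖1 - ch z (hv cl x)‖ + ‖1 - ch z (hv cl y)‖ + ‖1 - ch z (hv cl t)‖) ≤ ε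

/-! ## Module H, commuting isometries -/

section
variable {ι : Type} [Fintype ι] [DecidableEq ι] {H : Type*} [NormedAddCommGroup H]
  [InnerProductSpace ℂ H]

/-- action of the monoid `ι → ℕ` by isometries -/
def IsAct (S : (ι → ℕ) → H →ₗᵢ[ℂ] H) : Prop :=
  (∀ h, S 0 h = h) ∧ ∀ a b h, S (a + b) h = S a (S b h)

/-- joint eigenvectors -/
def EigV (S : (ι → ℕ) → H →ₗᵢ[ℂ] H) (z : ι → ℂ) (e : H) : Prop := ∀ a, S a e = ch z a • e

/-- the closed span of the joint eigenvectors with character in `Y` -/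
noncomputable def Es (S : (ι → ℕ) → H →ₗᵢ[ℂ] H) (Y : Set (ι → ℂ)) : Submodule ℂ H :=
  (Submodule.span ℂ {e | ∃ z ∈ Y, Uni z ∧ EigV S z e}).topologicalClosure

/-- orthogonal to all joint eigenvectors -/
def Wm (S : (ι → ℕ) → H →ₗᵢ[ℂ] H) (g : H) : Prop :=
  ∀ (z : ι → ℂ) (e : H), Uni z → EigV S z e → inner ℂ e g = 0

end

/-- MODULE H: weakly mixing vectors -/
def WmS : Prop := ∀ (ι : Type) (_ : Fintype ι) (_ : DecidableEq ι) (H : Type)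
  (_ : NormedAddCommGroup H) (_ : InnerProductSpace ℂ H) (_ : CompleteSpace H)
  (S : (ι → ℕ) → H →ₗᵢ[ℂ] H), IsAct S → ∀ g : H, Wm S g → ∀ ε : ℝ, 0 < ε →
  ∃ L₀ : ℕ, ∀ L ≥ L₀, ∀ (β : ι → ℕ) (F : H), ‖F‖ ≤ 1 →
    bx L (fun j : ι → ℕ => ‖inner ℂ F (S (β + j) g)‖ ^ 2) ≤ ε

/-- MODULE H: decomposition -/
def DecS : Prop := ∀ (ι : Type) (_ : Fintype ι) (_ : DecidableEq ι) (H : Type)
  (_ : NormedAddCommGroup H) (_ : InnerProductSpace ℂ H) (_ : CompleteSpace H)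
  (S : (ι → ℕ) → H →ₗᵢ[ℂ] H), IsAct S → ∀ (Y : Set (ι → ℂ)) (g : H),
  ∃ g₁ ∈ Es S Y, ∃ g₂ ∈ Es S Yᶜ, ∃ g₃ : H, Wm S g₃ ∧ g = g₁ + g₂ + g₃ ∧
    ‖g₁‖ ≤ ‖g‖ ∧ ‖g₂‖ ≤ ‖g‖ ∧ ‖g₃‖ ≤ ‖g‖

/-- MODULE H: a submonoid `Λ` of a commutative monoid of isometries; `e` is the projection of `f` to the
invariant vectors, and a limit of convex combinations of the orbit -/
def ErgS : Prop := ∀ (G : Type) (_ : AddCommMonoid G) (H : Type)
  (_ : NormedAddCommGroup H) (_ : InnerProductSpace ℂ H) (_ : CompleteSpace H)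
  (S : G → H →ₗᵢ[ℂ] H), (∀ h, S 0 h = h) → (∀ a b h, S (a + b) h = S a (S b h)) → ∀ f : H,
  ∃ e : H, (∀ a, S a e = e) ∧ ∀ ε : ℝ, 0 < ε →
    ∃ (s : Finset G) (c : G → ℝ), (∀ a, 0 ≤ c a) ∧ ∑ a ∈ s, c a = 1 ∧
      ‖(∑ a ∈ s, (c a : ℂ) • S a f) - e‖ ≤ ε

/-! ## Means -/

/-- bounded -/
def BdR (f : ℕ → ℝ) : Prop := ∃ C : ℝ, ∀ n, |f n| ≤ C
def BdC (f : ℕ → ℂ) : Prop := ∃ C : ℝ, ∀ n, ‖f n‖ ≤ C

/-- dilation invariant means on the positive integers -/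
def IsMean (m : (ℕ → ℝ) → ℝ) : Prop :=
  (∀ f g, BdR f → BdR g → m (fun n => f n + g n) = m f + m g) ∧
  (∀ (c : ℝ) f, BdR f → m (fun n => c * f n) = c * m f) ∧
  (∀ f, BdR f → (∀ n, 0 < n → 0 ≤ f n) → 0 ≤ m f) ∧
  m (fun _ => 1) = 1 ∧
  ∀ k : ℕ, 0 < k → ∀ f, BdR f → m (fun n => f (k * n)) = m f

/-- the mean of a complex function -/
noncomputable def mC (m : (ℕ → ℝ) → ℝ) (f : ℕ → ℂ) : ℂ :=
  (m (fun n => (f n).re) : ℂ) + (m (fun n => (f n).im) : ℂ) * Complex.I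

/-- the Hilbert space of a mean: `e` is the class of a bounded function, `T n` the dilation by `n`,
`B b h k` is the mean of `b h k` -/
structure Rep (m : (ℕ → ℝ) → ℝ) where
  H : Type
  [ng : NormedAddCommGroup H]
  [ip : InnerProductSpace ℂ H]
  [cs : CompleteSpace H]
  e : (ℕ → ℂ) → H
  T : ℕ → H →ₗᵢ[ℂ] H
  B : (ℕ → ℂ) → H → H → ℂ
  e_add : ∀ F G, BdC F → BdC G → e (fun n => F n + G n) = e F + e G
  e_smul : ∀ (c : ℂ) F, BdC F → e (fun n => c * F n) = c • e F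
  e_inner : ∀ F G, BdC F → BdC G → inner ℂ (e F) (e G) = mC m fun n => conj (F n) * G n
  T_one : ∀ h, T 1 h = h
  T_mul : ∀ k n : ℕ, 0 < k → 0 < n → ∀ h, T (k * n) h = T k (T n h)
  T_e : ∀ k : ℕ, 0 < k → ∀ F, BdC F → T k (e F) = e fun n => F (k * n)
  B_add : ∀ b, BdC b → ∀ h h' k, B b (h + h') k = B b h k + B b h' k
  B_smul : ∀ b, BdC b → ∀ (c : ℂ) (h k : H), B b (c • h) k = c * B b h k
  B_symm : ∀ b, BdC b → ∀ h k, B b h k = B b k h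
  B_le : ∀ (b : ℕ → ℂ) (C : ℝ), (∀ n, ‖b n‖ ≤ C) → ∀ h k, ‖B b h k‖ ≤ C * ‖h‖ * ‖k‖
  B_e : ∀ b F G, BdC b → BdC F → BdC G → B b (e F) (e G) = mC m fun n => b n * F n * G n
  B_T : ∀ b, BdC b → ∀ n : ℕ, 0 < n → ∀ h k, B (fun j => b (n * j)) (T n h) (T n k) = B b h k

attribute [instance] Rep.ng Rep.ip Rep.cs

/-- MODULE H: the Hilbert space exists -/
def RepS : Prop := ∀ m : (ℕ → ℝ) → ℝ, IsMean m → Nonempty (Rep m)

/-- MODULE H: means exist -/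
def MeanS : Prop := ∃ m : (ℕ → ℝ) → ℝ, IsMean m

/-! ## Module T -/

section
variable {ι : Type} [Fintype ι] [DecidableEq ι]

/-- representatives: `pp i` is a prime of the class `i` -/
def Rpr (cl : ℕ → Option ι) (pp : ι → ℕ) : Prop := ∀ i, (pp i).Prime ∧ cl (pp i) = some i

/-- the integer `∏ (pp i)^(α i)` -/
def nn (pp : ι → ℕ) (α : ι → ℕ) : ℕ := ∏ i, pp i ^ α i

/-- the action of `ι → ℕ` -/
noncomputable def Sa {m : (ℕ → ℝ) → ℝ} (R : Rep m) (pp : ι → ℕ) (α : ι → ℕ) : R.H →ₗᵢ[ℂ] R.H :=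
  R.T (nn pp α)

/-- the trilinear expression -/
noncomputable def Tr {m : (ℕ → ℝ) → ℝ} (R : Rep m) (pp : ι → ℕ) (b : ℕ → ℂ) (h k : R.H)
    (α β γ : ι → ℕ) : ℂ :=
  R.B (fun j => b (nn pp γ * j)) (Sa R pp α h) (Sa R pp β k)

end

/-- MODULE T: the trilinear averages. The characters `z` with `fz cl z` pretentious are the only ones that
matter; `g₁` is an error term. -/
def TriS : Prop := ∀ (ι : Type) (_ : Fintype ι) (_ : DecidableEq ι) (cl : ℕ → Option ι), Fat cl →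
  ∀ ε : ℝ, 0 < ε → ∃ w₀ : ℕ, ∀ w ≥ w₀, ∀ κ : ℕ, Adm w κ →
  ∀ (pp : ι → ℕ), Rpr cl pp → ∀ (m : (ℕ → ℝ) → ℝ), IsMean m → ∀ (R : Rep m) (b : ℕ → ℂ),
  (∀ n, ‖b n‖ ≤ 1) → ∀ h g₁ g₂ g₃ : R.H, ‖h‖ ≤ 1 → ‖g₂‖ ≤ 1 → ‖g₃‖ ≤ 1 →
  g₂ ∈ Es (Sa R pp) {z | ¬ Pret (fz cl z)} → Wm (Sa R pp) g₃ →
  ∃ M₀ : ℕ, ∀ M ≥ M₀,
    ‖AC w κ M fun x y t => Tr R pp b h (g₁ + g₂ + g₃) (hv cl x) (hv cl y) (hv cl t)‖ ≤
      ‖g₁‖ + ε ∧
    ‖AC w κ M fun x y t => Tr R pp b (g₁ + g₂ + g₃) h (hv cl x) (hv cl y) (hv cl t)‖ ≤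
      ‖g₁‖ + ε

/-! ## Module A -/

/-- the indicator function of a set -/
noncomputable def ind (A : Set ℕ) (n : ℕ) : ℝ := A.indicator (fun _ => 1) n

/-- invariance: primes of the same class act in the same way -/
def InvA {ι : Type} (cl : ℕ → Option ι) (A : Set ℕ) : Prop :=
  ∀ (p q : ℕ) (i : ι), p.Prime → q.Prime → cl p = some i → cl q = some i →
    ∀ n : ℕ, 0 < n → (p * n ∈ A ↔ q * n ∈ A)

/-- MODULE A, fat classes -/
def FatS : Prop := ∀ (ι : Type) (_ : Fintype ι) (_ : DecidableEq ι) (cl : ℕ → Option ι), Fat cl →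
  ∀ m : (ℕ → ℝ) → ℝ, IsMean m → ∀ A : Set ℕ, InvA cl A → ∀ ε : ℝ, 0 < ε →
  ∃ x y z : ℕ, 0 < x ∧ 0 < y ∧ 0 < z ∧ x ^ 2 + y ^ 2 = z ^ 2 ∧
    m (ind A) ^ 3 - ε ≤ m (ind {n | x * n ∈ A ∧ y * n ∈ A ∧ z * n ∈ A})

/-- FINAL THEOREM, density form: class `0` is thin, the classes `1, ..., d` are arbitrary -/
def FinM : Prop := ∀ (d : ℕ) (cl : ℕ → Fin (d + 1)),
  (Summable fun p : {p : ℕ // p.Prime ∧ cl p = 0} => 1 / ((p : ℕ) : ℝ)) →
  ∀ m : (ℕ → ℝ) → ℝ, IsMean m → ∀ A : Set ℕ,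
  (∀ p q : ℕ, p.Prime → q.Prime → cl p = cl q → cl p ≠ 0 → ∀ n, 0 < n → (p * n ∈ A ↔ q * n ∈ A)) →
  ∀ ε : ℝ, 0 < ε → ∃ x y z : ℕ, 0 < x ∧ 0 < y ∧ 0 < z ∧ x ^ 2 + y ^ 2 = z ^ 2 ∧
    m (ind A) ^ 3 - ε ≤ m (ind {n | x * n ∈ A ∧ y * n ∈ A ∧ z * n ∈ A})

/-- FINAL THEOREM, colouring form -/
def FinC : Prop := ∀ (d : ℕ) (cl : ℕ → Fin (d + 1)),
  (Summable fun p : {p : ℕ // p.Prime ∧ cl p = 0} => 1 / ((p : ℕ) : ℝ)) →
  ∀ (r : ℕ) (c : ℕ → Fin r),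
  (∀ p q : ℕ, p.Prime → q.Prime → cl p = cl q → cl p ≠ 0 → ∀ n, 0 < n → c (p * n) = c (q * n)) →
  ∃ x y z : ℕ, 0 < x ∧ 0 < y ∧ 0 < z ∧ x ^ 2 + y ^ 2 = z ^ 2 ∧ c x = c y ∧ c y = c z

end Pool.Agent.F0f91f8.FC
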