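import Pool.Agent.Work.MP_0f91f8_co.FC.Defs
import Pool.Agent.Work.MP_122e00_nt.Bd.B02

/-!
# Block FC, module S (domination): definitions
-/

set_option autoImplicit false

namespace Pool.Agent.F0f91f8.FC

open Filter Topology ComplexConjugate
open scoped BigOperators

/-- the part of `N` composed of the primes in `(w, y]` -/
def sp (w y N : ℕ) : ℕ :=
  ∏ p ∈ N.primeFactors.filter (fun p => w < p ∧ p ≤ y), p ^ N.factorization p

/-- the part of `N` composed of the primes `> y` -/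
def rp (y N : ℕ) : ℕ := ∏ p ∈ N.primeFactors.filter (fun p => y < p), p ^ N.factorization p

/-- the four forms -/
def Lf (κ n a : ℕ) : Fin 4 → ℕ :=
  ![a, a + κ * n, a + 2 * (κ * n), (a + κ * n) ^ 2 + (κ * n) ^ 2]

/-- the number of roots of `x² + 1` modulo `p` -/
def rho (p : ℕ) : ℕ := ((Finset.range p).filter fun x => p ∣ x ^ 2 + 1).card

/-- the number of residue classes removed by `p` -/
def om (p : ℕ) : ℕ := 3 + rho p

/-- the primes in `(w, y]` which do not divide `N` -/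
def PN (w y N : ℕ) : Finset ℕ := (Finset.Icc 1 y).filter fun p => p.Prime ∧ w < p ∧ ¬ p ∣ N

/-- the sum in the arithmetic large sieve -/
noncomputable def Gs (P : Finset ℕ) (o : ℕ → ℕ) (F : ℕ) : ℝ :=
  ∑ q ∈ (Finset.Icc 1 F).filter (fun q => Squarefree q ∧ q.primeFactors ⊆ P),
    ∏ p ∈ q.primeFactors, (o p : ℝ) / ((p : ℝ) - o p)

/-- admissible tuples: pairwise coprime, primes in `(w, y]`, coprime to `n` -/
def AdmS (w y n : ℕ) (s : Fin 4 → ℕ) : Prop :=
  (∀ j, 0 < s j) ∧ (∀ i j, i ≠ j → Nat.Coprime (s i) (s j)) ∧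
    (∀ j (p : ℕ), p.Prime → p ∣ s j → w < p ∧ p ≤ y) ∧ ∀ j, Nat.Coprime (s j) n

/-- `∏_{p ∣ s} rho p` -/
def rho4 (s : ℕ) : ℕ := ∏ p ∈ s.primeFactors, rho p

/-- the weight of an admissible tuple -/
noncomputable def Wt (w y n : ℕ) (s : Fin 4 → ℕ) : ℝ :=
  (rho4 (s 3) : ℝ) / ((∏ j, s j : ℕ) : ℝ) *
    ∏ p ∈ PN w y ((∏ j, s j) * n), (1 - (om p : ℝ) / p)

open Classical in
/-- the `v ∈ [1, X]` with `s j ∣ L_j` and no other prime of `(w, y]` dividing `L_1 L_2 L_3 L_4`;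
`a = w! v + c` -/
noncomputable def Ns (w y κ n c X : ℕ) (s : Fin 4 → ℕ) : Finset ℕ :=
  (Finset.Icc 1 X).filter fun v => (∀ j, s j ∣ Lf κ n (w.factorial * v + c) j) ∧
    ∀ p ∈ PN w y ((∏ j, s j) * n), ¬ p ∣ ∏ j, Lf κ n (w.factorial * v + c) j

open Classical in
/-- the finite set of admissible tuples with `(∏ s)⁴ ≤ X` -/
noncomputable def SS (w y n X : ℕ) : Finset (Fin 4 → ℕ) :=
  (Fintype.piFinset fun _ : Fin 4 => Finset.range (X + 1)).filter fun s =>
    AdmS w y n s ∧ (∏ j, s j) ^ 4 ≤ X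

section
variable {ι : Type} [Fintype ι] [DecidableEq ι]

/-- the counting vectors of the four forms -/
def hL (cl : ℕ → Option ι) (κ n a : ℕ) : Fin 4 → ι → ℕ := fun j => hv cl (Lf κ n a j)

/-- the vector `j` in the slot `σ` -/
def slot (σ : Fin 4) (j : ι → ℕ) : Fin 4 → ι → ℕ := fun k => if k = σ then j else 0

/-- number of primes of `P` dividing `N` -/
def Np (P : Finset ℕ) (N : ℕ) : ℕ := (P.filter fun p => p ∣ N).card

/-- `∑_{p ∈ P} 1/p` -/
noncomputable def lam (P : Finset ℕ) : ℝ := ∑ p ∈ P, 1 / (p : ℝ)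

/-- the product of the primes of a family of sets -/
def bB (B : ι → Finset ℕ) : ℕ := ∏ i, ∏ p ∈ B i, p

/-- the families `B` with `B i ⊆ P i`, `|B i| = j i` -/
def FB (P : ι → Finset ℕ) (j : ι → ℕ) : Finset (ι → Finset ℕ) :=
  Fintype.piFinset fun i => (P i).powersetCard (j i)

/-- `∏ (j i)! / lam (P i)^(j i)` -/
noncomputable def cj (P : ι → Finset ℕ) (j : ι → ℕ) : ℝ :=
  ∏ i, ((j i).factorial : ℝ) / lam (P i) ^ (j i)

open Classical in
/-- the good `v`: `gcd(a, n) = 1`, the parts in `(w, y]` are small and `L_σ` has many prime factors in all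
the sets `P i` -/
noncomputable def Good (w y κ n c X H : ℕ) (σ : Fin 4) (P : ι → Finset ℕ) : Finset ℕ :=
  (Finset.Icc 1 X).filter fun v => Nat.Coprime (w.factorial * v + c) n ∧
    (∀ j, sp w y (Lf κ n (w.factorial * v + c) j) ^ 16 ≤ X) ∧
    ∀ i, (1 - 1 / (H : ℝ)) * lam (P i) + H ≤ Np (P i) (Lf κ n (w.factorial * v + c) σ)

/-- the setting: parameters and sets of primes -/
structure Set1 (cl : ℕ → Option ι) (w y κ n c : ℕ) (P : ι → Finset ℕ) (w₁ : ℕ) : Prop where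
  hw : 10 ≤ w
  hκ : Adm w κ
  hn : 0 < n ∧ n % w.factorial = 1 % w.factorial
  hc : c % w.factorial = 1 % w.factorial
  hw₁ : w ≤ w₁
  hP : ∀ i, ∀ p ∈ P i, p.Prime ∧ w₁ < p ∧ p ≤ y ∧ cl p = some i

end

end Pool.Agent.F0f91f8.FC
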