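import Pool.Agent.Work.MP_0f91f8_co.FC.StmtsS

/-!
# Block FC, item Av: averaging over the boxes
-/

set_option autoImplicit false

namespace Pool.Agent.F0f91f8.FC

open Filter Topology ComplexConjugate
open scoped BigOperators

namespace XAv

/-- the weights are nonnegative -/
theorem Wt_nonneg (hRh : StRh) (w y n : ℕ) (hw : 10 ≤ w) (s : Fin 4 → ℕ) : 0 ≤ Wt w y n s := by
  unfold Wt
  apply mul_nonneg
  · positivity
  · apply Finset.prod_nonneg
    intro p hp
    unfold PN at hp
    obtain ⟨-, hp1, hp2, -⟩ := Finset.mem_filter.1 hp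
    have h1 := hRh p hp1
    have h2 : om p ≤ p := by
      unfold om
      omega
    have h3 : (0 : ℝ) < p := by
      have : 0 < p := hp1.pos
      exact_mod_cast this
    have h4 : (om p : ℝ) ≤ p := by exact_mod_cast h2
    have h5 : (om p : ℝ) / p ≤ 1 := by
      rw [div_le_one h3]
      exact h4
    linarith

theorem card_t (ι : Type) [Fintype ι] [DecidableEq ι] (K : ℕ) :
    Fintype.card (Fin 4 → ι → Fin (K + 1)) = (K + 1) ^ (4 * Fintype.card ι) := by
  rw [Fintype.card_fun, Fintype.card_fun, Fintype.card_fin, Fintype.card_fin, ← pow_mul,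
    mul_comm (Fintype.card ι) 4]

end XAv

/-- [Av] averaging over the boxes. -/
theorem pr_Av (hRh : StRh) (hMs : StMs) (hMj : StMj) : StAv := by
  intro ι ft de cl w y κ n c P w₁ hS X H K σ hX hH hσ hl hν hN hK φ q hφ hq
  have hw := hS.hw
  have hWt : ∀ s, 0 ≤ Wt w y n s := XAv.Wt_nonneg hRh w y n hw
  have hH1 : (0 : ℝ) < H := by exact_mod_cast hH
  have hH0 : (0 : ℝ) < (H : ℝ) ^ Fintype.card ι := by positivity
  have hq0 : 0 ≤ q := by
    refine le_trans ?_ (hq 0)
    unfold bx
    exact div_nonneg (Finset.sum_nonneg fun j _ => hφ _) hH0.le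
  have h1 : ∀ j : ι → Fin H, (∑ v ∈ Good w y κ n c X H σ P, φ (hL cl κ n (w.factorial * v + c))) ≤
      12 * 4 ^ Fintype.card ι * X * ∑ t : Fin 4 → ι → Fin (K + 1), ∑ s ∈ SS w y n X,
        Wt w y n s * φ ((fun j => hv cl (s j) + fun i => (t j i : ℕ)) +
          slot σ (fun i => (j i : ℕ))) :=
    fun j => hMj ι ft de cl w y κ n c P w₁ hS X H K σ hX hσ hl hν hN hK φ hφ
      (fun i => (j i : ℕ)) (fun i => (j i).2)
  have h2 : (H : ℝ) ^ Fintype.card ι *
      (∑ v ∈ Good w y κ n c X H σ P, φ (hL cl κ n (w.factorial * v + c))) ≤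
      ∑ j : ι → Fin H, 12 * 4 ^ Fintype.card ι * X *
        ∑ t : Fin 4 → ι → Fin (K + 1), ∑ s ∈ SS w y n X,
          Wt w y n s * φ ((fun j => hv cl (s j) + fun i => (t j i : ℕ)) +
            slot σ (fun i => (j i : ℕ))) := by
    have e : (H : ℝ) ^ Fintype.card ι *
        (∑ v ∈ Good w y κ n c X H σ P, φ (hL cl κ n (w.factorial * v + c))) =
        ∑ _j : ι → Fin H, (∑ v ∈ Good w y κ n c X H σ P, φ (hL cl κ n (w.factorial * v + c))) := by
      rw [Finset.sum_const, nsmul_eq_mul, Finset.card_univ, Fintype.card_fun, Fintype.card_fin]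
      push_cast
      rfl
    rw [e]
    exact Finset.sum_le_sum fun j _ => h1 j
  have h3 : (∑ j : ι → Fin H, ∑ t : Fin 4 → ι → Fin (K + 1), ∑ s ∈ SS w y n X,
          Wt w y n s * φ ((fun j => hv cl (s j) + fun i => (t j i : ℕ)) +
            slot σ (fun i => (j i : ℕ)))) ≤
      (H : ℝ) ^ Fintype.card ι * (((K + 1 : ℕ) : ℝ) ^ (4 * Fintype.card ι) * (2 * q)) := by
    rw [Finset.sum_comm]
    have h4 : ∀ t : Fin 4 → ι → Fin (K + 1), (∑ j : ι → Fin H, ∑ s ∈ SS w y n X,
          Wt w y n s * φ ((fun j => hv cl (s j) + fun i => (t j i : ℕ)) +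
            slot σ (fun i => (j i : ℕ)))) ≤ (H : ℝ) ^ Fintype.card ι * (2 * q) := by
      intro t
      rw [Finset.sum_comm]
      have h5 : ∀ s ∈ SS w y n X, (∑ j : ι → Fin H,
          Wt w y n s * φ ((fun j => hv cl (s j) + fun i => (t j i : ℕ)) +
            slot σ (fun i => (j i : ℕ)))) ≤ Wt w y n s * ((H : ℝ) ^ Fintype.card ι * q) := by
        intro s _
        rw [← Finset.mul_sum]
        apply mul_le_mul_of_nonneg_left _ (hWt s)
        have h6 := hq (fun j => hv cl (s j) + fun i => (t j i : ℕ))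
        unfold bx at h6
        rw [div_le_iff₀ hH0] at h6
        linarith
      refine le_trans (Finset.sum_le_sum h5) ?_
      rw [← Finset.sum_mul]
      have h7 := hMs w y n X hw
      have h8 : 0 ≤ (H : ℝ) ^ Fintype.card ι * q := mul_nonneg hH0.le hq0
      have h9 := mul_le_mul_of_nonneg_right h7 h8
      linarith
    refine le_trans (Finset.sum_le_sum fun t _ => h4 t) ?_
    rw [Finset.sum_const, nsmul_eq_mul, Finset.card_univ, XAv.card_t]
    push_cast
    apply le_of_eq
    ring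
  have h10 : (H : ℝ) ^ Fintype.card ι *
      (∑ v ∈ Good w y κ n c X H σ P, φ (hL cl κ n (w.factorial * v + c))) ≤
      (H : ℝ) ^ Fintype.card ι *
        (24 * 4 ^ Fintype.card ι * ((K + 1 : ℕ) : ℝ) ^ (4 * Fintype.card ι) * X * q) := by
    refine le_trans h2 ?_
    rw [← Finset.mul_sum]
    have h11 : (0 : ℝ) ≤ 12 * 4 ^ Fintype.card ι * X := by positivity
    refine le_trans (mul_le_mul_of_nonneg_left h3 h11) ?_
    apply le_of_eq
    ring
  exact le_of_mul_le_mul_left h10 hH0

end Pool.Agent.F0f91f8.FC
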