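import Pool.Agent.Work.MP_0f91f8_co.FC.StmtsS

/-!
# Block FC, item Gc: common factors of `a` and `n` are rare
-/

set_option autoImplicit false

namespace Pool.Agent.F0f91f8.FC

open Filter Topology ComplexConjugate
open scoped BigOperators

namespace XGc

/-- a prime `p` not dividing `Q` divides `Q v + c` for at most `M/p + 1` values `v ≤ M` -/
theorem cnt (Q p c M : ℕ) (hp : p.Prime) (hQ : ¬ p ∣ Q) :
    ((Finset.Icc 1 M).filter fun v => p ∣ Q * v + c).card ≤ M / p + 1 := by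
  have hppos := hp.pos
  have key : ∀ a b : ℕ, a ≤ b → a / p = b / p → p ∣ Q * a + c → p ∣ Q * b + c → a = b := by
    intro a b hab hdiv ha hb
    have h1 : p ∣ (Q * b + c) - (Q * a + c) := Nat.dvd_sub hb ha
    have h2 : (Q * b + c) - (Q * a + c) = Q * (b - a) := by
      rw [Nat.mul_sub]; omega
    rw [h2] at h1
    have h3 : p ∣ b - a := (hp.dvd_mul.mp h1).resolve_left hQ
    have h4 : b - a < p := by
      have e1 := Nat.div_add_mod a p
      have e2 := Nat.div_add_mod b p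
      have e3 := Nat.mod_lt b hppos
      rw [hdiv] at e1
      omega
    have h5 : b - a = 0 := Nat.eq_zero_of_dvd_of_lt h3 h4
    omega
  have hcard : ((Finset.Icc 1 M).filter fun v => p ∣ Q * v + c).card ≤ (Finset.range (M / p + 1)).card := by
    apply Finset.card_le_card_of_injOn (fun v => v / p)
    · intro v hv
      have hv' := (Finset.mem_filter.mp hv).1
      have hv'' := (Finset.mem_Icc.mp hv').2
      show v / p ∈ ((Finset.range (M / p + 1) : Finset ℕ) : Set ℕ)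
      rw [Finset.mem_coe, Finset.mem_range]
      exact Nat.lt_succ_of_le (Nat.div_le_div_right hv'')
    · intro a ha b hb hab
      have ha' := (Finset.mem_filter.mp ha).2
      have hb' := (Finset.mem_filter.mp hb).2
      rcases le_total a b with h | h
      · exact key a b h hab ha' hb'
      · exact (key b a h hab.symm hb' ha').symm
  simpa using hcard

theorem cntR (Q p c M : ℕ) (hp : p.Prime) (hQ : ¬ p ∣ Q) (hpM : p ≤ M) :
    (((Finset.Icc 1 M).filter fun v => p ∣ Q * v + c).card : ℝ) ≤ 2 * M / p := by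
  have h1 := cnt Q p c M hp hQ
  have h2 : (((Finset.Icc 1 M).filter fun v => p ∣ Q * v + c).card : ℝ) ≤ ((M / p : ℕ) : ℝ) + 1 := by
    exact_mod_cast h1
  have h3 : ((M / p : ℕ) : ℝ) ≤ (M : ℝ) / p := Nat.cast_div_le
  have hpp : (0 : ℝ) < p := by exact_mod_cast hp.pos
  have h4 : (1 : ℝ) ≤ (M : ℝ) / p := by
    rw [le_div_iff₀ hpp, one_mul]; exact_mod_cast hpM
  have h5 : 2 * (M : ℝ) / p = (M : ℝ) / p + (M : ℝ) / p := by ring
  linarith

open Classical in
/-- at most one `v ≤ M` has a common prime factor `> M` with `n < M ^ 2` -/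
theorem big (Q c n M : ℕ) (hn0 : 0 < n) (hn : n < M ^ 2) (hQ : ∀ p : ℕ, p.Prime → M < p → ¬ p ∣ Q) :
    ((Finset.Icc 1 M).filter fun v => ∃ p : ℕ, p.Prime ∧ M < p ∧ p ∣ Q * v + c ∧ p ∣ n).card ≤ 1 := by
  rw [Finset.card_le_one]
  intro a ha b hb
  obtain ⟨haM, p, hp, hpM, hpa, hpn⟩ := Finset.mem_filter.mp ha
  obtain ⟨hbM, q, hq, hqM, hqb, hqn⟩ := Finset.mem_filter.mp hb
  have hpq : p = q := by
    by_contra hne
    have hco : Nat.Coprime p q := (Nat.coprime_primes hp hq).mpr hne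
    have hd : p * q ∣ n := hco.mul_dvd_of_dvd_of_dvd hpn hqn
    have hle : p * q ≤ n := Nat.le_of_dvd hn0 hd
    have : M ^ 2 ≤ p * q := by
      rw [pow_two]; exact Nat.mul_le_mul hpM.le hqM.le
    omega
  subst hpq
  have haM2 := Finset.mem_Icc.mp haM
  have hbM2 := Finset.mem_Icc.mp hbM
  have key : ∀ a b : ℕ, a ≤ b → b ≤ M → p ∣ Q * a + c → p ∣ Q * b + c → a = b := by
    intro a b hab hbM ha hb
    have h1 : p ∣ (Q * b + c) - (Q * a + c) := Nat.dvd_sub hb ha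
    have h2 : (Q * b + c) - (Q * a + c) = Q * (b - a) := by
      rw [Nat.mul_sub]; omega
    rw [h2] at h1
    have h3 : p ∣ b - a := (hp.dvd_mul.mp h1).resolve_left (hQ p hp hpM)
    have h5 : b - a = 0 := Nat.eq_zero_of_dvd_of_lt h3 (by omega)
    omega
  rcases le_total a b with h | h
  · exact key a b h hbM2.2 hpa hqb
  · exact (key b a h haM2.2 hqb hpa).symm

theorem not_dvd_fac (w p : ℕ) (hp : p.Prime) (h : w < p) : ¬ p ∣ w.factorial := by
  intro hd
  have := (hp.dvd_factorial).mp hd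
  omega

open Classical in
theorem one (w M n c : ℕ) (hn0 : 0 < n) (hn1 : n % w.factorial = 1 % w.factorial) (hw : 2 ≤ w)
    (hwM : w ≤ M) (hn : n < M ^ 2) :
    (((Finset.Icc 1 M).filter fun v => ¬ Nat.Coprime (w.factorial * v + c) n).card : ℝ) ≤
      (∑ p ∈ (Finset.Ioc w M).filter Nat.Prime, (if p ∣ n then (2 * (M : ℝ) / p) else 0)) + 1 := by
  have hsub : ((Finset.Icc 1 M).filter fun v => ¬ Nat.Coprime (w.factorial * v + c) n) ⊆
      (((Finset.Ioc w M).filter Nat.Prime).biUnion fun p =>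
        (if p ∣ n then ((Finset.Icc 1 M).filter fun v => p ∣ w.factorial * v + c) else ∅)) ∪
      ((Finset.Icc 1 M).filter fun v => ∃ p : ℕ, p.Prime ∧ M < p ∧ p ∣ w.factorial * v + c ∧ p ∣ n) := by
    intro v hv
    obtain ⟨hvM, hv⟩ := Finset.mem_filter.mp hv
    obtain ⟨p, hp, hpa, hpn⟩ := Nat.Prime.not_coprime_iff_dvd.mp hv
    have hwp : w < p := by
      by_contra hcon
      have hdQ : p ∣ w.factorial := (hp.dvd_factorial).mpr (by omega)
      have h1 : n ≡ 1 [MOD w.factorial] := hn1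
      have h2 : n ≡ 1 [MOD p] := h1.of_dvd hdQ
      have h3 : n % p = 1 % p := h2
      have h4 : n % p = 0 := Nat.mod_eq_zero_of_dvd hpn
      rw [h4, Nat.mod_eq_of_lt hp.one_lt] at h3
      omega
    rw [Finset.mem_union]
    rcases le_or_gt p M with h | h
    · left
      rw [Finset.mem_biUnion]
      refine ⟨p, Finset.mem_filter.mpr ⟨Finset.mem_Ioc.mpr ⟨hwp, h⟩, hp⟩, ?_⟩
      rw [if_pos hpn]
      exact Finset.mem_filter.mpr ⟨hvM, hpa⟩
    · right
      exact Finset.mem_filter.mpr ⟨hvM, p, hp, h, hpa, hpn⟩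
  have h1 := Finset.card_le_card hsub
  have h2 := h1.trans (Finset.card_union_le _ _)
  have h3 := big w.factorial c n M hn0 hn (fun p hp h => not_dvd_fac w p hp (by omega))
  have h4 : (((Finset.Ioc w M).filter Nat.Prime).biUnion fun p =>
        (if p ∣ n then ((Finset.Icc 1 M).filter fun v => p ∣ w.factorial * v + c) else ∅)).card ≤
      ∑ p ∈ (Finset.Ioc w M).filter Nat.Prime,
        (if p ∣ n then ((Finset.Icc 1 M).filter fun v => p ∣ w.factorial * v + c) else ∅).card :=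
    Finset.card_biUnion_le
  have h5 : (((Finset.Icc 1 M).filter fun v => ¬ Nat.Coprime (w.factorial * v + c) n).card : ℝ) ≤
      ((∑ p ∈ (Finset.Ioc w M).filter Nat.Prime,
        (if p ∣ n then ((Finset.Icc 1 M).filter fun v => p ∣ w.factorial * v + c) else ∅).card : ℕ) : ℝ) + 1 := by
    have : ((Finset.Icc 1 M).filter fun v => ¬ Nat.Coprime (w.factorial * v + c) n).card ≤
        (∑ p ∈ (Finset.Ioc w M).filter Nat.Prime,
        (if p ∣ n then ((Finset.Icc 1 M).filter fun v => p ∣ w.factorial * v + c) else ∅).card) + 1 := by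
      omega
    exact_mod_cast this
  refine h5.trans ?_
  push_cast
  gcongr with p hp
  obtain ⟨hpm, hpp⟩ := Finset.mem_filter.mp hp
  obtain ⟨hwp, hpM⟩ := Finset.mem_Ioc.mp hpm
  split_ifs with hd
  · exact cntR w.factorial p c M hpp (not_dvd_fac w p hpp hwp) hpM
  · simp

end XGc

open Classical in
theorem pr_Gc : StGc := by
  intro w hw
  refine ⟨3 * w.factorial + w + 1, ?_⟩
  intro M hM
  have hQ1 : 1 ≤ w.factorial := Nat.one_le_iff_ne_zero.mpr (Nat.factorial_ne_zero w)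
  have hwM : w ≤ M := by omega
  have hMpos : 0 < M := by omega
  have hw0 : (0 : ℝ) < w := by exact_mod_cast (by omega : 0 < w)
  have hMR : (0 : ℝ) < M := by exact_mod_cast hMpos
  set P := (Finset.Ioc w M).filter Nat.Prime with hP
  -- pointwise bound
  have hpt : ∀ u ∈ Finset.Icc 1 M, ∀ u' ∈ Finset.Icc 1 M, ∀ v' ∈ Finset.Icc 1 M,
      (((Finset.Icc 1 M).filter fun v => ¬ Nat.Coprime (w.factorial * v + (w.factorial * v' + 1))
        (w.factorial * (u + u') + 1)).card : ℝ) ≤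
      (∑ p ∈ P, (if p ∣ w.factorial * (u + u') + 1 then (2 * (M : ℝ) / p) else 0)) + 1 := by
    intro u hu u' hu' v' hv'
    have hu2 := (Finset.mem_Icc.mp hu).2
    have hu2' := (Finset.mem_Icc.mp hu').2
    refine XGc.one w M (w.factorial * (u + u') + 1) (w.factorial * v' + 1) (by omega) ?_ (by omega) hwM ?_
    · rw [Nat.mul_add_mod]
    · have h1 : w.factorial * (u + u') ≤ w.factorial * (2 * M) := Nat.mul_le_mul_left _ (by omega)
      have h2 : (3 * w.factorial + w + 1) * M ≤ M * M := Nat.mul_le_mul_right _ hM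
      have h3 : (3 * w.factorial + w + 1) * M = w.factorial * (2 * M) + w.factorial * M + w * M + M := by ring
      have h4 : 1 ≤ w.factorial * M := Nat.mul_pos hQ1 hMpos
      rw [pow_two]
      omega
  have hS : ((∑ u ∈ Finset.Icc 1 M, ∑ u' ∈ Finset.Icc 1 M, ∑ v' ∈ Finset.Icc 1 M,
    ((Finset.Icc 1 M).filter fun v => ¬ Nat.Coprime (w.factorial * v + (w.factorial * v' + 1))
      (w.factorial * (u + u') + 1)).card : ℕ) : ℝ) ≤
      ∑ u ∈ Finset.Icc 1 M, ∑ u' ∈ Finset.Icc 1 M, ∑ v' ∈ Finset.Icc 1 M,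
       ((∑ p ∈ P, (if p ∣ w.factorial * (u + u') + 1 then (2 * (M : ℝ) / p) else 0)) + 1) := by
    push_cast
    exact Finset.sum_le_sum fun u hu => Finset.sum_le_sum fun u' hu' => Finset.sum_le_sum fun v' hv' =>
      hpt u hu u' hu' v' hv'
  refine hS.trans ?_
  have hcardM : ((Finset.Icc 1 M).card : ℝ) = M := by simp
  have h1 : ∑ u ∈ Finset.Icc 1 M, ∑ u' ∈ Finset.Icc 1 M, ∑ v' ∈ Finset.Icc 1 M,
       ((∑ p ∈ P, (if p ∣ w.factorial * (u + u') + 1 then (2 * (M : ℝ) / p) else 0)) + 1) =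
      (M : ℝ) * (∑ p ∈ P, ∑ u' ∈ Finset.Icc 1 M, ∑ u ∈ Finset.Icc 1 M,
        (if p ∣ w.factorial * (u + u') + 1 then (2 * (M : ℝ) / p) else 0)) + (M : ℝ) ^ 3 := by
    have e1 : ∀ u u' : ℕ, ∑ v' ∈ Finset.Icc 1 M,
       ((∑ p ∈ P, (if p ∣ w.factorial * (u + u') + 1 then (2 * (M : ℝ) / p) else 0)) + 1) =
       (M : ℝ) * (∑ p ∈ P, (if p ∣ w.factorial * (u + u') + 1 then (2 * (M : ℝ) / p) else 0)) + M := by
      intro u u'
      rw [Finset.sum_const, nsmul_eq_mul, hcardM]; ring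
    simp_rw [e1, Finset.sum_add_distrib, Finset.sum_const, nsmul_eq_mul, hcardM, ← Finset.mul_sum]
    have e2 : ∑ u ∈ Finset.Icc 1 M, ∑ u' ∈ Finset.Icc 1 M, ∑ p ∈ P,
        (if p ∣ w.factorial * (u + u') + 1 then (2 * (M : ℝ) / p) else 0) =
        ∑ p ∈ P, ∑ u' ∈ Finset.Icc 1 M, ∑ u ∈ Finset.Icc 1 M,
        (if p ∣ w.factorial * (u + u') + 1 then (2 * (M : ℝ) / p) else 0) := by
      rw [Finset.sum_comm]
      have : ∀ u' ∈ Finset.Icc 1 M, ∑ u ∈ Finset.Icc 1 M, ∑ p ∈ P,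
        (if p ∣ w.factorial * (u + u') + 1 then (2 * (M : ℝ) / p) else 0) =
        ∑ p ∈ P, ∑ u ∈ Finset.Icc 1 M,
        (if p ∣ w.factorial * (u + u') + 1 then (2 * (M : ℝ) / p) else 0) := fun u' _ => Finset.sum_comm
      rw [Finset.sum_congr rfl this, Finset.sum_comm]
    rw [e2]; ring
  rw [h1]
  have h2 : ∀ p ∈ P, ∑ u' ∈ Finset.Icc 1 M, ∑ u ∈ Finset.Icc 1 M,
        (if p ∣ w.factorial * (u + u') + 1 then (2 * (M : ℝ) / p) else 0) ≤
        4 * (M : ℝ) ^ 3 * ((p : ℝ) ^ 2)⁻¹ := by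
    intro p hp
    obtain ⟨hpm, hpp⟩ := Finset.mem_filter.mp hp
    obtain ⟨hwp, hpM⟩ := Finset.mem_Ioc.mp hpm
    have hpR : (0 : ℝ) < p := by exact_mod_cast hpp.pos
    have h3 : ∀ u' ∈ Finset.Icc 1 M, ∑ u ∈ Finset.Icc 1 M,
        (if p ∣ w.factorial * (u + u') + 1 then (2 * (M : ℝ) / p) else 0) ≤
        (2 * (M : ℝ) / p) * (2 * (M : ℝ) / p) := by
      intro u' _
      rw [← Finset.sum_filter, Finset.sum_const, nsmul_eq_mul]
      have h4 := XGc.cntR w.factorial p (w.factorial * u' + 1) M hpp (XGc.not_dvd_fac w p hpp hwp) hpM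
      have h5 : ((Finset.Icc 1 M).filter fun u => p ∣ w.factorial * (u + u') + 1) =
          ((Finset.Icc 1 M).filter fun u => p ∣ w.factorial * u + (w.factorial * u' + 1)) := by
        apply Finset.filter_congr
        intro u _
        rw [Nat.mul_add, add_assoc]
      rw [h5]
      exact mul_le_mul_of_nonneg_right h4 (by positivity)
    calc ∑ u' ∈ Finset.Icc 1 M, ∑ u ∈ Finset.Icc 1 M,
        (if p ∣ w.factorial * (u + u') + 1 then (2 * (M : ℝ) / p) else 0)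
        ≤ ∑ u' ∈ Finset.Icc 1 M, (2 * (M : ℝ) / p) * (2 * (M : ℝ) / p) := Finset.sum_le_sum h3
      _ = 4 * (M : ℝ) ^ 3 * ((p : ℝ) ^ 2)⁻¹ := by
          rw [Finset.sum_const, nsmul_eq_mul, hcardM]; field_simp; ring
  have h3 : ∑ p ∈ P, ∑ u' ∈ Finset.Icc 1 M, ∑ u ∈ Finset.Icc 1 M,
        (if p ∣ w.factorial * (u + u') + 1 then (2 * (M : ℝ) / p) else 0) ≤
        4 * (M : ℝ) ^ 3 * (w : ℝ)⁻¹ := by
    refine (Finset.sum_le_sum h2).trans ?_
    rw [← Finset.mul_sum]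
    have h4 : ∑ p ∈ P, ((p : ℝ) ^ 2)⁻¹ ≤ ∑ p ∈ Finset.Ioc w M, ((p : ℝ) ^ 2)⁻¹ :=
      Finset.sum_le_sum_of_subset_of_nonneg (Finset.filter_subset _ _) (fun i _ _ => by positivity)
    have h5 : ∑ p ∈ Finset.Ioc w M, ((p : ℝ) ^ 2)⁻¹ ≤ (w : ℝ)⁻¹ - (M : ℝ)⁻¹ :=
      sum_Ioc_inv_sq_le_sub (by omega) hwM
    have h6 : (0 : ℝ) ≤ (M : ℝ)⁻¹ := by positivity
    have h7 : ∑ p ∈ P, ((p : ℝ) ^ 2)⁻¹ ≤ (w : ℝ)⁻¹ := by linarith
    exact mul_le_mul_of_nonneg_left h7 (by positivity)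
  have h4 : (M : ℝ) ^ 3 ≤ 1 / w * (M : ℝ) ^ 4 := by
    have h5 : (w : ℝ) ≤ M := by exact_mod_cast hwM
    have h6 : (M : ℝ) ^ 3 * w ≤ (M : ℝ) ^ 4 := by
      have : (M : ℝ) ^ 4 = (M : ℝ) ^ 3 * M := by ring
      rw [this]
      exact mul_le_mul_of_nonneg_left h5 (by positivity)
    rw [one_div, inv_mul_eq_div, le_div_iff₀ hw0]
    exact h6
  calc (M : ℝ) * (∑ p ∈ P, ∑ u' ∈ Finset.Icc 1 M, ∑ u ∈ Finset.Icc 1 M,
        (if p ∣ w.factorial * (u + u') + 1 then (2 * (M : ℝ) / p) else 0)) + (M : ℝ) ^ 3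
      ≤ (M : ℝ) * (4 * (M : ℝ) ^ 3 * (w : ℝ)⁻¹) + 1 / w * (M : ℝ) ^ 4 :=
        add_le_add (mul_le_mul_of_nonneg_left h3 hMR.le) h4
    _ = 5 / w * (M : ℝ) ^ 4 := by ring

end Pool.Agent.F0f91f8.FC
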