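import Pool.Agent.Work.MP_0f91f8_co.FC.StmtsH

/-!
# Block FC, module H, item HE: the ergodic theorem for commuting isometries
-/

set_option autoImplicit false

namespace Pool.Agent.F0f91f8.FC

open Filter Topology ComplexConjugate
open Pool.Agent.F0f91f8.HD
open scoped BigOperators

namespace XHE

variable {G H : Type} [NormedAddCommGroup H] [InnerProductSpace ℂ H]

/-- The finite convex combinations of a family form a convex set. -/
lemma hull (v : G → H) (x : H) (hx : x ∈ convexHull ℝ (Set.range v)) :
    ∃ (s : Finset G) (c : G → ℝ), (∀ a, 0 ≤ c a) ∧ ∑ a ∈ s, c a = 1 ∧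
      ∑ a ∈ s, (c a : ℂ) • v a = x := by
  classical
  have hsub : convexHull ℝ (Set.range v) ⊆ {x | ∃ c : G →₀ ℝ, (∀ a, 0 ≤ c a) ∧
      Finsupp.linearCombination ℝ (fun _ : G => (1 : ℝ)) c = 1 ∧
      Finsupp.linearCombination ℝ v c = x} := by
    apply convexHull_min
    · rintro _ ⟨a, rfl⟩
      refine ⟨Finsupp.single a 1, ?_, ?_, ?_⟩
      · intro b
        rw [Finsupp.single_apply]
        split_ifs
        · exact zero_le_one
        · exact le_rfl
      · rw [Finsupp.linearCombination_single, one_smul]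
      · rw [Finsupp.linearCombination_single, one_smul]
    · rintro _ ⟨c, hc, hc1, rfl⟩ _ ⟨c', hc', hc1', rfl⟩ t u ht hu htu
      refine ⟨t • c + u • c', ?_, ?_, ?_⟩
      · intro a
        rw [Finsupp.add_apply, Finsupp.smul_apply, Finsupp.smul_apply, smul_eq_mul, smul_eq_mul]
        exact add_nonneg (mul_nonneg ht (hc a)) (mul_nonneg hu (hc' a))
      · rw [map_add, map_smul, map_smul, hc1, hc1', smul_eq_mul, smul_eq_mul, mul_one, mul_one, htu]
      · rw [map_add, map_smul, map_smul]
  obtain ⟨c, hc, hc1, hcx⟩ := hsub hx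
  refine ⟨c.support, c, hc, ?_, ?_⟩
  · rw [Finsupp.linearCombination_apply, Finsupp.sum] at hc1
    simpa using hc1
  · rw [Finsupp.linearCombination_apply, Finsupp.sum] at hcx
    rw [← hcx]
    refine Finset.sum_congr rfl fun a _ => ?_
    exact Complex.coe_smul _ _

/-- The element of minimal norm is invariant. -/
lemma inv [CompleteSpace H] (K : Set H) (hne : K.Nonempty) (hcl : IsClosed K)
    (hcv : Convex ℝ K) :
    ∃ e ∈ K, ∀ S : H →ₗᵢ[ℂ] H, S e ∈ K → S e = e := by
  let _ : InnerProductSpace ℝ H := InnerProductSpace.complexToReal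
  obtain ⟨e, he, hmin⟩ := exists_norm_eq_iInf_of_complete_convex hne hcl.isComplete hcv 0
  refine ⟨e, he, fun S hS => ?_⟩
  have h1 := (norm_eq_iInf_iff_real_inner_le_zero hcv he).1 hmin (S e) hS
  have h2 : ‖S e - e‖ ^ 2 ≤ 0 := by
    have h3 : ‖S e‖ = ‖e‖ := S.norm_map e
    have h4 := @norm_sub_sq_real H _ _ (S e) e
    rw [zero_sub, inner_neg_left, inner_sub_right, real_inner_self_eq_norm_sq,
      real_inner_comm] at h1
    rw [h4, h3]
    linarith
  have h3 : ‖S e - e‖ = 0 := by
    have h4 := sq_nonneg ‖S e - e‖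
    exact pow_eq_zero_iff (n := 2) (by norm_num) |>.1 (le_antisymm h2 h4)
  exact sub_eq_zero.1 (norm_eq_zero.1 h3)

end XHE

theorem pr_HE : StHE := by
  intro G _ H _ _ _ S hS0 hS f
  obtain ⟨e, he, hinv⟩ := XHE.inv (closure (convexHull ℝ (Set.range fun a => S a f)))
    ⟨S 0 f, subset_closure (subset_convexHull ℝ _ ⟨0, rfl⟩)⟩ isClosed_closure
    (convex_convexHull ℝ _).closure
  refine ⟨e, fun b => hinv (S b) ?_, fun ε hε => ?_⟩
  · have hsub : closure (convexHull ℝ (Set.range fun a => S a f)) ⊆
        (S b) ⁻¹' closure (convexHull ℝ (Set.range fun a => S a f)) := by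
      apply closure_minimal
      · apply convexHull_min
        · rintro _ ⟨a, rfl⟩
          show S b (S a f) ∈ closure (convexHull ℝ (Set.range fun a => S a f))
          rw [← hS]
          exact subset_closure (subset_convexHull ℝ _ ⟨b + a, rfl⟩)
        · intro x hx y hy t u ht hu htu
          show S b (t • x + u • y) ∈ closure (convexHull ℝ (Set.range fun a => S a f))
          have h1 : S b (t • x + u • y) = t • S b x + u • S b y := by
            rw [map_add, ← Complex.coe_smul t x, ← Complex.coe_smul u y, map_smul, map_smul,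
              Complex.coe_smul, Complex.coe_smul]
          rw [h1]
          exact (convex_convexHull ℝ _).closure hx hy ht hu htu
      · exact isClosed_closure.preimage (S b).continuous
    exact hsub he
  · obtain ⟨x, hx, hxe⟩ := Metric.mem_closure_iff.1 he ε hε
    obtain ⟨s, c, hc, hc1, hcx⟩ := XHE.hull (fun a => S a f) x hx
    refine ⟨s, c, hc, hc1, ?_⟩
    rw [hcx, ← dist_eq_norm, dist_comm]
    exact hxe.le

end Pool.Agent.F0f91f8.FC
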