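import Pool.Agent.Work.MP_0f91f8_co.FC.StmtsH

/-!
# Block FC, item HS: weakly mixing vectors
-/

set_option autoImplicit false

namespace Pool.Agent.F0f91f8.FC

open Filter Topology ComplexConjugate
open Pool.Agent.F0f91f8.HD Pool.Agent.F0f91f8.RC Pool.Agent.F0f91f8.KR
open scoped BigOperators

namespace XHS

theorem num (g ε : ℝ) (hg : 0 ≤ g) :
    2 * (ε / (2 * (g + 1))) ^ 2 * g ^ 2 ≤ ε ^ 2 := by
  have h1 : (0 : ℝ) < g + 1 := by linarith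
  have h2 : 2 * (ε / (2 * (g + 1))) ^ 2 * g ^ 2 = ε ^ 2 * ((g / (g + 1)) ^ 2 / 2) := by
    field_simp
  have h3 : g / (g + 1) ≤ 1 := by
    rw [div_le_one h1]; linarith
  have h4 : 0 ≤ g / (g + 1) := div_nonneg hg h1.le
  have h5 : (g / (g + 1)) ^ 2 / 2 ≤ 1 := by nlinarith
  rw [h2]
  have h6 : 0 ≤ ε ^ 2 := sq_nonneg ε
  nlinarith

end XHS

theorem pr_HS (hU : StHU) (hV : StHV) (hG : StHG) : StHS := by
  intro ι hι hιd H nH iH cH S hS g hg ε hε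
  have hg1 : (0 : ℝ) < 2 * (‖g‖ + 1) := by positivity
  have hδ : 0 < ε / (2 * (‖g‖ + 1)) := div_pos hε hg1
  obtain ⟨L₀, hL₀⟩ := hU ι hι hιd H nH iH cH S hS g hg _ hδ
  refine ⟨max L₀ 1, ?_⟩
  intro L hL β F hF
  have hL1 : 1 ≤ L := le_trans (le_max_right _ _) hL
  have hL2 : L₀ ≤ L := le_trans (le_max_left _ _) hL
  have hv := hV ι hι hιd H nH iH S hS g L _ hL1 hδ.le (hL₀ L hL2)
  have hgr := hG (ι → Fin L) inferInstance H nH iH
    (fun j => S (β + vl j) g) F hF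
  have hiso : ∀ j k : ι → Fin L, inner ℂ (S (β + vl j) g) (S (β + vl k) g) =
      inner ℂ (S (vl j) g) (S (vl k) g) := by
    intro j k
    rw [hS.2, hS.2, LinearIsometry.inner_map_map]
  have hX : (∑ j : ι → Fin L, ‖inner ℂ F (S (β + vl j) g)‖ ^ 2) ^ 2 ≤
      2 * (ε / (2 * (‖g‖ + 1))) ^ 2 * ‖g‖ ^ 2 * ((L : ℝ) ^ Fintype.card ι) ^ 2 := by
    refine hgr.trans (le_trans (le_of_eq ?_) hv)
    refine Finset.sum_congr rfl fun j _ => Finset.sum_congr rfl fun k _ => ?_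
    rw [hiso]
  have hLp : (0 : ℝ) < (L : ℝ) ^ Fintype.card ι := by
    have : (0 : ℝ) < L := by exact_mod_cast hL1
    positivity
  have hX2 : (∑ j : ι → Fin L, ‖inner ℂ F (S (β + vl j) g)‖ ^ 2) ^ 2 ≤
      (ε * (L : ℝ) ^ Fintype.card ι) ^ 2 := by
    refine hX.trans ?_
    rw [mul_pow]
    exact mul_le_mul_of_nonneg_right (XHS.num ‖g‖ ε (norm_nonneg g)) (sq_nonneg _)
  have hX3 : ∑ j : ι → Fin L, ‖inner ℂ F (S (β + vl j) g)‖ ^ 2 ≤
      ε * (L : ℝ) ^ Fintype.card ι := by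
    exact le_of_sq_le_sq hX2 (by positivity)
  show (∑ j : ι → Fin L, ‖inner ℂ F (S (β + vl j) g)‖ ^ 2) / (L : ℝ) ^ Fintype.card ι ≤ ε
  rw [div_le_iff₀ hLp]
  exact hX3

end Pool.Agent.F0f91f8.FC
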