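import Mathlib
import Pool.Agent.Work.MP_0f91f8_co.FC.StmtsS

/-!
# Block FC, item Rk: Rankin's trick
-/

set_option autoImplicit false

namespace Pool.Agent.F0f91f8.FC

open Filter Topology
open scoped BigOperators

namespace XRk

/-- the local factor -/
noncomputable def g (o : ℕ → ℕ) (p : ℕ) : ℝ := (o p : ℝ) / ((p : ℝ) - o p)

lemma g_bd {o : ℕ → ℕ} {p : ℕ} (hp : 10 < p) (ho : o p ≤ 5) :
    0 ≤ g o p ∧ g o p ≤ 10 / p ∧ (1 - (o p : ℝ) / p) * (1 + g o p) = 1 := by
  have h1 : (11 : ℝ) ≤ p := by exact_mod_cast hp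
  have h2 : (o p : ℝ) ≤ 5 := by exact_mod_cast ho
  have h3 : (0 : ℝ) ≤ o p := Nat.cast_nonneg _
  have h4 : (0 : ℝ) < (p : ℝ) - o p := by linarith
  have h5 : (0 : ℝ) < p := by linarith
  refine ⟨div_nonneg h3 h4.le, ?_, ?_⟩
  · unfold g
    rw [div_le_div_iff₀ h4 h5]
    nlinarith
  · unfold g
    field_simp
    ring

/-- the truncated sum -/
lemma gs_ge (P : Finset ℕ) (o : ℕ → ℕ) (F : ℕ) (hP : ∀ p ∈ P, p.Prime) :
    ∑ A ∈ P.powerset.filter (fun A => ∏ p ∈ A, p ≤ F), ∏ p ∈ A, g o p = Gs P o F := by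
  classical
  unfold Gs
  refine Finset.sum_bij' (fun A _ => ∏ p ∈ A, p) (fun q _ => q.primeFactors) ?_ ?_ ?_ ?_ ?_
  · intro A hA
    rw [Finset.mem_filter, Finset.mem_powerset] at hA
    have hAp : ∀ p ∈ A, p.Prime := fun p hp => hP p (hA.1 hp)
    rw [Finset.mem_filter, Finset.mem_Icc]
    refine ⟨⟨Finset.prod_pos fun p hp => (hAp p hp).pos, hA.2⟩, ?_, ?_⟩
    · refine Finset.squarefree_prod_of_pairwise_isCoprime (fun a ha b hb hab => ?_)
        fun a ha => (hAp a ha).squarefree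
      simp only [Function.onFun, ← Nat.coprime_iff_isRelPrime]
      exact (Nat.coprime_primes (hAp a ha) (hAp b hb)).mpr hab
    · rw [Nat.primeFactors_prod hAp]
      exact hA.1
  · intro q hq
    rw [Finset.mem_filter, Finset.mem_Icc] at hq
    rw [Finset.mem_filter, Finset.mem_powerset, Nat.prod_primeFactors_of_squarefree hq.2.1]
    exact ⟨hq.2.2, hq.1.2⟩
  · intro A hA
    rw [Finset.mem_filter, Finset.mem_powerset] at hA
    exact Nat.primeFactors_prod fun p hp => hP p (hA.1 hp)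
  · intro q hq
    rw [Finset.mem_filter, Finset.mem_Icc] at hq
    exact Nat.prod_primeFactors_of_squarefree hq.2.1
  · intro A hA
    rw [Finset.mem_filter, Finset.mem_powerset] at hA
    rw [Nat.primeFactors_prod fun p hp => hP p (hA.1 hp)]
    rfl

end XRk

open XRk in
theorem pr_Rk (hCh : StCh) : StRk := by
  classical
  obtain ⟨C, hC, hCh⟩ := hCh
  obtain ⟨R₀, hR₀⟩ := exists_nat_ge (20 * C + 1)
  have hR1 : (1 : ℝ) ≤ R₀ := by linarith
  refine ⟨R₀, by exact_mod_cast (lt_of_lt_of_le zero_lt_one hR1), ?_⟩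
  intro y F P o hy hP ho hF
  have hPp : ∀ p ∈ P, p.Prime := fun p hp => (hP p hp).1
  have hg : ∀ p ∈ P, 0 ≤ g o p ∧ g o p ≤ 10 / p ∧ (1 - (o p : ℝ) / p) * (1 + g o p) = 1 :=
    fun p hp => g_bd (hP p hp).2.1 (ho p hp)
  have hy1 : (1 : ℝ) < y := by exact_mod_cast hy
  have hly : 0 < Real.log y := Real.log_pos hy1
  set η : ℝ := 1 / Real.log y with hη
  have hη0 : 0 < η := by positivity
  have hFpos : 0 < F := lt_of_lt_of_le (pow_pos (by omega) _) hF
  have hFr : (0 : ℝ) < F := by exact_mod_cast hFpos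
  -- the size of `F`
  have hFη : ((F : ℝ)) ^ (-η) ≤ Real.exp (-(R₀ : ℝ)) := by
    rw [Real.rpow_def_of_pos hFr]
    apply Real.exp_le_exp.2
    have h1 : (R₀ : ℝ) * Real.log y ≤ Real.log F := by
      rw [← Real.log_pow]
      apply Real.log_le_log (by positivity)
      exact_mod_cast hF
    have h2 : Real.log F * (-η) = -(Real.log F / Real.log y) := by rw [hη]; ring
    rw [h2]
    apply neg_le_neg
    rw [le_div_iff₀ hly]
    exact h1
  -- powers
  have hpη : ∀ p ∈ P, 0 ≤ ((p : ℝ)) ^ η - 1 ∧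
      g o p * (((p : ℝ)) ^ η - 1) ≤ 20 / Real.log y * (Real.log p / p) := by
    intro p hp
    have hp1 : (1 : ℝ) ≤ p := by exact_mod_cast (hPp p hp).one_le
    have hp0 : (0 : ℝ) < p := by linarith
    have hlp : 0 ≤ Real.log p := Real.log_nonneg hp1
    have hpy : Real.log p ≤ Real.log y := Real.log_le_log hp0 (by exact_mod_cast (hP p hp).2.2)
    have e1 : ((p : ℝ)) ^ η = Real.exp (Real.log p / Real.log y) := by
      rw [Real.rpow_def_of_pos hp0, hη]
      congr 1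
      ring
    have ht0 : 0 ≤ Real.log p / Real.log y := div_nonneg hlp hly.le
    have ht1 : Real.log p / Real.log y ≤ 1 := (div_le_one hly).2 hpy
    have h2 : Real.exp (Real.log p / Real.log y) - 1 ≤ 2 * (Real.log p / Real.log y) := by
      have := Real.abs_exp_sub_one_le (x := Real.log p / Real.log y)
        (by rw [abs_of_nonneg ht0]; exact ht1)
      rw [abs_of_nonneg ht0] at this
      exact (le_abs_self _).trans this
    have h3 : 0 ≤ Real.exp (Real.log p / Real.log y) - 1 := by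
      have := Real.one_le_exp ht0
      linarith
    rw [e1]
    refine ⟨h3, ?_⟩
    calc g o p * (Real.exp (Real.log p / Real.log y) - 1)
        ≤ (10 / p) * (2 * (Real.log p / Real.log y)) :=
          mul_le_mul (hg p hp).2.1 h2 h3 (by positivity)
      _ = 20 / Real.log y * (Real.log p / p) := by ring
  -- the tail
  set Pi : ℝ := ∏ p ∈ P, (1 + g o p) with hPi
  have hPi0 : 0 < Pi := Finset.prod_pos fun p hp => by
    have := (hg p hp).1
    linarith
  have hsplit : Pi = ∑ A ∈ P.powerset.filter (fun A => ∏ p ∈ A, p ≤ F), ∏ p ∈ A, g o p +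
      ∑ A ∈ P.powerset.filter (fun A => ¬ ∏ p ∈ A, p ≤ F), ∏ p ∈ A, g o p := by
    rw [hPi, Finset.prod_one_add, ← Finset.sum_filter_add_sum_filter_not P.powerset
      (fun A => ∏ p ∈ A, p ≤ F)]
  have htail : ∑ A ∈ P.powerset.filter (fun A => ¬ ∏ p ∈ A, p ≤ F), ∏ p ∈ A, g o p ≤
      (F : ℝ) ^ (-η) * ∏ p ∈ P, (1 + g o p * (p : ℝ) ^ η) := by
    rw [Finset.prod_one_add, Finset.mul_sum]
    have hsub : ∑ A ∈ P.powerset.filter (fun A => ¬ ∏ p ∈ A, p ≤ F),
        (F : ℝ) ^ (-η) * ∏ p ∈ A, (g o p * (p : ℝ) ^ η) ≤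
        ∑ A ∈ P.powerset, (F : ℝ) ^ (-η) * ∏ p ∈ A, (g o p * (p : ℝ) ^ η) := by
      refine Finset.sum_le_sum_of_subset_of_nonneg (Finset.filter_subset _ _) ?_
      intro A hA _
      rw [Finset.mem_powerset] at hA
      refine mul_nonneg (by positivity) (Finset.prod_nonneg fun p hp => ?_)
      exact mul_nonneg (hg p (hA hp)).1 (by positivity)
    refine le_trans ?_ hsub
    · refine Finset.sum_le_sum fun A hA => ?_
      rw [Finset.mem_filter, Finset.mem_powerset, not_le] at hA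
      rw [Finset.prod_mul_distrib]
      have hA0 : 0 ≤ ∏ p ∈ A, g o p := Finset.prod_nonneg fun p hp => (hg p (hA.1 hp)).1
      have h1 : ∏ p ∈ A, (p : ℝ) ^ η = (((∏ p ∈ A, p : ℕ)) : ℝ) ^ η := by
        rw [Real.finsetProd_rpow A (fun p : ℕ => (p : ℝ)) (fun p _ => Nat.cast_nonneg p)]
        push_cast
        rfl
      have h2 : 1 ≤ (F : ℝ) ^ (-η) * ∏ p ∈ A, (p : ℝ) ^ η := by
        rw [h1]
        have h3 : (F : ℝ) ^ η ≤ (((∏ p ∈ A, p : ℕ)) : ℝ) ^ η :=
          Real.rpow_le_rpow hFr.le (by exact_mod_cast hA.2.le) hη0.le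
        calc (1 : ℝ) = (F : ℝ) ^ (-η) * (F : ℝ) ^ η := by
              rw [← Real.rpow_add hFr]; simp
          _ ≤ _ := mul_le_mul_of_nonneg_left h3 (by positivity)
      calc ∏ p ∈ A, g o p = (∏ p ∈ A, g o p) * 1 := (mul_one _).symm
        _ ≤ (∏ p ∈ A, g o p) * ((F : ℝ) ^ (-η) * ∏ p ∈ A, (p : ℝ) ^ η) :=
            mul_le_mul_of_nonneg_left h2 hA0
        _ = _ := by ring
  have hprod : ∏ p ∈ P, (1 + g o p * (p : ℝ) ^ η) ≤ Pi * Real.exp (20 * C) := by
    have h1 : ∏ p ∈ P, (1 + g o p * (p : ℝ) ^ η) ≤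
        ∏ p ∈ P, ((1 + g o p) * Real.exp (g o p * ((p : ℝ) ^ η - 1))) := by
      refine Finset.prod_le_prod (fun p hp => ?_) fun p hp => ?_
      · have := (hg p hp).1
        positivity
      · have h2 := (hg p hp).1
        have h3 := (hpη p hp).1
        have h4 : g o p * ((p : ℝ) ^ η - 1) + 1 ≤ Real.exp (g o p * ((p : ℝ) ^ η - 1)) :=
          Real.add_one_le_exp _
        have h5 : 0 ≤ g o p * ((p : ℝ) ^ η - 1) := mul_nonneg h2 h3
        calc 1 + g o p * (p : ℝ) ^ η = 1 + g o p + g o p * ((p : ℝ) ^ η - 1) := by ring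
          _ ≤ (1 + g o p) * (g o p * ((p : ℝ) ^ η - 1) + 1) := by nlinarith
          _ ≤ _ := mul_le_mul_of_nonneg_left h4 (by linarith)
    refine h1.trans ?_
    rw [Finset.prod_mul_distrib, ← Real.exp_sum]
    refine mul_le_mul_of_nonneg_left (Real.exp_le_exp.2 ?_) hPi0.le
    have h2 : ∑ p ∈ P, g o p * ((p : ℝ) ^ η - 1) ≤
        ∑ p ∈ P, 20 / Real.log y * (Real.log p / p) :=
      Finset.sum_le_sum fun p hp => (hpη p hp).2
    have h3 : ∑ p ∈ P, Real.log p / (p : ℝ) ≤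
        ∑ p ∈ (Finset.Icc 1 y).filter Nat.Prime, Real.log p / p := by
      refine Finset.sum_le_sum_of_subset_of_nonneg (fun p hp => ?_) fun p _ _ => ?_
      · rw [Finset.mem_filter, Finset.mem_Icc]
        exact ⟨⟨(hPp p hp).one_le, (hP p hp).2.2⟩, hPp p hp⟩
      · exact div_nonneg (Real.log_natCast_nonneg p) (Nat.cast_nonneg p)
    have h4 := hCh y hy
    rw [← Finset.mul_sum] at h2
    calc ∑ p ∈ P, g o p * ((p : ℝ) ^ η - 1) ≤ 20 / Real.log y * ∑ p ∈ P, Real.log p / (p : ℝ) := h2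
      _ ≤ 20 / Real.log y * (C * Real.log y) :=
          mul_le_mul_of_nonneg_left (h3.trans h4) (by positivity)
      _ = 20 * C := by field_simp
  have htail2 : ∑ A ∈ P.powerset.filter (fun A => ¬ ∏ p ∈ A, p ≤ F), ∏ p ∈ A, g o p ≤
      Pi / 2 := by
    refine htail.trans ?_
    have h1 : (F : ℝ) ^ (-η) * ∏ p ∈ P, (1 + g o p * (p : ℝ) ^ η) ≤
        Real.exp (-(R₀ : ℝ)) * (Pi * Real.exp (20 * C)) := by
      refine mul_le_mul hFη hprod ?_ (Real.exp_pos _).le
      refine Finset.prod_nonneg fun p hp => ?_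
      have := (hg p hp).1
      positivity
    refine h1.trans ?_
    have h2 : Real.exp (-(R₀ : ℝ)) * (Pi * Real.exp (20 * C)) =
        Pi * Real.exp (20 * C - R₀) := by
      rw [sub_eq_add_neg, Real.exp_add]
      ring
    rw [h2]
    have h3 : Real.exp (20 * C - R₀) ≤ Real.exp (-1) := Real.exp_le_exp.2 (by linarith)
    have h4 : Real.exp (-1) ≤ 1 / 2 := by
      rw [Real.exp_neg, one_div]
      apply inv_anti₀ (by norm_num)
      have := Real.add_one_le_exp (1 : ℝ)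
      linarith
    nlinarith
  have hGs : Pi / 2 ≤ Gs P o F := by
    rw [← gs_ge P o F hPp]
    linarith
  have hone : Pi * ∏ p ∈ P, (1 - (o p : ℝ) / p) = 1 := by
    rw [hPi, ← Finset.prod_mul_distrib]
    refine Finset.prod_eq_one fun p hp => ?_
    rw [mul_comm]
    exact (hg p hp).2.2
  have hq : 0 ≤ ∏ p ∈ P, (1 - (o p : ℝ) / p) := by
    refine Finset.prod_nonneg fun p hp => ?_
    have h1 : (11 : ℝ) ≤ p := by exact_mod_cast (hP p hp).2.1
    have h2 : (o p : ℝ) ≤ 5 := by exact_mod_cast ho p hp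
    rw [sub_nonneg, div_le_one (by linarith)]
    linarith
  calc (1 : ℝ) / 2 = Pi / 2 * ∏ p ∈ P, (1 - (o p : ℝ) / p) := by rw [div_mul_eq_mul_div, hone]
    _ ≤ _ := mul_le_mul_of_nonneg_right hGs hq

end Pool.Agent.F0f91f8.FC
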