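import Pool.Agent.Work.MP_0f91f8_co.FC.StmtsP
import Pool.Agent.Work.MP_0f91f8_co.RC.T0

/-!
# Block FC, module P, items Rz and RootS (helper83)
-/

set_option autoImplicit false

namespace Pool.Agent.F0f91f8.FC

open Filter Topology ComplexConjugate
open Pool.Agent.F0f91f8.HD Pool.Agent.F0f91f8.RC Pool.Agent.F0f91f8.KR
open scoped BigOperators

namespace IRz

theorem thin_of {G : ℕ → ℝ} (hs : Summable fun p : Nat.Primes => G p ^ 2 / ((p : ℕ) : ℝ)) {c : ℝ}
    (hc : 0 < c) {T : Set ℕ} (hT : ∀ p : ℕ, p.Prime → p ∈ T → c ≤ G p) : Thin T := by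
  unfold Thin
  refine Summable.of_nonneg_of_le (f := fun p : Nat.Primes =>
    (1 / c ^ 2) * (G p ^ 2 / ((p : ℕ) : ℝ))) (fun p => ?_) (fun p => ?_) (hs.mul_left _)
  · exact Set.indicator_nonneg (fun _ _ => by positivity) _
  · by_cases h : (p : ℕ) ∈ T
    · rw [Set.indicator_of_mem h]
      have h1 := hT p p.2 h
      have h2 : c ^ 2 ≤ G p ^ 2 := pow_le_pow_left₀ hc.le h1 2
      have h3 : 1 ≤ (1 / c ^ 2) * G p ^ 2 := by
        rw [one_div, ← div_eq_inv_mul, le_div_iff₀ (by positivity), one_mul]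
        exact h2
      rw [← mul_div_assoc]
      exact div_le_div_of_nonneg_right h3 (Nat.cast_nonneg _)
    · rw [Set.indicator_of_notMem h]
      positivity

theorem thin_mono {T T' : Set ℕ} (hT : Thin T) {q : ℕ} (hq : q ≠ 0)
    (h : ∀ p : ℕ, p.Prime → p ∈ T' → p ∈ T ∨ p ∣ q) : Thin T' := by
  classical
  unfold Thin at hT ⊢
  have hfin : Summable fun p : Nat.Primes => if (p : ℕ) ∣ q then 1 / ((p : ℕ) : ℝ) else 0 := by
    have hf : {p : Nat.Primes | (p : ℕ) ∣ q}.Finite := by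
      have : Set.Finite {n : ℕ | n ∣ q} := by
        refine (Finset.finite_toSet q.divisors).subset fun n hn => ?_
        rw [Finset.mem_coe, Nat.mem_divisors]
        exact ⟨hn, hq⟩
      exact this.preimage (f := fun p : Nat.Primes => (p : ℕ)) (by
        intro x _ y _ hxy
        exact Subtype.ext hxy)
    refine summable_of_ne_finset_zero (s := hf.toFinset) fun p hp => ?_
    rw [Set.Finite.mem_toFinset] at hp
    exact if_neg hp
  refine Summable.of_nonneg_of_le (fun p => ?_) (fun p => ?_) (hT.add hfin)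
  · exact Set.indicator_nonneg (fun _ _ => by positivity) _
  · by_cases h1 : (p : ℕ) ∈ T'
    · rw [Set.indicator_of_mem h1]
      rcases h p p.2 h1 with h2 | h2
      · rw [Set.indicator_of_mem h2]
        have : (0 : ℝ) ≤ if (p : ℕ) ∣ q then 1 / ((p : ℕ) : ℝ) else 0 := by
          split_ifs <;> positivity
        linarith
      · rw [if_pos h2]
        have : (0 : ℝ) ≤ T.indicator (fun p : ℕ => 1 / (p : ℝ)) (p : ℕ) :=
          Set.indicator_nonneg (fun _ _ => by positivity) _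
        linarith
    · rw [Set.indicator_of_notMem h1]
      have h2 : (0 : ℝ) ≤ if (p : ℕ) ∣ q then 1 / ((p : ℕ) : ℝ) else 0 := by
        split_ifs <;> positivity
      have h3 : (0 : ℝ) ≤ T.indicator (fun p : ℕ => 1 / (p : ℝ)) (p : ℕ) :=
        Set.indicator_nonneg (fun _ _ => by positivity) _
      linarith

/-- recurrence on a finite dimensional torus -/
theorem recur {ι : Type} [Fintype ι] (z : ι → ℂ) (hz : Uni z) {ε : ℝ} (hε : 0 < ε) :
    ∃ N : ℕ, 0 < N ∧ ∀ i, ‖z i ^ N - 1‖ ≤ ε := by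
  let x : ℕ → (ι → ℂ) := fun k i => z i ^ k
  have hx : ∀ k, x k ∈ Metric.closedBall (0 : ι → ℂ) 1 := by
    intro k
    rw [mem_closedBall_zero_iff, pi_norm_le_iff_of_nonneg zero_le_one]
    intro i
    change ‖z i ^ k‖ ≤ 1
    rw [norm_pow, hz i, one_pow]
  obtain ⟨a, -, φ, hφ, ht⟩ := (isCompact_closedBall (0 : ι → ℂ) 1).tendsto_subseq hx
  obtain ⟨N, hN⟩ := Metric.cauchySeq_iff.1 ht.cauchySeq ε hε
  have h1 := hN N le_rfl (N + 1) (Nat.le_succ N)
  have h2 : φ N < φ (N + 1) := hφ (Nat.lt_succ_self N)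
  refine ⟨φ (N + 1) - φ N, by omega, fun i => ?_⟩
  have h3 : ‖z i ^ φ N - z i ^ φ (N + 1)‖ ≤ ε := by
    have h4 := dist_le_pi_dist (x (φ N)) (x (φ (N + 1))) i
    rw [dist_eq_norm] at h4
    exact h4.trans h1.le
  have h5 : z i ^ φ N - z i ^ φ (N + 1) = -(z i ^ φ N * (z i ^ (φ (N + 1) - φ N) - 1)) := by
    have h6 : z i ^ φ (N + 1) = z i ^ φ N * z i ^ (φ (N + 1) - φ N) := by
      rw [← pow_add]
      congr 1
      omega
    rw [h6]
    ring
  rw [h5, norm_neg, norm_mul, norm_pow, hz i, one_pow, one_mul] at h3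
  exact h3

theorem pow_sub {u v : ℂ} (hu : ‖u‖ ≤ 1) (hv : ‖v‖ ≤ 1) (k : ℕ) :
    ‖u ^ k - v ^ k‖ ≤ k * ‖u - v‖ := by
  induction k with
  | zero => simp
  | succ k ih =>
    have e : u ^ (k + 1) - v ^ (k + 1) = u ^ k * (u - v) + (u ^ k - v ^ k) * v := by ring
    rw [e]
    refine (norm_add_le _ _).trans ?_
    rw [norm_mul, norm_mul, norm_pow]
    have h1 : ‖u‖ ^ k * ‖u - v‖ ≤ 1 * ‖u - v‖ :=
      mul_le_mul_of_nonneg_right (pow_le_one₀ (norm_nonneg _) hu) (norm_nonneg _)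
    have h2 : ‖u ^ k - v ^ k‖ * ‖v‖ ≤ ‖u ^ k - v ^ k‖ * 1 :=
      mul_le_mul_of_nonneg_left hv (norm_nonneg _)
    push_cast
    linarith

/-- a positive lower bound for the nonzero values -/
theorem gap {κ : Type} [Finite κ] (d : κ → ℝ) (hd : ∀ x, 0 ≤ d x) :
    ∃ c : ℝ, 0 < c ∧ ∀ x, d x ≠ 0 → c ≤ d x := by
  classical
  have := Fintype.ofFinite κ
  by_cases h : (Finset.univ.filter fun x : κ => d x ≠ 0).Nonempty
  · obtain ⟨x, hx, hmin⟩ := Finset.exists_min_image _ d h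
    rw [Finset.mem_filter] at hx
    exact ⟨d x, lt_of_le_of_ne (hd x) (Ne.symm hx.2), fun y hy =>
      hmin y (Finset.mem_filter.2 ⟨Finset.mem_univ _, hy⟩)⟩
  · refine ⟨1, one_pos, fun x hx => absurd ?_ h⟩
    exact ⟨x, Finset.mem_filter.2 ⟨Finset.mem_univ _, hx⟩⟩

theorem chi_pow {q : ℕ} [NeZero q] (χ : DirichletCharacter ℂ q) {p : ℕ} (hp : p.Prime)
    (hpq : ¬ p ∣ q) : χ ((p : ℕ) : ZMod q) ^ q.totient = 1 := by
  have hcop : p.Coprime q := (Nat.Prime.coprime_iff_not_dvd hp).mpr hpq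
  rw [← map_pow, ← Nat.cast_pow]
  have h1 : ((p ^ q.totient : ℕ) : ZMod q) = ((1 : ℕ) : ZMod q) :=
    (ZMod.natCast_eq_natCast_iff _ _ _).2 (Nat.ModEq.pow_totient hcop)
  rw [h1, Nat.cast_one, map_one]

end IRz

open IRz in
theorem pr_Rz (hPb : StPb) (hT0 : StT0) : StRz := by
  classical
  intro ι _ _ cl hF z hz hP
  obtain ⟨-, hPb2⟩ := hPb ι inferInstance inferInstance cl
  obtain ⟨hCM, hsome, hnone⟩ := hPb2 z hz
  obtain ⟨q, hq, χ, t, hs⟩ := hP
  have hq0 : q ≠ 0 := hq.ne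
  set f := fz cl z with hf
  set m := q.totient with hm
  have hm0 : 0 < m := Nat.totient_pos.2 (Nat.pos_of_ne_zero hq0)
  have hval : ∀ p : ℕ, p.Prime → f p = match cl p with
      | none => 1
      | some i => z i := by
    intro p hp
    rcases h : cl p with _ | i
    · exact hnone p hp h
    · exact hsome p i hp h
  have hfn : ∀ p : ℕ, p.Prime → ‖f p‖ = 1 := fun p hp => hCM.2.2 p hp.pos
  have hχn : ∀ a, ‖χ a‖ ≤ 1 := fun a => DirichletCharacter.norm_le_one χ a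
  -- `t = 0`
  obtain ⟨N, hN0, hN⟩ := recur (fun i => z i ^ m) (fun i => by rw [norm_pow, hz i, one_pow])
    (ε := 1 / 5) (by norm_num)
  have hfN : ∀ p : ℕ, p.Prime → ‖f p ^ (m * N) - 1‖ ≤ 1 / 5 := by
    intro p hp
    rw [hval p hp]
    rcases cl p with _ | i
    · simp
    · have := hN i
      rw [pow_mul]
      exact this
  have hmN : 0 < m * N := Nat.mul_pos hm0 hN0
  have ht : t = 0 := by
    have hthin : Thin {p : ℕ | 1 / 2 ≤
        ‖1 - ((p : ℕ) : ℂ) ^ ((((m * N : ℕ) : ℝ) * t : ℝ) * Complex.I)‖} := by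
      have h1 : Thin {p : ℕ | 1 / (5 * ((m * N : ℕ) : ℝ)) ≤
          ‖f p - χ ((p : ℕ) : ZMod q) * ((p : ℕ) : ℂ) ^ (t * Complex.I)‖} :=
        thin_of (G := fun p => ‖f p - χ ((p : ℕ) : ZMod q) * ((p : ℕ) : ℂ) ^ (t * Complex.I)‖) hs
          (c := 1 / (5 * ((m * N : ℕ) : ℝ))) (by
            have : (0 : ℝ) < ((m * N : ℕ) : ℝ) := by exact_mod_cast hmN
            positivity) fun p _ hp => hp
      refine thin_mono h1 hq0 fun p hp hpB => ?_
      by_contra hcon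
      push Not at hcon
      obtain ⟨hc1, hc2⟩ := hcon
      have hc3 : ‖f p - χ ((p : ℕ) : ZMod q) * ((p : ℕ) : ℂ) ^ (t * Complex.I)‖ <
          1 / (5 * ((m * N : ℕ) : ℝ)) := by
        by_contra hh
        exact hc1 (not_lt.1 hh)
      have hpn : ‖((p : ℕ) : ℂ) ^ ((t : ℂ) * Complex.I)‖ = 1 := by
        rw [cpow_eq hp.pos, Complex.norm_exp_ofReal_mul_I]
      have hv : ‖χ ((p : ℕ) : ZMod q) * ((p : ℕ) : ℂ) ^ ((t : ℂ) * Complex.I)‖ ≤ 1 := by
        rw [norm_mul, hpn, mul_one]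
        exact hχn _
      have h2 := pow_sub (hfn p hp).le hv (m * N)
      have h3 : (χ ((p : ℕ) : ZMod q) * ((p : ℕ) : ℂ) ^ ((t : ℂ) * Complex.I)) ^ (m * N) =
          ((p : ℕ) : ℂ) ^ ((((m * N : ℕ) : ℝ) * t : ℝ) * Complex.I) := by
        rw [mul_pow, pow_mul (χ _), chi_pow χ hp hc2, one_pow, one_mul, ← Complex.cpow_nat_mul]
        congr 1
        push_cast
        ring
      rw [h3] at h2
      have h4 : ((m * N : ℕ) : ℝ) *
          ‖f p - χ ((p : ℕ) : ZMod q) * ((p : ℕ) : ℂ) ^ (t * Complex.I)‖ ≤ 1 / 5 := by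
        have h5 : (0 : ℝ) < ((m * N : ℕ) : ℝ) := by exact_mod_cast hmN
        have h6 := mul_le_mul_of_nonneg_left hc3.le h5.le
        refine h6.trans (le_of_eq ?_)
        field_simp
      have h5 := hfN p hp
      have h6 : ‖1 - ((p : ℕ) : ℂ) ^ ((((m * N : ℕ) : ℝ) * t : ℝ) * Complex.I)‖ ≤
          ‖f p ^ (m * N) - 1‖ +
          ‖f p ^ (m * N) - ((p : ℕ) : ℂ) ^ ((((m * N : ℕ) : ℝ) * t : ℝ) * Complex.I)‖ := by
        have e : 1 - ((p : ℕ) : ℂ) ^ ((((m * N : ℕ) : ℝ) * t : ℝ) * Complex.I) =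
            (f p ^ (m * N) - ((p : ℕ) : ℂ) ^ ((((m * N : ℕ) : ℝ) * t : ℝ) * Complex.I)) -
              (f p ^ (m * N) - 1) := by ring
        rw [e]
        refine (norm_sub_le _ _).trans (le_of_eq (add_comm _ _))
      have h7 : (1 : ℝ) / 2 ≤
        ‖1 - ((p : ℕ) : ℂ) ^ ((((m * N : ℕ) : ℝ) * t : ℝ) * Complex.I)‖ := hpB
      linarith
    have h1 := hT0 _ hthin
    have h2 : ((m * N : ℕ) : ℝ) ≠ 0 := by exact_mod_cast hmN.ne'
    exact (mul_eq_zero.1 h1).resolve_left h2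
  subst ht
  have hs' : Summable fun p : Nat.Primes => ‖f p - χ ((p : ℕ) : ZMod q)‖ ^ 2 / ((p : ℕ) : ℝ) := by
    refine hs.congr fun p => ?_
    rw [Complex.ofReal_zero, zero_mul, Complex.cpow_zero, mul_one]
  refine ⟨q, hq, χ, ?_, fun i => ?_⟩
  · obtain ⟨c, hc, hc1⟩ := gap (κ := Option ι × ZMod q)
      (fun x => ‖(match x.1 with
        | none => (1 : ℂ)
        | some i => z i) - χ x.2‖) fun x => norm_nonneg _
    refine thin_of (G := fun p => ‖f p - χ ((p : ℕ) : ZMod q)‖) hs' hc fun p hp hpT => ?_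
    have h1 := hc1 (cl p, ((p : ℕ) : ZMod q))
    have h2 := hval p hp
    simp only at h1
    rw [← h2] at h1
    refine h1 ?_
    rw [norm_ne_zero_iff, sub_ne_zero]
    exact hpT
  · by_contra hne
    have hc : 0 < ‖z i ^ m - 1‖ := by rw [norm_pos_iff, sub_ne_zero]; exact hne
    have hmR : (0 : ℝ) < m := by exact_mod_cast hm0
    refine hF.2 i ?_
    have h1 : Thin {p : ℕ | ‖z i ^ m - 1‖ / m ≤ ‖f p - χ ((p : ℕ) : ZMod q)‖} :=
      thin_of (G := fun p => ‖f p - χ ((p : ℕ) : ZMod q)‖) hs'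
        (c := ‖z i ^ m - 1‖ / m) (by positivity) fun p _ hp => hp
    refine thin_mono h1 hq0 fun p hp hpi => ?_
    by_cases hpq : p ∣ q
    · exact Or.inr hpq
    · left
      change ‖z i ^ m - 1‖ / m ≤ ‖f p - χ ((p : ℕ) : ZMod q)‖
      rw [hsome p i hp hpi]
      have h2 := pow_sub (hz i).le (hχn ((p : ℕ) : ZMod q)) m
      rw [chi_pow χ hp hpq] at h2
      rw [div_le_iff₀ hmR, mul_comm]
      exact h2

/-- RootS -/
theorem pr_RootS (hPb : StPb) (hT0 : StT0) : RootS := by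
  intro ι i1 i2 cl hF z hz hP
  obtain ⟨q, hq, χ, -, h⟩ := pr_Rz hPb hT0 ι i1 i2 cl hF z hz hP
  exact ⟨q.totient, Nat.totient_pos.2 (Nat.pos_of_ne_zero hq.ne), h⟩

end Pool.Agent.F0f91f8.FC
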