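import Pool.Agent.Work.MP_0f91f8_co.FC.StmtsT

/-!
# Block FC, item TW: weakly mixing vectors do not contribute (helper98)
-/

set_option autoImplicit false

namespace Pool.Agent.F0f91f8.FC

open Filter Topology ComplexConjugate
open Pool.Agent.F0f91f8.HD
open scoped BigOperators

namespace XTW

/-- from the second moment to the first moment -/
theorem fin (hTC : StTC) (w κ M : ℕ) (hM : 1 ≤ M) (ε : ℝ) (hε : 0 < ε) (F : ℕ → ℕ → ℕ → ℝ)
    (h : AF w κ M (fun x y z => F x y z ^ 2) ≤ ε ^ 2) : AF w κ M F ≤ ε := by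
  obtain ⟨-, -, -, -, -, -, -, -, h2, -⟩ := hTC w κ M hM
  have h3 := (h2 F).trans h
  exact (abs_le_of_sq_le_sq' h3 hε.le).2

end XTW

theorem pr_TW (hDom : DomS) (hWm : WmS) (hTC : StTC) (hTA : StTA) (hTB : StTB) (hTR : StTR) :
    StTW := by
  intro ι iF iD cl hF ε hε
  obtain ⟨w₀, hw₀⟩ := hDom ι iF iD cl hF (ε ^ 2 / 2) (by positivity)
  refine ⟨w₀, fun w hw κ hκ pp hpp m R b hb h g hh hg hgW => ?_⟩
  obtain ⟨C, hC, hCH⟩ := hw₀ w hw κ hκ
  have hact : IsAct (Sa R pp) := ((hTA ι iF iD cl pp hpp).2 m R).1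
  obtain ⟨L₀, hL₀⟩ := hWm ι iF iD R.H R.ng R.ip R.cs (Sa R pp) hact g hgW (ε ^ 2 / (2 * C)) (by positivity)
  obtain ⟨M₁, hM₁⟩ := hCH (max L₀ 1) (le_max_right _ _)
  have hL := hL₀ (max L₀ 1) (le_max_left _ _)
  have hsum : ε ^ 2 / 2 + C * (ε ^ 2 / (2 * C)) = ε ^ 2 := by
    field_simp
    ring
  obtain ⟨hle, -, -, hsym, -⟩ := hTB ι iF iD cl pp hpp m R b hb
  have hbd : ∀ α β γ, ‖Tr R pp b h g α β γ‖ ≤ 1 := fun α β γ =>
    (hle h g α β γ).trans (mul_le_one₀ hh (norm_nonneg _) hg)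
  have hbx : ∀ α β γ, bx (max L₀ 1)
      (fun j : ι → ℕ => ‖Tr R pp b h g α (β + j) γ‖ ^ 2) ≤ ε ^ 2 / (2 * C) := by
    intro α β γ
    obtain ⟨F, hF1, hF2⟩ := hTR ι iF iD cl pp hpp m R b hb h α γ
    have h1 : (fun j : ι → ℕ => ‖Tr R pp b h g α (β + j) γ‖ ^ 2) =
        fun j : ι → ℕ => ‖inner ℂ F (Sa R pp (β + j) g)‖ ^ 2 := by
      funext j
      rw [hF2 g (β + j)]
    rw [h1]
    exact hL β F (hF1.trans hh)
  refine ⟨max M₁ 1, fun M hM => ⟨?_, ?_⟩⟩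
  · apply XTW.fin hTC w κ M ((le_max_right _ _).trans hM) ε hε
    have h1 := hM₁ M ((le_max_left _ _).trans hM) (fun α β γ => ‖Tr R pp b h g α β γ‖ ^ 2)
      (ε ^ 2 / (2 * C)) (fun α β γ => ⟨by positivity, pow_le_one₀ (norm_nonneg _) (hbd α β γ)⟩)
      (Or.inr hbx)
    rw [hsum] at h1
    exact h1
  · apply XTW.fin hTC w κ M ((le_max_right _ _).trans hM) ε hε
    have h1 := hM₁ M ((le_max_left _ _).trans hM) (fun α β γ => ‖Tr R pp b g h α β γ‖ ^ 2)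
      (ε ^ 2 / (2 * C))
      (fun α β γ => ⟨by positivity, by
        show ‖Tr R pp b g h α β γ‖ ^ 2 ≤ 1
        rw [hsym g h α β γ]
        exact pow_le_one₀ (norm_nonneg _) (hbd β α γ)⟩)
      (Or.inl (fun α β γ => by
        have h2 : (fun j : ι → ℕ => ‖Tr R pp b g h (α + j) β γ‖ ^ 2) =
            fun j : ι → ℕ => ‖Tr R pp b h g β (α + j) γ‖ ^ 2 := by
          funext j
          rw [hsym g h (α + j) β γ]
        show bx (max L₀ 1) (fun j : ι → ℕ => ‖Tr R pp b g h (α + j) β γ‖ ^ 2) ≤ _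
        rw [h2]
        exact hbx β α γ))
    rw [hsum] at h1
    exact h1

end Pool.Agent.F0f91f8.FC
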