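import Pool.Agent.Work.MP_0f91f8_co.FC.I_Rz
import Pool.Agent.Work.MP_0f91f8_co.RC.I_RQ4
import Pool.Agent.Work.MP_0f91f8_co.HD.I_DBx

/-!
# Block FC, module P, items ThinS and TrivS (helper83)
-/

set_option autoImplicit false

namespace Pool.Agent.F0f91f8.FC

open Filter Topology ComplexConjugate
open Pool.Agent.F0f91f8.HD Pool.Agent.F0f91f8.RC Pool.Agent.F0f91f8.KR
open scoped BigOperators

namespace IThin

theorem tail {T : Set ℕ} (hT : Thin T) {δ : ℝ} (hδ : 0 < δ) : ∃ w₀ : ℕ, ∀ S : Finset ℕ,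
    (∀ p ∈ S, p.Prime ∧ p ∈ T ∧ w₀ < p) → ∑ p ∈ S, 1 / (p : ℝ) ≤ δ := by
  classical
  obtain ⟨s, hs⟩ := summable_iff_vanishing_norm.1 hT δ hδ
  refine ⟨s.sup fun p => (p : ℕ), fun S hS => ?_⟩
  have hSp : ∀ p ∈ S, p.Prime := fun p hp => (hS p hp).1
  set tt : Finset Nat.Primes := S.attach.image (fun x => (⟨x.1, hSp x.1 x.2⟩ : Nat.Primes)) with htt
  have h1 : ∑ p ∈ S, 1 / (p : ℝ) =
      ∑ p ∈ tt, T.indicator (fun p : ℕ => 1 / (p : ℝ)) (p : ℕ) := by
    rw [htt, Finset.sum_image]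
    · rw [← Finset.sum_attach S]
      refine Finset.sum_congr rfl fun x _ => ?_
      rw [Set.indicator_of_mem (hS x.1 x.2).2.1]
    · intro x _ y _ hxy
      exact Subtype.ext (congrArg (fun z : Nat.Primes => (z : ℕ)) hxy)
  rw [h1]
  refine (le_abs_self _).trans ?_
  rw [← Real.norm_eq_abs]
  refine (hs tt (Finset.disjoint_left.2 fun p hp hps => ?_)).le
  rw [htt, Finset.mem_image] at hp
  obtain ⟨x, -, rfl⟩ := hp
  have h2 := (hS x.1 x.2).2.2
  have h3 := Finset.le_sup (f := fun p : Nat.Primes => (p : ℕ)) hps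
  simp only at h3
  omega

theorem dv_nonneg (κ p a n : ℕ) : 0 ≤ dv κ p a n := by
  unfold dv
  split_ifs <;> norm_num

theorem size (κ A a n : ℕ) (ha : a ≤ A) (hn : n ≤ A) :
    xF κ a n * yF κ a n * zF κ a n ≤ xF κ A A * yF κ A A * zF κ A A := by
  unfold xF yF zF
  gcongr

end IThin

open IThin in
theorem pr_ThinS (hPa : StPa) (hPs : StPs) (hPl : StPl) : ThinS := by
  classical
  intro T hT ε hε
  obtain ⟨w₁, hw₁⟩ := tail hT (δ := ε / 24) (by positivity)
  refine ⟨max 2 w₁, fun w hw κ hκ => ?_⟩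
  have hw2 : 2 ≤ w := (le_max_left _ _).trans hw
  have hww : w₁ ≤ w := (le_max_right _ _).trans hw
  obtain ⟨C0, hC0, hC⟩ := hPl w κ hw2 hκ
  obtain ⟨w₂, hw₂⟩ := tail hT (δ := ε / (2 * C0)) (by positivity)
  refine ⟨max 1 w₂, fun M hM φ hφ1 hφ0 => ?_⟩
  have hM1 : 1 ≤ M := (le_max_left _ _).trans hM
  have hMw : w₂ ≤ M := (le_max_right _ _).trans hM
  rw [hPa.1]
  set A : ℕ := w.factorial * (M + M) + 1 with hA
  set N : ℕ := xF κ A A * yF κ A A * zF κ A A with hN
  set S : Finset ℕ := (Finset.range (N + 1)).filter fun p => p.Prime ∧ p ∈ T ∧ w < p with hS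
  have h1 : (BR w.factorial 1 1 M fun a s => φ (xF κ a (w.factorial * s + 1))
      (yF κ a (w.factorial * s + 1)) (zF κ a (w.factorial * s + 1))) ≤
      BR w.factorial 1 1 M fun a s => ∑ p ∈ S, dv κ p a (w.factorial * s + 1) := by
    refine IRQ4.br_mono fun u hu u' hu' v hv v' hv' => ?_
    rw [Finset.mem_Icc] at hu hu' hv hv'
    rw [one_mul] at hv hv'
    set a : ℕ := w.factorial * (v + v') + 1 with ha
    set n : ℕ := w.factorial * (u + u') + 1 with hn
    have ha0 : 0 < a := by rw [ha]; exact Nat.succ_pos _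
    have hn0 : 0 < n := by rw [hn]; exact Nat.succ_pos _
    have haA : a ≤ A := by
      rw [ha, hA]
      exact Nat.succ_le_succ (Nat.mul_le_mul_left _ (by omega))
    have hnA : n ≤ A := by
      rw [hn, hA]
      exact Nat.succ_le_succ (Nat.mul_le_mul_left _ (by omega))
    have hx : 0 < xF κ a n := by unfold xF; positivity
    have hy : 0 < yF κ a n := by unfold yF; positivity
    have hz : 0 < zF κ a n := by unfold zF; positivity
    by_cases h : ∃ p : ℕ, p.Prime ∧ w < p ∧ p ∈ T ∧ p ∣ xF κ a n * yF κ a n * zF κ a n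
    · obtain ⟨p, hp1, hp2, hp3, hp4⟩ := h
      have hpN : p ≤ N := (Nat.le_of_dvd (by positivity) hp4).trans (size κ A a n haA hnA)
      have hpS : p ∈ S := by
        rw [hS, Finset.mem_filter, Finset.mem_range]
        exact ⟨by omega, hp1, hp3, hp2⟩
      have h2 : (1 : ℝ) ≤ ∑ p ∈ S, dv κ p a n := by
        refine le_trans (le_of_eq ?_) (Finset.single_le_sum (fun q _ => dv_nonneg κ q a n) hpS)
        unfold dv
        rw [if_pos hp4]
      exact (hφ1 _ _ _ hx hy hz).trans h2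
    · push Not at h
      refine (hφ0 _ _ _ hx hy hz fun p h1 h2 h3 => h p h1 h2 h3).trans ?_
      exact Finset.sum_nonneg fun q _ => dv_nonneg κ q a n
  have h2 : (BR w.factorial 1 1 M fun a s => ∑ p ∈ S, dv κ p a (w.factorial * s + 1)) =
      ∑ p ∈ S, BR w.factorial 1 1 M fun a s => dv κ p a (w.factorial * s + 1) :=
    IRQ4.br_sum pr_DBx w.factorial 1 1 M S fun p a s => dv κ p a (w.factorial * s + 1)
  refine h1.trans ?_
  rw [h2, ← Finset.sum_filter_add_sum_filter_not S (fun p => p ≤ M)]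
  have h3 : (∑ p ∈ S.filter (fun p => p ≤ M),
      BR w.factorial 1 1 M fun a s => dv κ p a (w.factorial * s + 1)) ≤ ε / 2 := by
    have h4 : ∀ p ∈ S.filter (fun p => p ≤ M),
        (BR w.factorial 1 1 M fun a s => dv κ p a (w.factorial * s + 1)) ≤
          12 * (1 / (p : ℝ)) := by
      intro p hp
      rw [Finset.mem_filter, hS, Finset.mem_filter] at hp
      refine (hPs w κ p M hw2 hκ hp.1.2.1 hp.1.2.2.2 hp.2).trans (le_of_eq ?_)
      ring
    refine (Finset.sum_le_sum h4).trans ?_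
    rw [← Finset.mul_sum]
    have h5 := hw₁ (S.filter fun p => p ≤ M) fun p hp => by
      rw [Finset.mem_filter, hS, Finset.mem_filter] at hp
      exact ⟨hp.1.2.1, hp.1.2.2.1, lt_of_le_of_lt hww hp.1.2.2.2⟩
    linarith
  have h4 : (∑ p ∈ S.filter (fun p => ¬ p ≤ M),
      BR w.factorial 1 1 M fun a s => dv κ p a (w.factorial * s + 1)) ≤ ε / 2 := by
    have h4 : ∀ p ∈ S.filter (fun p => ¬ p ≤ M),
        (BR w.factorial 1 1 M fun a s => dv κ p a (w.factorial * s + 1)) ≤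
          C0 * (1 / (p : ℝ)) := by
      intro p hp
      rw [Finset.mem_filter, hS, Finset.mem_filter] at hp
      refine (hC M hM1 p hp.1.2.1 hp.1.2.2.2 (not_le.1 hp.2)).trans (le_of_eq ?_)
      ring
    refine (Finset.sum_le_sum h4).trans ?_
    rw [← Finset.mul_sum]
    have h5 := hw₂ (S.filter fun p => ¬ p ≤ M) fun p hp => by
      rw [Finset.mem_filter, hS, Finset.mem_filter] at hp
      exact ⟨hp.1.2.1, hp.1.2.2.1, lt_of_le_of_lt hMw (not_le.1 hp.2)⟩
    calc C0 * ∑ p ∈ S.filter (fun p => ¬ p ≤ M), 1 / (p : ℝ) ≤ C0 * (ε / (2 * C0)) :=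
          mul_le_mul_of_nonneg_left h5 hC0.le
      _ = ε / 2 := by field_simp
  linarith

end Pool.Agent.F0f91f8.FC
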