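import Pool.Agent.Work.MP_0f91f8_co.FC.I_ThinS

/-!
# Block FC, module P, item TrivS (helper83)
-/

set_option autoImplicit false

namespace Pool.Agent.F0f91f8.FC

open Filter Topology ComplexConjugate
open Pool.Agent.F0f91f8.HD Pool.Agent.F0f91f8.RC Pool.Agent.F0f91f8.KR
open scoped BigOperators

namespace ITriv

theorem cm_one {f : ℕ → ℂ} (hf : CM f) : f 1 = 1 := by
  have h1 := hf.2.1 1 1
  have h2 : f 1 ≠ 0 := by
    intro h
    have := hf.2.2 1 one_pos
    rw [h] at this
    simp at this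
  rw [mul_one] at h1
  have h3 : f 1 * 1 = f 1 * f 1 := by rw [mul_one]; exact h1
  exact (mul_left_cancel₀ h2 h3).symm

/-- two completely multiplicative functions which agree at the prime factors -/
theorem agree {f : ℕ → ℂ} (hf : CM f) {q : ℕ} (χ : DirichletCharacter ℂ q) (m : ℕ) :
    0 < m → (∀ p : ℕ, p.Prime → p ∣ m → f p = χ ((p : ℕ) : ZMod q)) →
      f m = χ ((m : ℕ) : ZMod q) := by
  induction m using Nat.recOnMul with
  | zero => intro h; exact absurd h (lt_irrefl _)
  | one =>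
    intro _ _
    rw [cm_one hf, Nat.cast_one, map_one]
  | prime p hp =>
    intro _ h
    exact h p hp dvd_rfl
  | mul a b iha ihb =>
    intro h0 h
    have ha : 0 < a := Nat.pos_of_ne_zero (by rintro rfl; simp at h0)
    have hb : 0 < b := Nat.pos_of_ne_zero (by rintro rfl; simp at h0)
    rw [hf.2.1, iha ha fun p hp hpa => h p hp (hpa.mul_right b),
      ihb hb fun p hp hpb => h p hp (hpb.mul_left a), Nat.cast_mul, map_mul]

/-- the value at integers `≡ 1` without exceptional prime factors -/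
theorem one_of {f : ℕ → ℂ} (hf : CM f) {q : ℕ} (χ : DirichletCharacter ℂ q) {w m : ℕ}
    (hq : q ∣ w.factorial) (hm : 0 < m) (hm1 : m % w.factorial = 1 % w.factorial)
    (h : ∀ p : ℕ, p.Prime → w < p → f p ≠ χ ((p : ℕ) : ZMod q) → ¬ p ∣ m) : f m = 1 := by
  rw [agree hf χ m hm fun p hp hpm => ?_]
  · have h1 : m ≡ 1 [MOD q] := Nat.ModEq.of_dvd hq hm1
    have h2 : ((m : ℕ) : ZMod q) = ((1 : ℕ) : ZMod q) := (ZMod.natCast_eq_natCast_iff _ _ _).2 h1
    rw [h2, Nat.cast_one, map_one]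
  · by_contra hne
    rcases Nat.lt_or_ge w p with hwp | hwp
    · exact h p hp hwp hne hpm
    · have h1 : p ∣ w.factorial := (hp.dvd_factorial).2 hwp
      have h2 : m ≡ 1 [MOD p] := Nat.ModEq.of_dvd h1 hm1
      have h3 : (1 : ℕ) ≡ 0 [MOD p] := h2.symm.trans ((Nat.modEq_zero_iff_dvd).2 hpm)
      have h4 := (Nat.modEq_zero_iff_dvd).1 h3
      exact hp.one_lt.ne' (Nat.dvd_one.1 h4)

/-- the members are `≡ 1` -/
theorem members {Q κ a n : ℕ} (hκ : Q ∣ κ) (ha : a ≡ 1 [MOD Q]) (hn : n ≡ 1 [MOD Q]) :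
    xF κ a n ≡ 1 [MOD Q] ∧ yF κ a n ≡ 1 [MOD Q] ∧ zF κ a n ≡ 1 [MOD Q] := by
  have h0 : κ ≡ 0 [MOD Q] := (Nat.modEq_zero_iff_dvd).2 hκ
  have h1 : κ * n ≡ 0 [MOD Q] := by
    have := h0.mul_right n
    rwa [zero_mul] at this
  have h2 : a + κ * n ≡ 1 [MOD Q] := by
    have := ha.add h1
    rwa [add_zero] at this
  have h3 : a + 2 * (κ * n) ≡ 1 [MOD Q] := by
    have := ha.add (h1.mul_left 2)
    rwa [mul_zero, add_zero] at this
  refine ⟨?_, ?_, ?_⟩
  · unfold xF
    have := hn.mul h2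
    rwa [one_mul] at this
  · unfold yF
    have := ha.mul h3
    rwa [one_mul] at this
  · unfold zF
    have := (h2.pow 2).add (h1.pow 2)
    simpa using this

end ITriv

open ITriv in
theorem pr_TrivS (hPa : StPa) (hPb : StPb) (hT0 : StT0) (hTh : ThinS) : TrivS := by
  classical
  intro ι i1 i2 cl hF z hz hP ε hε
  obtain ⟨q, hq, χ, hT, -⟩ := pr_Rz hPb hT0 ι i1 i2 cl hF z hz hP
  obtain ⟨hCM, -, -⟩ := (hPb ι i1 i2 cl).2 z hz
  obtain ⟨w₁, hw₁⟩ := hTh _ hT (ε / 6) (by positivity)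
  refine ⟨max q w₁, fun w hw κ hκ => ?_⟩
  have hqw : q ∣ w.factorial :=
    Nat.dvd_factorial (Nat.pos_of_ne_zero hq.ne) ((le_max_left _ _).trans hw)
  obtain ⟨M₀, hM₀⟩ := hw₁ w ((le_max_right _ _).trans hw) κ hκ
  refine ⟨M₀, fun M hM => ?_⟩
  set Fn : ℕ → ℕ → ℕ → ℝ := fun x y t =>
    ‖1 - ch z (hv cl x)‖ + ‖1 - ch z (hv cl y)‖ + ‖1 - ch z (hv cl t)‖ with hFn
  set ψ : ℕ → ℕ → ℕ → ℝ := fun x y t =>
    if x % w.factorial = 1 % w.factorial ∧ y % w.factorial = 1 % w.factorial ∧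
      t % w.factorial = 1 % w.factorial then Fn x y t / 6 else 0 with hψ
  have hch : ∀ m, ‖ch z (hv cl m)‖ = 1 := by
    intro m
    unfold ch
    rw [norm_prod]
    refine Finset.prod_eq_one fun i _ => ?_
    rw [norm_pow, hz i, one_pow]
  have hle : ∀ m, ‖1 - ch z (hv cl m)‖ ≤ 2 := by
    intro m
    refine (norm_sub_le _ _).trans ?_
    rw [norm_one, hch m]
    norm_num
  have h1 := hM₀ M hM ψ (fun x y t _ _ _ => by
      simp only [hψ]
      split_ifs
      · have := hle x
        have := hle y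
        have := hle t
        simp only [hFn]
        linarith
      · norm_num) (fun x y t hx hy ht hh => by
      simp only [hψ]
      split_ifs with hc
      · have key : ∀ m : ℕ, 0 < m → m % w.factorial = 1 % w.factorial → m ∣ x * y * t →
            ‖1 - ch z (hv cl m)‖ = 0 := by
          intro m hm hm1 hd
          have h2 := one_of hCM χ hqw hm hm1 fun p hp hwp hne hpm =>
            hh p hp hwp hne (hpm.trans hd)
          unfold fz at h2
          rw [if_neg hm.ne'] at h2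
          rw [h2, sub_self, norm_zero]
        simp only [hFn]
        rw [key x hx hc.1 ⟨y * t, by ring⟩, key y hy hc.2.1 ⟨x * t, by ring⟩,
          key t ht hc.2.2 ⟨x * y, by ring⟩]
        norm_num
      · exact le_rfl)
  have h2 : AF w κ M Fn ≤ 6 * AF w κ M ψ := by
    rw [hPa.1, hPa.1, ← (pr_DBx w.factorial 1 1 M).2.2.2.2.2.1]
    refine IRQ4.br_mono fun u _ u' _ v _ v' _ => ?_
    have ha : w.factorial * (v + v') + 1 ≡ 1 [MOD w.factorial] := by
      have h3 : w.factorial * (v + v') ≡ 0 [MOD w.factorial] :=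
        (Nat.modEq_zero_iff_dvd).2 (dvd_mul_right _ _)
      have := h3.add_right 1
      rwa [zero_add] at this
    have hn : w.factorial * (u + u') + 1 ≡ 1 [MOD w.factorial] := by
      have h3 : w.factorial * (u + u') ≡ 0 [MOD w.factorial] :=
        (Nat.modEq_zero_iff_dvd).2 (dvd_mul_right _ _)
      have := h3.add_right 1
      rwa [zero_add] at this
    have hmem := members hκ.2.1 ha hn
    simp only [hψ]
    rw [if_pos]
    · linarith
    · exact hmem
  linarith

end Pool.Agent.F0f91f8.FC
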