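import Pool.Agent.Work.MP_0f91f8_co.FC.StmtsT

/-!
# Block FC, module A (main term and assembly): statements with complete proofs (helper48)

Item `X`: statement `StX`, file `FC/I_X.lean`, theorem `pr_X`, namespace `Pool.Agent.F0f91f8.FC`. Earlier items, the items of
`FC/StmtsT.lean` and the interface statements of `FC/Defs.lean` may be taken as hypotheses.
-/

set_option autoImplicit false

namespace Pool.Agent.F0f91f8.FC

open Filter Topology ComplexConjugate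
open Pool.Agent.F0f91f8.HD
open scoped BigOperators

/-- dilation -/
def dil (k : ℕ) (F : ℕ → ℝ) : ℕ → ℝ := fun n => F (k * n)

/-- a real function as a complex function -/
def cf (F : ℕ → ℝ) : ℕ → ℂ := fun n => (F n : ℂ)

/-- values in `[0, 1]` -/
def I01 (F : ℕ → ℝ) : Prop := ∀ n, 0 ≤ F n ∧ F n ≤ 1

/-- functions for which primes of the same class act in the same way -/
def InvF {ι : Type} (cl : ℕ → Option ι) (F : ℕ → ℝ) : Prop :=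
  ∀ (p q : ℕ) (i : ι), p.Prime → q.Prime → cl p = some i → cl q = some i →
    ∀ n : ℕ, 0 < n → F (p * n) = F (q * n)

section
variable {ι : Type} [Fintype ι] [DecidableEq ι]

/-- the mean of a product of three dilations -/
noncomputable def Qm (m : (ℕ → ℝ) → ℝ) (pp : ι → ℕ) (F₀ F₁ F₂ : ℕ → ℝ) (α β γ : ι → ℕ) : ℝ :=
  m fun n => F₀ (nn pp γ * n) * F₁ (nn pp α * n) * F₂ (nn pp β * n)

/-- `f'` is a convex combination of dilations of `f` by elements of `Λ = {λ : ch z λ = 1 for z ∈ X₁}`, it is almost invariant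
under `Λ`, and `f - f'` has a negligible pretentious part -/
structure Apx (cl : ℕ → Option ι) (pp : ι → ℕ) {m : (ℕ → ℝ) → ℝ} (R : Rep m) (f f' : ℕ → ℝ)
    (X₁ : Finset (ι → ℂ)) (ε : ℝ) : Prop where
  hX : ∀ z ∈ X₁, Uni z ∧ Pret (fz cl z)
  h01 : I01 f'
  hm : m f' = m f
  hc : ∃ (s : Finset (ι → ℕ)) (c : (ι → ℕ) → ℝ), (∀ a ∈ s, ∀ z ∈ X₁, ch z a = 1) ∧
    (∀ a, 0 ≤ c a) ∧ ∑ a ∈ s, c a = 1 ∧ ∀ n, f' n = ∑ a ∈ s, c a * f (nn pp a * n)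
  hd : ∃ g₁ g₂ g₃ : R.H, R.e (cf fun n => f n - f' n) = g₁ + g₂ + g₃ ∧ ‖g₁‖ ≤ ε ∧ ‖g₂‖ ≤ 2 ∧
    ‖g₃‖ ≤ 2 ∧ g₂ ∈ Es (Sa R pp) {z | ¬ Pret (fz cl z)} ∧ Wm (Sa R pp) g₃
  hi : ∀ a : ι → ℕ, (∀ z ∈ X₁, ch z a = 1) →
    ‖Sa R pp a (R.e (cf f')) - R.e (cf f')‖ ≤ ε

end

/-! ## 1. Calculus -/

/-- [Am] (EASY) calculus of means. Monotonicity from positivity of `G - F`; `(m F)² ≤ m (F²)` from `m ((F - c)²) ≥ 0`,
`c = m F`; `(m F)³ ≤ m (F³)` for `F ≥ 0` from `t³ ≥ 3 c² t - 2 c³` (`t, c ≥ 0`), `c = m F`. -/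
def StAm : Prop := ∀ m : (ℕ → ℝ) → ℝ, IsMean m →
  (∀ F G, BdR F → BdR G → (∀ n, 0 < n → F n ≤ G n) → m F ≤ m G) ∧
  (∀ F G, BdR F → BdR G → (∀ n, 0 < n → F n = G n) → m F = m G) ∧
  (∀ c : ℝ, m (fun _ => c) = c) ∧
  (∀ F G, BdR F → BdR G → m (fun n => F n - G n) = m F - m G) ∧
  (∀ (α : Type) (s : Finset α) (c : α → ℝ) (F : α → ℕ → ℝ), (∀ a ∈ s, BdR (F a)) →
    m (fun n => ∑ a ∈ s, c a * F a n) = ∑ a ∈ s, c a * m (F a)) ∧
  (∀ F, BdR F → m F ^ 2 ≤ m fun n => F n ^ 2) ∧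
  (∀ F, I01 F → m F ^ 3 ≤ m fun n => F n ^ 3)

/-- [An] (EASY) norms. `‖e F‖² = m |F|²` (`e_inner`, `mC` of a real function), so functions which agree on the positive integers
have the same class. `|m (F₀ F₁ F₂) - m (F₀ F₁ F₂')| ≤ m |F₂ - F₂'| ≤ (m |F₂ - F₂'|²)^(1/2) = ‖e F₂ - e F₂'‖` for
`|F₀|, |F₁| ≤ 1`. (hAm : StAm) -/
def StAn : Prop := ∀ m : (ℕ → ℝ) → ℝ, IsMean m → ∀ R : Rep m,
  (∀ F, BdR F → ‖R.e (cf F)‖ ^ 2 = m fun n => F n ^ 2) ∧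
  (∀ F G, BdC F → BdC G → (∀ n, 0 < n → F n = G n) → R.e F = R.e G) ∧
  (∀ F G, BdR F → BdR G → R.e (cf fun n => F n - G n) = R.e (cf F) - R.e (cf G)) ∧
  (∀ F, I01 F → ‖R.e (cf F)‖ ≤ 1) ∧
  (∀ k : ℕ, 0 < k → ∀ F, BdR F → R.T k (R.e (cf F)) = R.e (cf (dil k F))) ∧
  ∀ F₀ F₁ F₂ F₂' : ℕ → ℝ, (∀ n, |F₀ n| ≤ 1) → (∀ n, |F₁ n| ≤ 1) → BdR F₂ → BdR F₂' →
    |m (fun n => F₀ n * F₁ n * F₂ n) - m (fun n => F₀ n * F₁ n * F₂' n)| ≤
      ‖R.e (cf F₂) - R.e (cf F₂')‖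

/-- [AQ] (EASY) `Tr` on real functions: `T_e`, `B_e` and `mC` of a real function. (hTA : StTA) -/
def StAQ : Prop := ∀ (ι : Type) (_ : Fintype ι) (_ : DecidableEq ι) (cl : ℕ → Option ι)
  (pp : ι → ℕ), Rpr cl pp → ∀ (m : (ℕ → ℝ) → ℝ), IsMean m → ∀ (R : Rep m) (F₀ F₁ F₂ : ℕ → ℝ),
  BdR F₀ → BdR F₁ → BdR F₂ → ∀ α β γ : ι → ℕ,
  Tr R pp (cf F₀) (R.e (cf F₁)) (R.e (cf F₂)) α β γ = (Qm m pp F₀ F₁ F₂ α β γ : ℂ)

/-- [AA] (EASY-MEDIUM) if all prime factors of `x > 0` belong to classes then `F (x n) = F (nn pp (hv cl x) n)`. Induction on `x`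
(`Nat.recOnMul` or on the prime factors): `x = p x'`, `cl p = some i`: `F (p x' n) = F (pp i x' n) = F (x' (pp i n))
= F (nn (hv x') pp i n)`, and `hv x = hv x' + e_i`, `nn pp (hv x) = nn pp (hv x') * pp i`. -/
def StAA : Prop := ∀ (ι : Type) (_ : Fintype ι) (_ : DecidableEq ι) (cl : ℕ → Option ι)
  (pp : ι → ℕ), Rpr cl pp → ∀ F : ℕ → ℝ, InvF cl F → ∀ x : ℕ, 0 < x →
  (∀ p : ℕ, p.Prime → p ∣ x → cl p ≠ none) → ∀ n : ℕ, 0 < n →
  F (x * n) = F (nn pp (hv cl x) * n)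

/-- [AM] (EASY) all prime factors of the members of the family are `> w`: `a = n = 1` modulo `w!` and `w! ∣ κ`, so
`xF = yF = zF = 1` modulo `w!`. The members are positive. -/
def StAM : Prop := ∀ w κ M : ℕ, Adm w κ → ∀ F G : ℕ → ℕ → ℕ → ℝ,
  (∀ x y z, 0 < x → 0 < y → 0 < z → (∀ p : ℕ, p.Prime → p ∣ x * y * z → w < p) →
    F x y z ≤ G x y z) → AF w κ M F ≤ AF w κ M G

/-- [AW] (EASY-MEDIUM) `T = R.T k` (an isometry commuting with the action, `StTA`) preserves `Es Y` and `Wm`. Eigenvectors go to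
eigenvectors; span, closure (continuity). `Wm`: let `e'` be an eigenvector, `T*` the adjoint; for an isometry `S = Sa a`
with `S e' = c e'`, `|c| = 1`: `S* e' = conj c e'` (`S* S = 1`), so `S* (T* e') = T* S* e' = conj c T* e'`, and for `v = T* e'`:
`‖S v - c v‖² = 2‖v‖² - 2 Re inner (S v) (c v) = 2‖v‖² - 2 Re (c inner v (S* v)) = 0`. So `T* e'` is an eigenvector and
`inner e' (T g) = inner (T* e') g = 0`. The same for `T` replaced by `Sa b`. (hTA : StTA) -/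
def StAW : Prop := ∀ (ι : Type) (_ : Fintype ι) (_ : DecidableEq ι) (cl : ℕ → Option ι)
  (pp : ι → ℕ), Rpr cl pp → ∀ (m : (ℕ → ℝ) → ℝ) (R : Rep m) (k : ℕ), 0 < k →
  (∀ (Y : Set (ι → ℂ)) (g : R.H), g ∈ Es (Sa R pp) Y → R.T k g ∈ Es (Sa R pp) Y) ∧
  ∀ g : R.H, Wm (Sa R pp) g → Wm (Sa R pp) (R.T k g)

/-! ## 2. The structured part -/

/-- [AP] (MEDIUM) existence of `f'`. `S = Sa R pp`, `h = R.e (cf f)`, `‖h‖ ≤ 1`, `Y = {z | Pret (fz cl z)}`. `DecS`: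
`h = h₁ + h₂ + h₃`, `h₁ ∈ Es Y`, `h₂ ∈ Es Yᶜ`, `h₃` weakly mixing, norms `≤ 1`. Choose a finite combination
`v = ∑ c_j e_j` of eigenvectors with characters `z_j ∈ Y` and `‖h₁ - v‖ ≤ ε/4`; `X₁ = {z_j}`. The `a : ι → ℕ` with `ch z a = 1` for
all `z ∈ X₁` form an additive submonoid `Λ`. `ErgS` with `G = Λ` and `h`: a `Λ`-invariant vector `e`, and a convex combination
`h' = ∑_{a ∈ s} c a • S a h` with `‖h' - e‖ ≤ ε/2`. Put `f' n = ∑ c a f (nn pp a n)`: values in `[0,1]`, `m f' = m f`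
(invariance), `R.e (cf f') = h'` (`T_e`, linearity, `StAn`). For `a ∈ Λ`: `‖S a h' - h'‖ ≤ 2 ‖h' - e‖ ≤ ε`. With
`D = 1 - ∑ c a S a`: `R.e (cf (f - f')) = D h₁ + D h₂ + D h₃`; `‖D h₁‖ = ‖D (h₁ - v)‖ ≤ 2 ε/4` since `S a e_j = e_j`; `D h₂ ∈ Es Yᶜ`,
`D h₃` weakly mixing (`StAW` with `k = nn pp a`; closure of `Wm` under linear combinations), norms `≤ 2`.
(hDec : DecS) (hErg : ErgS) (hTA : StTA) (hAm : StAm) (hAn : StAn) (hAW : StAW) -/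
def StAP : Prop := ∀ (ι : Type) (_ : Fintype ι) (_ : DecidableEq ι) (cl : ℕ → Option ι)
  (pp : ι → ℕ), Rpr cl pp → ∀ (m : (ℕ → ℝ) → ℝ), IsMean m → ∀ (R : Rep m) (f : ℕ → ℝ), I01 f →
  ∀ ε : ℝ, 0 < ε → ∃ (f' : ℕ → ℝ) (X₁ : Finset (ι → ℂ)), Apx cl pp R f f' X₁ ε

open Classical in
/-- [AV] (EASY) for finitely many pretentious characters, all of them are `1` at most members. By `RootS` the values `ch z α` are
roots of unity of order `N`, so `|1 - ch z α| ≥ c_z > 0` if `ch z α ≠ 1` (finitely many values); the indicator of the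
exceptional set is `≤ ∑_z (1/c_z) (|1 - ch z α| + |1 - ch z β| + |1 - ch z γ|)`; `TrivS` for every `z ∈ X₁`.
(hR : RootS) (hT : TrivS) (hTC : StTC) -/
def StAV : Prop := ∀ (ι : Type) (_ : Fintype ι) (_ : DecidableEq ι) (cl : ℕ → Option ι), Fat cl →
  ∀ X₁ : Finset (ι → ℂ), (∀ z ∈ X₁, Uni z ∧ Pret (fz cl z)) → ∀ ε : ℝ, 0 < ε →
  ∃ w₀ : ℕ, ∀ w ≥ w₀, ∀ κ : ℕ, Adm w κ → ∃ M₀ : ℕ, ∀ M ≥ M₀,
  AF w κ M (fun x y t => if ∀ z ∈ X₁, ch z (hv cl x) = 1 ∧ ch z (hv cl y) = 1 ∧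
    ch z (hv cl t) = 1 then 0 else 1) ≤ ε

/-- [AL] (EASY-MEDIUM) `α, β, γ ∈ Λ`. `F = R.e (cf f')`, `R.e (cf (dil k f')) = T F`, `T = R.T k` commutes with `Sa`, so both `F` and
`T F` are moved by at most `ε` by `Sa a`, `a ∈ Λ`. In `m (f(nn γ ·) f'(k nn α ·) f'(nn β ·))` replace `α` by `γ` (error
`≤ 2ε`, `StAn`) and `β` by `γ` (error `≤ 2ε`): by invariance of `m` it becomes `m (f f'_k f')`, `f'_k = dil k f'`. For `a ∈ s`:
`m (f f'_k f') = m (f(nn a ·) f'_k(nn a ·) f'(nn a ·))`, which differs from `m (f(nn a ·) f'_k f')` by at most `2ε`; the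
convex combination over `a ∈ s` is `m (f' f'_k f')`. Total error `6ε`. (hTA : StTA) (hAm : StAm) (hAn : StAn) -/
def StAL : Prop := ∀ (ι : Type) (_ : Fintype ι) (_ : DecidableEq ι) (cl : ℕ → Option ι)
  (pp : ι → ℕ), Rpr cl pp → ∀ (m : (ℕ → ℝ) → ℝ), IsMean m → ∀ (R : Rep m) (f f' : ℕ → ℝ)
  (X₁ : Finset (ι → ℂ)) (ε : ℝ), I01 f → 0 < ε → Apx cl pp R f f' X₁ ε → ∀ k : ℕ, 0 < k →
  ∀ α β γ : ι → ℕ, (∀ z ∈ X₁, ch z α = 1 ∧ ch z β = 1 ∧ ch z γ = 1) →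
  |Qm m pp f (dil k f') f' α β γ - m (fun n => f' n ^ 2 * f' (k * n))| ≤ 6 * ε

/-- [AR] (MEDIUM) the main comparison, `k = 2κ`. `Qm f (dil k f) f = Qm f (dil k f) (f - f') + Qm f (dil k (f - f')) f'
+ Qm f (dil k f') f'` (linearity). First term: `Tr R pp (cf f) (R.e (cf (dil k f))) (g₁ + g₂ + g₃)` (`StAQ`), `TriS`
for the vectors `g_i/2` and `ε`: the average is `≤ 2 (ε/2 + ε) = 3ε` in absolute value. Second term: `R.e (cf (dil k (f - f')))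
= T g₁ + T g₂ + T g₃`, `T = R.T k` (`StAn`, `StAW`, isometry), again `≤ 3ε`. Third term: on the set of `StAV` it is
`≥ m (f'² f'_k) - 6ε` (`StAL`), elsewhere it is `≥ 0 ≥ m (f'² f'_k) - 1`; so its average is `≥ m (f'² f'_k) - 6ε - ε`.
(hTri : TriS) (hTC : StTC) (hTA : StTA) (hTB : StTB) (hAm : StAm) (hAn : StAn) (hAQ : StAQ) (hAW : StAW) (hAV : StAV)
(hAL : StAL) -/
def StAR : Prop := ∀ (ι : Type) (_ : Fintype ι) (_ : DecidableEq ι) (cl : ℕ → Option ι), Fat cl →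
  ∀ (pp : ι → ℕ), Rpr cl pp → ∀ (m : (ℕ → ℝ) → ℝ), IsMean m → ∀ (R : Rep m) (f f' : ℕ → ℝ)
  (X₁ : Finset (ι → ℂ)) (ε : ℝ), I01 f → 0 < ε → Apx cl pp R f f' X₁ ε →
  ∃ w₀ : ℕ, ∀ w ≥ w₀, ∀ κ : ℕ, Adm w κ → ∃ M₀ : ℕ, ∀ M ≥ M₀,
  m (fun n => f' n ^ 2 * f' (2 * κ * n)) - 13 * ε ≤
    AF w κ M fun x y t => Qm m pp f (dil (2 * κ) f) f (hv cl x) (hv cl y) (hv cl t)

/-- [AS] (EASY-MEDIUM) the true members. For members `x, y, z` all primes are `> w` (`StAM`); if none of them is in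
`T = {p | cl p = none}` then `f (2κ x n) = (dil (2κ) f)(nn (hv x) n)`, `f (y n) = f (nn (hv y) n)`, `f (z n) = f (nn (hv z) n)` for
`n > 0` (`StAA`; `dil k f` is again `InvF`), so the two means are equal (`StAm`); in any case the difference is `≤ 1`.
Apply `ThinS` to `T` and `φ x y z = (difference)` if all primes of `x y z` are `> w`, `0` otherwise.
(hTh : ThinS) (hTC : StTC) (hAm : StAm) (hAA : StAA) (hAM : StAM) -/
def StAS : Prop := ∀ (ι : Type) (_ : Fintype ι) (_ : DecidableEq ι) (cl : ℕ → Option ι), Fat cl →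
  ∀ (pp : ι → ℕ), Rpr cl pp → ∀ (m : (ℕ → ℝ) → ℝ), IsMean m → ∀ f : ℕ → ℝ, I01 f → InvF cl f →
  ∀ ε : ℝ, 0 < ε → ∃ w₀ : ℕ, ∀ w ≥ w₀, ∀ κ : ℕ, Adm w κ → ∃ M₀ : ℕ, ∀ M ≥ M₀,
  AF w κ M (fun x y t => Qm m pp f (dil (2 * κ) f) f (hv cl x) (hv cl y) (hv cl t)) - ε ≤
    AF w κ M fun x y t => m fun n => f (2 * κ * x * n) * f (y * n) * f (t * n)

/-! ## 3. The average over `κ` -/

/-- [AG] (EASY-MEDIUM) mean ergodic theorem for boxes. `ErgS` with `G = Fin N → ℕ`: `e` invariant and, for `ε`, a convex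
combination `v = ∑ c a • S a f` with `‖v - e‖ ≤ ε`. `E_K` = average of `S a` over `[0,K)^N` is a contraction, `E_K e = e`, and
`‖E_K (S b f) - E_K f‖ ≤ 2 (∑ b i) ‖f‖/K` (one coordinate after the other: a shift by `b i` in the coordinate `i` changes at most
`2 b i K^(N-1)` terms), so `‖E_K f - e‖ ≤ ‖E_K (v - e)‖ + ‖E_K v - E_K f‖ ≤ 2ε` for `K` large. (hErg : ErgS) -/
def StAG : Prop := ∀ (N : ℕ) (H : Type) (_ : NormedAddCommGroup H) (_ : InnerProductSpace ℂ H)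
  (_ : CompleteSpace H) (S : (Fin N → ℕ) → H →ₗᵢ[ℂ] H), (∀ h, S 0 h = h) →
  (∀ a b h, S (a + b) h = S a (S b h)) → ∀ f : H, ∃ e : H, (∀ a, S a e = e) ∧
  Tendsto (fun K : ℕ => ((K : ℂ) ^ N)⁻¹ • ∑ a : Fin N → Fin K, S (fun i => (a i : ℕ)) f)
    atTop (𝓝 e)

/-- [AK] (MEDIUM) average over `κ = w! kp w K e`. `S a = R.T (∏_{p ≤ w prime} p^(a p))`, `a : Fin (w+1) → ℕ`, is an action by
isometries. `StAG`: `F_K n = K^(-(w+1)) ∑_e f' (kp w K e n)`, `R.e (cf F_K) → u`, `u` invariant; also `R.T (2 w!) u = u` (`2 w!`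
is a product of primes `≤ w`, `w ≥ 2`). `G_K` = the same average of `f'²`; `G_K ≥ F_K²` (convexity). With `B = R.B (cf 1)`:
the left side is `B (e f'²) (T_{2 w!} e F_K) → B (e f'²) u`, and `B (e f'²) u = B (S a e f'²) (S a u) = B (S a e f'²) u`, so
`= B (e G_K) u`, and `|B (e G_K) u - B (e G_K) (e F_K)| ≤ ‖u - e F_K‖ → 0`, `B (e G_K) (e F_K) = m (G_K F_K) ≥ m (F_K³)
≥ (m F_K)³ = (m f')³` (`StAm`). (hAm : StAm) (hAn : StAn) (hAG : StAG) -/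
def StAK : Prop := ∀ (m : (ℕ → ℝ) → ℝ), IsMean m → ∀ (_ : Rep m) (f' : ℕ → ℝ), I01 f' →
  ∀ (w : ℕ) (ε : ℝ), 2 ≤ w → 0 < ε → ∃ K₀ : ℕ, ∀ K ≥ K₀,
  m f' ^ 3 - ε ≤ (∑ e : Fin (w + 1) → Fin K,
    m fun n => f' n ^ 2 * f' (2 * (w.factorial * kp w K e) * n)) / (K : ℝ) ^ (w + 1)

/-- [AT] (EASY-MEDIUM) `FatS`. `f = ind A` (`I01`, `InvF`), `pp` exists (every class is fat, so it contains a prime), `R` by `RepS`.
`ε' = ε/32`. `StAP` (`ε'`), `w = max` of `2` and of the thresholds of `StAR` (`ε'`), `StAS` (`ε'`); `K` from `StAK` (`ε'`),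
`K ≥ 1`; all `κ_e = w! kp w K e` are admissible; `M ≥ 1` larger than the finitely many thresholds. Average over `e`:
`∑_e AF w κ_e M (m (f(2κ x ·) f(y ·) f(z ·)))/K^(w+1) ≥ (m f)³ - 15 ε'`, so for some `e` the average is `> (m f)³ - ε`; last clause of
`StTC` gives `a, n`; the triple is `2κ xF, yF, zF` (`xyzF`), and the product of the three indicators is the indicator of the
intersection. (hRep : RepS) (hTC : StTC) (hAm : StAm) (hAP : StAP) (hAR : StAR) (hAS : StAS) (hAK : StAK) -/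
def StAT : Prop := FatS

/-- [AX] (EASY-MEDIUM) `FinM`. Let `ι = {i : Fin (d+1) // i ≠ 0 ∧ ¬ Thin {p | cl p = i}}` and `cl' p = some ⟨cl p, _⟩` if `cl p` is
such an `i`, `none` otherwise. The set `{cl' = none}` is the union of the class `0` and of the thin classes, finitely many thin
sets, so it is thin; the classes `some i` are not thin. `InvA cl' A` follows from the hypothesis. (hF : FatS) -/
def StAX : Prop := FinM

/-- [AY] (EASY) `FinC`. `m` by `MeanS`; `r ≥ 1` because `c 0 : Fin r`. `∑_i m (ind {n | c n = i}) = m 1 = 1`, so some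
`δ = m (ind A) > 0`, `A = {n | c n = i}`; `FinM` with `ε = δ³/2` gives a triple with `m (ind {n | x n ∈ A ∧ ..}) > 0`, so this set
contains a positive integer `n` (`StAm`); `x n, y n, z n`. (hM : MeanS) (hAm : StAm) (hX : FinM) -/
def StAY : Prop := FinC

end Pool.Agent.F0f91f8.FC
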