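import Pool.Agent.Work.MP_0f91f8_co.FC.Defs

/-!
# Block FC, module H (Hilbert space of a mean, commuting isometries): statements with complete proofs (helper79)

Item `X`: statement `StX`, file `FC/I_X.lean`, theorem `pr_X`, namespace `Pool.Agent.F0f91f8.FC`. Earlier items may be
taken as hypotheses, as said in the docstring.
-/

set_option autoImplicit false

namespace Pool.Agent.F0f91f8.FC

open Filter Topology ComplexConjugate
open Pool.Agent.F0f91f8.HD
open scoped BigOperators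

section
variable {ι : Type} [Fintype ι] [DecidableEq ι]

/-- the vector of natural numbers of a point of the box -/
abbrev vl {L : ℕ} (j : ι → Fin L) : ι → ℕ := fun i => (j i : ℕ)

/-- the twisted sums over the box `[0,L)^ι` -/
noncomputable def tw {H : Type*} [NormedAddCommGroup H] [InnerProductSpace ℂ H]
    (S : (ι → ℕ) → H →ₗᵢ[ℂ] H) (L : ℕ) (z : ι → ℂ) (g : H) : H :=
  ∑ j : ι → Fin L, conj (ch z (vl j)) • S (vl j) g

/-- vectors of `N`-th roots of unity -/
noncomputable def rt (N : ℕ) (r : ι → Fin N) : ι → ℂ :=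
  fun i => Complex.exp (2 * Real.pi * Complex.I * ((r i : ℕ) : ℂ) / (N : ℂ))

end

/-- [HE] (EASY-MEDIUM) the interface statement `ErgS`. Let `D` be the set of all finite sums `∑ a ∈ s, (c a : ℂ) • S a f`,
`c ≥ 0`, `∑ c = 1` (convex: two elements given by `(s, c)`, `(s', c')` are written with `s ∪ s'` and the functions
`s.indicator c`, `s'.indicator c'`), and `K = closure D`, closed, convex, nonempty, hence complete. Let `e` be the element
of minimal norm of `K` (`exists_norm_eq_iInf_of_complete_convex` with `u = 0`; real inner product space by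
`InnerProductSpace.rclikeToReal ℂ H`; or by hand, parallelogram law and Cauchy sequences). Every `S b` maps `D` to `D`
(`S b (S a f) = S (b + a) f`; the coefficients of elements with equal `b + a` are added, or define `D` with finite index
types: `∃ (n : ℕ) (a : Fin n → G) (c : Fin n → ℝ)`, and pass to finsets at the end by summing over the fibres), hence
`K` to `K`. `S b e ∈ K` has the same norm as `e`, and the element of minimal norm is unique:
`‖e - e'‖² = 2 ‖e‖² + 2 ‖e'‖² - ‖e + e'‖² ≤ 4 d² - 4 d²` as `(e + e')/2 ∈ K`. So `S b e = e`. The approximation is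
`e ∈ closure D`. -/
def StHE : Prop := ErgS

/-- [HD] (EASY-MEDIUM) the interface statement `DecS`. Eigenvectors `e`, `e'` with unimodular characters `z ≠ z'` are
orthogonal: `z i ≠ z' i` for some `i`, `a = Pi.single i 1`, `ch z a = z i`,
`inner e e' = inner (S a e) (S a e') = conj (z i) * z' i * inner e e'` and `conj (z i) * z' i ≠ 1`. So `Es S Y` and `Es S Yᶜ`
(closed subspaces, complete, so the orthogonal projections exist) are orthogonal: the orthogonal complement of a set is a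
closed subspace, `Submodule.span_induction` and closure twice. Let `g₁`, `g₂` be the orthogonal projections of `g` to
`Es S Y`, `Es S Yᶜ`, and `g₃ = g - g₁ - g₂`. `g₃` is orthogonal to both subspaces and every joint eigenvector with a
unimodular character lies in one of them, so `Wm S g₃`. The three vectors are pairwise orthogonal, so
`‖g‖² = ‖g₁‖² + ‖g₂‖² + ‖g₃‖²`. -/
def StHD : Prop := DecS

/-- [HB] (EASY-MEDIUM) shift of a box. Let `B = [0,L)^ι` (as a `Finset (ι → ℕ)`: `Fintype.piFinset fun _ => range L`; the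
sum over `ι → Fin L` is the sum over `B`). `∑_{j ∈ B} f (a + j)` is the sum over `a + B`, so the difference of the two sums is
`∑_{(a+B) \ B} f - ∑_{B \ (a+B)} f`. The number of elements of `(a+B) \ B` is the number of `j ∈ B` with
`a i + j i ≥ L` for some `i`, at most `∑ i` (number of `j` with `j i ≥ L - a i`) `≤ ∑ i, a i * L^(d-1)`, and
`|B \ (a+B)| = |(a+B) \ B|` because `|a + B| = |B|`. Multiply by `L` (`L * L^(d-1) = L^d`, `d = card ι ≥ 1` if there is
an `i`; if `ι` is empty, both sums are equal). Another way: one step `a = Pi.single i 1` first, then induction. -/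
def StHB : Prop := ∀ (ι : Type) (_ : Fintype ι) (_ : DecidableEq ι) (H : Type)
  (_ : NormedAddCommGroup H) (f : (ι → ℕ) → H) (C : ℝ), (∀ j, ‖f j‖ ≤ C) → ∀ (a : ι → ℕ) (L : ℕ),
  (L : ℝ) * ‖(∑ j : ι → Fin L, f (a + vl j)) - ∑ j : ι → Fin L, f (vl j)‖ ≤
    2 * C * (∑ i, (a i : ℝ)) * (L : ℝ) ^ Fintype.card ι

/-- [HZ] (EASY-MEDIUM) one character. The operators `U a h = conj (ch z a) • S a h` are linear isometries
(`‖ch z a‖ = 1`) and an action of `ι → ℕ` (`ch z (a + b) = ch z a * ch z b`). `ErgS` for `U`, `f := g`: `e` with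
`U a e = e`, so `S a e = ch z a • e`, `EigV S z e`, and `inner e g = 0` by `Wm`. Then
`inner e (U a g) = inner (U a e) (U a g) = inner e g = 0`, so `inner e (convex combination) = 0` and
`‖e‖² = inner e (e - combination) ≤ ‖e‖ ε'` for every `ε' > 0`: `e = 0`. The statement is the last clause of `ErgS` with
`e = 0`. (hE : ErgS) -/
def StHZ : Prop := ∀ (ι : Type) (_ : Fintype ι) (_ : DecidableEq ι) (H : Type)
  (_ : NormedAddCommGroup H) (_ : InnerProductSpace ℂ H) (_ : CompleteSpace H)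
  (S : (ι → ℕ) → H →ₗᵢ[ℂ] H), IsAct S → ∀ g : H, Wm S g → ∀ z : ι → ℂ, Uni z →
  ∀ ε : ℝ, 0 < ε → ∃ (s : Finset (ι → ℕ)) (c : (ι → ℕ) → ℝ), (∀ a, 0 ≤ c a) ∧ ∑ a ∈ s, c a = 1 ∧
    ‖∑ a ∈ s, (c a : ℂ) • (conj (ch z a) • S a g)‖ ≤ ε

/-- [HU] (MEDIUM) uniform smallness of the twisted averages. By `StHZ` with `ε/4` every `z` of the torus `{z | Uni z}` (compact:
product of unit spheres) has a convex combination `(s, c)` with norm `≤ ε/4` at `z`; the norm of
`∑ a ∈ s, c a • conj (ch z' a) • S a g` is continuous in `z'`, so it is `≤ ε/2` in a neighbourhood of `z`. By compactness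
finitely many combinations `(s_k, c_k)` suffice for all `z`. Let `A` be the maximum of `∑ i, a i` over all `a ∈ s_k`. For
`L ≥ 1` and `z` unimodular, choose `k`. With `U a h = conj (ch z a) • S a h` (isometries, `U a (U b h) = U (a + b) h`):
`∑_j U j (∑_a c a U a g) = ∑_a c a ∑_j U (a + j) g`, its norm is `≤ L^d ε/2`, and `∑_j U (a + j) g` differs from
`∑_j U j g = tw S L z g` by at most `2 ‖g‖ A L^d / L` (`StHB` with `f a = U a g`, `C = ‖g‖`). So
`‖tw S L z g‖ ≤ L^d (ε/2 + 2 ‖g‖ A/L) ≤ ε L^d` for `L ≥ L₀`. (hZ : StHZ) (hB : StHB) -/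
def StHU : Prop := ∀ (ι : Type) (_ : Fintype ι) (_ : DecidableEq ι) (H : Type)
  (_ : NormedAddCommGroup H) (_ : InnerProductSpace ℂ H) (_ : CompleteSpace H)
  (S : (ι → ℕ) → H →ₗᵢ[ℂ] H), IsAct S → ∀ g : H, Wm S g → ∀ ε : ℝ, 0 < ε →
  ∃ L₀ : ℕ, ∀ L ≥ L₀, ∀ z : ι → ℂ, Uni z → ‖tw S L z g‖ ≤ ε * (L : ℝ) ^ Fintype.card ι

/-- [HF] (EASY) roots of unity. The left side is `∏ i, ∑ r : Fin N, ζ^(r (k i)) * conj (ζ^(r (l i)))`, `ζ = exp(2πi/N)`
(`Finset.prod_univ_sum`, `Fintype.piFinset_univ`), and for natural numbers `k, l < N` the inner sum is `N` if `k = l` and `0`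
otherwise (geometric sum with ratio `ζ^(k-l) ≠ 1`, `ζ` is a primitive root, `Complex.isPrimitiveRoot_exp`). -/
def StHF : Prop := ∀ (ι : Type) (_ : Fintype ι) (_ : DecidableEq ι) (N : ℕ), 1 ≤ N →
  ∀ k l : ι → ℕ, (∀ i, k i < N ∧ l i < N) →
  ∑ r : ι → Fin N, ch (rt N r) k * conj (ch (rt N r) l) =
    if k = l then (N : ℂ) ^ Fintype.card ι else 0

/-- [HW] (EASY-MEDIUM) first and second moments. `w = rt N r`, unimodular. `‖tw S M w g‖²` as a complex number is
`inner (tw S M w g) (tw S M w g) = ∑_{l,l'} ch w l * conj (ch w l') * inner (S l g) (S l' g)` over `l, l' ∈ [0,M)^ι`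
(the inner product is conjugate linear in the first variable). First claim: sum over `r` (`StHF`, all coordinates `< M ≤ N`),
the terms `l = l'` give `N^d * M^d * ‖g‖²`. Second claim: the product is
`∑_{l,l'} ∑_{j,k} ch w (l + j) * conj (ch w (l' + k)) * inner (S l g) (S l' g) * inner (S j g) (S k g)`; all coordinates of
`l + j`, `l' + k` are `< M + L ≤ N`, so the sum over `r` leaves `N^d` times the terms with `l + j = l' + k`, for which
`inner (S l g) (S l' g) = inner (S (l+j) g) (S (l'+j) g) = inner (S (l'+k) g) (S (l'+j) g) = inner (S k g) (S j g)`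
`= conj (inner (S j g) (S k g))`: the product of the two inner products is `‖inner (S j g) (S k g)‖²`. (hF : StHF) -/
def StHW : Prop := ∀ (ι : Type) (_ : Fintype ι) (_ : DecidableEq ι) (H : Type)
  (_ : NormedAddCommGroup H) (_ : InnerProductSpace ℂ H)
  (S : (ι → ℕ) → H →ₗᵢ[ℂ] H), IsAct S → ∀ (g : H) (N M L : ℕ), 1 ≤ N → M + L ≤ N →
  (∑ r : ι → Fin N, ‖tw S M (rt N r) g‖ ^ 2 =
    (N : ℝ) ^ Fintype.card ι * (M : ℝ) ^ Fintype.card ι * ‖g‖ ^ 2) ∧
  ∑ r : ι → Fin N, ‖tw S M (rt N r) g‖ ^ 2 * ‖tw S L (rt N r) g‖ ^ 2 =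
    (N : ℝ) ^ Fintype.card ι * ∑ j : ι → Fin L, ∑ k : ι → Fin L,
      (((Finset.univ : Finset ((ι → Fin M) × (ι → Fin M))).filter
        fun l => vl l.1 + vl j = vl l.2 + vl k).card : ℝ) *
      ‖inner ℂ (S (vl j) g) (S (vl k) g)‖ ^ 2

/-- [HC] (EASY) counting. For `t ∈ [0,M-L)^ι` the pair `(t + k, t + j)` is admissible (`t i + k i < (M - L) + L = M`), and
`t ↦ (t + k, t + j)` is injective. -/
def StHC : Prop := ∀ (ι : Type) (_ : Fintype ι) (_ : DecidableEq ι) (M L : ℕ), L ≤ M →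
  ∀ j k : ι → Fin L, ((M : ℝ) - L) ^ Fintype.card ι ≤
    (((Finset.univ : Finset ((ι → Fin M) × (ι → Fin M))).filter
      fun l => vl l.1 + vl j = vl l.2 + vl k).card : ℝ)

/-- [HV] (EASY) Fejer-Wiener inequality. `d = card ι`, `M = 2 (d + 1) L`, `N = M + L`, `L ≥ 1`. By `StHW`, `StHC`:
`N^d (M-L)^d ∑∑ |..|² ≤ ∑_r ‖tw M‖² ‖tw L‖² ≤ (δ L^d)² ∑_r ‖tw M‖² = δ² L^(2d) N^d M^d ‖g‖²` (`rt N r` is unimodular), and
`(M-L)^d ≥ M^d (1 - d L/M) ≥ M^d/2` (Bernoulli, `one_add_mul_le_pow`). (hW : StHW) (hC : StHC) -/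
def StHV : Prop := ∀ (ι : Type) (_ : Fintype ι) (_ : DecidableEq ι) (H : Type)
  (_ : NormedAddCommGroup H) (_ : InnerProductSpace ℂ H)
  (S : (ι → ℕ) → H →ₗᵢ[ℂ] H), IsAct S → ∀ (g : H) (L : ℕ) (δ : ℝ), 1 ≤ L → 0 ≤ δ →
  (∀ z : ι → ℂ, Uni z → ‖tw S L z g‖ ≤ δ * (L : ℝ) ^ Fintype.card ι) →
  ∑ j : ι → Fin L, ∑ k : ι → Fin L, ‖inner ℂ (S (vl j) g) (S (vl k) g)‖ ^ 2 ≤
    2 * δ ^ 2 * ‖g‖ ^ 2 * ((L : ℝ) ^ Fintype.card ι) ^ 2

/-- [HG] (EASY) Gram. Let `c j = inner F (v j)`, `X = ∑ |c j|²`, `Y = ∑∑ |inner (v j) (v k)|²`. Then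
`X = inner F (∑ conj (c j) • v j) ≤ ‖∑ conj (c j) • v j‖` (Cauchy-Schwarz, `‖F‖ ≤ 1`) and
`X² ≤ ‖∑ conj (c j) • v j‖² = ∑_{j,k} c j * conj (c k) * inner (v j) (v k) ≤ (∑_{j,k} |c j|² |c k|²)^(1/2) Y^(1/2) = X Y^(1/2)`
(Cauchy-Schwarz over pairs). If `X = 0` trivial, else `X ≤ Y^(1/2)`, so `X² ≤ Y`. -/
def StHG : Prop := ∀ (J : Type) (_ : Fintype J) (H : Type)
  (_ : NormedAddCommGroup H) (_ : InnerProductSpace ℂ H) (v : J → H) (F : H), ‖F‖ ≤ 1 →
  (∑ j, ‖inner ℂ F (v j)‖ ^ 2) ^ 2 ≤ ∑ j, ∑ k, ‖inner ℂ (v j) (v k)‖ ^ 2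

/-- [HS] (EASY) the interface statement `WmS`. `δ = ε/(2 (‖g‖ + 1))`, `L₀ ≥ 1` from `StHU` with `δ`. For `L ≥ L₀`:
`StHG` with `J = ι → Fin L`, `v j = S (β + vl j) g`, where
`inner (S (β + j) g) (S (β + k) g) = inner (S j g) (S k g)` (isometry), so with `X = ∑_j ‖inner F (S (β + j) g)‖²`:
`X² ≤ 2 δ² ‖g‖² L^(2d) ≤ (ε L^d)²` (`StHV`), and `bx L (..) = X / L^d ≤ ε`. (hU : StHU) (hV : StHV) (hG : StHG) -/
def StHS : Prop := WmS

/-- [ML] (EASY-MEDIUM) generalised limit: for bounded `f` let `Φ f` be the limit of `f` along a free ultrafilter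
(`Filter.hyperfilter ℕ`, `≤ atTop`; it exists because `Set.Icc (-C) C` is compact, `IsCompact.ultrafilter_le_nhds`, and is unique;
`lim` or `Classical.choose`; arbitrary for unbounded `f`). -/
def StML : Prop := ∃ Φ : (ℕ → ℝ) → ℝ,
  (∀ f g, BdR f → BdR g → Φ (fun n => f n + g n) = Φ f + Φ g) ∧
  (∀ (c : ℝ) f, BdR f → Φ (fun n => c * f n) = c * Φ f) ∧
  (∀ f, BdR f → (∀ n, 0 ≤ f n) → 0 ≤ Φ f) ∧
  ∀ (f : ℕ → ℝ) (c : ℝ), Tendsto f atTop (𝓝 c) → Φ f = c

/-- average over the divisors of `(K!)^K` -/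
noncomputable def dK (K : ℕ) (f : ℕ → ℝ) : ℝ :=
  (∑ d ∈ (K.factorial ^ K).divisors, f d) / ((K.factorial ^ K).divisors.card : ℝ)

/-- [MD] (EASY-MEDIUM) the divisors of `(K!)^K` are almost invariant under multiplication by a prime `q ≤ K`. Write
`(K!)^K = q^v N`, `q ∤ N`; `v ≥ K`. The divisors are the numbers `q^j d`, `0 ≤ j ≤ v`, `d ∣ N` (bijection; number
`(v + 1) τ(N)`), so `∑ f (q D) - ∑ f D = ∑_{d ∣ N} (f (q^(v+1) d) - f d)` (telescoping), of absolute value `≤ 2 C τ(N)`. Divide by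
`(v + 1) τ(N)`. -/
def StMD : Prop := ∀ (K q : ℕ), q.Prime → q ≤ K → ∀ (f : ℕ → ℝ) (C : ℝ), (∀ n, |f n| ≤ C) →
  |dK K (fun n => f (q * n)) - dK K f| ≤ 2 * C / ((K : ℝ) + 1)

/-- [MM] (EASY) the interface statement `MeanS`: `m f = Φ (fun K => dK K f)`. `dK K f` is bounded if `f` is, additive,
homogeneous, `≥ 0` if `f ≥ 0` at positive integers (divisors are positive), `1` for `f = 1`. Invariance under a prime `q`: the
sequence `dK K (f (q ·)) - dK K f` tends to `0` by `StMD`, and linearity. Invariance under `k > 0`: induction over the prime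
factors (`Nat.recOnMul` or `induction_on_primes`): `f (q k n) = h (k n)`, `h n = f (q n)`. (hL : StML) (hD : StMD) -/
def StMM : Prop := MeanS

/-- [RA] (EASY-MEDIUM) calculus of the complex mean (all functions bounded; real and imaginary parts of bounded functions are
bounded). Additivity and homogeneity from those of `m`. Conjugation. Bound: let `u` be unimodular with `u * mC m F = ‖mC m F‖`; then
`‖mC m F‖ = mC m (u F) = m (Re (u F)) ≤ C` (monotonicity from positivity: `C - Re (u F n) ≥ 0` for `n > 0`; the imaginary part of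
`mC m (u F)` is `m (Im (u F))` and vanishes since the number is real). `F = G` at positive integers: `F - G` is `0` there, bound
with `C = 0`. Last clause (Cauchy-Schwarz): for real `t > 0`
`|b F G| ≤ (C/2) (t |F|² + |G|²/t)` pointwise, so `‖mC m (b F G)‖ ≤ (C/2) (t m(|F|²) + m(|G|²)/t)` (same unimodular `u` trick), and
choose `t = (m(|G|²)/m(|F|²))^(1/2)`; if one of the two means is `0`, let `t → ∞` or `t → 0`. -/
def StRA : Prop := ∀ m : (ℕ → ℝ) → ℝ, IsMean m →
  (∀ F G, BdC F → BdC G → mC m (fun n => F n + G n) = mC m F + mC m G) ∧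
  (∀ (c : ℂ) F, BdC F → mC m (fun n => c * F n) = c * mC m F) ∧
  (∀ F, BdC F → mC m (fun n => conj (F n)) = conj (mC m F)) ∧
  (∀ f : ℕ → ℝ, mC m (fun n => (f n : ℂ)) = (m f : ℂ)) ∧
  (∀ k : ℕ, 0 < k → ∀ F, BdC F → mC m (fun n => F (k * n)) = mC m F) ∧
  (∀ F, BdC F → ∀ C : ℝ, (∀ n, 0 < n → ‖F n‖ ≤ C) → ‖mC m F‖ ≤ C) ∧
  (∀ F G, BdC F → BdC G → (∀ n, 0 < n → F n = G n) → mC m F = mC m G) ∧
  ∀ (b F G : ℕ → ℂ) (C : ℝ), (∀ n, ‖b n‖ ≤ C) → BdC F → BdC G →
    ‖mC m (fun n => b n * F n * G n)‖ ≤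
      C * Real.sqrt (m fun n => ‖F n‖ ^ 2) * Real.sqrt (m fun n => ‖G n‖ ^ 2)

end Pool.Agent.F0f91f8.FC
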