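import Pool.Agent.Work.MP_0f91f8_co.FC.Defs
import Pool.Agent.Work.MP_0f91f8_co.RC.StmtsD1

/-!
# Block FC, module P: pretentious functions and thin sets of primes (helper83)

Item `X`: statement `StX`, file `FC/I_X.lean`, theorem `pr_X`, namespace `Pool.Agent.F0f91f8.FC`.
Earlier items are hypotheses. `BR` (`HD/DefsD.lean`) is the average over `a = Q (v + v') + a₀`,
`s = u + u'`; here `Q = w!`, `D = a₀ = 1`, `n = w! s + 1`.
-/

set_option autoImplicit false

namespace Pool.Agent.F0f91f8.FC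

open Filter Topology ComplexConjugate
open Pool.Agent.F0f91f8.HD Pool.Agent.F0f91f8.RC Pool.Agent.F0f91f8.KR
open scoped BigOperators

open Classical in
/-- indicator of: `p` divides a member of the triple (except the factor `2 κ`) -/
noncomputable def dv (κ p a n : ℕ) : ℝ := if p ∣ xF κ a n * yF κ a n * zF κ a n then 1 else 0

/-- [Pa] (EASY) the averages of `FC/Defs.lean` are those of `HD/DefsD.lean`, `RC/Defs.lean`, `K/Defs.lean`, with `k = D = a₀ = 1`:
`tX κ 1 a n = 2 κ * xF κ a n`, `tY κ 1 a n = yF κ a n`, `tZ κ 1 a n = zF κ a n` (unfold, ring), `1 * M = M`,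
`M² M² = M⁴`. -/
def StPa : Prop :=
  (∀ (w κ M : ℕ) (Φ : ℕ → ℕ → ℕ → ℝ), AF w κ M Φ = BR w.factorial 1 1 M fun a s =>
    Φ (xF κ a (w.factorial * s + 1)) (yF κ a (w.factorial * s + 1))
      (zF κ a (w.factorial * s + 1))) ∧
  (∀ (w κ M : ℕ) (Φ : ℕ → ℕ → ℕ → ℂ), AC w κ M Φ = BxR w.factorial 1 1 M fun a n =>
    Φ (xF κ a n) (yF κ a n) (zF κ a n)) ∧
  ∀ κ a n : ℕ, tX κ 1 a n = 2 * κ * xF κ a n ∧ tY κ 1 a n = yF κ a n ∧ tZ κ 1 a n = zF κ a n

/-- [Pb] (EASY) `hv` and `fz`. `hv` is additive on products of positive integers (`Nat.factorization_mul`; write `hv` as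
a sum over all primes `≤ m n`, the terms outside `primeFactors` are zero), so `fz cl z` is completely
multiplicative, `CM`; at a prime `p` it is `z i` if `cl p = some i` and `1` if `cl p = none`. -/
def StPb : Prop := ∀ (ι : Type) (_ : Fintype ι) (_ : DecidableEq ι) (cl : ℕ → Option ι),
  (∀ m n : ℕ, 0 < m → 0 < n → hv cl (m * n) = hv cl m + hv cl n) ∧
  ∀ z : ι → ℂ, Uni z → CM (fz cl z) ∧
    (∀ (p : ℕ) (i : ι), p.Prime → cl p = some i → fz cl z p = z i) ∧
    ∀ p : ℕ, p.Prime → cl p = none → fz cl z p = 1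

/-- [EigS] (EASY-MEDIUM) the interface statement `EigS` of `FC/Defs.lean`. Let `f1 = fz cl z'`, `f2 = fz cl z`,
`f3 n = conj (f1 n * f2 n)`: all `CM` (`StPb`). By `PretStmt` one of `f1`, `f2` is aperiodic, so `Aper3`
(`κ`, `k = 1`, `Q = w!`, `D = 1`, `a₀ = 1`; `0 < w!`) gives
`BxR w! 1 1 M (f1 (tX κ 1 a n) f2 (tY κ 1 a n) f3 (tZ κ 1 a n)) → 0`. By `StPa` and `f1 (2 κ x) = f1 (2 κ) f1 x` this is
`f1 (2 κ) * AC w κ M (...)`: all arguments `a = w! (v + v') + 1`, `n`, hence `xF`, `yF`, `zF`, are positive, and for a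
positive `m` `fz cl z m = ch z (hv cl m)`. `‖f1 (2 κ)‖ = 1`. (hPa : StPa) (hPb : StPb) (hA : Aper3) (hC : PretStmt) -/
def StEigS : Prop := EigS

/-- [Ps] (EASY-MEDIUM) small primes. `p ∤ w!`, `p ∤ κ`, `p ∤ 2`. If `p ∣ x y z` then `p` divides one of `n`, `a + κ n`, `a`,
`a + 2 κ n`, `z = (a + κ n)² + (κ n)²` (prime). Fix `u'`, `v`, `v'` for `n = w! (u + u') + 1`: the number of
`u ∈ [1, M]` with `p ∣ w! u + c` is at most `M/p + 1 ≤ 2 M/p` (`p ≤ M`). For the other forms fix `u`, `u'`, `v'`;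
as functions of `v` they are `w! v + c` (three linear forms, at most `2 M/p` values `v` each) and
`(w! v + c)² + d²`: `p` divides it only if the class of `w! v + c` is one of the at most two roots of `X² = - d²` in
`ZMod p`, so at most `2 (M/p + 1) ≤ 4 M/p` values of `v`. Total `12/p`. -/
def StPs : Prop := ∀ w κ p M : ℕ, 2 ≤ w → Adm w κ → p.Prime → w < p → p ≤ M →
  (BR w.factorial 1 1 M fun a s => dv κ p a (w.factorial * s + 1)) ≤ 12 / (p : ℝ)

/-- [Pl] (EASY-MEDIUM) large primes. `dv ≤` the sum of the indicators of `p ∣ n`, `p ∣ a`, `p ∣ a + κ n`, `p ∣ a + 2 κ n`,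
`p ∣ z`. For the last one `StRZp` (`Q = w!`, `D = 1`, `k = 1`, `a₀ = 1`; `tZ κ 1 a n = zF κ a n`, `StPa`). The linear forms
are positive and at most `C1 M`, `C1 = 9 κ w!` (generous), so they are not divisible by `p > C1 M`; for
`M < p ≤ C1 M`, `p > w`: as in `StPs` the number of `u` (resp. `v`) in `[1, M]` is at most `M/p + 1 ≤ 2`, the
probability at most `2/M ≤ 2 C1/p`. (hPa : StPa) (hZp : StRZp) -/
def StPl : Prop := ∀ w κ : ℕ, 2 ≤ w → Adm w κ → ∃ C0 : ℝ, 0 < C0 ∧ ∀ M : ℕ, 1 ≤ M →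
  ∀ p : ℕ, p.Prime → w < p → M < p →
  (BR w.factorial 1 1 M fun a s => dv κ p a (w.factorial * s + 1)) ≤ C0 / (p : ℝ)

/-- [T0] (EASY, COPY of `RC.t_zero` in `RC/T0.lean`) the primes at which `p^(it)` is not close to `1` are not thin. The
proof of `RC.t_zero` works with `G p = if 1/2 ≤ ‖1 - p^(it)‖ then 1/p else 0` (the constant `1/4` becomes `1`).
(hBL : S_BL) -/
def StT0 : Prop := ∀ t : ℝ, Thin {p : ℕ | 1 / 2 ≤ ‖1 - ((p : ℕ) : ℂ) ^ ((t : ℂ) * Complex.I)‖} →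
  t = 0

/-- [Rz] (helper83) a pretentious `fz cl z` agrees with a Dirichlet character off a thin set, and the `z i` are roots of
unity of order `φ(q)`. (hPb : StPb) (hT0 : StT0) -/
def StRz : Prop := ∀ (ι : Type) (_ : Fintype ι) (_ : DecidableEq ι) (cl : ℕ → Option ι), Fat cl →
  ∀ z : ι → ℂ, Uni z → Pret (fz cl z) → ∃ (q : ℕ) (_ : NeZero q) (χ : DirichletCharacter ℂ q),
    Thin {p | fz cl z p ≠ χ ((p : ℕ) : ZMod q)} ∧ ∀ i, z i ^ q.totient = 1

end Pool.Agent.F0f91f8.FC
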