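import Pool.Agent.Work.MP_0f91f8_co.FC.Defs

/-!
# Block FC, module T (trilinear averages): statements with complete proofs (helper48)

Item `X`: statement `StX`, file `FC/I_X.lean`, theorem `pr_X`, namespace `Pool.Agent.F0f91f8.FC`. Earlier items may be
taken as hypotheses, and the interface statements `DomS`, `EigS`, `WmS`, `DecS` of `FC/Defs.lean`.
-/

set_option autoImplicit false

namespace Pool.Agent.F0f91f8.FC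

open Filter Topology ComplexConjugate
open Pool.Agent.F0f91f8.HD
open scoped BigOperators

/-- [TC] (EASY) calculus of the averages (finite sums with `M⁴` terms; the members `xF`, `yF`, `zF` of the family are
positive since `a, n > 0`). Square: Cauchy. Last clause: otherwise all terms are `≤ c` and `AF F ≤ c`. -/
def StTC : Prop := ∀ w κ M : ℕ, 1 ≤ M →
  (∀ Φ Ψ : ℕ → ℕ → ℕ → ℂ, AC w κ M (fun x y z => Φ x y z + Ψ x y z) =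
    AC w κ M Φ + AC w κ M Ψ) ∧
  (∀ (c : ℂ) (Φ : ℕ → ℕ → ℕ → ℂ), AC w κ M (fun x y z => c * Φ x y z) = c * AC w κ M Φ) ∧
  (∀ Φ : ℕ → ℕ → ℕ → ℂ, ‖AC w κ M Φ‖ ≤ AF w κ M fun x y z => ‖Φ x y z‖) ∧
  (∀ F : ℕ → ℕ → ℕ → ℝ, AC w κ M (fun x y z => (F x y z : ℂ)) = (AF w κ M F : ℂ)) ∧
  (∀ F G : ℕ → ℕ → ℕ → ℝ, AF w κ M (fun x y z => F x y z + G x y z) =
    AF w κ M F + AF w κ M G) ∧
  (∀ (c : ℝ) (F : ℕ → ℕ → ℕ → ℝ), AF w κ M (fun x y z => c * F x y z) = c * AF w κ M F) ∧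
  (∀ F G : ℕ → ℕ → ℕ → ℝ, (∀ x y z, 0 < x → 0 < y → 0 < z → F x y z ≤ G x y z) →
    AF w κ M F ≤ AF w κ M G) ∧
  (∀ c : ℝ, AF w κ M (fun _ _ _ => c) = c) ∧
  (∀ F : ℕ → ℕ → ℕ → ℝ, AF w κ M F ^ 2 ≤ AF w κ M fun x y z => F x y z ^ 2) ∧
  ∀ (F : ℕ → ℕ → ℕ → ℝ) (c : ℝ), c < AF w κ M F →
    ∃ a n : ℕ, 0 < a ∧ 0 < n ∧ c < F (xF κ a n) (yF κ a n) (zF κ a n)

/-- [TA] (EASY) `nn pp α > 0` (the `pp i` are primes), `nn pp 0 = 1`, `nn pp (α + β) = nn pp α * nn pp β`; so `Sa R pp` is an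
action (`T_one`, `T_mul`) and commutes with every `R.T k`, `k > 0`. -/
def StTA : Prop := ∀ (ι : Type) (_ : Fintype ι) (_ : DecidableEq ι) (cl : ℕ → Option ι)
  (pp : ι → ℕ), Rpr cl pp → (∀ α β : ι → ℕ, 0 < nn pp α ∧ nn pp (α + β) = nn pp α * nn pp β) ∧
  ∀ (m : (ℕ → ℝ) → ℝ) (R : Rep m), IsAct (Sa R pp) ∧
    ∀ (k : ℕ) (α : ι → ℕ) (h : R.H), 0 < k → R.T k (Sa R pp α h) = Sa R pp α (R.T k h)

/-- [TB] (EASY-MEDIUM) the trilinear expression, `|b| ≤ 1` (so `b` and its dilations are bounded by `1`). Bound: `B_le` with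
`C = 1` and isometry. Linearity: `B_add`, `B_smul`, `B_symm`. Symmetry: `B_symm`. Eigenvectors: `Sa α h = ch z' α • h`,
`Sa β k = ch z β • k`, and `h = conj (ch z' γ) • Sa γ h`, `k = conj (ch z γ) • Sa γ k` (unimodular), so
`B (b(nn γ ·)) h k = conj (ch z' γ ch z γ) B (b(nn γ ·)) (T h) (T k) = conj (..) B b h k` (`B_T` with `n = nn pp γ > 0`). -/
def StTB : Prop := ∀ (ι : Type) (_ : Fintype ι) (_ : DecidableEq ι) (cl : ℕ → Option ι)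
  (pp : ι → ℕ), Rpr cl pp → ∀ (m : (ℕ → ℝ) → ℝ) (R : Rep m) (b : ℕ → ℂ), (∀ n, ‖b n‖ ≤ 1) →
  (∀ h k α β γ, ‖Tr R pp b h k α β γ‖ ≤ ‖h‖ * ‖k‖) ∧
  (∀ h h' k α β γ, Tr R pp b (h + h') k α β γ = Tr R pp b h k α β γ + Tr R pp b h' k α β γ) ∧
  (∀ (c : ℂ) (h k : R.H) (α β γ : ι → ℕ), Tr R pp b (c • h) k α β γ = c * Tr R pp b h k α β γ) ∧
  (∀ h k α β γ, Tr R pp b h k α β γ = Tr R pp b k h β α γ) ∧
  ∀ (z' z : ι → ℂ) (h k : R.H), Uni z' → Uni z → EigV (Sa R pp) z' h → EigV (Sa R pp) z k →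
    ∀ α β γ, Tr R pp b h k α β γ =
      R.B b h k * (ch z' α * ch z β * conj (ch z' γ * ch z γ))

/-- [TR] (EASY-MEDIUM) Riesz. `k ↦ B (b(nn γ ·)) (Sa α h) k` is a linear functional of norm `≤ ‖h‖` (`B_le` with `C = 1`, `B_symm`,
`B_add`, `B_smul`); `InnerProductSpace.toDual`. -/
def StTR : Prop := ∀ (ι : Type) (_ : Fintype ι) (_ : DecidableEq ι) (cl : ℕ → Option ι)
  (pp : ι → ℕ), Rpr cl pp → ∀ (m : (ℕ → ℝ) → ℝ) (R : Rep m) (b : ℕ → ℂ), (∀ n, ‖b n‖ ≤ 1) →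
  ∀ (h : R.H) (α γ : ι → ℕ), ∃ F : R.H, ‖F‖ ≤ ‖h‖ ∧
    ∀ (k : R.H) (β : ι → ℕ), Tr R pp b h k α β γ = inner ℂ F (Sa R pp β k)

/-- [TW] (EASY-MEDIUM) weakly mixing vectors do not contribute. `DomS` with `ε²/2` gives `w₀`, and for `w`, `κ` a constant `C`.
`WmS` for `Sa R pp` (an action, `StTA`), `g` and `ε²/(2C)` gives `L ≥ 1`; then `M₀` from `DomS` with `H = L` (`M₀ ≥ 1`).
`φ α β γ = ‖Tr b h g α β γ‖² ≤ 1`; for fixed `α, γ` it is `‖inner F (Sa β g)‖²`, `‖F‖ ≤ 1` (`StTR`), so the averages over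
shifted boxes in `β` are `≤ ε²/(2C)` and `AF φ ≤ ε²`; `(AF ‖Tr‖)² ≤ AF ‖Tr‖²` (`StTC`). Second claim: symmetry
(`StTB`), shifts in `α`. (hDom : DomS) (hWm : WmS) (hTC : StTC) (hTA : StTA) (hTB : StTB) (hTR : StTR) -/
def StTW : Prop := ∀ (ι : Type) (_ : Fintype ι) (_ : DecidableEq ι) (cl : ℕ → Option ι), Fat cl →
  ∀ ε : ℝ, 0 < ε → ∃ w₀ : ℕ, ∀ w ≥ w₀, ∀ κ : ℕ, Adm w κ →
  ∀ (pp : ι → ℕ), Rpr cl pp → ∀ (m : (ℕ → ℝ) → ℝ) (R : Rep m) (b : ℕ → ℂ), (∀ n, ‖b n‖ ≤ 1) →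
  ∀ h g : R.H, ‖h‖ ≤ 1 → ‖g‖ ≤ 1 → Wm (Sa R pp) g → ∃ M₀ : ℕ, ∀ M ≥ M₀,
    AF w κ M (fun x y t => ‖Tr R pp b h g (hv cl x) (hv cl y) (hv cl t)‖) ≤ ε ∧
    AF w κ M (fun x y t => ‖Tr R pp b g h (hv cl x) (hv cl y) (hv cl t)‖) ≤ ε

/-- [TE] (EASY) two eigenvectors: `StTB` (last clause) and `EigS`. (hE : EigS) (hTC : StTC) (hTB : StTB) -/
def StTE : Prop := ∀ (ι : Type) (_ : Fintype ι) (_ : DecidableEq ι) (cl : ℕ → Option ι)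
  (pp : ι → ℕ), Rpr cl pp → ∀ (m : (ℕ → ℝ) → ℝ) (R : Rep m) (b : ℕ → ℂ), (∀ n, ‖b n‖ ≤ 1) →
  ∀ (z' z : ι → ℂ) (h k : R.H), Uni z' → Uni z → EigV (Sa R pp) z' h → EigV (Sa R pp) z k →
  (¬ Pret (fz cl z') ∨ ¬ Pret (fz cl z)) → ∀ w κ : ℕ, Adm w κ →
  Tendsto (fun M : ℕ => AC w κ M fun x y t => Tr R pp b h k (hv cl x) (hv cl y) (hv cl t))
    atTop (𝓝 0)

/-- [TS] (EASY-MEDIUM) closed spans. The set of pairs for which the average tends to `0`: it contains the pairs (eigenvector,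
eigenvector with non pretentious character) by `StTE`; it is closed under sums and scalar multiples in each variable
(`StTB`, `StTC`; the sum of two sequences tending to `0`), so it contains (span, span) (`Submodule.span_induction`
twice); it is closed under limits, because `‖AC .. Tr b h k‖ ≤ ‖h‖ ‖k‖` for `M ≥ 1` (`StTC`, `StTB`):
`‖AC Tr b h k‖ ≤ ‖h - h'‖ ‖k‖ + ‖h'‖ ‖k - k'‖ + ‖AC Tr b h' k'‖`. Second claim: the same, or `StTB` symmetry in the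
first step (`StTE` with the roles of `h`, `k` exchanged). (hTC : StTC) (hTB : StTB) (hTE : StTE) -/
def StTS : Prop := ∀ (ι : Type) (_ : Fintype ι) (_ : DecidableEq ι) (cl : ℕ → Option ι)
  (pp : ι → ℕ), Rpr cl pp → ∀ (m : (ℕ → ℝ) → ℝ) (R : Rep m) (b : ℕ → ℂ), (∀ n, ‖b n‖ ≤ 1) →
  ∀ h g : R.H, h ∈ Es (Sa R pp) Set.univ → g ∈ Es (Sa R pp) {z | ¬ Pret (fz cl z)} →
  ∀ w κ : ℕ, Adm w κ → ∀ ε : ℝ, 0 < ε → ∃ M₀ : ℕ, ∀ M ≥ M₀,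
    ‖AC w κ M fun x y t => Tr R pp b h g (hv cl x) (hv cl y) (hv cl t)‖ ≤ ε ∧
    ‖AC w κ M fun x y t => Tr R pp b g h (hv cl x) (hv cl y) (hv cl t)‖ ≤ ε

/-- [TU] (EASY-MEDIUM) `TriS`. `w₀` of `StTW` for `ε/4`. `DecS` with `Y = univ`: `h = (h₁ + h₂) + h₃`, `h₁ + h₂ ∈ Es univ`
(`Es ∅ ≤ Es univ`), `h₃` weakly mixing, `‖h₃‖ ≤ 1`. By linearity (`StTB`, `StTC`)
`Tr b h (g₁+g₂+g₃) = Tr b h g₁ + Tr b (h₁+h₂) g₂ + Tr b h₃ g₂ + Tr b h g₃`: the averages are `≤ ‖g₁‖` (`‖h‖ ≤ 1`), `≤ ε/4`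
(`StTS`), `≤ ε/4` (`StTW`, second claim with `g := h₃`, `h := g₂`), `≤ ε/4` (`StTW`, first claim). The second part in the
same way. (hDec : DecS) (hTC : StTC) (hTA : StTA) (hTB : StTB) (hTW : StTW) (hTS : StTS) -/
def StTU : Prop := TriS

end Pool.Agent.F0f91f8.FC
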