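import Pool.Agent.Work.MP_0f91f8_co.FC.StmtsA

/-!
# Block FC, module U (finitary uniform density form, several sets, approximate invariance): statements with complete
proofs (helper79)

Item `X`: statement `StX`, file `FC/I_X.lean`, theorem `pr_X`, namespace `Pool.Agent.F0f91f8.FC`. Earlier items and the
items of `FC/StmtsA.lean`, `FC/StmtsT.lean` may be taken as hypotheses (all of them are proved: `FC/All.lean`).
-/

set_option autoImplicit false

namespace Pool.Agent.F0f91f8.FC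

open Filter Topology ComplexConjugate
open Pool.Agent.F0f91f8.HD
open scoped BigOperators

/-- functions for which primes of the same class act in the same way almost everywhere -/
def InvM (m : (ℕ → ℝ) → ℝ) {ι : Type} (cl : ℕ → Option ι) (F : ℕ → ℝ) : Prop :=
  ∀ (p q : ℕ) (i : ι), p.Prime → q.Prime → cl p = some i → cl q = some i →
    m (fun n => |F (p * n) - F (q * n)|) = 0

/-- [UA] (EASY-MEDIUM) if all prime factors of `x > 0` belong to classes then `F (x n) = F (nn pp (hv cl x) n)` for almost all `n`. The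
proof of `pr_AA` (`FC/I_AA.lean`, lemmas `XAA.nn_mul`, `XAA.nn_prime`, `XAA.nn_one`) with null functions. Induction on `x`:
`x = p y`, `cl p = some i`, `nn (hv x) = pp i * nn (hv y)`:
`|F (x n) - F (nn (hv x) n)| ≤ g (y n) + h (pp i n)`, `g n = |F (p n) - F (pp i n)|`, `h n = |F (y n) - F (nn (hv y) n)|`, and
`m (g (y ·)) = m g = 0` (`InvM`), `m (h (pp i ·)) = m h = 0` (induction), so by monotonicity the mean is `≤ 0`, and `≥ 0`.
(hAm : StAm) -/
def StUA : Prop := ∀ (ι : Type) (_ : Fintype ι) (_ : DecidableEq ι) (cl : ℕ → Option ι)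
  (pp : ι → ℕ), Rpr cl pp → ∀ (m : (ℕ → ℝ) → ℝ), IsMean m → ∀ F : ℕ → ℝ, BdR F → InvM m cl F →
  ∀ x : ℕ, 0 < x → (∀ p : ℕ, p.Prime → p ∣ x → cl p ≠ none) →
  m (fun n => |F (x * n) - F (nn pp (hv cl x) * n)|) = 0

/-- [US] (EASY-MEDIUM) the statement `StAS` for functions which are invariant almost everywhere. The proof of `pr_AS` (`FC/I_AS.lean`, copy it);
only the claim `hFG` changes: the difference of the two integrands at `n` is at most
`|f (x (2κ n)) - f (nn (hv x) (2κ n))| + |f (y n) - f (nn (hv y) n)| + |f (t n) - f (nn (hv t) n)|` (values in `[0,1]`), three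
functions of mean `0` by `StUA` and dilation invariance (`2κ > 0`).
(hTh : ThinS) (hTC : StTC) (hAm : StAm) (hUA : StUA) (hAM : StAM) -/
def StUS : Prop := ∀ (ι : Type) (_ : Fintype ι) (_ : DecidableEq ι) (cl : ℕ → Option ι), Fat cl →
  ∀ (pp : ι → ℕ), Rpr cl pp → ∀ (m : (ℕ → ℝ) → ℝ), IsMean m → ∀ f : ℕ → ℝ, I01 f → InvM m cl f →
  ∀ ε : ℝ, 0 < ε → ∃ w₀ : ℕ, ∀ w ≥ w₀, ∀ κ : ℕ, Adm w κ → ∃ M₀ : ℕ, ∀ M ≥ M₀,
  AF w κ M (fun x y t => Qm m pp f (dil (2 * κ) f) f (hv cl x) (hv cl y) (hv cl t)) - ε ≤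
    AF w κ M fun x y t => m fun n => f (2 * κ * x * n) * f (y * n) * f (t * n)

/-- [UT] (EASY-MEDIUM) the density theorem for `r` functions and one triple. The proof of `pr_AT` (`FC/I_AT.lean`, copy it) for the sum over `i`:
`r = 0`: any triple (`3, 4, 5`). `ε' = ε/(32 r)`; `StAP` for every `f i`; `w` above the thresholds of `StAR` and `StUS` for every `i`;
`K` above the thresholds of `StAK` for every `i`; `M` above finitely many thresholds. For every `e` and `i`: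
`m (f' i ² f' i (2κ_e ·)) - 14 ε' ≤ AF w κ_e M (m (f i (2κ_e x ·) f i (y ·) f i (t ·)))`; sum over `i` (`StTC`, additivity, induction),
average over `e` (`StAK`: `≥ ∑ (m (f i)^3 - ε')`): for some `e` the average over the family of the sum over `i` is
`> ∑ m (f i)^3 - ε`, and the last clause of `StTC` gives the member.
(hRep : RepS) (hTC : StTC) (hAm : StAm) (hAP : StAP) (hAR : StAR) (hUS : StUS) (hAK : StAK) -/
def StUT : Prop := ∀ (ι : Type) (_ : Fintype ι) (_ : DecidableEq ι) (cl : ℕ → Option ι), Fat cl →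
  ∀ m : (ℕ → ℝ) → ℝ, IsMean m → ∀ (r : ℕ) (f : Fin r → ℕ → ℝ), (∀ i, I01 (f i)) →
  (∀ i, InvM m cl (f i)) → ∀ ε : ℝ, 0 < ε →
  ∃ x y z : ℕ, 0 < x ∧ 0 < y ∧ 0 < z ∧ x ^ 2 + y ^ 2 = z ^ 2 ∧
    ∑ i, m (f i) ^ 3 - ε ≤ ∑ i, m (fun n => f i (x * n) * f i (y * n) * f i (z * n))

/-- [UX] (EASY) arbitrary classes. The proof of `pr_AX` (`FC/I_AX.lean`, `XAX.thin_of`, `XAX.thin_union`) for the classes
`cl₁ p = 0` if `p ∈ P`, `cl₁ p = (cl p).succ` otherwise, in `Fin (d + 1)`: fat classes are kept, the others go to `none`.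
(hUT : StUT) -/
def StUX : Prop := ∀ P : Set ℕ, (Summable fun p : {p : ℕ // p.Prime ∧ p ∈ P} => 1 / ((p : ℕ) : ℝ)) →
  ∀ (d : ℕ) (cl : ℕ → Fin d) (m : (ℕ → ℝ) → ℝ), IsMean m → ∀ (r : ℕ) (f : Fin r → ℕ → ℝ),
  (∀ i, I01 (f i)) → (∀ p q : ℕ, p.Prime → q.Prime → p ∉ P → q ∉ P → cl p = cl q →
    ∀ i, m (fun n => |f i (p * n) - f i (q * n)|) = 0) → ∀ ε : ℝ, 0 < ε →
  ∃ x y z : ℕ, 0 < x ∧ 0 < y ∧ 0 < z ∧ x ^ 2 + y ^ 2 = z ^ 2 ∧
    ∑ i, m (f i) ^ 3 - ε ≤ ∑ i, m (fun n => f i (x * n) * f i (y * n) * f i (z * n))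

/-- the finitary uniform density form -/
def FinF : Prop := ∀ P : Set ℕ, (Summable fun p : {p : ℕ // p.Prime ∧ p ∈ P} => 1 / ((p : ℕ) : ℝ)) →
  ∀ (d r : ℕ) (ε : ℝ), 0 < ε → ∃ (k : ℕ) (δ : ℝ), 0 < δ ∧ ∀ (cl : ℕ → Fin d) (F : Finset ℕ),
  F.Nonempty → (∀ n ∈ F, 0 < n) →
  (∀ p : ℕ, p ≤ k → p.Prime →
    (1 - δ) * (F.card : ℝ) ≤ ((F.filter fun n => p * n ∈ F).card : ℝ)) →
  ∀ A : Fin r → Finset ℕ, (∀ i, A i ⊆ F) →
  (∀ p q : ℕ, p ≤ k → q ≤ k → p.Prime → q.Prime → p ∉ P → q ∉ P → cl p = cl q →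
    ∀ i, ((F.filter fun n => p * n ∈ A i ∧ q * n ∈ F ∧ q * n ∉ A i).card : ℝ) ≤
      δ * (F.card : ℝ)) →
  ∃ x y z : ℕ, 0 < x ∧ 0 < y ∧ x ≤ k ∧ y ≤ k ∧ z ≤ k ∧ x ^ 2 + y ^ 2 = z ^ 2 ∧
    (∑ i, ((A i).card : ℝ) ^ 3) / (F.card : ℝ) ^ 2 - ε * (F.card : ℝ) ≤
      ∑ i, ((F.filter fun n => x * n ∈ A i ∧ y * n ∈ A i ∧ z * n ∈ A i).card : ℝ)

/-- [UL] (EASY-MEDIUM) the mean of a sequence of finite sets. `Φ` from `StML` (`FC/StmtsH.lean`; here as a hypothesis, a generalised limit).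
`m g = Φ (fun K => (∑ n ∈ F K, g (N K * n)) / |F K|)`. It is linear, positive (`N K * n > 0` for `n ∈ F K`), unital. Invariance under a
prime `p`: for `K ≥ p` the sums of `g (N K * (p * n))` and of `g (N K * n)` over `n ∈ F K` differ by at most
`C (|{n ∈ F : p n ∉ F}| + |{n ∈ F : n ∉ p F}|) ≤ 2 C |F K|/(K+1)` (`|g| ≤ C`; the elements `p n` with `n ∈ F`, `p n ∈ F` are at least
`(1 - 1/(K+1)) |F|` elements of `F`), so the sequence of the differences of the averages tends to `0`. Invariance under `k > 0`: induction over the prime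
factors as in `FC/I_MM.lean`. -/
def StUL : Prop := ∀ Φ : (ℕ → ℝ) → ℝ,
  (∀ f g, BdR f → BdR g → Φ (fun n => f n + g n) = Φ f + Φ g) →
  (∀ (c : ℝ) f, BdR f → Φ (fun n => c * f n) = c * Φ f) →
  (∀ f, BdR f → (∀ n, 0 ≤ f n) → 0 ≤ Φ f) →
  (∀ (f : ℕ → ℝ) (c : ℝ), Tendsto f atTop (𝓝 c) → Φ f = c) →
  ∀ (F : ℕ → Finset ℕ) (N : ℕ → ℕ), (∀ K, (F K).Nonempty) → (∀ K, ∀ n ∈ F K, 0 < n) →
  (∀ K, 0 < N K) → (∀ K p : ℕ, p ≤ K → p.Prime →
    (1 - 1 / ((K : ℝ) + 1)) * ((F K).card : ℝ) ≤ (((F K).filter fun n => p * n ∈ F K).card : ℝ)) →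
  IsMean fun g => Φ fun K => (∑ n ∈ F K, g (N K * n)) / ((F K).card : ℝ)

/-- [UF] (MEDIUM) compactness. Suppose `FinF` fails for `P`, `d`, `r`, `ε`. For every `K` take `k = K`, `δ = 1/(K+1)`: there are
`cl K`, `F K`, `A K i` which satisfy the hypotheses, but no triple with the conclusion. Let `𝒰 = Filter.hyperfilter ℕ`, `Φ f` the limit of the bounded
sequence `f` along `𝒰` (as in `FC/I_ML.lean`; it has the four properties of `StUL`, and moreover `Φ f = c` if `f → c` along `𝒰`, and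
`Φ f ≤ Φ g` if `f ≤ g` on a set of `𝒰`). Let `cl₀ p ∈ Fin d` be the limit of `cl K p` along `𝒰` (finitely many values,
`FC/I_AZ.lean`, `XAZ.lim`). Choose `N K > 0` increasing so fast that `N K > N J * n` for all `J < K`, `n ∈ F J`: then
`N K * n = N J * n'`, `n ∈ F K`, `n' ∈ F J` implies `J = K` (and `n = n'`). Let `f i j = 1` if `j = N K * n` for some `K` and `n ∈ A K i`, else
`0`; so for `n ∈ F K`: `f i (N K * n) = 1` iff `n ∈ A K i`. Let `m` be the mean of `StUL`.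
(1) `m (f i) = lim |A K i|/|F K|`.
(2) For primes `p, q ∉ P` with `cl₀ p = cl₀ q`: for `𝒰`-almost all `K` (`K ≥ p, q`, `cl K p = cl K q`) the number of `n ∈ F K` with
`f i (N K p n) ≠ f i (N K q n)` is at most `4 |F K|/(K+1)`: `p n ∉ F K` or `q n ∉ F K` (at most `|F K|/(K+1)` each), or one of
`p n`, `q n` is in `A K i` and the other in `F K \ A K i` (at most `2 |F K|/(K+1)`). So `m (|f i (p ·) - f i (q ·)|) = 0`.
(3) For `x, y, z > 0`: the set of `n ∈ F K` with `x n ∉ F K` has at most `C_x |F K|/(K+1)` elements for `K ≥ x` (product of primes; or use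
that `m` is invariant: `m (1 on ∪ N K F K) = 1`, so its dilation by `x` has mean `1`), so
`m (f i (x ·) f i (y ·) f i (z ·)) = lim |{n ∈ F K : x n, y n, z n ∈ A K i}|/|F K|`. Another way for (3): only the inequality `≤` is
needed, and the mean of the indicator of `{j : x j ∉ U}`, `U = ∪ N K F K`, is `0`.
`StUX` for `cl₀`, `m`, `f` and `ε/2`: a triple with `∑ m (f i)^3 - ε/2 ≤ ∑ m (f i (x ·) f i (y ·) f i (z ·))`; so for `𝒰`-almost all `K`, with
`K ≥ x, y, z`, `∑ (|A K i|/|F K|)^3 - ε ≤ ∑ |{n ∈ F K : x n, y n, z n ∈ A K i}|/|F K|`; multiply by `|F K|`: contradiction.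
(hUX : StUX) (hUL : StUL) -/
def StUF : Prop := FinF

end Pool.Agent.F0f91f8.FC
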